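import Pool.Agent.H.MP_2e666d_lc.Chain

/-! # States without roles, the cut phase

A state `(s; r; q)` of a chain for the word `W` (positions `0, 1, ...`): `s` is the position of the
last letter read on the active tape, `r` the position of the next letter of the host tape, `q` the
position of the last letter read on the passive tape. -/

namespace Pool.Agent.H.MP_2e666d_lc

/-- the phase from the state `(s; r; q)` with the last letter (of the active tape) at `e` -/
structure Ph (W : List ℕ) (s r q e : ℕ) : Prop where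
  lt : s < e
  le : e < W.length
  lr : r < W.length
  iw : ∀ i, s < i → i < e → (i - s) % 2 = 1 → W.getD i 0 ≤ W.getD r 0
  iu : ∀ i, s < i → i < e → (i - s) % 2 = 0 → W.getD i 0 ≤ W.getD q 0
  cw : ∃ i, s < i ∧ i ≤ e ∧ (i - s) % 2 = 1 ∧ W.getD r 0 ≤ W.getD i 0
  cu : ∃ i, s ≤ i ∧ i ≤ e ∧ (i - s) % 2 = 0 ∧ W.getD q 0 ≤ W.getD i 0

/-- from the state `(s; r; q)` the word can be completed with at most `k` phases -/
def Comp (W : List ℕ) (k s r q : ℕ) : Prop :=
  ∀ (u v w : Fin 3), u ≠ v → u ≠ w → v ≠ w → ∀ c : Fin 3 → ℕ,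
    c v.rev = s + 1 → c u.rev = r → c w.rev = q + 1 →
    ∃ Ns : List ℕ, Ns.length ≤ k ∧ LCh W Ns c u v w (W.getD q 0 ≤ W.getD s 0)

theorem Comp.mono {W : List ℕ} {k k' s r q : ℕ} (h : Comp W k s r q) (hk : k ≤ k') :
    Comp W k' s r q := by
  intro u v w h1 h2 h3 c hv hu hw
  obtain ⟨Ns, hN, hc⟩ := h u v w h1 h2 h3 c hv hu hw
  exact ⟨Ns, hN.trans hk, hc⟩

theorem cut_roles : ∀ u v w t : Fin 3, u ≠ v → u ≠ w → v ≠ w →
    t = v.rev ∨ t = u.rev ∨ t = w.rev := by decide

/-- the final state -/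
theorem Comp.final {W : List ℕ} {n : ℕ} (h : W.length = n + 1) : Comp W 0 n (n + 1) n := by
  intro u v w h1 h2 h3 c hv hu hw
  refine ⟨[], le_rfl, ?_, le_rfl⟩
  intro t
  rcases cut_roles u v w t h1 h2 h3 with rfl | rfl | rfl <;> omega

theorem LChain_of_Comp {W : List ℕ} {k : ℕ} (h : Comp W k 0 0 0) :
    ∃ Ns : List ℕ, Ns.length ≤ k ∧ LChain W Ns := by
  obtain ⟨Ns, hN, hc⟩ := h 0 2 1 (by decide) (by decide) (by decide)
    (fun t => if t = 2 then 0 else 1) (by decide) (by decide) (by decide)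
  refine ⟨Ns, hN, ?_⟩
  have : (W.getD 0 0 ≤ W.getD 0 0) = True := by simp
  rw [this] at hc
  exact hc

/-- one phase, the two cases -/
theorem Comp.step {W : List ℕ} {k s r q e : ℕ} (h : Ph W s r q e)
    (h1 : (e - s) % 2 = 1 → Comp W k r (q + 1) e)
    (h0 : (e - s) % 2 = 0 → Comp W k q (r + 1) e) : Comp W (k + 1) s r q := by
  intro u v w huv huw hvw c hv hu hw
  obtain ⟨N, rfl⟩ : ∃ N, e = s + 1 + N := ⟨e - s - 1, by have := h.lt; omega⟩
  have hN : s + 1 + N - s = N + 1 := by omega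
  rw [hN] at h1 h0
  -- the rest of the chain
  have key : ∃ Ns : List ℕ, Ns.length ≤ k ∧
      LCh W Ns (fun t => if t = v.rev then c t + (N + 1) else if t = u.rev then c t + 1 else c t)
        (if (N + 1) % 2 = 1 then w else u) (if (N + 1) % 2 = 1 then u else w) v
        (W.getD (c v.rev + (N + 1 - 1)) 0 ≤
          if (N + 1) % 2 = 1 then W.getD (c u.rev) 0 else W.getD (c w.rev - 1) 0) := by
    have e1 : c v.rev + (N + 1 - 1) = s + 1 + N := by omega
    have e2 : c w.rev - 1 = q := by omega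
    have ruv : u.rev ≠ v.rev := fun hx => huv (Fin.rev_injective hx)
    have ruw : u.rev ≠ w.rev := fun hx => huw (Fin.rev_injective hx)
    have rvw : v.rev ≠ w.rev := fun hx => hvw (Fin.rev_injective hx)
    rw [e1, e2, hu]
    by_cases ho : (N + 1) % 2 = 1
    · simp only [if_pos ho]
      refine h1 ho w u v (Ne.symm huw) (Ne.symm hvw) huv _ ?_ ?_ ?_
      · rw [if_neg ruv, if_pos rfl, hu]
      · rw [if_neg (Ne.symm rvw), if_neg (Ne.symm ruw), hw]
      · rw [if_pos rfl, hv]; omega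
    · simp only [if_neg ho]
      refine h0 (by omega) u w v huw huv (Ne.symm hvw) _ ?_ ?_ ?_
      · rw [if_neg (Ne.symm rvw), if_neg (Ne.symm ruw), hw]
      · rw [if_neg ruv, if_pos rfl, hu]
      · rw [if_pos rfl, hv]; omega
  obtain ⟨Ns, hk, hc⟩ := key
  refine ⟨(N + 1) :: Ns, by simpa using hk, ?_⟩
  unfold LCh
  have e2 : c w.rev - 1 = q := by omega
  have hle := h.le
  have hlr := h.lr
  refine ⟨⟨by omega, by omega, by omega⟩, ?_, ?_, ?_, ?_, hc⟩
  · intro i hi hi2
    rw [hv, hu]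
    exact h.iw (s + 1 + i) (by omega) (by omega) (by omega)
  · intro i hi hi2
    rw [hv, e2]
    exact h.iu (s + 1 + i) (by omega) (by omega) (by omega)
  · rw [hv, hu]
    obtain ⟨i, i1, i2, i3, i4⟩ := h.cw
    by_cases hie : i = s + 1 + N
    · right
      refine ⟨by omega, ?_⟩
      have : s + 1 + (N + 1 - 1) = i := by omega
      rw [this]
      exact i4
    · left
      refine ⟨i - (s + 1), by omega, by omega, ?_⟩
      have : s + 1 + (i - (s + 1)) = i := by omega
      rw [this]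
      exact le_antisymm (h.iw i (by omega) (by omega) i3) i4
  · rw [hv, e2]
    obtain ⟨i, i1, i2, i3, i4⟩ := h.cu
    by_cases his : i = s
    · left
      rw [his] at i4
      exact i4
    · right
      by_cases hie : i = s + 1 + N
      · right
        refine ⟨by omega, ?_⟩
        have : s + 1 + (N + 1 - 1) = i := by omega
        rw [this]
        exact i4
      · left
        refine ⟨i - (s + 1), by omega, by omega, ?_⟩
        have : s + 1 + (i - (s + 1)) = i := by omega
        rw [this]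
        exact le_antisymm (h.iu i (by omega) (by omega) i3) i4

/-- the cut phase: both bounds are `2` -/
theorem Ph.cut {W : List ℕ} {s r q e : ℕ} (hse : s < e) (he : e < W.length) (hr : r < W.length)
    (r2 : W.getD r 0 = 2) (q2 : W.getD q 0 = 2)
    (hi : ∀ i, s < i → i < e → W.getD i 0 ≤ 2)
    (ha : ∃ i, s ≤ i ∧ i ≤ e ∧ i % 2 = 0 ∧ 2 ≤ W.getD i 0)
    (hb : ∃ i, s ≤ i ∧ i ≤ e ∧ i % 2 = 1 ∧ 2 ≤ W.getD i 0) : Ph W s r q e := by
  refine ⟨hse, he, hr, fun i h1 h2 _ => r2 ▸ hi i h1 h2, fun i h1 h2 _ => q2 ▸ hi i h1 h2, ?_, ?_⟩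
  · rw [r2]
    rcases Nat.mod_two_eq_zero_or_one s with hs | hs
    · obtain ⟨i, i1, i2, i3, i4⟩ := hb
      exact ⟨i, by omega, i2, by omega, i4⟩
    · obtain ⟨i, i1, i2, i3, i4⟩ := ha
      exact ⟨i, by omega, i2, by omega, i4⟩
  · rw [q2]
    rcases Nat.mod_two_eq_zero_or_one s with hs | hs
    · obtain ⟨i, i1, i2, i3, i4⟩ := ha
      exact ⟨i, by omega, i2, by omega, i4⟩
    · obtain ⟨i, i1, i2, i3, i4⟩ := hb
      exact ⟨i, by omega, i2, by omega, i4⟩

end Pool.Agent.H.MP_2e666d_lc
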