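import Pool.Agent.H.MP_2e666d_lc.FSCanon
import Pool.Agent.H.MP_2e666d_lc.Cut

/-! # The mirror theorem

The mirror of the word `33 V 44` is `33 (V reversed) 44`.  The mirror of the state `(s; r; q)` is the
state `(L - 1 - q; L - r; L - 1 - s)`, a phase of the word from one state to the next one becomes a
phase of the mirror word from the mirror of the second state to the mirror of the first one. -/

namespace Pool.Agent.H.MP_2e666d_lc

/-- exchange of `3` and `4` -/
def mirMu (a : ℕ) : ℕ := if a = 3 then 4 else if a = 4 then 3 else a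

/-- `W'` is the mirror of `W` -/
structure MirW (W W' : List ℕ) : Prop where
  len : W'.length = W.length
  big : 5 ≤ W.length
  lo : ∀ i ≤ 1, W.getD i 0 = 3
  hi : ∀ i < W.length, W.length ≤ i + 2 → W.getD i 0 = 4
  mid : ∀ i, 2 ≤ i → i + 2 < W.length → W.getD i 0 ≤ 2
  get : ∀ i < W.length, W'.getD (W.length - 1 - i) 0 = mirMu (W.getD i 0)

theorem MirW.mono {W W' : List ℕ} (h : MirW W W') {i b : ℕ} (hi : i < W.length)
    (hb : b < W.length) (hib : W.getD i 0 ≤ W.getD b 0) (hx : i ≤ 1 → b + 2 < W.length) :
    W'.getD (W.length - 1 - i) 0 ≤ W'.getD (W.length - 1 - b) 0 := by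
  rw [h.get i hi, h.get b hb]
  have h1 : W.getD i 0 ≠ 3 ∨ W.getD b 0 ≠ 4 := by
    by_cases h2 : i ≤ 1
    · right
      have h3 := hx h2
      by_cases h4 : b ≤ 1
      · rw [h.lo b h4]; decide
      · have := h.mid b (by omega) h3
        omega
    · left
      by_cases h3 : i + 2 < W.length
      · have := h.mid i (by omega) h3
        omega
      · rw [h.hi i hi (by omega)]; decide
  have hle : ∀ j < W.length, W.getD j 0 ≤ 4 := by
    intro j hj
    by_cases h4 : j ≤ 1
    · rw [h.lo j h4]; decide
    · by_cases h5 : j + 2 < W.length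
      · have := h.mid j (by omega) h5
        omega
      · rw [h.hi j hj (by omega)]
  have hi4 := hle i hi
  have hb4 := hle b hb
  unfold mirMu
  generalize W.getD i 0 = x at *
  generalize W.getD b 0 = y at *
  split_ifs <;> omega

/-- the mirror of a phase -/
theorem Ph.mirror {W W' : List ℕ} (h : MirW W W') {s r q e : ℕ} (hp : Ph W s r q e)
    (hq : q < W.length) (i1 : r ≤ 1 → s = 0) (i2 : s = 0 → r ≤ 1) (i3 : q ≤ 1 → s ≤ 1) :
    ((e - s) % 2 = 1 → Ph W' (W.length - 1 - e) (W.length - 1 - q) (W.length - 1 - r)
      (W.length - 1 - s)) ∧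
    ((e - s) % 2 = 0 → Ph W' (W.length - 1 - e) (W.length - 1 - r) (W.length - 1 - q)
      (W.length - 1 - s)) := by
  have hlt := hp.lt
  have hle := hp.le
  have hlr := hp.lr
  have hlen := h.len
  have hbig := h.big
  -- interior letters of the odd class
  have iw : ∀ k, s < k → k < e → (k - s) % 2 = 1 →
      W'.getD (W.length - 1 - k) 0 ≤ W'.getD (W.length - 1 - r) 0 := by
    intro k k1 k2 k3
    refine h.mono (by omega) hlr (hp.iw k k1 k2 k3) fun k4 => ?_
    have := i2 (by omega)
    omega
  have iu : ∀ k, s < k → k < e → (k - s) % 2 = 0 →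
      W'.getD (W.length - 1 - k) 0 ≤ W'.getD (W.length - 1 - q) 0 := by
    intro k k1 k2 k3
    exact h.mono (by omega) hq (hp.iu k k1 k2 k3) fun k4 => by omega
  have cw : ∃ k, s ≤ k ∧ k ≤ e ∧ (k - s) % 2 = 1 ∧
      W'.getD (W.length - 1 - r) 0 ≤ W'.getD (W.length - 1 - k) 0 := by
    by_cases hr : r ≤ 1
    · have hs := i1 hr
      refine ⟨1, by omega, by omega, by omega, ?_⟩
      refine h.mono hlr (by omega) ?_ fun _ => by omega
      rw [h.lo r hr, h.lo 1 le_rfl]
    · obtain ⟨k, k1, k2, k3, k4⟩ := hp.cw
      exact ⟨k, by omega, k2, k3, h.mono hlr (by omega) k4 fun h5 => absurd h5 hr⟩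
  have cu : ∃ k, s ≤ k ∧ k ≤ e ∧ (k - s) % 2 = 0 ∧
      W'.getD (W.length - 1 - q) 0 ≤ W'.getD (W.length - 1 - k) 0 := by
    by_cases hr : q ≤ 1
    · have hs := i3 hr
      refine ⟨s, le_rfl, by omega, by omega, ?_⟩
      refine h.mono hq (by omega) ?_ fun _ => by omega
      rw [h.lo q hr, h.lo s hs]
    · obtain ⟨k, k1, k2, k3, k4⟩ := hp.cu
      exact ⟨k, by omega, k2, k3, h.mono hq (by omega) k4 fun h5 => absurd h5 hr⟩
  constructor
  · intro ho
    refine ⟨by omega, by omega, by omega, ?_, ?_, ?_, ?_⟩
    · intro i h1 h2 h3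
      have := iu (W.length - 1 - i) (by omega) (by omega) (by omega)
      rwa [show W.length - 1 - (W.length - 1 - i) = i by omega] at this
    · intro i h1 h2 h3
      have := iw (W.length - 1 - i) (by omega) (by omega) (by omega)
      rwa [show W.length - 1 - (W.length - 1 - i) = i by omega] at this
    · obtain ⟨k, k1, k2, k3, k4⟩ := cu
      exact ⟨W.length - 1 - k, by omega, by omega, by omega, k4⟩
    · obtain ⟨k, k1, k2, k3, k4⟩ := cw
      exact ⟨W.length - 1 - k, by omega, by omega, by omega, k4⟩
  · intro ho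
    refine ⟨by omega, by omega, by omega, ?_, ?_, ?_, ?_⟩
    · intro i h1 h2 h3
      have := iw (W.length - 1 - i) (by omega) (by omega) (by omega)
      rwa [show W.length - 1 - (W.length - 1 - i) = i by omega] at this
    · intro i h1 h2 h3
      have := iu (W.length - 1 - i) (by omega) (by omega) (by omega)
      rwa [show W.length - 1 - (W.length - 1 - i) = i by omega] at this
    · obtain ⟨k, k1, k2, k3, k4⟩ := cw
      exact ⟨W.length - 1 - k, by omega, by omega, by omega, k4⟩
    · obtain ⟨k, k1, k2, k3, k4⟩ := cu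
      exact ⟨W.length - 1 - k, by omega, by omega, by omega, k4⟩

/-- the mirror of the rest of a chain -/
theorem mirror_rest {W W' : List ℕ} (h : MirW W W') : ∀ (Ns : List ℕ) (c : Fin 3 → ℕ)
    (u v w : Fin 3) (sat : Prop) (s r q k : ℕ), LCh W Ns c u v w sat → u ≠ v → u ≠ w → v ≠ w →
    c v.rev = s + 1 → c u.rev = r → c w.rev = q + 1 → (sat → W.getD q 0 ≤ W.getD s 0) →
    s < W.length → q < W.length → (r ≤ 1 → s = 0) → (s = 0 → r ≤ 1) → (q ≤ 1 → s ≤ 1) →
    (q = 0 → r = 0) → (r = 0 → q = 0) →
    Comp W' k (W.length - 1 - q) (W.length - r) (W.length - 1 - s) →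
    Comp W' (k + Ns.length) 0 0 0 := by
  intro Ns
  induction Ns with
  | nil =>
    intro c u v w sat s r q k hc huv huw hvw hv hu hw hsat hs hq i1 i2 i3 i4 i5 hk
    obtain ⟨h1, h2⟩ := hc
    have e1 := h1 v.rev
    have e2 := h1 u.rev
    have e3 := h1 w.rev
    have a1 : W.length - 1 - q = 0 := by omega
    have a2 : W.length - r = 0 := by omega
    have a3 : W.length - 1 - s = 0 := by omega
    rw [a1, a2, a3] at hk
    simpa using hk
  | cons N Ns ih =>
    intro c u v w sat s r q k hc huv huw hvw hv hu hw hsat hs hq i1 i2 i3 i4 i5 hk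
    unfold LCh at hc
    obtain ⟨⟨n1, n2, n3⟩, c1, c2, c3, c4, hrest⟩ := hc
    have eq : c w.rev - 1 = q := by omega
    rw [hv, hu] at c1
    rw [hv, eq] at c2
    rw [hv, hu] at c3
    rw [hv, eq] at c4
    rw [hv, hu, eq] at hrest
    have ruv : u.rev ≠ v.rev := fun hx => huv (Fin.rev_injective hx)
    have ruw : u.rev ≠ w.rev := fun hx => huw (Fin.rev_injective hx)
    have rvw : v.rev ≠ w.rev := fun hx => hvw (Fin.rev_injective hx)
    have hph : Ph W s r q (s + N) := by
      refine ⟨by omega, by omega, by omega, ?_, ?_, ?_, ?_⟩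
      · intro i h1 h2 h3
        have := c1 (i - (s + 1)) (by omega) (by omega)
        rwa [show s + 1 + (i - (s + 1)) = i by omega] at this
      · intro i h1 h2 h3
        have := c2 (i - (s + 1)) (by omega) (by omega)
        rwa [show s + 1 + (i - (s + 1)) = i by omega] at this
      · rcases c3 with ⟨i, h1, h2, h3⟩ | ⟨h1, h2⟩
        · exact ⟨s + 1 + i, by omega, by omega, by omega, h3.ge⟩
        · refine ⟨s + 1 + (N - 1), by omega, by omega, by omega, h2⟩
      · rcases c4 with h1 | ⟨i, h1, h2, h3⟩ | ⟨h1, h2⟩
        · exact ⟨s, le_rfl, by omega, by omega, hsat h1⟩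
        · exact ⟨s + 1 + i, by omega, by omega, by omega, h3.ge⟩
        · exact ⟨s + 1 + (N - 1), by omega, by omega, by omega, h2⟩
    have e1 : s + 1 + (N - 1) = s + N := by omega
    rw [e1] at hrest
    have hN : s + N - s = N := by omega
    obtain ⟨m1, m0⟩ := hph.mirror h hq i1 i2 i3
    rw [hN] at m1 m0
    have hlt := hph.lt
    have hle := hph.le
    have hlr := hph.lr
    have hlen : k + (N :: Ns).length = (k + 1) + Ns.length := by
      rw [List.length_cons]; omega
    rw [hlen]
    by_cases ho : N % 2 = 1
    · simp only [if_pos ho] at hrest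
      have hk' : Comp W' (k + 1) (W.length - 1 - (s + N)) (W.length - (q + 1))
          (W.length - 1 - r) := by
        have hm := m1 ho
        rw [show W.length - 1 - q = W.length - (q + 1) by omega] at hm
        refine Comp.step hm (fun _ => ?_) (fun hx => ?_)
        · rw [show W.length - (q + 1) = W.length - 1 - q by omega,
            show W.length - 1 - r + 1 = W.length - r by omega]
          exact hk
        · exfalso
          omega
      refine ih _ w u v _ r (q + 1) (s + N) (k + 1) hrest (Ne.symm huw) (Ne.symm hvw) huv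
        ?_ ?_ ?_ (fun hx => hx) hlr hle ?_ ?_ ?_ ?_ ?_ hk'
      · rw [if_neg ruv, if_pos rfl, hu]
      · rw [if_neg (Ne.symm rvw), if_neg (Ne.symm ruw), hw]
      · rw [if_pos rfl, hv]; omega
      · intro hx; exact i4 (by omega)
      · intro hx; have := i5 hx; omega
      · intro hx; exact i2 (by omega)
      · intro hx; omega
      · intro hx; omega
    · simp only [if_neg ho] at hrest
      have ho' : N % 2 = 0 := by omega
      have hk' : Comp W' (k + 1) (W.length - 1 - (s + N)) (W.length - (r + 1))
          (W.length - 1 - q) := by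
        have hm := m0 ho'
        rw [show W.length - 1 - r = W.length - (r + 1) by omega] at hm
        refine Comp.step hm (fun hx => ?_) (fun _ => ?_)
        · exfalso
          omega
        · rw [show W.length - (r + 1) + 1 = W.length - r by omega]
          exact hk
      refine ih _ u w v _ q (r + 1) (s + N) (k + 1) hrest huw huv (Ne.symm hvw)
        ?_ ?_ ?_ (fun hx => hx) hq hle ?_ ?_ ?_ ?_ ?_ hk'
      · rw [if_neg (Ne.symm rvw), if_neg (Ne.symm ruw), hw]
      · rw [if_neg ruv, if_pos rfl, hu]
      · rw [if_pos rfl, hv]; omega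
      · intro hx; exact i5 (by omega)
      · intro hx; have := i4 hx; omega
      · intro hx; omega
      · intro hx; omega
      · intro hx; omega

/-- the mirror of a chain -/
theorem LChain.mirror {W W' Ns : List ℕ} (h : MirW W W') (hc : LChain W Ns) :
    ∃ Ns' : List ℕ, Ns'.length ≤ Ns.length ∧ LChain W' Ns' := by
  have hbig := h.big
  have hlen := h.len
  have hfin : Comp W' 0 (W.length - 1 - 0) (W.length - 0) (W.length - 1 - 0) := by
    have := Comp.final (W := W') (n := W.length - 1) (by omega)
    rwa [show W.length - 1 + 1 = W.length by omega] at this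
  have key := mirror_rest h Ns _ 0 2 1 True 0 0 0 0 hc (by decide) (by decide) (by decide)
    (by decide) (by decide) (by decide) (fun _ => le_rfl) (by omega) (by omega) (fun _ => rfl)
    (fun _ => by omega) (fun _ => by omega) (fun _ => rfl) (fun _ => rfl) hfin
  rw [Nat.zero_add] at key
  exact LChain_of_Comp key

theorem mirW_word {V : List ℕ} (h0 : V ≠ []) (hV : ∀ a ∈ V, a ≤ 2) :
    MirW (3 :: 3 :: (V ++ [4, 4])) (3 :: 3 :: (V.reverse ++ [4, 4])) := by
  have hlen : (3 :: 3 :: (V ++ [4, 4])).length = V.length + 4 := by simp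
  have hpos : 0 < V.length := List.length_pos_iff.2 h0
  have hmu : V.map mirMu = V := by
    conv_rhs => rw [← List.map_id V]
    refine List.map_congr_left fun a ha => ?_
    have := hV a ha
    unfold mirMu
    rw [if_neg (by omega), if_neg (by omega)]
    rfl
  have hrev : (3 :: 3 :: (V.reverse ++ [4, 4])) = ((3 :: 3 :: (V ++ [4, 4])).map mirMu).reverse := by
    simp [hmu, mirMu]
  refine ⟨by simp, by omega, ?_, ?_, ?_, ?_⟩
  · intro i hi
    rcases Nat.lt_or_ge i 1 with h | h
    · have : i = 0 := by omega
      subst this; rfl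
    · have : i = 1 := by omega
      subst this; rfl
  · intro i hi1 hi2
    rw [hlen] at hi1 hi2
    obtain ⟨j, rfl⟩ : ∃ j, i = j + 2 := ⟨i - 2, by omega⟩
    rw [List.getD_cons_succ, List.getD_cons_succ, List.getD_append_right _ _ _ _ (by omega)]
    rcases Nat.lt_or_ge (j - V.length) 1 with h | h
    · have : j - V.length = 0 := by omega
      rw [this]; rfl
    · have : j - V.length = 1 := by omega
      rw [this]; rfl
  · intro i hi1 hi2
    rw [hlen] at hi2
    obtain ⟨j, rfl⟩ : ∃ j, i = j + 2 := ⟨i - 2, by omega⟩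
    rw [List.getD_cons_succ, List.getD_cons_succ, List.getD_append _ _ _ _ (by omega),
      List.getD_eq_getElem _ _ (by omega)]
    exact hV _ (List.getElem_mem _)
  · intro i hi
    rw [hrev, List.getD_eq_getElem _ _ (by simp), List.getD_eq_getElem _ _ hi,
      List.getElem_reverse, List.getElem_map]
    congr 2
    simp only [List.length_map]
    omega

namespace T3

theorem mir_succ (n : ℕ) : decide ((n + 1) % 2 = 1) = !decide (n % 2 = 1) := by
  rcases Nat.mod_two_eq_zero_or_one n with h | h
  · rw [decide_eq_true (by omega), decide_eq_false (by omega)]; rfl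
  · rw [decide_eq_false (by omega), decide_eq_true h]; rfl

theorem mir_add (m n : ℕ) :
    decide ((m + n) % 2 = 1) = (decide (m % 2 = 1) ^^ decide (n % 2 = 1)) := by
  rcases Nat.mod_two_eq_zero_or_one m with h | h <;>
    rcases Nat.mod_two_eq_zero_or_one n with h' | h'
  · rw [decide_eq_false (by omega), decide_eq_false (by omega), decide_eq_false (by omega)]; rfl
  · rw [decide_eq_true (by omega), decide_eq_false (by omega), decide_eq_true (by omega)]; rfl
  · rw [decide_eq_true (by omega), decide_eq_true (by omega), decide_eq_false (by omega)]; rfl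
  · rw [decide_eq_false (by omega), decide_eq_true (by omega), decide_eq_true (by omega)]; rfl

theorem mir_zero (n : ℕ) : decide (n % 2 = 0) = !decide (n % 2 = 1) := by
  rcases Nat.mod_two_eq_zero_or_one n with h | h
  · rw [decide_eq_true h, decide_eq_false (by omega)]; rfl
  · rw [decide_eq_false (by omega), decide_eq_true h]; rfl

theorem mir_if {n : ℕ} {o : Bool} (h : n % 2 = (if o then 1 else 0)) : decide (n % 2 = 1) = o := by
  cases o
  · exact decide_eq_false (by simp at h; omega)
  · exact decide_eq_true (by simpa using h)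

theorem Inst.append {q : Bool} {A B : List Cell} {U V : List ℕ} (h : Inst q A U)
    (hB : Inst (q ^^ decide (U.length % 2 = 1)) B V) : Inst q (A ++ B) (U ++ V) := by
  induction h with
  | nil q => simpa using hB
  | letter q v cs W h ih =>
    refine Inst.letter _ _ _ _ (ih ?_)
    rw [List.length_cons, mir_succ] at hB
    revert hB
    cases q <;> cases decide (W.length % 2 = 1) <;> exact id
  | stretch q o i j cs T W h1 h2 h3 h ih =>
    rw [List.cons_append, List.append_assoc]
    refine Inst.stretch _ _ _ _ _ _ _ h1 h2 h3 (ih ?_)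
    rw [List.length_append, mir_add, mir_if h1] at hB
    revert hB
    cases q <;> cases o <;> cases decide (W.length % 2 = 1) <;> exact id

theorem Inst.reverse {q : Bool} {A : List Cell} {U : List ℕ} (h : Inst q A U) :
    Inst (q ^^ !decide (U.length % 2 = 1)) A.reverse U.reverse := by
  induction h with
  | nil q => exact Inst.nil _
  | letter q v cs W h ih =>
    rw [List.reverse_cons, List.reverse_cons, List.length_cons, mir_succ]
    have e1 : (q ^^ !(!decide (W.length % 2 = 1))) = ((!q) ^^ !decide (W.length % 2 = 1)) := by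
      cases q <;> cases decide (W.length % 2 = 1) <;> rfl
    rw [e1]
    exact ih.append (Inst.letter _ _ _ _ (Inst.nil _))
  | stretch q o i j cs T W h1 h2 h3 h ih =>
    rw [List.reverse_cons, List.reverse_append, List.length_append, mir_add, mir_if h1]
    have e1 : (q ^^ !(o ^^ decide (W.length % 2 = 1))) =
        ((q ^^ o) ^^ !decide (W.length % 2 = 1)) := by
      cases q <;> cases o <;> cases decide (W.length % 2 = 1) <;> rfl
    rw [e1]
    refine ih.append ?_
    rw [List.length_reverse]
    have e2 : (((q ^^ o) ^^ !decide (W.length % 2 = 1)) ^^ decide (W.length % 2 = 1)) =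
        !(q ^^ o) := by
      cases q <;> cases o <;> cases decide (W.length % 2 = 1) <;> rfl
    rw [e2]
    have hget : ∀ k < T.length, T.reverse.getD k 0 = T.getD (T.length - 1 - k) 0 := by
      intro k hk
      rw [List.getD_eq_getElem _ _ (by simpa using hk), List.getElem_reverse,
        List.getD_eq_getElem _ _ (by omega)]
    have key := Inst.stretch (!(q ^^ o)) o i j [] T.reverse []
      (by rw [List.length_reverse]; exact h1) ?_ ?_ (Inst.nil _)
    · simpa using key
    · intro k hk hk2
      rw [List.length_reverse] at hk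
      rw [hget k hk]
      cases o
      · rw [if_neg (by decide)] at h1
        have h4 := h3 (T.length - 1 - k) (by omega) (by omega)
        cases q <;> simpa using h4
      · rw [if_pos rfl] at h1
        have h4 := h2 (T.length - 1 - k) (by omega) (by omega)
        cases q <;> simpa using h4
    · intro k hk hk2
      rw [List.length_reverse] at hk
      rw [hget k hk]
      cases o
      · rw [if_neg (by decide)] at h1
        have h4 := h2 (T.length - 1 - k) (by omega) (by omega)
        cases q <;> simpa using h4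
      · rw [if_pos rfl] at h1
        have h4 := h3 (T.length - 1 - k) (by omega) (by omega)
        cases q <;> simpa using h4

/-- parity of the length of the words -/
def mirPar : List Cell → Bool
  | [] => false
  | Cell.L _ :: cs => !mirPar cs
  | Cell.S o _ _ :: cs => o ^^ mirPar cs

/-- all letters are at most `2` -/
def mirLe : List Cell → Bool
  | [] => true
  | Cell.L a :: cs => Nat.ble a 2 && mirLe cs
  | Cell.S _ i j :: cs => Nat.ble i 2 && Nat.ble j 2 && mirLe cs

theorem mirPar_len {q : Bool} {A : List Cell} {U : List ℕ} (h : Inst q A U) :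
    mirPar A = decide (U.length % 2 = 1) := by
  induction h with
  | nil q => rfl
  | letter q v cs W h ih => rw [mirPar, ih, List.length_cons, mir_succ]
  | stretch q o i j cs T W h1 h2 h3 h ih => rw [mirPar, ih, List.length_append, mir_add, mir_if h1]

theorem mirLe_le {q : Bool} {A : List Cell} {U : List ℕ} (h : Inst q A U)
    (hA : mirLe A = true) : ∀ a ∈ U, a ≤ 2 := by
  induction h with
  | nil q => simp
  | letter q v cs W h ih =>
    rw [mirLe, Bool.and_eq_true] at hA
    intro a ha
    rcases List.mem_cons.1 ha with rfl | ha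
    · exact Nat.le_of_ble_eq_true hA.1
    · exact ih hA.2 a ha
  | stretch q o i j cs T W h1 h2 h3 h ih =>
    rw [mirLe, Bool.and_eq_true, Bool.and_eq_true] at hA
    obtain ⟨⟨hi, hj⟩, hA⟩ := hA
    have hi := Nat.le_of_ble_eq_true hi
    have hj := Nat.le_of_ble_eq_true hj
    intro a ha
    rcases List.mem_append.1 ha with ha | ha
    · obtain ⟨k, hk, rfl⟩ := List.mem_iff_getElem.1 ha
      rw [← List.getD_eq_getElem _ 0 hk]
      rcases Nat.mod_two_eq_zero_or_one k with h4 | h4
      · refine (h2 k hk h4).trans ?_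
        split <;> assumption
      · refine (h3 k hk h4).trans ?_
        split <;> assumption
    · exact ih hA a ha

theorem mirPar_reverse (A : List Cell) : mirPar A.reverse = mirPar A := by
  have happ : ∀ A B : List Cell, mirPar (A ++ B) = (mirPar A ^^ mirPar B) := by
    intro A B
    induction A with
    | nil => simp [mirPar]
    | cons a A ih =>
      cases a with
      | L v => rw [List.cons_append, mirPar, ih, mirPar]; cases mirPar A <;> cases mirPar B <;> rfl
      | S o i j => rw [List.cons_append, mirPar, ih, mirPar, Bool.xor_assoc]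
  induction A with
  | nil => rfl
  | cons a A ih =>
    rw [List.reverse_cons, happ, ih]
    cases a with
    | L v => cases h : mirPar A <;> simp [mirPar, h]
    | S o i j => cases h : mirPar A <;> cases o <;> simp [mirPar, h]

/-- splitting an instance of a concatenation -/
theorem Inst.split {q : Bool} {A B : List Cell} {W : List ℕ} (h : Inst q (A ++ B) W) :
    ∃ U V, W = U ++ V ∧ Inst q A U ∧ Inst (q ^^ decide (U.length % 2 = 1)) B V := by
  induction A generalizing q W with
  | nil => exact ⟨[], W, rfl, Inst.nil _, by simpa using h⟩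
  | cons a A ih =>
    rw [List.cons_append] at h
    cases h with
    | letter _ v _ W h =>
      obtain ⟨U, V, rfl, h1, h2⟩ := ih h
      refine ⟨v :: U, V, rfl, Inst.letter _ _ _ _ h1, ?_⟩
      rw [List.length_cons, mir_succ]
      revert h2
      cases q <;> cases decide (U.length % 2 = 1) <;> exact id
    | stretch _ o i j _ T W h1 h2 h3 h =>
      obtain ⟨U, V, rfl, h4, h5⟩ := ih h
      refine ⟨T ++ U, V, by simp, Inst.stretch _ _ _ _ _ _ _ h1 h2 h3 h4, ?_⟩
      rw [List.length_append, mir_add, mir_if h1]
      revert h5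
      cases q <;> cases o <;> cases decide (U.length % 2 = 1) <;> exact id

/-- **The mirror theorem** -/
theorem Good.mirror {K : ℕ} {A : List Cell}
    (h : Good K (Cell.L 3 :: Cell.L 3 :: (A ++ [Cell.L 4, Cell.L 4])))
    (hp : mirPar A = true) (hl : mirLe A = true) :
    Good K (Cell.L 3 :: Cell.L 3 :: (A.reverse ++ [Cell.L 4, Cell.L 4])) := by
  intro W hW
  cases hW with
  | letter _ _ _ W hW =>
  cases hW with
  | letter _ _ _ W hW =>
  obtain ⟨U, V, rfl, h1, h2⟩ := hW.split
  have hV : V = [4, 4] := by
    cases h2 with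
    | letter _ _ _ V h2 =>
    cases h2 with
    | letter _ _ _ V h2 =>
    cases h2 with
    | nil => rfl
  subst hV
  have hpar := mirPar_len h1
  rw [mirPar_reverse, hp] at hpar
  have hodd : U.length % 2 = 1 := of_decide_eq_true hpar.symm
  have h3 := h1.reverse
  rw [List.reverse_reverse, ← hpar] at h3
  have h4 : Inst false A U.reverse := h3
  have hle := mirLe_le h4 hl
  have hne : U.reverse ≠ [] := by
    intro hx
    have : U = [] := by simpa using hx
    rw [this] at hodd
    simp at hodd
  have hinst : Inst false (Cell.L 3 :: Cell.L 3 :: (A ++ [Cell.L 4, Cell.L 4]))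
      (3 :: 3 :: (U.reverse ++ [4, 4])) := by
    refine Inst.letter _ _ _ _ (Inst.letter _ _ _ _ ?_)
    exact h4.append (Inst.letter _ _ _ _ (Inst.letter _ _ _ _ (Inst.nil _)))
  obtain ⟨Ns, hN, hc⟩ := h _ hinst
  have hm := mirW_word hne hle
  rw [List.reverse_reverse] at hm
  obtain ⟨Ns', hN', hc'⟩ := hc.mirror hm
  exact ⟨Ns', hN'.trans hN, hc'⟩

theorem goodBA_of_AB {K p q : ℕ} (hp : p ≤ 2) (hq : q ≤ 2) (h : Good K (clsAB q p)) :
    Good K (clsBA p q) := by
  have := Good.mirror (A := [Cell.L q, Cell.S true 2 1, Cell.L 2, Cell.S false 1 1, Cell.L 2,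
    Cell.S false 1 2, Cell.L p]) h rfl (by simp [mirLe, hp, hq])
  exact this

theorem goodAB_of_BA {K p q : ℕ} (hp : p ≤ 2) (hq : q ≤ 2) (h : Good K (clsBA q p)) :
    Good K (clsAB p q) := by
  have := Good.mirror (A := [Cell.L q, Cell.S false 1 2, Cell.L 2, Cell.S false 1 1, Cell.L 2,
    Cell.S true 2 1, Cell.L p]) h rfl (by simp [mirLe, hp, hq])
  exact this

theorem goodABAl_of_f {K p q : ℕ} (hp : p ≤ 2) (hq : q ≤ 2) (h : Good K (clsABAf q p)) :
    Good K (clsABAl p q) := by
  have := Good.mirror (A := [Cell.L q, Cell.S true 2 1, Cell.L 2, Cell.S false 1 1, Cell.L 2,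
    Cell.S false 1 2, Cell.L 2, Cell.S true 2 2, Cell.L p]) h rfl (by simp [mirLe, hp, hq])
  exact this

theorem goodBABl_of_f {K p q : ℕ} (hp : p ≤ 2) (hq : q ≤ 2) (h : Good K (clsBABf q p)) :
    Good K (clsBABl p q) := by
  have := Good.mirror (A := [Cell.L q, Cell.S false 1 2, Cell.L 2, Cell.S false 1 1, Cell.L 2,
    Cell.S false 2 1, Cell.L 2, Cell.S false 2 2, Cell.L p]) h rfl (by simp [mirLe, hp, hq])
  exact this

/-- **Final reduction**: seven classes are enough. -/
theorem FS_of_seven {K : ℕ} (hK : 18 ≤ K) (ab00 : Good K (clsAB 0 0)) (ab10 : Good K (clsAB 1 0))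
    (ab01 : Good K (clsAB 0 1)) (aba00 : Good K (clsABAf 0 0)) (aba10 : Good K (clsABAf 1 0))
    (bab00 : Good K (clsBABf 0 0)) (bab10 : Good K (clsBABf 1 0)) : FS := by
  have ba00 : Good K (clsBA 0 0) := goodBA_of_AB (by omega) (by omega) ab00
  have ba10 : Good K (clsBA 1 0) := goodBA_of_AB (by omega) (by omega) ab01
  have ba01 : Good K (clsBA 0 1) := goodBA_of_AB (by omega) (by omega) ab10
  refine FS_of_three (good_rt_first hK (by omega) (by omega) ab00 ba00 aba00 bab00)
    (good_rt_first hK (by omega) (by omega) ab10 ba10 aba10 bab10)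
    (good_rt_last hK (by omega) (by omega) ab01 ba01 ?_ ?_)
  · exact goodABAl_of_f (by omega) (by omega) aba10
  · exact goodBABl_of_f (by omega) (by omega) bab10

end T3

end Pool.Agent.H.MP_2e666d_lc
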