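import Pool.Agent.H.MP_2e666d_lc.NegLimit

/-!
# Negative half: counting draws along generic paths
-/

set_option autoImplicit false

namespace Pool.Agent.H.MP_2e666d_lc.Neg

/-- the path from `p` to `p'` has a draw of level at least `j` -/
def LevGe (j : ℕ) (p p' : List ℕ) : Prop := ∃ q, p' = p ++ q ∧ ∃ x ∈ lvs (sta R0 p) q, j ≤ x

/-- the highest level of a draw on the path from `p` to `p'` is `j` -/
def LevEq (j : ℕ) (p p' : List ℕ) : Prop :=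
  ∃ q, p' = p ++ q ∧ (∀ x ∈ lvs (sta R0 p) q, x ≤ j) ∧ j ∈ lvs (sta R0 p) q

/-- the first draw on the path from `p` to `p'` is at least `M` -/
def Fst (M : ℕ) (p p' : List ℕ) : Prop := ∃ e' ≥ M, p ++ [e'] <+: p'

theorem Fst.pre {M : ℕ} {p p' : List ℕ} (h : Fst M p p') : p <+: p' := by
  obtain ⟨e', -, h⟩ := h
  exact (List.prefix_append _ _).trans h

theorem Fst.trans {M : ℕ} {p p' p'' : List ℕ} (h : Fst M p p') (h' : p' <+: p'') :
    Fst M p p'' := by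
  obtain ⟨e', h1, h⟩ := h
  exact ⟨e', h1, h.trans h'⟩

theorem Fst.levGe {M : ℕ} {p p' : List ℕ} (h : Fst M p p') : LevGe 0 p p' := by
  obtain ⟨e', -, r, rfl⟩ := h
  refine ⟨e' :: r, by simp, ?_⟩
  obtain ⟨x, hx⟩ := lvs_ne_nil (s := sta R0 p) (l := e' :: r) (by simp)
  exact ⟨x, hx, Nat.zero_le _⟩

theorem Fst.ne {M : ℕ} {p p' : List ℕ} (h : Fst M p p') : p' ≠ [] := by
  obtain ⟨e', -, r, rfl⟩ := h
  simp

theorem LevGe.pre {j : ℕ} {p p' : List ℕ} (h : LevGe j p p') : p <+: p' := by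
  obtain ⟨q, rfl, -⟩ := h
  exact List.prefix_append _ _

theorem LevGe.trans_right {j : ℕ} {p p' p'' : List ℕ} (h : LevGe j p p') (h' : p' <+: p'') :
    LevGe j p p'' := by
  obtain ⟨q, rfl, x, hx, hj⟩ := h
  obtain ⟨r, rfl⟩ := h'
  refine ⟨q ++ r, by simp, x, ?_, hj⟩
  rw [lvs_append, List.mem_append]
  exact Or.inl hx

theorem LevGe.trans_left {j : ℕ} {p p' p'' : List ℕ} (h : p <+: p') (h' : LevGe j p' p'') :
    LevGe j p p'' := by
  obtain ⟨q, rfl⟩ := h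
  obtain ⟨r, rfl, x, hx, hj⟩ := h'
  refine ⟨q ++ r, by simp, x, ?_, hj⟩
  rw [lvs_append, List.mem_append]
  rw [sta_append] at hx
  exact Or.inr hx

theorem LevGe.or_eq {j : ℕ} {p p' : List ℕ} (h : LevGe j p p') :
    LevGe (j + 1) p p' ∨ LevEq j p p' := by
  obtain ⟨q, rfl, x, hx, hj⟩ := h
  by_cases hall : ∀ y ∈ lvs (sta R0 p) q, y ≤ j
  · right
    have : x = j := le_antisymm (hall x hx) hj
    subst this
    exact ⟨q, rfl, hall, hx⟩
  · left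
    push Not at hall
    obtain ⟨y, hy, hy'⟩ := hall
    exact ⟨q, rfl, y, hy, hy'⟩

theorem not_levGe_three {p p' : List ℕ} (hp : p ≠ []) (hok : Ok R0 p') : ¬ LevGe 3 p p' := by
  rintro ⟨q, rfl, x, hx, hj⟩
  have h1 : (sta R0 p).1 = 0 := d_node hp
  have h2 := lvs_le_two h1 ((ok_append _ _ _).mp hok).2 x hx
  omega

theorem LevGe.eq_two {p p' : List ℕ} (hp : p ≠ []) (hok : Ok R0 p') (h : LevGe 2 p p') :
    LevEq 2 p p' := by
  rcases h.or_eq with h | h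
  · exact absurd h (not_levGe_three hp hok)
  · exact h

section

variable (f : B ↪o B)

/-- iteration -/
theorem iter (Reg : List ℕ → List ℕ → Prop) (S : ℕ → St) (j : ℕ)
    (hyp : ∀ n u p, Lim f u p → Reg u p → sta R0 u = S (n + 1) →
      ∃ u' p', Lim f u' p' ∧ Reg u' p' ∧ u <+: u' ∧ sta R0 u' = S n ∧ LevGe j p p') :
    ∀ n u p, Lim f u p → Reg u p → sta R0 u = S n →
      ∃ u' p', Lim f u' p' ∧ Reg u' p' ∧ u <+: u' ∧ sta R0 u' = S 0 ∧
        ∃ q, p' = p ++ q ∧ n ≤ (lvs (sta R0 p) q).countP (fun x => decide (j ≤ x)) := by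
  intro n
  induction n with
  | zero =>
    intro u p h1 h2 h3
    exact ⟨u, p, h1, h2, List.prefix_refl _, h3, [], by simp, Nat.zero_le _⟩
  | succ n ih =>
    intro u p h1 h2 h3
    obtain ⟨u1, p1, h4, h5, h6, h7, q1, rfl, x, hx, hj⟩ := hyp n u p h1 h2 h3
    obtain ⟨u', p', h8, h9, h10, h11, q2, rfl, hq2⟩ := ih u1 _ h4 h5 h7
    refine ⟨u', _, h8, h9, h6.trans h10, h11, q1 ++ q2, by simp, ?_⟩
    rw [lvs_append, List.countP_append]
    rw [sta_append] at hq2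
    have hpos : 0 < (lvs (sta R0 p) q1).countP (fun x => decide (j ≤ x)) := by
      rw [List.countP_pos_iff]
      exact ⟨x, hx, by simpa using hj⟩
    omega

/-- passing to the next level -/
theorem up (Reg : List ℕ → List ℕ → Prop) (S : ℕ → St) (j : ℕ)
    (hyp : ∀ n u p, Lim f u p → Reg u p → sta R0 u = S (n + 1) →
      ∃ u' p', Lim f u' p' ∧ Reg u' p' ∧ u <+: u' ∧ sta R0 u' = S n ∧ LevGe j p p')
    {u p : List ℕ} (h : Lim f u p) (hs : sta R0 u ≠ Z0)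
    (hS : ∀ K, ∃ e ≥ K, ∃ n ≥ K, step (sta R0 u) e = S n)
    (hReg : ∃ E, ∀ e ≥ E, ∀ p1, Lim f (u ++ [e]) p1 → Reg (u ++ [e]) p1) (M : ℕ) :
    ∃ u' p', Lim f u' p' ∧ Reg u' p' ∧ u <+: u' ∧ sta R0 u' = S 0 ∧ Fst M p p' ∧
      LevGe (j + 1) p p' := by
  obtain ⟨E1, hE1⟩ := hReg
  obtain ⟨E2, hE2⟩ := lim_step h hs M
  obtain ⟨e, he, n, hn, hen⟩ := hS (E1 + E2 + num j (sta R0 p) + 1)
  obtain ⟨p1, hp1⟩ := lim_exists f (u ++ [e]) (ok_snoc h.1 hs e)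
  have hR1 := hE1 e (by omega) p1 hp1
  obtain ⟨e', he', r, hr⟩ := hE2 e (by omega) p1 hp1
  obtain ⟨u', p', h1, h2, h3, h4, q, hq, hq'⟩ := iter f Reg S j hyp n (u ++ [e]) p1 hp1 hR1
    (by rw [sta_snoc, hen])
  refine ⟨u', p', h1, h2, (List.prefix_append _ _).trans h3, h4, ⟨e', he', ?_⟩, ?_⟩
  · rw [hq, ← hr]
    exact (List.prefix_append _ _).trans (List.prefix_append _ _)
  · have hp' : p' = p ++ (([e'] ++ r) ++ q) := by
      rw [hq, ← hr]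
      simp
    refine ⟨([e'] ++ r) ++ q, hp', ?_⟩
    by_contra hcon
    push Not at hcon
    have hok := h1.ok
    rw [hp', ok_append] at hok
    have hc := count_le (j := j) hok.2 (fun x hx => by
      have := hcon x hx
      omega)
    rw [lvs_append, List.countP_append] at hc
    have hst : sta R0 p1 = sta (sta R0 p) ([e'] ++ r) := by
      rw [← sta_append, ← hr]
      simp
    rw [← hst] at hc
    omega

/-- one draw -/
theorem one_step {u p : List ℕ} (h : Lim f u p) (hs : sta R0 u ≠ Z0) (M K : ℕ) :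
    ∃ e ≥ K, ∃ p', Lim f (u ++ [e]) p' ∧ Fst M p p' := by
  obtain ⟨E, hE⟩ := lim_step h hs M
  obtain ⟨p', hp'⟩ := lim_exists f (u ++ [E + K]) (ok_snoc h.1 hs _)
  exact ⟨E + K, by omega, p', hp', hE (E + K) (by omega) p' hp'⟩

theorem roomA {d a b : ℕ} {u p : List ℕ} (h : Lim f u p) (hu : sta R0 u = (d, a, b + 1, 0))
    (M : ℕ) : ∃ u' p', Lim f u' p' ∧ u <+: u' ∧ sta R0 u' = (d, a, b, 0) ∧ Fst M p p' ∧
      LevGe 1 p p' := by
  have hs : sta R0 u ≠ Z0 := by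
    rw [hu]
    simp [Z0]
  obtain ⟨u', p', h1, -, h2, h3, h4, h5⟩ := up f (fun _ _ => True) (fun n => (d, a, b, n)) 0 (by
    intro n u p h1 _ h2
    have hs1 : sta R0 u ≠ Z0 := by
      rw [h2]
      simp [Z0]
    obtain ⟨e, -, p', hp', hF⟩ := one_step f h1 hs1 0 0
    refine ⟨u ++ [e], p', hp', trivial, List.prefix_append _ _, ?_, hF.levGe⟩
    rw [sta_snoc, h2]
    rfl) h hs (by
    intro K
    refine ⟨K, le_rfl, K + 1, by omega, ?_⟩
    rw [hu]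
    rfl) ⟨0, fun _ _ _ _ => trivial⟩ M
  exact ⟨u', p', h1, h2, h3, h4, h5⟩

theorem roomB {d a : ℕ} {u p : List ℕ} (h : Lim f u p) (hu : sta R0 u = (d, a + 1, 0, 0))
    (M : ℕ) : ∃ u' p', Lim f u' p' ∧ u <+: u' ∧ sta R0 u' = (d, a, 0, 0) ∧ Fst M p p' ∧
      LevGe 2 p p' := by
  have hs : sta R0 u ≠ Z0 := by
    rw [hu]
    simp [Z0]
  obtain ⟨u', p', h1, -, h2, h3, h4, h5⟩ := up f (fun _ _ => True) (fun n => (d, a, n, 0)) 1 (by
    intro n u p h1 _ h2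
    obtain ⟨u', p', h3, h4, h5, h6, h7⟩ := roomA f h1 h2 0
    exact ⟨u', p', h3, trivial, h4, h5, h7⟩) h hs (by
    intro K
    refine ⟨K, le_rfl, K + 1, by omega, ?_⟩
    rw [hu]
    rfl) ⟨0, fun _ _ _ _ => trivial⟩ M
  exact ⟨u', p', h1, h2, h3, h4, h5⟩

/-- descending to the end of a room of level 2 -/
theorem down (d a₀ M : ℕ) : ∀ (s : St) (u p : List ℕ), Lim f u p → sta R0 u = s → s.1 = d →
    a₀ ≤ s.2.1 → ∃ u' p', Lim f u' p' ∧ u <+: u' ∧ sta R0 u' = (d, a₀, 0, 0) ∧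
      ((u' = u ∧ p' = p) ∨ Fst M p p') := by
  intro s
  induction s using StLt.wf.induction with
  | _ s ih =>
    intro u p h hu hd ha
    obtain ⟨d', a, b, c⟩ := s
    simp only at hd ha
    subst hd
    by_cases hs : a = a₀ ∧ b = 0 ∧ c = 0
    · obtain ⟨rfl, rfl, rfl⟩ := hs
      exact ⟨u, p, h, List.prefix_refl _, hu, Or.inl ⟨rfl, rfl⟩⟩
    · have hne : (d', a, b, c) ≠ Z0 := by
        intro hz
        simp only [Z0, Prod.mk.injEq] at hz
        omega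
      have hne' : sta R0 u ≠ Z0 := by
        rw [hu]
        exact hne
      obtain ⟨e, -, p1, hp1, hF⟩ := one_step f h hne' M 0
      have hst : sta R0 (u ++ [e]) = step (d', a, b, c) e := by rw [sta_snoc, hu]
      have hstep : (step (d', a, b, c) e).1 = d' ∧ a₀ ≤ (step (d', a, b, c) e).2.1 := by
        rcases c with _ | c
        · rcases b with _ | b
          · rcases a with _ | a
            · exact absurd ⟨by omega, rfl, rfl⟩ hs
            · refine ⟨rfl, ?_⟩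
              change a₀ ≤ a
              have : a + 1 ≠ a₀ := fun h => hs ⟨h, rfl, rfl⟩
              omega
          · exact ⟨rfl, ha⟩
        · exact ⟨rfl, ha⟩
      obtain ⟨u', p', h1, h2, h3, h4⟩ := ih _ (step_lt _ e hne) (u ++ [e]) p1 hp1 hst hstep.1
        hstep.2
      refine ⟨u', p', h1, (List.prefix_append _ _).trans h2, h3, Or.inr ?_⟩
      rcases h4 with ⟨-, rfl⟩ | h4
      · exact hF
      · exact hF.trans h4.pre

/-- a generic continuation with highest level `j` leads to `Q` -/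
def SQ (j : ℕ) (Q : List ℕ → List ℕ → Prop) (v p : List ℕ) : Prop :=
  ∀ M, ∃ v' p', Lim f v' p' ∧ v <+: v' ∧ Fst M p p' ∧ LevEq j p p' ∧ Q v' p'

/-- a node of the region `a` -/
def InR (a : ℕ) (v : List ℕ) : Prop := ∃ b c, sta R0 v = (0, a, b, c)

/-- two rooms of level 1 in the region give level 2, hence the room of level 2 gives level 3 -/
theorem lemZ (Q : List ℕ → List ℕ → Prop) (a : ℕ)
    (hQ : ∀ v p, Lim f v p → InR a v → Q v p) {u p : List ℕ} (h : Lim f u p)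
    (hu : sta R0 u = (0, a + 1, 0, 0)) (hp : p ≠ []) (M : ℕ) :
    ∃ v p1, Lim f v p1 ∧ u <+: v ∧ InR a v ∧ Fst M p p1 ∧ SQ f 0 Q v p1 := by
  by_contra hcon
  have hcon' : ∀ v p1, Lim f v p1 → u <+: v → InR a v → Fst M p p1 → ¬ SQ f 0 Q v p1 := by
    intro v p1 h1 h2 h3 h4 h5
    exact hcon ⟨v, p1, h1, h2, h3, h4, h5⟩
  let Reg : List ℕ → List ℕ → Prop := fun v p1 => u <+: v ∧ InR a v ∧ Fst M p p1
  have hs : sta R0 u ≠ Z0 := by
    rw [hu]
    simp [Z0]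
  have hyp0 : ∀ b n v p1, Lim f v p1 → Reg v p1 → sta R0 v = (0, a, b, n + 1) →
      ∃ v' p', Lim f v' p' ∧ Reg v' p' ∧ v <+: v' ∧ sta R0 v' = (0, a, b, n) ∧ LevGe 1 p1 p' := by
    intro b n v p1 h1 h2 h3
    have hn := hcon' v p1 h1 h2.1 h2.2.1 h2.2.2
    unfold SQ at hn
    push Not at hn
    obtain ⟨M1, hM1⟩ := hn
    have hs1 : sta R0 v ≠ Z0 := by
      rw [h3]
      simp [Z0]
    obtain ⟨e, -, p', hp', hF⟩ := one_step f h1 hs1 M1 0
    have hst : sta R0 (v ++ [e]) = (0, a, b, n) := by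
      rw [sta_snoc, h3]
      rfl
    have hIn : InR a (v ++ [e]) := ⟨b, n, hst⟩
    refine ⟨v ++ [e], p', hp', ⟨h2.1.trans (List.prefix_append _ _), hIn,
      h2.2.2.trans hF.pre⟩, List.prefix_append _ _, hst, ?_⟩
    rcases hF.levGe.or_eq with h4 | h4
    · exact h4
    · exact absurd (hQ _ _ hp' hIn) (hM1 _ _ hp' (List.prefix_append _ _) hF h4)
  have hyp1 : ∀ n v p1, Lim f v p1 → Reg v p1 → sta R0 v = (0, a, n + 1, 0) →
      ∃ v' p', Lim f v' p' ∧ Reg v' p' ∧ v <+: v' ∧ sta R0 v' = (0, a, n, 0) ∧ LevGe 2 p1 p' := by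
    intro n v p1 h1 h2 h3
    have hs1 : sta R0 v ≠ Z0 := by
      rw [h3]
      simp [Z0]
    obtain ⟨v', p', h4, h5, h6, h7, h8, h9⟩ := up f Reg (fun m => (0, a, n, m)) 1 (hyp0 n) h1 hs1
      (by
        intro K
        refine ⟨K, le_rfl, K + 1, by omega, ?_⟩
        rw [h3]
        rfl) (by
        obtain ⟨E, hE⟩ := lim_step h1 hs1 0
        refine ⟨E, fun e he p2 hp2 => ⟨h2.1.trans (List.prefix_append _ _),
          ⟨n, e + 1, by rw [sta_snoc, h3]; rfl⟩, ?_⟩⟩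
        obtain ⟨e', -, he'⟩ := hE e he p2 hp2
        exact h2.2.2.trans ((List.prefix_append _ _).trans he')) 0
    exact ⟨v', p', h4, h5, h6, h7, h9⟩
  obtain ⟨u', p', h1, -, -, -, -, h2⟩ := up f Reg (fun m => (0, a, m, 0)) 2 hyp1 h hs (by
    intro K
    refine ⟨K, le_rfl, K + 1, by omega, ?_⟩
    rw [hu]
    rfl) (by
    obtain ⟨E, hE⟩ := lim_step h hs M
    refine ⟨E, fun e he p2 hp2 => ⟨List.prefix_append _ _,
      ⟨e + 1, 0, by rw [sta_snoc, hu]; rfl⟩, ?_⟩⟩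
    exact hE e he p2 hp2) 0
  exact not_levGe_three hp h1.ok h2

theorem lemY (Q : List ℕ → List ℕ → Prop) (a : ℕ)
    (hQ : ∀ v p, Lim f v p → InR a v → Q v p) {u p : List ℕ} (h : Lim f u p)
    (hu : sta R0 u = (0, a + 1, 0, 0)) (hp : p ≠ []) (M : ℕ) :
    ∃ v p1, Lim f v p1 ∧ u <+: v ∧ InR a v ∧ Fst M p p1 ∧ SQ f 1 (SQ f 1 Q) v p1 := by
  by_contra hcon
  have hcon' : ∀ v p1, Lim f v p1 → u <+: v → InR a v → Fst M p p1 →
      ¬ SQ f 1 (SQ f 1 Q) v p1 := by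
    intro v p1 h1 h2 h3 h4 h5
    exact hcon ⟨v, p1, h1, h2, h3, h4, h5⟩
  let Reg : List ℕ → List ℕ → Prop := fun v p1 => u <+: v ∧ InR a v ∧ Fst M p p1
  have hs : sta R0 u ≠ Z0 := by
    rw [hu]
    simp [Z0]
  have hyp1 : ∀ n v p1, Lim f v p1 → Reg v p1 → sta R0 v = (0, a, 2 * (n + 1), 0) →
      ∃ v' p', Lim f v' p' ∧ Reg v' p' ∧ v <+: v' ∧ sta R0 v' = (0, a, 2 * n, 0) ∧
        LevGe 2 p1 p' := by
    intro n v p1 h1 h2 h3
    have hn := hcon' v p1 h1 h2.1 h2.2.1 h2.2.2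
    unfold SQ at hn
    push Not at hn
    obtain ⟨M1, hM1⟩ := hn
    obtain ⟨v1, q1, hv1, hv1', hv1'', hF1, hG1⟩ := roomA f (b := 2 * n + 1) h1
      (by rw [h3]; rfl) M1
    have hfin : ∃ v' p', Lim f v' p' ∧ v1 <+: v' ∧ sta R0 v' = (0, a, 2 * n, 0) ∧
        q1 <+: p' ∧ LevGe 2 p1 p' := by
      rcases hG1.or_eq with hG2 | hG2
      · obtain ⟨v2, q2, h4, h5, h6, h7, -⟩ := roomA f hv1 hv1'' 0
        exact ⟨v2, q2, h4, h5, h6, h7.pre, hG2.trans_right h7.pre⟩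
      · obtain ⟨M2, hM2⟩ := hM1 v1 q1 hv1 hv1' hF1 hG2
        obtain ⟨v2, q2, h4, h5, h6, h7, h8⟩ := roomA f hv1 hv1'' M2
        rcases h8.or_eq with h9 | h9
        · exact ⟨v2, q2, h4, h5, h6, h7.pre, LevGe.trans_left hF1.pre h9⟩
        · exact absurd (hQ v2 q2 h4 ⟨_, _, h6⟩) (hM2 v2 q2 h4 h5 h7 h9)
    obtain ⟨v', p', h4, h5, h6, h7, h8⟩ := hfin
    exact ⟨v', p', h4, ⟨h2.1.trans (hv1'.trans h5), ⟨_, _, h6⟩,
      h2.2.2.trans (hF1.pre.trans h7)⟩, hv1'.trans h5, h6, h8⟩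
  obtain ⟨u', p', h1, -, -, -, -, h2⟩ := up f Reg (fun m => (0, a, 2 * m, 0)) 2 hyp1 h hs (by
    intro K
    refine ⟨2 * K + 1, by omega, K + 1, by omega, ?_⟩
    rw [hu]
    rfl) (by
    obtain ⟨E, hE⟩ := lim_step h hs M
    refine ⟨E, fun e he p2 hp2 => ⟨List.prefix_append _ _,
      ⟨e + 1, 0, by rw [sta_snoc, hu]; rfl⟩, ?_⟩⟩
    exact hE e he p2 hp2) 0
  exact not_levGe_three hp h1.ok h2

/-- the last block -/
def FQ (v p : List ℕ) : Prop := ∀ M, ∃ x : B, v <+: x.1 ∧ Fst M p (f x).1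

theorem fq {v p : List ℕ} (h : Lim f v p) (hs : sta R0 v ≠ Z0) : FQ f v p := by
  intro M
  obtain ⟨E, hE⟩ := h.good hs M
  obtain ⟨y, hy⟩ := exists_above _ (ok_snoc h.1 hs E)
  exact ⟨y, (List.prefix_append _ _).trans hy, hE E le_rfl y hy⟩

theorem inR_ne {a : ℕ} {v : List ℕ} (h : InR (a + 1) v) : sta R0 v ≠ Z0 := by
  obtain ⟨b, c, h⟩ := h
  rw [h]
  simp [Z0]

theorem root_step (M : ℕ) : ∃ e ≥ M, ∃ p, Lim f [e] p ∧ Fst M [] p := by
  obtain ⟨p, hp⟩ := lim_exists f [] trivial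
  have := lim_root hp
  subst this
  obtain ⟨e, he, p', hp', hF⟩ := one_step f hp (by simp [sta, R0, Z0]) M M
  exact ⟨e, he, p', hp', hF⟩

/-- the second element -/
theorem exY (M : ℕ) : ∃ v p, Lim f v p ∧ Fst M [] p ∧ SQ f 1 (SQ f 1 (FQ f)) v p := by
  obtain ⟨e, he, p, hp, hF⟩ := root_step f (M + 2)
  have hst : sta R0 [e] = (0, e + 1, 0, 0) := rfl
  obtain ⟨u, q, h1, -, h3, h4⟩ := down f 0 2 0 _ [e] p hp hst rfl (by simp; omega)
  have hq : Fst (M + 2) [] q := by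
    rcases h4 with ⟨-, rfl⟩ | h4
    · exact hF
    · exact hF.trans h4.pre
  obtain ⟨v, p1, h5, -, -, h6, h7⟩ := lemY f (FQ f) 1 (fun v p h hI => fq f h (inR_ne hI)) h1 h3
    hq.ne 0
  refine ⟨v, p1, h5, ?_, h7⟩
  obtain ⟨e', he', hpre⟩ := hq.trans h6.pre
  exact ⟨e', by omega, hpre⟩

/-- the first element -/
theorem exX : ∃ v p, Lim f v p ∧ p ≠ [] ∧ SQ f 0 (SQ f 2 (SQ f 0 (FQ f))) v p := by
  obtain ⟨e, he, p, hp, hF⟩ := root_step f 4
  have hst : sta R0 [e] = (0, e + 1, 0, 0) := rfl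
  obtain ⟨u, q, h1, -, h3, h4⟩ := down f 0 4 0 _ [e] p hp hst rfl (by simp; omega)
  have hq : Fst 4 [] q := by
    rcases h4 with ⟨-, rfl⟩ | h4
    · exact hF
    · exact hF.trans h4.pre
  have hX1 : ∀ v p, Lim f v p → InR 3 v → p ≠ [] → SQ f 2 (SQ f 0 (FQ f)) v p := by
    intro v p h hI hp M
    obtain ⟨b, c, hbc⟩ := hI
    obtain ⟨v1, p1, g1, g2, g3, g4⟩ := down f 0 3 M _ v p h hbc rfl le_rfl
    obtain ⟨v2, p2, g5, g6, g7, g8, g9⟩ := roomB f g1 g3 M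
    have hF2 : Fst M p p2 := by
      rcases g4 with ⟨-, rfl⟩ | g4
      · exact g8
      · exact g4.trans g8.pre
    have hpre : p <+: p1 := by
      rcases g4 with ⟨-, rfl⟩ | g4
      · exact List.prefix_refl _
      · exact g4.pre
    obtain ⟨v3, p3, g10, g11, -, g12, g13⟩ := lemZ f (FQ f) 1
      (fun v p h hI => fq f h (inR_ne hI)) g5 g7 hF2.ne 0
    refine ⟨v3, p3, g10, (g2.trans g6).trans g11, hF2.trans g12.pre, ?_, g13⟩
    exact LevGe.eq_two hp g10.ok ((LevGe.trans_left hpre g9).trans_right g12.pre)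
  obtain ⟨v, p1, h5, -, -, h6, h7⟩ := lemZ f (fun v p => p ≠ [] → SQ f 2 (SQ f 0 (FQ f)) v p) 3
    (fun v p h hI hp => hX1 v p h hI hp) h1 h3 hq.ne 0
  refine ⟨v, p1, h5, h6.ne, ?_⟩
  intro M
  obtain ⟨v', p', k1, k2, k3, k4, k5⟩ := h7 M
  exact ⟨v', p', k1, k2, k3, k4, k5 k3.ne⟩

end

end Pool.Agent.H.MP_2e666d_lc.Neg
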