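import Pool.Agent.H.MP_2e666d_lc.NegClique
import Pool.Agent.H.MP_2e666d_lc.NegRoom

/-!
# Negative half: `ω ^ (ω ^ 3)` does not arrow `4`
-/

set_option autoImplicit false

namespace Pool.Agent.H.MP_2e666d_lc.Neg

/-- the draws of an element with their times -/
def el (x : B) : El := fun v j => ∃ n : ℕ, (n : ℤ) = v ∧ (n, j) ∈ dr R0 0 x.1

/-- the pair has the pattern `330121044` -/
def AdjP (x y : B) : Prop := ∃ t : ℕ → ℤ, Ed (el x) (el y) t

theorem B_cons (x : B) : ∃ a l, x.1 = a :: l := by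
  rcases h : x.1 with _ | ⟨a, l⟩
  · have := B_sta x
    rw [h] at this
    simp [sta, R0, Z0] at this
  · exact ⟨a, l, rfl⟩

theorem AdjP.lt {x y : B} (h : AdjP x y) : x < y := by
  obtain ⟨t, e⟩ := h
  obtain ⟨a, l, hx⟩ := B_cons x
  obtain ⟨b, l', hy⟩ := B_cons y
  obtain ⟨v, j, ⟨n, hn, hn'⟩, hv⟩ := e.a0
  rw [hx] at hn'
  have h1 := dr_time_head hn'
  have h2 : el y ((0 + b + 1 : ℕ) : ℤ) 3 := by
    refine ⟨0 + b + 1, rfl, ?_⟩
    rw [hy]
    simp [dr, slev, R0]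
  have h3 := e.memB _ _ h2
  have := e.l12
  have := e.l23
  have := e.l34
  have := e.l45
  have := e.l56
  have := e.l67
  rw [lt_def, hx, hy]
  refine cons_lt_iff.mpr (Or.inl ?_)
  push_cast at h3
  omega

/-- the graph of the pattern `330121044` -/
def G : SimpleGraph B where
  Adj x y := AdjP x y ∨ AdjP y x
  symm := ⟨fun _ _ h => h.symm⟩
  loopless := ⟨fun _ h => h.elim (fun h => lt_irrefl _ h.lt) (fun h => lt_irrefl _ h.lt)⟩

theorem G_cliqueFree : G.CliqueFree 4 := by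
  intro s hs
  have hcard : s.card = 4 := hs.card_eq
  have hadj : ∀ i j : Fin 4, i < j →
      AdjP (s.orderEmbOfFin hcard i) (s.orderEmbOfFin hcard j) := by
    intro i j hij
    have hlt : s.orderEmbOfFin hcard i < s.orderEmbOfFin hcard j :=
      (s.orderEmbOfFin hcard).lt_iff_lt.mpr hij
    have h := hs.isClique (s.orderEmbOfFin_mem hcard i) (s.orderEmbOfFin_mem hcard j) (ne_of_lt hlt)
    rcases h with h | h
    · exact h
    · exact absurd h.lt (lt_asymm hlt)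
  obtain ⟨t1, h1⟩ := hadj 0 1 (by decide)
  obtain ⟨t2, h2⟩ := hadj 0 2 (by decide)
  obtain ⟨t3, h3⟩ := hadj 0 3 (by decide)
  obtain ⟨t4, h4⟩ := hadj 1 2 (by decide)
  obtain ⟨t5, h5⟩ := hadj 1 3 (by decide)
  obtain ⟨t6, h6⟩ := hadj 2 3 (by decide)
  exact no_four h1 h2 h3 h4 h5 h6

/-- the draws of a node with their times -/
def D (p : List ℕ) (n j : ℕ) : Prop := (n, j) ∈ dr R0 0 p

theorem D_append (p a : List ℕ) (n j : ℕ) :
    D (p ++ a) n j ↔ D p n j ∨ (n, j) ∈ dr (sta R0 p) (tim p) a := by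
  unfold D
  rw [dr_append, List.mem_append, Nat.zero_add]

theorem D_mono {p p' : List ℕ} (h : p <+: p') {n j : ℕ} (hD : D p n j) : D p' n j := by
  obtain ⟨r, rfl⟩ := h
  exact (D_append _ _ _ _).mpr (Or.inl hD)

theorem D_le {p : List ℕ} {n j : ℕ} (hD : D p n j) : n ≤ tim p := by
  have := dr_time hD
  omega

theorem step_fact {M : ℕ} {p p' : List ℕ} (hF : Fst M p p') :
    (∀ n j, D p' n j → D p n j ∨ (M < n ∧ n ≤ tim p')) ∧ ∃ n j, D p' n j ∧ M < n ∧ n ≤ tim p' := by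
  obtain ⟨e', he', r, hr⟩ := hF
  have hp' : p' = p ++ (e' :: r) := by
    rw [← hr]
    simp
  have h1 : ∀ n j, (n, j) ∈ dr (sta R0 p) (tim p) (e' :: r) → M < n := by
    intro n j h
    have := dr_time_head h
    omega
  constructor
  · intro n j h
    have h2 := D_le h
    rw [hp', D_append] at h
    rcases h with h | h
    · exact Or.inl h
    · exact Or.inr ⟨h1 n j h, h2⟩
  · have h3 : (tim p + e' + 1, slev (sta R0 p)) ∈ dr (sta R0 p) (tim p) (e' :: r) := by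
      simp [dr]
    have h4 : D p' (tim p + e' + 1) (slev (sta R0 p)) := by
      rw [hp', D_append]
      exact Or.inr h3
    exact ⟨_, _, h4, h1 _ _ h3, D_le h4⟩

theorem step_fact' {M j₀ : ℕ} {p p' : List ℕ} (hF : Fst M p p') (hL : LevEq j₀ p p') :
    (∀ n j, D p' n j → D p n j ∨ (M < n ∧ n ≤ tim p' ∧ j ≤ j₀)) ∧
      ∃ n, D p' n j₀ ∧ M < n ∧ n ≤ tim p' := by
  obtain ⟨e', he', r, hr⟩ := hF
  obtain ⟨q, hq, hq1, hq2⟩ := hL
  have hq' : q = e' :: r := by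
    have : p ++ q = p ++ (e' :: r) := by
      rw [← hq, ← hr]
      simp
    exact List.append_cancel_left this
  have h1 : ∀ n j, (n, j) ∈ dr (sta R0 p) (tim p) q → M < n := by
    intro n j h
    rw [hq'] at h
    have := dr_time_head h
    omega
  constructor
  · intro n j h
    have h2 := D_le h
    rw [hq, D_append] at h
    rcases h with h | h
    · exact Or.inl h
    · exact Or.inr ⟨h1 n j h, h2, hq1 _ (dr_lev h)⟩
  · obtain ⟨n, hn⟩ := lev_dr hq2 (tim p)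
    have h4 : D p' n j₀ := by
      rw [hq, D_append]
      exact Or.inr hn
    exact ⟨n, h4, h1 _ _ hn, D_le h4⟩

/-- thresholds -/
def thr (a b c d e f g h : ℕ) : ℕ → ℤ
  | 1 => a
  | 2 => b
  | 3 => c
  | 4 => d
  | 5 => e
  | 6 => f
  | 7 => g
  | _ => h

theorem G_unavoidable (f : B ↪o B) : ∃ x y, G.Adj (f x) (f y) := by
  obtain ⟨v0, p0, hv0, hp0, hX⟩ := exX f
  obtain ⟨w0, q0, hw0, hF0, hY⟩ := exY f (tim p0)
  obtain ⟨v1, p1, hv1, -, hF1, hL1, hX1⟩ := hX (tim q0)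
  obtain ⟨w1, q1, hw1, -, hG1, hM1, hY1⟩ := hY (tim p1)
  obtain ⟨v2, p2, hv2, -, hF2, hL2, hX2⟩ := hX1 (tim q1)
  obtain ⟨w2, q2, hw2, -, hG2, hM2, hY2⟩ := hY1 (tim p2)
  obtain ⟨v3, p3, hv3, -, hF3, hL3, hX3⟩ := hX2 (tim q2)
  obtain ⟨y, -, hFy⟩ := hY2 (tim p3)
  obtain ⟨x, -, hFx⟩ := hX3 (tim (f y).1)
  refine ⟨x, y, Or.inl ?_⟩
  -- the first block of `x`
  have hx0 : ∃ n j, D p0 n j := by
    rcases p0 with _ | ⟨a, l⟩
    · exact absurd rfl hp0
    · exact ⟨0 + a + 1, slev R0, by simp [D, dr]⟩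
  obtain ⟨n0, j0, hn0⟩ := hx0
  have hn0' := D_le hn0
  obtain ⟨A1, m1, hm1, hm1', hm1''⟩ := step_fact' hF1 hL1
  obtain ⟨A2, m2, hm2, hm2', hm2''⟩ := step_fact' hF2 hL2
  obtain ⟨A3, m3, hm3, hm3', hm3''⟩ := step_fact' hF3 hL3
  obtain ⟨A4, m4, j4, hm4, hm4', hm4''⟩ := step_fact hFx
  obtain ⟨B0, k0, i0, hk0, hk0', hk0''⟩ := step_fact hF0
  obtain ⟨B1, k1, hk1, hk1', hk1''⟩ := step_fact' hG1 hM1
  obtain ⟨B2, k2, hk2, hk2', hk2''⟩ := step_fact' hG2 hM2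
  obtain ⟨B3, k3, i3, hk3, hk3', hk3''⟩ := step_fact hFy
  have P1 := hF1.pre
  have P2 := hF2.pre
  have P3 := hF3.pre
  have P4 := hFx.pre
  have Q1 := hG1.pre
  have Q2 := hG2.pre
  have Q3 := hFy.pre
  have hnil : ∀ n j, ¬ D [] n j := by
    intro n j h
    simp [D, dr] at h
  refine ⟨thr (tim p0 + 1) (tim q0 + 1) (tim p1 + 1) (tim q1 + 1) (tim p2 + 1) (tim q2 + 1)
    (tim p3 + 1) (tim (f y).1 + 1), ?_⟩
  have e1 : thr (tim p0 + 1) (tim q0 + 1) (tim p1 + 1) (tim q1 + 1) (tim p2 + 1) (tim q2 + 1)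
    (tim p3 + 1) (tim (f y).1 + 1) 1 = tim p0 + 1 := by simp [thr]
  have e2 : thr (tim p0 + 1) (tim q0 + 1) (tim p1 + 1) (tim q1 + 1) (tim p2 + 1) (tim q2 + 1)
    (tim p3 + 1) (tim (f y).1 + 1) 2 = tim q0 + 1 := by simp [thr]
  have e3 : thr (tim p0 + 1) (tim q0 + 1) (tim p1 + 1) (tim q1 + 1) (tim p2 + 1) (tim q2 + 1)
    (tim p3 + 1) (tim (f y).1 + 1) 3 = tim p1 + 1 := by simp [thr]
  have e4 : thr (tim p0 + 1) (tim q0 + 1) (tim p1 + 1) (tim q1 + 1) (tim p2 + 1) (tim q2 + 1)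
    (tim p3 + 1) (tim (f y).1 + 1) 4 = tim q1 + 1 := by simp [thr]
  have e5 : thr (tim p0 + 1) (tim q0 + 1) (tim p1 + 1) (tim q1 + 1) (tim p2 + 1) (tim q2 + 1)
    (tim p3 + 1) (tim (f y).1 + 1) 5 = tim p2 + 1 := by simp [thr]
  have e6 : thr (tim p0 + 1) (tim q0 + 1) (tim p1 + 1) (tim q1 + 1) (tim p2 + 1) (tim q2 + 1)
    (tim p3 + 1) (tim (f y).1 + 1) 6 = tim q2 + 1 := by simp [thr]
  have e7 : thr (tim p0 + 1) (tim q0 + 1) (tim p1 + 1) (tim q1 + 1) (tim p2 + 1) (tim q2 + 1)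
    (tim p3 + 1) (tim (f y).1 + 1) 7 = tim p3 + 1 := by simp [thr]
  have e8 : thr (tim p0 + 1) (tim q0 + 1) (tim p1 + 1) (tim q1 + 1) (tim p2 + 1) (tim q2 + 1)
    (tim p3 + 1) (tim (f y).1 + 1) 8 = tim (f y).1 + 1 := by simp [thr]
  refine ⟨?_, ?_, ?_, ?_, ?_, ?_, ?_, ?_, ?_, ?_, ?_, ?_, ?_, ?_, ?_, ?_, ?_, ?_⟩
  · rw [e1, e2]; omega
  · rw [e2, e3]; omega
  · rw [e3, e4]; omega
  · rw [e4, e5]; omega
  · rw [e5, e6]; omega
  · rw [e6, e7]; omega
  · rw [e7, e8]; omega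
  · rintro v j ⟨n, rfl, hn⟩
    rw [e1, e2, e3, e4, e5, e6, e7, e8]
    rcases A4 n j hn with h | h
    · rcases A3 n j h with h | h
      · rcases A2 n j h with h | h
        · rcases A1 n j h with h | h
          · have := D_le h
            left
            omega
          · right; left
            omega
        · right; right; left
          omega
      · right; right; right; left
        omega
    · right; right; right; right
      omega
  · rintro v j ⟨n, rfl, hn⟩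
    rw [e1, e2, e3, e4, e5, e6, e7, e8]
    rcases B3 n j hn with h | h
    · rcases B2 n j h with h | h
      · rcases B1 n j h with h | h
        · rcases B0 n j h with h | h
          · exact absurd h (hnil n j)
          · left
            omega
        · right; left
          omega
      · right; right; left
        omega
    · right; right; right
      omega
  · refine ⟨n0, j0, ⟨n0, rfl, D_mono (P1.trans (P2.trans (P3.trans P4))) hn0⟩, ?_⟩
    rw [e1]; omega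
  · refine ⟨m1, ⟨m1, rfl, D_mono (P2.trans (P3.trans P4)) hm1⟩, ?_, ?_⟩
    · rw [e2]; omega
    · rw [e3]; omega
  · refine ⟨m2, ⟨m2, rfl, D_mono (P3.trans P4) hm2⟩, ?_, ?_⟩
    · rw [e4]; omega
    · rw [e5]; omega
  · refine ⟨m3, ⟨m3, rfl, D_mono P4 hm3⟩, ?_, ?_⟩
    · rw [e6]; omega
    · rw [e7]; omega
  · refine ⟨m4, j4, ⟨m4, rfl, hm4⟩, ?_⟩
    rw [e8]; omega
  · refine ⟨k0, i0, ⟨k0, rfl, D_mono (Q1.trans (Q2.trans Q3)) hk0⟩, ?_, ?_⟩
    · rw [e1]; omega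
    · rw [e2]; omega
  · refine ⟨k1, ⟨k1, rfl, D_mono (Q2.trans Q3) hk1⟩, ?_, ?_⟩
    · rw [e3]; omega
    · rw [e4]; omega
  · refine ⟨k2, ⟨k2, rfl, D_mono Q3 hk2⟩, ?_, ?_⟩
    · rw [e5]; omega
    · rw [e6]; omega
  · refine ⟨k3, i3, ⟨k3, rfl, hk3⟩, ?_, ?_⟩
    · rw [e7]; omega
    · rw [e8]; omega

/-- The negative half: `ω ^ (ω ^ 3)` does not arrow `(ω ^ (ω ^ 3), 4)`. -/
theorem neg_half : ∃ G : SimpleGraph B, G.CliqueFree 4 ∧ ∀ f : B ↪o B, ∃ x y, G.Adj (f x) (f y) :=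
  ⟨G, G_cliqueFree, G_unavoidable⟩

end Pool.Agent.H.MP_2e666d_lc.Neg
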