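import Pool.Agent.H.MP_2e666d_lc.Main
import Pool.Agent.H.MP_2e666d_lc.NegMain
import Pool.Agent.H.MP_2e666d_lc.Mirror

/-! # The theorem, given the finite statement -/

namespace Pool.Agent.H.MP_2e666d_lc

/-- Both halves, given the finite statement. -/
theorem both_of_FS (h : FS) :
    ∃ (β : Type) (_ : LinearOrder β) (_ : WellFoundedLT β),
      (∀ G : SimpleGraph β, G.CliqueFree 3 →
          ∃ f : β ↪o β, ∀ x y, ¬ G.Adj (f x) (f y)) ∧
      ∃ G : SimpleGraph β, G.CliqueFree 4 ∧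
          ∀ f : β ↪o β, ∃ x y, G.Adj (f x) (f y) :=
  ⟨B, inferInstance, inferInstance, fun G hG => positive h G hG, Neg.neg_half⟩

/-- Both halves, given the seven certified classes. -/
theorem both_of_seven {K : ℕ} (hK : 18 ≤ K) (ab00 : T3.Good K (T3.clsAB 0 0))
    (ab10 : T3.Good K (T3.clsAB 1 0)) (ab01 : T3.Good K (T3.clsAB 0 1))
    (aba00 : T3.Good K (T3.clsABAf 0 0)) (aba10 : T3.Good K (T3.clsABAf 1 0))
    (bab00 : T3.Good K (T3.clsBABf 0 0)) (bab10 : T3.Good K (T3.clsBABf 1 0)) :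
    ∃ (β : Type) (_ : LinearOrder β) (_ : WellFoundedLT β),
      (∀ G : SimpleGraph β, G.CliqueFree 3 →
          ∃ f : β ↪o β, ∀ x y, ¬ G.Adj (f x) (f y)) ∧
      ∃ G : SimpleGraph β, G.CliqueFree 4 ∧
          ∀ f : β ↪o β, ∃ x y, G.Adj (f x) (f y) :=
  both_of_FS (T3.FS_of_seven hK ab00 ab10 ab01 aba00 aba10 bab00 bab10)

end Pool.Agent.H.MP_2e666d_lc
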