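import Pool.Agent.H.MP_2e666d_lc.Words

/-! # Chains

`LCh W Ns c u v w sat`: the chain of the phases `Ns` for the word `W` on all three tapes, from the
state `c` (numbers of opened blocks), roles `u, v, w`, flag `sat`.  In a phase with `N` atoms the
active tape is `v.rev`, the host tape is `u.rev` and the passive tape is `w.rev` (tape `t` is the
tape of the two players different from `t.rev`). -/

namespace Pool.Agent.H.MP_2e666d_lc

def LCh (W : List ℕ) : List ℕ → (Fin 3 → ℕ) → Fin 3 → Fin 3 → Fin 3 → Prop → Prop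
  | [], c, _, _, _, sat => (∀ t, c t = W.length) ∧ sat
  | N :: Ns, c, u, v, w, sat =>
      (1 ≤ N ∧ c v.rev + N ≤ W.length ∧ c u.rev < W.length) ∧
      (∀ i, i + 1 < N → i % 2 = 0 → W.getD (c v.rev + i) 0 ≤ W.getD (c u.rev) 0) ∧
      (∀ i, i + 1 < N → i % 2 = 1 → W.getD (c v.rev + i) 0 ≤ W.getD (c w.rev - 1) 0) ∧
      ((∃ i, i + 1 < N ∧ i % 2 = 0 ∧ W.getD (c v.rev + i) 0 = W.getD (c u.rev) 0) ∨
        (N % 2 = 1 ∧ W.getD (c u.rev) 0 ≤ W.getD (c v.rev + (N - 1)) 0)) ∧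
      (sat ∨ (∃ i, i + 1 < N ∧ i % 2 = 1 ∧ W.getD (c v.rev + i) 0 = W.getD (c w.rev - 1) 0) ∨
        (N % 2 = 0 ∧ W.getD (c w.rev - 1) 0 ≤ W.getD (c v.rev + (N - 1)) 0)) ∧
      LCh W Ns (fun t => if t = v.rev then c t + N else if t = u.rev then c t + 1 else c t)
        (if N % 2 = 1 then w else u) (if N % 2 = 1 then u else w) v
        (W.getD (c v.rev + (N - 1)) 0 ≤
          if N % 2 = 1 then W.getD (c u.rev) 0 else W.getD (c w.rev - 1) 0)

/-- the chain of `W` from the initial state (the first atom of the player `0` has been made) -/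
def LChain (W Ns : List ℕ) : Prop :=
  LCh W Ns (fun t => if t = 2 then 0 else 1) 0 2 1 True

/-- the finite statement -/
def FS : Prop := ∃ K, ∀ W, ValidW W → ∃ Ns : List ℕ, Ns.length ≤ K ∧ LChain W Ns

/-- A chain for three words, as sequences.  The first phase (number `0`) consists of the first
atom of the player `0`. -/
structure Ch (W : Fin 3 → List ℕ) where
  m : ℕ
  N : ℕ → ℕ
  u : ℕ → Fin 3
  v : ℕ → Fin 3
  w : ℕ → Fin 3
  c : ℕ → Fin 3 → ℕ
  c0 : ∀ t, c 0 t = 0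
  u0 : u 0 = 2
  v0 : v 0 = 1
  w0 : w 0 = 0
  N0 : N 0 = 1
  m1 : 1 ≤ m
  N1 : ∀ i < m, 1 ≤ N i
  us : ∀ i, u (i + 1) = if N i % 2 = 1 then w i else u i
  vs : ∀ i, v (i + 1) = if N i % 2 = 1 then u i else w i
  ws : ∀ i, w (i + 1) = v i
  cs : ∀ i t, c (i + 1) t =
    if t = (v i).rev then c i t + N i else if t = (u i).rev then c i t + 1 else c i t
  ce : ∀ t, c m t = (W t).length
  /-- simple letters of `w` -/
  sw : ∀ i < m, ∀ n, n + 1 < N i → n % 2 = 0 →
    (W (v i).rev).getD (c i (v i).rev + n) 0 ≤ (W (u i).rev).getD (c i (u i).rev) 0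
  /-- simple letters of `u` -/
  su : ∀ i < m, ∀ n, n + 1 < N i → n % 2 = 1 →
    (W (v i).rev).getD (c i (v i).rev + n) 0 ≤ (W (w i).rev).getD (c i (w i).rev - 1) 0
  /-- the host letter is attained -/
  ah : ∀ i < m, (∃ n, n + 1 < N i ∧ n % 2 = 0 ∧
    (W (v i).rev).getD (c i (v i).rev + n) 0 = (W (u i).rev).getD (c i (u i).rev) 0) ∨
    (N i % 2 = 1 ∧ (W (u i).rev).getD (c i (u i).rev) 0 ≤
      (W (v i).rev).getD (c i (v i).rev + (N i - 1)) 0)
  /-- the last letter of the phase `i` is attained in the phase `i` or in the phase `i + 1` -/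
  ag : ∀ i < m, ((W (v i).rev).getD (c i (v i).rev + (N i - 1)) 0 ≤
      if N i % 2 = 1 then (W (u i).rev).getD (c i (u i).rev) 0
      else (W (w i).rev).getD (c i (w i).rev - 1) 0) ∨
    (i + 1 < m ∧ ((∃ n, n + 1 < N (i + 1) ∧ n % 2 = 1 ∧
        (W (v (i + 1)).rev).getD (c (i + 1) (v (i + 1)).rev + n) 0 =
          (W (v i).rev).getD (c i (v i).rev + (N i - 1)) 0) ∨
      (N (i + 1) % 2 = 0 ∧ (W (v i).rev).getD (c i (v i).rev + (N i - 1)) 0 ≤
        (W (v (i + 1)).rev).getD (c (i + 1) (v (i + 1)).rev + (N (i + 1) - 1)) 0)))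

end Pool.Agent.H.MP_2e666d_lc
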