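import Pool.Agent.H.MP_2e666d_lc.Game

/-! # Basic lemmas on the positions -/

namespace Pool.Agent.H.MP_2e666d_lc

theorem levL_spec {α : Type} (s : ℕ → List α) (h : ¬ ∀ g, s g = []) :
    s (levL s) ≠ [] ∧ ∀ g < levL s, s g = [] := by
  have hne : {g | (s g).length ≠ 0}.Nonempty := by
    by_contra hcon
    apply h
    intro g
    by_contra hg
    exact hcon ⟨g, by simpa using hg⟩
  constructor
  · have := Nat.sInf_mem hne
    intro h0
    apply this
    have : s (levL s) = [] := h0
    unfold levL lev at this
    rw [this]; rfl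
  · intro g hg
    have := Nat.notMem_of_lt_sInf (s := {g | (s g).length ≠ 0}) hg
    simpa using this

theorem levL_eq {α : Type} (s : ℕ → List α) (g : ℕ) (h : s g ≠ []) (h' : ∀ g' < g, s g' = []) :
    levL s = g := by
  have h0 : ¬ ∀ g, s g = [] := fun hh => h (hh g)
  obtain ⟨h1, h2⟩ := levL_spec s h0
  rcases lt_trichotomy (levL s) g with h3 | h3 | h3
  · exact absurd (h' _ h3) h1
  · exact h3
  · exact absurd (h2 _ h3) h

/-- the level depends only on the lengths -/
theorem levL_congr {α β : Type} (s : ℕ → List α) (s' : ℕ → List β)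
    (h : ∀ g, (s g).length = (s' g).length) : levL s = levL s' := by
  unfold levL
  congr 1
  funext g
  exact h g

theorem mkF_length {τ : Type} (ts : List τ) (J : List ℕ) :
    (mkF ts J).length = J.getLastD 0 + 1 := by
  simp [mkF]

/-- auxiliary: lookup in a zip with distinct keys -/
theorem gameLem_lookup {τ : Type} (ts : List τ) (J : List ℕ) (hJ : J.Pairwise (· < ·))
    (j : ℕ) (a : τ) :
    (J.zip ts).lookup j = some a ↔ ∃ i : ℕ, ts[i]? = some a ∧ J[i]? = some j := by
  induction J generalizing ts with
  | nil => simp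
  | cons b J ih =>
    cases ts with
    | nil => simp
    | cons t ts =>
      rw [List.pairwise_cons] at hJ
      rw [List.zip_cons_cons, List.lookup_cons]
      by_cases hj : j = b
      · subst hj
        simp only [beq_self_eq_true]
        constructor
        · intro h
          exact ⟨0, by simpa using h, by simp⟩
        · rintro ⟨i, h1, h2⟩
          cases i with
          | zero => simpa using h1
          | succ i =>
            simp only [List.getElem?_cons_succ] at h2
            have := hJ.1 j (List.mem_of_getElem? h2)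
            omega
      · have hb : (j == b) = false := by simpa using hj
        rw [hb]
        simp only [Bool.false_eq_true, if_false]
        rw [ih ts hJ.2]
        constructor
        · rintro ⟨i, h1, h2⟩
          exact ⟨i + 1, by simpa using h1, by simpa using h2⟩
        · rintro ⟨i, h1, h2⟩
          cases i with
          | zero =>
            simp only [List.getElem?_cons_zero, Option.some.injEq] at h2
            exact absurd h2.symm hj
          | succ i => exact ⟨i, by simpa using h1, by simpa using h2⟩

/-- auxiliary: the entries of an increasing list are bounded by the last entry -/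
theorem gameLem_le_last (J : List ℕ) (hJ : J.Pairwise (· < ·)) (i j : ℕ) (h : J[i]? = some j) :
    j ≤ J.getLastD 0 ∧ (i + 1 < J.length → j < J.getLastD 0) := by
  obtain ⟨hi, hij⟩ := List.getElem?_eq_some_iff.mp h
  have hne : J ≠ [] := by
    rintro rfl
    simp at hi
  have hlast : J.getLastD 0 = J[J.length - 1]'(by omega) := by
    rw [List.getLastD_eq_getLast?, List.getLast?_eq_some_getLast hne]
    simp [List.getLast_eq_getElem]
  rw [List.pairwise_iff_getElem] at hJ
  rw [hlast]
  have key : i + 1 < J.length → j < J[J.length - 1]'(by omega) := by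
    intro hi2
    have := hJ i (J.length - 1) hi (by omega) (by omega)
    omega
  refine ⟨?_, key⟩
  by_cases hi2 : i + 1 < J.length
  · exact (key hi2).le
  · have : i = J.length - 1 := by omega
    subst this
    exact hij.ge

theorem mkF_get {τ : Type} (ts : List τ) (J : List ℕ) (hl : J.length = ts.length + 1)
    (hJ : J.Pairwise (· < ·)) (j : ℕ) (a : τ) :
    (mkF ts J)[j]? = some (some a) ↔ ∃ i : ℕ, ts[i]? = some a ∧ J[i]? = some j := by
  unfold mkF
  rw [List.getElem?_map]
  constructor
  · intro h
    rw [Option.map_eq_some_iff] at h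
    obtain ⟨b, hb, hb2⟩ := h
    have : b = j := by
      rw [List.getElem?_eq_some_iff] at hb
      obtain ⟨_, h2⟩ := hb
      simpa using h2.symm
    subst this
    exact (gameLem_lookup ts J hJ b a).mp hb2
  · intro h
    obtain ⟨i, h1, h2⟩ := h
    have hle := (gameLem_le_last J hJ i j h2).1
    rw [Option.map_eq_some_iff]
    refine ⟨j, ?_, (gameLem_lookup ts J hJ j a).mpr ⟨i, h1, h2⟩⟩
    rw [List.getElem?_range (by omega)]

/-- the last child is not flagged -/
theorem mkF_last {τ : Type} (ts : List τ) (J : List ℕ) (hl : J.length = ts.length + 1)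
    (hJ : J.Pairwise (· < ·)) (h : mkF ts J ≠ []) : (mkF ts J).getLast h = none := by
  by_contra hcon
  obtain ⟨a, ha⟩ := Option.ne_none_iff_exists'.mp hcon
  have h2 : (mkF ts J)[J.getLastD 0]? = some (some a) := by
    rw [← ha, List.getLast_eq_getElem, List.getElem?_eq_some_iff]
    refine ⟨by rw [mkF_length]; omega, ?_⟩
    congr 1
    rw [mkF_length]; omega
  obtain ⟨i, h3, h4⟩ := (mkF_get ts J hl hJ _ a).mp h2
  have hi : i < ts.length := (List.getElem?_eq_some_iff.mp h3).1
  have := (gameLem_le_last J hJ i _ h4).2 (by omega)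
  omega

theorem mkF_nil {τ : Type} (J : List ℕ) : ∀ x ∈ mkF ([] : List τ) J, x = none := by
  intro x hx
  unfold mkF at hx
  simp only [List.zip_nil_right, List.lookup_nil, List.mem_map] at hx
  obtain ⟨_, _, h⟩ := hx
  exact h.symm

/-- the new lists have the lengths given by the counter machine -/
theorem newS_length {τ : Type} (s : ℕ → List (Option τ)) (ts : List τ) (J : List ℕ) (g : ℕ) :
    (newS s ts J g).length = rd (fun g => (s g).length) (J.getLastD 0) g := by
  unfold newS rd
  change _ = if g = levL s then (s g).length - 1 else if g + 1 = levL s then J.getLastD 0 + 1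
    else (s g).length
  split_ifs
  · simp
  · exact mkF_length ts J
  · rfl

namespace Pos

variable {τ : Type}

theorem adv_s_mv (p : Pos τ) (ts : List τ) (J : List ℕ) :
    (p.adv ts J).s p.mv = newS (p.s p.mv) ts J := by
  simp [adv]

theorem adv_s_other (p : Pos τ) (ts : List τ) (J : List ℕ) :
    (p.adv ts J).s (!p.mv) = p.s (!p.mv) := by
  simp [adv]

theorem adv_v_mv (p : Pos τ) (ts : List τ) (J : List ℕ) :
    (p.adv ts J).v p.mv = p.v p.mv ++ [J.getLastD 0] := by
  simp [adv]

theorem adv_v_other (p : Pos τ) (ts : List τ) (J : List ℕ) :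
    (p.adv ts J).v (!p.mv) = p.v (!p.mv) := by
  simp [adv]

theorem adv_path_other (p : Pos τ) (ts : List τ) (J : List ℕ) :
    (p.adv ts J).path (!p.mv) = p.path (!p.mv) := by
  simp [adv]

theorem adv_path_mv (p : Pos τ) (ts : List τ) (J : List ℕ) (g : ℕ) :
    (p.adv ts J).path p.mv g = if g = p.lv then p.fl.map (fun t => (p.W.length, t))
      else if g < p.lv then none else p.path p.mv g := by
  simp [adv]

/-- the three cases for the word: completion, flagged leaf, neither -/
theorem adv_W (p : Pos τ) (ts : List τ) (J : List ℕ) :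
    ((p.adv ts J).dn p.mv ∧ (p.adv ts J).W = p.W ++ [4] ∧ (p.adv ts J).h = 0) ∨
    (¬ (p.adv ts J).dn p.mv ∧ p.lv = 0 ∧ p.fl ≠ none ∧
      (p.adv ts J).W = p.W ++ [p.h] ∧ (p.adv ts J).h = 0) ∨
    (¬ (p.adv ts J).dn p.mv ∧ ¬ (p.lv = 0 ∧ p.fl ≠ none) ∧
      (p.adv ts J).W = p.W ∧ (p.adv ts J).h = max p.h p.lv) := by
  have hdn : (p.adv ts J).dn p.mv ↔ ∀ j, newS (p.s p.mv) ts J j = [] := by
    unfold dn
    rw [adv_s_mv]
  rw [hdn]
  by_cases h1 : ∀ j, newS (p.s p.mv) ts J j = []
  · left
    refine ⟨h1, ?_, ?_⟩
    · simp only [adv]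
      rw [if_pos h1]
    · simp only [adv]
      rw [if_pos (Or.inl h1)]
  · right
    by_cases h2 : p.lv = 0 ∧ p.fl ≠ none
    · left
      refine ⟨h1, h2.1, h2.2, ?_, ?_⟩
      · simp only [adv]
        rw [if_neg h1, if_pos h2, h2.1, Nat.max_zero]
      · simp only [adv]
        rw [if_pos (Or.inr h2)]
    · right
      refine ⟨h1, h2, ?_, ?_⟩
      · simp only [adv]
        rw [if_neg h1, if_neg h2]
      · simp only [adv]
        rw [if_neg (by rintro (h | h) <;> contradiction)]

/-- the facts only grow -/
theorem adv_facts (p : Pos τ) (ts : List τ) (J : List ℕ) :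
    (p.adv ts J).facts = match p.fl with
      | some t => (p.W.length, p.lv, t) :: p.facts
      | none => p.facts := by
  rfl

end Pos

end Pool.Agent.H.MP_2e666d_lc
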