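import Pool.Agent.H.MP_2e666d_lc.CompDef
import Pool.Agent.H.MP_2e666d_lc.GameLem

/-! # Completions: basic facts -/

namespace Pool.Agent.H.MP_2e666d_lc

namespace Pos

variable {τ : Type}

/-- winning positions have completions -/
theorem comp_of_win (T : Set τ) (G : SimpleGraph B) (Φ : List ℕ → ℕ → ℕ → τ) (p : Pos τ)
    (h : Win T G Φ p) : ∃ W, Comp T Φ p W := by
  refine win_induction T G Φ (fun p => ∃ W, Comp T Φ p W) ?_ ?_ p h
  · intro p h1 h2 h3
    exact ⟨p.W, Comp.fin p h1 h2 h3.2⟩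
  · intro p ts h1 h2 h3
    obtain ⟨J, ⟨W, hW⟩, hJ1, hJ2, -⟩ := Gen.exists_incr 0 h3
    exact ⟨W, Comp.step p ts J W h1 h2 hJ1 hJ2 hW⟩

theorem comp_reach {T : Set τ} {Φ : List ℕ → ℕ → ℕ → τ} {φ1 φ2 : Option τ} {p : Pos τ}
    {W : List ℕ} (h : Reach T φ1 φ2 p) (hc : Comp T Φ p W) : Comp T Φ (start φ1 φ2) W := by
  induction h with
  | start => exact hc
  | step p ts J _ h2 h3 h4 h5 ih => exact ih (Comp.step p ts J W h2 h3 h4 h5 hc)

theorem CompA_adv (p : Pos τ) (ts : List τ) (J : List ℕ) : p.W <+: (p.adv ts J).W := by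
  rcases adv_W p ts J with ⟨-, h, -⟩ | ⟨-, -, -, h, -⟩ | ⟨-, -, h, -⟩
  · rw [h]
    exact List.prefix_append _ _
  · rw [h]
    exact List.prefix_append _ _
  · rw [h]

theorem comp_prefix {T : Set τ} {Φ : List ℕ → ℕ → ℕ → τ} {p : Pos τ} {W : List ℕ}
    (hc : Comp T Φ p W) : p.W <+: W := by
  induction hc with
  | fin p _ _ _ => exact List.prefix_rfl
  | step p ts J W _ _ _ _ _ ih => exact (CompA_adv p ts J).trans ih

theorem comp_facts {T : Set τ} {Φ : List ℕ → ℕ → ℕ → τ} {p : Pos τ} {W : List ℕ}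
    (hc : Comp T Φ p W) : ∀ f ∈ p.facts, f.2.2 = Φ W f.1 f.2.1 := by
  induction hc with
  | fin p _ _ h => exact h
  | step p ts J W _ _ _ _ _ ih =>
    intro f hf
    apply ih f
    rw [adv_facts]
    cases hfl : p.fl with
    | none => exact hf
    | some t => exact List.mem_cons_of_mem _ hf

end Pos

end Pool.Agent.H.MP_2e666d_lc
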