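import Pool.Agent.H.MP_2e666d_lc.CompDef
import Pool.Agent.H.MP_2e666d_lc.GameLem

/-! # Invariants of reachable positions -/

namespace Pool.Agent.H.MP_2e666d_lc

namespace Pos

variable {τ : Type}

theorem CompB_bool (a b : Bool) : a = b ∨ a = !b := by
  cases a <;> cases b <;> simp

theorem CompB_s (p : Pos τ) (ts : List τ) (J : List ℕ) (g : ℕ) :
    (p.adv ts J).s p.mv g = if g = p.lv then (p.s p.mv g).tail
      else if g + 1 = p.lv then mkF ts J else p.s p.mv g := by
  rw [adv_s_mv]
  rfl

theorem CompB_fl_mem (p : Pos τ) (t : τ) (h : p.fl = some t) : some t ∈ p.s p.mv p.lv := by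
  unfold fl at h
  cases hs : p.s p.mv p.lv with
  | nil => rw [hs] at h; simp at h
  | cons a l =>
    rw [hs] at h
    simp only [List.headD_cons] at h
    rw [h]
    exact List.mem_cons_self

theorem CompB_mv_append (p p' : Pos τ) (a : ℕ) (h : p'.W = p.W ++ [a]) : p'.mv = !p.mv := by
  unfold mv
  rw [h, List.length_append, List.length_singleton]
  rcases Nat.mod_two_eq_zero_or_one p.W.length with h1 | h1
  · have : (p.W.length + 1) % 2 = 1 := by omega
    simp [h1, this]
  · have : (p.W.length + 1) % 2 = 0 := by omega
    simp [h1, this]

theorem CompB_mv_same (p p' : Pos τ) (h : p'.W = p.W) : p'.mv = p.mv := by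
  unfold mv
  rw [h]

theorem CompB_getD_lt (W : List ℕ) (a k : ℕ) (h : k < W.length) :
    (W ++ [a]).getD k 0 = W.getD k 0 := by
  rw [List.getD_append _ _ _ _ h]

theorem CompB_getD_eq (W : List ℕ) (a : ℕ) :
    (W ++ [a]).getD W.length 0 = a := by
  rw [List.getD_append_right _ _ _ _ le_rfl]
  simp

theorem CompB_ne_not (a b : Bool) (h : a = !b) : a ≠ b := by
  cases a <;> cases b <;> simp at h ⊢

theorem pi_start (φ1 φ2 : Option τ) : PI (start φ1 φ2) where
  sup := by
    intro u g hg
    have : g ≠ 3 := by omega
    simp [start, this]
  top := by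
    intro u
    simp [start]
  top2 := by
    intro u _ g hg
    have : g ≠ 3 := by omega
    simp [start, this]
  h3 := by simp [start]
  lastn := by
    intro u g hg h
    exfalso
    apply h
    have : g ≠ 3 := by omega
    simp [start, this]
  fp := by
    intro u g t hg h
    exfalso
    have : g ≠ 3 := by omega
    simp [start, this] at h
  pp := by
    intro u g hg h
    exfalso
    apply h
    rfl
  pf := by
    intro u g k t _ h
    exfalso
    simp [start] at h

theorem pi_step {T : Set τ} {p : Pos τ} (h : PI p) (ts : List τ) (J : List ℕ)
    (hd : ¬ p.dn p.mv) (ha : p.Ann T ts) (hl : J.length = ts.length + 1)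
    (hJ : J.Pairwise (· < ·)) : PI (p.adv ts J) := by
  obtain ⟨hne, hlow⟩ := levL_spec (p.s p.mv) hd
  have hne' : p.s p.mv p.lv ≠ [] := hne
  have hlow' : ∀ g < p.lv, p.s p.mv g = [] := hlow
  have hlv : p.lv ≤ 3 := by
    by_contra hcon
    exact hne' (h.sup p.mv p.lv (by omega))
  have hsv : ∀ w, w = (!p.mv) → (p.adv ts J).s w = p.s w := by
    intro w hw
    rw [hw]
    exact adv_s_other p ts J
  have hpv : ∀ w, w = (!p.mv) → (p.adv ts J).path w = p.path w := by
    intro w hw
    rw [hw]
    exact adv_path_other p ts J
  have hfacts : ∀ f, f ∈ p.facts → f ∈ (p.adv ts J).facts := by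
    intro f hf
    rw [adv_facts]
    cases hfl : p.fl with
    | none => exact hf
    | some t => exact List.mem_cons_of_mem _ hf
  have hh := h.h3
  refine ⟨?_, ?_, ?_, ?_, ?_, ?_, ?_, ?_⟩
  · intro w g hg
    rcases CompB_bool w p.mv with hw | hw
    · rw [hw, CompB_s]
      split_ifs with h1 h2
      · omega
      · omega
      · exact h.sup _ g hg
    · rw [hsv w hw]
      exact h.sup w g hg
  · intro w
    rcases CompB_bool w p.mv with hw | hw
    · rw [hw, CompB_s]
      have h0 := h.top p.mv
      split_ifs with h1 h2
      · rw [List.length_tail]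
        omega
      · omega
      · exact h0
    · rw [hsv w hw]
      exact h.top w
  · intro w
    rcases CompB_bool w p.mv with hw | hw
    · rw [hw]
      intro h0
      exfalso
      rw [CompB_s] at h0
      split_ifs at h0 with h1 h2
      · apply h0
        apply List.eq_nil_of_length_eq_zero
        rw [List.length_tail]
        have := h.top p.mv
        omega
      · omega
      · have h3 := h.top2 p.mv h0 p.lv (by omega)
        exact hne' h3
    · rw [hsv w hw]
      exact h.top2 w
  · rcases adv_W p ts J with ⟨-, -, h1⟩ | ⟨-, -, -, -, h1⟩ | ⟨-, -, -, h1⟩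
    · omega
    · omega
    · rw [h1]
      exact max_le hh hlv
  · intro w g hg
    rcases CompB_bool w p.mv with hw | hw
    · subst hw
      rw [CompB_s]
      split_ifs with h1 h2
      · intro h3
        rw [List.getLast_tail]
        exact h.lastn _ g hg _
      · intro h3
        exact mkF_last ts J hl hJ h3
      · exact h.lastn _ g hg
    · rw [hsv w hw]
      exact h.lastn w g hg
  · intro w g t hg
    rcases CompB_bool w p.mv with hw | hw
    · subst hw
      rw [CompB_s, adv_path_mv]
      intro h0
      split_ifs at h0 with h1 h2
      · rw [if_neg (by omega), if_neg (by omega)]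
        exact h.fp _ g t hg (List.mem_of_mem_tail h0)
      · rw [if_pos h2]
        have hts : ts ≠ [] := by
          intro hts
          rw [hts] at h0
          have := mkF_nil J _ h0
          simp at this
        have hfl : p.fl ≠ none := by
          intro hfl
          exact hts ((ha.2.2 (by omega)).1 hfl)
        intro hcon
        rw [Option.map_eq_none_iff] at hcon
        exact hfl hcon
      · have h3 : p.lv < g := by
          rcases lt_trichotomy g p.lv with h4 | h4 | h4
          · rw [hlow' g h4] at h0
            simp at h0
          · exact absurd h4 h1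
          · exact h4
        rw [if_neg (by omega), if_neg (by omega)]
        exact h.fp _ g t hg h0
    · rw [hsv w hw, hpv w hw]
      exact h.fp w g t hg
  · intro w g hg
    rcases CompB_bool w p.mv with hw | hw
    · subst hw
      rw [adv_path_mv, adv_path_mv]
      intro h0
      split_ifs at h0 with h1 h2
      · rw [if_neg (by omega), if_neg (by omega)]
        have hfl : p.fl ≠ none := by
          intro hfl
          apply h0
          rw [hfl]
          rfl
        obtain ⟨t, ht⟩ := Option.ne_none_iff_exists'.mp hfl
        have h3 := CompB_fl_mem p t ht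
        rw [h1]
        exact h.fp _ p.lv t (by omega) h3
      · exact absurd rfl h0
      · rw [if_neg (by omega), if_neg (by omega)]
        exact h.pp _ g hg h0
    · rw [hpv w hw]
      exact h.pp w g hg
  · intro w g k t hdn hpath
    rcases CompB_bool w p.mv with hw | hw
    · subst hw
      -- the mover
      rw [adv_path_mv] at hpath
      rcases adv_W p ts J with ⟨h1, h2, h3⟩ | ⟨h1, h1', h1'', h2, h3⟩ | ⟨h1, h1', h2, h3⟩
      · exact absurd h1 hdn
      · have hmv := CompB_mv_append p _ _ h2
        have hmvne : p.mv ≠ (p.adv ts J).mv := by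
          rw [hmv]
          cases p.mv <;> simp
        rw [h2, List.length_append, List.length_singleton]
        split_ifs at hpath with h4 h5
        · obtain ⟨t', ht'⟩ := Option.ne_none_iff_exists'.mp h1''
          rw [ht'] at hpath
          simp only [Option.map_some, Option.some.injEq, Prod.mk.injEq] at hpath
          obtain ⟨hk, htt⟩ := hpath
          subst hk
          subst htt
          refine ⟨?_, rfl, Or.inl ⟨by omega, ?_, ?_⟩, ?_, ?_⟩
          · rw [adv_facts, ht', h4]
            exact List.mem_cons_self
          · omega
          · rw [CompB_getD_eq]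
            exact hh
          · intro _ h6
            exact absurd h6 hmvne
          · intro k' hk1 hk2
            omega
        · obtain ⟨a1, a2, a3, a4, a5⟩ := h.pf p.mv g k t hd hpath
          refine ⟨hfacts _ a1, a2, Or.inl ?_, ?_, ?_⟩
          · rcases a3 with ⟨b1, b2, b3⟩ | ⟨b1, b2, b3⟩
            · rw [CompB_getD_lt _ _ _ b1]
              exact ⟨by omega, b2, b3⟩
            · subst b1
              rw [CompB_getD_eq]
              exact ⟨by omega, b3, hh⟩
          · intro _ h6
            exact absurd h6 hmvne
          · intro k' hk1 hk2 hk3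
            rcases Nat.lt_or_ge k' p.W.length with h6 | h6
            · rw [CompB_getD_lt _ _ _ h6]
              exact a5 k' hk1 h6 hk3
            · have h7 : k' = p.W.length := by omega
              subst h7
              rw [CompB_getD_eq]
              rcases a4 hk1 rfl with h8 | h8
              · exact h8
              · omega
      · have hmv := CompB_mv_same p _ h2
        rw [h2, h3, hmv]
        split_ifs at hpath with h4 h5
        · have hfl : p.fl ≠ none := by
            intro hfl
            rw [hfl] at hpath
            simp at hpath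
          obtain ⟨t', ht'⟩ := Option.ne_none_iff_exists'.mp hfl
          rw [ht'] at hpath
          simp only [Option.map_some, Option.some.injEq, Prod.mk.injEq] at hpath
          obtain ⟨hk, htt⟩ := hpath
          subst hk
          subst htt
          refine ⟨?_, rfl, Or.inr ⟨rfl, rfl, ?_⟩, ?_, ?_⟩
          · rw [adv_facts, ht', h4]
            exact List.mem_cons_self
          · rw [h4]
            exact le_max_right _ _
          · intro h6
            omega
          · intro k' hk1 hk2
            omega
        · obtain ⟨a1, a2, a3, a4, a5⟩ := h.pf p.mv g k t hd hpath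
          refine ⟨hfacts _ a1, a2, ?_, ?_, a5⟩
          · rcases a3 with b | ⟨b1, b2, b3⟩
            · exact Or.inl b
            · exact Or.inr ⟨b1, b2, le_trans b3 (le_max_left _ _)⟩
          · intro h6 _
            left
            rcases a4 h6 rfl with h7 | h7
            · exact max_lt h7 (by omega)
            · rw [h7]
              exact max_lt (by omega) (by omega)
    · -- the other element
      have hwne : w ≠ p.mv := CompB_ne_not w p.mv hw
      rw [hpv w hw] at hpath
      have hdn' : ¬ p.dn w := by
        intro hcon
        apply hdn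
        intro g'
        rw [hsv w hw]
        exact hcon g'
      obtain ⟨a1, a2, a3, a4, a5⟩ := h.pf w g k t hdn' hpath
      have a3' : k < p.W.length ∧ g ≤ p.W.getD k 0 ∧ p.W.getD k 0 ≤ 3 := by
        rcases a3 with b | ⟨b1, b2, b3⟩
        · exact b
        · exact absurd b2 hwne
      have key : ∀ a, (p.adv ts J).W = p.W ++ [a] → (p.adv ts J).h = 0 →
          (k, g, t) ∈ (p.adv ts J).facts ∧ decide (k % 2 = 1) = w ∧
          ((k < (p.adv ts J).W.length ∧ g ≤ (p.adv ts J).W.getD k 0 ∧
            (p.adv ts J).W.getD k 0 ≤ 3) ∨
            (k = (p.adv ts J).W.length ∧ w = (p.adv ts J).mv ∧ g ≤ (p.adv ts J).h)) ∧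
          (k < (p.adv ts J).W.length → w = (p.adv ts J).mv →
            (p.adv ts J).h < g ∨ (p.adv ts J).h = 0) ∧
          ∀ k', k < k' → k' < (p.adv ts J).W.length → decide (k' % 2 = 1) = w →
            (p.adv ts J).W.getD k' 0 < g := by
        intro a h2 h3
        refine ⟨hfacts _ a1, a2, Or.inl ?_, ?_, ?_⟩
        · rw [h2, CompB_getD_lt _ _ _ a3'.1, List.length_append]
          exact ⟨by omega, a3'.2⟩
        · intro _ _
          exact Or.inr h3
        · intro k' hk1 hk2 hk3
          rw [h2] at hk2 ⊢
          rw [List.length_append, List.length_singleton] at hk2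
          rcases Nat.lt_or_ge k' p.W.length with h6 | h6
          · rw [CompB_getD_lt _ _ _ h6]
            exact a5 k' hk1 h6 hk3
          · have h7 : k' = p.W.length := by omega
            subst h7
            exact absurd hk3.symm hwne
      rcases adv_W p ts J with ⟨h1, h2, h3⟩ | ⟨h1, h1', h1'', h2, h3⟩ | ⟨h1, h1', h2, h3⟩
      · exact key _ h2 h3
      · exact key _ h2 h3
      · have hmv := CompB_mv_same p _ h2
        rw [h2, hmv]
        refine ⟨hfacts _ a1, a2, Or.inl a3', ?_, a5⟩
        intro _ h6
        exact absurd h6 hwne

theorem pi_reach {T : Set τ} {φ1 φ2 : Option τ} {p : Pos τ} (h : Reach T φ1 φ2 p) : PI p := by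
  induction h with
  | start => exact pi_start φ1 φ2
  | step p ts J _ hd ha hl hJ ih => exact pi_step ih ts J hd ha hl hJ

end Pos

end Pool.Agent.H.MP_2e666d_lc
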