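import Pool.Agent.H.MP_2e666d_lc.CompA
import Pool.Agent.H.MP_2e666d_lc.CompB

/-! # Lengths of the completed words -/

namespace Pool.Agent.H.MP_2e666d_lc

namespace Pos

variable {τ : Type}

theorem compc_getD_of_pre {P W : List ℕ} {a : ℕ} (h : P ++ [a] <+: W) :
    P.length < W.length ∧ W.getD P.length 0 = a := by
  obtain ⟨t, rfl⟩ := h
  constructor
  · simp only [List.length_append, List.length_cons, List.length_nil]
    omega
  · rw [List.getD_eq_getElem?_getD, List.getElem?_append_left (by simp),
      List.getElem?_append_right (le_refl _)]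
    simp

theorem compc_mv_succ {p p' : Pos τ} {a : ℕ} (h : p'.W = p.W ++ [a]) : p'.mv = !p.mv := by
  unfold mv
  rw [h, List.length_append, List.length_singleton]
  rcases Nat.mod_two_eq_zero_or_one p.W.length with h2 | h2
  · have h3 : (p.W.length + 1) % 2 = 1 := by omega
    rw [h2, h3]
    rfl
  · have h3 : (p.W.length + 1) % 2 = 0 := by omega
    rw [h2, h3]
    rfl

theorem compc_mv_same {p p' : Pos τ} (h : p'.W = p.W) : p'.mv = p.mv := by
  unfold mv
  rw [h]

theorem compc_dn_other (p : Pos τ) (ts : List τ) (J : List ℕ) :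
    (p.adv ts J).dn (!p.mv) ↔ p.dn (!p.mv) := by
  unfold dn
  rw [adv_s_other]

/-- a completable position whose mover is complete is complete -/
theorem compc_both {T : Set τ} {Φ : List ℕ → ℕ → ℕ → τ} {p : Pos τ} {W : List ℕ}
    (hc : Comp T Φ p W) (hd : p.dn p.mv) : p.dn (!p.mv) := by
  cases hc with
  | fin _ h1 h2 _ => exact h2
  | step _ ts J _ h1 _ _ _ _ => exact absurd hd h1

/-- the current block and the next one exist -/
theorem comp_len {T : Set τ} {Φ : List ℕ → ℕ → ℕ → τ} {p : Pos τ} {W : List ℕ} (hp : PI p)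
    (hc : Comp T Φ p W) :
    (¬ p.dn p.mv → p.W.length < W.length ∧ p.h ≤ W.getD p.W.length 0) ∧
    (¬ p.dn (!p.mv) → p.W.length + 2 ≤ W.length) ∧
    (p.dn p.mv → p.dn (!p.mv) → W = p.W) := by
  induction hc with
  | fin p h1 h2 _ => exact ⟨fun h => absurd h1 h, fun h => absurd h2 h, fun _ _ => rfl⟩
  | step p ts J W hd ha hl hJ hc ih =>
    have hp' := pi_step hp ts J hd ha hl hJ
    obtain ⟨i1, i2, -⟩ := ih hp'
    have hpre := comp_prefix hc
    have h3 := hp.h3
    refine ⟨fun _ => ?_, fun hv => ?_, fun h => absurd h hd⟩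
    · rcases adv_W p ts J with ⟨_, hW, _⟩ | ⟨_, _, _, hW, _⟩ | ⟨hn, _, hW, hh⟩
      · rw [hW] at hpre
        obtain ⟨a, b⟩ := compc_getD_of_pre hpre
        exact ⟨a, by omega⟩
      · rw [hW] at hpre
        obtain ⟨a, b⟩ := compc_getD_of_pre hpre
        exact ⟨a, by omega⟩
      · have hm := compc_mv_same hW
        rw [hm, hW, hh] at i1
        obtain ⟨a, b⟩ := i1 hn
        exact ⟨a, le_trans (le_max_left _ _) b⟩
    · rcases adv_W p ts J with ⟨_, hW, _⟩ | ⟨_, _, _, hW, _⟩ | ⟨hn, _, hW, hh⟩
      · have hm := compc_mv_succ hW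
        rw [hm, hW] at i1
        have hv' : ¬ (p.adv ts J).dn (!p.mv) := fun h => hv ((compc_dn_other p ts J).1 h)
        obtain ⟨a, _⟩ := i1 hv'
        rw [List.length_append, List.length_singleton] at a
        omega
      · have hm := compc_mv_succ hW
        rw [hm, hW] at i1
        have hv' : ¬ (p.adv ts J).dn (!p.mv) := fun h => hv ((compc_dn_other p ts J).1 h)
        obtain ⟨a, _⟩ := i1 hv'
        rw [List.length_append, List.length_singleton] at a
        omega
      · have hm := compc_mv_same hW
        rw [hm, hW] at i2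
        exact i2 (fun h => hv ((compc_dn_other p ts J).1 h))

/-- the last element finishes in the current block -/
theorem compc_one {T : Set τ} {Φ : List ℕ → ℕ → ℕ → τ} {p : Pos τ} {W : List ℕ} (hp : PI p)
    (hc : Comp T Φ p W) (hd : ¬ p.dn p.mv) (hv : p.dn (!p.mv)) :
    W.length = p.W.length + 1 := by
  induction hc with
  | fin p h1 h2 _ => exact absurd h1 hd
  | step p ts J W hd' ha hl hJ hc ih =>
    have hp' := pi_step hp ts J hd' ha hl hJ
    have hv' : (p.adv ts J).dn (!p.mv) := (compc_dn_other p ts J).2 hv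
    rcases adv_W p ts J with ⟨hu, hW, _⟩ | ⟨hu, _, _, hW, _⟩ | ⟨hn, _, hW, hh⟩
    · have hm := compc_mv_succ hW
      have h3 := (comp_len hp' hc).2.2
      rw [hm, Bool.not_not] at h3
      have h4 := h3 hv' hu
      rw [h4, hW, List.length_append, List.length_singleton]
    · exfalso
      have hm := compc_mv_succ hW
      have h3 := compc_both hc (by rw [hm]; exact hv')
      rw [hm, Bool.not_not] at h3
      exact hu h3
    · have hm := compc_mv_same hW
      rw [← hW]
      exact ih hp' (by rw [hm]; exact hn) (by rw [hm]; exact hv')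

theorem compc_fl {p : Pos τ} (hf : ∀ g, ∀ x ∈ p.s p.mv g, x = none) : p.fl = none := by
  unfold fl
  have h := hf p.lv
  cases hs : p.s p.mv p.lv with
  | nil => rfl
  | cons a l =>
    rw [hs] at h
    exact h a (List.mem_cons_self)

/-- without flags the mover finishes in the current block -/
theorem comp_last {T : Set τ} {Φ : List ℕ → ℕ → ℕ → τ} {p : Pos τ} {W : List ℕ} (hp : PI p)
    (hc : Comp T Φ p W) (hd : ¬ p.dn p.mv) (hf : ∀ g, ∀ x ∈ p.s p.mv g, x = none) :
    W.length ≤ p.W.length + 2 := by
  induction hc with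
  | fin p h1 h2 _ => exact absurd h1 hd
  | step p ts J W hd' ha hl hJ hc ih =>
    have hp' := pi_step hp ts J hd' ha hl hJ
    have hfl := compc_fl hf
    rcases adv_W p ts J with ⟨hu, hW, _⟩ | ⟨hu, _, hne, hW, _⟩ | ⟨hn, _, hW, hh⟩
    · have hm := compc_mv_succ hW
      by_cases hv : p.dn (!p.mv)
      · have hv' : (p.adv ts J).dn (!p.mv) := (compc_dn_other p ts J).2 hv
        have h3 := (comp_len hp' hc).2.2
        rw [hm, Bool.not_not] at h3
        have h4 := h3 hv' hu
        rw [h4, hW, List.length_append, List.length_singleton]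
        omega
      · have hv' : ¬ (p.adv ts J).dn (!p.mv) := fun h => hv ((compc_dn_other p ts J).1 h)
        have h5 := compc_one hp' hc (by rw [hm]; exact hv') (by rw [hm, Bool.not_not]; exact hu)
        rw [hW, List.length_append, List.length_singleton] at h5
        omega
    · exact absurd hfl hne
    · have hm := compc_mv_same hW
      rw [← hW]
      refine ih hp' (by rw [hm]; exact hn) ?_
      rw [hm]
      intro g x hx
      rw [adv_s_mv] at hx
      have hts : ts = [] := by
        by_cases h0 : p.lv = 0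
        · exact ha.2.1 h0
        · exact (ha.2.2 h0).1 hfl
      unfold newS at hx
      split_ifs at hx with h1 h2
      · exact hf g x (List.mem_of_mem_tail hx)
      · rw [hts] at hx
        exact mkF_nil J x hx
      · exact hf g x hx

end Pos

end Pool.Agent.H.MP_2e666d_lc
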