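import Pool.Agent.H.MP_2e666d_lc.CompC

/-! # The flagged pending draws -/

namespace Pool.Agent.H.MP_2e666d_lc

namespace Pos

variable {τ : Type}

/-- a flagged pending draw before the step: it is the drawn one or still pending -/
theorem compD_cases (p : Pos τ) (ts : List τ) (J : List ℕ) (hd : ¬ p.dn p.mv) (g j : ℕ) (t : τ)
    (h : (p.s p.mv g)[j]? = some (some t)) :
    (g = p.lv ∧ j = 0 ∧ p.fl = some t) ∨
    (g = p.lv ∧ ∃ i, j = i + 1 ∧ ((p.adv ts J).s p.mv p.lv)[i]? = some (some t)) ∨
    (p.lv < g ∧ ((p.adv ts J).s p.mv g)[j]? = some (some t)) := by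
  have hsp := levL_spec (p.s p.mv) hd
  change p.s p.mv p.lv ≠ [] ∧ ∀ g < p.lv, p.s p.mv g = [] at hsp
  rw [adv_s_mv]
  rcases lt_trichotomy g p.lv with h1 | h1 | h1
  · rw [hsp.2 g h1] at h
    simp at h
  · subst h1
    cases j with
    | zero =>
      left
      refine ⟨rfl, rfl, ?_⟩
      unfold fl
      cases hs : p.s p.mv p.lv with
      | nil => exact absurd hs hsp.1
      | cons a l =>
        rw [hs] at h
        simpa using h
    | succ i =>
      right; left
      refine ⟨rfl, i, rfl, ?_⟩
      unfold newS
      have : p.lv = levL (p.s p.mv) := rfl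
      rw [if_pos this]
      cases hs : p.s p.mv p.lv with
      | nil => exact absurd hs hsp.1
      | cons a l =>
        rw [hs] at h
        simpa using h
  · right; right
    refine ⟨h1, ?_⟩
    unfold newS
    have h2 : ¬ g = levL (p.s p.mv) := by
      change ¬ g = p.lv
      omega
    have h3 : ¬ g + 1 = levL (p.s p.mv) := by
      change ¬ g + 1 = p.lv
      omega
    rw [if_neg h2, if_neg h3]
    exact h

theorem compD_le (p : Pos τ) (ts : List τ) (J : List ℕ) :
    p.W.length ≤ (p.adv ts J).W.length := (CompA_adv p ts J).length_le

/-- if the element is complete after the draw, it had no flagged pending draw -/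
theorem compD_done {p : Pos τ} (hp : PI p) (ts : List τ) (J : List ℕ) (hd : ¬ p.dn p.mv)
    (hu : (p.adv ts J).dn p.mv) (g j : ℕ) (t : τ) : (p.s p.mv g)[j]? ≠ some (some t) := by
  intro h
  have hsp := levL_spec (p.s p.mv) hd
  change p.s p.mv p.lv ≠ [] ∧ ∀ g < p.lv, p.s p.mv g = [] at hsp
  rcases compD_cases p ts J hd g j t h with ⟨rfl, rfl, hf⟩ | ⟨rfl, i, rfl, hi⟩ | ⟨_, hi⟩
  · have h0 : p.lv = 0 := by
      by_contra hne
      have h1 := hu (p.lv - 1)
      rw [adv_s_mv] at h1
      unfold newS at h1
      have h2 : ¬ p.lv - 1 = levL (p.s p.mv) := by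
        change ¬ p.lv - 1 = p.lv
        omega
      have h3 : p.lv - 1 + 1 = levL (p.s p.mv) := by
        change p.lv - 1 + 1 = p.lv
        omega
      rw [if_neg h2, if_pos h3] at h1
      have h4 := congrArg List.length h1
      rw [mkF_length] at h4
      simp at h4
    have h1 := hu p.lv
    rw [adv_s_mv] at h1
    unfold newS at h1
    rw [if_pos (show p.lv = levL (p.s p.mv) from rfl)] at h1
    have hl := hp.lastn p.mv p.lv (by omega) hsp.1
    cases hs : p.s p.mv p.lv with
    | nil => exact hsp.1 hs
    | cons a l =>
      rw [hs] at h1 h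
      simp only [List.tail_cons] at h1
      subst h1
      simp only [hs, List.getLast_singleton] at hl
      simp only [List.getElem?_cons_zero, Option.some.injEq] at h
      rw [hl] at h
      exact absurd h (by simp)
  · rw [hu p.lv] at hi
    simp at hi
  · rw [hu g] at hi
    simp at hi

theorem compD_fin {Φ : List ℕ → ℕ → ℕ → τ} {p : Pos τ} {W : List ℕ} (u : Bool)
    (h : ∀ (g j : ℕ) (t : τ), (p.s u g)[j]? ≠ some (some t)) : FlagsOK Φ p W u := by
  refine ⟨fun _ _ => 0, ?_, ?_, ?_, ?_⟩
  · intro g j t h1
    exact absurd h1 (h g j t)
  · intro g j j' t t' h1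
    exact absurd h1 (h g j t)
  · intro g g' j j' t t' h1
    exact absurd h1 (h g j t)
  · intro _ g j t h1
    exact absurd h1 (h g j t)

theorem compD_low (p : Pos τ) (ts : List τ) (J : List ℕ) (hd : ¬ p.dn p.mv) (g : ℕ)
    (hg : g + 1 < p.lv) : (p.adv ts J).s p.mv g = [] := by
  have hsp := levL_spec (p.s p.mv) hd
  change p.s p.mv p.lv ≠ [] ∧ ∀ g < p.lv, p.s p.mv g = [] at hsp
  rw [adv_s_mv]
  unfold newS
  have h2 : ¬ g = levL (p.s p.mv) := by
    change ¬ g = p.lv
    omega
  have h3 : ¬ g + 1 = levL (p.s p.mv) := by
    change ¬ g + 1 = p.lv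
    omega
  rw [if_neg h2, if_neg h3]
  exact hsp.2 g (by omega)

theorem compD_child (p : Pos τ) (ts : List τ) (J : List ℕ) (hlv : p.lv ≠ 0) :
    (p.adv ts J).s p.mv (p.lv - 1) = mkF ts J := by
  rw [adv_s_mv]
  unfold newS
  have h2 : ¬ p.lv - 1 = levL (p.s p.mv) := by
    change ¬ p.lv - 1 = p.lv
    omega
  have h3 : p.lv - 1 + 1 = levL (p.s p.mv) := by
    change p.lv - 1 + 1 = p.lv
    omega
  rw [if_neg h2, if_pos h3]

/-- the first flagged child of a flagged node is drawn in the current block -/
theorem compD_first {T : Set τ} {p : Pos τ} (ts : List τ) (J : List ℕ)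
    (hd : ¬ p.dn p.mv) (ha : p.Ann T ts) (hl : J.length = ts.length + 1)
    (hJ : J.Pairwise (· < ·)) (hlv : p.lv ≠ 0) (hfl : p.fl ≠ none)
    (hW : (p.adv ts J).W = p.W) (d' : ℕ → ℕ → ℕ)
    (f4 : p.mv = (p.adv ts J).mv → ∀ g j t, ((p.adv ts J).s p.mv g)[j]? = some (some t) →
      (∀ g' < g, ∀ x ∈ (p.adv ts J).s p.mv g', x = none) →
      (∀ j' < j, ((p.adv ts J).s p.mv g)[j']? = some none) →
      d' g j = (p.adv ts J).W.length) :
    ∃ j0 t0, ((p.adv ts J).s p.mv (p.lv - 1))[j0]? = some (some t0) ∧
      d' (p.lv - 1) j0 = p.W.length := by
  have hts : ts ≠ [] := fun h => hfl ((ha.2.2 hlv).2 h)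
  obtain ⟨t0, ts', rfl⟩ := List.exists_cons_of_ne_nil hts
  have hJne : J ≠ [] := by
    rintro rfl
    simp at hl
  obtain ⟨j0, J', rfl⟩ := List.exists_cons_of_ne_nil hJne
  have hc := compD_child p (t0 :: ts') (j0 :: J') hlv
  have h1 : (mkF (t0 :: ts') (j0 :: J'))[j0]? = some (some t0) :=
    (mkF_get _ _ hl hJ j0 t0).2 ⟨0, by simp, by simp⟩
  refine ⟨j0, t0, by rw [hc]; exact h1, ?_⟩
  rw [← hW]
  refine f4 (compc_mv_same hW).symm (p.lv - 1) j0 t0 (by rw [hc]; exact h1) ?_ ?_
  · intro g' hg' x hx
    rw [compD_low p _ _ hd g' (by omega)] at hx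
    simp at hx
  · intro j' hj'
    rw [hc]
    have hlen : j0 < (mkF (t0 :: ts') (j0 :: J')).length := (List.getElem?_eq_some_iff.mp h1).1
    have hlen' : j' < (mkF (t0 :: ts') (j0 :: J')).length := by omega
    rw [List.getElem?_eq_getElem hlen']
    congr 1
    by_contra hcon
    obtain ⟨a, hx⟩ := Option.ne_none_iff_exists'.mp hcon
    have h2 : (mkF (t0 :: ts') (j0 :: J'))[j']? = some (some a) := by
      rw [List.getElem?_eq_getElem hlen', hx]
    obtain ⟨i, _, h3⟩ := (mkF_get _ _ hl hJ j' a).1 h2
    have h4 : j0 ≤ j' := by
      cases i with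
      | zero =>
        simp only [List.getElem?_cons_zero, Option.some.injEq] at h3
        omega
      | succ i =>
        simp only [List.getElem?_cons_succ] at h3
        have := (List.pairwise_cons.1 hJ).1 j' (List.mem_of_getElem? h3)
        omega
    omega

theorem comp_flags {T : Set τ} {Φ : List ℕ → ℕ → ℕ → τ} {p : Pos τ} {W : List ℕ} (hp : PI p)
    (hc : Comp T Φ p W) (u : Bool) : FlagsOK Φ p W u := by
  induction hc with
  | fin p h1 h2 _ =>
    apply compD_fin
    intro g j t
    have : p.s u g = [] := by
      by_cases hu : u = p.mv
      · rw [hu]; exact h1 g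
      · have : u = !p.mv := by
          cases u <;> cases hm : p.mv <;> simp_all
        rw [this]; exact h2 g
    rw [this]
    simp
  | step p ts J W hd ha hl hJ hc ih =>
    have hp' := pi_step hp ts J hd ha hl hJ
    have hle := compD_le p ts J
    obtain ⟨d', f1, f2, f3, f4⟩ := ih hp'
    by_cases hu : u = p.mv
    · subst hu
      by_cases hdn : (p.adv ts J).dn p.mv
      · apply compD_fin
        exact compD_done hp ts J hd hdn
      · have hsp := levL_spec (p.s p.mv) hd
        change p.s p.mv p.lv ≠ [] ∧ ∀ g < p.lv, p.s p.mv g = [] at hsp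
        cases hfl : p.fl with
        | none =>
          -- unflagged draw
          have hW : (p.adv ts J).W = p.W := by
            rcases adv_W p ts J with ⟨h, _⟩ | ⟨_, _, h, _⟩ | ⟨_, _, h, _⟩
            · exact absurd h hdn
            · exact absurd hfl h
            · exact h
          have hts : ts = [] := by
            by_cases h0 : p.lv = 0
            · exact ha.2.1 h0
            · exact (ha.2.2 h0).1 hfl
          refine ⟨fun g j => if g = p.lv then d' g (j - 1) else d' g j, ?_, ?_, ?_, ?_⟩
          · intro g j t h
            rcases compD_cases p ts J hd g j t h with ⟨rfl, rfl, hf⟩ | ⟨rfl, i, rfl, hi⟩ | ⟨hg, hi⟩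
            · rw [hfl] at hf; simp at hf
            · obtain ⟨a, b, c, e⟩ := f1 _ _ _ hi
              simp only [if_true, Nat.add_sub_cancel]
              exact ⟨a, b, le_trans hle c, e⟩
            · obtain ⟨a, b, c, e⟩ := f1 _ _ _ hi
              simp only [if_neg (show ¬ g = p.lv by omega)]
              exact ⟨a, b, le_trans hle c, e⟩
          · intro g j j' t t' h h' hjj
            rcases compD_cases p ts J hd g j t h with ⟨rfl, rfl, hf⟩ | ⟨rfl, i, rfl, hi⟩ | ⟨hg, hi⟩
            · rw [hfl] at hf; simp at hf
            · rcases compD_cases p ts J hd p.lv j' t' h' with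
                ⟨_, rfl, hf⟩ | ⟨_, i', rfl, hi'⟩ | ⟨hg', hi'⟩
              · rw [hfl] at hf; simp at hf
              · simp only [if_true, Nat.add_sub_cancel]
                exact f2 _ _ _ _ _ hi hi' (by omega)
              · omega
            · rcases compD_cases p ts J hd g j' t' h' with
                ⟨rfl, rfl, hf⟩ | ⟨rfl, i', rfl, hi'⟩ | ⟨hg', hi'⟩
              · omega
              · omega
              · simp only [if_neg (show ¬ g = p.lv by omega)]
                exact f2 _ _ _ _ _ hi hi' hjj
          · intro g g' j j' t t' h h' hgg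
            rcases compD_cases p ts J hd g j t h with ⟨rfl, rfl, hf⟩ | ⟨rfl, i, rfl, hi⟩ | ⟨hg, hi⟩
            · rw [hfl] at hf; simp at hf
            · rcases compD_cases p ts J hd g' j' t' h' with
                ⟨rfl, rfl, hf⟩ | ⟨rfl, i', rfl, hi'⟩ | ⟨hg', hi'⟩
              · omega
              · omega
              · simp only [if_true, Nat.add_sub_cancel, if_neg (show ¬ g' = p.lv by omega)]
                exact f3 _ _ _ _ _ _ hi hi' hgg
            · rcases compD_cases p ts J hd g' j' t' h' with
                ⟨rfl, rfl, hf⟩ | ⟨rfl, i', rfl, hi'⟩ | ⟨hg', hi'⟩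
              · omega
              · omega
              · simp only [if_neg (show ¬ g = p.lv by omega), if_neg (show ¬ g' = p.lv by omega)]
                exact f3 _ _ _ _ _ _ hi hi' hgg
          · intro _ g j t h hlow hear
            have hnone : ∀ g' < g, ∀ x ∈ (p.adv ts J).s p.mv g', x = none := by
              intro g' hg' x hx
              rw [adv_s_mv] at hx
              unfold newS at hx
              split_ifs at hx with h1 h2
              · exact hlow g' hg' x (List.mem_of_mem_tail hx)
              · rw [hts] at hx
                exact mkF_nil J x hx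
              · exact hlow g' hg' x hx
            rcases compD_cases p ts J hd g j t h with ⟨rfl, rfl, hf⟩ | ⟨rfl, i, rfl, hi⟩ | ⟨hg, hi⟩
            · rw [hfl] at hf; simp at hf
            · simp only [if_true, Nat.add_sub_cancel]
              rw [← hW]
              refine f4 (compc_mv_same hW).symm _ _ _ hi hnone ?_
              intro j' hj'
              have h5 := hear (j' + 1) (by omega)
              rw [adv_s_mv]
              unfold newS
              rw [if_pos (show p.lv = levL (p.s p.mv) from rfl)]
              cases hs : p.s p.mv p.lv with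
              | nil => exact absurd hs hsp.1
              | cons a l =>
                rw [hs] at h5
                simpa using h5
            · simp only [if_neg (show ¬ g = p.lv by omega)]
              rw [← hW]
              refine f4 (compc_mv_same hW).symm _ _ _ hi hnone ?_
              intro j' hj'
              have h5 := hear j' hj'
              rw [adv_s_mv]
              unfold newS
              have h2 : ¬ g = levL (p.s p.mv) := by
                change ¬ g = p.lv
                omega
              have h3 : ¬ g + 1 = levL (p.s p.mv) := by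
                change ¬ g + 1 = p.lv
                omega
              rw [if_neg h2, if_neg h3]
              exact h5
        | some t0 =>
          have hfact : t0 = Φ W p.W.length p.lv := by
            have := comp_facts hc (p.W.length, p.lv, t0) (by
              rw [adv_facts, hfl]
              exact List.mem_cons_self)
            exact this
          -- all other flagged pending draws come later
          have hlater : ∀ g j t, ((p.adv ts J).s p.mv g)[j]? = some (some t) → p.lv ≤ g →
              p.W.length < d' g j := by
            intro g j t h hg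
            by_cases h0 : p.lv = 0
            · have hW : (p.adv ts J).W = p.W ++ [p.h] := by
                rcases adv_W p ts J with ⟨h, _⟩ | ⟨_, _, _, h, _⟩ | ⟨_, h, _, _⟩
                · exact absurd h hdn
                · exact h
                · exact absurd ⟨h0, by rw [hfl]; simp⟩ h
              have h6 := (f1 g j t h).2.2.1
              rw [hW, List.length_append, List.length_singleton] at h6
              omega
            · have hW : (p.adv ts J).W = p.W := by
                rcases adv_W p ts J with ⟨h, _⟩ | ⟨_, h, _⟩ | ⟨_, _, h, _⟩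
                · exact absurd h hdn
                · exact absurd h h0
                · exact h
              obtain ⟨j0, t1, h7, h8⟩ := compD_first ts J hd ha hl hJ h0 (by rw [hfl]; simp) hW
                d' f4
              rw [← h8]
              exact f3 _ _ _ _ _ _ h7 h (by omega)
          have hLet : Let W p.W.length p.lv := by
            by_cases h0 : p.lv = 0
            · have hW : (p.adv ts J).W = p.W ++ [p.h] := by
                rcases adv_W p ts J with ⟨h, _⟩ | ⟨_, _, _, h, _⟩ | ⟨_, h, _, _⟩
                · exact absurd h hdn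
                · exact h
                · exact absurd ⟨h0, by rw [hfl]; simp⟩ h
              have hpre := comp_prefix hc
              rw [hW] at hpre
              obtain ⟨a, b⟩ := compc_getD_of_pre hpre
              refine ⟨a, ?_, ?_⟩
              · omega
              · rw [b]; exact hp.h3
            · have hW : (p.adv ts J).W = p.W ∧ (p.adv ts J).h = max p.h p.lv := by
                rcases adv_W p ts J with ⟨h, _⟩ | ⟨_, h, _⟩ | ⟨_, _, h, h'⟩
                · exact absurd h hdn
                · exact absurd h h0
                · exact ⟨h, h'⟩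
              obtain ⟨hW, hh⟩ := hW
              obtain ⟨j0, t1, h7, h8⟩ := compD_first ts J hd ha hl hJ h0 (by rw [hfl]; simp) hW
                d' f4
              obtain ⟨_, _, _, h9⟩ := f1 _ _ _ h7
              rw [h8] at h9
              have h10 := (comp_len hp' hc).1
              rw [compc_mv_same hW, hW, hh] at h10
              obtain ⟨h11, h12⟩ := h10 hdn
              exact ⟨h11, le_trans (le_max_right _ _) h12, h9.2.2⟩
          refine ⟨fun g j => if g = p.lv then (if j = 0 then p.W.length else d' g (j - 1))
            else d' g j, ?_, ?_, ?_, ?_⟩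
          · intro g j t h
            rcases compD_cases p ts J hd g j t h with ⟨rfl, rfl, hf⟩ | ⟨rfl, i, rfl, hi⟩ | ⟨hg, hi⟩
            · rw [hfl] at hf
              simp only [Option.some.injEq] at hf
              subst hf
              simp only [if_true]
              exact ⟨hfact, rfl, le_refl _, hLet⟩
            · obtain ⟨a, b, c, e⟩ := f1 _ _ _ hi
              simp only [if_true, Nat.add_sub_cancel, if_neg (Nat.succ_ne_zero i)]
              exact ⟨a, b, le_trans hle c, e⟩
            · obtain ⟨a, b, c, e⟩ := f1 _ _ _ hi
              simp only [if_neg (show ¬ g = p.lv by omega)]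
              exact ⟨a, b, le_trans hle c, e⟩
          · intro g j j' t t' h h' hjj
            rcases compD_cases p ts J hd g j t h with ⟨rfl, rfl, hf⟩ | ⟨rfl, i, rfl, hi⟩ | ⟨hg, hi⟩
            · rcases compD_cases p ts J hd p.lv j' t' h' with
                ⟨_, rfl, hf⟩ | ⟨_, i', rfl, hi'⟩ | ⟨hg', hi'⟩
              · omega
              · simp only [if_true, Nat.add_sub_cancel, if_neg (Nat.succ_ne_zero i')]
                exact hlater _ _ _ hi' (le_refl _)
              · omega
            · rcases compD_cases p ts J hd p.lv j' t' h' with
                ⟨_, rfl, hf⟩ | ⟨_, i', rfl, hi'⟩ | ⟨hg', hi'⟩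
              · omega
              · simp only [if_true, Nat.add_sub_cancel, if_neg (Nat.succ_ne_zero i'),
                  if_neg (Nat.succ_ne_zero i)]
                exact f2 _ _ _ _ _ hi hi' (by omega)
              · omega
            · rcases compD_cases p ts J hd g j' t' h' with
                ⟨rfl, rfl, hf⟩ | ⟨rfl, i', rfl, hi'⟩ | ⟨hg', hi'⟩
              · omega
              · omega
              · simp only [if_neg (show ¬ g = p.lv by omega)]
                exact f2 _ _ _ _ _ hi hi' hjj
          · intro g g' j j' t t' h h' hgg
            rcases compD_cases p ts J hd g' j' t' h' with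
              ⟨hg0, rfl, hf'⟩ | ⟨hg0, i', rfl, hi'⟩ | ⟨hg', hi'⟩
            · subst hg0
              rw [hsp.2 g hgg] at h
              simp at h
            · subst hg0
              rw [hsp.2 g hgg] at h
              simp at h
            · rcases compD_cases p ts J hd g j t h with
                ⟨rfl, rfl, hf⟩ | ⟨rfl, i, rfl, hi⟩ | ⟨hg, hi⟩
              · simp only [if_true, if_neg (show ¬ g' = p.lv by omega)]
                exact hlater _ _ _ hi' (by omega)
              · simp only [if_true, Nat.add_sub_cancel, if_neg (Nat.succ_ne_zero i),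
                  if_neg (show ¬ g' = p.lv by omega)]
                exact f3 _ _ _ _ _ _ hi hi' hgg
              · simp only [if_neg (show ¬ g = p.lv by omega), if_neg (show ¬ g' = p.lv by omega)]
                exact f3 _ _ _ _ _ _ hi hi' hgg
          · intro _ g j t h hlow hear
            have h0 : (p.s p.mv p.lv)[0]? = some (some t0) := by
              cases hs : p.s p.mv p.lv with
              | nil => exact absurd hs hsp.1
              | cons a l =>
                unfold fl at hfl
                rw [hs] at hfl
                simpa using hfl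
            rcases compD_cases p ts J hd g j t h with ⟨rfl, rfl, hf⟩ | ⟨rfl, i, rfl, hi⟩ | ⟨hg, hi⟩
            · simp only [if_true]
            · have := hear 0 (by omega)
              rw [h0] at this
              simp at this
            · have := hlow p.lv hg (some t0) (List.mem_of_getElem? h0)
              simp at this
    · have hu' : u = !p.mv := by
        cases u <;> cases hm : p.mv <;> simp_all
      subst hu'
      rw [FlagsOK]
      rw [adv_s_other] at f1 f2 f3
      refine ⟨d', ?_, f2, f3, ?_⟩
      · intro g j t h
        obtain ⟨a, b, c, e⟩ := f1 g j t h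
        exact ⟨a, b, le_trans hle c, e⟩
      · intro h
        exact absurd h (by simp)

end Pos

end Pool.Agent.H.MP_2e666d_lc
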