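import Mathlib

/-! # Words, tapes, timings

Tapes (pairs of players): `0 = {0,1}`, `1 = {0,2}`, `2 = {1,2}`; `pl t false` starts on the tape
`t`.  The blocks of a word are numbered from `0`; even blocks belong to `pl t false`. -/

namespace Pool.Agent.H.MP_2e666d_lc

/-- the words of complete plays -/
def ValidW (W : List ℕ) : Prop :=
  W = [4, 4] ∨ W = [3, 4, 4] ∨ ∃ P : List ℕ, (∀ a ∈ P, a ≤ 2) ∧ W = 3 :: 3 :: (P ++ [4, 4])

/-- the two players of a tape -/
def pl : Fin 3 → Bool → Fin 3
  | 0, false => 0
  | 0, true => 1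
  | 1, false => 0
  | 1, true => 2
  | 2, false => 1
  | 2, true => 2

/-- the player `e` plays on the tape `t` -/
def On (e t : Fin 3) : Prop := pl t false = e ∨ pl t true = e

instance (e t : Fin 3) : Decidable (On e t) := inferInstanceAs (Decidable (_ ∨ _))

/-- the role of the player `e` on the tape `t` -/
def rl (e t : Fin 3) : Bool := decide (pl t true = e)

/-- the owner of the block `k` of the tape `t` -/
def owner (t : Fin 3) (k : ℕ) : Fin 3 := pl t (decide (k % 2 = 1))

/-- the block `k` has a letter in `[g, 3]` -/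
def Let (W : List ℕ) (k g : ℕ) : Prop := k < W.length ∧ g ≤ W.getD k 0 ∧ W.getD k 0 ≤ 3

/-- A timing of three words: `L t k` is the end of the block `k` of the tape `t`, and `E t k g` is
the time at which the element crosses the level `g` on its way to the end of this block.
`lab` are labels which determine the comparisons of the times `E` on different tapes. -/
structure Tim (W : Fin 3 → List ℕ) (lab : Fin 3 → List ℕ → ℕ → ℕ → ℕ) where
  L : Fin 3 → ℕ → ℕ
  E : Fin 3 → ℕ → ℕ → ℕ
  Lmono : ∀ t k k', k < k' → k' < (W t).length → L t k < L t k'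
  turn : ∀ t t' k, k < (W t).length → t ≠ t' → On (owner t k) t' →
    ∃ l, l < (W t').length ∧ owner t' l = owner t k ∧ L t k ≤ L t' l ∧
      ∀ l' < l, L t' l' < L t k
  E0 : ∀ t k, Let (W t) k 0 → E t k 0 = L t k
  Emono : ∀ t k k' g, k < k' → owner t k = owner t k' → g ≤ 2 → Let (W t) k g →
    Let (W t) k' g → E t k g < E t k' g
  labE : ∀ t t' k l g, t ≠ t' → owner t k = owner t' l → g ≤ 2 → Let (W t) k g →
    Let (W t') l g → (E t k g < E t' l g ↔ lab t (W t) k g < lab t' (W t') l g)
  brk : ∀ t t' k j l g, t ≠ t' → k ≤ j → owner t k = owner t j → owner t j = owner t' l →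
    g ≤ 2 → Let (W t) k g → Let (W t') l g → j < (W t).length →
    (∀ k', k < k' → k' ≤ j → owner t k' = owner t j → (W t).getD k' 0 < g) →
    E t k g < E t' l g → L t j < L t' l
  fin_eq : ∀ t t' k l, t ≠ t' → owner t k = owner t' l → k < (W t).length →
    (W t).length ≤ k + 2 → l < (W t').length → (W t').length ≤ l + 2 → L t k = L t' l
  fin_lt : ∀ t t' k l, t ≠ t' → owner t k = owner t' l → k + 2 < (W t).length →
    l < (W t').length → (W t').length ≤ l + 2 → L t k < L t' l

/-- words with the same class have a common timing -/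
def HLab (cl : List ℕ → ℕ) (lab : Fin 3 → List ℕ → ℕ → ℕ → ℕ) : Prop :=
  ∀ W : Fin 3 → List ℕ, (∀ t, ValidW (W t)) → (∀ t t', cl (W t) = cl (W t')) →
    Nonempty (Tim W lab)

/-- tags: the class of the word and the label for each tape -/
abbrev Tag : Type := ℕ × (Fin 3 → ℕ)

/-- the truthful tag -/
def Phi (cl : List ℕ → ℕ) (lab : Fin 3 → List ℕ → ℕ → ℕ → ℕ) (W : List ℕ) (k g : ℕ) : Tag :=
  (cl W, fun t => lab t W k g)

end Pool.Agent.H.MP_2e666d_lc
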