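import Pool.Agent.H.MP_2e666d_lc.Game
import Pool.Agent.H.MP_2e666d_lc.Words

/-! # Completions and reachable positions -/

namespace Pool.Agent.H.MP_2e666d_lc

namespace Pos

variable {τ : Type}

/-- `Comp T Φ p W`: some play from `p` (with increasing choices) ends in a complete position with
the word `W` in which all tags are truthful -/
inductive Comp (T : Set τ) (Φ : List ℕ → ℕ → ℕ → τ) : Pos τ → List ℕ → Prop
  | fin (p : Pos τ) : p.dn p.mv → p.dn (!p.mv) → (∀ f ∈ p.facts, f.2.2 = Φ p.W f.1 f.2.1) →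
      Comp T Φ p p.W
  | step (p : Pos τ) (ts : List τ) (J W : List ℕ) : ¬ p.dn p.mv → p.Ann T ts →
      J.length = ts.length + 1 → J.Pairwise (· < ·) → Comp T Φ (p.adv ts J) W → Comp T Φ p W

/-- reachable positions -/
inductive Reach (T : Set τ) (φ1 φ2 : Option τ) : Pos τ → Prop
  | start : Reach T φ1 φ2 (start φ1 φ2)
  | step (p : Pos τ) (ts : List τ) (J : List ℕ) : Reach T φ1 φ2 p → ¬ p.dn p.mv →
      p.Ann T ts → J.length = ts.length + 1 → J.Pairwise (· < ·) → Reach T φ1 φ2 (p.adv ts J)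

/-- invariants of the reachable positions -/
structure PI (p : Pos τ) : Prop where
  sup : ∀ u g, 3 < g → p.s u g = []
  top : ∀ u, (p.s u 3).length ≤ 1
  top2 : ∀ u, p.s u 3 ≠ [] → ∀ g, g < 3 → p.s u g = []
  h3 : p.h ≤ 3
  lastn : ∀ u g, g < 3 → ∀ h : p.s u g ≠ [], (p.s u g).getLast h = none
  fp : ∀ u g t, g < 3 → some t ∈ p.s u g → p.path u (g + 1) ≠ none
  pp : ∀ u g, g < 3 → p.path u g ≠ none → p.path u (g + 1) ≠ none
  pf : ∀ u g k t, ¬ p.dn u → p.path u g = some (k, t) →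
    (k, g, t) ∈ p.facts ∧ decide (k % 2 = 1) = u ∧
      ((k < p.W.length ∧ g ≤ p.W.getD k 0 ∧ p.W.getD k 0 ≤ 3) ∨
        (k = p.W.length ∧ u = p.mv ∧ g ≤ p.h)) ∧
      (k < p.W.length → u = p.mv → p.h < g ∨ p.h = 0) ∧
      ∀ k', k < k' → k' < p.W.length → decide (k' % 2 = 1) = u → p.W.getD k' 0 < g

/-- the flagged pending draws of the element `u` and the blocks in which they will be drawn -/
def FlagsOK (Φ : List ℕ → ℕ → ℕ → τ) (p : Pos τ) (W : List ℕ) (u : Bool) : Prop :=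
  ∃ d : ℕ → ℕ → ℕ,
    (∀ g j t, (p.s u g)[j]? = some (some t) →
      t = Φ W (d g j) g ∧ decide (d g j % 2 = 1) = u ∧ p.W.length ≤ d g j ∧ Let W (d g j) g) ∧
    (∀ g j j' t t', (p.s u g)[j]? = some (some t) → (p.s u g)[j']? = some (some t') → j < j' →
      d g j < d g j') ∧
    (∀ g g' j j' t t', (p.s u g)[j]? = some (some t) → (p.s u g')[j']? = some (some t') →
      g < g' → d g j < d g' j') ∧
    (u = p.mv → ∀ g j t, (p.s u g)[j]? = some (some t) →
      (∀ g' < g, ∀ x ∈ p.s u g', x = none) → (∀ j' < j, (p.s u g)[j']? = some none) →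
      d g j = p.W.length)

end Pos

end Pool.Agent.H.MP_2e666d_lc
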