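import Pool.Agent.H.MP_2e666d_lc.CompC

/-! # The words of completions -/

namespace Pool.Agent.H.MP_2e666d_lc

namespace Pos

variable {τ : Type}

/-- the last element finishes in the current block: the word -/
theorem compe_one {T : Set τ} {Φ : List ℕ → ℕ → ℕ → τ} {p : Pos τ} {W : List ℕ} (hp : PI p)
    (hc : Comp T Φ p W) (hd : ¬ p.dn p.mv) (hv : p.dn (!p.mv)) :
    W = p.W ++ [4] := by
  induction hc with
  | fin p h1 h2 _ => exact absurd h1 hd
  | step p ts J W hd' ha hl hJ hc ih =>
    have hp' := pi_step hp ts J hd' ha hl hJ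
    have hv' : (p.adv ts J).dn (!p.mv) := (compc_dn_other p ts J).2 hv
    rcases adv_W p ts J with ⟨hu, hW, _⟩ | ⟨hu, _, _, hW, _⟩ | ⟨hn, _, hW, hh⟩
    · have hm := compc_mv_succ hW
      have h3 := (comp_len hp' hc).2.2
      rw [hm, Bool.not_not] at h3
      rw [h3 hv' hu, hW]
    · exfalso
      have hm := compc_mv_succ hW
      have h3 := compc_both hc (by rw [hm]; exact hv')
      rw [hm, Bool.not_not] at h3
      exact hu h3
    · have hm := compc_mv_same hW
      rw [← hW]
      exact ih hp' (by rw [hm]; exact hn) (by rw [hm]; exact hv')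

/-- without flags the mover finishes in the current block: the word -/
theorem compe_last {T : Set τ} {Φ : List ℕ → ℕ → ℕ → τ} {p : Pos τ} {W : List ℕ} (hp : PI p)
    (hc : Comp T Φ p W) (hd : ¬ p.dn p.mv) (hv : ¬ p.dn (!p.mv))
    (hf : ∀ g, ∀ x ∈ p.s p.mv g, x = none) :
    W = p.W ++ [4, 4] := by
  induction hc with
  | fin p h1 h2 _ => exact absurd h1 hd
  | step p ts J W hd' ha hl hJ hc ih =>
    have hp' := pi_step hp ts J hd' ha hl hJ
    have hfl := compc_fl hf
    have hv' : ¬ (p.adv ts J).dn (!p.mv) := fun h => hv ((compc_dn_other p ts J).1 h)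
    rcases adv_W p ts J with ⟨hu, hW, _⟩ | ⟨hu, _, hne, hW, _⟩ | ⟨hn, _, hW, hh⟩
    · have hm := compc_mv_succ hW
      have h5 := compe_one hp' hc (by rw [hm]; exact hv') (by rw [hm, Bool.not_not]; exact hu)
      rw [h5, hW, List.append_assoc]
      rfl
    · exact absurd hfl hne
    · have hm := compc_mv_same hW
      rw [← hW]
      refine ih hp' (by rw [hm]; exact hn) (by rw [hm]; exact hv') ?_
      rw [hm]
      intro g x hx
      rw [adv_s_mv] at hx
      have hts : ts = [] := by
        by_cases h0 : p.lv = 0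
        · exact ha.2.1 h0
        · exact (ha.2.2 h0).1 hfl
      unfold newS at hx
      split_ifs at hx with h1 h2
      · exact hf g x (List.mem_of_mem_tail hx)
      · rw [hts] at hx
        exact mkF_nil J x hx
      · exact hf g x hx

theorem compe_lv_le {p : Pos τ} (hp : PI p) (hd : ¬ p.dn p.mv) : p.lv ≤ 3 := by
  have h1 := (levL_spec (p.s p.mv) hd).1
  by_contra h2
  exact h1 (hp.sup p.mv _ (by unfold lv at h2; omega))

theorem compe_lv_le2 {p : Pos τ} (hp : PI p) (hd : ¬ p.dn p.mv) (h3 : p.s p.mv 3 = []) :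
    p.lv ≤ 2 := by
  have h1 := (levL_spec (p.s p.mv) hd).1
  have h2 := compe_lv_le hp hd
  have h4 : p.lv ≠ 3 := by
    intro h
    apply h1
    unfold lv at h
    rw [h]
    exact h3
  omega

theorem compe_lv3 {p : Pos τ} (hp : PI p) (h3 : p.s p.mv 3 ≠ []) : p.lv = 3 :=
  levL_eq (p.s p.mv) 3 h3 (hp.top2 p.mv h3)

theorem compe_new3 {p : Pos τ} (hp : PI p) (hd : ¬ p.dn p.mv) (ts : List τ) (J : List ℕ) :
    (p.adv ts J).s p.mv 3 = [] := by
  rw [adv_s_mv]
  unfold newS
  split_ifs with h1 h2
  · have h4 := hp.top p.mv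
    apply List.eq_nil_of_length_eq_zero
    rw [List.length_tail]
    omega
  · exfalso
    have := compe_lv_le hp hd
    unfold lv at this
    omega
  · by_contra h4
    exact h1 (compe_lv3 hp h4).symm

theorem compe_root_dn {p : Pos τ} (hp : PI p) (h3 : p.s p.mv 3 ≠ []) (ts : List τ) (J : List ℕ) :
    ¬ (p.adv ts J).dn p.mv := by
  intro h
  have h1 := h 2
  rw [adv_s_mv] at h1
  have h2 := compe_lv3 hp h3
  unfold lv at h2
  unfold newS at h1
  rw [h2, if_neg (by omega), if_pos rfl] at h1
  have h4 := mkF_length ts J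
  rw [h1] at h4
  simp at h4

/-- both elements have drawn their roots -/
theorem compe_s1 {T : Set τ} {Φ : List ℕ → ℕ → ℕ → τ} {p : Pos τ} {W : List ℕ} (hp : PI p)
    (hc : Comp T Φ p W) (hd : ¬ p.dn p.mv) (hv : ¬ p.dn (!p.mv))
    (h3 : p.s p.mv 3 = []) (h3' : p.s (!p.mv) 3 = []) :
    W = p.W ++ [4, 4] ∨ ∃ (a : ℕ) (P : List ℕ), a ≤ max p.h 2 ∧ (∀ x ∈ P, x ≤ 2) ∧
      W = p.W ++ (a :: (P ++ [4, 4])) := by
  induction hc with
  | fin p h1 h2 _ => exact absurd h1 hd
  | step p ts J W hd' ha hl hJ hc ih =>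
    have hp' := pi_step hp ts J hd' ha hl hJ
    have hv' : ¬ (p.adv ts J).dn (!p.mv) := fun h => hv ((compc_dn_other p ts J).1 h)
    have hn3 := compe_new3 hp hd' ts J
    have ho3 : (p.adv ts J).s (!p.mv) 3 = [] := by rw [adv_s_other]; exact h3'
    rcases adv_W p ts J with ⟨hu, hW, _⟩ | ⟨hu, _, hne, hW, hh⟩ | ⟨hn, _, hW, hh⟩
    · left
      have hm := compc_mv_succ hW
      have h5 := compe_one hp' hc (by rw [hm]; exact hv') (by rw [hm, Bool.not_not]; exact hu)
      rw [h5, hW, List.append_assoc]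
      rfl
    · right
      have hm := compc_mv_succ hW
      rcases ih hp' (by rw [hm]; exact hv') (by rw [hm, Bool.not_not]; exact hu)
        (by rw [hm]; exact ho3) (by rw [hm, Bool.not_not]; exact hn3) with h5 | ⟨a, P, h5, h6, h7⟩
      · refine ⟨p.h, [], le_max_left _ _, by simp, ?_⟩
        rw [h5, hW, List.append_assoc]
        rfl
      · refine ⟨p.h, a :: P, le_max_left _ _, ?_, ?_⟩
        · intro x hx
          rcases List.mem_cons.1 hx with h8 | h8
          · rw [hh] at h5
            rw [h8]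
            simpa using h5
          · exact h6 x h8
        · rw [h7, hW, List.append_assoc]
          rfl
    · have hm := compc_mv_same hW
      have hlv := compe_lv_le2 hp hd' h3
      rcases ih hp' (by rw [hm]; exact hn) (by rw [hm]; exact hv')
        (by rw [hm]; exact hn3) (by rw [hm]; exact ho3) with h5 | ⟨a, P, h5, h6, h7⟩
      · left
        rw [h5, hW]
      · right
        refine ⟨a, P, ?_, h6, by rw [h7, hW]⟩
        rw [hh] at h5
        omega

/-- the mover has not drawn its root, the other element has -/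
theorem compe_s2 {T : Set τ} {Φ : List ℕ → ℕ → ℕ → τ} {p : Pos τ} {W : List ℕ} (hp : PI p)
    (hc : Comp T Φ p W) (hv : ¬ p.dn (!p.mv))
    (h3 : p.s p.mv 3 ≠ []) (h3' : p.s (!p.mv) 3 = []) :
    W = p.W ++ [4, 4] ∨ ∃ P : List ℕ, (∀ x ∈ P, x ≤ 2) ∧ W = p.W ++ (3 :: (P ++ [4, 4])) := by
  cases hc with
  | fin _ h1 h2 _ => exact absurd (h1 3) h3
  | step _ ts J _ hd' ha hl hJ hc =>
    have hp' := pi_step hp ts J hd' ha hl hJ
    have hv' : ¬ (p.adv ts J).dn (!p.mv) := fun h => hv ((compc_dn_other p ts J).1 h)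
    have hn3 := compe_new3 hp hd' ts J
    have ho3 : (p.adv ts J).s (!p.mv) 3 = [] := by rw [adv_s_other]; exact h3'
    have hnd := compe_root_dn hp h3 ts J
    have hlv := compe_lv3 hp h3
    have hh3 := hp.h3
    rcases adv_W p ts J with ⟨hu, _, _⟩ | ⟨_, h0, _, _, _⟩ | ⟨hn, _, hW, hh⟩
    · exact absurd hu hnd
    · omega
    · have hm := compc_mv_same hW
      have hh' : (p.adv ts J).h = 3 := by
        rw [hh, hlv]
        omega
      have h8 := (comp_len hp' hc).1 (by rw [hm]; exact hn)
      rcases compe_s1 hp' hc (by rw [hm]; exact hn) (by rw [hm]; exact hv')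
        (by rw [hm]; exact hn3) (by rw [hm]; exact ho3) with h5 | ⟨a, P, h5, h6, h7⟩
      · left
        rw [h5, hW]
      · right
        refine ⟨P, h6, ?_⟩
        have h9 : a = 3 := by
          have h10 := h8.2
          rw [h7, List.getD_eq_getElem?_getD, List.getElem?_append_right (le_refl _)] at h10
          simp only [Nat.sub_self, List.getElem?_cons_zero, Option.getD_some] at h10
          rw [hh'] at h5 h10
          omega
        rw [h7, hW, h9]

/-- the mover is in its first block and has drawn its root, the other element has not -/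
theorem compe_s3 {T : Set τ} {Φ : List ℕ → ℕ → ℕ → τ} {p : Pos τ} {W : List ℕ} (hp : PI p)
    (hc : Comp T Φ p W) (hd : ¬ p.dn p.mv) (h3 : p.s p.mv 3 = []) (h3' : p.s (!p.mv) 3 ≠ [])
    (hh3 : p.h = 3) :
    W = p.W ++ [4, 4] ∨ W = p.W ++ [3, 4, 4] ∨
      ∃ P : List ℕ, (∀ x ∈ P, x ≤ 2) ∧ W = p.W ++ (3 :: 3 :: (P ++ [4, 4])) := by
  induction hc with
  | fin p h1 h2 _ => exact absurd h1 hd
  | step p ts J W hd' ha hl hJ hc ih =>
    have hp' := pi_step hp ts J hd' ha hl hJ
    have hn3 := compe_new3 hp hd' ts J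
    have ho3 : (p.adv ts J).s (!p.mv) 3 ≠ [] := by rw [adv_s_other]; exact h3'
    have hv' : ¬ (p.adv ts J).dn (!p.mv) := fun h => ho3 (h 3)
    have hlv := compe_lv_le hp hd'
    rcases adv_W p ts J with ⟨hu, hW, _⟩ | ⟨hu, _, hne, hW, hh⟩ | ⟨hn, _, hW, hh⟩
    · left
      have hm := compc_mv_succ hW
      have h5 := compe_one hp' hc (by rw [hm]; exact hv') (by rw [hm, Bool.not_not]; exact hu)
      rw [h5, hW, List.append_assoc]
      rfl
    · right
      have hm := compc_mv_succ hW
      rcases compe_s2 hp' hc (by rw [hm, Bool.not_not]; exact hu)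
        (by rw [hm]; exact ho3) (by rw [hm, Bool.not_not]; exact hn3) with h5 | ⟨P, h6, h7⟩
      · left
        rw [h5, hW, List.append_assoc, hh3]
        rfl
      · right
        refine ⟨P, h6, ?_⟩
        rw [h7, hW, List.append_assoc, hh3]
        rfl
    · have hm := compc_mv_same hW
      rw [← hW]
      refine ih hp' (by rw [hm]; exact hn) (by rw [hm]; exact hn3) (by rw [hm]; exact ho3) ?_
      rw [hh]
      omega

/-- words of completions are valid -/
theorem comp_valid {T : Set τ} {Φ : List ℕ → ℕ → ℕ → τ} {φ1 φ2 : Option τ} {W : List ℕ}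
    (hc : Comp T Φ (start φ1 φ2) W) : ValidW W := by
  have hp : PI (start φ1 φ2) := pi_start φ1 φ2
  have hmv : (start φ1 φ2).mv = false := rfl
  have h3 : (start φ1 φ2).s (start φ1 φ2).mv 3 ≠ [] := by
    rw [hmv]
    simp [start]
  have h3' : (start φ1 φ2).s (!(start φ1 φ2).mv) 3 ≠ [] := by
    rw [hmv]
    simp [start]
  cases hc with
  | fin _ h1 h2 _ => exact absurd (h1 3) h3
  | step _ ts J _ hd' ha hl hJ hc =>
    have hp' := pi_step hp ts J hd' ha hl hJ
    have hn3 := compe_new3 hp hd' ts J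
    have ho3 : ((start φ1 φ2).adv ts J).s (!(start φ1 φ2).mv) 3 ≠ [] := by
      rw [adv_s_other]; exact h3'
    have hnd := compe_root_dn hp h3 ts J
    have hlv := compe_lv3 hp h3
    rcases adv_W (start φ1 φ2) ts J with ⟨hu, _, _⟩ | ⟨_, h0, _, _, _⟩ | ⟨hn, _, hW, hh⟩
    · exact absurd hu hnd
    · omega
    · have hm := compc_mv_same hW
      have hh' : ((start φ1 φ2).adv ts J).h = 3 := by
        rw [hh, hlv]
        rfl
      have hW' : ((start φ1 φ2).adv ts J).W = [] := hW
      have h5 := compe_s3 hp' hc (by rw [hm]; exact hn) (by rw [hm]; exact hn3)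
        (by rw [hm]; exact ho3) hh'
      rw [hW'] at h5
      simp only [List.nil_append] at h5
      exact h5

/-- the first announcement determines the class -/
theorem comp_root {T : Set τ} {Φ : List ℕ → ℕ → ℕ → τ} {φ1 φ2 : Option τ} {W : List ℕ}
    (hc : Comp T Φ (start φ1 φ2) W) :
    (∀ t, φ1 = some t → t = Φ W 0 3) ∧ (φ1 = none → W = [4, 4]) := by
  have hp : PI (start φ1 φ2) := pi_start φ1 φ2
  have hmv : (start φ1 φ2).mv = false := rfl
  have h3 : (start φ1 φ2).s (start φ1 φ2).mv 3 ≠ [] := by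
    rw [hmv]
    simp [start]
  have h3' : (start φ1 φ2).s (!(start φ1 φ2).mv) 3 ≠ [] := by
    rw [hmv]
    simp [start]
  have hlv := compe_lv3 hp h3
  constructor
  · intro t ht
    subst ht
    cases hc with
    | fin _ h1 h2 _ => exact absurd (h1 3) h3
    | step _ ts J _ hd' ha hl hJ hc =>
      have h4 := comp_facts hc
      have hfl : (start (some t) φ2).fl = some t := by
        unfold fl
        rw [hlv, hmv]
        simp [start]
      rw [adv_facts, hfl] at h4
      have h5 := h4 _ (List.mem_cons_self)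
      rw [hlv] at h5
      exact h5
  · intro h0
    subst h0
    have h6 := compe_last hp hc (fun h => h3 (h 3)) (fun h => h3' (h 3)) (by
      rw [hmv]
      intro g x hx
      have hx' : x ∈ (if g = 3 then [none] else []) := hx
      by_cases h1 : g = 3
      · rw [if_pos h1] at hx'
        simpa using hx'
      · rw [if_neg h1] at hx'
        simp at hx')
    exact h6

end Pos

end Pool.Agent.H.MP_2e666d_lc
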