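import Pool.Agent.H.MP_2e666d_lc.TreeDef3

/-! # Cover certificates

A finite certificate for the inclusion of the language of an abstract word (`root`) in the union
of the languages of finitely many abstract words (`pats`).  The patterns are written as one list
of atoms; a set of positions of this list is a natural number (bit mask).  The certificate is a
finite set of entries `(q, r, S)`: parity, rest of the root, set of positions; after every letter
which the rest of the root can read the successor set contains the set of another entry. -/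

namespace Pool.Agent.H.MP_2e666d_lc.T3

/-- the bound of a cell for the letter at a position of parity `q` -/
def cvBnd (q : Bool) (i j : ℕ) : ℕ := if q then j else i

/-- the possible first letters of a word with the rest of the abstract word -/
def cvTr (q : Bool) : List Cell → List (ℕ × List Cell)
  | [] => []
  | Cell.L v :: cs => [(v, cs)]
  | Cell.S o i j :: cs =>
      (List.range (cvBnd q i j + 1)).map (fun a => (a, Cell.S (!o) i j :: cs)) ++
        (if o then [] else cvTr q cs)

/-- the empty word is an instance -/
def cvNull : List Cell → Bool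
  | [] => true
  | Cell.L _ :: _ => false
  | Cell.S o _ _ :: cs => !o && cvNull cs

/-- atoms: letters, the two states of a cell, end of a pattern -/
inductive Atom where
  | L (v : ℕ)
  | X (o : Bool) (i j : ℕ)
  | Y (o : Bool) (i j : ℕ)
  | E

/-- the atoms of an abstract word -/
def cvEnc : List Cell → List Atom
  | [] => []
  | Cell.L v :: cs => Atom.L v :: cvEnc cs
  | Cell.S o i j :: cs => Atom.X o i j :: Atom.Y o i j :: cvEnc cs

/-- the atoms of a list of patterns -/
def cvFlat : List (List Cell) → List Atom
  | [] => []
  | p :: ps => cvEnc p ++ Atom.E :: cvFlat ps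

/-- the language of a list of atoms -/
inductive LA : List Atom → Bool → List ℕ → Prop where
  | fin (q : Bool) (l : List Atom) : LA (Atom.E :: l) q []
  | letter (q : Bool) (v : ℕ) (l : List Atom) (W : List ℕ) :
      LA l (!q) W → LA (Atom.L v :: l) q (v :: W)
  | xstep (q o : Bool) (i j a : ℕ) (l : List Atom) (W : List ℕ) : a ≤ cvBnd q i j →
      LA (Atom.Y o i j :: l) (!q) W → LA (Atom.X o i j :: Atom.Y o i j :: l) q (a :: W)
  | ystep (q o : Bool) (i j a : ℕ) (l : List Atom) (W : List ℕ) : a ≤ cvBnd q i j →
      LA (Atom.X o i j :: Atom.Y o i j :: l) (!q) W → LA (Atom.Y o i j :: l) q (a :: W)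
  | xeps (q : Bool) (i j : ℕ) (l : List Atom) (W : List ℕ) :
      LA l q W → LA (Atom.X false i j :: Atom.Y false i j :: l) q W
  | yeps (q : Bool) (i j : ℕ) (l : List Atom) (W : List ℕ) :
      LA l q W → LA (Atom.Y true i j :: l) q W

/-- legal position for reading the letter `a` and moving one position to the right -/
def cvP1 (q : Bool) (a : ℕ) : List Atom → Bool
  | Atom.L v :: _ => v == a
  | Atom.X o i j :: Atom.Y o' i' j' :: _ =>
      decide (o = o' ∧ i = i' ∧ j = j') && decide (a ≤ cvBnd q i j)
  | _ => false

/-- position of the first state of a cell which may read `a` -/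
def cvP2 (q : Bool) (a : ℕ) : List Atom → Bool
  | Atom.X o i j :: Atom.Y o' i' j' :: _ =>
      decide (o = o' ∧ i = i' ∧ j = j') && decide (a ≤ cvBnd q i j)
  | _ => false

/-- second state of a cell of odd length: it can be left -/
def cvC1 : List Atom → Bool
  | Atom.Y o _ _ :: _ => o
  | _ => false

/-- first state of a cell of even length: it can be skipped -/
def cvC2 : List Atom → Bool
  | Atom.X o i j :: Atom.Y o' i' j' :: _ => !o && decide (o = o' ∧ i = i' ∧ j = j')
  | _ => false

/-- end of a pattern -/
def cvE : List Atom → Bool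
  | Atom.E :: _ => true
  | _ => false

/-- every bit of the mask is a position with the property -/
def cvMask (P : List Atom → Bool) : List Atom → ℕ → Bool
  | [], m => m == 0
  | d :: l, m => (m % 2 == 0 || P (d :: l)) && cvMask P l (m / 2)

/-- masks -/
structure Masks where
  rd : List (Bool × ℕ × ℕ × ℕ)
  c1 : ℕ
  c2 : ℕ
  e : ℕ

/-- the masks are legal -/
def cvMasksOk (l : List Atom) (M : Masks) : Bool :=
  cvMask cvC1 l M.c1 && cvMask cvC2 l M.c2 && cvMask cvE l M.e &&
    M.rd.all fun x => cvMask (cvP1 x.1 x.2.1) l x.2.2.1 && cvMask (cvP2 x.1 x.2.1) l x.2.2.2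

/-- one round of the closure -/
def cvClo1 (M : Masks) (S : ℕ) : ℕ :=
  S ||| ((S &&& M.c1) <<< 1) ||| ((S &&& M.c2) <<< 2)

/-- closure -/
def cvClo (M : Masks) (S : ℕ) : ℕ := cvClo1 M (cvClo1 M (cvClo1 M S))

/-- reading a letter -/
def cvStep1 (m1 m2 S : ℕ) : ℕ := ((S &&& m1) <<< 1) ||| ((S >>> 1) &&& m2)

/-- the masks of a letter -/
def cvFind (q : Bool) (a : ℕ) : List (Bool × ℕ × ℕ × ℕ) → ℕ × ℕ
  | [] => (0, 0)
  | x :: l => if (x.1 == q) && (x.2.1 == a) then x.2.2 else cvFind q a l

/-- entries -/
inductive ETree where
  | nil
  | node (q : Bool) (r : List Cell) (S : ℕ) (next : List ℕ) (l r : ETree)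

/-- the entry with a given number -/
def ETree.get : ℕ → ℕ → ETree → Option (Bool × List Cell × ℕ)
  | _, _, ETree.nil => none
  | 0, _, _ => none
  | f + 1, n, ETree.node q r S _ tl tr =>
      if n = 0 then some (q, r, S)
      else if n % 2 = 1 then ETree.get f (n / 2) tl else ETree.get f (n / 2 - 1) tr

/-- the successors of an entry -/
def cvNext (M : Masks) (T : ETree) (q : Bool) (S : ℕ) : List (ℕ × List Cell) → List ℕ → Bool
  | [], _ => true
  | _ :: _, [] => false
  | (a, r) :: l, n :: ns =>
      (match ETree.get 64 n T with
        | none => false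
        | some (q', r', S') =>
          (q' == !q) && decide (r' = r) &&
            Nat.beq (S' &&& cvClo M (cvStep1 (cvFind q a M.rd).1 (cvFind q a M.rd).2 S)) S') &&
        cvNext M T q S l ns

/-- check of all entries -/
def cvAll (M : Masks) (T : ETree) : ETree → Bool
  | ETree.nil => true
  | ETree.node q r S next tl tr =>
      (!cvNull r || !(Nat.beq (cvClo M S &&& M.e) 0)) &&
        cvNext M T q (cvClo M S) (cvTr q r) next && cvAll M T tl && cvAll M T tr

/-- only starting positions of patterns -/
def cvStart : List (List Cell) → ℕ → Bool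
  | [], m => m == 0
  | p :: ps, m =>
      Nat.ble (m % 2 ^ ((cvEnc p).length + 1)) 1 && cvStart ps (m / 2 ^ ((cvEnc p).length + 1))

/-- the cover checker -/
def cvCheck (q : Bool) (root : List Cell) (pats : List (List Cell)) (M : Masks) (T : ETree) :
    Bool :=
  cvMasksOk (cvFlat pats) M && cvAll M T T &&
    (match ETree.get 64 0 T with
      | none => false
      | some (q', r', S') => (q' == q) && decide (r' = root) && cvStart pats S')

/-! ## Soundness -/

theorem cover_tr {q : Bool} {cs : List Cell} {a : ℕ} {W : List ℕ} (h : Inst q cs (a :: W)) :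
    ∃ r, (a, r) ∈ cvTr q cs ∧ Inst (!q) r W := by
  induction cs with
  | nil => cases h
  | cons c cs ih =>
    cases c with
    | L v =>
      cases h with
      | letter _ _ _ _ h => exact ⟨cs, by simp [cvTr], h⟩
    | S o i j =>
      generalize hW : a :: W = W' at h
      cases h with
      | stretch _ _ _ _ _ T W0 hT h0 h1 h2 =>
        cases T with
        | nil =>
          have ho : o = false := by
            cases o with
            | false => rfl
            | true => simp at hT
          subst ho
          simp only [List.nil_append, Bool.xor_false] at hW h2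
          subst hW
          obtain ⟨r, hr, hi⟩ := ih h2
          exact ⟨r, by simp [cvTr, hr], hi⟩
        | cons b T =>
          simp only [List.cons_append, List.cons.injEq] at hW
          obtain ⟨rfl, rfl⟩ := hW
          refine ⟨Cell.S (!o) i j :: cs, ?_, ?_⟩
          · simp only [cvTr, List.mem_append, List.mem_map, List.mem_range]
            refine Or.inl ⟨a, ?_, rfl⟩
            have := h0 0 (by simp) rfl
            simp only [List.getD_cons_zero] at this
            simp only [cvBnd]
            omega
          · refine Inst.stretch (!q) (!o) i j cs T W0 ?_ ?_ ?_ ?_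
            · simp only [List.length_cons] at hT
              cases o <;> simp at hT ⊢ <;> omega
            · intro k hk hk2
              have := h1 (k + 1) (by simp; omega) (by omega)
              rw [List.getD_cons_succ] at this
              cases q <;> simpa using this
            · intro k hk hk2
              have := h0 (k + 1) (by simp; omega) (by omega)
              rw [List.getD_cons_succ] at this
              cases q <;> simpa using this
            · cases q <;> cases o <;> simpa using h2

theorem cover_null {q : Bool} {cs : List Cell} (h : Inst q cs []) : cvNull cs = true := by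
  induction cs generalizing q with
  | nil => rfl
  | cons c cs ih =>
    cases c with
    | L v => cases h
    | S o i j =>
      generalize hW : ([] : List ℕ) = W' at h
      cases h with
      | stretch _ _ _ _ _ T W0 hT h0 h1 h2 =>
        have h3 := List.append_eq_nil_iff.1 hW.symm
        obtain ⟨rfl, rfl⟩ := h3
        have ho : o = false := by
          cases o with
          | false => rfl
          | true => simp at hT
        subst ho
        simp only [cvNull, Bool.not_false, Bool.true_and]
        exact ih h2

theorem cover_inst_cons {q o : Bool} {i j a : ℕ} {cs : List Cell} {W : List ℕ}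
    (ha : a ≤ cvBnd q i j) (h : Inst (!q) (Cell.S (!o) i j :: cs) W) :
    Inst q (Cell.S o i j :: cs) (a :: W) := by
  cases h with
  | stretch _ _ _ _ _ T W0 hT h0 h1 h2 =>
    refine Inst.stretch q o i j cs (a :: T) W0 ?_ ?_ ?_ ?_
    · simp only [List.length_cons]
      cases o <;> simp at hT ⊢ <;> omega
    · intro k hk hk2
      cases k with
      | zero => simpa [cvBnd] using ha
      | succ k =>
        rw [List.getD_cons_succ]
        have := h1 k (by simpa using hk) (by omega)
        cases q <;> simpa using this
    · intro k hk hk2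
      cases k with
      | zero => omega
      | succ k =>
        rw [List.getD_cons_succ]
        have := h0 k (by simpa using hk) (by omega)
        cases q <;> simpa using this
    · cases q <;> cases o <;> simpa using h2

theorem cover_inst_skip {q : Bool} {i j : ℕ} {cs : List Cell} {W : List ℕ} (h : Inst q cs W) :
    Inst q (Cell.S false i j :: cs) W := by
  have := Inst.stretch q false i j cs [] W (by simp) (by simp) (by simp)
    (by simpa using h)
  simpa using this

/-- the meaning of the suffixes of the atoms of a pattern -/
theorem cover_LA {l : List Atom} {q : Bool} {W : List ℕ} (h : LA l q W) :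
    (∀ cs rest, l = cvEnc cs ++ Atom.E :: rest → Inst q cs W) ∧
    (∀ o i j cs rest, l = Atom.Y o i j :: (cvEnc cs ++ Atom.E :: rest) →
      Inst q (Cell.S (!o) i j :: cs) W) := by
  induction h with
  | fin q l =>
    refine ⟨?_, ?_⟩
    · intro cs rest h
      cases cs with
      | nil => exact Inst.nil q
      | cons c cs => cases c <;> simp [cvEnc] at h
    · intro o i j cs rest h
      simp at h
  | letter q v l W _ ih =>
    refine ⟨?_, ?_⟩
    · intro cs rest h
      cases cs with
      | nil => simp [cvEnc] at h
      | cons c cs =>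
        cases c with
        | L v' =>
          simp only [cvEnc, List.cons_append, List.cons.injEq, Atom.L.injEq] at h
          obtain ⟨rfl, h⟩ := h
          exact Inst.letter _ _ _ _ (ih.1 cs rest h)
        | S o i j => simp [cvEnc] at h
    · intro o i j cs rest h
      simp at h
  | xstep q o i j a l W ha _ ih =>
    refine ⟨?_, ?_⟩
    · intro cs rest h
      cases cs with
      | nil => simp [cvEnc] at h
      | cons c cs =>
        cases c with
        | L v' => simp [cvEnc] at h
        | S o' i' j' =>
          simp only [cvEnc, List.cons_append, List.cons.injEq, Atom.X.injEq] at h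
          obtain ⟨⟨rfl, rfl, rfl⟩, _, h⟩ := h
          exact cover_inst_cons ha (ih.2 o i j cs rest (by rw [h]))
    · intro o' i' j' cs rest h
      simp at h
  | ystep q o i j a l W ha _ ih =>
    refine ⟨?_, ?_⟩
    · intro cs rest h
      cases cs with
      | nil => simp [cvEnc] at h
      | cons c cs => cases c <;> simp [cvEnc] at h
    · intro o' i' j' cs rest h
      simp only [List.cons.injEq, Atom.Y.injEq] at h
      obtain ⟨⟨rfl, rfl, rfl⟩, h⟩ := h
      refine cover_inst_cons ha ?_
      rw [Bool.not_not]
      exact ih.1 (Cell.S o i j :: cs) rest (by simp [cvEnc, h])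
  | xeps q i j l W _ ih =>
    refine ⟨?_, ?_⟩
    · intro cs rest h
      cases cs with
      | nil => simp [cvEnc] at h
      | cons c cs =>
        cases c with
        | L v' => simp [cvEnc] at h
        | S o' i' j' =>
          simp only [cvEnc, List.cons_append, List.cons.injEq, Atom.X.injEq] at h
          obtain ⟨⟨rfl, rfl, rfl⟩, _, h⟩ := h
          exact cover_inst_skip (ih.1 cs rest h)
    · intro o' i' j' cs rest h
      simp at h
  | yeps q i j l W _ ih =>
    refine ⟨?_, ?_⟩
    · intro cs rest h
      cases cs with
      | nil => simp [cvEnc] at h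
      | cons c cs => cases c <;> simp [cvEnc] at h
    · intro o' i' j' cs rest h
      simp only [List.cons.injEq, Atom.Y.injEq] at h
      obtain ⟨⟨rfl, rfl, rfl⟩, h⟩ := h
      exact cover_inst_skip (ih.1 cs rest h)

theorem cover_mask {P : List Atom → Bool} {l : List Atom} {m k : ℕ} (h : cvMask P l m = true)
    (hk : m.testBit k = true) : P (l.drop k) = true := by
  induction l generalizing m k with
  | nil =>
    simp only [cvMask, beq_iff_eq] at h
    subst h
    simp at hk
  | cons d l ih =>
    simp only [cvMask, Bool.and_eq_true, Bool.or_eq_true, beq_iff_eq] at h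
    cases k with
    | zero =>
      simp only [Nat.testBit_zero, decide_eq_true_eq] at hk
      rcases h.1 with h1 | h1
      · omega
      · simpa using h1
    | succ k =>
      rw [List.drop_succ_cons]
      apply ih h.2
      rw [Nat.testBit_succ] at hk
      exact hk

/-- `S` contains a position whose language contains `W` -/
def cvSem (l : List Atom) (S : ℕ) (q : Bool) (W : List ℕ) : Prop :=
  ∃ k, S.testBit k = true ∧ LA (l.drop k) q W

theorem cover_drop_succ {l : List Atom} {k : ℕ} {d : Atom} {r : List Atom}
    (h : l.drop k = d :: r) : l.drop (k + 1) = r := by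
  rw [← List.drop_drop, h]
  rfl

theorem cover_clo1 {l : List Atom} {M : Masks} (hM : cvMasksOk l M = true) {S : ℕ} {q : Bool}
    {W : List ℕ} (h : cvSem l (cvClo1 M S) q W) : cvSem l S q W := by
  obtain ⟨k, hk, hl⟩ := h
  simp only [cvMasksOk, Bool.and_eq_true] at hM
  obtain ⟨⟨⟨h1, h2⟩, -⟩, -⟩ := hM
  simp only [cvClo1, Nat.testBit_or, Bool.or_eq_true, Nat.testBit_shiftLeft, Nat.testBit_and,
    Bool.and_eq_true, decide_eq_true_eq] at hk
  rcases hk with (hk | ⟨hk0, hk1, hk2⟩) | ⟨hk0, hk1, hk2⟩
  · exact ⟨k, hk, hl⟩
  · refine ⟨k - 1, hk1, ?_⟩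
    have h3 := cover_mask h1 hk2
    obtain ⟨k, rfl⟩ : ∃ k', k = k' + 1 := ⟨k - 1, by omega⟩
    simp only [Nat.add_sub_cancel] at h3 ⊢
    cases hd : l.drop k with
    | nil => rw [hd] at h3; simp [cvC1] at h3
    | cons d r =>
      rw [hd] at h3
      rw [cover_drop_succ hd] at hl
      cases d with
      | L v => simp [cvC1] at h3
      | X o i j => simp [cvC1] at h3
      | E => simp [cvC1] at h3
      | Y o i j =>
        simp only [cvC1] at h3
        subst h3
        exact LA.yeps q i j r W hl
  · refine ⟨k - 2, hk1, ?_⟩
    have h3 := cover_mask h2 hk2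
    obtain ⟨k, rfl⟩ : ∃ k', k = k' + 2 := ⟨k - 2, by omega⟩
    simp only [Nat.add_sub_cancel] at h3 ⊢
    cases hd : l.drop k with
    | nil => rw [hd] at h3; simp [cvC2] at h3
    | cons d r =>
      rw [hd] at h3
      have hd1 := cover_drop_succ hd
      cases r with
      | nil => cases d <;> simp [cvC2] at h3
      | cons d' r =>
        have hd2 := cover_drop_succ hd1
        rw [show k + 1 + 1 = k + 2 from rfl] at hd2
        rw [hd2] at hl
        cases d with
        | L v => simp [cvC2] at h3
        | Y o i j => simp [cvC2] at h3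
        | E => simp [cvC2] at h3
        | X o i j =>
          cases d' with
          | L v => simp [cvC2] at h3
          | X o i j => simp [cvC2] at h3
          | E => simp [cvC2] at h3
          | Y o' i' j' =>
            simp only [cvC2, Bool.and_eq_true, Bool.not_eq_true', decide_eq_true_eq] at h3
            obtain ⟨rfl, rfl, rfl, rfl⟩ := h3
            exact LA.xeps q i j r W hl

theorem cover_clo {l : List Atom} {M : Masks} (hM : cvMasksOk l M = true) {S : ℕ} {q : Bool}
    {W : List ℕ} (h : cvSem l (cvClo M S) q W) : cvSem l S q W :=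
  cover_clo1 hM (cover_clo1 hM (cover_clo1 hM h))

theorem cover_find {l : List Atom} {q : Bool} {a : ℕ} {rd : List (Bool × ℕ × ℕ × ℕ)}
    (h : (rd.all fun x => cvMask (cvP1 x.1 x.2.1) l x.2.2.1 &&
      cvMask (cvP2 x.1 x.2.1) l x.2.2.2) = true) {k : ℕ} :
    ((cvFind q a rd).1.testBit k = true → cvP1 q a (l.drop k) = true) ∧
    ((cvFind q a rd).2.testBit k = true → cvP2 q a (l.drop k) = true) := by
  induction rd with
  | nil => simp [cvFind]
  | cons x rd ih =>
    rw [List.all_cons, Bool.and_eq_true, Bool.and_eq_true] at h
    unfold cvFind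
    split
    · next hx =>
      rw [Bool.and_eq_true, beq_iff_eq, beq_iff_eq] at hx
      obtain ⟨hx1, hx2⟩ := hx
      rw [← hx1, ← hx2]
      exact ⟨fun hk => cover_mask h.1.1 hk, fun hk => cover_mask h.1.2 hk⟩
    · exact ih h.2

theorem cover_step {l : List Atom} {M : Masks} (hM : cvMasksOk l M = true) {S : ℕ} {q : Bool}
    {a : ℕ} {W : List ℕ}
    (h : cvSem l (cvStep1 (cvFind q a M.rd).1 (cvFind q a M.rd).2 S) (!q) W) :
    cvSem l S q (a :: W) := by
  obtain ⟨k, hk, hl⟩ := h
  simp only [cvMasksOk, Bool.and_eq_true] at hM
  have hr := hM.2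
  simp only [cvStep1, Nat.testBit_or, Bool.or_eq_true, Nat.testBit_shiftLeft, Nat.testBit_and,
    Nat.testBit_shiftRight, Bool.and_eq_true, decide_eq_true_eq] at hk
  rcases hk with ⟨hk0, hk1, hk2⟩ | ⟨hk1, hk2⟩
  · refine ⟨k - 1, hk1, ?_⟩
    have h3 := (cover_find (q := q) (a := a) (by simpa using hr)).1 hk2
    obtain ⟨k, rfl⟩ : ∃ k', k = k' + 1 := ⟨k - 1, by omega⟩
    simp only [Nat.add_sub_cancel] at h3 ⊢
    cases hd : l.drop k with
    | nil => rw [hd] at h3; simp [cvP1] at h3
    | cons d r =>
      rw [hd] at h3
      have hd1 := cover_drop_succ hd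
      rw [hd1] at hl
      cases d with
      | L v =>
        simp only [cvP1, beq_iff_eq] at h3
        subst h3
        exact LA.letter q v r W hl
      | Y o i j => simp [cvP1] at h3
      | E => simp [cvP1] at h3
      | X o i j =>
        cases r with
        | nil => simp [cvP1] at h3
        | cons d' r =>
          cases d' with
          | L v => simp [cvP1] at h3
          | X o i j => simp [cvP1] at h3
          | E => simp [cvP1] at h3
          | Y o' i' j' =>
            simp only [cvP1, Bool.and_eq_true, decide_eq_true_eq] at h3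
            obtain ⟨⟨rfl, rfl, rfl⟩, h3⟩ := h3
            exact LA.xstep q o i j a r W h3 hl
  · refine ⟨k + 1, by rwa [Nat.add_comm] , ?_⟩
    have h3 := (cover_find (q := q) (a := a) (by simpa using hr)).2 hk2
    cases hd : l.drop k with
    | nil => rw [hd] at h3; simp [cvP2] at h3
    | cons d r =>
      rw [hd] at h3
      have hd1 := cover_drop_succ hd
      rw [hd] at hl
      rw [hd1]
      cases d with
      | L v => simp [cvP2] at h3
      | Y o i j => simp [cvP2] at h3
      | E => simp [cvP2] at h3
      | X o i j =>
        cases r with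
        | nil => simp [cvP2] at h3
        | cons d' r =>
          cases d' with
          | L v => simp [cvP2] at h3
          | X o i j => simp [cvP2] at h3
          | E => simp [cvP2] at h3
          | Y o' i' j' =>
            simp only [cvP2, Bool.and_eq_true, decide_eq_true_eq] at h3
            obtain ⟨⟨rfl, rfl, rfl⟩, h3⟩ := h3
            exact LA.ystep q o i j a r W h3 hl

theorem cover_sub {l : List Atom} {S S' : ℕ} (h : Nat.beq (S' &&& S) S' = true) {q : Bool}
    {W : List ℕ} (hs : cvSem l S' q W) : cvSem l S q W := by
  obtain ⟨k, hk, hl⟩ := hs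
  have h1 := Nat.eq_of_beq_eq_true h
  rw [← h1, Nat.testBit_and, Bool.and_eq_true] at hk
  exact ⟨k, hk.2, hl⟩

theorem cover_get {M : Masks} {T T0 : ETree} (h : cvAll M T0 T = true) {f n : ℕ} {q : Bool}
    {r : List Cell} {S : ℕ} (hg : ETree.get f n T = some (q, r, S)) :
    ∃ next, (cvNull r = true → Nat.beq (cvClo M S &&& M.e) 0 = false) ∧
      cvNext M T0 q (cvClo M S) (cvTr q r) next = true := by
  induction T generalizing f n with
  | nil => cases f <;> simp [ETree.get] at hg
  | node q1 r1 S1 next1 tl tr ihl ihr =>
    simp only [cvAll, Bool.and_eq_true] at h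
    obtain ⟨⟨⟨h1, h2⟩, h3⟩, h4⟩ := h
    cases f with
    | zero => simp [ETree.get] at hg
    | succ f =>
      simp only [ETree.get] at hg
      split at hg
      · simp only [Option.some.injEq, Prod.mk.injEq] at hg
        obtain ⟨rfl, rfl, rfl⟩ := hg
        refine ⟨next1, fun hn => ?_, h2⟩
        rw [hn] at h1
        simpa using h1
      · split at hg
        · exact ihl h3 hg
        · exact ihr h4 hg

theorem cover_next {M : Masks} {T : ETree} {q : Bool} {S : ℕ} {tr : List (ℕ × List Cell)}
    {ns : List ℕ} (h : cvNext M T q S tr ns = true) {a : ℕ} {r : List Cell}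
    (hr : (a, r) ∈ tr) : ∃ n S', ETree.get 64 n T = some (!q, r, S') ∧
      Nat.beq (S' &&& cvClo M (cvStep1 (cvFind q a M.rd).1 (cvFind q a M.rd).2 S)) S' = true := by
  induction tr generalizing ns with
  | nil => simp at hr
  | cons x tr ih =>
    obtain ⟨a1, r1⟩ := x
    cases ns with
    | nil => simp [cvNext] at h
    | cons n ns =>
      simp only [cvNext, Bool.and_eq_true] at h
      rcases List.mem_cons.1 hr with hr | hr
      · simp only [Prod.mk.injEq] at hr
        obtain ⟨rfl, rfl⟩ := hr
        have h1 := h.1
        split at h1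
        · simp at h1
        · next q' r' S' hg =>
          simp only [Bool.and_eq_true, beq_iff_eq, decide_eq_true_eq] at h1
          obtain ⟨⟨rfl, rfl⟩, h2⟩ := h1
          exact ⟨n, S', hg, h2⟩
      · exact ih h.2 hr

theorem cover_main {l : List Atom} {M : Masks} (hM : cvMasksOk l M = true) {T : ETree}
    (h : cvAll M T T = true) (W : List ℕ) : ∀ {n : ℕ} {q : Bool} {r : List Cell} {S : ℕ},
    ETree.get 64 n T = some (q, r, S) → Inst q r W → cvSem l S q W := by
  induction W with
  | nil =>
    intro n q r S hg hi
    obtain ⟨next, h1, -⟩ := cover_get h hg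
    have h2 := h1 (cover_null hi)
    have h3 : (cvClo M S &&& M.e) ≠ 0 := by
      intro h3
      rw [h3] at h2
      simp at h2
    obtain ⟨k, hk⟩ := Nat.exists_testBit_of_ne_zero h3
    rw [Nat.testBit_and, Bool.and_eq_true] at hk
    apply cover_clo hM
    refine ⟨k, hk.1, ?_⟩
    have hM' := hM
    simp only [cvMasksOk, Bool.and_eq_true] at hM'
    have h4 := cover_mask hM'.1.2 hk.2
    cases hd : l.drop k with
    | nil => rw [hd] at h4; simp [cvE] at h4
    | cons d r =>
      rw [hd] at h4
      cases d with
      | L v => simp [cvE] at h4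
      | X o i j => simp [cvE] at h4
      | Y o i j => simp [cvE] at h4
      | E => exact LA.fin q r
  | cons a W ih =>
    intro n q r S hg hi
    obtain ⟨next, -, h1⟩ := cover_get h hg
    obtain ⟨r', hr', hi'⟩ := cover_tr hi
    obtain ⟨n', S', hg', hS'⟩ := cover_next h1 hr'
    exact cover_clo hM (cover_step hM (cover_clo hM (cover_sub hS' (ih hg' hi'))))

theorem cover_start {ps : List (List Cell)} {m k : ℕ} (h : cvStart ps m = true)
    (hk : m.testBit k = true) : ∃ p ∈ ps, ∃ rest, (cvFlat ps).drop k = cvEnc p ++ Atom.E :: rest := by
  induction ps generalizing m k with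
  | nil =>
    simp only [cvStart, beq_iff_eq] at h
    subst h
    simp at hk
  | cons p ps ih =>
    simp only [cvStart, Bool.and_eq_true] at h
    obtain ⟨h1, h2⟩ := h
    have h1 := Nat.le_of_ble_eq_true h1
    by_cases hk2 : k < (cvEnc p).length + 1
    · have h3 : (m % 2 ^ ((cvEnc p).length + 1)).testBit k = true := by
        rw [Nat.testBit_mod_two_pow, hk]
        simpa using hk2
      have h4 : k = 0 := by
        by_contra h5
        have h6 : (m % 2 ^ ((cvEnc p).length + 1)) < 2 ^ k := by
          have : 2 ^ 1 ≤ 2 ^ k := Nat.pow_le_pow_right (by omega) (by omega)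
          omega
        rw [Nat.testBit_lt_two_pow h6] at h3
        simp at h3
      subst h4
      exact ⟨p, List.mem_cons_self, cvFlat ps, by simp [cvFlat]⟩
    · have h3 : (m / 2 ^ ((cvEnc p).length + 1)).testBit (k - ((cvEnc p).length + 1)) = true := by
        rw [Nat.testBit_div_two_pow]
        rw [← hk]
        congr 1
        omega
      obtain ⟨p', hp', rest, hr⟩ := ih h2 h3
      refine ⟨p', List.mem_cons_of_mem _ hp', rest, ?_⟩
      rw [← hr, cvFlat]
      have : k = (cvEnc p).length + (1 + (k - ((cvEnc p).length + 1))) := by omega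
      conv_lhs => rw [this, ← List.drop_drop, List.drop_left]
      rw [Nat.add_comm 1, List.drop_succ_cons]

/-- **Soundness of cover certificates**: pure inclusion. -/
theorem cover_sound {q : Bool} {root : List Cell} {pats : List (List Cell)} {M : Masks}
    {T : ETree} (h : cvCheck q root pats M T = true) (W : List ℕ) (hW : Inst q root W) :
    ∃ p ∈ pats, Inst q p W := by
  simp only [cvCheck, Bool.and_eq_true] at h
  obtain ⟨⟨hM, hA⟩, h0⟩ := h
  split at h0
  · simp at h0
  · next q' r' S' hg =>
    simp only [Bool.and_eq_true, beq_iff_eq, decide_eq_true_eq] at h0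
    obtain ⟨⟨rfl, rfl⟩, hs⟩ := h0
    obtain ⟨k, hk, hl⟩ := cover_main hM hA W hg hW
    obtain ⟨p, hp, rest, hd⟩ := cover_start hs hk
    rw [hd] at hl
    exact ⟨p, hp, (cover_LA hl).1 p rest rfl⟩

end Pool.Agent.H.MP_2e666d_lc.T3
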