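import Pool.Agent.H.MP_2e666d_lc.TreeDef3

/-! # Refinement trees, second version: the case distinctions are exhaustive -/

namespace Pool.Agent.H.MP_2e666d_lc.T3

/-- parity of the length -/
def treesplit3_od : List ℕ → Bool
  | [] => false
  | _ :: T => !treesplit3_od T

theorem treesplit3_od_eq (T : List ℕ) :
    T.length % 2 = if treesplit3_od T then 1 else 0 := by
  induction T with
  | nil => simp [treesplit3_od]
  | cons x T ih =>
    rw [List.length_cons, treesplit3_od]
    cases h : treesplit3_od T
    · rw [h] at ih
      simp at ih ⊢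
      omega
    · rw [h] at ih
      simp at ih ⊢
      omega

theorem treesplit3_od_of {T : List ℕ} {o : Bool} (h : T.length % 2 = (if o then 1 else 0)) :
    treesplit3_od T = o := by
  rw [treesplit3_od_eq] at h
  cases o <;> cases hT : treesplit3_od T <;> rw [hT] at h <;> simp at h ⊢

theorem treesplit3_od_append (T1 T2 : List ℕ) :
    treesplit3_od (T1 ++ T2) = (treesplit3_od T1 ^^ treesplit3_od T2) := by
  induction T1 with
  | nil => simp [treesplit3_od]
  | cons x T ih =>
    rw [List.cons_append, treesplit3_od, ih, treesplit3_od]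
    cases treesplit3_od T <;> cases treesplit3_od T2 <;> rfl

/-- words starting at parity `r` with letters bounded by `B` of their parity -/
inductive treesplit3_W (B : Bool → ℕ) : Bool → List ℕ → Prop where
  | nil (r : Bool) : treesplit3_W B r []
  | cons (r : Bool) (x : ℕ) (T : List ℕ) : x ≤ B r → treesplit3_W B (!r) T →
      treesplit3_W B r (x :: T)

theorem treesplit3_W_of (B : Bool → ℕ) : ∀ (T : List ℕ) (r : Bool),
    (∀ k < T.length, k % 2 = 0 → T.getD k 0 ≤ B r) →
    (∀ k < T.length, k % 2 = 1 → T.getD k 0 ≤ B (!r)) → treesplit3_W B r T := by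
  intro T
  induction T with
  | nil => intro r _ _; exact treesplit3_W.nil r
  | cons x T ih =>
    intro r h0 h1
    refine treesplit3_W.cons r x T ?_ (ih (!r) ?_ ?_)
    · have := h0 0 (by simp) rfl
      simpa using this
    · intro k hk hk2
      have := h1 (k + 1) (by simpa using hk) (by omega)
      simpa using this
    · intro k hk hk2
      have := h0 (k + 1) (by simpa using hk) (by omega)
      simpa using this

theorem treesplit3_W_prop {B : Bool → ℕ} {r : Bool} {T : List ℕ} (h : treesplit3_W B r T) :
    (∀ k < T.length, k % 2 = 0 → T.getD k 0 ≤ B r) ∧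
      (∀ k < T.length, k % 2 = 1 → T.getD k 0 ≤ B (!r)) := by
  induction h with
  | nil r => simp
  | cons r x T hx _ ih =>
    obtain ⟨i1, i2⟩ := ih
    rw [Bool.not_not] at i2
    constructor
    · intro k hk hk2
      match k, hk, hk2 with
      | 0, _, _ => simpa using hx
      | k + 1, hk, hk2 =>
        simp only [List.length_cons] at hk
        have := i2 k (by omega) (by omega)
        simpa using this
    · intro k hk hk2
      match k, hk, hk2 with
      | 0, _, hk2 => omega
      | k + 1, hk, hk2 =>
        simp only [List.length_cons] at hk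
        have := i1 k (by omega) (by omega)
        simpa using this

theorem treesplit3_W_append {B : Bool → ℕ} {T1 T2 : List ℕ} : ∀ {r : Bool},
    treesplit3_W B r (T1 ++ T2) ↔
      treesplit3_W B r T1 ∧ treesplit3_W B (r ^^ treesplit3_od T1) T2 := by
  induction T1 with
  | nil =>
    intro r
    simp only [List.nil_append, treesplit3_od, Bool.xor_false]
    exact ⟨fun h => ⟨treesplit3_W.nil r, h⟩, fun h => h.2⟩
  | cons x T1 ih =>
    intro r
    have e : ((!r) ^^ treesplit3_od T1) = (r ^^ treesplit3_od (x :: T1)) := by
      rw [treesplit3_od]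
      cases r <;> cases treesplit3_od T1 <;> rfl
    constructor
    · intro h
      cases h with
      | cons _ _ _ hx h =>
        obtain ⟨h1, h2⟩ := ih.1 h
        rw [e] at h2
        exact ⟨treesplit3_W.cons r x T1 hx h1, h2⟩
    · rintro ⟨h1, h2⟩
      cases h1 with
      | cons _ _ _ hx h1 =>
        rw [← e] at h2
        exact treesplit3_W.cons r x _ hx (ih.2 ⟨h1, h2⟩)

theorem treesplit3_W_mono {B C : Bool → ℕ} (hBC : ∀ s, B s ≤ C s) {r : Bool} {T : List ℕ}
    (h : treesplit3_W B r T) : treesplit3_W C r T := by
  induction h with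
  | nil r => exact treesplit3_W.nil r
  | cons r x T hx _ ih => exact treesplit3_W.cons r x T (hx.trans (hBC r)) ih

/-- bounds -/
def treesplit3_bd (a b : ℕ) : Bool → ℕ := fun s => if s then b else a

theorem treesplit3_append {q : Bool} {a : List Cell} {T : List ℕ} (h : Inst q a T) :
    ∀ {b : List Cell} {W : List ℕ}, Inst (q ^^ treesplit3_od T) b W →
      Inst q (a ++ b) (T ++ W) := by
  induction h with
  | nil q =>
    intro b W hb
    simpa [treesplit3_od] using hb
  | letter q v cs W1 _ ih =>
    intro b W hb
    refine Inst.letter q v (cs ++ b) (W1 ++ W) (ih ?_)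
    have : ((!q) ^^ treesplit3_od W1) = (q ^^ treesplit3_od (v :: W1)) := by
      rw [treesplit3_od]
      cases q <;> cases treesplit3_od W1 <;> rfl
    rw [this]
    exact hb
  | stretch q o i j cs T1 W1 hl h0 h1 _ ih =>
    intro b W hb
    have : ((q ^^ o) ^^ treesplit3_od W1) = (q ^^ treesplit3_od (T1 ++ W1)) := by
      rw [treesplit3_od_append, treesplit3_od_of hl]
      cases q <;> cases o <;> cases treesplit3_od W1 <;> rfl
    rw [List.append_assoc, List.cons_append]
    refine Inst.stretch q o i j (cs ++ b) T1 (W1 ++ W) hl h0 h1 (ih ?_)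
    rw [this]
    exact hb

/-- a cell followed by others; `r` is the relative parity -/
theorem treesplit3_cell {q r r' o : Bool} {a b : ℕ} {T W : List ℕ} {cs : List Cell}
    (h : treesplit3_W (treesplit3_bd a b) r T) (ho : treesplit3_od T = o) (hr : (r ^^ o) = r')
    (hW : Inst (q ^^ r') cs W) : Inst (q ^^ r) (mkS q o a b :: cs) (T ++ W) := by
  obtain ⟨h0, h1⟩ := treesplit3_W_prop h
  have hl : T.length % 2 = (if o then 1 else 0) := by
    rw [treesplit3_od_eq, ho]
  subst hr
  rw [← Bool.xor_assoc] at hW
  unfold mkS
  cases q <;> cases r <;> simp only [treesplit3_bd, Bool.false_eq_true, if_false, if_true,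
    Bool.not_false, Bool.not_true] at h0 h1 hW ⊢
  · exact Inst.stretch _ o a b cs T W hl (by simpa using h0) (by simpa using h1) hW
  · exact Inst.stretch _ o a b cs T W hl (by simpa using h0) (by simpa using h1) hW
  · exact Inst.stretch _ o b a cs T W hl (by simpa using h0) (by simpa using h1) hW
  · exact Inst.stretch _ o b a cs T W hl (by simpa using h0) (by simpa using h1) hW

/-- a last cell -/
theorem treesplit3_cell1 {q r o : Bool} {a b : ℕ} {T : List ℕ}
    (h : treesplit3_W (treesplit3_bd a b) r T) (ho : treesplit3_od T = o) :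
    Inst (q ^^ r) [mkS q o a b] T := by
  have e : T = T ++ [] := (List.append_nil T).symm
  rw [e]
  exact treesplit3_cell h ho rfl (Inst.nil _)

theorem treesplit3_letter {q r : Bool} {x : ℕ} {W : List ℕ} {cs : List Cell}
    (hW : Inst (q ^^ !r) cs W) : Inst (q ^^ r) (Cell.L x :: cs) (x :: W) := by
  refine Inst.letter _ x cs W ?_
  rw [← Bool.xor_not]
  exact hW

/-- the first letter with the property `P` -/
theorem treesplit3_first {B C : Bool → ℕ} (P : Bool → ℕ → Prop)
    (hP : ∀ s x, x ≤ B s → ¬ P s x → x ≤ C s) : ∀ {T : List ℕ} {r : Bool},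
    treesplit3_W B r T → treesplit3_W C r T ∨ ∃ T1 x T2, T = T1 ++ x :: T2 ∧
      treesplit3_W C r T1 ∧ P (r ^^ treesplit3_od T1) x ∧ x ≤ B (r ^^ treesplit3_od T1) ∧
      treesplit3_W B (!(r ^^ treesplit3_od T1)) T2 := by
  intro T
  induction T with
  | nil => intro r _; exact Or.inl (treesplit3_W.nil r)
  | cons z T ih =>
    intro r h
    cases h with
    | cons _ _ _ hz h =>
      by_cases hp : P r z
      · refine Or.inr ⟨[], z, T, rfl, treesplit3_W.nil r, ?_, ?_, ?_⟩
        · simpa [treesplit3_od] using hp
        · simpa [treesplit3_od] using hz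
        · simpa [treesplit3_od] using h
      · have hz' := hP r z hz hp
        rcases ih h with h1 | ⟨T1, x, T2, e, i1, i2, i3, i4⟩
        · exact Or.inl (treesplit3_W.cons r z T hz' h1)
        · have e2 : ((!r) ^^ treesplit3_od T1) = (r ^^ treesplit3_od (z :: T1)) := by
            rw [treesplit3_od]
            cases r <;> cases treesplit3_od T1 <;> rfl
          rw [e2] at i2 i3 i4
          refine Or.inr ⟨z :: T1, x, T2, ?_, treesplit3_W.cons r z T1 hz' i1, i2, i3, i4⟩
          rw [e]
          rfl

/-- the last letter with the property `P` -/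
theorem treesplit3_last {B C : Bool → ℕ} (P : Bool → ℕ → Prop)
    (hP : ∀ s x, x ≤ B s → ¬ P s x → x ≤ C s) : ∀ {T : List ℕ} {r : Bool},
    treesplit3_W B r T → treesplit3_W C r T ∨ ∃ T1 x T2, T = T1 ++ x :: T2 ∧
      treesplit3_W B r T1 ∧ P (r ^^ treesplit3_od T1) x ∧ x ≤ B (r ^^ treesplit3_od T1) ∧
      treesplit3_W C (!(r ^^ treesplit3_od T1)) T2 := by
  intro T
  induction T with
  | nil => intro r _; exact Or.inl (treesplit3_W.nil r)
  | cons z T ih =>
    intro r h
    cases h with
    | cons _ _ _ hz h =>
      rcases ih h with h1 | ⟨T1, x, T2, e, i1, i2, i3, i4⟩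
      · by_cases hp : P r z
        · refine Or.inr ⟨[], z, T, rfl, treesplit3_W.nil r, ?_, ?_, ?_⟩
          · simpa [treesplit3_od] using hp
          · simpa [treesplit3_od] using hz
          · simpa [treesplit3_od] using h1
        · exact Or.inl (treesplit3_W.cons r z T (hP r z hz hp) h1)
      · have e2 : ((!r) ^^ treesplit3_od T1) = (r ^^ treesplit3_od (z :: T1)) := by
          rw [treesplit3_od]
          cases r <;> cases treesplit3_od T1 <;> rfl
        rw [e2] at i2 i3 i4
        refine Or.inr ⟨z :: T1, x, T2, ?_, treesplit3_W.cons r z T1 hz i1, i2, i3, i4⟩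
        rw [e]
        rfl

/-- the bounds `B`, but `l - 1` for the parity `p` -/
def treesplit3_nb (B : Bool → ℕ) (l : ℕ) (p : Bool) : Bool → ℕ := fun s =>
  if s = p then l - 1 else B s

/-- no letter `≥ l` of the parity `p` is followed by a letter `≥ l` of the other parity -/
def treesplit3_NoSw (B : Bool → ℕ) (l : ℕ) (p r : Bool) (G : List ℕ) : Prop :=
  ∃ A D, G = A ++ D ∧ treesplit3_W (treesplit3_nb B l p) r A ∧
    treesplit3_W (treesplit3_nb B l (!p)) (r ^^ treesplit3_od A) D

theorem treesplit3_nb_self (B : Bool → ℕ) (l : ℕ) (p : Bool) :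
    treesplit3_nb B l p p = l - 1 := by
  unfold treesplit3_nb
  rw [if_pos rfl]

theorem treesplit3_nb_not (B : Bool → ℕ) (l : ℕ) (p : Bool) :
    treesplit3_nb B l p (!p) = B (!p) := by
  unfold treesplit3_nb
  rw [if_neg (by cases p <;> simp)]

theorem treesplit3_nb_not' (B : Bool → ℕ) (l : ℕ) (p : Bool) :
    treesplit3_nb B l (!p) p = B p := by
  unfold treesplit3_nb
  rw [if_neg (by cases p <;> simp)]

/-- cut at a place of the right parity -/
theorem treesplit3_fix {B : Bool → ℕ} {l : ℕ} (hl : ∀ s, l ≤ B s) {p r : Bool} {G : List ℕ}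
    (h : treesplit3_NoSw B l p r G) : (r = !p ∧ G = []) ∨ ∃ A D, G = A ++ D ∧
      treesplit3_W (treesplit3_nb B l p) r A ∧ (r ^^ treesplit3_od A) = p ∧
      treesplit3_W (treesplit3_nb B l (!p)) p D := by
  obtain ⟨A, D, e, hA, hD⟩ := h
  by_cases hp : (r ^^ treesplit3_od A) = p
  · rw [hp] at hD
    exact Or.inr ⟨A, D, e, hA, hp, hD⟩
  · have hp' : (r ^^ treesplit3_od A) = !p := by
      revert hp
      cases (r ^^ treesplit3_od A) <;> cases p <;> simp
    rw [hp'] at hD
    cases hD with
    | cons _ d D' hd hD' =>
      refine Or.inr ⟨A ++ [d], D', ?_, ?_, ?_, ?_⟩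
      · rw [e, List.append_assoc]
        rfl
      · refine treesplit3_W_append.2 ⟨hA, ?_⟩
        rw [hp']
        refine treesplit3_W.cons _ d [] ?_ (treesplit3_W.nil _)
        rw [treesplit3_nb_self] at hd
        rw [treesplit3_nb_not]
        have := hl (!p)
        omega
      · rw [treesplit3_od_append]
        have e1 : treesplit3_od [d] = true := rfl
        rw [e1, ← Bool.xor_assoc, hp']
        cases p <;> rfl
      · rw [Bool.not_not] at hD'
        exact hD'
    | nil =>
      rw [List.append_nil] at e
      subst e
      rcases List.eq_nil_or_concat G with h0 | ⟨A', a, h0⟩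
      · subst h0
        refine Or.inl ⟨?_, rfl⟩
        rw [← hp']
        simp [treesplit3_od]
      · rw [List.concat_eq_append] at h0
        subst h0
        obtain ⟨hA1, hA2⟩ := treesplit3_W_append.1 hA
        have e1 : treesplit3_od [a] = true := rfl
        rw [treesplit3_od_append, e1, ← Bool.xor_assoc] at hp'
        have hp2 : (r ^^ treesplit3_od A') = p := by
          revert hp'
          cases (r ^^ treesplit3_od A') <;> cases p <;> simp
        rw [hp2] at hA2
        refine Or.inr ⟨A', [a], rfl, hA1, hp2, ?_⟩
        cases hA2 with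
        | cons _ _ _ ha _ =>
          refine treesplit3_W.cons _ a [] ?_ (treesplit3_W.nil _)
          rw [treesplit3_nb_self] at ha
          rw [treesplit3_nb_not']
          have := hl p
          omega

/-- a word without big letters of the parity `p`, starting at the other parity: the first big
letter -/
theorem treesplit3_firstbig {B : Bool → ℕ} {l : ℕ} (hl1 : 1 ≤ l) {p : Bool}
    {A : List ℕ} (h : treesplit3_W (treesplit3_nb B l p) (!p) A) :
    treesplit3_W (fun _ => l - 1) (!p) A ∨ ∃ E y F, A = E ++ y :: F ∧
      treesplit3_W (fun _ => l - 1) (!p) E ∧ treesplit3_od E = false ∧ l ≤ y ∧ y ≤ B (!p) ∧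
      treesplit3_W (treesplit3_nb B l p) p F := by
  rcases treesplit3_first (C := fun _ => l - 1) (fun _ x => l ≤ x)
    (fun s x _ hn => by omega) h with h1 | ⟨E, y, F, e, i1, i2, i3, i4⟩
  · exact Or.inl h1
  · refine Or.inr ⟨E, y, F, e, i1, ?_⟩
    have hE : treesplit3_od E = false := by
      by_contra hn
      have hn' : treesplit3_od E = true := by
        revert hn
        cases treesplit3_od E <;> simp
      rw [hn'] at i3
      have e2 : ((!p) ^^ true) = p := by cases p <;> rfl
      rw [e2, treesplit3_nb_self] at i3
      omega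
    rw [hE, Bool.xor_false] at i3 i4
    rw [treesplit3_nb_not] at i3
    rw [Bool.not_not] at i4
    exact ⟨hE, i2, i3, i4⟩

theorem treesplit3_sm_le {B : Bool → ℕ} {l : ℕ} (hl : ∀ s, l ≤ B s) (p s : Bool) :
    l - 1 ≤ treesplit3_nb B l p s := by
  unfold treesplit3_nb
  have := hl s
  split_ifs <;> omega

theorem treesplit3_nb_le {B : Bool → ℕ} {l : ℕ} (hl : ∀ s, l ≤ B s) (p s : Bool) :
    treesplit3_nb B l p s ≤ B s := by
  unfold treesplit3_nb
  have := hl s
  split_ifs <;> omega

/-- prepending a letter to a word without switches -/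
theorem treesplit3_cons {B : Bool → ℕ} {l : ℕ} (hl : ∀ s, l ≤ B s) (hl1 : 1 ≤ l) {p r : Bool}
    {z : ℕ} (hz : z ≤ B r) {G : List ℕ} (h : treesplit3_NoSw B l p (!r) G) :
    treesplit3_NoSw B l p r (z :: G) ∨ (r = p ∧ l ≤ z ∧ ∃ E y F, G = E ++ y :: F ∧
      treesplit3_W (fun _ => l - 1) (!p) E ∧ treesplit3_od E = false ∧ l ≤ y ∧ y ≤ B (!p) ∧
      treesplit3_NoSw B l p p F) := by
  obtain ⟨A, D, e, hA, hD⟩ := h
  have e2 : ∀ A : List ℕ, ((!r) ^^ treesplit3_od A) = (r ^^ treesplit3_od (z :: A)) := by
    intro A
    rw [treesplit3_od]
    cases r <;> cases treesplit3_od A <;> rfl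
  by_cases hzp : z ≤ treesplit3_nb B l p r
  · left
    rw [e2] at hD
    refine ⟨z :: A, D, ?_, treesplit3_W.cons r z A hzp hA, hD⟩
    rw [e]
    rfl
  · have hrp : r = p := by
      by_contra hn
      apply hzp
      unfold treesplit3_nb
      rw [if_neg hn]
      exact hz
    subst hrp
    rw [treesplit3_nb_self] at hzp
    rcases treesplit3_firstbig hl1 hA with h1 | ⟨E, y, F, e1, i1, i2, i3, i4, i5⟩
    · left
      refine ⟨[], z :: G, rfl, treesplit3_W.nil _, ?_⟩
      have e3 : (r ^^ treesplit3_od []) = r := by simp [treesplit3_od]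
      rw [e3]
      refine treesplit3_W.cons r z G ?_ ?_
      · rw [treesplit3_nb_not']
        exact hz
      · rw [e]
        refine treesplit3_W_append.2 ⟨?_, hD⟩
        exact treesplit3_W_mono (fun s => treesplit3_sm_le hl _ s) h1
    · right
      refine ⟨rfl, by omega, E, y, F ++ D, ?_, i1, i2, i3, i4, F, D, rfl, i5, ?_⟩
      · rw [e, e1, List.append_assoc]
        rfl
      · have e3 : ((!r) ^^ treesplit3_od A) = (r ^^ treesplit3_od F) := by
          rw [e1, treesplit3_od_append, i2, treesplit3_od]
          cases r <;> cases treesplit3_od F <;> rfl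
        rw [e3] at hD
        exact hD

/-- the first switch -/
theorem treesplit3_firstsw {B : Bool → ℕ} {l : ℕ} (hl : ∀ s, l ≤ B s) (hl1 : 1 ≤ l) (p : Bool) :
    ∀ {T : List ℕ} {r : Bool}, treesplit3_W B r T → treesplit3_NoSw B l p r T ∨
      ∃ G x E y F, T = G ++ x :: (E ++ y :: F) ∧ treesplit3_NoSw B l p r G ∧
        (r ^^ treesplit3_od G) = p ∧ l ≤ x ∧ x ≤ B p ∧
        treesplit3_W (fun _ => l - 1) (!p) E ∧ treesplit3_od E = false ∧ l ≤ y ∧ y ≤ B (!p) ∧
        treesplit3_W B p F := by
  intro T
  induction T with
  | nil =>
    intro r _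
    exact Or.inl ⟨[], [], rfl, treesplit3_W.nil _, treesplit3_W.nil _⟩
  | cons z T ih =>
    intro r h
    cases h with
    | cons _ _ _ hz h =>
      rcases ih h with h1 | ⟨G, x, E, y, F, e, i1, i2, i3, i4, i5, i6, i7, i8, i9⟩
      · rcases treesplit3_cons hl hl1 hz h1 with h2 | ⟨hr, hz2, E, y, F, e, i1, i2, i3, i4, _⟩
        · exact Or.inl h2
        · subst hr
          right
          refine ⟨[], z, E, y, F, ?_, ⟨[], [], rfl, treesplit3_W.nil _, treesplit3_W.nil _⟩, ?_,
            hz2, hz, i1, i2, i3, i4, ?_⟩
          · rw [e]
            rfl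
          · simp [treesplit3_od]
          · rw [e] at h
            have h3 := (treesplit3_W_append.1 h).2
            rw [i2, Bool.xor_false] at h3
            cases h3 with
            | cons _ _ _ _ h3 =>
              rw [Bool.not_not] at h3
              exact h3
      · have e2 : ((!r) ^^ treesplit3_od G) = (r ^^ treesplit3_od (z :: G)) := by
          rw [treesplit3_od]
          cases r <;> cases treesplit3_od G <;> rfl
        rcases treesplit3_cons hl hl1 hz i1 with h2 |
          ⟨hr, hz2, E', y', F', e', j1, j2, j3, j4, _⟩
        · right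
          rw [e2] at i2
          refine ⟨z :: G, x, E, y, F, ?_, h2, i2, i3, i4, i5, i6, i7, i8, i9⟩
          rw [e]
          rfl
        · subst hr
          right
          refine ⟨[], z, E', y', F' ++ x :: (E ++ y :: F), ?_,
            ⟨[], [], rfl, treesplit3_W.nil _, treesplit3_W.nil _⟩, ?_, hz2, hz, j1, j2, j3, j4, ?_⟩
          · rw [e, e', List.append_assoc]
            rfl
          · simp [treesplit3_od]
          · have e5 : T = E' ++ y' :: (F' ++ x :: (E ++ y :: F)) := by
              rw [e, e', List.append_assoc]
              rfl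
            rw [e5] at h
            have h3 := (treesplit3_W_append.1 h).2
            rw [j2, Bool.xor_false] at h3
            cases h3 with
            | cons _ _ _ _ h3 =>
              rw [Bool.not_not] at h3
              exact h3

/-- the last switch -/
theorem treesplit3_lastsw {B : Bool → ℕ} {l : ℕ} (hl : ∀ s, l ≤ B s) (hl1 : 1 ≤ l) (p : Bool) :
    ∀ {T : List ℕ} {r : Bool}, treesplit3_W B r T → treesplit3_NoSw B l p r T ∨
      ∃ G x E y F, T = G ++ x :: (E ++ y :: F) ∧ treesplit3_W B r G ∧
        (r ^^ treesplit3_od G) = p ∧ l ≤ x ∧ x ≤ B p ∧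
        treesplit3_W (fun _ => l - 1) (!p) E ∧ treesplit3_od E = false ∧ l ≤ y ∧ y ≤ B (!p) ∧
        treesplit3_NoSw B l p p F := by
  intro T
  induction T with
  | nil =>
    intro r _
    exact Or.inl ⟨[], [], rfl, treesplit3_W.nil _, treesplit3_W.nil _⟩
  | cons z T ih =>
    intro r h
    cases h with
    | cons _ _ _ hz h =>
      rcases ih h with h1 | ⟨G, x, E, y, F, e, i1, i2, i3, i4, i5, i6, i7, i8, i9⟩
      · rcases treesplit3_cons hl hl1 hz h1 with h2 | ⟨hr, hz2, E, y, F, e, i1, i2, i3, i4, i5⟩
        · exact Or.inl h2
        · subst hr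
          right
          refine ⟨[], z, E, y, F, ?_, treesplit3_W.nil _, ?_, hz2, hz, i1, i2, i3, i4, i5⟩
          · rw [e]
            rfl
          · simp [treesplit3_od]
      · right
        have e2 : ((!r) ^^ treesplit3_od G) = (r ^^ treesplit3_od (z :: G)) := by
          rw [treesplit3_od]
          cases r <;> cases treesplit3_od G <;> rfl
        rw [e2] at i2
        refine ⟨z :: G, x, E, y, F, ?_, treesplit3_W.cons r z G hz i1, i2, i3, i4, i5, i6, i7, i8,
          i9⟩
        rw [e]
        rfl

theorem treesplit3_mem_pairs {l m n x y : ℕ} (hx0 : l ≤ x) (hx : x ≤ m) (hy0 : l ≤ y)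
    (hy : y ≤ n) : (x, y) ∈ pairs l m n := by
  unfold pairs
  simp only [List.mem_flatMap, List.mem_map, List.mem_range]
  refine ⟨x - l, by omega, y - l, by omega, ?_⟩
  rw [Nat.add_sub_cancel' hx0, Nat.add_sub_cancel' hy0]

theorem treesplit3_nb_false (b0 b1 l : ℕ) :
    treesplit3_nb (treesplit3_bd b0 b1) l false = treesplit3_bd (l - 1) b1 := by
  funext s
  cases s <;> simp [treesplit3_nb, treesplit3_bd]

theorem treesplit3_nb_true (b0 b1 l : ℕ) :
    treesplit3_nb (treesplit3_bd b0 b1) l true = treesplit3_bd b0 (l - 1) := by
  funext s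
  cases s <;> simp [treesplit3_nb, treesplit3_bd]

theorem treesplit3_sm_eq (l : ℕ) : (fun _ : Bool => l - 1) = treesplit3_bd (l - 1) (l - 1) := by
  funext s
  cases s <;> simp [treesplit3_bd]

theorem treesplit3_repl {q o : Bool} {b0 b1 ty : ℕ} {l : List (List Cell)}
    (h : repl q o b0 b1 ty = some l) {T : List ℕ}
    (hT : treesplit3_W (treesplit3_bd b0 b1) false T) (ho : treesplit3_od T = o) :
    ∃ cs ∈ l, Inst q cs T := by
  suffices hs : ∃ cs ∈ l, Inst (q ^^ false) cs T by
    rw [Bool.xor_false] at hs
    exact hs
  match ty, h with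
  | 0, h =>
    simp only [repl, Option.some.injEq] at h
    subst h
    cases hT with
    | nil =>
      have ho' : o = false := by rw [← ho]; rfl
      subst ho'
      exact ⟨[], by simp, Inst.nil _⟩
    | cons _ x T hx hT =>
      refine ⟨[Cell.L x, mkS q (!o) b0 b1], ?_, ?_⟩
      · refine List.mem_append_right _ (List.mem_map.2 ⟨x, List.mem_range.2 ?_, rfl⟩)
        simp only [treesplit3_bd, Bool.false_eq_true, if_false] at hx
        omega
      · refine treesplit3_letter (treesplit3_cell1 hT ?_)
        rw [← ho, treesplit3_od, Bool.not_not]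
  | 1, h =>
    simp only [repl, Option.some.injEq] at h
    subst h
    rcases List.eq_nil_or_concat T with h0 | ⟨T', x, h0⟩
    · subst h0
      have ho' : o = false := by rw [← ho]; rfl
      subst ho'
      exact ⟨[], by simp, Inst.nil _⟩
    · rw [List.concat_eq_append] at h0
      subst h0
      obtain ⟨h1, h2⟩ := treesplit3_W_append.1 hT
      have ho' : treesplit3_od T' = !o := by
        rw [← ho, treesplit3_od_append]
        have e1 : treesplit3_od [x] = true := rfl
        rw [e1]
        cases treesplit3_od T' <;> rfl
      refine ⟨[mkS q (!o) b0 b1, Cell.L x], ?_, ?_⟩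
      · refine List.mem_append_right _ (List.mem_map.2 ⟨x, List.mem_range.2 ?_, rfl⟩)
        rw [ho'] at h2
        cases h2 with
        | cons _ _ _ hx _ =>
          cases o
          · simp [treesplit3_bd] at hx ⊢
            omega
          · simp [treesplit3_bd] at hx ⊢
            omega
      · exact treesplit3_cell h1 ho' rfl (treesplit3_letter (Inst.nil _))
  | 2, h =>
    simp only [repl] at h
    split_ifs at h with hb
    simp only [Option.some.injEq] at h
    subst h
    rcases treesplit3_first (C := treesplit3_bd (b0 - 1) b1) (fun s x => s = false ∧ x = b0)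
      (fun s x hx hn => by
        cases s <;> simp [treesplit3_bd] at hx hn ⊢ <;> omega) hT with
      h1 | ⟨T1, x, T2, e, i1, i2, i3, i4⟩
    · exact ⟨_, List.mem_cons_self, treesplit3_cell1 h1 ho⟩
    · obtain ⟨j1, rfl⟩ := i2
      rw [Bool.false_xor] at j1
      subst e
      rw [treesplit3_od_append, treesplit3_od, j1] at ho
      rw [j1] at i4
      refine ⟨_, List.mem_cons_of_mem _ List.mem_cons_self, ?_⟩
      refine treesplit3_cell (r' := false) i1 j1 rfl (treesplit3_letter (treesplit3_cell1 i4 ?_))
      rw [← ho]
      cases treesplit3_od T2 <;> rfl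
  | 3, h =>
    simp only [repl] at h
    split_ifs at h with hb
    simp only [Option.some.injEq] at h
    subst h
    rcases treesplit3_last (C := treesplit3_bd (b0 - 1) b1) (fun s x => s = false ∧ x = b0)
      (fun s x hx hn => by
        cases s <;> simp [treesplit3_bd] at hx hn ⊢ <;> omega) hT with
      h1 | ⟨T1, x, T2, e, i1, i2, i3, i4⟩
    · exact ⟨_, List.mem_cons_self, treesplit3_cell1 h1 ho⟩
    · obtain ⟨j1, rfl⟩ := i2
      rw [Bool.false_xor] at j1
      subst e
      rw [treesplit3_od_append, treesplit3_od, j1] at ho
      rw [j1] at i4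
      refine ⟨_, List.mem_cons_of_mem _ List.mem_cons_self, ?_⟩
      refine treesplit3_cell (r' := false) i1 j1 rfl (treesplit3_letter (treesplit3_cell1 i4 ?_))
      rw [← ho]
      cases treesplit3_od T2 <;> rfl
  | 4, h =>
    simp only [repl] at h
    split_ifs at h with hb
    simp only [Option.some.injEq] at h
    subst h
    rcases treesplit3_first (C := treesplit3_bd b0 (b1 - 1)) (fun s x => s = true ∧ x = b1)
      (fun s x hx hn => by
        cases s <;> simp [treesplit3_bd] at hx hn ⊢ <;> omega) hT with
      h1 | ⟨T1, x, T2, e, i1, i2, i3, i4⟩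
    · exact ⟨_, List.mem_cons_self, treesplit3_cell1 h1 ho⟩
    · obtain ⟨j1, rfl⟩ := i2
      rw [Bool.false_xor] at j1
      subst e
      rw [treesplit3_od_append, treesplit3_od, j1] at ho
      rw [j1] at i4
      refine ⟨_, List.mem_cons_of_mem _ List.mem_cons_self, ?_⟩
      refine treesplit3_cell (r' := true) i1 j1 rfl (treesplit3_letter (treesplit3_cell1 i4 ?_))
      rw [← ho]
      cases treesplit3_od T2 <;> rfl
  | 5, h =>
    simp only [repl] at h
    split_ifs at h with hb
    simp only [Option.some.injEq] at h
    subst h
    rcases treesplit3_last (C := treesplit3_bd b0 (b1 - 1)) (fun s x => s = true ∧ x = b1)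
      (fun s x hx hn => by
        cases s <;> simp [treesplit3_bd] at hx hn ⊢ <;> omega) hT with
      h1 | ⟨T1, x, T2, e, i1, i2, i3, i4⟩
    · exact ⟨_, List.mem_cons_self, treesplit3_cell1 h1 ho⟩
    · obtain ⟨j1, rfl⟩ := i2
      rw [Bool.false_xor] at j1
      subst e
      rw [treesplit3_od_append, treesplit3_od, j1] at ho
      rw [j1] at i4
      refine ⟨_, List.mem_cons_of_mem _ List.mem_cons_self, ?_⟩
      refine treesplit3_cell (r' := true) i1 j1 rfl (treesplit3_letter (treesplit3_cell1 i4 ?_))
      rw [← ho]
      cases treesplit3_od T2 <;> rfl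
  | 6, h =>
    simp only [repl] at h
    split_ifs at h with hb
    simp only [Option.some.injEq] at h
    push Not at hb
    obtain ⟨hb0, hb1⟩ := hb
    subst h
    subst hb1
    rcases treesplit3_first (C := treesplit3_bd (b0 - 1) (b0 - 1)) (fun _ x => x = b0)
      (fun s x hx hn => by
        cases s <;> simp [treesplit3_bd] at hx hn ⊢ <;> omega) hT with
      h1 | ⟨T1, x, T2, e, i1, i2, i3, i4⟩
    · exact ⟨_, List.mem_cons_self, treesplit3_cell1 h1 ho⟩
    · subst i2
      subst e
      rw [treesplit3_od_append, treesplit3_od] at ho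
      rw [Bool.false_xor] at i4
      cases j1 : treesplit3_od T1 with
      | false =>
        rw [j1] at i4 ho
        refine ⟨_, List.mem_cons_of_mem _ List.mem_cons_self, ?_⟩
        refine treesplit3_cell (r' := false) i1 j1 rfl (treesplit3_letter (treesplit3_cell1 i4 ?_))
        rw [← ho]
        cases treesplit3_od T2 <;> rfl
      | true =>
        rw [j1] at i4 ho
        refine ⟨_, List.mem_cons_of_mem _ (List.mem_cons_of_mem _ List.mem_cons_self), ?_⟩
        refine treesplit3_cell (r' := true) i1 j1 rfl (treesplit3_letter (treesplit3_cell1 i4 ?_))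
        rw [← ho]
        cases treesplit3_od T2 <;> rfl
  | 7, h =>
    simp only [repl] at h
    split_ifs at h with hb
    simp only [Option.some.injEq] at h
    push Not at hb
    obtain ⟨hb0, hb1⟩ := hb
    subst h
    subst hb1
    rcases treesplit3_last (C := treesplit3_bd (b0 - 1) (b0 - 1)) (fun _ x => x = b0)
      (fun s x hx hn => by
        cases s <;> simp [treesplit3_bd] at hx hn ⊢ <;> omega) hT with
      h1 | ⟨T1, x, T2, e, i1, i2, i3, i4⟩
    · exact ⟨_, List.mem_cons_self, treesplit3_cell1 h1 ho⟩
    · subst i2
      subst e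
      rw [treesplit3_od_append, treesplit3_od] at ho
      rw [Bool.false_xor] at i4
      cases j1 : treesplit3_od T1 with
      | false =>
        rw [j1] at i4 ho
        refine ⟨_, List.mem_cons_of_mem _ List.mem_cons_self, ?_⟩
        refine treesplit3_cell (r' := false) i1 j1 rfl (treesplit3_letter (treesplit3_cell1 i4 ?_))
        rw [← ho]
        cases treesplit3_od T2 <;> rfl
      | true =>
        rw [j1] at i4 ho
        refine ⟨_, List.mem_cons_of_mem _ (List.mem_cons_of_mem _ List.mem_cons_self), ?_⟩
        refine treesplit3_cell (r' := true) i1 j1 rfl (treesplit3_letter (treesplit3_cell1 i4 ?_))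
        rw [← ho]
        cases treesplit3_od T2 <;> rfl
  | ty + 8, h =>
    simp only [repl] at h
    by_cases hb : b0 < ty / 4 + 1 ∨ b1 < ty / 4 + 1 ∨ 8 ≤ ty
    · rw [if_pos hb] at h
      simp at h
    rw [if_neg hb] at h
    push Not at hb
    obtain ⟨hb0, hb1, -⟩ := hb
    obtain ⟨m, hm⟩ : ∃ m, m = ty / 4 + 1 := ⟨_, rfl⟩
    have hm1 : 1 ≤ m := by omega
    rw [← hm] at hb0 hb1 h
    have hl : ∀ s, m ≤ treesplit3_bd b0 b1 s := by
      intro s
      cases s <;> simp [treesplit3_bd] <;> omega
    have hB0 : treesplit3_bd b0 b1 false = b0 := rfl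
    have hB1 : treesplit3_bd b0 b1 true = b1 := rfl
    have hcases : ty % 4 = 0 ∨ ty % 4 = 1 ∨ ty % 4 = 2 ∨ ty % 4 = 3 := by omega
    rcases hcases with h4 | h4 | h4 | h4 <;> rw [h4] at h <;>
      simp only [Option.some.injEq] at h <;> subst h
    · rcases treesplit3_firstsw hl hm1 false hT with
        h1 | ⟨G, x, E, y, F, e, i1, i2, i3, i4, i5, i6, i7, i8, i9⟩
      · rcases treesplit3_fix hl h1 with ⟨h2, -⟩ | ⟨A, D, e, j1, j2, j3⟩
        · simp at h2
        · subst e
          rw [Bool.false_xor] at j2
          rw [treesplit3_nb_false] at j1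
          rw [Bool.not_false, treesplit3_nb_true] at j3
          refine ⟨_, List.mem_cons_self, ?_⟩
          refine treesplit3_cell (r' := false) j1 j2 rfl (treesplit3_cell1 j3 ?_)
          rw [← ho, treesplit3_od_append, j2, Bool.false_xor]
      · rw [Bool.false_xor] at i2
        rw [Bool.not_false, treesplit3_sm_eq] at i5
        rw [Bool.not_false] at i8
        rcases treesplit3_fix hl i1 with ⟨h2, -⟩ | ⟨A, D, e', j1, j2, j3⟩
        · simp at h2
        · rw [Bool.false_xor] at j2
          rw [treesplit3_nb_false] at j1
          rw [Bool.not_false, treesplit3_nb_true] at j3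
          have j4 : treesplit3_od D = false := by
            rw [e', treesplit3_od_append, j2, Bool.false_xor] at i2
            exact i2
          rw [hB0] at i4
          rw [hB1] at i8
          refine ⟨_, List.mem_cons_of_mem _ (List.mem_map.2 ⟨(x, y),
            treesplit3_mem_pairs i3 i4 i7 i8, rfl⟩), ?_⟩
          rw [e, e', List.append_assoc]
          refine treesplit3_cell (r' := false) j1 j2 rfl (treesplit3_cell (r' := false) j3 j4 rfl
            (treesplit3_letter (treesplit3_cell (r' := true) i5 i6 rfl
              (treesplit3_letter (treesplit3_cell1 i9 ?_)))))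
          rw [← ho, e, treesplit3_od_append, i2, treesplit3_od, treesplit3_od_append, i6,
            treesplit3_od]
          cases treesplit3_od F <;> rfl
    · rcases treesplit3_lastsw hl hm1 false hT with
        h1 | ⟨G, x, E, y, F, e, i1, i2, i3, i4, i5, i6, i7, i8, i9⟩
      · rcases treesplit3_fix hl h1 with ⟨h2, -⟩ | ⟨A, D, e, j1, j2, j3⟩
        · simp at h2
        · subst e
          rw [Bool.false_xor] at j2
          rw [treesplit3_nb_false] at j1
          rw [Bool.not_false, treesplit3_nb_true] at j3
          refine ⟨_, List.mem_cons_self, ?_⟩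
          refine treesplit3_cell (r' := false) j1 j2 rfl (treesplit3_cell1 j3 ?_)
          rw [← ho, treesplit3_od_append, j2, Bool.false_xor]
      · rw [Bool.false_xor] at i2
        rw [Bool.not_false, treesplit3_sm_eq] at i5
        rw [Bool.not_false] at i8
        rcases treesplit3_fix hl i9 with ⟨h2, -⟩ | ⟨A, D, e', j1, j2, j3⟩
        · simp at h2
        · rw [Bool.false_xor] at j2
          rw [treesplit3_nb_false] at j1
          rw [Bool.not_false, treesplit3_nb_true] at j3
          rw [hB0] at i4
          rw [hB1] at i8
          refine ⟨_, List.mem_cons_of_mem _ (List.mem_map.2 ⟨(x, y),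
            treesplit3_mem_pairs i3 i4 i7 i8, rfl⟩), ?_⟩
          rw [e, e']
          refine treesplit3_cell (r' := false) i1 i2 rfl (treesplit3_letter
            (treesplit3_cell (r' := true) i5 i6 rfl
              (treesplit3_letter (treesplit3_cell (r' := false) j1 j2 rfl
                (treesplit3_cell1 j3 ?_)))))
          rw [← ho, e, treesplit3_od_append, i2, treesplit3_od, treesplit3_od_append, i6,
            treesplit3_od, e', treesplit3_od_append, j2]
          cases treesplit3_od D <;> rfl
    · rcases treesplit3_firstsw hl hm1 true hT with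
        h1 | ⟨G, x, E, y, F, e, i1, i2, i3, i4, i5, i6, i7, i8, i9⟩
      · rcases treesplit3_fix hl h1 with ⟨-, h2⟩ | ⟨A, D, e, j1, j2, j3⟩
        · subst h2
          have ho' : o = false := by rw [← ho]; rfl
          subst ho'
          exact ⟨[], by simp, Inst.nil _⟩
        · subst e
          rw [Bool.false_xor] at j2
          rw [treesplit3_nb_true] at j1
          rw [Bool.not_true, treesplit3_nb_false] at j3
          rw [treesplit3_od_append, j2] at ho
          cases o with
          | true =>
            refine ⟨[mkS q true b0 (m - 1), mkS q false (m - 1) b1], by simp, ?_⟩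
            refine treesplit3_cell (r' := true) j1 j2 rfl (treesplit3_cell1 j3 ?_)
            revert ho
            cases treesplit3_od D <;> simp
          | false =>
            refine ⟨[mkS q true b0 (m - 1), mkS q true (m - 1) b1], by simp, ?_⟩
            refine treesplit3_cell (r' := true) j1 j2 rfl (treesplit3_cell1 j3 ?_)
            revert ho
            cases treesplit3_od D <;> simp
      · rw [Bool.false_xor] at i2
        rw [Bool.not_true, treesplit3_sm_eq] at i5
        rw [Bool.not_true] at i8
        rcases treesplit3_fix hl i1 with ⟨-, h2⟩ | ⟨A, D, e', j1, j2, j3⟩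
        · rw [h2] at i2
          simp [treesplit3_od] at i2
        · rw [Bool.false_xor] at j2
          rw [treesplit3_nb_true] at j1
          rw [Bool.not_true, treesplit3_nb_false] at j3
          have j4 : treesplit3_od D = false := by
            rw [e', treesplit3_od_append, j2] at i2
            revert i2
            cases treesplit3_od D <;> simp
          rw [hB1] at i4
          rw [hB0] at i8
          refine ⟨_, List.mem_append_right _ (List.mem_map.2 ⟨(x, y),
            treesplit3_mem_pairs i3 i4 i7 i8, rfl⟩), ?_⟩
          rw [e, e', List.append_assoc]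
          refine treesplit3_cell (r' := true) j1 j2 rfl (treesplit3_cell (r' := true) j3 j4 rfl
            (treesplit3_letter (treesplit3_cell (r' := false) i5 i6 rfl
              (treesplit3_letter (treesplit3_cell1 i9 ?_)))))
          rw [← ho, e, treesplit3_od_append, i2, treesplit3_od, treesplit3_od_append, i6,
            treesplit3_od]
          cases treesplit3_od F <;> rfl
    · rcases treesplit3_lastsw hl hm1 true hT with
        h1 | ⟨G, x, E, y, F, e, i1, i2, i3, i4, i5, i6, i7, i8, i9⟩
      · rcases treesplit3_fix hl h1 with ⟨-, h2⟩ | ⟨A, D, e, j1, j2, j3⟩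
        · subst h2
          have ho' : o = false := by rw [← ho]; rfl
          subst ho'
          exact ⟨[], by simp, Inst.nil _⟩
        · subst e
          rw [Bool.false_xor] at j2
          rw [treesplit3_nb_true] at j1
          rw [Bool.not_true, treesplit3_nb_false] at j3
          rw [treesplit3_od_append, j2] at ho
          cases o with
          | true =>
            refine ⟨[mkS q true b0 (m - 1), mkS q false (m - 1) b1], by simp, ?_⟩
            refine treesplit3_cell (r' := true) j1 j2 rfl (treesplit3_cell1 j3 ?_)
            revert ho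
            cases treesplit3_od D <;> simp
          | false =>
            refine ⟨[mkS q true b0 (m - 1), mkS q true (m - 1) b1], by simp, ?_⟩
            refine treesplit3_cell (r' := true) j1 j2 rfl (treesplit3_cell1 j3 ?_)
            revert ho
            cases treesplit3_od D <;> simp
      · rw [Bool.false_xor] at i2
        rw [Bool.not_true, treesplit3_sm_eq] at i5
        rw [Bool.not_true] at i8
        rcases treesplit3_fix hl i9 with ⟨h2, -⟩ | ⟨A, D, e', j1, j2, j3⟩
        · simp at h2
        · have j2' : treesplit3_od A = false := by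
            revert j2
            cases treesplit3_od A <;> simp
          rw [treesplit3_nb_true] at j1
          rw [Bool.not_true, treesplit3_nb_false] at j3
          rw [hB1] at i4
          rw [hB0] at i8
          refine ⟨_, List.mem_append_right _ (List.mem_map.2 ⟨(x, y),
            treesplit3_mem_pairs i3 i4 i7 i8, rfl⟩), ?_⟩
          rw [e, e']
          refine treesplit3_cell (r' := true) i1 i2 rfl (treesplit3_letter
            (treesplit3_cell (r' := false) i5 i6 rfl
              (treesplit3_letter (treesplit3_cell (r' := true) j1 j2' rfl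
                (treesplit3_cell1 j3 ?_)))))
          rw [← ho, e, treesplit3_od_append, i2, treesplit3_od, treesplit3_od_append, i6,
            treesplit3_od, e', treesplit3_od_append, j2']
          cases treesplit3_od D <;> rfl

/-- The case distinctions are exhaustive.

Proof.  As in `TreeSplit` (port it): induction on `p`; for the cell number `0` the word is
`T ++ W'` with `T` an instance of the cell and it suffices to show that `T` is an instance of one of
the lists of `repl`.  Let P be the first parity of `T` (indices `0, 2, ...` of `T`), Q the other one.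
Types 0/1: `T = []` or first/last letter.  Types 2, 3 (4, 5): if no P- (Q-) letter is maximal the
bound can be lowered; otherwise cut at the first/last maximal one (for P the part before it has even
length, for Q odd length).  Types 6, 7: the same with the first/last letter equal to `m = b0 = b1`
of any parity.  Types `8 + 4 (l - 1) + k`: call a letter big if it is `≥ l`.
`k = 0`, `k = 1`: a PQ-switch is a pair `i < j`, `i` even, `j` odd, letters `i`, `j` big, all
letters strictly between small (so their number `j - i - 1` is even).  (a) If there is no PQ-switch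
then no big P-letter is followed (anywhere) by a big Q-letter (otherwise take a big P index `i` and
the least... the last big P index before the first big Q index after it), so with `c` = the first
big P index (if any, else `c = |T|` if `|T|` is even and `c = |T| - 1` if odd): the letters before
`c` have no big P-letter and the letters from `c` on no big Q-letter; `c` is even: first list.
(b) Otherwise take the least (greatest) `i` of a PQ-switch `(i, j)`; `k = 0`: the part before `i`
has even length and no PQ-switch, so it splits as in (a), both parts of even length; `k = 1`: the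
part after `j` starts with parity P, has the length parity `o` and no PQ-switch.
`k = 2`, `k = 3`: the same for QP-switches (`i` odd, `j` even): (a) without a QP-switch: `T = []`,
or cut before the first big Q index `c` (odd; if there is none `c = |T|` if `|T|` is odd, `|T| - 1`
if even): before `c` no big Q-letter, from `c` on no big P-letter. (b) least `i`: the part before
`i` has odd length and no QP-switch: odd part without big Q, even part without big P; greatest `i`:
the part after `j` starts with the parity Q, has the length parity `!o` and no QP-switch: even part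
without big Q (cut before its first big Q index, which is at an even distance from `j + 1`), then a
part of parity `!o` without big P. -/
theorem children_sound {ty p : ℕ} {q : Bool} {cs : List Cell} {l : List (List Cell)}
    (h : children ty q p cs = some l) {W : List ℕ} (hW : Inst q cs W) : ∃ cs' ∈ l, Inst q cs' W := by
  induction cs generalizing p q l W with
  | nil => simp [children] at h
  | cons c cs ih =>
    match c, p, h with
    | Cell.L v, 0, h => simp [children] at h
    | Cell.S o i j, 0, h =>
      simp only [children, Option.map_eq_some_iff] at h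
      obtain ⟨l0, hl0, rfl⟩ := h
      cases hW with
      | stretch _ _ _ _ _ T W' hl h0 h1 hW' =>
        have hb : treesplit3_W (treesplit3_bd (if q then j else i) (if q then i else j)) false T :=
          treesplit3_W_of _ T false (by simpa [treesplit3_bd] using h0)
            (by simpa [treesplit3_bd] using h1)
        obtain ⟨cs', hcs', hI⟩ := treesplit3_repl hl0 hb (treesplit3_od_of hl)
        refine ⟨cs' ++ cs, List.mem_map.2 ⟨cs', hcs', rfl⟩, treesplit3_append hI ?_⟩
        rw [treesplit3_od_of hl]
        exact hW'
    | Cell.L v, p + 1, h =>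
      simp only [children, Option.map_eq_some_iff] at h
      obtain ⟨l0, hl0, rfl⟩ := h
      cases hW with
      | letter _ _ _ W' hW' =>
        obtain ⟨cs', hcs', hI⟩ := ih hl0 hW'
        exact ⟨Cell.L v :: cs', List.mem_map.2 ⟨cs', hcs', rfl⟩, Inst.letter q v cs' W' hI⟩
    | Cell.S o i j, p + 1, h =>
      simp only [children, Option.map_eq_some_iff] at h
      obtain ⟨l0, hl0, rfl⟩ := h
      cases hW with
      | stretch _ _ _ _ _ T W' hl h0 h1 hW' =>
        obtain ⟨cs', hcs', hI⟩ := ih hl0 hW'
        exact ⟨Cell.S o i j :: cs', List.mem_map.2 ⟨cs', hcs', rfl⟩,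
          Inst.stretch q o i j cs' T W' hl h0 h1 hI⟩

end Pool.Agent.H.MP_2e666d_lc.T3
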