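import Pool.Agent.H.MP_2e666d_lc.CutRun
import Pool.Agent.H.MP_2e666d_lc.TreeSplit3

/-! # Covers by concatenations of abstract words

A certificate shows that every instance `W` of the abstract word `cs0` is covered by patterns.
Left patterns are read from the beginning of the word; when a left pattern with the hub `h` is
finished, all right patterns which accept the hub `h` may start.  A right pattern is finished at the
end of the word.  (A single left pattern `[]` gives ordinary patterns.)  Every right pattern has a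
side (`0`, `1` or `2` = both) and a type; the word is accepted if for some type there are finished
right patterns of both sides.

Items: number of pattern, number of cell, parity in a stretch; sets of items are natural numbers
(bit masks), the item `(n, k, b)` is the bit `B * n + 2 * k + b`. -/

namespace Pool.Agent.H.MP_2e666d_lc.T3.Cov

open Pool.Agent.H.MP_2e666d_lc Pool.Agent.H.MP_2e666d_lc.T3

/-- a pattern -/
structure Pat where
  /-- left pattern -/
  left : Bool
  /-- parity of the position of the first letter -/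
  q : Bool
  cs : List Cell
  /-- hubs; the hub `h` is at a position of parity `h % 2` -/
  h : List ℕ
  side : ℕ
  ty : ℕ

/-- parity after a cell -/
def nxp (q : Bool) : Cell → Bool
  | Cell.L _ => !q
  | Cell.S o _ _ => q ^^ o

/-- mask of an abstract word -/
def bm (f : Bool → Cell → ℕ) : Bool → List Cell → ℕ
  | _, [] => 0
  | q, c :: cs => f q c + 4 * bm f (nxp q c) cs

def fL (x : ℕ) (_ : Bool) : Cell → ℕ
  | Cell.L v => if v = x then 1 else 0
  | Cell.S _ _ _ => 0

def fE (x : ℕ) (q : Bool) : Cell → ℕ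
  | Cell.L _ => 0
  | Cell.S _ i j => if x ≤ (if q then j else i) then 1 else 0

def fO (x : ℕ) (q : Bool) : Cell → ℕ
  | Cell.L _ => 0
  | Cell.S _ i j => if x ≤ (if q then i else j) then 2 else 0

def fZ (_ : Bool) : Cell → ℕ
  | Cell.L _ => 0
  | Cell.S o _ _ => if o then 0 else 1

def fY (_ : Bool) : Cell → ℕ
  | Cell.L _ => 0
  | Cell.S o _ _ => if o then 2 else 0

/-- mask of a list of patterns, blocks of `B` bits -/
def blk (B : ℕ) (f : Pat → ℕ) : List Pat → ℕ
  | [] => 0
  | p :: ps => f p + 2 ^ B * blk B f ps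

/-- masks -/
structure Mk where
  L : List ℕ
  E : List ℕ
  O : List ℕ
  Z : ℕ
  Y : ℕ
  /-- hubs: finished left patterns, first items of right patterns -/
  G : List (ℕ × ℕ)
  /-- types: finished right patterns of both sides -/
  A : List (ℕ × ℕ)
  deriving DecidableEq

def mks (B m nh nt : ℕ) (ps : List Pat) : Mk where
  L := (List.range m).map fun x => blk B (fun p => bm (fL x) p.q p.cs) ps
  E := (List.range m).map fun x => blk B (fun p => bm (fE x) p.q p.cs) ps
  O := (List.range m).map fun x => blk B (fun p => bm (fO x) p.q p.cs) ps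
  Z := blk B (fun p => bm fZ p.q p.cs) ps
  Y := blk B (fun p => bm fY p.q p.cs) ps
  G := (List.range nh).map fun h =>
    (blk B (fun p => if p.left && p.h.contains h then 2 ^ (2 * p.cs.length) else 0) ps,
      blk B (fun p => if !p.left && p.h.contains h then 1 else 0) ps)
  A := (List.range nt).map fun t =>
    (blk B (fun p => if !p.left && (p.ty == t && (p.side == 0 || p.side == 2)) then
        2 ^ (2 * p.cs.length) else 0) ps,
      blk B (fun p => if !p.left && (p.ty == t && (p.side == 1 || p.side == 2)) then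
        2 ^ (2 * p.cs.length) else 0) ps)

/-- first items -/
def mks0 (B : ℕ) (ps : List Pat) : ℕ := blk B (fun p => if p.left then 1 else 0) ps

/-- masks of the class -/
def mksC (m : ℕ) (cs : List Cell) : Mk where
  L := (List.range m).map fun x => bm (fL x) false cs
  E := (List.range m).map fun x => bm (fE x) false cs
  O := (List.range m).map fun x => bm (fO x) false cs
  Z := bm fZ false cs
  Y := bm fY false cs
  G := []
  A := []

/-- reading a letter -/
def stp (K : Mk) (x S : ℕ) : ℕ :=
  ((S &&& K.L.getD x 0) <<< 2) ||| ((S &&& K.E.getD x 0) <<< 1) ||| ((S &&& K.O.getD x 0) >>> 1)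

/-- leaving stretches -/
def eps (K : Mk) (S : ℕ) : ℕ := S ||| ((S &&& K.Z) <<< 2) ||| ((S &&& K.Y) <<< 1)

def epsn (K : Mk) : ℕ → ℕ → ℕ
  | 0, S => S
  | n + 1, S => epsn K n (eps K S)

/-- from left to right patterns -/
def hub (S : ℕ) : List (ℕ × ℕ) → ℕ → ℕ
  | [], T => T
  | p :: l, T => hub S l (if Nat.beq (S &&& p.1) 0 then T else T ||| p.2)

def clo (K : Mk) (r S : ℕ) : ℕ :=
  let S1 := epsn K r S
  epsn K r (hub S1 K.G S1)

/-- an entry of a certificate -/
structure Ent where
  /-- items of the class -/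
  C : ℕ
  /-- items of the patterns, as a list -/
  I : List ℕ
  /-- items of the patterns, as a mask -/
  M : ℕ
  /-- the next entries: for the letter `x` the bits `20 x, ..., 20 x + 19` contain the number of the
  next entry plus one -/
  nx : ℕ

/-- entries -/
inductive BT where
  | leaf
  | node (l : BT) (e : Ent) (r : BT)

def BT.get : BT → ℕ → Option Ent
  | BT.leaf, _ => none
  | BT.node l e r, n =>
      if n = 0 then some e else if n % 2 = 1 then l.get (n / 2) else r.get (n / 2 - 1)

def lab (e : Ent) : ℕ := e.I.foldl (fun M i => M ||| (1 <<< i)) e.M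

def sub (a b : ℕ) : Bool := Nat.beq (a &&& b) a

/-- the number of the next entry -/
def tgt (x nx : ℕ) : Option ℕ :=
  match (nx >>> (20 * x)) % 1048576 with
  | 0 => none
  | j + 1 => some j

/-- `T` contains the items of `e` -/
def okI (T : ℕ) (e : Ent) : Bool := sub e.M T && e.I.all fun i => Nat.testBit T i

def chkX (K KC : Mk) (r n : ℕ) (t : BT) (e : Ent) (S x : ℕ) : Bool :=
  let C' := stp KC x e.C
  Nat.beq C' 0 ||
    match tgt x e.nx with
    | none => false
    | some j =>
      match t.get j with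
      | none => false
      | some e' => decide (j < n) && sub C' e'.C && sub (eps KC e'.C) e'.C &&
          okI (clo K r (stp K x S)) e'

def chkE (K KC : Mk) (m r n fin : ℕ) (t : BT) (e : Ent) : Bool :=
  (!(Nat.testBit e.C fin) || K.A.any fun p => !(Nat.beq (lab e &&& p.1) 0) &&
    !(Nat.beq (lab e &&& p.2) 0)) &&
  (List.range m).all fun x => chkX K KC r n t e (lab e) x

/-- the entries with the numbers `i, ..., i + k - 1` are correct -/
def chkR (K KC : Mk) (m r n fin : ℕ) (t : BT) : ℕ → ℕ → Bool
  | 0, _ => true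
  | k + 1, i =>
      (match t.get i with
        | none => false
        | some e => chkE K KC m r n fin t e) && chkR K KC m r n fin t k (i + 1)

/-- the first entry -/
def chk0 (K KC : Mk) (r s0 : ℕ) (t : BT) : Bool :=
  match t.get 0 with
  | none => false
  | some e => Nat.testBit e.C 0 && sub (eps KC e.C) e.C && okI (clo K r s0) e

/-- well-formed patterns and bounds of the letters of the class -/
def wf (B m : ℕ) (ps : List Pat) (cs0 : List Cell) : Bool :=
  (decide (0 < B) && ps.all fun p => decide (2 * p.cs.length + 2 ≤ B) &&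
    (if p.left then !p.q && p.h.all fun h => (Nat.beq (h % 2) 1) == parAt false p.cs.length p.cs
      else p.h.all fun h => (Nat.beq (h % 2) 1) == p.q)) &&
  cs0.all fun c => match c with
    | Cell.L v => decide (v < m)
    | Cell.S _ i j => decide (i < m) && decide (j < m)

/-! ## Bits of the masks -/

theorem parAt_zero' (q : Bool) (cs : List Cell) : parAt q 0 cs = q := by
  cases cs <;> rfl

theorem parAt_succ' (q : Bool) (k : ℕ) (c : Cell) (cs : List Cell) :
    parAt q (k + 1) (c :: cs) = parAt (nxp q c) k cs := by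
  cases c <;> rfl

theorem bm_testBit {f : Bool → Cell → ℕ} (hf : ∀ q c, f q c < 4) :
    ∀ (cs : List Cell) (q : Bool) (r : ℕ), (bm f q cs).testBit r = true ↔
      ∃ c, cs[r / 2]? = some c ∧ (f (parAt q (r / 2) cs) c).testBit (r % 2) = true := by
  intro cs
  induction cs with
  | nil => intro q r; simp [bm]
  | cons c cs ih =>
    intro q r
    have h4 : f q c + 4 * bm f (nxp q c) cs = 2 ^ 2 * bm f (nxp q c) cs + f q c := by ring
    rw [bm, h4, Nat.testBit_two_pow_mul_add _ (hf q c)]
    split
    · next h =>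
      have h0 : r / 2 = 0 := by omega
      have h1 : r % 2 = r := by omega
      rw [h0, h1, parAt_zero']
      simp
    · next h =>
      rw [ih]
      obtain ⟨s, rfl⟩ : ∃ s, r = s + 2 := ⟨r - 2, by omega⟩
      have h0 : (s + 2 - 2) / 2 = s / 2 := by omega
      have h1 : (s + 2) / 2 = s / 2 + 1 := by omega
      have h2 : (s + 2 - 2) % 2 = s % 2 := by omega
      have h3 : (s + 2) % 2 = s % 2 := by omega
      rw [h0, h1, h2, h3, parAt_succ']
      simp

theorem bm_lt {f : Bool → Cell → ℕ} (hf : ∀ q c, f q c < 4) :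
    ∀ (cs : List Cell) (q : Bool), bm f q cs < 4 ^ cs.length := by
  intro cs
  induction cs with
  | nil => intro q; simp [bm]
  | cons c cs ih =>
    intro q
    have h1 := hf q c
    have h2 := ih (nxp q c)
    rw [bm, List.length_cons, pow_succ]
    omega

theorem fL_lt (x : ℕ) (q : Bool) (c : Cell) : fL x q c < 4 := by
  cases c <;> simp only [fL] <;> (repeat' split) <;> omega

theorem fE_lt (x : ℕ) (q : Bool) (c : Cell) : fE x q c < 4 := by
  cases c <;> simp only [fE] <;> (repeat' split) <;> omega

theorem fO_lt (x : ℕ) (q : Bool) (c : Cell) : fO x q c < 4 := by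
  cases c <;> simp only [fO] <;> (repeat' split) <;> omega

theorem fZ_lt (q : Bool) (c : Cell) : fZ q c < 4 := by
  cases c <;> simp only [fZ] <;> (repeat' split) <;> omega

theorem fY_lt (q : Bool) (c : Cell) : fY q c < 4 := by
  cases c <;> simp only [fY] <;> (repeat' split) <;> omega

theorem blk_testBit {B : ℕ} (hB : 0 < B) {f : Pat → ℕ} :
    ∀ (ps : List Pat), (∀ p ∈ ps, f p < 2 ^ B) → ∀ n, (blk B f ps).testBit n = true →
      ∃ p, ps[n / B]? = some p ∧ (f p).testBit (n % B) = true := by
  intro ps
  induction ps with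
  | nil => intro _ n h; simp [blk] at h
  | cons p ps ih =>
    intro hf n h
    rw [blk, Nat.add_comm, Nat.testBit_two_pow_mul_add _ (hf p (by simp))] at h
    split at h
    · next hn =>
      refine ⟨p, ?_, ?_⟩
      · rw [Nat.div_eq_of_lt hn]; simp
      · rw [Nat.mod_eq_of_lt hn]; exact h
    · next hn =>
      obtain ⟨a, h1, h2⟩ := ih (fun p hp => hf p (by simp [hp])) (n - B) h
      obtain ⟨s, rfl⟩ : ∃ s, n = s + B := ⟨n - B, by omega⟩
      rw [Nat.add_sub_cancel] at h1 h2
      refine ⟨a, ?_, ?_⟩
      · rw [Nat.add_div_right _ hB]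
        simpa using h1
      · rw [Nat.add_mod_right]
        exact h2

theorem pow_le_block {B : ℕ} {cs : List Cell} (h : 2 * cs.length + 2 ≤ B) :
    4 ^ cs.length ≤ 2 ^ B := by
  calc 4 ^ cs.length = 2 ^ (2 * cs.length) := by rw [pow_mul]; norm_num
    _ ≤ 2 ^ B := Nat.pow_le_pow_right (by norm_num) (by omega)

/-! ## Partial instances -/

abbrev od := treesplit3_od

/-- bounds of a stretch -/
def Wd (i j : ℕ) : Bool → List ℕ → Prop := treesplit3_W (treesplit3_bd i j)

/-- `V` is an instance of the first `k` cells and a part of parity `b` of the stretch `k` -/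
def Part (q : Bool) (cs : List Cell) (k : ℕ) (b : Bool) (V : List ℕ) : Prop :=
  ∃ V1 V2, V = V1 ++ V2 ∧ Inst q (cs.take k) V1 ∧ od V2 = b ∧
    (V2 = [] ∨ ∃ o i j, cs[k]? = some (Cell.S o i j) ∧ Wd i j (q ^^ od V1) V2)

theorem inst_par {q : Bool} {cs : List Cell} {V : List ℕ} (h : Inst q cs V) :
    parAt q cs.length cs = (q ^^ od V) := by
  induction h with
  | nil q => simp [parAt, od, treesplit3_od]
  | letter q v cs W _ ih =>
    rw [List.length_cons, parAt, ih]
    simp only [od, treesplit3_od]
    cases q <;> cases treesplit3_od W <;> rfl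
  | stretch q o i j cs T W hl _ _ _ ih =>
    rw [List.length_cons, parAt, ih]
    simp only [od, treesplit3_od_append, treesplit3_od_of hl]
    cases q <;> cases o <;> cases treesplit3_od W <;> rfl

theorem parAt_of_take {q : Bool} {cs : List Cell} {k : ℕ} {V : List ℕ} (hk : k ≤ cs.length)
    (h : Inst q (cs.take k) V) : parAt q k cs = (q ^^ od V) := by
  rw [← inst_par h, List.length_take, Nat.min_eq_left hk]
  conv_lhs => rw [← List.take_append_drop k cs]
  exact parAt_append q _ _ k (by rw [List.length_take, Nat.min_eq_left hk])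

theorem lt_of_get {α : Type*} {l : List α} {k : ℕ} {c : α} (h : l[k]? = some c) : k < l.length :=
  (List.getElem?_eq_some_iff.1 h).1

theorem take_succ_of {cs : List Cell} {k : ℕ} {c : Cell} (h : cs[k]? = some c) :
    cs.take (k + 1) = cs.take k ++ [c] := by
  rw [List.take_add_one, h]
  rfl

theorem Part.zero (q : Bool) (cs : List Cell) : Part q cs 0 false [] :=
  ⟨[], [], rfl, by simpa using Inst.nil q, rfl, Or.inl rfl⟩

theorem Part.letter {q : Bool} {cs : List Cell} {k x : ℕ} {V : List ℕ}
    (h : Part q cs k false V) (hc : cs[k]? = some (Cell.L x)) :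
    Part q cs (k + 1) false (V ++ [x]) := by
  obtain ⟨V1, V2, rfl, h1, _, h3⟩ := h
  have h4 : V2 = [] := by
    rcases h3 with h3 | ⟨o, i, j, h3, _⟩
    · exact h3
    · rw [hc] at h3; simp at h3
  subst h4
  refine ⟨V1 ++ [x], [], by simp, ?_, rfl, Or.inl rfl⟩
  rw [take_succ_of hc]
  exact treesplit3_append h1 (Inst.letter _ x [] [] (Inst.nil _))

theorem Wd_snoc {i j : ℕ} {r : Bool} {T : List ℕ} {x : ℕ} (h : Wd i j r T)
    (hx : x ≤ treesplit3_bd i j (r ^^ od T)) : Wd i j r (T ++ [x]) := by
  exact treesplit3_W_append.2 ⟨h, treesplit3_W.cons _ x [] hx (treesplit3_W.nil _)⟩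

theorem od_snoc (T : List ℕ) (x : ℕ) : od (T ++ [x]) = !od T := by
  simp only [od, treesplit3_od_append, treesplit3_od]
  cases treesplit3_od T <;> rfl

theorem Part.stretch {q o : Bool} {cs : List Cell} {k x i j : ℕ} {b : Bool} {V : List ℕ}
    (h : Part q cs k b V) (hc : cs[k]? = some (Cell.S o i j))
    (hx : x ≤ treesplit3_bd i j (parAt q k cs ^^ b)) : Part q cs k (!b) (V ++ [x]) := by
  obtain ⟨V1, V2, rfl, h1, h2, h3⟩ := h
  rw [parAt_of_take (lt_of_get hc).le h1] at hx
  refine ⟨V1, V2 ++ [x], by simp, h1, by rw [od_snoc, h2], Or.inr ⟨o, i, j, hc, ?_⟩⟩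
  refine Wd_snoc ?_ (by rw [h2]; exact hx)
  rcases h3 with h3 | ⟨o', i', j', h3, h4⟩
  · rw [h3]; exact treesplit3_W.nil _
  · rw [hc] at h3
    simp only [Option.some.injEq, Cell.S.injEq] at h3
    obtain ⟨-, rfl, rfl⟩ := h3
    exact h4

theorem Part.leave {q o : Bool} {cs : List Cell} {k i j : ℕ} {V : List ℕ}
    (h : Part q cs k o V) (hc : cs[k]? = some (Cell.S o i j)) : Part q cs (k + 1) false V := by
  obtain ⟨V1, V2, rfl, h1, h2, h3⟩ := h
  refine ⟨V1 ++ V2, [], by simp, ?_, rfl, Or.inl rfl⟩
  rw [take_succ_of hc]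
  refine treesplit3_append h1 ?_
  have hW : Wd i j (q ^^ od V1) V2 := by
    rcases h3 with h3 | ⟨o', i', j', h3, h4⟩
    · rw [h3]; exact treesplit3_W.nil _
    · rw [hc] at h3
      simp only [Option.some.injEq, Cell.S.injEq] at h3
      obtain ⟨-, rfl, rfl⟩ := h3
      exact h4
  obtain ⟨g0, g1⟩ := treesplit3_W_prop hW
  have hl : V2.length % 2 = (if o then 1 else 0) := by rw [treesplit3_od_eq]; rw [← h2]
  have := Inst.stretch (q ^^ od V1) o i j [] V2 [] hl ?_ ?_ (Inst.nil _)
  · simpa using this
  · intro k hk hk2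
    have := g0 k hk hk2
    simpa [treesplit3_bd] using this
  · intro k hk hk2
    have := g1 k hk hk2
    cases hq : (q ^^ od V1) <;> rw [hq] at this <;> simpa [treesplit3_bd] using this

theorem Part.finish {q : Bool} {cs : List Cell} {b : Bool} {V : List ℕ}
    (h : Part q cs cs.length b V) : Inst q cs V := by
  obtain ⟨V1, V2, rfl, h1, _, h3⟩ := h
  have h4 : V2 = [] := by
    rcases h3 with h3 | ⟨o, i, j, h3, _⟩
    · exact h3
    · simp at h3
  subst h4
  simpa using h1

/-! ## Items -/

/-- meaning of an item -/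
def ItP (ps : List Pat) (p : Pat) (k : ℕ) (b : Bool) (W : List ℕ) : Prop :=
  if p.left then Part false p.cs k b W else
    ∃ pl ∈ ps, pl.left = true ∧ ∃ h, h ∈ pl.h ∧ h ∈ p.h ∧ ∃ U V, W = U ++ V ∧
      Inst false pl.cs U ∧ p.q = od U ∧ Part p.q p.cs k b V

def Item (B : ℕ) (ps : List Pat) (n : ℕ) (W : List ℕ) : Prop :=
  ∃ p, ps[n / B]? = some p ∧ ItP ps p (n % B / 2) (decide (n % B % 2 = 1)) W

/-- all bits of `S` are correct items -/
def Sem (B : ℕ) (ps : List Pat) (S : ℕ) (W : List ℕ) : Prop :=
  ∀ n, S.testBit n = true → Item B ps n W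

theorem Sem.sub {B : ℕ} {ps : List Pat} {S T : ℕ} {W : List ℕ} (h : Sem B ps T W)
    (hs : ∀ n, S.testBit n = true → T.testBit n = true) : Sem B ps S W :=
  fun n hn => h n (hs n hn)

theorem Sem.lor {B : ℕ} {ps : List Pat} {S T : ℕ} {W : List ℕ} (h1 : Sem B ps S W)
    (h2 : Sem B ps T W) : Sem B ps (S ||| T) W := by
  intro n hn
  rw [Nat.testBit_lor, Bool.or_eq_true] at hn
  rcases hn with hn | hn
  · exact h1 n hn
  · exact h2 n hn

theorem ItP.map {ps : List Pat} {p : Pat} {k k' : ℕ} {b b' : Bool} {W : List ℕ} {X : List ℕ}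
    (hq : p.left = true → p.q = false) (h : ItP ps p k b W)
    (hf : ∀ V, Part p.q p.cs k b V → Part p.q p.cs k' b' (V ++ X)) : ItP ps p k' b' (W ++ X) := by
  unfold ItP at h ⊢
  by_cases hl : p.left = true
  · rw [if_pos hl] at h ⊢
    have := hf W
    rw [hq hl] at this
    exact this h
  · rw [if_neg hl] at h ⊢
    obtain ⟨pl, h1, h2, hh, h3, h4, U, V, rfl, h5, h6, h7⟩ := h
    exact ⟨pl, h1, h2, hh, h3, h4, U, V ++ X, by simp, h5, h6, hf V h7⟩

section

variable {B m : ℕ} {ps : List Pat} {cs0 : List Cell}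

theorem wf_B (h : wf B m ps cs0 = true) : 0 < B := by
  unfold wf at h
  simp only [Bool.and_eq_true, decide_eq_true_iff] at h
  exact h.1.1

theorem wf_len (h : wf B m ps cs0 = true) {p : Pat} (hp : p ∈ ps) : 2 * p.cs.length + 2 ≤ B := by
  unfold wf at h
  simp only [Bool.and_eq_true, decide_eq_true_iff, List.all_eq_true] at h
  exact (h.1.2 p hp).1

theorem wf_left (h : wf B m ps cs0 = true) {p : Pat} (hp : p ∈ ps) (hl : p.left = true) :
    p.q = false ∧ ∀ x ∈ p.h, Nat.beq (x % 2) 1 = parAt false p.cs.length p.cs := by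
  unfold wf at h
  simp only [Bool.and_eq_true, decide_eq_true_iff, List.all_eq_true] at h
  have h1 := (h.1.2 p hp).2
  rw [if_pos hl] at h1
  simp only [Bool.and_eq_true, List.all_eq_true, beq_iff_eq, Bool.not_eq_true'] at h1
  exact h1

theorem wf_right (h : wf B m ps cs0 = true) {p : Pat} (hp : p ∈ ps) (hl : p.left = false) :
    ∀ x ∈ p.h, Nat.beq (x % 2) 1 = p.q := by
  unfold wf at h
  simp only [Bool.and_eq_true, decide_eq_true_iff, List.all_eq_true] at h
  have h1 := (h.1.2 p hp).2
  rw [if_neg (by simp [hl])] at h1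
  simp only [List.all_eq_true, beq_iff_eq] at h1
  exact h1

theorem bm_lt' (h : wf B m ps cs0 = true) {f : Bool → Cell → ℕ} (hf : ∀ q c, f q c < 4) :
    ∀ p ∈ ps, bm f p.q p.cs < 2 ^ B := fun p hp =>
  (bm_lt hf p.cs p.q).trans_le (pow_le_block (wf_len h hp))

/-- a bit of a mask -/
theorem mask_bit (h : wf B m ps cs0 = true) {f : Bool → Cell → ℕ} (hf : ∀ q c, f q c < 4) {n : ℕ}
    (hn : (blk B (fun p => bm f p.q p.cs) ps).testBit n = true) :
    ∃ p, ps[n / B]? = some p ∧ ∃ c, p.cs[n % B / 2]? = some c ∧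
      (f (parAt p.q (n % B / 2) p.cs) c).testBit (n % B % 2) = true := by
  obtain ⟨p, h1, h2⟩ := blk_testBit (wf_B h) ps (bm_lt' h hf) n hn
  exact ⟨p, h1, (bm_testBit hf _ _ _).1 h2⟩

theorem getD_map_range {f : ℕ → ℕ} {m x n : ℕ}
    (h : (((List.range m).map f).getD x 0).testBit n = true) :
    (f x).testBit n = true := by
  rcases Nat.lt_or_ge x m with hx | hx
  · rw [List.getD_eq_getElem _ _ (by simpa using hx)] at h
    simpa using h
  · rw [List.getD_eq_default _ _ (by simpa using hx)] at h
    simp at h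

theorem mod_add {a B s : ℕ} (h : a % B + s < B) : (a + s) / B = a / B ∧ (a + s) % B = a % B + s := by
  have hB : 0 < B := by omega
  have h1 := Nat.div_add_mod a B
  have h2 : a + s = (a % B + s) + B * (a / B) := by omega
  constructor
  · rw [h2, Nat.add_mul_div_left _ _ hB, Nat.div_eq_of_lt h, Nat.zero_add]
  · rw [h2, Nat.add_mul_mod_self_left, Nat.mod_eq_of_lt h]

/-- moving an item forward by `s` bits -/
theorem Item.shl {n s : ℕ} {W X : List ℕ} {k' : ℕ} {b' : Bool} {p : Pat}
    (hwf : wf B m ps cs0 = true) (hp : ps[n / B]? = some p) (hi : Item B ps n W)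
    (hlt : n % B + s < B) (hk : (n % B + s) / 2 = k')
    (hb : decide ((n % B + s) % 2 = 1) = b')
    (hf : ∀ V, Part p.q p.cs (n % B / 2) (decide (n % B % 2 = 1)) V →
      Part p.q p.cs k' b' (V ++ X)) : Item B ps (n + s) (W ++ X) := by
  obtain ⟨p', hp', hI⟩ := hi
  rw [hp] at hp'
  simp only [Option.some.injEq] at hp'
  subst hp'
  obtain ⟨h1, h2⟩ := mod_add hlt
  refine ⟨p, by rw [h1, hp], ?_⟩
  rw [h2, hk, hb]
  exact hI.map (fun hl => (wf_left hwf (List.mem_of_getElem? hp) hl).1) hf

theorem mod_sub {a B s : ℕ} (hs : s ≤ a % B) (hB : 0 < B) :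
    (a - s) / B = a / B ∧ (a - s) % B = a % B - s := by
  have h1 := Nat.div_add_mod a B
  have h3 := Nat.mod_lt a hB
  have h2 : a - s = (a % B - s) + B * (a / B) := by omega
  have h : a % B - s < B := by omega
  constructor
  · rw [h2, Nat.add_mul_div_left _ _ hB, Nat.div_eq_of_lt h, Nat.zero_add]
  · rw [h2, Nat.add_mul_mod_self_left, Nat.mod_eq_of_lt h]

theorem Sem.stp (hwf : wf B m ps cs0 = true) {nh nt S x : ℕ} {W : List ℕ} (h : Sem B ps S W) :
    Sem B ps (stp (mks B m nh nt ps) x S) (W ++ [x]) := by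
  unfold Cov.stp
  refine Sem.lor (Sem.lor ?_ ?_) ?_
  · intro n hn
    rw [Nat.testBit_shiftLeft, Bool.and_eq_true, Nat.testBit_land, Bool.and_eq_true,
      decide_eq_true_iff] at hn
    obtain ⟨h1, h2, h3⟩ := hn
    obtain ⟨a, rfl⟩ : ∃ a, n = a + 2 := ⟨n - 2, by omega⟩
    rw [Nat.add_sub_cancel] at h2 h3
    obtain ⟨p, hp, c, hc, hb⟩ := mask_bit hwf (fL_lt x) (getD_map_range h3)
    have hlen := wf_len hwf (List.mem_of_getElem? hp)
    have hk := lt_of_get hc
    cases c with
    | S o i j => simp [fL] at hb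
    | L v =>
      have hb' : v = x ∧ a % B % 2 = 0 := by
        simp only [fL] at hb
        by_cases hv : v = x
        · rw [if_pos hv] at hb
          refine ⟨hv, ?_⟩
          rcases Nat.mod_two_eq_zero_or_one (a % B) with h0 | h0
          · exact h0
          · rw [h0] at hb; exact absurd hb (by decide)
        · rw [if_neg hv] at hb; simp at hb
      obtain ⟨rfl, hb0⟩ := hb'
      refine Item.shl hwf hp (h a h2) (by omega) (k' := a % B / 2 + 1) (b' := false) (by omega)
        (by rw [decide_eq_false_iff_not]; omega) ?_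
      intro V hV
      rw [hb0] at hV
      exact hV.letter hc
  · intro n hn
    rw [Nat.testBit_shiftLeft, Bool.and_eq_true, Nat.testBit_land, Bool.and_eq_true,
      decide_eq_true_iff] at hn
    obtain ⟨h1, h2, h3⟩ := hn
    obtain ⟨a, rfl⟩ : ∃ a, n = a + 1 := ⟨n - 1, by omega⟩
    rw [Nat.add_sub_cancel] at h2 h3
    obtain ⟨p, hp, c, hc, hb⟩ := mask_bit hwf (fE_lt x) (getD_map_range h3)
    have hlen := wf_len hwf (List.mem_of_getElem? hp)
    have hk := lt_of_get hc
    cases c with
    | L v => simp [fE] at hb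
    | S o i j =>
      have hb' : x ≤ (if parAt p.q (a % B / 2) p.cs then j else i) ∧ a % B % 2 = 0 := by
        simp only [fE] at hb
        by_cases hv : x ≤ (if parAt p.q (a % B / 2) p.cs then j else i)
        · rw [if_pos hv] at hb
          refine ⟨hv, ?_⟩
          rcases Nat.mod_two_eq_zero_or_one (a % B) with h0 | h0
          · exact h0
          · rw [h0] at hb; exact absurd hb (by decide)
        · rw [if_neg hv] at hb; simp at hb
      obtain ⟨hx, hb0⟩ := hb'
      refine Item.shl hwf hp (h a h2) (by omega) (k' := a % B / 2) (b' := true) (by omega)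
        (by rw [decide_eq_true_iff]; omega) ?_
      intro V hV
      rw [hb0] at hV
      refine hV.stretch (b := false) hc ?_
      simpa [treesplit3_bd] using hx
  · intro n hn
    rw [Nat.testBit_shiftRight, Nat.testBit_land, Bool.and_eq_true, Nat.add_comm] at hn
    obtain ⟨h2, h3⟩ := hn
    obtain ⟨p, hp, c, hc, hb⟩ := mask_bit hwf (fO_lt x) (getD_map_range h3)
    have hlen := wf_len hwf (List.mem_of_getElem? hp)
    have hk := lt_of_get hc
    cases c with
    | L v => simp [fO] at hb
    | S o i j =>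
      have hb' : x ≤ (if parAt p.q ((n + 1) % B / 2) p.cs then i else j) ∧
          (n + 1) % B % 2 = 1 := by
        simp only [fO] at hb
        by_cases hv : x ≤ (if parAt p.q ((n + 1) % B / 2) p.cs then i else j)
        · rw [if_pos hv] at hb
          refine ⟨hv, ?_⟩
          rcases Nat.mod_two_eq_zero_or_one ((n + 1) % B) with h0 | h0
          · rw [h0] at hb; exact absurd hb (by decide)
          · exact h0
        · rw [if_neg hv] at hb; simp at hb
      obtain ⟨hx, hb0⟩ := hb'
      have hB := wf_B hwf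
      obtain ⟨g1, g2⟩ := mod_sub (a := n + 1) (s := 1) (by omega) hB
      rw [Nat.add_sub_cancel] at g1 g2
      obtain ⟨p', hp', hI⟩ := h _ h2
      rw [hp] at hp'
      simp only [Option.some.injEq] at hp'
      subst hp'
      refine ⟨p, by rw [g1, hp], ?_⟩
      have e1 : n % B / 2 = (n + 1) % B / 2 := by omega
      have e2 : decide (n % B % 2 = 1) = false := by rw [decide_eq_false_iff_not]; omega
      rw [e1, e2]
      refine hI.map (fun hl => (wf_left hwf (List.mem_of_getElem? hp) hl).1) ?_
      intro V hV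
      rw [hb0] at hV
      refine hV.stretch (b := true) hc ?_
      cases hq : parAt p.q ((n + 1) % B / 2) p.cs <;> rw [hq] at hx <;>
        simpa [treesplit3_bd] using hx

theorem Sem.eps (hwf : wf B m ps cs0 = true) {nh nt S : ℕ} {W : List ℕ} (h : Sem B ps S W) :
    Sem B ps (eps (mks B m nh nt ps) S) W := by
  unfold Cov.eps
  refine Sem.lor (Sem.lor h ?_) ?_
  · intro n hn
    rw [Nat.testBit_shiftLeft, Bool.and_eq_true, Nat.testBit_land, Bool.and_eq_true,
      decide_eq_true_iff] at hn
    obtain ⟨h1, h2, h3⟩ := hn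
    obtain ⟨a, rfl⟩ : ∃ a, n = a + 2 := ⟨n - 2, by omega⟩
    rw [Nat.add_sub_cancel] at h2 h3
    obtain ⟨p, hp, c, hc, hb⟩ := mask_bit hwf fZ_lt h3
    have hlen := wf_len hwf (List.mem_of_getElem? hp)
    have hk := lt_of_get hc
    cases c with
    | L v => simp [fZ] at hb
    | S o i j =>
      have hb' : o = false ∧ a % B % 2 = 0 := by
        cases o
        · refine ⟨rfl, ?_⟩
          rcases Nat.mod_two_eq_zero_or_one (a % B) with h0 | h0
          · exact h0
          · rw [h0] at hb; simp only [fZ] at hb; exact absurd hb (by decide)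
        · simp [fZ] at hb
      obtain ⟨rfl, hb0⟩ := hb'
      have key := Item.shl (X := []) hwf hp (h a h2) (by omega) (k' := a % B / 2 + 1) (b' := false)
        (s := 2) (by omega) (by rw [decide_eq_false_iff_not]; omega) (fun V hV => by
          rw [hb0] at hV
          rw [List.append_nil]
          exact hV.leave hc)
      rwa [List.append_nil] at key
  · intro n hn
    rw [Nat.testBit_shiftLeft, Bool.and_eq_true, Nat.testBit_land, Bool.and_eq_true,
      decide_eq_true_iff] at hn
    obtain ⟨h1, h2, h3⟩ := hn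
    obtain ⟨a, rfl⟩ : ∃ a, n = a + 1 := ⟨n - 1, by omega⟩
    rw [Nat.add_sub_cancel] at h2 h3
    obtain ⟨p, hp, c, hc, hb⟩ := mask_bit hwf fY_lt h3
    have hlen := wf_len hwf (List.mem_of_getElem? hp)
    have hk := lt_of_get hc
    cases c with
    | L v => simp [fY] at hb
    | S o i j =>
      have hb' : o = true ∧ a % B % 2 = 1 := by
        cases o
        · simp [fY] at hb
        · refine ⟨rfl, ?_⟩
          rcases Nat.mod_two_eq_zero_or_one (a % B) with h0 | h0
          · rw [h0] at hb; simp only [fY] at hb; exact absurd hb (by decide)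
          · exact h0
      obtain ⟨rfl, hb0⟩ := hb'
      have key := Item.shl (X := []) hwf hp (h a h2) (by omega) (k' := a % B / 2 + 1) (b' := false)
        (s := 1) (by omega) (by rw [decide_eq_false_iff_not]; omega) (fun V hV => by
          rw [hb0] at hV
          rw [List.append_nil]
          exact hV.leave hc)
      rwa [List.append_nil] at key

theorem Sem.epsn (hwf : wf B m ps cs0 = true) {nh nt : ℕ} {W : List ℕ} : ∀ {r S : ℕ},
    Sem B ps S W → Sem B ps (epsn (mks B m nh nt ps) r S) W := by
  intro r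
  induction r with
  | zero => intro S h; exact h
  | succ r ih => intro S h; exact ih (h.eps hwf)

theorem ne_zero_bit {a b : ℕ} (h : Nat.beq (a &&& b) 0 = false) :
    ∃ n, a.testBit n = true ∧ b.testBit n = true := by
  have h0 : a &&& b ≠ 0 := by
    intro h1
    rw [h1] at h
    simp at h
  obtain ⟨n, hn⟩ := Nat.exists_testBit_of_ne_zero h0
  rw [Nat.testBit_land, Bool.and_eq_true] at hn
  exact ⟨n, hn⟩

theorem fin_bit (h : wf B m ps cs0 = true) {g : Pat → Bool} {n : ℕ}
    (hn : (blk B (fun p => if g p then 2 ^ (2 * p.cs.length) else 0) ps).testBit n = true) :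
    ∃ p, ps[n / B]? = some p ∧ g p = true ∧ n % B = 2 * p.cs.length := by
  obtain ⟨p, h1, h2⟩ := blk_testBit (wf_B h) ps (fun p hp => by
    split
    · exact Nat.pow_lt_pow_right (by norm_num) (by have := wf_len h hp; omega)
    · positivity) n hn
  refine ⟨p, h1, ?_⟩
  by_cases hg : g p = true
  · rw [if_pos hg, Nat.testBit_two_pow, decide_eq_true_iff] at h2
    exact ⟨hg, h2.symm⟩
  · rw [if_neg hg] at h2
    simp at h2

theorem start_bit (h : wf B m ps cs0 = true) {g : Pat → Bool} {n : ℕ}
    (hn : (blk B (fun p => if g p then 1 else 0) ps).testBit n = true) :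
    ∃ p, ps[n / B]? = some p ∧ g p = true ∧ n % B = 0 := by
  have hB := wf_B h
  obtain ⟨p, h1, h2⟩ := blk_testBit hB ps (fun p hp => by
    split
    · exact Nat.one_lt_two_pow (by omega)
    · positivity) n hn
  refine ⟨p, h1, ?_⟩
  by_cases hg : g p = true
  · rw [if_pos hg] at h2
    refine ⟨hg, ?_⟩
    rcases Nat.eq_zero_or_pos (n % B) with h0 | h0
    · exact h0
    · obtain ⟨s, hs⟩ : ∃ s, n % B = s + 1 := ⟨n % B - 1, by omega⟩
      rw [hs, Nat.testBit_succ] at h2
      simp at h2
  · rw [if_neg hg] at h2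
    simp at h2

theorem Sem.hub (hwf : wf B m ps cs0 = true) {S : ℕ} {W : List ℕ} (h : Sem B ps S W) :
    ∀ (l : List ℕ) (T : ℕ), Sem B ps T W → Sem B ps (hub S (l.map fun h =>
      (blk B (fun p => if p.left && p.h.contains h then 2 ^ (2 * p.cs.length) else 0) ps,
        blk B (fun p => if !p.left && p.h.contains h then 1 else 0) ps)) T) W := by
  intro l
  induction l with
  | nil => intro T hT; exact hT
  | cons x l ih =>
    intro T hT
    rw [List.map_cons, Cov.hub]
    refine ih _ ?_
    split
    · exact hT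
    · next hz =>
      refine hT.lor ?_
      obtain ⟨a, ha1, ha2⟩ := ne_zero_bit (Bool.eq_false_iff.2 hz)
      obtain ⟨pl, hpl, hg, hm⟩ := fin_bit hwf (g := fun p => p.left && p.h.contains x) ha2
      simp only [Bool.and_eq_true, List.contains_iff_mem] at hg
      obtain ⟨pl', hpl', hI⟩ := h a ha1
      rw [hpl] at hpl'
      simp only [Option.some.injEq] at hpl'
      subst hpl'
      have hk : a % B / 2 = pl.cs.length := by omega
      unfold ItP at hI
      rw [if_pos hg.1, hk] at hI
      have hInst := hI.finish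
      intro n hn
      obtain ⟨p, hp, hg2, hm2⟩ := start_bit hwf (g := fun p => !p.left && p.h.contains x) hn
      simp only [Bool.and_eq_true, List.contains_iff_mem, Bool.not_eq_true'] at hg2
      refine ⟨p, hp, ?_⟩
      have hk2 : n % B / 2 = 0 := by omega
      have hb2 : decide (n % B % 2 = 1) = false := by rw [decide_eq_false_iff_not]; omega
      rw [hk2, hb2]
      unfold ItP
      rw [if_neg (by simp [hg2.1])]
      refine ⟨pl, List.mem_of_getElem? hpl, hg.1, x, hg.2, hg2.2, W, [], by simp, hInst, ?_,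
        Part.zero _ _⟩
      have e1 := (wf_left hwf (List.mem_of_getElem? hpl) hg.1).2 x hg.2
      have e2 := wf_right hwf (List.mem_of_getElem? hp) hg2.1 x hg2.2
      rw [← e2, e1, inst_par hInst, Bool.false_xor]

theorem Sem.clo (hwf : wf B m ps cs0 = true) {nh nt r S : ℕ} {W : List ℕ} (h : Sem B ps S W) :
    Sem B ps (clo (mks B m nh nt ps) r S) W := by
  unfold Cov.clo
  exact ((h.epsn hwf).hub hwf _ _ (h.epsn hwf)).epsn hwf

theorem Sem.start (hwf : wf B m ps cs0 = true) : Sem B ps (mks0 B ps) [] := by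
  intro n hn
  obtain ⟨p, hp, hg, hm⟩ := start_bit hwf (g := fun p => p.left) hn
  refine ⟨p, hp, ?_⟩
  have hk2 : n % B / 2 = 0 := by omega
  have hb2 : decide (n % B % 2 = 1) = false := by rw [decide_eq_false_iff_not]; omega
  rw [hk2, hb2]
  unfold ItP
  rw [if_pos hg]
  exact Part.zero _ _

theorem bit_mod {n : ℕ} (h : n.testBit 0 = true) : n % 2 = 1 := by
  rw [Nat.testBit_zero, decide_eq_true_iff] at h
  exact h

theorem foldl_bit (n : ℕ) : ∀ (I : List ℕ) (M : ℕ),
    (I.foldl (fun M i => M ||| (1 <<< i)) M).testBit n = true ↔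
      M.testBit n = true ∨ n ∈ I := by
  intro I
  induction I with
  | nil => intro M; simp
  | cons i I ih =>
    intro M
    rw [List.foldl_cons, ih, Nat.testBit_lor, Bool.or_eq_true, Nat.shiftLeft_eq, Nat.one_mul,
      Nat.testBit_two_pow, decide_eq_true_iff, List.mem_cons]
    constructor
    · rintro ((h | h) | h)
      · exact Or.inl h
      · exact Or.inr (Or.inl h.symm)
      · exact Or.inr (Or.inr h)
    · rintro (h | h | h)
      · exact Or.inl (Or.inl h)
      · exact Or.inl (Or.inr h.symm)
      · exact Or.inr h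

theorem sub_bit {a b n : ℕ} (h : sub a b = true) (hn : a.testBit n = true) :
    b.testBit n = true := by
  unfold sub at h
  have h1 : a &&& b = a := Nat.eq_of_beq_eq_true h
  rw [← h1, Nat.testBit_land, Bool.and_eq_true] at hn
  exact hn.2

theorem lab_sub {T : ℕ} {e : Ent} (h : okI T e = true) (n : ℕ) (hn : (lab e).testBit n = true) :
    T.testBit n = true := by
  unfold okI at h
  rw [Bool.and_eq_true, List.all_eq_true] at h
  unfold lab at hn
  rw [foldl_bit] at hn
  rcases hn with hn | hn
  · exact sub_bit h.1 hn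
  · exact h.2 n hn

/-! ## The class -/

theorem mem_range_bound {m : ℕ} {g : ℕ → ℕ} {x : ℕ} (hx : x < m) :
    ((List.range m).map g).getD x 0 = g x := by
  rw [List.getD_eq_getElem _ _ (by simpa using hx)]
  simp

theorem wf_L (h : wf B m ps cs0 = true) {k v : ℕ} (hc : cs0[k]? = some (Cell.L v)) : v < m := by
  unfold wf at h
  rw [Bool.and_eq_true, List.all_eq_true] at h
  have := h.2 _ (List.mem_of_getElem? hc)
  simpa using this

theorem wf_S (h : wf B m ps cs0 = true) {k : ℕ} {o : Bool} {i j : ℕ}
    (hc : cs0[k]? = some (Cell.S o i j)) : i < m ∧ j < m := by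
  unfold wf at h
  rw [Bool.and_eq_true, List.all_eq_true] at h
  have := h.2 _ (List.mem_of_getElem? hc)
  simpa using this

theorem bmC {f : Bool → Cell → ℕ} (hf : ∀ q c, f q c < 4) {k b : ℕ} {c : Cell} (hb : b < 2)
    (hc : cs0[k]? = some c) (h : (f (parAt false k cs0) c).testBit b = true) :
    (bm f false cs0).testBit (2 * k + b) = true := by
  rw [bm_testBit hf]
  have h1 : (2 * k + b) / 2 = k := by omega
  have h2 : (2 * k + b) % 2 = b := by omega
  rw [h1, h2]
  exact ⟨c, hc, h⟩

theorem stp_L (hwf : wf B m ps cs0 = true) {k v S : ℕ} (hc : cs0[k]? = some (Cell.L v))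
    (hS : S.testBit (2 * k) = true) :
    (stp (mksC m cs0) v S).testBit (2 * (k + 1)) = true := by
  unfold Cov.stp
  rw [Nat.testBit_lor, Nat.testBit_lor, Nat.testBit_shiftLeft, Nat.testBit_land]
  have e1 : 2 * (k + 1) - 2 = 2 * k := by omega
  have e2 : decide (2 * (k + 1) ≥ 2) = true := by rw [decide_eq_true_iff]; omega
  have e3 : ((mksC m cs0).L.getD v 0).testBit (2 * k) = true := by
    unfold mksC
    rw [mem_range_bound (wf_L hwf hc)]
    exact bmC (fL_lt v) (b := 0) (by omega) hc (by simp [fL])
  rw [e1, e2, hS, e3]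
  rfl

theorem stp_E (hwf : wf B m ps cs0 = true) {k x S i j : ℕ} {o : Bool}
    (hc : cs0[k]? = some (Cell.S o i j)) (hS : S.testBit (2 * k) = true)
    (hx : x ≤ treesplit3_bd i j (parAt false k cs0)) :
    (stp (mksC m cs0) x S).testBit (2 * k + 1) = true := by
  have hm : x < m := by
    obtain ⟨h1, h2⟩ := wf_S hwf hc
    unfold treesplit3_bd at hx
    split at hx <;> omega
  unfold Cov.stp
  have e0 : ∀ a : ℕ, (a <<< 1).testBit (2 * k + 1) = (decide (2 * k + 1 ≥ 1) &&
      a.testBit (2 * k + 1 - 1)) := fun a => Nat.testBit_shiftLeft a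
  rw [Nat.testBit_lor, Nat.testBit_lor, e0, Nat.testBit_land]
  have e2 : decide (2 * k + 1 ≥ 1) = true := by rw [decide_eq_true_iff]; omega
  have e3 : ((mksC m cs0).E.getD x 0).testBit (2 * k) = true := by
    unfold mksC
    rw [mem_range_bound hm]
    refine bmC (fE_lt x) (b := 0) (by omega) hc ?_
    simp only [fE]
    rw [if_pos (by simpa [treesplit3_bd] using hx)]
    decide
  rw [Nat.add_sub_cancel, e2, hS, e3]
  simp

theorem stp_O (hwf : wf B m ps cs0 = true) {k x S i j : ℕ} {o : Bool}
    (hc : cs0[k]? = some (Cell.S o i j)) (hS : S.testBit (2 * k + 1) = true)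
    (hx : x ≤ treesplit3_bd i j (!(parAt false k cs0))) :
    (stp (mksC m cs0) x S).testBit (2 * k) = true := by
  have hm : x < m := by
    obtain ⟨h1, h2⟩ := wf_S hwf hc
    unfold treesplit3_bd at hx
    split at hx <;> omega
  unfold Cov.stp
  rw [Nat.testBit_lor, Nat.testBit_lor, Nat.testBit_shiftRight, Nat.testBit_land]
  have e3 : ((mksC m cs0).O.getD x 0).testBit (1 + 2 * k) = true := by
    unfold mksC
    rw [mem_range_bound hm, Nat.add_comm]
    refine bmC (fO_lt x) (b := 1) (by omega) hc ?_
    simp only [fO]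
    rw [if_pos (by
      unfold treesplit3_bd at hx
      cases hq : parAt false k cs0 <;> rw [hq] at hx <;> simpa using hx)]
    decide
  rw [Nat.add_comm] at hS
  rw [hS, e3]
  simp

theorem eps_Z {k S i j : ℕ} (hc : cs0[k]? = some (Cell.S false i j))
    (hS : S.testBit (2 * k) = true) : (eps (mksC m cs0) S).testBit (2 * (k + 1)) = true := by
  unfold Cov.eps
  rw [Nat.testBit_lor, Nat.testBit_lor, Nat.testBit_shiftLeft, Nat.testBit_land]
  have e1 : 2 * (k + 1) - 2 = 2 * k := by omega
  have e2 : decide (2 * (k + 1) ≥ 2) = true := by rw [decide_eq_true_iff]; omega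
  have e3 : (mksC m cs0).Z.testBit (2 * k) = true := by
    unfold mksC
    exact bmC fZ_lt (b := 0) (by omega) hc (by simp [fZ])
  rw [e1, e2, hS, e3]
  simp

theorem eps_Y {k S i j : ℕ} (hc : cs0[k]? = some (Cell.S true i j))
    (hS : S.testBit (2 * k + 1) = true) :
    (eps (mksC m cs0) S).testBit (2 * (k + 1)) = true := by
  unfold Cov.eps
  have e0 : ∀ a : ℕ, (a <<< 1).testBit (2 * (k + 1)) = (decide (2 * (k + 1) ≥ 1) &&
      a.testBit (2 * (k + 1) - 1)) := fun a => Nat.testBit_shiftLeft a
  rw [Nat.testBit_lor, e0, Nat.testBit_land]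
  have e1 : 2 * (k + 1) - 1 = 2 * k + 1 := by omega
  have e2 : decide (2 * (k + 1) ≥ 1) = true := by rw [decide_eq_true_iff]; omega
  have e3 : (mksC m cs0).Y.testBit (2 * k + 1) = true := by
    unfold mksC
    refine bmC fY_lt (b := 1) (by omega) hc ?_
    simp only [fY, if_true]
    decide
  rw [e1, e2, hS, e3]
  simp

/-! ## Soundness -/

theorem tgt_range {m x : ℕ} (hx : x < m) {g : ℕ → Bool} (h : ((List.range m).all g) = true) :
    g x = true := by
  rw [List.all_eq_true] at h
  exact h x (List.mem_range.2 hx)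

/-- reading a letter -/
theorem next_entry {K KC : Mk} {r n fin : ℕ} {t : BT} {nh nt : ℕ} (hwf : wf B m ps cs0 = true)
    (hK : K = mks B m nh nt ps) {e : Ent} (he : chkE K KC m r n fin t e = true)
    {x : ℕ} (hx : x < m) {s : ℕ} (hs : (stp KC x e.C).testBit s = true) {P : List ℕ}
    (hP : Sem B ps (lab e) P) :
    ∃ j e', j < n ∧ t.get j = some e' ∧ (∀ s, (stp KC x e.C).testBit s = true →
      e'.C.testBit s = true) ∧ sub (eps KC e'.C) e'.C = true ∧ Sem B ps (lab e') (P ++ [x]) := by
  unfold chkE at he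
  rw [Bool.and_eq_true] at he
  have h1 := tgt_range hx he.2
  unfold chkX at h1
  have h0 : Nat.beq (stp KC x e.C) 0 = false := by
    rw [Bool.eq_false_iff]
    intro h
    have := Nat.eq_of_beq_eq_true h
    rw [this] at hs
    simp at hs
  simp only at h1
  rw [h0, Bool.false_or] at h1
  split at h1
  · simp at h1
  · next j hj =>
    split at h1
    · simp at h1
    · next e' he' =>
      simp only [Bool.and_eq_true, decide_eq_true_iff] at h1
      obtain ⟨⟨⟨h2, h3⟩, h4⟩, h5⟩ := h1
      refine ⟨j, e', h2, he', fun s hs => sub_bit h3 hs, h4, ?_⟩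
      refine Sem.sub (T := clo K r (stp K x (lab e))) ?_ (fun n hn => lab_sub h5 n hn)
      rw [hK]
      exact (hP.stp hwf).clo hwf

/-- the word `W` has, for some type, patterns of both sides -/
def FinP (ps : List Pat) (p : Pat) (W : List ℕ) : Prop :=
  ∃ pl ∈ ps, pl.left = true ∧ ∃ h, h ∈ pl.h ∧ h ∈ p.h ∧ ∃ U V, W = U ++ V ∧
    Inst false pl.cs U ∧ p.q = od U ∧ Inst p.q p.cs V

/-- the word `W` is covered by a pattern with the type `ty` of the side `s` -/
def Acc (ps : List Pat) (ty s : ℕ) (W : List ℕ) : Prop :=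
  ∃ p ∈ ps, p.left = false ∧ p.ty = ty ∧ (p.side = s ∨ p.side = 2) ∧ FinP ps p W

theorem acc_of (hwf : wf B m ps cs0 = true) {S ty s : ℕ} {W : List ℕ} (h : Sem B ps S W)
    (hS : Nat.beq (S &&& blk B (fun p => if !p.left && (p.ty == ty && (p.side == s ||
      p.side == 2)) then 2 ^ (2 * p.cs.length) else 0) ps) 0 = false) : Acc ps ty s W := by
  obtain ⟨n, h1, h2⟩ := ne_zero_bit hS
  obtain ⟨p, hp, hg, hm⟩ := fin_bit hwf (g := fun p => !p.left && (p.ty == ty && (p.side == s ||
      p.side == 2))) h2
  simp only [Bool.and_eq_true, Bool.not_eq_true', beq_iff_eq, Bool.or_eq_true] at hg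
  obtain ⟨g1, g2, g3⟩ := hg
  obtain ⟨p', hp', hI⟩ := h n h1
  rw [hp] at hp'
  simp only [Option.some.injEq] at hp'
  subst hp'
  have hk : n % B / 2 = p.cs.length := by omega
  refine ⟨p, List.mem_of_getElem? hp, g1, g2, g3, ?_⟩
  unfold ItP at hI
  rw [if_neg (by simp [g1]), hk] at hI
  obtain ⟨pl, a1, a2, hh, a3, a4, U, V, rfl, a5, a6, a7⟩ := hI
  exact ⟨pl, a1, a2, hh, a3, a4, U, V, rfl, a5, a6, a7.finish⟩

/-- data of a correct certificate -/
structure Cert (B m nh nt r n : ℕ) (ps : List Pat) (cs0 : List Cell) (K KC : Mk) (t : BT) :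
    Prop where
  wf : wf B m ps cs0 = true
  hK : K = mks B m nh nt ps
  hKC : KC = mksC m cs0
  start : chk0 K KC r (mks0 B ps) t = true
  pos : 0 < n
  ent : ∀ i < n, ∀ e, t.get i = some e → chkE K KC m r n (2 * cs0.length) t e = true

theorem stretch_step {r n : ℕ} {K KC : Mk} {t : BT} {nh nt : ℕ}
    (H : Cert B m nh nt r n ps cs0 K KC t) {k i j : ℕ} {o : Bool}
    (hc : cs0[k]? = some (Cell.S o i j)) {rr : Bool} {T : List ℕ} (hT : Wd i j rr T) :
    ∀ (b : Bool) (e : Ent) (l : ℕ) (P : List ℕ), rr = (parAt false k cs0 ^^ b) → l < n →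
      t.get l = some e → sub (eps KC e.C) e.C = true →
      e.C.testBit (2 * k + (if b then 1 else 0)) = true → Sem B ps (lab e) P →
      ∃ l' e', l' < n ∧ t.get l' = some e' ∧ sub (eps KC e'.C) e'.C = true ∧
        e'.C.testBit (2 * k + (if (b ^^ od T) then 1 else 0)) = true ∧
        Sem B ps (lab e') (P ++ T) := by
  induction hT with
  | nil r =>
    intro b e l P _ hl he hs hb hP
    exact ⟨l, e, hl, he, hs, by simpa [od, treesplit3_od] using hb, by simpa using hP⟩
  | cons r x T hx _ ih =>
    intro b e l P hr hl he hs hb hP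
    have hE := H.ent l hl e he
    have hm : x < m := by
      obtain ⟨h1, h2⟩ := wf_S H.wf hc
      unfold treesplit3_bd at hx
      split at hx <;> omega
    have hst : (stp KC x e.C).testBit (2 * k + (if (!b) then 1 else 0)) = true := by
      rw [H.hKC]
      cases b
      · have := stp_E H.wf hc (by simpa using hb) (x := x) (by rw [hr] at hx; simpa using hx)
        simpa using this
      · have := stp_O H.wf hc (by simpa using hb) (x := x) (by rw [hr] at hx; simpa using hx)
        simpa using this
    obtain ⟨l', e', g1, g2, g3, g4, g5⟩ := next_entry H.wf H.hK hE hm hst hP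
    obtain ⟨l2, e2, f1, f2, f3, f4, f5⟩ := ih (!b) e' l' (P ++ [x])
      (by rw [hr]; cases parAt false k cs0 <;> cases b <;> rfl) g1 g2 g4 (g3 _ hst) g5
    refine ⟨l2, e2, f1, f2, f3, ?_, by simpa using f5⟩
    have : (b ^^ od (x :: T)) = ((!b) ^^ od T) := by
      simp only [od, treesplit3_od]
      cases b <;> cases treesplit3_od T <;> rfl
    rw [this]
    exact f4

theorem drop_get {k : ℕ} {c : Cell} {cs : List Cell} (h : cs0.drop k = c :: cs) :
    cs0[k]? = some c ∧ cs0.drop (k + 1) = cs := by
  constructor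
  · have : (cs0.drop k)[0]? = some c := by rw [h]; rfl
    simpa using this
  · rw [← List.drop_drop, h]
    rfl

theorem parAt_next {k : ℕ} {c : Cell} (h : cs0[k]? = some c) :
    parAt false (k + 1) cs0 = nxp (parAt false k cs0) c := by
  generalize false = q
  induction cs0 generalizing k q with
  | nil => simp at h
  | cons a cs ih =>
    cases k with
    | zero =>
      simp only [List.getElem?_cons_zero, Option.some.injEq] at h
      subst h
      rw [parAt_succ', parAt_zero', parAt_zero']
    | succ k =>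
      rw [parAt_succ', parAt_succ']
      exact ih (by simpa using h) _

theorem run {r n : ℕ} {K KC : Mk} {t : BT} {nh nt : ℕ} (H : Cert B m nh nt r n ps cs0 K KC t)
    {q : Bool} {cs : List Cell} {W : List ℕ} (hW : Inst q cs W) :
    ∀ (k : ℕ) (e : Ent) (l : ℕ) (P : List ℕ), cs0.drop k = cs → k ≤ cs0.length →
      q = parAt false k cs0 → l < n → t.get l = some e → sub (eps KC e.C) e.C = true →
      e.C.testBit (2 * k) = true → Sem B ps (lab e) P →
      ∃ ty, Acc ps ty 0 (P ++ W) ∧ Acc ps ty 1 (P ++ W) := by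
  induction hW with
  | nil q =>
    intro k e l P hd hk hq hl he hs hb hP
    have hk' : k = cs0.length := by
      have := congrArg List.length hd
      simp only [List.length_drop, List.length_nil] at this
      omega
    subst hk'
    have hE := H.ent l hl e he
    unfold chkE at hE
    rw [Bool.and_eq_true, hb, Bool.not_true, Bool.false_or, List.any_eq_true] at hE
    obtain ⟨⟨p, hp, hE⟩, -⟩ := hE
    rw [H.hK] at hp
    unfold mks at hp
    simp only [List.mem_map] at hp
    obtain ⟨ty, -, rfl⟩ := hp
    rw [Bool.and_eq_true] at hE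
    rw [List.append_nil]
    exact ⟨ty, acc_of H.wf hP (Bool.not_eq_eq_eq_not.mp hE.1),
      acc_of H.wf hP (Bool.not_eq_eq_eq_not.mp hE.2)⟩
  | letter q v cs W _ ih =>
    intro k e l P hd hk hq hl he hs hb hP
    obtain ⟨hc, hd'⟩ := drop_get hd
    have hE := H.ent l hl e he
    have hst : (stp KC v e.C).testBit (2 * (k + 1)) = true := by
      rw [H.hKC]
      exact stp_L H.wf hc hb
    obtain ⟨l', e', g1, g2, g3, g4, g5⟩ := next_entry H.wf H.hK hE (wf_L H.wf hc) hst hP
    have := ih (k + 1) e' l' (P ++ [v]) hd' (lt_of_get hc)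
      (by rw [parAt_next hc, ← hq]; rfl) g1 g2 g4 (g3 _ hst) g5
    simpa using this
  | stretch q o i j cs T W hl' h0 h1 _ ih =>
    intro k e l P hd hk hq hl he hs hb hP
    obtain ⟨hc, hd'⟩ := drop_get hd
    have hT : Wd i j q T := by
      refine treesplit3_W_of _ T q ?_ ?_
      · intro k hk hk2
        simpa [treesplit3_bd] using h0 k hk hk2
      · intro k hk hk2
        have := h1 k hk hk2
        cases q <;> simpa [treesplit3_bd] using this
    obtain ⟨l', e', g1, g2, g3, g4, g5⟩ := stretch_step H hc hT false e l P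
      (by rw [hq]; simp) hl he hs (by simpa using hb) hP
    have ho : od T = o := treesplit3_od_of hl'
    rw [ho] at g4
    have hb' : e'.C.testBit (2 * (k + 1)) = true := by
      refine sub_bit g3 ?_
      rw [H.hKC]
      cases o
      · exact eps_Z hc (by simpa using g4)
      · exact eps_Y hc (by simpa using g4)
    have := ih (k + 1) e' l' (P ++ T) hd' (lt_of_get hc)
      (by rw [parAt_next hc, ← hq]; rfl) g1 g2 g3 hb' g5
    simpa using this

/-- A correct certificate: every instance of `cs0` is covered. -/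
theorem Cert.cover {r n : ℕ} {K KC : Mk} {t : BT} {nh nt : ℕ}
    (H : Cert B m nh nt r n ps cs0 K KC t) {W : List ℕ} (hW : Inst false cs0 W) :
    ∃ ty, Acc ps ty 0 W ∧ Acc ps ty 1 W := by
  have h0 := H.start
  unfold chk0 at h0
  split at h0
  · simp at h0
  · next e he =>
    simp only [Bool.and_eq_true] at h0
    obtain ⟨⟨h1, h2⟩, h3⟩ := h0
    have := run H hW 0 e 0 [] (by simp) (by omega) (by rw [parAt_zero']) H.pos he h2
      (by simpa using h1) ?_
    · simpa using this
    · refine Sem.sub (T := clo K r (mks0 B ps)) ?_ (fun n hn => lab_sub h3 n hn)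
      rw [H.hK]
      exact (Sem.start H.wf).clo H.wf

theorem chkR_get {K KC : Mk} {m r n fin : ℕ} {t : BT} : ∀ {k i : ℕ},
    chkR K KC m r n fin t k i = true → ∀ l, i ≤ l → l < i + k → ∀ e, t.get l = some e →
      chkE K KC m r n fin t e = true := by
  intro k
  induction k with
  | zero => intro i _ l h1 h2; omega
  | succ k ih =>
    intro i h l h1 h2 e he
    rw [chkR, Bool.and_eq_true] at h
    rcases Nat.lt_or_ge i l with h3 | h3
    · exact ih h.2 l (by omega) (by omega) e he
    · have : l = i := by omega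
      subst this
      rw [he] at h
      exact h.1

end

/-- all stretches have bounds `≤ 4` -/
def sm4 (p : List Cell) : Bool := p.all fun c => match c with
  | Cell.L _ => true
  | Cell.S _ i j => decide (i ≤ 4) && decide (j ≤ 4)

theorem map_vl_eq {T : List ℕ} (h : ∀ x ∈ T, x ≤ 4) : T.map vl = T := by
  induction T with
  | nil => rfl
  | cons x T ih =>
    rw [List.map_cons, ih (fun y hy => h y (by simp [hy]))]
    have : vl x = x := by
      have := h x (by simp)
      unfold vl
      rw [if_neg (by omega)]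
    rw [this]

/-- instances of a pattern without marks come from instances of the pattern with marks -/
theorem lift_vlc : ∀ {p : List Cell} {q : Bool} {U : List ℕ}, sm4 p = true →
    Inst q (p.map vlc) U → ∃ H, Inst q p H ∧ H.map vl = U := by
  intro p
  induction p with
  | nil =>
    intro q U _ h
    cases h
    exact ⟨[], Inst.nil q, rfl⟩
  | cons c p ih =>
    intro q U hs h
    have hs' : sm4 p = true := by
      unfold sm4 at hs ⊢
      rw [List.all_cons, Bool.and_eq_true] at hs
      exact hs.2
    cases c with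
    | L a =>
      rw [List.map_cons, vlc] at h
      cases h with
      | letter _ _ _ W h =>
        obtain ⟨H, h1, rfl⟩ := ih hs' h
        exact ⟨a :: H, Inst.letter _ _ _ _ h1, rfl⟩
    | S o i j =>
      rw [List.map_cons, vlc] at h
      cases h with
      | stretch _ _ _ _ _ T W hl h0 h1 h =>
        obtain ⟨H, h2, rfl⟩ := ih hs' h
        refine ⟨T ++ H, Inst.stretch _ _ _ _ _ _ _ hl h0 h1 h2, ?_⟩
        rw [List.map_append, map_vl_eq]
        intro x hx
        unfold sm4 at hs
        rw [List.all_cons, Bool.and_eq_true] at hs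
        simp only [Bool.and_eq_true, decide_eq_true_iff] at hs
        obtain ⟨k, hk, rfl⟩ := List.getElem_of_mem hx
        have e : T[k] = T.getD k 0 := by rw [List.getD_eq_getElem _ _ hk]
        rw [e]
        rcases Nat.mod_two_eq_zero_or_one k with hk2 | hk2
        · have := h0 k hk hk2
          split at this <;> omega
        · have := h1 k hk hk2
          split at this <;> omega

end Pool.Agent.H.MP_2e666d_lc.T3.Cov
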