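import Pool.Agent.H.MP_2e666d_lc.CutRun

/-! # Joining a left and a right half at a cut phase

Types: `α`, `β` are the positions (with the letter `2`) of the tapes which bound the classes `A`
(even positions) and `B` (odd positions) in the cut phase. -/

namespace Pool.Agent.H.MP_2e666d_lc

/-- from the initial state one can reach a state whose active tape is at a position `≤ l`, and
whose other tapes are at `α`, `β` -/
def LeftT (K : ℕ) (W : List ℕ) (α β l : ℕ) : Prop :=
  ∃ s, 1 ≤ s ∧ s ≤ l ∧ ∀ k, (if s % 2 = 0 then Comp W k s β α else Comp W k s α β) →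
    Comp W (k + K) 0 0 0

/-- the word can be completed after a cut phase with the last letter at a position `≥ l` -/
def RightT (K : ℕ) (W : List ℕ) (α β l : ℕ) : Prop :=
  ∃ e, l ≤ e ∧ e + 1 < W.length ∧
    (if e % 2 = 0 then Comp W K α (β + 1) e else Comp W K β (α + 1) e)

theorem LeftT.mono {K K' : ℕ} {W : List ℕ} {α β l l' : ℕ} (h : LeftT K W α β l) (hK : K ≤ K')
    (hl : l ≤ l') : LeftT K' W α β l' := by
  obtain ⟨s, s1, s2, s3⟩ := h
  exact ⟨s, s1, s2.trans hl, fun k hk => (s3 k hk).mono (by omega)⟩

theorem RightT.mono {K K' : ℕ} {W : List ℕ} {α β l l' : ℕ} (h : RightT K W α β l) (hK : K ≤ K')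
    (hl : l' ≤ l) : RightT K' W α β l' := by
  obtain ⟨e, e1, e2, e3⟩ := h
  refine ⟨e, hl.trans e1, e2, ?_⟩
  split
  · next h0 => rw [if_pos h0] at e3; exact e3.mono hK
  · next h0 => rw [if_neg h0] at e3; exact e3.mono hK

/-- joining the halves -/
theorem cut_join {W : List ℕ} {K1 K2 α β l1 l2 : ℕ} (hL : LeftT K1 W α β l1)
    (hR : RightT K2 W α β l2) (hα : W.getD α 0 = 2) (hβ : W.getD β 0 = 2)
    (hα' : α < W.length) (hβ' : β < W.length)
    (hA : ∃ i, l1 ≤ i ∧ i ≤ l2 ∧ i % 2 = 0 ∧ 2 ≤ W.getD i 0)
    (hB : ∃ i, l1 ≤ i ∧ i ≤ l2 ∧ i % 2 = 1 ∧ 2 ≤ W.getD i 0)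
    (h2 : ∀ i, 2 ≤ i → i + 2 < W.length → W.getD i 0 ≤ 2) : Comp W (K1 + K2 + 1) 0 0 0 := by
  obtain ⟨s, s1, s2, s3⟩ := hL
  obtain ⟨e, e1, e2, e3⟩ := hR
  have hA' : ∃ i, s ≤ i ∧ i ≤ e ∧ i % 2 = 0 ∧ 2 ≤ W.getD i 0 := by
    obtain ⟨i, i1, i2, i3, i4⟩ := hA
    exact ⟨i, by omega, by omega, i3, i4⟩
  have hB' : ∃ i, s ≤ i ∧ i ≤ e ∧ i % 2 = 1 ∧ 2 ≤ W.getD i 0 := by
    obtain ⟨i, i1, i2, i3, i4⟩ := hB
    exact ⟨i, by omega, by omega, i3, i4⟩
  have hi : ∀ i, s < i → i < e → W.getD i 0 ≤ 2 := fun i j1 j2 => h2 i (by omega) (by omega)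
  have key := s3 (K2 + 1) ?_
  · exact key.mono (by omega)
  · rcases Nat.mod_two_eq_zero_or_one s with hs | hs
    · rw [if_pos hs]
      refine Comp.step (Ph.cut (e := e) (by omega) (by omega) hβ' hβ hα hi hA' hB') ?_ ?_
      · intro ho
        rw [if_neg (by omega)] at e3
        exact e3
      · intro ho
        rw [if_pos (by omega)] at e3
        exact e3
    · rw [if_neg (by omega)]
      refine Comp.step (Ph.cut (e := e) (by omega) (by omega) hα' hα hβ hi hA' hB') ?_ ?_
      · intro ho
        rw [if_pos (by omega)] at e3
        exact e3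
      · intro ho
        rw [if_neg (by omega)] at e3
        exact e3

namespace T3

theorem letterAt_append {A B : List Cell} {c v : ℕ} (h : letterAt c A = some v) :
    letterAt c (A ++ B) = some v := by
  induction A generalizing c with
  | nil => cases c <;> simp [letterAt] at h
  | cons a A ih =>
    cases c with
    | zero => cases a <;> simp_all [letterAt]
    | succ c =>
      cases a <;>
      · simp only [letterAt, List.cons_append] at h ⊢
        exact ih h

theorem letterAt_lt {A : List Cell} {c v : ℕ} (h : letterAt c A = some v) : c < A.length := by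
  have := treeleaf3_letterAt h
  rw [List.getElem?_eq_some_iff] at this
  exact this.1

theorem readPiece_append {h g : ℕ} {A B : List Cell} {q : Bool} {k : ℕ} {odd aw au : Bool}
    {x : ℕ × Bool × Bool × Bool} (hx : readPiece h g A q k odd aw au = some x) :
    readPiece h g (A ++ B) q k odd aw au = some x := by
  induction A generalizing q k odd aw au with
  | nil => simp [readPiece] at hx
  | cons a A ih =>
    cases k with
    | zero => cases a <;> simp_all [readPiece]
    | succ k =>
      cases a with
      | L v =>
        simp only [readPiece, List.cons_append] at hx ⊢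
        split
        · next ho =>
          rw [if_pos ho] at hx
          split
          · next hv => rw [if_pos hv] at hx; exact ih hx
          · next hv => rw [if_neg hv] at hx; exact absurd hx (by simp)
        · next ho =>
          rw [if_neg ho] at hx
          split
          · next hv => rw [if_pos hv] at hx; exact ih hx
          · next hv => rw [if_neg hv] at hx; exact absurd hx (by simp)
      | S o i j =>
        simp only [readPiece, List.cons_append] at hx ⊢
        by_cases hv : (if q == odd then j else i) ≤ h ∧ (if q == odd then i else j) ≤ g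
        · rw [if_pos hv] at hx ⊢
          exact ih hx
        · rw [if_neg hv] at hx
          exact absurd hx (by simp)

theorem runS_append {A B : List Cell} : ∀ {es : List ℕ} {s r q : ℕ} {x : ℕ × ℕ × ℕ},
    runS A es s r q = some x → runS (A ++ B) es s r q = some x := by
  intro es
  induction es with
  | nil =>
    intro s r q x h
    simpa [runS] using h
  | cons e es ih =>
    intro s r q x h
    unfold runS at h ⊢
    cases hr : letterAt r A with
    | none => rw [hr] at h; simp at h
    | some hb =>
      cases hq : letterAt q A with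
      | none => rw [hr, hq] at h; simp at h
      | some g =>
        cases hs : letterAt s A with
        | none => rw [hr, hq, hs] at h; simp at h
        | some a0 =>
          rw [hr, hq, hs] at h
          rw [letterAt_append hr, letterAt_append hq, letterAt_append hs]
          simp only at h ⊢
          by_cases hes : e ≤ s
          · rw [if_pos hes] at h; simp at h
          · rw [if_neg hes] at h ⊢
            have hsl := letterAt_lt hs
            rw [parAt_append _ _ _ _ (by omega), List.drop_append_of_le_length (by omega)]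
            cases hp : readPiece hb g (A.drop (s + 1)) (parAt false (s + 1) A) (e - (s + 1))
                true false false with
            | none => rw [hp] at h; simp at h
            | some y =>
              obtain ⟨a, odd, aw, au⟩ := y
              rw [hp] at h
              rw [readPiece_append hp]
              simp only at h ⊢
              split
              · next hc => rw [if_pos hc] at h; exact ih h
              · next hc => rw [if_neg hc] at h; exact absurd h (by simp)

theorem letterAt_map_vlc {cs : List Cell} {c v : ℕ} (h : letterAt c cs = some v) :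
    letterAt c (cs.map vlc) = some (vl v) := by
  induction cs generalizing c with
  | nil => cases c <;> simp [letterAt] at h
  | cons a cs ih =>
    cases c with
    | zero => cases a <;> simp_all [letterAt, vlc]
    | succ c => cases a <;> simp_all [letterAt, vlc]

theorem pos_mono {q : Bool} {cs : List Cell} {W : List ℕ} {pos : ℕ → ℕ}
    (h : treeleaf3_Pos q cs W pos) {c d : ℕ} (hcd : c ≤ d) (hd : d ≤ cs.length) :
    pos c ≤ pos d := by
  induction d with
  | zero =>
    have : c = 0 := by omega
    rw [this]
  | succ d ih =>
    rcases Nat.lt_or_ge d c with h1 | h1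
    · have : c = d + 1 := by omega
      rw [this]
    · refine (ih h1 (by omega)).trans ?_
      have hlt : d < cs.length := by omega
      have hx : cs[d]? = some (cs[d]) := List.getElem?_eq_getElem hlt
      cases hxx : cs[d] with
      | L v =>
        rw [hxx] at hx
        have := (h.let1 d v hx).1
        omega
      | S o i j =>
        rw [hxx] at hx
        exact (h.str d o i j hx).1

/-- Check of a left pattern.  `a`, `b`, `l` are the marks (letters `≥ 5`) for `α`, `β`, and the
bound of the active tape; `ia`, `ib`, `il` the numbers of their cells. -/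
def leftChk (p : List Cell) (es : List ℕ) (a b l ia ib il : ℕ) : Bool :=
  letterAt ia p == some a && letterAt ib p == some b && letterAt il p == some l &&
  match runS (p.map vlc) es 0 0 0 with
  | none => false
  | some (s, r, q) =>
      decide (1 ≤ s) && decide (s ≤ il) &&
      (if parAt false s p then r == ia && q == ib else r == ib && q == ia) &&
      (letterAt 0 p).isSome

/-- a left pattern gives `LeftT` -/
theorem left_pattern {p : List Cell} {es : List ℕ} {a b l ia ib il : ℕ} {H R : List ℕ}
    {mk : ℕ → ℕ} (hI : Inst false p H)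
    (hmk : ∀ i, 5 ≤ H.getD i 0 → i = mk (H.getD i 0)) (ha : 5 ≤ a) (hb : 5 ≤ b) (hl : 5 ≤ l)
    (hR : ∀ x ∈ R, x ≤ 4) (hc : leftChk p es a b l ia ib il = true) :
    LeftT es.length (H.map vl ++ R) (mk a) (mk b) (mk l) := by
  obtain ⟨pos, hpos⟩ := treeleaf3_pos hI
  unfold leftChk at hc
  cases hrun : runS (p.map vlc) es 0 0 0 with
  | none => rw [hrun] at hc; simp at hc
  | some x =>
    obtain ⟨s, r, q⟩ := x
    rw [hrun] at hc
    simp only [Bool.and_eq_true, beq_iff_eq, decide_eq_true_iff] at hc
    obtain ⟨⟨⟨c1, c2⟩, c3⟩, ⟨⟨c4, c5⟩, c6⟩, c7⟩ := hc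
    have hmark : ∀ {i m : ℕ}, letterAt i p = some m → 5 ≤ m → pos i = mk m := by
      intro i m h1 h2
      obtain ⟨-, h3, -⟩ := hpos.let1 i m (treeleaf3_letterAt h1)
      have := hmk (pos i) (by omega)
      rw [h3] at this
      exact this
    obtain ⟨v0, hv0⟩ := Option.isSome_iff_exists.1 c7
    have hp1 : pos 1 = 1 := by
      have := (hpos.let1 0 v0 (treeleaf3_letterAt hv0)).1
      rwa [hpos.z] at this
    have hil : il < p.length := letterAt_lt c3
    have hs1 : 1 ≤ pos s := by
      have := pos_mono hpos c4 (by omega : s ≤ p.length)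
      omega
    have hs2 : pos s ≤ mk l := by
      rw [← hmark c3 hl]
      exact pos_mono hpos c5 hil.le
    -- the whole word
    have hpos2 : treeleaf3_Pos false (p.map vlc ++ [Cell.S (decide (R.length % 2 = 1)) 4 4])
        (H.map vl ++ R) (posApp (p.map vlc).length pos (H.map vl).length
          (fun c => if c = 0 then 0 else R.length)) :=
      Pos.append (Pos.map_vl hpos) (Pos.anyword (q := xor false
        (decide ((H.map vl).length % 2 = 1))) R hR) rfl
    refine ⟨pos s, hs1, hs2, ?_⟩
    intro k hk
    have hsnd := runS_sound hpos2 es 0 0 0 s r q (runS_append hrun) k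
    have hle : ∀ c, c ≤ p.length → posApp (p.map vlc).length pos (H.map vl).length
        (fun c => if c = 0 then 0 else R.length) c = pos c :=
      fun c hc => posApp_le (by simpa using hc)
    have hr : r ≤ p.length ∧ q ≤ p.length := by
      have h1 := letterAt_lt c1
      have h2 := letterAt_lt c2
      split at c6
      · simp only [Bool.and_eq_true, beq_iff_eq] at c6; omega
      · simp only [Bool.and_eq_true, beq_iff_eq] at c6; omega
    rw [hle s (by omega), hle r hr.1, hle q hr.2, hle 0 (by omega), hpos.z] at hsnd
    refine hsnd ?_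
    have hpar := hpos.par s
    rcases Nat.mod_two_eq_zero_or_one (pos s) with h0 | h0
    · rw [if_pos h0] at hk
      have : parAt false s p = false := by rw [hpar]; simp [h0]
      rw [this] at c6
      simp only [Bool.false_eq_true, if_false, Bool.and_eq_true, beq_iff_eq] at c6
      rw [c6.1, c6.2, hmark c1 ha, hmark c2 hb]
      exact hk
    · rw [if_neg (by omega)] at hk
      have : parAt false s p = true := by rw [hpar]; simp [h0]
      rw [this] at c6
      simp only [if_true, Bool.and_eq_true, beq_iff_eq] at c6
      rw [c6.1, c6.2, hmark c1 ha, hmark c2 hb]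
      exact hk

/-- Check of a right pattern.  `o` is the parity of the length of the part of the word before the
pattern; the numbers of cells refer to the list with one more cell in front. -/
def rightChk (o : Bool) (p : List Cell) (es : List ℕ) (e a b l ia ib il : ℕ) : Bool :=
  let cs := Cell.S o 3 3 :: p.map vlc
  letterAt ia (Cell.S o 3 3 :: p) == some a && letterAt ib (Cell.S o 3 3 :: p) == some b &&
  letterAt il (Cell.S o 3 3 :: p) == some l &&
  decide (il ≤ e) && decide (e + 1 < cs.length) && (letterAt e cs).isSome &&
  (letterAt (cs.length - 1) cs).isSome &&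
  match (if parAt false e cs then runS cs es ib (ia + 1) e else runS cs es ia (ib + 1) e) with
  | none => false
  | some (s, r, q) => s + 1 == cs.length && r == cs.length && q + 1 == cs.length

/-- a right pattern gives `RightT` -/
theorem right_pattern {o : Bool} {p : List Cell} {es : List ℕ} {e a b l ia ib il : ℕ}
    {P H : List ℕ} {mk : ℕ → ℕ} (hI : Inst o p H) (hPo : P.length % 2 = if o then 1 else 0)
    (hmk : ∀ i, 5 ≤ H.getD i 0 → P.length + i = mk (H.getD i 0)) (ha : 5 ≤ a) (hb : 5 ≤ b)
    (hl : 5 ≤ l) (hP : ∀ x ∈ P, x ≤ 3) (hc : rightChk o p es e a b l ia ib il = true) :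
    RightT es.length (P ++ H.map vl) (mk a) (mk b) (mk l) := by
  obtain ⟨pos, hpos⟩ := treeleaf3_pos hI
  unfold rightChk at hc
  simp only at hc
  have hpos2 : treeleaf3_Pos false ([Cell.S o 3 3] ++ p.map vlc) (P ++ H.map vl)
      (posApp 1 (fun c => if c = 0 then 0 else P.length) P.length pos) := by
    have h1 := Pos.anyword (q := false) P hP
    have h2 : decide (P.length % 2 = 1) = o := by
      cases o <;> simp_all
    rw [h2] at h1
    exact Pos.append h1 (Pos.map_vl hpos) (by simp [h2])
  have hadd : ∀ c, posApp 1 (fun c => if c = 0 then 0 else P.length) P.length pos (c + 1) =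
      P.length + pos c := by
    intro c
    rw [Nat.add_comm c 1]
    exact posApp_add (by simp) hpos.z c
  set POS := posApp 1 (fun c => if c = 0 then 0 else P.length) P.length pos with hPOS
  rw [List.singleton_append] at hpos2
  have hmark : ∀ {i m : ℕ}, letterAt i (Cell.S o 3 3 :: p) = some m → 5 ≤ m →
      POS i = mk m ∧ POS (i + 1) = mk m + 1 := by
    intro i m h1 h2
    cases i with
    | zero => simp [letterAt] at h1
    | succ i =>
      have h1' : letterAt i p = some m := by simpa [letterAt] using h1
      obtain ⟨h3, h4, -⟩ := hpos.let1 i m (treeleaf3_letterAt h1')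
      have h5 := hmk (pos i) (by omega)
      rw [h4] at h5
      rw [hadd, hadd, h3]
      omega
  cases hrun : (if parAt false e (Cell.S o 3 3 :: p.map vlc) then
      runS (Cell.S o 3 3 :: p.map vlc) es ib (ia + 1) e
      else runS (Cell.S o 3 3 :: p.map vlc) es ia (ib + 1) e) with
  | none => rw [hrun] at hc; simp at hc
  | some x =>
    obtain ⟨s, r, q⟩ := x
    rw [hrun] at hc
    simp only [Bool.and_eq_true, beq_iff_eq, decide_eq_true_iff] at hc
    obtain ⟨⟨⟨⟨⟨⟨⟨c1, c2⟩, c3⟩, c4⟩, c5⟩, c6⟩, c7⟩, ⟨c8, c9⟩, c10⟩ := hc
    obtain ⟨n, hn⟩ : ∃ n, (Cell.S o 3 3 :: p.map vlc).length = n + 1 := ⟨_, rfl⟩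
    rw [hn] at c5 c7 c8 c9 c10
    obtain ⟨vn, hvn⟩ := Option.isSome_iff_exists.1 c7
    rw [Nat.add_sub_cancel] at hvn
    have hsn : s = n := by omega
    have hqn : q = n := by omega
    rw [hsn, hqn, c9] at hrun
    have hfin := Comp.final' hpos2 hn (treeleaf3_letterAt hvn)
    obtain ⟨ve, hve⟩ := Option.isSome_iff_exists.1 c6
    obtain ⟨g1, g2, g3⟩ := hpos2.let1 e ve (treeleaf3_letterAt hve)
    have hil : mk l ≤ POS e := by
      rw [← (hmark c3 hl).1]
      exact pos_mono hpos2 c4 (by rw [hn]; omega)
    have hlen : POS e + 1 < (P ++ H.map vl).length := by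
      rw [← hpos2.e, hn, ← g1]
      have h1 := (hpos2.let1 n vn (treeleaf3_letterAt hvn)).1
      have h2 := pos_mono hpos2 (by omega : e + 1 ≤ n) (by rw [hn]; omega)
      omega
    refine ⟨POS e, hil, hlen, ?_⟩
    have hpar := hpos2.par e
    rcases Nat.mod_two_eq_zero_or_one (POS e) with h0 | h0
    · rw [if_pos h0]
      have : parAt false e (Cell.S o 3 3 :: p.map vlc) = false := by rw [hpar]; simp [h0]
      rw [this] at hrun
      simp only [Bool.false_eq_true, if_false] at hrun
      have := runS_sound hpos2 es _ _ _ _ _ _ hrun 0 hfin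
      rw [(hmark c1 ha).1, (hmark c2 hb).2, Nat.zero_add] at this
      exact this
    · rw [if_neg (by omega)]
      have : parAt false e (Cell.S o 3 3 :: p.map vlc) = true := by rw [hpar]; simp [h0]
      rw [this] at hrun
      simp only [if_true] at hrun
      have := runS_sound hpos2 es _ _ _ _ _ _ hrun 0 hfin
      rw [(hmark c2 hb).1, (hmark c1 ha).2, Nat.zero_add] at this
      exact this

end T3

end Pool.Agent.H.MP_2e666d_lc
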