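import Pool.Agent.H.MP_2e666d_lc.TreeLeaf3
import Pool.Agent.H.MP_2e666d_lc.Cut

/-! # Partial abstract chains (states without roles), marks, positions -/

namespace Pool.Agent.H.MP_2e666d_lc.T3

open Pool.Agent.H.MP_2e666d_lc

/-- the value of a letter: the letters `≥ 5` are marks with the value `2` -/
def vl (a : ℕ) : ℕ := if 5 ≤ a then 2 else a

/-- forget the marks of a cell -/
def vlc : Cell → Cell
  | Cell.L a => Cell.L (vl a)
  | Cell.S o i j => Cell.S o i j

theorem vl_le (a : ℕ) : vl a ≤ a := by
  unfold vl
  split <;> omega

theorem vl_zero : vl 0 = 0 := rfl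

theorem getD_map_vl (H : List ℕ) (i : ℕ) : (H.map vl).getD i 0 = vl (H.getD i 0) := by
  rw [List.getD_eq_getElem?_getD, List.getElem?_map, List.getD_eq_getElem?_getD]
  cases H[i]? <;> simp [vl_zero]

theorem parAt_map_vlc : ∀ (q : Bool) (c : ℕ) (cs : List Cell),
    parAt q c (cs.map vlc) = parAt q c cs := by
  intro q c cs
  induction cs generalizing q c with
  | nil => cases c <;> simp [parAt]
  | cons a cs ih =>
    cases c with
    | zero => simp [parAt]
    | succ c => cases a <;> simp [vlc, parAt, ih]

theorem Pos.map_vl {q : Bool} {cs : List Cell} {H : List ℕ} {pos : ℕ → ℕ}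
    (h : treeleaf3_Pos q cs H pos) : treeleaf3_Pos q (cs.map vlc) (H.map vl) pos := by
  refine ⟨h.z, by simpa using h.e, ?_, ?_, ?_⟩
  · intro c
    rw [parAt_map_vlc]
    exact h.par c
  · intro c v hc
    rw [List.getElem?_map, Option.map_eq_some_iff] at hc
    obtain ⟨x, hx, hv⟩ := hc
    cases x with
    | S o i j => simp [vlc] at hv
    | L a =>
      simp only [vlc, Cell.L.injEq] at hv
      obtain ⟨h1, h2, h3⟩ := h.let1 c a hx
      refine ⟨h1, ?_, by simpa using h3⟩
      rw [getD_map_vl, h2, hv]
  · intro c o i j hc
    rw [List.getElem?_map, Option.map_eq_some_iff] at hc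
    obtain ⟨x, hx, hv⟩ := hc
    cases x with
    | L a => simp [vlc] at hv
    | S o' i' j' =>
      simp only [vlc, Cell.S.injEq] at hv
      obtain ⟨rfl, rfl, rfl⟩ := hv
      obtain ⟨h1, h2, h3⟩ := h.str c o' i' j' hx
      refine ⟨h1, h2, fun k hk hk' => ?_⟩
      rw [getD_map_vl]
      exact (vl_le _).trans (h3 k hk hk')

theorem parAt_append (q : Bool) (A B : List Cell) (c : ℕ) (hc : c ≤ A.length) :
    parAt q c (A ++ B) = parAt q c A := by
  induction A generalizing q c with
  | nil =>
    have : c = 0 := by simpa using hc
    subst this
    cases B <;> simp [parAt]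
  | cons a A ih =>
    cases c with
    | zero => simp [parAt]
    | succ c =>
      have hc' : c ≤ A.length := by simpa using hc
      cases a <;> simp [parAt, ih _ _ hc']

theorem parAt_append_add (q : Bool) (A B : List Cell) (c : ℕ) :
    parAt q (A.length + c) (A ++ B) = parAt (parAt q A.length A) c B := by
  induction A generalizing q with
  | nil => simp [parAt]
  | cons a A ih =>
    have h1 : (a :: A).length + c = (A.length + c) + 1 := by simp; omega
    rw [h1]
    cases a <;> simp [parAt, ih]

/-- positions in a concatenation -/
def posApp (n : ℕ) (pa : ℕ → ℕ) (m : ℕ) (pb : ℕ → ℕ) (c : ℕ) : ℕ :=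
  if c ≤ n then pa c else m + pb (c - n)

theorem posApp_le {n m c : ℕ} {pa pb : ℕ → ℕ} (h : c ≤ n) : posApp n pa m pb c = pa c := by
  simp [posApp, h]

theorem posApp_add {n m : ℕ} {pa pb : ℕ → ℕ} (h1 : pa n = m) (h2 : pb 0 = 0) (c : ℕ) :
    posApp n pa m pb (n + c) = m + pb c := by
  cases c with
  | zero => simp [posApp, h1, h2]
  | succ c =>
    have : ¬ (n + (c + 1) ≤ n) := by omega
    simp only [posApp, if_neg this]
    congr 2
    omega

theorem Pos.append {q q' : Bool} {A B : List Cell} {U V : List ℕ} {pa pb : ℕ → ℕ}
    (ha : treeleaf3_Pos q A U pa) (hb : treeleaf3_Pos q' B V pb)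
    (hq : q' = xor q (decide (U.length % 2 = 1))) :
    treeleaf3_Pos q (A ++ B) (U ++ V) (posApp A.length pa U.length pb) := by
  have hA : ∀ c, c ≤ A.length → posApp A.length pa U.length pb c = pa c :=
    fun c hc => posApp_le hc
  have hB : ∀ c, posApp A.length pa U.length pb (A.length + c) = U.length + pb c :=
    posApp_add ha.e hb.z
  have hleA : ∀ c, c ≤ A.length → pa c ≤ U.length := by
    intro c hc
    have key : ∀ d, ∀ c, c + d = A.length → pa c ≤ pa A.length := by
      intro d
      induction d with
      | zero => intro c hc; rw [← hc]; simp
      | succ d ih =>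
        intro c hc
        have h1 := ih (c + 1) (by omega)
        have h2 : pa c ≤ pa (c + 1) := by
          have hlt : c < A.length := by omega
          have hx : A[c]? = some (A[c]) := List.getElem?_eq_getElem hlt
          cases hxx : A[c] with
          | L v =>
            rw [hxx] at hx
            have := (ha.let1 c v hx).1
            omega
          | S o i j =>
            rw [hxx] at hx
            exact (ha.str c o i j hx).1
        exact h2.trans h1
    have := key (A.length - c) c (by omega)
    rwa [ha.e] at this
  refine ⟨?_, ?_, ?_, ?_, ?_⟩
  · rw [hA 0 (Nat.zero_le _)]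
    exact ha.z
  · rw [List.length_append, hB, hb.e, List.length_append]
  · intro c
    rcases Nat.lt_or_ge A.length c with hc | hc
    · obtain ⟨d, rfl⟩ : ∃ d, c = A.length + d := ⟨c - A.length, by omega⟩
      rw [hB, parAt_append_add, ha.par, ha.e, ← hq, hb.par, hq]
      rcases Nat.mod_two_eq_zero_or_one U.length with h1 | h1 <;>
        rcases Nat.mod_two_eq_zero_or_one (pb d) with h2 | h2
      · have h3 : (U.length + pb d) % 2 = 0 := by omega
        simp [h1, h2, h3]
      · have h3 : (U.length + pb d) % 2 = 1 := by omega
        simp [h1, h2, h3]
      · have h3 : (U.length + pb d) % 2 = 1 := by omega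
        simp [h1, h2, h3]
      · have h3 : (U.length + pb d) % 2 = 0 := by omega
        cases q <;> simp [h1, h2, h3]
    · rw [hA c hc, parAt_append _ _ _ _ hc]
      exact ha.par c
  · intro c v hc
    rcases Nat.lt_or_ge c A.length with hlt | hge
    · rw [List.getElem?_append_left hlt] at hc
      obtain ⟨h1, h2, h3⟩ := ha.let1 c v hc
      rw [hA c hlt.le, hA (c + 1) hlt]
      refine ⟨h1, ?_, ?_⟩
      · rw [List.getD_append _ _ _ _ h3]
        exact h2
      · rw [List.length_append]
        omega
    · obtain ⟨d, rfl⟩ : ∃ d, c = A.length + d := ⟨c - A.length, by omega⟩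
      rw [List.getElem?_append_right (by omega)] at hc
      have hd : A.length + d - A.length = d := by omega
      rw [hd] at hc
      obtain ⟨h1, h2, h3⟩ := hb.let1 d v hc
      rw [hB d, show A.length + d + 1 = A.length + (d + 1) from rfl, hB (d + 1)]
      refine ⟨by omega, ?_, ?_⟩
      · rw [List.getD_append_right _ _ _ _ (by omega)]
        rw [show U.length + pb d - U.length = pb d by omega]
        exact h2
      · rw [List.length_append]
        omega
  · intro c o i j hc
    rcases Nat.lt_or_ge c A.length with hlt | hge
    · rw [List.getElem?_append_left hlt] at hc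
      obtain ⟨h1, h2, h3⟩ := ha.str c o i j hc
      rw [hA c hlt.le, hA (c + 1) hlt]
      refine ⟨h1, h2, ?_⟩
      intro k hk hk'
      have hkU : k < U.length := lt_of_lt_of_le hk' (hleA (c + 1) hlt)
      rw [List.getD_append _ _ _ _ hkU]
      exact h3 k hk hk'
    · obtain ⟨d, rfl⟩ : ∃ d, c = A.length + d := ⟨c - A.length, by omega⟩
      rw [List.getElem?_append_right (by omega)] at hc
      have hd : A.length + d - A.length = d := by omega
      rw [hd] at hc
      obtain ⟨h1, h2, h3⟩ := hb.str d o i j hc
      rw [hB d, show A.length + d + 1 = A.length + (d + 1) from rfl, hB (d + 1)]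
      refine ⟨by omega, by omega, ?_⟩
      intro k hk hk'
      rw [List.getD_append_right _ _ _ _ (by omega)]
      have h4 := h3 (k - U.length) (by omega) (by omega)
      rw [hq] at h4
      rcases Nat.mod_two_eq_zero_or_one U.length with g1 | g1 <;>
        rcases Nat.mod_two_eq_zero_or_one (k - U.length) with g2 | g2
      · have h5 : k % 2 = 0 := by omega
        simpa [g1, g2, h5] using h4
      · have h5 : k % 2 = 1 := by omega
        simpa [g1, g2, h5] using h4
      · have h5 : k % 2 = 1 := by omega
        simpa [g1, g2, h5] using h4
      · have h5 : k % 2 = 0 := by omega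
        cases q <;> simpa [g1, g2, h5] using h4

/-- an arbitrary word is an instance of a stretch with large bounds -/
theorem Pos.anyword {q : Bool} {m : ℕ} (T : List ℕ) (h : ∀ a ∈ T, a ≤ m) :
    treeleaf3_Pos q [Cell.S (decide (T.length % 2 = 1)) m m] T
      (fun c => if c = 0 then 0 else T.length) := by
  refine ⟨by simp, by simp, ?_, ?_, ?_⟩
  · intro c
    cases c with
    | zero => simp [parAt]
    | succ c =>
      cases c <;> simp [parAt]
  · intro c v hc
    cases c <;> simp at hc
  · intro c o i j hc
    cases c with
    | succ c => simp at hc
    | zero =>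
      simp only [List.getElem?_cons_zero, Option.some.injEq, Cell.S.injEq] at hc
      obtain ⟨rfl, rfl, rfl⟩ := hc
      refine ⟨by simp, ?_, ?_⟩
      · rcases Nat.mod_two_eq_zero_or_one T.length with h1 | h1 <;> simp [h1]
      · intro k _ hk
        have hk' : k < T.length := by simpa using hk
        rw [List.getD_eq_getElem _ _ hk']
        split <;> exact h _ (List.getElem_mem hk')

/-- run of an abstract chain, from a state to a state (numbers of cells) -/
def runS (cs : List Cell) : List ℕ → ℕ → ℕ → ℕ → Option (ℕ × ℕ × ℕ)
  | [], s, r, q => some (s, r, q)
  | e :: es, s, r, q =>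
    match letterAt r cs, letterAt q cs, letterAt s cs with
    | some h, some g, some a0 =>
      if e ≤ s then none else
      match readPiece h g (cs.drop (s + 1)) (parAt false (s + 1) cs) (e - (s + 1)) true false
          false with
      | some (a, odd, aw, au) =>
        if (aw || (odd && decide (h ≤ a))) &&
            (decide (g ≤ a0) || au || (!odd && decide (g ≤ a))) then
          runS cs es (if odd then r else q) (if odd then q + 1 else r + 1) e
        else none
      | none => none
    | _, _, _ => none

theorem runS_sound {cs : List Cell} {W : List ℕ} {pos : ℕ → ℕ}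
    (hpos : treeleaf3_Pos false cs W pos) :
    ∀ (es : List ℕ) (s r q s' r' q' : ℕ), runS cs es s r q = some (s', r', q') →
    ∀ k, Comp W k (pos s') (pos r') (pos q') →
      Comp W (k + es.length) (pos s) (pos r) (pos q) := by
  intro es
  induction es with
  | nil =>
    intro s r q s' r' q' h k hk
    simp only [runS, Option.some.injEq, Prod.mk.injEq] at h
    obtain ⟨rfl, rfl, rfl⟩ := h
    simpa using hk
  | cons e es ih =>
    intro s r q s' r' q' h k hk
    unfold runS at h
    cases hr : letterAt r cs with
    | none => rw [hr] at h; simp at h
    | some hb =>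
      cases hq : letterAt q cs with
      | none => rw [hr, hq] at h; simp at h
      | some g =>
        cases hs : letterAt s cs with
        | none => rw [hr, hq, hs] at h; simp at h
        | some a0 =>
          rw [hr, hq, hs] at h
          simp only at h
          by_cases hes : e ≤ s
          · rw [if_pos hes] at h; simp at h
          · rw [if_neg hes] at h
            cases hp : readPiece hb g (cs.drop (s + 1)) (parAt false (s + 1) cs) (e - (s + 1))
                true false false with
            | none => rw [hp] at h; simp at h
            | some x =>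
              obtain ⟨a, odd, aw, au⟩ := x
              rw [hp] at h
              simp only at h
              by_cases hc : ((aw || (odd && decide (hb ≤ a))) &&
                  (decide (g ≤ a0) || au || (!odd && decide (g ≤ a)))) = true
              · rw [if_pos hc] at h
                obtain ⟨r1, r2, r3⟩ := hpos.let1 _ _ (treeleaf3_letterAt hr)
                obtain ⟨q1, q2, q3⟩ := hpos.let1 _ _ (treeleaf3_letterAt hq)
                obtain ⟨s1, s2, s3⟩ := hpos.let1 _ _ (treeleaf3_letterAt hs)
                obtain ⟨m', f1, f2, f3, f4, f5, f6, f7, f8⟩ :=
                  treeleaf3_read hpos hb g (pos (s + 1)) (e - (s + 1)) (s + 1) 0 _ true false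
                    false a odd aw au (by omega) (by rw [hpos.par]; simp) (by simp) hp
                have hee : s + 1 + (e - (s + 1)) = e := by omega
                rw [hee] at f1 f4
                obtain ⟨d1, d2, d3⟩ := hpos.let1 _ _ f4
                rw [s1] at f1 f5 f6 f7 f8
                have hpe : pos e = pos s + 1 + m' := f1
                have hodd : (pos e - pos s) % 2 = 1 ↔ odd = true := by
                  rw [f3, decide_eq_true_iff, hpe]
                  omega
                rw [Bool.and_eq_true, Bool.or_eq_true, Bool.or_eq_true, Bool.or_eq_true,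
                  Bool.and_eq_true, Bool.and_eq_true, decide_eq_true_iff, decide_eq_true_iff,
                  decide_eq_true_iff] at hc
                obtain ⟨k1, k2⟩ := hc
                have hph : Ph W (pos s) (pos r) (pos q) (pos e) := by
                  refine ⟨by omega, d3, r3, ?_, ?_, ?_, ?_⟩
                  · intro i i1 i2 i3
                    rw [r2]
                    have := f5 (i - (pos s + 1)) (Nat.zero_le _) (by omega) (by omega)
                    rwa [show pos s + 1 + (i - (pos s + 1)) = i by omega] at this
                  · intro i i1 i2 i3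
                    rw [q2]
                    have := f6 (i - (pos s + 1)) (Nat.zero_le _) (by omega) (by omega)
                    rwa [show pos s + 1 + (i - (pos s + 1)) = i by omega] at this
                  · rw [r2]
                    rcases k1 with k1 | k1
                    · rcases f7 k1 with k1 | ⟨i, i1, i2, i3, i4⟩
                      · simp at k1
                      · exact ⟨pos s + 1 + i, by omega, by omega, by omega, by omega⟩
                    · exact ⟨pos e, by omega, le_rfl, hodd.2 k1.1, by rw [d2]; exact k1.2⟩
                  · rw [q2]
                    rcases k2 with (k2 | k2) | k2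
                    · exact ⟨pos s, le_rfl, by omega, by omega, by rw [s2]; exact k2⟩
                    · rcases f8 k2 with k2 | ⟨i, i1, i2, i3, i4⟩
                      · simp at k2
                      · exact ⟨pos s + 1 + i, by omega, by omega, by omega, by omega⟩
                    · have k3 : ¬ odd = true := by
                        intro hx
                        rw [hx] at k2
                        simp at k2
                      have k4 : ¬ (pos e - pos s) % 2 = 1 := fun hx => k3 (hodd.1 hx)
                      exact ⟨pos e, by omega, le_rfl, by omega, by rw [d2]; exact k2.2⟩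
                have hgoal := ih _ _ _ _ _ _ h k hk
                rw [show k + (e :: es).length = (k + es.length) + 1 by simp; omega]
                refine Comp.step hph ?_ ?_
                · intro ho
                  have ho' := hodd.1 ho
                  rw [if_pos ho', if_pos ho'] at hgoal
                  rwa [q1] at hgoal
                · intro ho
                  have ho' : ¬ odd = true := fun hx => by
                    have := hodd.2 hx
                    omega
                  rw [if_neg ho', if_neg ho'] at hgoal
                  rwa [r1] at hgoal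
              · rw [if_neg hc] at h
                simp at h

/-- the final state: the last cell is a letter -/
theorem Comp.final' {cs : List Cell} {W : List ℕ} {pos : ℕ → ℕ} {n v : ℕ}
    (hpos : treeleaf3_Pos false cs W pos) (hn : cs.length = n + 1)
    (hl : cs[n]? = some (Cell.L v)) : Comp W 0 (pos n) (pos (n + 1)) (pos n) := by
  obtain ⟨h1, -, -⟩ := hpos.let1 n v hl
  have h2 := hpos.e
  rw [hn, h1] at h2
  rw [h1]
  exact Comp.final h2.symm

end Pool.Agent.H.MP_2e666d_lc.T3
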