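import Mathlib

/-! # Basic definitions: the counter machine and the well-order `B` of type `ω^(ω^3)`

A state gives for every level `0, 1, 2, 3` the number of pending draws.  A draw happens at the
lowest level `g` with a pending draw; if `g ≥ 1` and the drawn number is `n`, then `n + 1`
draws of level `g - 1` become pending. -/

namespace Pool.Agent.H.MP_2e666d_lc

/-- lowest level with a pending draw (`0` if there is none) -/
noncomputable def lev (c : ℕ → ℕ) : ℕ := sInf {g | c g ≠ 0}

/-- one draw -/
noncomputable def rd (c : ℕ → ℕ) (n : ℕ) : ℕ → ℕ := fun j =>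
  if j = lev c then c j - 1 else if j + 1 = lev c then n + 1 else c j

/-- complete lists from the state `c` -/
def cpl : (ℕ → ℕ) → List ℕ → Prop
  | c, [] => ∀ g, c g = 0
  | c, n :: l => (∃ g, c g ≠ 0) ∧ cpl (rd c n) l

/-- one pending draw of level `3` -/
def one3 : ℕ → ℕ := fun g => if g = 3 then 1 else 0

/-- the ordered set of type `ω^(ω^3)` (lexicographic order) -/
def B : Type := {l : List ℕ // cpl one3 l}

noncomputable instance : LinearOrder B := inferInstanceAs (LinearOrder {l : List ℕ // cpl one3 l})

/-- the root of an element -/
def rt (x : B) : ℕ := x.1.headD 0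

end Pool.Agent.H.MP_2e666d_lc
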