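import Pool.Agent.H.MP_2e666d_lc.Defs

/-! # Complete lists: padding and concatenation -/

namespace Pool.Agent.H.MP_2e666d_lc

/-- states with `k` draws of level `g` -/
def st (g k : ℕ) : ℕ → ℕ := fun j => if j = g then k else 0

theorem EMb_lev_eq (c : ℕ → ℕ) (j : ℕ) (hj : ∀ g < j, c g = 0) (h : c j ≠ 0) : lev c = j := by
  unfold lev
  apply le_antisymm
  · exact Nat.sInf_le h
  · apply le_csInf ⟨j, h⟩
    intro b hb
    by_contra hlt
    exact hb (hj b (by omega))

theorem EMb_lev_ne (c : ℕ → ℕ) (hc : ∃ g, c g ≠ 0) : c (lev c) ≠ 0 :=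
  Nat.sInf_mem (s := {g | c g ≠ 0}) hc

theorem EMb_lt_lev (c : ℕ → ℕ) (i : ℕ) (h : i < lev c) : c i = 0 := by
  by_contra h'
  exact Nat.notMem_of_lt_sInf h h'

/-- a superfluous draw of level `j` is completed by zeros -/
theorem cpl_zeros (c : ℕ → ℕ) (j : ℕ) (hj : ∀ g < j, c g = 0) (l : List ℕ) (h : cpl c l) :
    cpl (fun g => if g = j then c g + 1 else c g) (List.replicate (j + 1) 0 ++ l) := by
  induction j with
  | zero =>
    have hl : lev (fun g => if g = 0 then c g + 1 else c g) = 0 :=
      EMb_lev_eq _ 0 (fun g hg => absurd hg (Nat.not_lt_zero g)) (by simp)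
    have hr : rd (fun g => if g = 0 then c g + 1 else c g) 0 = c := by
      funext i
      unfold rd
      rw [hl]
      by_cases hi : i = 0
      · simp [hi]
      · simp [hi]
    show cpl _ (0 :: l)
    exact ⟨⟨0, by simp⟩, by rw [hr]; exact h⟩
  | succ j ih =>
    have hl : lev (fun g => if g = j + 1 then c g + 1 else c g) = j + 1 :=
      EMb_lev_eq _ (j + 1) (fun g hg => by
        have : g ≠ j + 1 := by omega
        simp only [this, if_false]
        exact hj g hg) (by simp)
    have hr : rd (fun g => if g = j + 1 then c g + 1 else c g) 0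
        = fun g => if g = j then c g + 1 else c g := by
      funext i
      unfold rd
      rw [hl]
      by_cases hi : i = j + 1
      · subst hi
        simp
      · by_cases hi2 : i = j
        · subst hi2
          have := hj i (by omega)
          simp [this]
        · have h3 : ¬ (i + 1 = j + 1) := by omega
          simp [hi, hi2, h3]
    have hx : List.replicate (j + 1 + 1) 0 ++ l = 0 :: (List.replicate (j + 1) 0 ++ l) := by
      rw [List.replicate_succ]
      rfl
    rw [hx]
    refine ⟨⟨j + 1, by simp⟩, ?_⟩
    rw [hr]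
    exact ih (fun g hg => hj g (by omega))

theorem EMb_append_lt (k : ℕ) (x y : List ℕ) (h : x < y) :
    List.replicate k 0 ++ x < List.replicate k 0 ++ y := by
  induction k with
  | zero => simpa using h
  | succ k ih =>
    rw [List.replicate_succ, List.cons_append, List.cons_append]
    exact List.cons_lt_cons_iff.mpr (Or.inr ⟨rfl, ih⟩)

theorem EMb_rd_succ (c : ℕ → ℕ) (n g : ℕ) (hg : lev c = g + 1) :
    rd c (n + 1) = fun i => if i = g then rd c n i + 1 else rd c n i := by
  funext i
  unfold rd
  rw [hg]
  by_cases hi : i = g + 1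
  · subst hi
    simp
  · by_cases hi2 : i = g
    · subst hi2
      simp
    · have h3 : ¬ (i + 1 = g + 1) := by omega
      simp [hi, hi2, h3]

theorem EMb_pad (c : ℕ → ℕ) (n g m : ℕ) (hg : lev c = g + 1) (l : List ℕ)
    (h : cpl (rd c n) l) : cpl (rd c (n + m)) (List.replicate (m * (g + 1)) 0 ++ l) := by
  induction m with
  | zero => simpa using h
  | succ m ih =>
    have hz : ∀ i < g, rd c (n + m) i = 0 := by
      intro i hi
      unfold rd
      rw [hg]
      have h1 : i ≠ g + 1 := by omega
      have h2 : ¬ (i + 1 = g + 1) := by omega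
      simp only [h1, h2, if_false]
      exact EMb_lt_lev c i (by omega)
    have := cpl_zeros (rd c (n + m)) g hz _ ih
    rw [← add_assoc, EMb_rd_succ c (n + m) g hg]
    rw [← List.append_assoc, List.replicate_append_replicate] at this
    have h3 : (m + 1) * (g + 1) = g + 1 + m * (g + 1) := by ring
    rw [h3]
    exact this

/-- order embeddings between the sets of complete lists of the states after draws -/
theorem cpl_pad (c : ℕ → ℕ) (n n' : ℕ) (h : n ≤ n') (hs : ∀ g, 3 < g → c g = 0)
    (hc : ∃ g, c g ≠ 0) :
    ∃ f : {l // cpl (rd c n) l} → {l // cpl (rd c n') l}, ∀ x y, x.1 < y.1 → (f x).1 < (f y).1 := by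
  obtain ⟨m, rfl⟩ := Nat.exists_eq_add_of_le h
  rcases Nat.eq_zero_or_pos (lev c) with h0 | h0
  · have hr : rd c n = rd c (n + m) := by
      funext i
      unfold rd
      rw [h0]
      by_cases hi : i = 0
      · simp [hi]
      · simp [hi]
    rw [← hr]
    exact ⟨id, fun x y hxy => hxy⟩
  · obtain ⟨g, hg⟩ := Nat.exists_eq_add_of_le h0
    have hg' : lev c = g + 1 := by omega
    refine ⟨fun x => ⟨List.replicate (m * (g + 1)) 0 ++ x.1, EMb_pad c n g m hg' x.1 x.2⟩, ?_⟩
    intro x y hxy
    exact EMb_append_lt _ _ _ hxy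

theorem EMb_append (k' : ℕ) (q : List ℕ) (hq : cpl (st 2 k') q) (p : List ℕ) :
    ∀ c : ℕ → ℕ, (∀ g, 2 < g → c g = 0) → cpl c p → cpl (fun g => c g + st 2 k' g) (p ++ q) := by
  induction p with
  | nil =>
    intro c _ hp
    have : (fun g => c g + st 2 k' g) = st 2 k' := by
      funext g
      have := hp g
      simp [this]
    rw [this]
    exact hq
  | cons n l ih =>
    intro c hc hp
    obtain ⟨hex, hl⟩ := hp
    have hne := EMb_lev_ne c hex
    have hle : lev c ≤ 2 := by
      by_contra hgt
      exact hne (hc _ (by omega))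
    have hlev : lev (fun g => c g + st 2 k' g) = lev c := by
      apply EMb_lev_eq
      · intro g hg
        have h1 := EMb_lt_lev c g hg
        have h2 : g ≠ 2 := by omega
        simp [h1, st, h2]
      · intro h0
        apply hne
        have h1 : c (lev c) + st 2 k' (lev c) = 0 := h0
        omega
    have hrd : rd (fun g => c g + st 2 k' g) n = fun g => rd c n g + st 2 k' g := by
      funext i
      unfold rd
      rw [hlev]
      by_cases hi : i = lev c
      · simp only [hi, if_true]
        have : 1 ≤ c (lev c) := Nat.one_le_iff_ne_zero.mpr hne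
        omega
      · by_cases hi2 : i + 1 = lev c
        · have h2 : i ≠ 2 := by omega
          simp only [hi, hi2, if_true, if_false]
          simp [st, h2]
        · simp only [hi, hi2, if_false]
    refine ⟨?_, ?_⟩
    · obtain ⟨g, hg⟩ := hex
      exact ⟨g, by intro h0; apply hg; have h1 : c g + st 2 k' g = 0 := h0; omega⟩
    · rw [hrd]
      apply ih _ _ hl
      intro g hg
      unfold rd
      have h1 : g ≠ lev c := by omega
      have h2 : ¬ (g + 1 = lev c) := by omega
      simp only [h1, h2, if_false]
      exact hc g hg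

/-- concatenation -/
theorem cpl_append (k k' : ℕ) (p q : List ℕ) (hp : cpl (st 2 k) p) (hq : cpl (st 2 k') q) :
    cpl (st 2 (k + k')) (p ++ q) := by
  have h := EMb_append k' q hq p (st 2 k) (fun g hg => by
    have : g ≠ 2 := by omega
    simp [st, this]) hp
  have he : (fun g => st 2 k g + st 2 k' g) = st 2 (k + k') := by
    funext g
    unfold st
    by_cases hg : g = 2 <;> simp [hg]
  rw [he] at h
  exact h

/-- a complete list is not a proper initial segment of another one -/
theorem cpl_prefix (c : ℕ → ℕ) (p q : List ℕ) (hp : cpl c p) (hq : cpl c q) (h : p <+: q) :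
    p = q := by
  induction p generalizing c q with
  | nil =>
    cases q with
    | nil => rfl
    | cons n l =>
      obtain ⟨⟨g, hg⟩, _⟩ := hq
      exact absurd (hp g) hg
  | cons n l ih =>
    cases q with
    | nil =>
      exact absurd (List.prefix_nil.mp h) (by simp)
    | cons n' l' =>
      obtain ⟨h1, h2⟩ := List.cons_prefix_cons.mp h
      subst h1
      rw [ih (rd c n) l' hp.2 hq.2 h2]

end Pool.Agent.H.MP_2e666d_lc
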