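import Pool.Agent.H.MP_2e666d_lc.Ultra

/-! # Masks -/

namespace Pool.Agent.H.MP_2e666d_lc

/-- length of a selection -/
theorem sel_length (m : List Bool) (F : List ℕ) (h : F.length = m.length) :
    (sel m F).length = m.count true := by
  induction m generalizing F with
  | nil => cases F <;> simp [sel]
  | cons b m ih =>
    cases F with
    | nil => simp at h
    | cons a F =>
      have h' : F.length = m.length := by simpa using h
      cases b with
      | true => simp [sel, ih F h']
      | false => simp [sel, ih F h']

theorem Masks_sel_sublist (m : List Bool) (F : List ℕ) : (sel m F).Sublist F := by
  induction m generalizing F with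
  | nil => cases F <;> simp [sel]
  | cons b m ih =>
    cases F with
    | nil => cases b <;> simp [sel]
    | cons a F =>
      cases b with
      | true => simpa [sel] using ih F
      | false => simpa [sel] using (ih F).cons a

theorem sel_pairwise (m : List Bool) (F : List ℕ) (h : F.Pairwise (· < ·)) :
    (sel m F).Pairwise (· < ·) :=
  h.sublist (Masks_sel_sublist m F)

theorem sel_append_true (m : List Bool) (F : List ℕ) (n : ℕ) (h : F.length = m.length) :
    sel (m ++ [true]) (F ++ [n]) = sel m F ++ [n] := by
  induction m generalizing F with
  | nil =>
    cases F with
    | nil => simp [sel]
    | cons a F => simp at h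
  | cons b m ih =>
    cases F with
    | nil => simp at h
    | cons a F =>
      have h' : F.length = m.length := by simpa using h
      cases b with
      | true => simp [sel, ih F h']
      | false => simp [sel, ih F h']

theorem Masks_mem_gt (m : List Bool) (f : ℕ) (F : List ℕ) (h : (f :: F).Pairwise (· < ·))
    (i a : ℕ) (ha : (sel m F)[i]? = some a) : f < a := by
  have h1 : a ∈ sel m F := List.mem_of_getElem? ha
  exact (List.pairwise_cons.1 h).1 a ((Masks_sel_sublist m F).subset h1)

/-- merging of two increasing lists by masks -/
theorem merge_masks (xs ys : List ℕ) (hx : xs.Pairwise (· < ·)) (hy : ys.Pairwise (· < ·)) :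
    ∃ mx my : List Bool, mx.length = my.length ∧ mx.count true = xs.length ∧
      my.count true = ys.length ∧
      ∀ F : List ℕ, F.length = mx.length → F.Pairwise (· < ·) →
        ∀ (i j x y a b : ℕ), xs[i]? = some x → ys[j]? = some y → (sel mx F)[i]? = some a →
          (sel my F)[j]? = some b → ((a < b ↔ x < y) ∧ (b < a ↔ y < x)) := by
  match xs, ys, hx, hy with
  | [], ys, _, _ =>
    refine ⟨List.replicate ys.length false, List.replicate ys.length true, by simp, ?_, by simp, ?_⟩
    · simp [List.count_replicate]
    · intro F _ _ i j x y a b h1
      simp at h1
  | x0 :: xs, [], _, _ =>
    refine ⟨List.replicate (x0 :: xs).length true, List.replicate (x0 :: xs).length false,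
      by simp, by simp, ?_, ?_⟩
    · simp [List.count_replicate]
    · intro F _ _ i j x y a b _ h1
      simp at h1
  | x0 :: xs, y0 :: ys, hx, hy =>
    have hx' := List.pairwise_cons.1 hx
    have hy' := List.pairwise_cons.1 hy
    have hxm : ∀ (i x : ℕ), xs[i]? = some x → x0 < x := fun i x h =>
      hx'.1 x (List.mem_of_getElem? h)
    have hym : ∀ (i y : ℕ), ys[i]? = some y → y0 < y := fun i y h =>
      hy'.1 y (List.mem_of_getElem? h)
    rcases lt_trichotomy x0 y0 with hlt | heq | hgt
    · obtain ⟨mx, my, hl, c1, c2, hF⟩ := merge_masks xs (y0 :: ys) hx'.2 hy
      refine ⟨true :: mx, false :: my, by simp [hl], by simp [c1], by simpa using c2, ?_⟩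
      intro F hFl hFp i j x y a b h1 h2 h3 h4
      cases F with
      | nil => simp at hFl
      | cons f F =>
        have hFl' : F.length = mx.length := by simpa using hFl
        have hFp' := List.pairwise_cons.1 hFp
        have hb : f < b := by
          refine Masks_mem_gt my f F hFp j b ?_
          simpa [sel] using h4
        have hy2 : x0 < y := by
          cases j with
          | zero =>
            simp at h2
            omega
          | succ j =>
            have := hym j y (by simpa using h2)
            omega
        cases i with
        | zero =>
          simp at h1
          simp [sel] at h3
          subst h1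
          subst h3
          constructor
          · exact ⟨fun _ => hy2, fun _ => hb⟩
          · constructor
            · intro h
              omega
            · intro h
              omega
        | succ i =>
          exact hF F hFl' hFp'.2 i j x y a b (by simpa using h1) h2 (by simpa [sel] using h3)
            (by simpa [sel] using h4)
    · obtain ⟨mx, my, hl, c1, c2, hF⟩ := merge_masks xs ys hx'.2 hy'.2
      refine ⟨true :: mx, true :: my, by simp [hl], by simp [c1], by simp [c2], ?_⟩
      intro F hFl hFp i j x y a b h1 h2 h3 h4
      cases F with
      | nil => simp at hFl
      | cons f F =>
        have hFl' : F.length = mx.length := by simpa using hFl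
        have hFp' := List.pairwise_cons.1 hFp
        cases i with
        | zero =>
          simp at h1
          simp [sel] at h3
          subst h1
          subst h3
          cases j with
          | zero =>
            simp at h2
            simp [sel] at h4
            subst h2
            subst h4
            subst heq
            simp
          | succ j =>
            have hb : f < b := Masks_mem_gt my f F hFp j b (by simpa [sel] using h4)
            have hy2 := hym j y (by simpa using h2)
            constructor <;> constructor <;> intro h <;> omega
        | succ i =>
          have ha : f < a := Masks_mem_gt mx f F hFp i a (by simpa [sel] using h3)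
          have hx2 := hxm i x (by simpa using h1)
          cases j with
          | zero =>
            simp at h2
            simp [sel] at h4
            subst h2
            subst h4
            constructor <;> constructor <;> intro h <;> omega
          | succ j =>
            exact hF F hFl' hFp'.2 i j x y a b (by simpa using h1) (by simpa using h2)
              (by simpa [sel] using h3) (by simpa [sel] using h4)
    · obtain ⟨mx, my, hl, c1, c2, hF⟩ := merge_masks (x0 :: xs) ys hx hy'.2
      refine ⟨false :: mx, true :: my, by simp [hl], by simpa using c1, by simp [c2], ?_⟩
      intro F hFl hFp i j x y a b h1 h2 h3 h4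
      cases F with
      | nil => simp at hFl
      | cons f F =>
        have hFl' : F.length = mx.length := by simpa using hFl
        have hFp' := List.pairwise_cons.1 hFp
        have ha : f < a := by
          refine Masks_mem_gt mx f F hFp i a ?_
          simpa [sel] using h3
        have hx2 : y0 < x := by
          cases i with
          | zero =>
            simp at h1
            omega
          | succ i =>
            have := hxm i x (by simpa using h1)
            omega
        cases j with
        | zero =>
          simp at h2
          simp [sel] at h4
          subst h2
          subst h4
          constructor <;> constructor <;> intro h <;> omega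
        | succ j =>
          exact hF F hFl' hFp'.2 i j x y a b h1 (by simpa using h2) (by simpa [sel] using h3)
            (by simpa [sel] using h4)
termination_by xs.length + ys.length

end Pool.Agent.H.MP_2e666d_lc
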