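import Pool.Agent.H.MP_2e666d_lc.FEv
import Pool.Agent.H.MP_2e666d_lc.Masks

/-! # Consistent positions: lengths and numbers -/

namespace Pool.Agent.H.MP_2e666d_lc

open Pos

variable {τ : Type} {T : Set τ}

theorem nA_length (A : ℕ → List Bool) (J' : List ℕ) (g : ℕ) :
    (nA A J' g).length = rd (fun g => (A g).length) (J'.getLastD 0) g := by
  unfold nA rd
  change _ = if g = levL A then (A g).length - 1 else if g + 1 = levL A then J'.getLastD 0 + 1
    else (A g).length
  split_ifs
  · simp
  · simp [mkA]
  · rfl

theorem FLen_last (m : List Bool) (J' : List ℕ) (h : J'.length = m.length + 1) :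
    (sel (m ++ [true]) J').getLastD 0 = J'.getLastD 0 := by
  rcases List.eq_nil_or_concat J' with rfl | ⟨F, n, rfl⟩
  · simp at h
  · have hF : F.length = m.length := by simpa using h
    rw [List.concat_eq_append, sel_append_true m F n hF]
    simp

theorem FLen_evOf (u : Bool) (h : List (Bool × List ℕ)) (v : Bool) (J' : List ℕ) :
    evOf u (h ++ [(v, J')]) = evOf u h ++ (if v = u then [J'] else []) := by
  unfold evOf
  rw [List.filter_append, List.map_append]
  congr 1
  by_cases hv : v = u
  · simp [hv]
  · simp [hv]

theorem FLen_Afree (Js : List (List ℕ)) (J' : List ℕ) :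
    Afree (Js ++ [J']) = nA (Afree Js) J' := by
  unfold Afree
  rw [List.foldl_append]
  rfl

theorem FLen_ne (u v : Bool) (h : v ≠ u) : u = !v := by
  cases u <;> cases v <;> simp_all

theorem cons_len (h : List (Bool × List ℕ)) (q : Pos τ) (hq : Cons T h q) (u : Bool) (g : ℕ) :
    (q.s u g).length = (Afree (evOf u h) g).length := by
  induction hq generalizing g with
  | nil φ1 φ2 h1 h2 =>
    show (if g = 3 then _ else []).length = (A0 g).length
    unfold A0
    by_cases hg : g = 3
    · simp [hg]
    · simp [hg]
  | snoc h p J' m ts hp hdn hann hl hc ih =>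
    rw [FLen_evOf]
    by_cases hu : p.mv = u
    · subst hu
      rw [if_pos rfl, FLen_Afree, adv_s_mv, newS_length, nA_length, FLen_last m J' hl]
      congr 1
      funext g'
      exact ih g'
    · rw [if_neg hu, List.append_nil]
      have hu' := FLen_ne u p.mv hu
      subst hu'
      rw [adv_s_other]
      exact ih g

theorem cons_v (h : List (Bool × List ℕ)) (q : Pos τ) (hq : Cons T h q) (u : Bool) :
    q.v u = (evOf u h).map (fun J => J.getLastD 0) := by
  induction hq with
  | nil φ1 φ2 h1 h2 => rfl
  | snoc h p J' m ts hp hdn hann hl hc ih =>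
    rw [FLen_evOf]
    by_cases hu : p.mv = u
    · subst hu
      rw [if_pos rfl, adv_v_mv, FLen_last m J' hl, List.map_append, ih]
      rfl
    · rw [if_neg hu, List.append_nil]
      have hu' := FLen_ne u p.mv hu
      subst hu'
      rw [adv_v_other]
      exact ih

end Pool.Agent.H.MP_2e666d_lc
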