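import Pool.Agent.H.MP_2e666d_lc.FCount
import Pool.Agent.H.MP_2e666d_lc.EMb
import Pool.Agent.H.MP_2e666d_lc.FLen

/-! # The image of a complete element -/

namespace Pool.Agent.H.MP_2e666d_lc

open Pos

/-- states along a complete list -/
theorem DichB_cpl_states (l : List ℕ) : ∀ c : ℕ → ℕ, cpl c l →
    (∀ (s : List ℕ) (n : ℕ), s ++ [n] <+: l → ∃ g, s.foldl rd c g ≠ 0) ∧
      ∀ g, l.foldl rd c g = 0 := by
  induction l with
  | nil =>
    intro c h
    refine ⟨?_, h⟩
    intro s n hs
    have := hs.length_le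
    simp at this
  | cons a l ih =>
    intro c h
    obtain ⟨h1, h2⟩ := h
    obtain ⟨h3, h4⟩ := ih _ h2
    refine ⟨?_, h4⟩
    intro s n hs
    cases s with
    | nil => exact h1
    | cons b s =>
      rw [List.cons_append, List.cons_prefix_cons] at hs
      obtain ⟨rfl, hs⟩ := hs
      exact h3 s n hs

theorem DichB_VN (x : B) : VN x.1 := (DichB_cpl_states x.1 one3 x.2).1

theorem DichB_st (x : B) : ∀ g, stS x.1 g = 0 := (DichB_cpl_states x.1 one3 x.2).2

theorem DichB_ne (x : B) : x.1 ≠ [] := by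
  intro h
  have h1 : cpl one3 x.1 := x.2
  rw [h] at h1
  have h2 := h1 3
  simp [one3] at h2

theorem DichB_VN_prefix {s t : List ℕ} (ht : VN t) (h : s <+: t) : VN s :=
  fun s' n hs => ht s' n (hs.trans h)

/-- completeness of the labels of a list of events -/
theorem DichB_cpl_of (Js : List (List ℕ)) : ∀ A : ℕ → List Bool,
    (∀ (Js1 : List (List ℕ)) (J : List ℕ) (Js2 : List (List ℕ)), Js = Js1 ++ J :: Js2 →
      ¬ ∀ g, Js1.foldl nA A g = []) →
    (∀ g, Js.foldl nA A g = []) →
    cpl (fun g => (A g).length) (Js.map (fun J => J.getLastD 0)) := by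
  induction Js with
  | nil =>
    intro A _ h2 g
    have := h2 g
    simp only [List.foldl_nil] at this
    simp [this]
  | cons J Js ih =>
    intro A h1 h2
    rw [List.map_cons]
    refine ⟨?_, ?_⟩
    · have h3 := h1 [] J Js rfl
      by_contra h4
      apply h3
      intro g
      by_contra h5
      exact h4 ⟨g, fun h6 => h5 (List.length_eq_zero_iff.1 h6)⟩
    · have h3 : rd (fun g => (A g).length) (J.getLastD 0) = fun g => (nA A J g).length := by
        funext g
        exact (nA_length A J g).symm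
      rw [h3]
      apply ih
      · intro Js1 J' Js2 h4
        have := h1 (J :: Js1) J' Js2 (by rw [h4]; rfl)
        exact this
      · exact h2

theorem DichB_evs_snoc (gr : ℕ → List (List ℕ)) (s : List ℕ) (n : ℕ) :
    evs gr (s ++ [n]) = evs gr s ++ gr (num (s ++ [n])) := by
  unfold evs
  rw [List.length_append, List.length_singleton, List.range_succ, List.flatMap_append]
  congr 1
  · rw [List.flatMap_def, List.flatMap_def]
    congr 1
    apply List.map_congr_left
    intro i hi
    rw [List.mem_range] at hi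
    rw [List.take_append_of_le_length (by omega)]
  · rw [List.flatMap_singleton]
    congr 2
    rw [List.take_of_length_le]
    simp

theorem DichB_evs_prefix (gr : ℕ → List (List ℕ)) (t : List ℕ) : ∀ s, s <+: t →
    evs gr s <+: evs gr t := by
  induction t using List.reverseRecOn with
  | nil =>
    intro s hs
    rw [List.prefix_nil] at hs
    rw [hs]
  | append_singleton t n ih =>
    intro s hs
    rw [List.prefix_concat_iff] at hs
    rcases hs with rfl | hs
    · exact List.prefix_rfl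
    · rw [DichB_evs_snoc]
      exact (ih s hs).trans (List.prefix_append _ _)

theorem DichB_hg (gr : ℕ → List (List ℕ))
    (hg : ∀ s n, VN s → (∃ g, stS s g ≠ 0) → FullGrp (Afree (evs gr s)) (stS s) n
      (gr (num (s ++ [n])))) (s : List ℕ) (hs : VN s) :
    ∀ s' n, s' ++ [n] <+: s → FullGrp (Afree (evs gr s')) (stS s') n
      (gr (num (s' ++ [n]))) := by
  intro s' n h
  exact hg s' n (DichB_VN_prefix hs ((List.prefix_append _ _).trans h)) (hs s' n h)

theorem DichB_split {α : Type*} (P Q Js1 : List α) (J : α) (Js2 : List α)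
    (h : P ++ Q = Js1 ++ J :: Js2) :
    (∃ R, P = Js1 ++ J :: R) ∨ ∃ R, Js1 = P ++ R ∧ Q = R ++ J :: Js2 := by
  rw [List.append_eq_append_iff] at h
  rcases h with ⟨R, h1, h2⟩ | ⟨R, h1, h2⟩
  · exact Or.inr ⟨R, h1, h2⟩
  · cases R with
    | nil =>
      right
      refine ⟨[], ?_, ?_⟩
      · rw [h1]; simp
      · rw [List.nil_append] at h2
        rw [List.nil_append]; exact h2.symm
    | cons b R =>
      left
      rw [List.cons_append, List.cons.injEq] at h2
      obtain ⟨rfl, _⟩ := h2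
      exact ⟨R, h1⟩

theorem DichB_nonempty (gr : ℕ → List (List ℕ))
    (hg : ∀ s n, VN s → (∃ g, stS s g ≠ 0) → FullGrp (Afree (evs gr s)) (stS s) n
      (gr (num (s ++ [n])))) (s : List ℕ) : VN s →
    ∀ (Js1 : List (List ℕ)) (J : List ℕ) (Js2 : List (List ℕ)), evs gr s = Js1 ++ J :: Js2 →
      ¬ ∀ g, Js1.foldl nA A0 g = [] := by
  induction s using List.reverseRecOn with
  | nil =>
    intro _ Js1 J Js2 h
    exfalso
    have h1 : evs gr [] = [] := rfl
    rw [h1] at h
    simp at h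
  | append_singleton s n ih =>
    intro hs Js1 J Js2 h
    have hs' : VN s := DichB_VN_prefix hs (List.prefix_append _ _)
    rw [DichB_evs_snoc] at h
    rcases DichB_split _ _ _ _ _ h with ⟨R, hR⟩ | ⟨R, hR1, hR2⟩
    · exact ih hs' Js1 J R hR
    · have hex : ∃ g, stS s g ≠ 0 := hs s n List.prefix_rfl
      obtain ⟨h1, h2, _⟩ := evs_count gr s hs' (DichB_hg gr hg s hs')
      have h3 := (full_wf _ _ n _ h1 h2 hex (hg s n hs' hex) R Js2 J hR2).1
      rw [hR1, List.foldl_append]
      exact h3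

/-- the image of a complete source element is complete -/
theorem image_cpl (gr : ℕ → List (List ℕ)) (x : B)
    (hg : ∀ s n, VN s → (∃ g, stS s g ≠ 0) → FullGrp (Afree (evs gr s)) (stS s) n
      (gr (num (s ++ [n])))) :
    cpl one3 ((evs gr x.1).map (fun J => J.getLastD 0)) := by
  have h1 : one3 = fun g => (A0 g).length := by
    funext g
    by_cases hg3 : g = 3 <;> simp [one3, A0, hg3]
  have h2 := DichB_cpl_of (evs gr x.1) A0 (DichB_nonempty gr hg x.1 (DichB_VN x))
    ((evs_count gr x.1 (DichB_VN x) (DichB_hg gr hg x.1 (DichB_VN x))).2.2 (DichB_ne x)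
      (DichB_st x))
  have h3 : ∀ w : ℕ → ℕ, w = (fun g => (A0 g).length) →
      cpl w ((evs gr x.1).map (fun J => J.getLastD 0)) := by
    intro w hw
    subst hw
    exact h2
  exact h3 one3 h1

theorem DichB_lex (l : List ℕ) : ∀ l' : List ℕ, l < l' → ¬ l <+: l' →
    ∃ s n r n' r', l = s ++ n :: r ∧ l' = s ++ n' :: r' ∧ n < n' := by
  induction l with
  | nil =>
    intro l' _ h
    exact absurd List.nil_prefix h
  | cons a l ih =>
    intro l' h h'
    cases l' with
    | nil => exact absurd h (List.not_lt_nil _)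
    | cons b l' =>
      rw [List.cons_lt_cons_iff] at h
      rcases h with h | ⟨rfl, h⟩
      · exact ⟨[], a, l, b, l', rfl, rfl, h⟩
      · have h2 : ¬ l <+: l' := fun h3 => h' (List.cons_prefix_cons.2 ⟨rfl, h3⟩)
        obtain ⟨s, n, r, n', r', h3, h4, h5⟩ := ih l' h h2
        exact ⟨a :: s, n, r, n', r', by rw [h3]; rfl, by rw [h4]; rfl, h5⟩

theorem DichB_lt_append (p : List ℕ) (a a' : ℕ) (r r' : List ℕ) (h : a < a') :
    p ++ a :: r < p ++ a' :: r' := by
  induction p with
  | nil =>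
    rw [List.nil_append, List.nil_append, List.cons_lt_cons_iff]
    exact Or.inl h
  | cons b p ih =>
    rw [List.cons_append, List.cons_append, List.cons_lt_cons_iff]
    exact Or.inr ⟨rfl, ih⟩

/-- the first event of a group -/
theorem DichB_group (gr : ℕ → List (List ℕ))
    (hg : ∀ s n, VN s → (∃ g, stS s g ≠ 0) → FullGrp (Afree (evs gr s)) (stS s) n
      (gr (num (s ++ [n])))) (s : List ℕ) (n : ℕ) (t : List ℕ) (ht : VN t)
    (hst : s ++ [n] <+: t) :
    ∃ J Js Js', gr (num (s ++ [n])) = J :: Js ∧ J ≠ [] ∧ evs gr t = evs gr s ++ J :: Js' := by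
  have hs : VN s := DichB_VN_prefix ht ((List.prefix_append _ _).trans hst)
  have hex : ∃ g, stS s g ≠ 0 := ht s n hst
  obtain ⟨h1, h2, _⟩ := evs_count gr s hs (DichB_hg gr hg s hs)
  have h3 := (full_count _ _ n _ h1 h2 hex (hg s n hs hex)).2.2.2
  obtain ⟨J, Js, hJ⟩ := List.exists_cons_of_ne_nil h3
  have h4 := (full_wf _ _ n _ h1 h2 hex (hg s n hs hex) [] Js J hJ).2.1
  obtain ⟨R, hR⟩ := DichB_evs_prefix gr t _ hst
  refine ⟨J, Js, Js ++ R, hJ, h4, ?_⟩
  rw [← hR, DichB_evs_snoc, hJ, List.append_assoc, List.cons_append]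

theorem DichB_last_mem (J : List ℕ) (h : J ≠ []) : J.getLastD 0 ∈ J := by
  rw [List.getLastD_eq_getLast?, List.getLast?_eq_some_getLast h]
  exact List.getLast_mem h

/-- the map preserves the order -/
theorem image_lt (gr : ℕ → List (List ℕ)) (x y : B) (hxy : x < y)
    (hg : ∀ s n, VN s → (∃ g, stS s g ≠ 0) → FullGrp (Afree (evs gr s)) (stS s) n
      (gr (num (s ++ [n]))))
    (hm : ∀ s n, VN s → (∃ g, stS s g ≠ 0) → ∀ j < num (s ++ [n]), ∀ J ∈ gr j, ∀ a ∈ J,
      ∀ J' ∈ gr (num (s ++ [n])), ∀ a' ∈ J', a < a') :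
    (evs gr x.1).map (fun J => J.getLastD 0) < (evs gr y.1).map (fun J => J.getLastD 0) := by
  have hlt : x.1 < y.1 := hxy
  have hnp : ¬ x.1 <+: y.1 := by
    intro h
    have h1 := cpl_prefix one3 x.1 y.1 x.2 y.2 h
    rw [h1] at hlt
    exact lt_irrefl _ hlt
  obtain ⟨s, n, r, n', r', h1, h2, h3⟩ := DichB_lex x.1 y.1 hlt hnp
  have hpx : s ++ [n] <+: x.1 := ⟨r, by rw [h1]; simp⟩
  have hpy : s ++ [n'] <+: y.1 := ⟨r', by rw [h2]; simp⟩
  obtain ⟨J, Js, Js', hJ1, hJ2, hJ3⟩ := DichB_group gr hg s n x.1 (DichB_VN x) hpx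
  obtain ⟨J', Ks, Ks', hK1, hK2, hK3⟩ := DichB_group gr hg s n' y.1 (DichB_VN y) hpy
  rw [hJ3, hK3, List.map_append, List.map_append, List.map_cons, List.map_cons]
  apply DichB_lt_append
  have hs : VN s := DichB_VN_prefix (DichB_VN x) ((List.prefix_append _ _).trans hpx)
  have hex : ∃ g, stS s g ≠ 0 := DichB_VN x s n hpx
  refine hm s n' hs hex (num (s ++ [n])) (num_sib s h3) J ?_ _ (DichB_last_mem J hJ2) J' ?_ _
    (DichB_last_mem J' hK2)
  · rw [hJ1]; exact List.mem_cons_self
  · rw [hK1]; exact List.mem_cons_self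

/-- the map preserves equality of the roots -/
theorem image_rt (gr : ℕ → List (List ℕ)) (x y : B) (hxy : rt x = rt y)
    (hg : ∀ s n, VN s → (∃ g, stS s g ≠ 0) → FullGrp (Afree (evs gr s)) (stS s) n
      (gr (num (s ++ [n])))) :
    ((evs gr x.1).map (fun J => J.getLastD 0)).headD 0 =
      ((evs gr y.1).map (fun J => J.getLastD 0)).headD 0 := by
  obtain ⟨a, r, hx⟩ := List.exists_cons_of_ne_nil (DichB_ne x)
  obtain ⟨b, r', hy⟩ := List.exists_cons_of_ne_nil (DichB_ne y)
  have hab : a = b := by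
    have h1 : rt x = a := by unfold rt; rw [hx]; rfl
    have h2 : rt y = b := by unfold rt; rw [hy]; rfl
    rw [← h1, ← h2, hxy]
  subst hab
  obtain ⟨J, Js, Js', hJ1, hJ2, hJ3⟩ := DichB_group gr hg [] a x.1 (DichB_VN x)
    ⟨r, by rw [hx]; rfl⟩
  obtain ⟨J', Ks, Ks', hK1, hK2, hK3⟩ := DichB_group gr hg [] a y.1 (DichB_VN y)
    ⟨r', by rw [hy]; rfl⟩
  have hev : evs gr [] = [] := rfl
  rw [hJ1, List.cons.injEq] at hK1
  rw [hJ3, hK3, hev, List.nil_append, List.nil_append, List.map_cons, List.map_cons, hK1.1]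
  rfl

end Pool.Agent.H.MP_2e666d_lc
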