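import Pool.Agent.H.MP_2e666d_lc.FEv

/-! # Consistent positions -/

namespace Pool.Agent.H.MP_2e666d_lc

open Pos

variable {τ : Type} {T : Set τ}

theorem FCons_inv (h : List (Bool × List ℕ)) (u : Bool) (J' : List ℕ) (q : Pos τ)
    (hq : Cons T (h ++ [(u, J')]) q) :
    ∃ (p : Pos τ) (m : List Bool) (ts : List τ), Cons T h p ∧ p.mv = u ∧ ¬ p.dn p.mv ∧
      p.Ann T ts ∧ J'.length = m.length + 1 ∧ m.count true = ts.length ∧
      q = p.adv ts (sel (m ++ [true]) J') := by
  generalize hH : h ++ [(u, J')] = H at hq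
  cases hq with
  | nil φ1 φ2 h1 h2 => exact absurd hH (by simp)
  | snoc h' p J m ts hp hdn hann hl hc =>
    obtain ⟨h1, h2⟩ := List.append_inj' hH rfl
    simp only [List.cons.injEq, Prod.mk.injEq, and_true] at h2
    obtain ⟨h3, h4⟩ := h2
    subst h1
    subst h4
    exact ⟨p, m, ts, hp, h3.symm, hdn, hann, hl, hc, rfl⟩

theorem cons_append (h : List (Bool × List ℕ)) (u : Bool) (Js : List (List ℕ)) (q : Pos τ) :
    Cons T (h ++ Js.map (fun J => (u, J))) q ↔ ∃ p, Cons T h p ∧ Run T u p Js q := by
  induction Js generalizing h with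
  | nil =>
    rw [List.map_nil, List.append_nil]
    constructor
    · intro hq
      exact ⟨q, hq, Run.nil q⟩
    · rintro ⟨p, hp, hr⟩
      cases hr with
      | nil => exact hp
  | cons J Js ih =>
    have he : h ++ (J :: Js).map (fun J => (u, J)) = (h ++ [(u, J)]) ++ Js.map (fun J => (u, J)) := by
      simp
    rw [he, ih (h ++ [(u, J)])]
    constructor
    · rintro ⟨p', hp', hr⟩
      obtain ⟨p, m, ts, hp, hu, hdn, hann, hl, hc, rfl⟩ := FCons_inv h u J p' hp'
      exact ⟨p, hp, Run.cons p J Js m ts q hu hdn hann hl hc hr⟩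
    · rintro ⟨p, hp, hr⟩
      cases hr with
      | cons _ _ _ m ts _ hu hdn hann hl hc hr' =>
        refine ⟨_, ?_, hr'⟩
        subst hu
        exact Cons.snoc h p J m ts hp hdn hann hl hc

theorem cons_of_run2 (h h' : List (Bool × List ℕ)) (p q : Pos τ) (hp : Cons T h p)
    (hr : Run2 T p h' q) : Cons T (h ++ h') q := by
  induction hr generalizing h with
  | nil p => rwa [List.append_nil]
  | cons p J' h' m ts q hdn hann hl hc hr ih =>
    have he : h ++ (p.mv, J') :: h' = (h ++ [(p.mv, J')]) ++ h' := by simp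
    rw [he]
    exact ih _ (Cons.snoc h p J' m ts hp hdn hann hl hc)

theorem cons_finite (hT : T.Finite) (h : List (Bool × List ℕ)) : {p | Cons T h p}.Finite := by
  induction h using List.reverseRecOn with
  | nil =>
    have hO : (insert none (some '' T) : Set (Option τ)).Finite := (hT.image some).insert none
    refine ((hO.prod hO).image (fun a : Option τ × Option τ => start a.1 a.2)).subset ?_
    intro p hp
    have hp' : Cons T [] p := hp
    generalize hH : ([] : List (Bool × List ℕ)) = H at hp'
    cases hp' with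
    | nil φ1 φ2 h1 h2 =>
      refine ⟨(φ1, φ2), ⟨?_, ?_⟩, rfl⟩
      · cases φ1 with
        | none => exact Or.inl rfl
        | some t => exact Or.inr ⟨t, h1 t rfl, rfl⟩
      · cases φ2 with
        | none => exact Or.inl rfl
        | some t => exact Or.inr ⟨t, h2 t rfl, rfl⟩
    | snoc h' p J m ts hp hdn hann hl hc => exact absurd hH (by simp)
  | append_singleton h e ih =>
    obtain ⟨u, J'⟩ := e
    have hM : {m : List Bool | m.length ≤ J'.length}.Finite := List.finite_length_le Bool _
    have hTS : {ts : List τ | ts.length ≤ J'.length ∧ ∀ t ∈ ts, t ∈ T}.Finite := by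
      have : Finite T := hT.to_subtype
      refine ((List.finite_length_le T J'.length).image (List.map Subtype.val)).subset ?_
      rintro ts ⟨h1, h2⟩
      refine ⟨ts.attach.map (fun t => ⟨t.1, h2 t.1 t.2⟩), ?_, ?_⟩
      · simpa using h1
      · rw [List.map_map]
        exact List.attach_map_subtype_val ts
    refine ((ih.prod (hM.prod hTS)).image (fun a : Pos τ × List Bool × List τ =>
      a.1.adv a.2.2 (sel (a.2.1 ++ [true]) J'))).subset ?_
    intro q hq
    obtain ⟨p, m, ts, hp, hu, hdn, hann, hl, hc, rfl⟩ := FCons_inv h u J' q hq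
    refine ⟨(p, m, ts), ⟨hp, ?_, ?_, hann.1⟩, rfl⟩
    · show m.length ≤ J'.length
      omega
    · have := List.count_le_length (a := true) (l := m)
      show ts.length ≤ J'.length
      omega

end Pool.Agent.H.MP_2e666d_lc
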