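import Pool.Agent.H.MP_2e666d_lc.FBack
import Pool.Agent.H.MP_2e666d_lc.FCons

/-! # The true play of a complete history -/

namespace Pool.Agent.H.MP_2e666d_lc

open Pos

variable {τ : Type} {T : Set τ}

/-- the true play of a complete history -/
theorem true_play (Φ : List ℕ → ℕ → ℕ → τ) (hΦ : ∀ W k g, Φ W k g ∈ T)
    (h : List (Bool × List ℕ)) (hh : WFH (fun _ => A0) h)
    (h0 : ∃ e, h.head? = some e ∧ e.1 = false) :
    ∃ q, Cons T h q ∧ (∀ u, q.dn u) ∧ ∀ f ∈ q.facts, f.2.2 = Φ q.W f.1 f.2.1 := by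
  obtain ⟨S, h1, h2, h3⟩ := back Φ hΦ (wdf [] 0 (fun _ => A0) h) h (fun _ => A0) hh 0 (by
    intro e he
    obtain ⟨e', he', he1⟩ := h0
    rw [he] at he'
    simp only [Option.some.injEq] at he'
    rw [he', he1]
    simp)
  have hS : ∀ u, ∃ φ : Option τ, S u 3 = [φ] ∧ ∀ t, φ = some t → t ∈ T := by
    intro u
    have hl : (S u 3).length = 1 := by rw [h1]; simp [A0]
    obtain ⟨φ, hφ⟩ := List.length_eq_one_iff.mp hl
    refine ⟨φ, hφ, ?_⟩
    intro t ht
    exact (h2 u 3 0 t (by rw [hφ, ht]; simp)).1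
  have hS0 : ∀ u g, g ≠ 3 → S u g = [] := by
    intro u g hg
    apply List.eq_nil_of_length_eq_zero
    rw [h1]
    simp [A0, hg]
  obtain ⟨φ1, e1, t1⟩ := hS false
  obtain ⟨φ2, e2, t2⟩ := hS true
  obtain ⟨q, q1, q2, q3, q4⟩ := h3 (start φ1 φ2) (by
    funext u g
    simp only [start]
    by_cases hg : g = 3
    · subst hg
      cases u
      · simp [e1]
      · simp [e2]
    · rw [if_neg hg, hS0 u g hg]) (by simp [start])
  have hc : Cons T ([] ++ h) q := cons_of_run2 [] h (start φ1 φ2) q (Cons.nil φ1 φ2 t1 t2) q1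
  refine ⟨q, by simpa using hc, q2, ?_⟩
  intro f hf
  rcases q4 f hf with h5 | h5
  · simp [start] at h5
  · rw [h5, q3]
    simp [start]

end Pool.Agent.H.MP_2e666d_lc
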