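import Pool.Agent.H.MP_2e666d_lc.FDef

/-! # Numbering of the nodes and dependent choice -/

namespace Pool.Agent.H.MP_2e666d_lc

theorem num_inj {s t : List ℕ} (h : num s = num t) : s = t := by
  unfold num at h
  exact List.reverse_injective (Encodable.encode_injective h)

theorem num_child (s : List ℕ) (n : ℕ) : num s < num (s ++ [n]) := by
  unfold num
  rw [List.reverse_append, List.reverse_singleton, List.singleton_append,
    Encodable.encode_list_cons]
  exact Nat.lt_succ_of_le (Nat.right_le_pair _ _)

theorem num_sib (s : List ℕ) {n n' : ℕ} (h : n < n') : num (s ++ [n]) < num (s ++ [n']) := by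
  unfold num
  rw [List.reverse_append, List.reverse_singleton, List.singleton_append,
    Encodable.encode_list_cons, List.reverse_append, List.reverse_singleton,
    List.singleton_append, Encodable.encode_list_cons]
  exact Nat.succ_lt_succ (Nat.pair_lt_pair_left _ h)

/-- dependent choice of a sequence, with conditions which look only at an initial part -/
theorem dep_choice {α : Type} [Inhabited α] (Q : ℕ → (ℕ → α) → Prop)
    (hloc : ∀ i f f', (∀ j ≤ i, f j = f' j) → Q i f → Q i f')
    (hstep : ∀ i f, (∀ j < i, Q j f) → ∃ a, Q i (Function.update f i a)) :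
    ∃ f, ∀ i, Q i f := by
  classical
  let F : ℕ → (ℕ → α) := fun k => Nat.rec (fun _ => default)
    (fun k f => if h : ∀ j < k, Q j f then Function.update f k (Classical.choose (hstep k f h))
      else f) k
  have hF : ∀ k, F (k + 1) = if h : ∀ j < k, Q j (F k) then
      Function.update (F k) k (Classical.choose (hstep k (F k) h)) else F k := fun k => rfl
  have hQ : ∀ k, ∀ j < k, Q j (F k) := by
    intro k
    induction k with
    | zero => intro j hj; exact absurd hj (Nat.not_lt_zero j)
    | succ k ih =>
      have h1 : F (k + 1) = Function.update (F k) k (Classical.choose (hstep k (F k) ih)) := by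
        rw [hF, dif_pos ih]
      intro j hj
      rcases Nat.lt_succ_iff_lt_or_eq.1 hj with h | h
      · apply hloc j (F k) _ _ (ih j h)
        intro i hi
        rw [h1, Function.update_of_ne (by omega)]
      · subst h
        rw [h1]
        exact Classical.choose_spec (hstep j (F j) ih)
  have hstab : ∀ k, ∀ j < k, F (k + 1) j = F k j := by
    intro k j hj
    rw [hF, dif_pos (hQ k), Function.update_of_ne (by omega)]
  have hstab2 : ∀ d k, ∀ j < k, F (k + d) j = F k j := by
    intro d
    induction d with
    | zero => intro k j _; rfl
    | succ d ih =>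
      intro k j hj
      rw [← add_assoc, hstab (k + d) j (by omega), ih k j hj]
  refine ⟨fun i => F (i + 1) i, fun i => ?_⟩
  apply hloc i (F (i + 1)) _ _ (hQ (i + 1) i (Nat.lt_succ_self i))
  intro j hj
  have := hstab2 (i - j) (j + 1) j (Nat.lt_succ_self j)
  rw [show j + 1 + (i - j) = i + 1 by omega] at this
  exact this

end Pool.Agent.H.MP_2e666d_lc
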