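import Pool.Agent.H.MP_2e666d_lc.FGrp
import Pool.Agent.H.MP_2e666d_lc.FNum

/-! # Structure after the events of a node -/

namespace Pool.Agent.H.MP_2e666d_lc

open Pos

theorem FCount_evs (gr : ℕ → List (List ℕ)) (s : List ℕ) (n : ℕ) :
    evs gr (s ++ [n]) = evs gr s ++ gr (num (s ++ [n])) := by
  unfold evs
  rw [List.length_append, List.length_singleton, List.range_succ, List.flatMap_append]
  congr 1
  · apply List.flatMap_congr
    intro i hi
    have hi' : i < s.length := List.mem_range.mp hi
    rw [List.take_append_of_le_length (by omega)]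
  · rw [List.flatMap_singleton, List.take_of_length_le (by simp)]

/-- the structure after the events leading to a valid source node -/
theorem evs_count (gr : ℕ → List (List ℕ)) (s : List ℕ) (hs : VN s)
    (hg : ∀ s' n, s' ++ [n] <+: s → FullGrp (Afree (evs gr s')) (stS s') n
      (gr (num (s' ++ [n])))) :
    (∀ g, (Afree (evs gr s) g).count true = stS s g) ∧
      (∀ g, 3 < g → Afree (evs gr s) g = []) ∧
      (s ≠ [] → (∀ g, stS s g = 0) → ∀ g, Afree (evs gr s) g = []) := by
  induction s using List.reverseRecOn with
  | nil =>
    have h0 : ∀ g, Afree (evs gr []) g = A0 g := fun g => rfl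
    refine ⟨?_, ?_, ?_⟩
    · intro g
      rw [h0]
      show (A0 g).count true = one3 g
      unfold A0 one3
      by_cases hg : g = 3 <;> simp [hg]
    · intro g hg
      rw [h0]
      have : g ≠ 3 := by omega
      simp [A0, this]
    · intro h
      exact absurd rfl h
  | append_singleton s n ih =>
    obtain ⟨h1, h2, _⟩ := ih
      (fun s' m hp => hs s' m (hp.trans (List.prefix_append _ _)))
      (fun s' m hp => hg s' m (hp.trans (List.prefix_append _ _)))
    have hne : ∃ g, stS s g ≠ 0 := hs s n List.prefix_rfl
    have hF := hg s n List.prefix_rfl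
    obtain ⟨k1, k2, k3, _⟩ := full_count _ _ n _ h1 h2 hne hF
    have hA : Afree (evs gr (s ++ [n])) = (gr (num (s ++ [n]))).foldl nA (Afree (evs gr s)) := by
      rw [FCount_evs]
      unfold Afree
      rw [List.foldl_append]
    have hst : stS (s ++ [n]) = rd (stS s) n := by
      unfold stS
      rw [List.foldl_append]
      rfl
    rw [hA, hst]
    exact ⟨k1, k2, fun _ => k3⟩

end Pool.Agent.H.MP_2e666d_lc
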