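import Pool.Agent.H.MP_2e666d_lc.FHist
import Pool.Agent.H.MP_2e666d_lc.FCount

/-! # Histories of complete pairs are well-formed -/

namespace Pool.Agent.H.MP_2e666d_lc

open Pos

/-- conditions on one event -/
def FWf_ok (A : ℕ → List Bool) (J' : List ℕ) (last : Prop) : Prop :=
  (¬ ∀ g, A g = []) ∧ J' ≠ [] ∧ J'.Pairwise (· < ·) ∧
    ((A (levL A)).head? = some false → J'.length = 1) ∧
    (levL A = 0 → J'.length = 1) ∧
    (last → (∀ g, nA A J' g = []) ∨ (levL A = 0 ∧ (A 0).head? = some true))

theorem FWf_group (Js : List (List ℕ)) :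
    ∀ (A : Bool → ℕ → List Bool) (u : Bool) (rest : List (Bool × List ℕ)),
      (∀ Js1 J' Js2, Js = Js1 ++ J' :: Js2 → FWf_ok (Js1.foldl nA (A u)) J' (Js2 = [])) →
      WFH (Function.update A u (Js.foldl nA (A u))) rest →
      WFH A (Js.map (fun J => (u, J)) ++ rest) := by
  induction Js with
  | nil =>
    intro A u rest _ h
    simpa using h
  | cons J Js ih =>
    intro A u rest hok h
    obtain ⟨h1, h2, h3, h4, h5, h6⟩ := hok [] J Js rfl
    simp only [List.foldl_nil] at h1 h4 h5 h6
    rw [List.map_cons, List.cons_append]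
    refine WFH.cons A u J _ h1 h2 h3 h4 h5 ?_ ?_
    · intro e he hne
      cases Js with
      | nil => exact h6 rfl
      | cons J2 Js2 =>
        simp only [List.map_cons, List.cons_append, List.head?_cons, Option.some.injEq] at he
        exact absurd (by rw [← he]) hne
    · apply ih
      · intro Js1 J' Js2 hJ
        have := hok (J :: Js1) J' Js2 (by rw [hJ]; rfl)
        simpa using this
      · simpa using h

theorem FWf_cpl (l : List ℕ) : ∀ c : ℕ → ℕ, cpl c l →
    (∀ (s' : List ℕ) (n : ℕ), s' ++ [n] <+: l → ∃ g, s'.foldl rd c g ≠ 0) ∧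
      ∀ g, l.foldl rd c g = 0 := by
  induction l with
  | nil =>
    intro c h
    refine ⟨?_, h⟩
    intro s' n hp
    have := List.prefix_nil.mp hp
    simp at this
  | cons m l ih =>
    intro c h
    obtain ⟨hc, hl⟩ := h
    obtain ⟨h1, h2⟩ := ih _ hl
    refine ⟨?_, h2⟩
    intro s' n hp
    cases s' with
    | nil => exact hc
    | cons a s' =>
      rw [List.cons_append] at hp
      obtain ⟨ha, hp'⟩ := List.cons_prefix_cons.mp hp
      subst ha
      exact h1 s' n hp'

theorem FWf_VN (x : B) : VN x.1 ∧ (∀ g, stS x.1 g = 0) ∧ x.1 ≠ [] := by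
  obtain ⟨h1, h2⟩ := FWf_cpl x.1 one3 x.2
  refine ⟨h1, h2, ?_⟩
  intro h
  have h3 := x.2
  rw [h] at h3
  have h4 : one3 3 = 0 := h3 3
  simp [one3] at h4

theorem FWf_VN_mono {s t : List ℕ} (h : s <+: t) (ht : VN t) : VN s :=
  fun s' n h' => ht s' n (h'.trans h)

theorem FWf_take_succ (x : List ℕ) (j : ℕ) (hj : j < x.length) :
    x.take (j + 1) = x.take j ++ [x[j]] := by
  rw [List.take_succ_eq_append_getElem hj]

theorem FWf_num_take (x : List ℕ) (a b : ℕ) (hab : a < b) (hb : b ≤ x.length) :
    num (x.take a) < num (x.take b) := by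
  induction b with
  | zero => omega
  | succ b ih =>
    have h1 : num (x.take b) < num (x.take (b + 1)) := by
      rw [FWf_take_succ x b (by omega)]
      exact num_child _ _
    rcases Nat.lt_or_ge a b with h | h
    · exact (ih h (by omega)).trans h1
    · have : a = b := by omega
      subst this
      exact h1

theorem FWf_num_take_le (x : List ℕ) (a b : ℕ) (hab : a ≤ b) (hb : b ≤ x.length) :
    num (x.take a) ≤ num (x.take b) := by
  rcases Nat.lt_or_ge a b with h | h
  · exact (FWf_num_take x a b h hb).le
  · have : a = b := by omega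
    rw [this]

theorem FWf_flat {α : Type*} (f : ℕ → List α) (j L : ℕ) (h : j ≤ L) :
    (List.range L).flatMap (fun i => if i < j then f i else []) = (List.range j).flatMap f := by
  induction L with
  | zero =>
    have : j = 0 := by omega
    subst this
    rfl
  | succ L ih =>
    rcases Nat.lt_or_ge L j with h1 | h1
    · have : j = L + 1 := by omega
      subst this
      apply List.flatMap_congr
      intro i hi
      rw [if_pos (List.mem_range.mp hi)]
    · rw [List.range_succ, List.flatMap_append, ih h1]
      simp [Nat.not_lt.mpr h1]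

theorem FWf_evs (gr : ℕ → List (List ℕ)) (T : ℕ) (x : List ℕ) (j : ℕ) (hj : j ≤ x.length)
    (h : ∀ i < x.length, num (x.take (i + 1)) < T ↔ i < j) :
    (List.range x.length).flatMap
      (fun j => if num (x.take (j + 1)) < T then gr (num (x.take (j + 1))) else []) =
      evs gr (x.take j) := by
  have h1 : (List.range x.length).flatMap
      (fun j => if num (x.take (j + 1)) < T then gr (num (x.take (j + 1))) else []) =
      (List.range x.length).flatMap
      (fun i => if i < j then gr (num (x.take (i + 1))) else []) := by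
    apply List.flatMap_congr
    intro i hi
    have := h i (List.mem_range.mp hi)
    by_cases h2 : i < j
    · rw [if_pos h2, if_pos (this.mpr h2)]
    · rw [if_neg h2, if_neg (fun h3 => h2 (this.mp h3))]
  rw [h1, FWf_flat _ j _ hj]
  unfold evs
  rw [List.length_take, min_eq_left hj]
  apply List.flatMap_congr
  intro i hi
  have := List.mem_range.mp hi
  rw [List.take_take, min_eq_left (by omega)]

open Classical in
/-- block of a history -/
noncomputable def FWf_blk (gr : ℕ → List (List ℕ)) (x y : List ℕ) (i : ℕ) :
    List (Bool × List ℕ) :=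
  if ∃ j < x.length, num (x.take (j + 1)) = i then (gr i).map (fun J => (false, J))
    else if ∃ j < y.length, num (y.take (j + 1)) = i then (gr i).map (fun J => (true, J))
    else []

theorem FWf_hist_succ (gr : ℕ → List (List ℕ)) (K : ℕ) (x y : List ℕ) :
    hist gr (K + 1) x y = hist gr K x y ++ FWf_blk gr x y K := by
  unfold hist
  rw [List.range_succ, List.flatMap_append]
  simp [FWf_blk]

theorem FWf_hist_add (gr : ℕ → List (List ℕ)) (T K : ℕ) (x y : List ℕ) (h : T ≤ K) :
    ∃ r, hist gr K x y = hist gr T x y ++ r := by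
  induction K with
  | zero =>
    have : T = 0 := by omega
    subst this
    exact ⟨[], by simp⟩
  | succ K ih =>
    rcases Nat.lt_or_ge K T with h1 | h1
    · have : T = K + 1 := by omega
      subst this
      exact ⟨[], by simp⟩
    · obtain ⟨r, hr⟩ := ih h1
      exact ⟨r ++ FWf_blk gr x y K, by rw [FWf_hist_succ, hr, List.append_assoc]⟩

theorem FWf_evOf_append (u : Bool) (a b : List (Bool × List ℕ)) :
    evOf u (a ++ b) = evOf u a ++ evOf u b := by
  unfold evOf
  rw [List.filter_append, List.map_append]

theorem FWf_evOf_same (u : Bool) (Js : List (List ℕ)) :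
    evOf u (Js.map (fun J => (u, J))) = Js := by
  unfold evOf
  induction Js with
  | nil => rfl
  | cons J Js ih =>
    simp only [List.map_cons, beq_self_eq_true, List.filter_cons_of_pos]
    rw [ih]

theorem FWf_evOf_ne (u v : Bool) (h : v ≠ u) (Js : List (List ℕ)) :
    evOf u (Js.map (fun J => (v, J))) = [] := by
  unfold evOf
  rw [List.map_eq_nil_iff, List.filter_eq_nil_iff]
  intro a ha
  obtain ⟨J, _, rfl⟩ := List.mem_map.mp ha
  simpa using h

theorem FWf_Afree_append (a b : List (List ℕ)) : Afree (a ++ b) = b.foldl nA (Afree a) := by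
  unfold Afree
  rw [List.foldl_append]

/-- the step for a group -/
theorem FWf_step (gr : ℕ → List (List ℕ))
    (hg : ∀ s n, VN s → (∃ g, stS s g ≠ 0) → FullGrp (Afree (evs gr s)) (stS s) n
      (gr (num (s ++ [n])))) (h r : List (Bool × List ℕ)) (u : Bool) (z : List ℕ) (hz : VN z)
    (j : ℕ) (hj : j < z.length)
    (he : evOf u h = evs gr (z.take j))
    (hw : WFH (fun v => Afree (evOf v (h ++ (gr (num (z.take (j + 1)))).map (fun J => (u, J))))) r) :
    WFH (fun v => Afree (evOf v h)) ((gr (num (z.take (j + 1)))).map (fun J => (u, J)) ++ r) := by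
  have htk := FWf_take_succ z j hj
  have hVs : VN (z.take j) := FWf_VN_mono (List.take_prefix _ _) hz
  have hst : ∃ g, stS (z.take j) g ≠ 0 := by
    apply hz (z.take j) z[j]
    rw [← htk]
    exact List.take_prefix _ _
  have hFG := hg (z.take j) z[j] hVs hst
  rw [← htk] at hFG
  have hcnt := evs_count gr (z.take j) hVs (fun s' n hp => by
    have h1 : VN s' := FWf_VN_mono ((List.prefix_append s' [n]).trans hp) hVs
    exact hg s' n h1 (hVs s' n hp))
  apply FWf_group
  · intro Js1 J' Js2 hJ
    have := full_wf (Afree (evs gr (z.take j))) (stS (z.take j)) z[j] _ hcnt.1 hcnt.2.1 hst hFG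
      Js1 Js2 J' hJ
    unfold FWf_ok
    simp only [he]
    exact this
  · have : (Function.update (fun v => Afree (evOf v h)) u
        ((gr (num (z.take (j + 1)))).foldl nA (Afree (evOf u h)))) =
        (fun v => Afree (evOf v (h ++ (gr (num (z.take (j + 1)))).map (fun J => (u, J))))) := by
      funext v
      by_cases hv : v = u
      · subst hv
        rw [Function.update_self, FWf_evOf_append, FWf_evOf_same, FWf_Afree_append]
      · rw [Function.update_of_ne hv, FWf_evOf_append, FWf_evOf_ne v u (Ne.symm hv),
          List.append_nil]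
    simp only [this]
    exact hw

/-- the histories of pairs of complete elements are well-formed -/
theorem wfh_hist (gr : ℕ → List (List ℕ)) (x y : B) (hxy : rt x < rt y) (K : ℕ)
    (hx : num x.1 < K) (hy : num y.1 < K)
    (hg : ∀ s n, VN s → (∃ g, stS s g ≠ 0) → FullGrp (Afree (evs gr s)) (stS s) n
      (gr (num (s ++ [n])))) :
    WFH (fun _ => A0) (hist gr K x.1 y.1) ∧
      ∃ e, (hist gr K x.1 y.1).head? = some e ∧ e.1 = false := by
  classical
  obtain ⟨hVx, hSx, hnx⟩ := FWf_VN x
  obtain ⟨hVy, hSy, hny⟩ := FWf_VN y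
  have hPV : PV x.1 y.1 := ⟨hVx, hVy, fun _ => ⟨hnx, hxy⟩⟩
  have hgs : ∀ z : List ℕ, VN z → ∀ s' n, s' ++ [n] <+: z →
      FullGrp (Afree (evs gr s')) (stS s') n (gr (num (s' ++ [n]))) := by
    intro z hz s' n hp
    exact hg s' n (FWf_VN_mono ((List.prefix_append s' [n]).trans hp) hz) (hz s' n hp)
  have hev : ∀ T j, j ≤ x.1.length → (∀ i < x.1.length, num (x.1.take (i + 1)) < T ↔ i < j) →
      evOf false (hist gr T x.1 y.1) = evs gr (x.1.take j) := by
    intro T j hj h
    rw [evOf_hist_false gr T x.1 y.1 hPV]
    exact FWf_evs gr T x.1 j hj h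
  have hev' : ∀ T j, j ≤ y.1.length → (∀ i < y.1.length, num (y.1.take (i + 1)) < T ↔ i < j) →
      evOf true (hist gr T x.1 y.1) = evs gr (y.1.take j) := by
    intro T j hj h
    rw [evOf_hist_true gr T x.1 y.1 hPV]
    exact FWf_evs gr T y.1 j hj h
  have hiff : ∀ (z : List ℕ) (j : ℕ), j < z.length → ∀ i < z.length,
      num (z.take (i + 1)) < num (z.take (j + 1)) ↔ i < j := by
    intro z j hj i hi
    constructor
    · intro h
      by_contra hcon
      have := FWf_num_take_le z (j + 1) (i + 1) (by omega) (by omega)
      omega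
    · intro h
      exact FWf_num_take z (i + 1) (j + 1) (by omega) (by omega)
  have hiffK : ∀ (z : List ℕ), num z < K → ∀ i < z.length,
      num (z.take (i + 1)) < K ↔ i < z.length := by
    intro z hz i hi
    have h1 := FWf_num_take_le z (i + 1) z.length (by omega) le_rfl
    rw [List.take_length] at h1
    exact ⟨fun _ => hi, fun _ => by omega⟩
  have main : ∀ d T, T + d = K → ∃ r, hist gr K x.1 y.1 = hist gr T x.1 y.1 ++ r ∧
      WFH (fun u => Afree (evOf u (hist gr T x.1 y.1))) r := by
    intro d
    induction d with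
    | zero =>
      intro T hT
      have : T = K := by omega
      subst this
      refine ⟨[], by simp, WFH.nil _ ?_⟩
      intro u g
      cases u with
      | false =>
        rw [hev T x.1.length le_rfl (hiffK x.1 hx), List.take_length]
        exact (evs_count gr x.1 hVx (hgs x.1 hVx)).2.2 hnx hSx g
      | true =>
        rw [hev' T y.1.length le_rfl (hiffK y.1 hy), List.take_length]
        exact (evs_count gr y.1 hVy (hgs y.1 hVy)).2.2 hny hSy g
    | succ d ih =>
      intro T hT
      obtain ⟨r, hr, hw⟩ := ih (T + 1) (by omega)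
      refine ⟨FWf_blk gr x.1 y.1 T ++ r, ?_, ?_⟩
      · rw [hr, FWf_hist_succ, List.append_assoc]
      · rw [FWf_hist_succ] at hw
        unfold FWf_blk at hw ⊢
        by_cases h1 : ∃ j < x.1.length, num (x.1.take (j + 1)) = T
        · rw [if_pos h1] at hw ⊢
          obtain ⟨j, hj, hjT⟩ := h1
          have he := hev T j hj.le (by rw [← hjT]; exact hiff x.1 j hj)
          rw [← hjT] at hw he ⊢
          exact FWf_step gr hg _ r false x.1 hVx j hj he hw
        · rw [if_neg h1] at hw ⊢
          by_cases h2 : ∃ j < y.1.length, num (y.1.take (j + 1)) = T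
          · rw [if_pos h2] at hw ⊢
            obtain ⟨j, hj, hjT⟩ := h2
            have he := hev' T j hj.le (by rw [← hjT]; exact hiff y.1 j hj)
            rw [← hjT] at hw he ⊢
            exact FWf_step gr hg _ r true y.1 hVy j hj he hw
          · rw [if_neg h2] at hw ⊢
            simpa using hw
  constructor
  · obtain ⟨r, hr, hw⟩ := main K 0 (by omega)
    have h0 : hist gr 0 x.1 y.1 = [] := rfl
    rw [h0] at hr hw
    rw [hr, List.nil_append]
    exact hw
  · have hlx : 0 < x.1.length := List.length_pos_of_ne_nil hnx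
    have hly : 0 < y.1.length := List.length_pos_of_ne_nil hny
    have htx : x.1.take 1 = [] ++ [rt x] := by
      unfold rt
      cases hq : x.1 with
      | nil => exact absurd hq hnx
      | cons a l => rfl
    have hty : y.1.take 1 = [] ++ [rt y] := by
      unfold rt
      cases hq : y.1 with
      | nil => exact absurd hq hny
      | cons a l => rfl
    have hempty : hist gr (num (x.1.take 1)) x.1 y.1 = [] := by
      unfold hist
      rw [List.flatMap_eq_nil_iff]
      intro i hi
      have hi' := List.mem_range.mp hi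
      rw [if_neg, if_neg]
      · rintro ⟨j, hj, hji⟩
        have h1 := FWf_num_take_le y.1 1 (j + 1) (by omega) (by omega)
        have h2 := num_sib [] hxy
        rw [← htx, ← hty] at h2
        omega
      · rintro ⟨j, hj, hji⟩
        have h1 := FWf_num_take_le x.1 1 (j + 1) (by omega) (by omega)
        omega
    have hT : num (x.1.take 1) + 1 ≤ K := by
      have h1 := FWf_num_take_le x.1 1 x.1.length (by omega) le_rfl
      rw [List.take_length] at h1
      omega
    obtain ⟨r, hr⟩ := FWf_hist_add gr _ K x.1 y.1 hT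
    rw [FWf_hist_succ, hempty, List.nil_append] at hr
    have hb : FWf_blk gr x.1 y.1 (num (x.1.take 1)) =
        (gr (num (x.1.take 1))).map (fun J => (false, J)) := by
      unfold FWf_blk
      rw [if_pos ⟨0, hlx, rfl⟩]
    rw [hb] at hr
    have hV0 : VN [] := by
      intro s' n hp
      have := List.prefix_nil.mp hp
      simp at this
    have h3 : ∃ g, stS [] g ≠ 0 := ⟨3, by simp [stS, one3]⟩
    have hFG := hg [] (rt x) hV0 h3
    rw [← htx] at hFG
    have hcnt := evs_count gr [] hV0 (fun s' n hp => by
      have := List.prefix_nil.mp hp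
      simp at this)
    have hne := (full_count _ _ _ _ hcnt.1 hcnt.2.1 h3 hFG).2.2.2
    cases hq : gr (num (x.1.take 1)) with
    | nil => exact absurd hq hne
    | cons J Js =>
      rw [hq] at hr
      rw [hr]
      exact ⟨(false, J), rfl, rfl⟩

end Pool.Agent.H.MP_2e666d_lc
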