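import Pool.Agent.H.MP_2e666d_lc.DichA
import Pool.Agent.H.MP_2e666d_lc.DichB
import Pool.Agent.H.MP_2e666d_lc.FWf
import Pool.Agent.H.MP_2e666d_lc.FPlay
import Pool.Agent.H.MP_2e666d_lc.FLen

/-! # The dichotomy -/

namespace Pool.Agent.H.MP_2e666d_lc

open Pos

variable {τ : Type} {T : Set τ} {G : SimpleGraph B} {Φ : List ℕ → ℕ → ℕ → τ}

theorem Dich_cpl_vn (l : List ℕ) : ∀ c : ℕ → ℕ, cpl c l →
    ∀ (s' : List ℕ) (n : ℕ), s' ++ [n] <+: l → ∃ g, s'.foldl rd c g ≠ 0 := by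
  induction l with
  | nil =>
    intro c _ s' n h
    exact absurd (List.prefix_nil.mp h) (by simp)
  | cons a l ih =>
    intro c hc s' n h
    obtain ⟨h1, h2⟩ := hc
    cases s' with
    | nil => exact h1
    | cons b s' =>
      rw [List.cons_append] at h
      obtain ⟨h3, h4⟩ := List.cons_prefix_cons.mp h
      subst h3
      exact ih (rd c b) h2 s' n h4

theorem Dich_vn (x : B) : VN x.1 := fun s' n h => Dich_cpl_vn x.1 one3 x.2 s' n h

theorem Dich_ne (x : B) : x.1 ≠ [] := by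
  intro h
  have h1 := x.2
  rw [h] at h1
  have h2 : one3 3 = 0 := h1 3
  simp [one3] at h2

theorem Dich_num_append (s t : List ℕ) : num s ≤ num (s ++ t) := by
  induction t using List.reverseRecOn with
  | nil => simp
  | append_singleton t n ih =>
    rw [← List.append_assoc]
    exact le_trans ih (le_of_lt (num_child (s ++ t) n))

theorem Dich_num_take (s : List ℕ) (j : ℕ) : num (s.take j) ≤ num s := by
  have h := Dich_num_append (s.take j) (s.drop j)
  rwa [List.take_append_drop] at h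

theorem Dich_flat (gr : ℕ → List (List ℕ)) (K : ℕ) (s : List ℕ) (h : num s < K) :
    (List.range s.length).flatMap
      (fun j => if num (s.take (j + 1)) < K then gr (num (s.take (j + 1))) else [])
      = evs gr s := by
  unfold evs
  have : (fun j => if num (s.take (j + 1)) < K then gr (num (s.take (j + 1))) else [])
      = fun j => gr (num (s.take (j + 1))) := by
    funext j
    rw [if_pos (lt_of_le_of_lt (Dich_num_take s (j + 1)) h)]
  rw [this]

/-- the dichotomy -/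
theorem dichotomy (hG : ∀ x y, rt x = rt y → ¬ G.Adj x y) (hT : T.Finite)
    (hΦ : ∀ W k g, Φ W k g ∈ T) :
    (∃ f : B ↪o B, ∀ x y, ¬ G.Adj (f x) (f y)) ∨ ∃ φ1 φ2, Win T G Φ (start φ1 φ2) := by
  by_cases hW : ∃ φ1 φ2, Win T G Φ (start φ1 φ2)
  · exact Or.inr hW
  left
  have hW' : ∀ φ1 φ2, ¬ Win T G Φ (start φ1 φ2) := fun φ1 φ2 h => hW ⟨φ1, φ2, h⟩
  obtain ⟨gr, hgr⟩ := exists_groups hT hW'
  have hg : ∀ s n, VN s → (∃ g, stS s g ≠ 0) → FullGrp (Afree (evs gr s)) (stS s) n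
      (gr (num (s ++ [n]))) := fun s n h1 h2 => ((hgr _).1 s n rfl h1 h2).1
  have hm : ∀ s n, VN s → (∃ g, stS s g ≠ 0) → ∀ j < num (s ++ [n]), ∀ J ∈ gr j, ∀ a ∈ J,
      ∀ J' ∈ gr (num (s ++ [n])), ∀ a' ∈ J', a < a' :=
    fun s n h1 h2 => ((hgr _).1 s n rfl h1 h2).2
  let F : B → B := fun x => ⟨(evs gr x.1).map (fun J => J.getLastD 0), image_cpl gr x hg⟩
  have hF : StrictMono F := fun x y hxy => image_lt gr x y hxy hg hm
  have key : ∀ x y : B, rt x < rt y → ¬ G.Adj (F x) (F y) := by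
    intro x y hxy hadj
    have hx : num x.1 < num x.1 + num y.1 + 1 := by omega
    have hy : num y.1 < num x.1 + num y.1 + 1 := by omega
    have hPV : PV x.1 y.1 := ⟨Dich_vn x, Dich_vn y, fun _ => ⟨Dich_ne x, hxy⟩⟩
    obtain ⟨hwf, h0⟩ := wfh_hist gr x y hxy _ hx hy hg
    obtain ⟨q, hq, hdn, hfacts⟩ := true_play (T := T) Φ hΦ _ hwf h0
    have hnot : ¬ Win T G Φ q := (hgr (num x.1 + num y.1)).2 x.1 y.1 hPV q hq
    apply hnot
    rw [win_iff]
    left
    refine ⟨hdn _, hdn _, ⟨F x, F y, ?_, ?_, hadj⟩, hfacts⟩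
    · rw [cons_v _ q hq false, evOf_hist_false gr _ x.1 y.1 hPV, Dich_flat gr _ x.1 hx]
    · rw [cons_v _ q hq true, evOf_hist_true gr _ x.1 y.1 hPV, Dich_flat gr _ y.1 hy]
  refine ⟨OrderEmbedding.ofStrictMono F hF, ?_⟩
  intro x y
  show ¬ G.Adj (F x) (F y)
  rcases lt_trichotomy (rt x) (rt y) with h | h | h
  · exact key x y h
  · exact hG _ _ (image_rt gr x y h hg)
  · exact fun hadj => key y x h hadj.symm

end Pool.Agent.H.MP_2e666d_lc
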