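import Pool.Agent.H.MP_2e666d_lc.FEv
import Pool.Agent.H.MP_2e666d_lc.FNum

/-! # Histories -/

namespace Pool.Agent.H.MP_2e666d_lc

open Pos

theorem FHist_take_succ (x : List ℕ) (j : ℕ) (hj : j < x.length) :
    x.take (j + 1) = x.take j ++ [x[j]] := by
  rw [List.take_add_one, List.getElem?_eq_getElem hj]
  rfl

theorem FHist_mono (x : List ℕ) {i j : ℕ} (hij : i < j) (hj : j < x.length) :
    num (x.take (i + 1)) < num (x.take (j + 1)) := by
  induction j with
  | zero => omega
  | succ j ih =>
    have h1 : num (x.take (j + 1)) < num (x.take (j + 1 + 1)) := by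
      rw [FHist_take_succ x (j + 1) hj]
      exact num_child _ _
    rcases Nat.lt_or_ge i j with h | h
    · exact (ih h (by omega)).trans h1
    · have : i = j := by omega
      rw [this]
      exact h1

theorem FHist_le (x : List ℕ) {i j : ℕ} (hij : i ≤ j) (hj : j < x.length) :
    num (x.take (i + 1)) ≤ num (x.take (j + 1)) := by
  rcases Nat.lt_or_ge i j with h | h
  · exact (FHist_mono x h hj).le
  · have : i = j := by omega
    rw [this]

open Classical in
theorem FHist_step {β : Type} (f : ℕ → ℕ) (G : ℕ → List β) (K : ℕ) (n : ℕ)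
    (hf : ∀ i j, i < j → j < n → f i < f j) :
    (List.range n).flatMap (fun j => if f j < K + 1 then G (f j) else []) =
      (List.range n).flatMap (fun j => if f j < K then G (f j) else []) ++
        (if ∃ j < n, f j = K then G K else []) := by
  induction n with
  | zero => simp
  | succ n ih =>
    have ih' := ih (fun i j h1 h2 => hf i j h1 (by omega))
    rw [List.range_succ, List.flatMap_append, List.flatMap_append, ih']
    simp only [List.flatMap_cons, List.flatMap_nil, List.append_nil]
    rcases Nat.lt_trichotomy (f n) K with h | h | h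
    · have h1 : ¬ ∃ j < n, f j = K := by
        rintro ⟨j, hj, hjK⟩
        have := hf j n hj (by omega)
        omega
      have h2 : ¬ ∃ j < n + 1, f j = K := by
        rintro ⟨j, hj, hjK⟩
        rcases Nat.lt_or_ge j n with h3 | h3
        · exact h1 ⟨j, h3, hjK⟩
        · have : j = n := by omega
          subst this
          omega
      rw [if_neg h1, if_neg h2, if_pos (show f n < K + 1 by omega), if_pos h]
      simp
    · have h1 : ¬ ∃ j < n, f j = K := by
        rintro ⟨j, hj, hjK⟩
        have := hf j n hj (by omega)
        omega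
      have h2 : ∃ j < n + 1, f j = K := ⟨n, by omega, h⟩
      rw [if_neg h1, if_pos h2, if_pos (show f n < K + 1 by omega),
        if_neg (show ¬ f n < K by omega), h]
    · rw [if_neg (show ¬ f n < K + 1 by omega), if_neg (show ¬ f n < K by omega)]
      have h2 : (∃ j < n + 1, f j = K) ↔ ∃ j < n, f j = K := by
        constructor
        · rintro ⟨j, hj, hjK⟩
          rcases Nat.lt_or_ge j n with h3 | h3
          · exact ⟨j, h3, hjK⟩
          · have : j = n := by omega
            subst this
            omega
        · rintro ⟨j, hj, hjK⟩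
          exact ⟨j, by omega, hjK⟩
      by_cases h3 : ∃ j < n, f j = K
      · rw [if_pos h3, if_pos (h2.2 h3)]
        simp
      · rw [if_neg h3, if_neg (fun h4 => h3 (h2.1 h4))]

theorem FHist_evOf_append (u : Bool) (h h' : List (Bool × List ℕ)) :
    evOf u (h ++ h') = evOf u h ++ evOf u h' := by
  simp [evOf]

theorem FHist_evOf_same (u : Bool) (l : List (List ℕ)) :
    evOf u (l.map (fun J => (u, J))) = l := by
  unfold evOf
  induction l with
  | nil => simp
  | cons a l ih =>
    simp only [List.map_cons, List.filter_cons, beq_self_eq_true, if_true] 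
    rw [ih]

theorem FHist_evOf_other (u v : Bool) (huv : v ≠ u) (l : List (List ℕ)) :
    evOf u (l.map (fun J => (v, J))) = [] := by
  unfold evOf
  induction l with
  | nil => simp
  | cons a l ih =>
    have h1 : (v == u) = false := by simpa using huv
    simp only [List.map_cons, List.filter_cons, h1]
    exact ih

open Classical in
/-- one more step -/
theorem FHist_succ (gr : ℕ → List (List ℕ)) (K : ℕ) (x y : List ℕ) :
    hist gr (K + 1) x y = hist gr K x y ++
      (if ∃ j < x.length, num (x.take (j + 1)) = K then (gr K).map (fun J => (false, J))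
        else if ∃ j < y.length, num (y.take (j + 1)) = K then (gr K).map (fun J => (true, J))
        else []) := by
  unfold hist
  rw [List.range_succ, List.flatMap_append]
  simp only [List.flatMap_cons, List.flatMap_nil, List.append_nil]

theorem FHist_disj {x y : List ℕ} (h : PV x y) (K : ℕ)
    (hx : ∃ j < x.length, num (x.take (j + 1)) = K)
    (hy : ∃ j < y.length, num (y.take (j + 1)) = K) : False := by
  obtain ⟨j, hj, hjK⟩ := hx
  obtain ⟨i, hi, hiK⟩ := hy
  have h1 : x.take (j + 1) = y.take (i + 1) := num_inj (hjK.trans hiK.symm)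
  have hy0 : y ≠ [] := by
    intro h0
    rw [h0] at hi
    simp at hi
  obtain ⟨h2, h3⟩ := h.2.2 hy0
  cases x with
  | nil => simp at hj
  | cons a x =>
    cases y with
    | nil => simp at hi
    | cons b y =>
      simp at h1 h3
      omega

/-- the events of the first element in a history -/
theorem evOf_hist_false (gr : ℕ → List (List ℕ)) (K : ℕ) (x y : List ℕ) (h : PV x y) :
    evOf false (hist gr K x y) = (List.range x.length).flatMap
      (fun j => if num (x.take (j + 1)) < K then gr (num (x.take (j + 1))) else []) := by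
  induction K with
  | zero =>
    simp [hist, evOf]
  | succ K ih =>
    rw [FHist_step (fun j => num (x.take (j + 1))) gr K x.length
      (fun i j h1 h2 => FHist_mono x h1 h2), FHist_succ, FHist_evOf_append, ih]
    congr 1
    by_cases h1 : ∃ j < x.length, num (x.take (j + 1)) = K
    · rw [if_pos h1, if_pos h1]
      exact FHist_evOf_same false (gr K)
    · rw [if_neg h1, if_neg h1]
      by_cases h2 : ∃ j < y.length, num (y.take (j + 1)) = K
      · rw [if_pos h2]
        exact FHist_evOf_other false true (by simp) (gr K)
      · rw [if_neg h2]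
        rfl

theorem evOf_hist_true (gr : ℕ → List (List ℕ)) (K : ℕ) (x y : List ℕ) (h : PV x y) :
    evOf true (hist gr K x y) = (List.range y.length).flatMap
      (fun j => if num (y.take (j + 1)) < K then gr (num (y.take (j + 1))) else []) := by
  induction K with
  | zero =>
    simp [hist, evOf]
  | succ K ih =>
    rw [FHist_step (fun j => num (y.take (j + 1))) gr K y.length
      (fun i j h1 h2 => FHist_mono y h1 h2), FHist_succ, FHist_evOf_append, ih]
    congr 1
    by_cases h1 : ∃ j < x.length, num (x.take (j + 1)) = K
    · have h2 : ¬ ∃ j < y.length, num (y.take (j + 1)) = K := fun h2 => FHist_disj h K h1 h2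
      rw [if_pos h1, if_neg h2]
      exact FHist_evOf_other true false (by simp) (gr K)
    · rw [if_neg h1]
      by_cases h2 : ∃ j < y.length, num (y.take (j + 1)) = K
      · rw [if_pos h2, if_pos h2]
        exact FHist_evOf_same true (gr K)
      · rw [if_neg h2, if_neg h2]
        rfl

/-- the histories take finitely many values -/
theorem hist_finite (gr : ℕ → List (List ℕ)) (K : ℕ) :
    {h | ∃ x y, hist gr K x y = h}.Finite := by
  classical
  induction K with
  | zero =>
    apply Set.Finite.subset (Set.finite_singleton ([] : List (Bool × List ℕ)))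
    rintro h ⟨x, y, rfl⟩
    simp [hist]
  | succ K ih =>
    have hfin : ({(gr K).map (fun J => (false, J)), (gr K).map (fun J => (true, J)), []} :
      Set (List (Bool × List ℕ))).Finite := by simp
    apply Set.Finite.subset (Set.Finite.image2 (fun a b => a ++ b) ih hfin)
    rintro h ⟨x, y, rfl⟩
    rw [FHist_succ]
    refine ⟨hist gr K x y, ⟨x, y, rfl⟩, _, ?_, rfl⟩
    split_ifs
    · simp
    · simp
    · simp

theorem hist_congr (gr gr' : ℕ → List (List ℕ)) (K : ℕ) (x y : List ℕ)
    (h : ∀ j < K, gr j = gr' j) : hist gr K x y = hist gr' K x y := by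
  induction K with
  | zero => simp [hist]
  | succ K ih =>
    rw [FHist_succ, FHist_succ, ih (fun j hj => h j (by omega)), h K (by omega)]

theorem FHist_cond (gr : ℕ → List (List ℕ)) (K : ℕ) (x y x' y' : List ℕ)
    (hx : ∀ i < K, (∃ j < x.length, num (x.take (j + 1)) = i) ↔
      ∃ j < x'.length, num (x'.take (j + 1)) = i)
    (hy : ∀ i < K, (∃ j < y.length, num (y.take (j + 1)) = i) ↔
      ∃ j < y'.length, num (y'.take (j + 1)) = i) :
    hist gr K x y = hist gr K x' y' := by
  induction K with
  | zero => simp [hist]
  | succ K ih =>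
    rw [FHist_succ, FHist_succ, ih (fun i hi => hx i (by omega)) (fun i hi => hy i (by omega))]
    congr 1
    by_cases h1 : ∃ j < x.length, num (x.take (j + 1)) = K
    · rw [if_pos h1, if_pos ((hx K (by omega)).1 h1)]
    · rw [if_neg h1, if_neg (fun h3 => h1 ((hx K (by omega)).2 h3))]
      by_cases h2 : ∃ j < y.length, num (y.take (j + 1)) = K
      · rw [if_pos h2, if_pos ((hy K (by omega)).1 h2)]
      · rw [if_neg h2, if_neg (fun h3 => h2 ((hy K (by omega)).2 h3))]

theorem FHist_pre (s : List ℕ) (n : ℕ) (x : List ℕ) (h : s ++ [n] <+: x) (i : ℕ)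
    (hi : i < num (s ++ [n])) :
    (∃ j < x.length, num (x.take (j + 1)) = i) ↔
      ∃ j < (s ++ [n]).length, num ((s ++ [n]).take (j + 1)) = i := by
  have hlen := h.length_le
  have htk : ∀ j < (s ++ [n]).length, x.take (j + 1) = (s ++ [n]).take (j + 1) := by
    intro j hj
    obtain ⟨r, rfl⟩ := h
    rw [List.take_append_of_le_length (by omega)]
  constructor
  · rintro ⟨j, hj, hji⟩
    rcases Nat.lt_or_ge j (s ++ [n]).length with h1 | h1
    · exact ⟨j, h1, by rw [← htk j h1]; exact hji⟩
    · exfalso
      have hl : (s ++ [n]).length = s.length + 1 := by simp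
      have h2 : num (x.take (s.length + 1)) ≤ num (x.take (j + 1)) :=
        FHist_le x (by omega) hj
      have h3 : x.take (s.length + 1) = s ++ [n] := by
        rw [htk s.length (by omega)]
        apply List.take_of_length_le
        omega
      rw [h3] at h2
      omega
  · rintro ⟨j, hj, hji⟩
    exact ⟨j, by omega, by rw [htk j hj]; exact hji⟩

/-- the initial segments with numbers `≥ K` do not matter -/
theorem hist_prefix_left (gr : ℕ → List (List ℕ)) (s : List ℕ) (n : ℕ) (x y : List ℕ)
    (h : s ++ [n] <+: x) :
    hist gr (num (s ++ [n])) x y = hist gr (num (s ++ [n])) (s ++ [n]) y :=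
  FHist_cond gr _ x y _ y (fun i hi => FHist_pre s n x h i hi) (fun _ _ => Iff.rfl)

theorem hist_prefix_right (gr : ℕ → List (List ℕ)) (s : List ℕ) (n : ℕ) (x y : List ℕ)
    (h : s ++ [n] <+: y) :
    hist gr (num (s ++ [n])) x y = hist gr (num (s ++ [n])) x (s ++ [n]) :=
  FHist_cond gr _ x y x _ (fun _ _ => Iff.rfl) (fun i hi => FHist_pre s n y h i hi)

/-- one more time step of a history -/
theorem hist_succ (gr : ℕ → List (List ℕ)) (K : ℕ) (x y : List ℕ) (h : PV x y) :
    (∃ s n, num (s ++ [n]) = K ∧ s ++ [n] <+: x ∧
      hist gr (K + 1) x y = hist gr K x y ++ (gr K).map (fun J => (false, J))) ∨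
    (∃ s n, num (s ++ [n]) = K ∧ s ++ [n] <+: y ∧
      hist gr (K + 1) x y = hist gr K x y ++ (gr K).map (fun J => (true, J))) ∨
    hist gr (K + 1) x y = hist gr K x y := by
  by_cases h1 : ∃ j < x.length, num (x.take (j + 1)) = K
  · left
    rw [FHist_succ, if_pos h1]
    obtain ⟨j, hj, hjK⟩ := h1
    refine ⟨x.take j, x[j], ?_, ?_, rfl⟩
    · rw [← FHist_take_succ x j hj]
      exact hjK
    · rw [← FHist_take_succ x j hj]
      exact List.take_prefix _ _
  · right
    by_cases h2 : ∃ j < y.length, num (y.take (j + 1)) = K
    · left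
      rw [FHist_succ, if_neg h1, if_pos h2]
      obtain ⟨j, hj, hjK⟩ := h2
      refine ⟨y.take j, y[j], ?_, ?_, rfl⟩
      · rw [← FHist_take_succ y j hj]
        exact hjK
      · rw [← FHist_take_succ y j hj]
        exact List.take_prefix _ _
    · right
      rw [FHist_succ, if_neg h1, if_neg h2, List.append_nil]

end Pool.Agent.H.MP_2e666d_lc
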