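import Pool.Agent.H.MP_2e666d_lc.FExt
import Pool.Agent.H.MP_2e666d_lc.FHist
import Pool.Agent.H.MP_2e666d_lc.FCount
import Pool.Agent.H.MP_2e666d_lc.FCons

/-! # The choice of the groups -/

namespace Pool.Agent.H.MP_2e666d_lc

open Pos

variable {τ : Type} {T : Set τ} {G : SimpleGraph B} {Φ : List ℕ → ℕ → ℕ → τ}

private theorem DichA_num_append (s t : List ℕ) : num s ≤ num (s ++ t) := by
  induction t using List.reverseRecOn with
  | nil => simp
  | append_singleton t n ih =>
    rw [← List.append_assoc]
    exact ih.trans (num_child _ _).le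

private theorem DichA_num_prefix {s t : List ℕ} (h : s <+: t) : num s ≤ num t := by
  obtain ⟨r, rfl⟩ := h
  exact DichA_num_append s r

private theorem DichA_num_take (s : List ℕ) (n m : ℕ) : num (s.take m) < num (s ++ [n]) :=
  (DichA_num_prefix (List.take_prefix m s)).trans_lt (num_child s n)

private theorem DichA_evs_congr (f f' : ℕ → List (List ℕ)) (s : List ℕ) (n : ℕ)
    (h : ∀ j < num (s ++ [n]), f j = f' j) : evs f s = evs f' s := by
  unfold evs
  apply List.flatMap_congr
  intro i _
  exact h _ (DichA_num_take s n (i + 1))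

private theorem DichA_VN_prefix {s t : List ℕ} (h : s <+: t) (ht : VN t) : VN s := by
  intro s' n hs
  exact ht s' n (hs.trans h)

private theorem DichA_append_inj {s s' : List ℕ} {n n' : ℕ} (h : s' ++ [n'] = s ++ [n]) :
    s' = s ∧ n' = n := by
  have := List.append_inj' h rfl
  exact ⟨this.1, by simpa using this.2⟩

private theorem DichA_evs_eq (f : ℕ → List (List ℕ)) (s : List ℕ) (n : ℕ) :
    (List.range (s ++ [n]).length).flatMap (fun j =>
      if num ((s ++ [n]).take (j + 1)) < num (s ++ [n]) then f (num ((s ++ [n]).take (j + 1)))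
      else []) = evs f s := by
  unfold evs
  rw [List.length_append, List.length_singleton, List.range_succ, List.flatMap_append]
  have h1 : (List.flatMap (fun j =>
      if num ((s ++ [n]).take (j + 1)) < num (s ++ [n]) then f (num ((s ++ [n]).take (j + 1)))
      else []) [s.length]) = [] := by
    have h0 : (s ++ [n]).take (s.length + 1) = s ++ [n] := List.take_of_length_le (by simp)
    simp [h0]
  rw [h1, List.append_nil]
  apply List.flatMap_congr
  intro j hj
  rw [List.mem_range] at hj
  have h2 : (s ++ [n]).take (j + 1) = s.take (j + 1) := by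
    rw [List.take_append_of_le_length (by omega)]
  rw [h2, if_pos (DichA_num_take s n (j + 1))]

private theorem DichA_bound_one (L : List (List ℕ)) : ∃ M, ∀ J ∈ L, ∀ a ∈ J, a ≤ M := by
  refine ⟨L.flatten.sum, ?_⟩
  intro J hJ a ha
  exact List.single_le_sum (by simp) a (List.mem_flatten.2 ⟨J, hJ, ha⟩)

private theorem DichA_bound (f : ℕ → List (List ℕ)) (i : ℕ) :
    ∃ M, ∀ j < i, ∀ J ∈ f j, ∀ a ∈ J, a ≤ M := by
  induction i with
  | zero => exact ⟨0, fun j hj => absurd hj (by omega)⟩
  | succ i ih =>
    obtain ⟨M, hM⟩ := ih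
    obtain ⟨M', hM'⟩ := DichA_bound_one (f i)
    refine ⟨max M M', ?_⟩
    intro j hj J hJ a ha
    rcases Nat.lt_succ_iff_lt_or_eq.1 hj with h | h
    · exact (hM j h J hJ a ha).trans (le_max_left _ _)
    · subst h
      exact (hM' J hJ a ha).trans (le_max_right _ _)

private theorem DichA_cons_nil (h : List (Bool × List ℕ)) (q : Pos τ) (hq : Cons T h q)
    (hh : h = []) : ∃ φ1 φ2, q = start φ1 φ2 := by
  cases hq with
  | nil φ1 φ2 _ _ => exact ⟨φ1, φ2, rfl⟩
  | snoc h p J' m ts _ _ _ _ _ => simp at hh

private theorem DichA_head {s : List ℕ} {n : ℕ} {x : List ℕ} (h : s ++ [n] <+: x) :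
    x ≠ [] ∧ (s ++ [n]).headD 0 = x.headD 0 := by
  obtain ⟨r, rfl⟩ := h
  constructor
  · simp
  · cases s with
    | nil => simp
    | cons a s => simp

/-- the groups -/
theorem exists_groups (hT : T.Finite) (hW : ∀ φ1 φ2, ¬ Win T G Φ (start φ1 φ2)) :
    ∃ gr : ℕ → List (List ℕ), ∀ i, GoodAt T G Φ i gr := by
  apply dep_choice (α := List (List ℕ)) (fun i gr => GoodAt T G Φ i gr)
  · intro i f f' hff hf
    constructor
    · intro s n hn hs hg
      have h1 := hf.1 s n hn hs hg
      rw [DichA_evs_congr f f' s n (fun j hj => hff j (by omega)), hff i le_rfl] at h1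
      refine ⟨h1.1, ?_⟩
      intro j hj J hJ
      rw [← hff j hj.le] at hJ
      exact h1.2 j hj J hJ
    · intro x y hxy q hq
      rw [hist_congr f' f (i + 1) x y (fun j hj => (hff j (by omega)).symm)] at hq
      exact hf.2 x y hxy q hq
  · intro i f hf
    have hInv : InvW T G Φ f i := by
      cases i with
      | zero =>
        intro x y _ q hq
        obtain ⟨φ1, φ2, rfl⟩ := DichA_cons_nil _ q hq (by simp [hist])
        exact hW φ1 φ2
      | succ i => exact (hf i (Nat.lt_succ_self i)).2
    by_cases hi : ∃ s n, num (s ++ [n]) = i ∧ VN s ∧ ∃ g, stS s g ≠ 0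
    · obtain ⟨s, n, hn, hs, hg⟩ := hi
      have hcount := evs_count f s hs (by
        intro s' n' hs'
        have hlt : num (s' ++ [n']) < i := by
          rw [← hn]
          exact (DichA_num_prefix hs').trans_lt (num_child s n)
        exact ((hf _ hlt).1 s' n' rfl
          (DichA_VN_prefix ((List.prefix_append s' [n']).trans hs') hs) (hs s' n' hs')).1)
      let P : Set (Bool × Pos τ) := {x | (x.1 = false ∧ ∃ y, PV (s ++ [n]) y ∧
        Cons T (hist f i (s ++ [n]) y) x.2) ∨ (x.1 = true ∧ ∃ x', PV x' (s ++ [n]) ∧
        Cons T (hist f i x' (s ++ [n])) x.2)}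
      have hPfin : P.Finite := by
        have h1 : (⋃ h ∈ {h | ∃ x y, hist f i x y = h}, {p : Pos τ | Cons T h p}).Finite :=
          (hist_finite f i).biUnion fun h _ => cons_finite hT h
        have h2 : ((Set.univ : Set Bool) ×ˢ
            (⋃ h ∈ {h | ∃ x y, hist f i x y = h}, {p : Pos τ | Cons T h p})).Finite :=
          Set.finite_univ.prod h1
        apply h2.subset
        rintro ⟨b, p⟩ hp
        refine ⟨Set.mem_univ _, ?_⟩
        simp only [Set.mem_iUnion]
        rcases hp with ⟨_, y, _, hc⟩ | ⟨_, x', _, hc⟩
        · exact ⟨_, ⟨_, _, rfl⟩, hc⟩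
        · exact ⟨_, ⟨_, _, rfl⟩, hc⟩
      have hPw : ∀ x ∈ P, ¬ Win T G Φ x.2 := by
        rintro ⟨b, p⟩ hp
        rcases hp with ⟨_, y, hpv, hc⟩ | ⟨_, x', hpv, hc⟩
        · exact hInv _ _ hpv _ hc
        · exact hInv _ _ hpv _ hc
      have hPl : ∀ x ∈ P, ∀ g, (x.2.s x.1 g).length = (Afree (evs f s) g).length := by
        rintro ⟨b, p⟩ hp g
        rcases hp with ⟨hb, y, hpv, hc⟩ | ⟨hb, x', hpv, hc⟩
        · simp only at hb hc ⊢
          rw [hb, cons_len _ _ hc false g, evOf_hist_false f i _ _ hpv]
          subst hn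
          rw [DichA_evs_eq]
        · simp only at hb hc ⊢
          rw [hb, cons_len _ _ hc true g, evOf_hist_true f i _ _ hpv]
          subst hn
          rw [DichA_evs_eq]
      obtain ⟨M, hM⟩ := DichA_bound f i
      obtain ⟨Js, hJ1, hJ2, hJ3⟩ := exists_group hT G Φ (Afree (evs f s)) (stS s) n M hcount.1
        hcount.2.1 hg P hPfin hPw hPl
      refine ⟨Js, ?_, ?_⟩
      · intro s' n' hn' hs' hg'
        obtain ⟨rfl, rfl⟩ := DichA_append_inj (num_inj (hn'.trans hn.symm))
        have h1 : evs (Function.update f i Js) s' = evs f s' := by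
          apply DichA_evs_congr _ _ s' n'
          intro j hj
          rw [hn'] at hj
          rw [Function.update_of_ne hj.ne]
        rw [h1, Function.update_self]
        refine ⟨hJ1, ?_⟩
        intro j hj J hJ a ha J' hJ' a' ha'
        rw [Function.update_of_ne hj.ne] at hJ
        exact (hM j hj J hJ a ha).trans_lt (hJ2 J' hJ' a' ha')
      · intro x y hxy q hq
        have hcongr : ∀ x y, hist (Function.update f i Js) i x y = hist f i x y := by
          intro x y
          apply hist_congr
          intro j hj
          rw [Function.update_of_ne hj.ne]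
        rcases hist_succ (Function.update f i Js) i x y hxy with
          ⟨s', n', hn', hpre, heq⟩ | ⟨s', n', hn', hpre, heq⟩ | heq
        · obtain ⟨rfl, rfl⟩ := DichA_append_inj (num_inj (hn'.trans hn.symm))
          rw [heq, hcongr, Function.update_self] at hq
          obtain ⟨p, hp, hrun⟩ := (cons_append _ _ _ _).1 hq
          have h2 : hist f i x y = hist f i (s' ++ [n']) y := by
            rw [← hn']
            exact hist_prefix_left f s' n' x y hpre
          rw [h2] at hp
          refine hJ3 (false, p) (Or.inl ⟨rfl, y, ?_, hp⟩) q hrun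
          refine ⟨DichA_VN_prefix hpre hxy.1, hxy.2.1, ?_⟩
          intro hy
          refine ⟨by simp, ?_⟩
          rw [(DichA_head hpre).2]
          exact (hxy.2.2 hy).2
        · obtain ⟨rfl, rfl⟩ := DichA_append_inj (num_inj (hn'.trans hn.symm))
          rw [heq, hcongr, Function.update_self] at hq
          obtain ⟨p, hp, hrun⟩ := (cons_append _ _ _ _).1 hq
          have h2 : hist f i x y = hist f i x (s' ++ [n']) := by
            rw [← hn']
            exact hist_prefix_right f s' n' x y hpre
          rw [h2] at hp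
          refine hJ3 (true, p) (Or.inr ⟨rfl, x, ?_, hp⟩) q hrun
          refine ⟨hxy.1, DichA_VN_prefix hpre hxy.2.1, ?_⟩
          intro _
          have h3 := DichA_head hpre
          have h4 := hxy.2.2 h3.1
          rw [h3.2]
          exact h4
        · rw [heq, hcongr] at hq
          exact hInv x y hxy q hq
    · refine ⟨[], ?_, ?_⟩
      · intro s n hn hs hg
        exact absurd ⟨s, n, hn, hs, hg⟩ hi
      · intro x y hxy q hq
        have hcongr : hist (Function.update f i []) i x y = hist f i x y := by
          apply hist_congr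
          intro j hj
          rw [Function.update_of_ne hj.ne]
        have hq' : Cons T (hist f i x y) q := by
          rcases hist_succ (Function.update f i []) i x y hxy with
            ⟨s', n', _, _, heq⟩ | ⟨s', n', _, _, heq⟩ | heq
          · rw [heq, hcongr, Function.update_self, List.map_nil, List.append_nil] at hq
            exact hq
          · rw [heq, hcongr, Function.update_self, List.map_nil, List.append_nil] at hq
            exact hq
          · rw [heq, hcongr] at hq
            exact hq
        exact hInv x y hxy q hq'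

end Pool.Agent.H.MP_2e666d_lc
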