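import Pool.Agent.H.MP_2e666d_lc.EMd

/-! # The step of Erdos and Milner -/

namespace Pool.Agent.H.MP_2e666d_lc

theorem EM_rd_one3 (v : ℕ) : rd one3 v = st 2 (v + 1) := by
  have hl : lev one3 = 3 := by
    apply EMb_lev_eq
    · intro g hg
      have : g ≠ 3 := by omega
      simp [one3, this]
    · simp [one3]
  funext j
  unfold rd
  rw [hl]
  by_cases h3 : j = 3
  · subst h3; simp [one3, st]
  · by_cases h2 : j = 2
    · subst h2; simp [st]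
    · have h4 : ¬ (j + 1 = 3) := by omega
      simp [h3, h4, h2, one3, st]

theorem EM_exists (x : B) : ∃ v l, x.1 = v :: l ∧ cpl (st 2 (v + 1)) l := by
  obtain ⟨l, hl⟩ := x
  cases l with
  | nil => exact absurd (hl 3) (by simp [one3])
  | cons v l => exact ⟨v, l, rfl, by rw [← EM_rd_one3]; exact hl.2⟩

theorem EM_tail (x : B) : cpl (st 2 (rt x + 1)) x.1.tail := by
  obtain ⟨v, l, h, hl⟩ := EM_exists x
  unfold rt
  rw [h]
  exact hl

theorem EM_cons (x : B) : x.1 = rt x :: x.1.tail := by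
  obtain ⟨v, l, h, hl⟩ := EM_exists x
  unfold rt
  rw [h]
  rfl

theorem EM_mk (v : ℕ) (l : List ℕ) (h : cpl (st 2 ((v + 1) + (v + 1))) l) :
    cpl one3 ((2 * v + 1) :: l) := by
  refine ⟨⟨3, by simp [one3]⟩, ?_⟩
  rw [EM_rd_one3]
  have : 2 * v + 1 + 1 = (v + 1) + (v + 1) := by ring
  rw [this]
  exact h

/-- the section graph -/
def EM_graph (G : SimpleGraph B) (v : ℕ) : SimpleGraph (List ℕ) where
  Adj l l' := ∃ (h : cpl one3 ((2 * v + 1) :: l)) (h' : cpl one3 ((2 * v + 1) :: l')),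
    G.Adj ⟨(2 * v + 1) :: l, h⟩ ⟨(2 * v + 1) :: l', h'⟩
  symm := ⟨fun _ _ ⟨h, h', hG⟩ => ⟨h', h, hG.symm⟩⟩
  loopless := ⟨fun _ ⟨_, _, hG⟩ => hG.ne rfl⟩

theorem EM_graph_free (G : SimpleGraph B) (h3 : G.CliqueFree 3) (v : ℕ) :
    (EM_graph G v).CliqueFree 3 := by
  intro s hs
  rw [SimpleGraph.is3Clique_iff] at hs
  obtain ⟨a, b, c, ⟨ha, hb, hab⟩, ⟨_, hc, hac⟩, ⟨_, _, hbc⟩, _⟩ := hs
  refine h3 {⟨(2 * v + 1) :: a, ha⟩, ⟨(2 * v + 1) :: b, hb⟩, ⟨(2 * v + 1) :: c, hc⟩} ?_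
  rw [SimpleGraph.is3Clique_iff]
  exact ⟨_, _, _, hab, hac, hbc, rfl⟩

/-- the step of Erdos and Milner: no edges between elements with the same root -/
theorem em_step (G : SimpleGraph B) (h3 : G.CliqueFree 3) :
    ∃ e : B ↪o B, ∀ x y : B, rt x = rt y → ¬ G.Adj (e x) (e y) := by
  choose f hf1 hf2 using fun v => em_section (v + 1) (EM_graph G v) (EM_graph_free G h3 v)
  let e0 : B → B := fun x => ⟨(2 * rt x + 1) :: (f (rt x) ⟨x.1.tail, EM_tail x⟩).1,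
    EM_mk _ _ (f (rt x) ⟨x.1.tail, EM_tail x⟩).2⟩
  have hm : StrictMono e0 := by
    intro x y hxy
    have hxy' : x.1 < y.1 := hxy
    rw [EM_cons x, EM_cons y, List.cons_lt_cons_iff] at hxy'
    show (e0 x).1 < (e0 y).1
    show (2 * rt x + 1) :: _ < (2 * rt y + 1) :: _
    rw [List.cons_lt_cons_iff]
    rcases hxy' with h | ⟨h1, h2⟩
    · left; omega
    · right
      refine ⟨by rw [h1], ?_⟩
      have key : ∀ (v w : ℕ) (hvw : v = w) (l l' : List ℕ) (hl : cpl (st 2 (v + 1)) l)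
          (hl' : cpl (st 2 (w + 1)) l'), l < l' → (f v ⟨l, hl⟩).1 < (f w ⟨l', hl'⟩).1 := by
        intro v w hvw l l' hl hl' hll
        subst hvw
        exact hf1 v ⟨l, hl⟩ ⟨l', hl'⟩ hll
      exact key _ _ h1 _ _ _ _ h2
  refine ⟨OrderEmbedding.ofStrictMono e0 hm, ?_⟩
  intro x y hxy hadj
  have hadj' : G.Adj (e0 x) (e0 y) := hadj
  have key : ∀ (v w : ℕ) (hvw : v = w) (l l' : List ℕ) (hl : cpl (st 2 (v + 1)) l)
      (hl' : cpl (st 2 (w + 1)) l'),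
      ¬ G.Adj ⟨(2 * v + 1) :: (f v ⟨l, hl⟩).1, EM_mk _ _ (f v ⟨l, hl⟩).2⟩
        ⟨(2 * w + 1) :: (f w ⟨l', hl'⟩).1, EM_mk _ _ (f w ⟨l', hl'⟩).2⟩ := by
    intro v w hvw l l' hl hl' hll
    subst hvw
    exact hf2 v ⟨l, hl⟩ ⟨l', hl'⟩ ⟨_, _, hll⟩
  exact key _ _ hxy _ _ _ _ hadj'

end Pool.Agent.H.MP_2e666d_lc
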