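import Pool.Agent.H.MP_2e666d_lc.Defs

/-! # Measure of states and well-foundedness -/

namespace Pool.Agent.H.MP_2e666d_lc

/-- the measure of a state -/
def msr (c : ℕ → ℕ) : ℕ ×ₗ ℕ ×ₗ ℕ ×ₗ ℕ := toLex (c 3, toLex (c 2, toLex (c 1, c 0)))

theorem EMa_lev_ne (c : ℕ → ℕ) (hc : ∃ g, c g ≠ 0) : c (lev c) ≠ 0 :=
  Nat.sInf_mem (s := {g | c g ≠ 0}) hc

theorem EMa_lev_le (c : ℕ → ℕ) (hc : ∃ g, c g ≠ 0) (hs : ∀ g, 3 < g → c g = 0) : lev c ≤ 3 := by
  by_contra h
  exact EMa_lev_ne c hc (hs _ (by omega))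

theorem msr_rd (c : ℕ → ℕ) (n : ℕ) (hc : ∃ g, c g ≠ 0) (hs : ∀ g, 3 < g → c g = 0) :
    msr (rd c n) < msr c := by
  have h1 := EMa_lev_ne c hc
  have h2 := EMa_lev_le c hc hs
  unfold msr rd
  generalize lev c = g at h1 h2
  simp only [Prod.Lex.toLex_lt_toLex]
  have h3 : g = 0 ∨ g = 1 ∨ g = 2 ∨ g = 3 := by omega
  rcases h3 with rfl | rfl | rfl | rfl
  · simp
    omega
  · simp
    omega
  · simp
    omega
  · simp
    omega

theorem rd_sup (c : ℕ → ℕ) (n : ℕ) (hs : ∀ g, 3 < g → c g = 0) :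
    ∀ g, 3 < g → rd c n g = 0 := by
  intro g hg
  unfold rd
  by_cases h1 : g = lev c
  · simp only [h1, if_true]
    rw [← h1, hs g hg]
  · by_cases h2 : g + 1 = lev c
    · exfalso
      have h3 : c (g + 1) = 0 := hs _ (by omega)
      by_cases hc : ∃ g, c g ≠ 0
      · exact EMa_lev_ne c hc (by rw [← h2]; exact h3)
      · have h4 : {g | c g ≠ 0} = (∅ : Set ℕ) := by
          ext j
          simp only [Set.mem_ofPred_eq, Set.mem_empty_iff_false, iff_false]
          intro hj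
          exact hc ⟨j, hj⟩
        have h5 : lev c = 0 := by
          unfold lev
          rw [h4, Nat.sInf_empty]
        omega
    · simp only [h1, h2, if_false]
      exact hs g hg

theorem EMa_min (m : ℕ ×ₗ ℕ ×ₗ ℕ ×ₗ ℕ) : ∀ (c : ℕ → ℕ), msr c = m → (∀ g, 3 < g → c g = 0) →
    ∀ S : Set (List ℕ), S.Nonempty → (∀ l ∈ S, cpl c l) → ∃ l ∈ S, ∀ l' ∈ S, l ≤ l' := by
  induction m using WellFoundedLT.induction with
  | ind m ih =>
    intro c hm hs S hS hc
    by_cases h0 : ∃ g, c g ≠ 0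
    · have hT : ∃ n, ∃ l, n :: l ∈ S := by
        obtain ⟨l, hl⟩ := hS
        cases l with
        | nil =>
          exfalso
          obtain ⟨g, hg⟩ := h0
          exact hg (hc _ hl g)
        | cons n l => exact ⟨n, l, hl⟩
      classical
      have hn := Nat.find_spec hT
      have hmin := fun n' => Nat.find_min' (H := hT) (m := n')
      generalize Nat.find hT = n at hn hmin
      obtain ⟨l1, hl1, hl1'⟩ := ih (msr (rd c n)) (by rw [← hm]; exact msr_rd c n h0 hs)
        (rd c n) rfl (rd_sup c n hs) {l | n :: l ∈ S} hn (fun l hl => (hc _ hl).2)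
      refine ⟨n :: l1, hl1, ?_⟩
      intro l' hl'
      cases l' with
      | nil =>
        exfalso
        obtain ⟨g, hg⟩ := h0
        exact hg (hc _ hl' g)
      | cons n' l' =>
        have h5 := hmin n' ⟨l', hl'⟩
        rcases Nat.lt_or_eq_of_le h5 with h6 | h6
        · exact le_of_lt (List.cons_lt_cons_iff.mpr (Or.inl h6))
        · subst h6
          have h7 := hl1' l' hl'
          rcases lt_or_eq_of_le h7 with h8 | h8
          · exact le_of_lt (List.cons_lt_cons_iff.mpr (Or.inr ⟨rfl, h8⟩))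
          · rw [h8]
    · obtain ⟨l, hl⟩ := hS
      refine ⟨l, hl, ?_⟩
      intro l' _
      cases l with
      | nil => exact not_lt.mp (List.not_lt_nil l')
      | cons n l => exact absurd (hc _ hl).1 h0

/-- every nonempty set of complete lists has a least element -/
theorem exists_min (c : ℕ → ℕ) (hs : ∀ g, 3 < g → c g = 0) (S : Set (List ℕ))
    (hS : S.Nonempty) (hc : ∀ l ∈ S, cpl c l) : ∃ l ∈ S, ∀ l' ∈ S, l ≤ l' :=
  EMa_min (msr c) c rfl hs S hS hc

instance : WellFoundedLT B := by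
  refine ⟨WellFounded.wellFounded_iff_has_min.mpr ?_⟩
  intro s hs
  have h3 : ∀ g, 3 < g → one3 g = 0 := by
    intro g hg
    have : g ≠ 3 := by omega
    simp [one3, this]
  obtain ⟨l, hl, hl'⟩ := exists_min one3 h3 (Subtype.val '' (s : Set {l : List ℕ // cpl one3 l}))
    (hs.image _) (by rintro l ⟨x, _, rfl⟩; exact x.2)
  obtain ⟨x, hx, rfl⟩ := hl
  refine ⟨x, hx, ?_⟩
  intro y hy hlt
  have h1 : x.1 ≤ y.1 := hl' _ ⟨y, hy, rfl⟩
  have h2 : y.1 < x.1 := hlt
  exact absurd (lt_of_lt_of_le h2 h1) (lt_irrefl _)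

end Pool.Agent.H.MP_2e666d_lc
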