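import Pool.Agent.H.MP_2e666d_lc.EMa
import Pool.Agent.H.MP_2e666d_lc.EMb

/-! # Indivisibility -/

namespace Pool.Agent.H.MP_2e666d_lc

theorem EMc_step (c : ℕ → ℕ) (hs : ∀ g, 3 < g → c g = 0) (hc : ∃ g, c g ≠ 0) (r : ℕ)
    (χ : List ℕ → Fin (r + 1))
    (ih : ∀ n, ∀ χ : List ℕ → Fin (r + 1),
      ∃ (i : Fin (r + 1)) (f : {l // cpl (rd c n) l} → {l // cpl (rd c n) l}),
        (∀ x y, x.1 < y.1 → (f x).1 < (f y).1) ∧ ∀ x, χ (f x).1 = i) :
    ∃ (i : Fin (r + 1)) (f : {l // cpl c l} → {l // cpl c l}),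
      (∀ x y, x.1 < y.1 → (f x).1 < (f y).1) ∧ ∀ x, χ (f x).1 = i := by
  choose i f hf1 hf2 using fun n => ih n (fun l => χ (n :: l))
  obtain ⟨i0, hi0⟩ := Finite.exists_infinite_fiber i
  have hinf : (setOf fun n => i n = i0).Infinite := Set.infinite_coe_iff.mp hi0
  obtain ⟨s, hmono, hsi⟩ : ∃ s : ℕ → ℕ, StrictMono s ∧ ∀ n, i (s n) = i0 :=
    ⟨Nat.nth fun n => i n = i0, Nat.nth_strictMono hinf, fun n => Nat.nth_mem_of_infinite hinf n⟩
  choose pad hpad using fun n => cpl_pad c n (s n) (hmono.le_apply) hs hc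
  let F : {l // cpl c l} → {l // cpl c l} := fun x => match x with
    | ⟨[], h⟩ => absurd h (fun h' => by obtain ⟨g, hg⟩ := hc; exact hg (h' g))
    | ⟨n :: l, h⟩ => ⟨s n :: (f (s n) (pad n ⟨l, h.2⟩)).1, ⟨hc, (f (s n) (pad n ⟨l, h.2⟩)).2⟩⟩
  refine ⟨i0, F, ?_, ?_⟩
  · rintro ⟨l, hl⟩ ⟨l', hl'⟩ hlt
    cases l with
    | nil =>
      obtain ⟨g, hg⟩ := hc
      exact absurd (hl g) hg
    | cons n l =>
      cases l' with
      | nil =>
        obtain ⟨g, hg⟩ := hc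
        exact absurd (hl' g) hg
      | cons n' l' =>
        show s n :: (f (s n) (pad n ⟨l, hl.2⟩)).1 < s n' :: (f (s n') (pad n' ⟨l', hl'.2⟩)).1
        rcases List.cons_lt_cons_iff.mp hlt with h | ⟨h, h'⟩
        · exact List.cons_lt_cons_iff.mpr (Or.inl (hmono h))
        · subst h
          exact List.cons_lt_cons_iff.mpr (Or.inr ⟨rfl, hf1 _ _ _ (hpad n _ _ h')⟩)
  · rintro ⟨l, hl⟩
    cases l with
    | nil =>
      obtain ⟨g, hg⟩ := hc
      exact absurd (hl g) hg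
    | cons n l =>
      show χ (s n :: (f (s n) (pad n ⟨l, hl.2⟩)).1) = i0
      rw [hf2 (s n)]
      exact hsi n

/-- indivisibility -/
theorem indiv (c : ℕ → ℕ) (hs : ∀ g, 3 < g → c g = 0) (r : ℕ) (χ : List ℕ → Fin (r + 1)) :
    ∃ (i : Fin (r + 1)) (f : {l // cpl c l} → {l // cpl c l}),
      (∀ x y, x.1 < y.1 → (f x).1 < (f y).1) ∧ ∀ x, χ (f x).1 = i := by
  have main : ∀ m : ℕ ×ₗ ℕ ×ₗ ℕ ×ₗ ℕ, ∀ c : ℕ → ℕ, msr c = m → (∀ g, 3 < g → c g = 0) →
      ∀ χ : List ℕ → Fin (r + 1),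
      ∃ (i : Fin (r + 1)) (f : {l // cpl c l} → {l // cpl c l}),
        (∀ x y, x.1 < y.1 → (f x).1 < (f y).1) ∧ ∀ x, χ (f x).1 = i := by
    intro m
    induction m using WellFoundedLT.induction with
    | ind m ih =>
      intro c hm hs χ
      by_cases hc : ∃ g, c g ≠ 0
      · apply EMc_step c hs hc r χ
        intro n χ'
        exact ih (msr (rd c n)) (by rw [← hm]; exact msr_rd c n hc hs) (rd c n) rfl
          (rd_sup c n hs) χ'
      · refine ⟨χ [], id, fun x y h => h, ?_⟩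
        rintro ⟨l, hl⟩
        cases l with
        | nil => rfl
        | cons n l => exact absurd hl.1 hc
  exact main (msr c) c rfl hs χ

end Pool.Agent.H.MP_2e666d_lc
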