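import Pool.Agent.H.MP_2e666d_lc.EMc

/-! # Sections of a triangle-free graph -/

namespace Pool.Agent.H.MP_2e666d_lc

theorem EMd_nonempty (k : ℕ) : ∃ l, cpl (st 2 k) l := by
  induction k with
  | zero => exact ⟨[], fun g => by simp [st]⟩
  | succ k ih =>
    obtain ⟨l, hl⟩ := ih
    refine ⟨List.replicate (2 + 1) 0 ++ l, ?_⟩
    have h := cpl_zeros (st 2 k) 2 (fun g hg => by
      have : g ≠ 2 := by omega
      simp [st, this]) l hl
    have he : (fun g => if g = 2 then st 2 k g + 1 else st 2 k g) = st 2 (k + 1) := by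
      funext g
      unfold st
      by_cases hg : g = 2 <;> simp [hg]
    rw [he] at h
    exact h

theorem EMd_lt (a b : List ℕ) : ∀ x y : List ℕ, x < y → ¬ x <+: y → x ++ a < y ++ b
  | [], y, _, h => absurd (List.nil_prefix) h
  | n :: l, [], hlt, _ => absurd hlt (List.not_lt_nil _)
  | n :: l, n' :: l', hlt, h => by
    rw [List.cons_append, List.cons_append, List.cons_lt_cons_iff]
    rw [List.cons_lt_cons_iff] at hlt
    rcases hlt with h1 | ⟨h1, h2⟩
    · exact Or.inl h1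
    · refine Or.inr ⟨h1, EMd_lt a b l l' h2 ?_⟩
      intro hp
      exact h (List.cons_prefix_cons.mpr ⟨h1, hp⟩)

theorem EMd_claim (k : ℕ) (G : SimpleGraph (List ℕ))
    (hno : ¬ ∃ (z : List ℕ) (f : {l // cpl (st 2 k) l} → {l // cpl (st 2 (k + k)) l}),
      (∀ x y, x.1 < y.1 → (f x).1 < (f y).1) ∧ ∀ x, G.Adj z (f x).1)
    (p : {l // cpl (st 2 k) l}) (F : List (List ℕ)) :
    ∃ q : {l // cpl (st 2 k) l}, ∀ z ∈ F, ¬ G.Adj z (p.1 ++ q.1) := by
  classical
  by_contra hcon
  push Not at hcon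
  obtain ⟨l0, hl0⟩ := EMd_nonempty k
  obtain ⟨z0, hz0, _⟩ := hcon ⟨l0, hl0⟩
  have hpos : 0 < F.length := List.length_pos_of_mem hz0
  obtain ⟨r, hr⟩ := Nat.exists_eq_succ_of_ne_zero (Nat.pos_iff_ne_zero.mp hpos)
  have hex : ∀ q : {l // cpl (st 2 k) l}, ∃ i : Fin (r + 1), ∃ h : i.1 < F.length,
      G.Adj (F[i.1]'h) (p.1 ++ q.1) := by
    intro q
    obtain ⟨z, hz, hadj⟩ := hcon q
    obtain ⟨i, hi, rfl⟩ := List.getElem_of_mem hz
    exact ⟨⟨i, by omega⟩, hi, hadj⟩
  choose χ hχ using hex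
  obtain ⟨i, f, hf1, hf2⟩ := indiv (st 2 k) (fun g hg => by
    have : g ≠ 2 := by omega
    simp [st, this]) r (fun l => if h : cpl (st 2 k) l then χ ⟨l, h⟩ else 0)
  apply hno
  refine ⟨F[i.1]'(by have := i.2; omega), fun x => ⟨p.1 ++ (f x).1,
    cpl_append k k p.1 (f x).1 p.2 (f x).2⟩, ?_, ?_⟩
  · intro x y hxy
    exact List.append_left_lt (hf1 x y hxy)
  · intro x
    have h1 := hf2 x
    have h2 : cpl (st 2 k) (f x).1 := (f x).2
    simp only [h2, dif_pos] at h1
    obtain ⟨hh, hadj⟩ := hχ (f x)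
    have h3 : χ (f x) = i := h1
    subst h3
    exact hadj

/-- the sections of a triangle-free graph: an independent copy of the lists of the state
`st 2 k` inside the lists of the state `st 2 (k + k)` -/
theorem em_section (k : ℕ) (G : SimpleGraph (List ℕ)) (h3 : G.CliqueFree 3) :
    ∃ f : {l // cpl (st 2 k) l} → {l // cpl (st 2 (k + k)) l},
      (∀ x y, x.1 < y.1 → (f x).1 < (f y).1) ∧ ∀ x y, ¬ G.Adj (f x).1 (f y).1 := by
  classical
  by_cases hno : ∃ (z : List ℕ) (f : {l // cpl (st 2 k) l} → {l // cpl (st 2 (k + k)) l}),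
      (∀ x y, x.1 < y.1 → (f x).1 < (f y).1) ∧ ∀ x, G.Adj z (f x).1
  · obtain ⟨z, f, hf1, hf2⟩ := hno
    refine ⟨f, hf1, fun x y hxy => ?_⟩
    refine h3 {z, (f x).1, (f y).1} ?_
    rw [SimpleGraph.is3Clique_iff]
    exact ⟨_, _, _, hf2 x, hf2 y, hxy, rfl⟩
  · choose Q hQ using EMd_claim k G hno
    obtain ⟨l0, hl0⟩ := EMd_nonempty k
    haveI : Nonempty {l // cpl (st 2 k) l} := ⟨⟨l0, hl0⟩⟩
    obtain ⟨w, hw⟩ := exists_surjective_nat {l // cpl (st 2 k) l}
    let L : ℕ → List (List ℕ) := fun n =>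
      Nat.rec [] (fun m Lm => ((w m).1 ++ (Q (w m) Lm).1) :: Lm) n
    have hL : ∀ n, L (n + 1) = ((w n).1 ++ (Q (w n) (L n)).1) :: L n := fun n => rfl
    have hmem : ∀ n m, m < n → ((w m).1 ++ (Q (w m) (L m)).1) ∈ L n := by
      intro n
      induction n with
      | zero => intro m hm; exact absurd hm (Nat.not_lt_zero m)
      | succ n ih =>
        intro m hm
        rw [hL]
        rcases Nat.lt_succ_iff_lt_or_eq.mp hm with h | h
        · exact List.mem_cons_of_mem _ (ih m h)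
        · subst h
          exact List.mem_cons_self
    have hnon : ∀ m n, m < n → ¬ G.Adj ((w m).1 ++ (Q (w m) (L m)).1)
        ((w n).1 ++ (Q (w n) (L n)).1) := by
      intro m n hmn
      exact hQ (w n) (L n) _ (hmem n m hmn)
    choose idx hidx using hw
    refine ⟨fun x => ⟨x.1 ++ (Q x (L (idx x))).1, cpl_append k k x.1 _ x.2 (Q x _).2⟩, ?_, ?_⟩
    · intro x y hxy
      apply EMd_lt _ _ x.1 y.1 hxy
      intro hp
      have := cpl_prefix (st 2 k) x.1 y.1 x.2 y.2 hp
      rw [this] at hxy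
      exact lt_irrefl _ hxy
    · intro x y hadj
      have hadj' : G.Adj (x.1 ++ (Q x (L (idx x))).1) (y.1 ++ (Q y (L (idx y))).1) := hadj
      rcases lt_trichotomy (idx x) (idx y) with h | h | h
      · have h1 := hnon _ _ h
        rw [hidx, hidx] at h1
        exact h1 hadj'
      · have hxy : x = y := by rw [← hidx x, ← hidx y, h]
        subst hxy
        exact hadj'.ne rfl
      · have h1 := hnon _ _ h
        rw [hidx, hidx] at h1
        exact h1 hadj'.symm

end Pool.Agent.H.MP_2e666d_lc
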