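import Pool.Agent.H.MP_2e666d_lc.FDef

/-! # The true play of the rest of a history -/

namespace Pool.Agent.H.MP_2e666d_lc

open Pos

variable {τ : Type} {T : Set τ}

theorem FBack_sel (F : List ℕ) (N : ℕ) (g : ℕ → Bool) :
    sel (F.map g ++ [true]) (F ++ [N]) = F.filter g ++ [N] := by
  induction F with
  | nil => simp [sel]
  | cons a F ih =>
    cases hg : g a with
    | true => simp [sel, hg, ih]
    | false => simp [sel, hg, ih]

theorem FBack_count (F : List ℕ) (f : ℕ → Option τ) :
    (F.map (fun j => (f j).isSome)).count true = (F.filterMap f).length := by
  induction F with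
  | nil => simp
  | cons a F ih =>
    cases hf : f a with
    | none => simp [hf, ih]
    | some t => simp [hf, ih]

theorem FBack_lookup (F : List ℕ) (N : ℕ) (f : ℕ → Option τ) (j : ℕ) :
    ((F.filter (fun j => (f j).isSome) ++ [N]).zip (F.filterMap f)).lookup j =
      if j ∈ F then f j else none := by
  induction F with
  | nil => simp
  | cons a F ih =>
    cases hf : f a with
    | none =>
      simp only [List.filter_cons, hf, Option.isSome_none, Bool.false_eq_true, if_false,
        List.filterMap_cons, ih, List.mem_cons]
      by_cases h1 : j = a
      · subst h1
        simp [hf]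
      · simp [h1]
    | some t =>
      simp only [List.filter_cons, hf, Option.isSome_some, if_true,
        List.filterMap_cons, List.cons_append, List.zip_cons_cons, List.lookup_cons, ih,
        List.mem_cons]
      by_cases h1 : j = a
      · subst h1
        simp [hf]
      · have : (j == a) = false := by simpa using h1
        simp [h1, this]

/-- one step backwards -/
theorem FBack_step (a : ℕ → List Bool) (J' : List ℕ) (s' : ℕ → List (Option τ))
    (hJ : J' ≠ []) (h0 : levL a = 0 → J'.length = 1)
    (hl : ∀ g, (s' g).length = (nA a J' g).length)
    (hf : ∀ g (j : ℕ) (t : τ), (s' g)[j]? = some (some t) →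
      t ∈ T ∧ (nA a J' g)[j]? = some true) :
    ∃ (m : List Bool) (ts : List τ), J'.length = m.length + 1 ∧ m.count true = ts.length ∧
      (∀ t ∈ ts, t ∈ T) ∧ (levL a = 0 → ts = []) ∧
      ∀ s : ℕ → List (Option τ), levL s = levL a →
        (s (levL a)).tail = s' (levL a) →
        (∀ g, g ≠ levL a → g + 1 ≠ levL a → s g = s' g) →
        newS s ts (sel (m ++ [true]) J') = s' := by
  obtain ⟨F, N, rfl⟩ : ∃ F N, J' = F ++ [N] :=
    ⟨J'.dropLast, J'.getLast hJ, (List.dropLast_append_getLast hJ).symm⟩
  by_cases hz : levL a = 0
  · have hF : F = [] := by
      have := h0 hz
      simpa using this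
    subst hF
    refine ⟨[], [], by simp, by simp, by simp, fun _ => rfl, ?_⟩
    intro s h1 h2 h3
    funext j
    unfold newS
    by_cases hj : j = levL s
    · rw [if_pos hj, hj, h1, h2]
    · have hj2 : j + 1 ≠ levL s := by omega
      rw [if_neg hj, if_neg hj2]
      exact h3 j (by omega) (by omega)
  · obtain ⟨g, hg⟩ : ∃ g, g + 1 = levL a := ⟨levL a - 1, by omega⟩
    set f : ℕ → Option τ := fun j => (s' g).getD j none with hfdef
    have hne : g ≠ levL a := by omega
    have hnA : nA a (F ++ [N]) g = mkA (F ++ [N]) := by
      unfold nA
      rw [if_neg hne, if_pos hg]
    have hlen : (s' g).length = N + 1 := by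
      rw [hl g, hnA]
      simp [mkA]
    refine ⟨F.map (fun j => (f j).isSome), F.filterMap f, by simp, FBack_count F f, ?_,
      fun h => absurd h hz, ?_⟩
    · intro t ht
      rw [List.mem_filterMap] at ht
      obtain ⟨j, _, hj⟩ := ht
      have h1 : (s' g)[j]? = some (some t) := by
        rw [hfdef] at hj
        simp only [List.getD_eq_getElem?_getD] at hj
        cases h : (s' g)[j]? with
        | none => rw [h] at hj; simp at hj
        | some o => rw [h] at hj; simp at hj; rw [hj]
      exact (hf g j t h1).1
    · intro s h1 h2 h3
      rw [FBack_sel F N (fun j => (f j).isSome)]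
      funext j
      unfold newS
      by_cases hj : j = levL s
      · rw [if_pos hj, hj, h1, h2]
      · rw [if_neg hj]
        by_cases hj2 : j + 1 = levL s
        · rw [if_pos hj2]
          have hjg : j = g := by omega
          subst hjg
          unfold mkF
          have hlast : (F.filter (fun j => (f j).isSome) ++ [N]).getLastD 0 = N := by simp
          rw [hlast]
          apply List.ext_getElem?
          intro i
          rw [List.getElem?_map]
          by_cases hi : i < N + 1
          · rw [List.getElem?_range hi]
            simp only [Option.map_some]
            rw [FBack_lookup F N f i]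
            have hi2 : i < (s' j).length := by omega
            have hfi : f i = (s' j)[i] := by
              rw [hfdef]
              simp [List.getD_eq_getElem?_getD, List.getElem?_eq_getElem hi2]
            rw [List.getElem?_eq_getElem hi2]
            by_cases hiF : i ∈ F
            · rw [if_pos hiF, hfi]
            · rw [if_neg hiF]
              cases hc : (s' j)[i] with
              | none => rfl
              | some t =>
                exfalso
                have h4 : (s' j)[i]? = some (some t) := by
                  rw [List.getElem?_eq_getElem hi2, hc]
                have h5 := (hf j i t h4).2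
                rw [hnA] at h5
                unfold mkA at h5
                rw [List.getElem?_map] at h5
                have h6 : (F ++ [N]).getLastD 0 = N := by simp
                rw [h6, List.getElem?_range hi] at h5
                simp at h5
                exact hiF h5
          · rw [List.getElem?_eq_none (by simpa using hi),
              List.getElem?_eq_none (by omega)]
            rfl
        · rw [if_neg hj2]
          exact h3 j (by omega) (by omega)

/-- the true play of the rest of a history, with tags truthful with respect to the word `Wf` -/
theorem back (Φ : List ℕ → ℕ → ℕ → τ) (hΦ : ∀ W k g, Φ W k g ∈ T) (Wf : List ℕ)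
    (h : List (Bool × List ℕ)) (A : Bool → ℕ → List Bool) (hh : WFH A h) (k : ℕ)
    (hk : ∀ e, h.head? = some e → e.1 = decide (k % 2 = 1)) :
    ∃ S : Bool → ℕ → List (Option τ),
      (∀ u g, (S u g).length = (A u g).length) ∧
      (∀ u g (j : ℕ) (t : τ), (S u g)[j]? = some (some t) →
        t ∈ T ∧ (A u g)[j]? = some true) ∧
      ∀ p : Pos τ, p.s = S → p.W.length = k → ∃ q, Run2 T p h q ∧ (∀ u, q.dn u) ∧
        q.W = wdf p.W p.h A h ∧ ∀ f ∈ q.facts, f ∈ p.facts ∨ f.2.2 = Φ Wf f.1 f.2.1 := by
  classical
  induction hh generalizing k with
  | nil A hA =>
    refine ⟨fun _ _ => [], ?_, ?_, ?_⟩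
    · intro u g
      simp [hA u g]
    · intro u g j t ht
      simp at ht
    · intro p hp hW
      refine ⟨p, Run2.nil p, ?_, ?_, ?_⟩
      · intro u g
        rw [hp]
      · simp [wdf]
      · intro f hf
        exact Or.inl hf
  | cons A u J' h hne hJ hP hfalse hzero hturn hrest ih =>
    have hu : u = decide (k % 2 = 1) := hk (u, J') rfl
    -- the end of the block
    set comp : Prop := ∀ g, nA (A u) J' g = [] with hcomp
    set e2 : Prop := ∃ e, h.head? = some e ∧ e.1 ≠ u with he2
    set k' : ℕ := if comp ∨ e2 then k + 1 else k with hk'
    have hk2 : ∀ e, h.head? = some e → e.1 = decide (k' % 2 = 1) := by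
      intro e he
      by_cases hc : comp
      · have hk1 : k' = k + 1 := if_pos (Or.inl hc)
        have heu : e.1 ≠ u := by
          intro heu
          cases hrest with
          | nil _ hA => simp at he
          | cons _ u2 J2 h2 hne2 _ _ _ _ _ _ =>
            simp at he
            subst he
            simp only at heu
            subst heu
            apply hne2
            intro g
            simp only [Function.update_self]
            exact hc g
        rw [hk1]
        have h1 : e.1 = !u := by
          cases hb : e.1 <;> cases hb2 : u <;> simp_all
        rw [h1, hu]
        rcases Nat.mod_two_eq_zero_or_one k with h2 | h2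
        · have : (k + 1) % 2 = 1 := by omega
          simp [h2, this]
        · have : (k + 1) % 2 = 0 := by omega
          simp [h2, this]
      · by_cases hc2 : e2
        · have hk1 : k' = k + 1 := if_pos (Or.inr hc2)
          have heu : e.1 ≠ u := by
            obtain ⟨e', he', hne'⟩ := hc2
            rw [he] at he'
            simp at he'
            rw [he']
            exact hne'
          rw [hk1]
          have h1 : e.1 = !u := by
            cases hb : e.1 <;> cases hb2 : u <;> simp_all
          rw [h1, hu]
          rcases Nat.mod_two_eq_zero_or_one k with h2 | h2
          · have : (k + 1) % 2 = 1 := by omega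
            simp [h2, this]
          · have : (k + 1) % 2 = 0 := by omega
            simp [h2, this]
        · have hk1 : k' = k := if_neg (not_or.2 ⟨hc, hc2⟩)
          rw [hk1, ← hu]
          by_contra hcon
          exact hc2 ⟨e, he, hcon⟩
    obtain ⟨S', hS1, hS2, hS3⟩ := ih k' hk2
    have hupd : ∀ g, Function.update A u (nA (A u) J') u g = nA (A u) J' g := by
      intro g
      rw [Function.update_self]
    have hupd2 : ∀ v, v ≠ u → ∀ g, Function.update A u (nA (A u) J') v g = A v g := by
      intro v hv g
      rw [Function.update_of_ne hv]
    obtain ⟨m, ts, hm1, hm2, hT, hts0, hnew⟩ := FBack_step (T := T) (A u) J' (S' u) hJ hzero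
      (fun g => by rw [hS1 u g, hupd]) (fun g j t ht => by
        have := hS2 u g j t ht
        rwa [hupd] at this)
    set g0 := levL (A u) with hg0
    obtain ⟨hg0ne, hg0lt⟩ := levL_spec (A u) hne
    set φ : Option τ := if g0 ≠ 0 then (if ts = [] then none else some (Φ Wf k g0))
      else (if e2 ∧ ¬ comp then some (Φ Wf k g0) else none) with hφ
    have hφ1 : ∀ t, φ = some t → t = Φ Wf k g0 ∧ (A u g0).head? = some true := by
      intro t ht
      rw [hφ] at ht
      have hhead : (A u g0).head? ≠ some false → (A u g0).head? = some true := by
        intro h1
        cases hc : (A u g0) with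
        | nil => exact absurd hc hg0ne
        | cons b l => 
          cases b with
          | false => rw [hc] at h1; simp at h1
          | true => simp
      split_ifs at ht with h1 h2 h3
      · simp at ht
        refine ⟨ht.symm, hhead ?_⟩
        intro hfa
        have := hfalse hfa
        apply h2
        apply List.length_eq_zero_iff.1
        rw [← hm2]
        have hm0 : m = [] := List.length_eq_zero_iff.1 (by omega)
        rw [hm0]
        rfl
      · simp at ht
        refine ⟨ht.symm, ?_⟩
        obtain ⟨⟨e, he, heu⟩, hnc⟩ := h3
        rcases hturn e he heu with h4 | ⟨_, h4⟩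
        · exact absurd h4 hnc
        · have h5 : g0 = 0 := by
            by_contra h6
            exact h1 h6
          rw [h5]
          exact h4
    set s : ℕ → List (Option τ) := fun g => if g = g0 then φ :: S' u g
      else if g + 1 = g0 then [] else S' u g with hs
    have hslen : ∀ g, (s g).length = (A u g).length := by
      intro g
      rw [hs]
      simp only
      by_cases h1 : g = g0
      · rw [if_pos h1]
        simp only [List.length_cons]
        rw [hS1 u g, hupd]
        unfold nA
        rw [← hg0, if_pos h1, List.length_tail, h1]
        have : 0 < (A u g0).length := List.length_pos_iff.2 hg0ne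
        omega
      · rw [if_neg h1]
        by_cases h2 : g + 1 = g0
        · rw [if_pos h2, hg0lt g (by omega)]
          rfl
        · rw [if_neg h2, hS1 u g, hupd]
          unfold nA
          rw [← hg0, if_neg h1, if_neg h2]
    have hlev : levL s = g0 := levL_congr s (A u) hslen
    have hnews : newS s ts (sel (m ++ [true]) J') = S' u := by
      apply hnew s hlev
      · rw [hs]
        simp
      · intro g h1 h2
        rw [hs]
        simp only
        rw [if_neg h1, if_neg h2]
    refine ⟨fun v => if v = u then s else S' v, ?_, ?_, ?_⟩
    · intro v g
      by_cases hv : v = u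
      · subst hv
        simp only [if_true]
        exact hslen g
      · simp only [if_neg hv]
        rw [hS1 v g, hupd2 v hv]
    · intro v g j t ht
      by_cases hv : v = u
      · subst hv
        simp only [if_true] at ht
        rw [hs] at ht
        simp only at ht
        by_cases h1 : g = g0
        · rw [if_pos h1] at ht
          cases j with
          | zero =>
            simp at ht
            obtain ⟨h2, h3⟩ := hφ1 t ht
            rw [h2]
            refine ⟨hΦ _ _ _, ?_⟩
            rw [h1, ← h3, List.head?_eq_getElem?]
          | succ j =>
            simp only [List.getElem?_cons_succ] at ht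
            obtain ⟨h2, h3⟩ := hS2 v g j t ht
            refine ⟨h2, ?_⟩
            rw [hupd] at h3
            unfold nA at h3
            rw [← hg0, if_pos h1] at h3
            rw [List.getElem?_tail] at h3
            exact h3
        · rw [if_neg h1] at ht
          by_cases h2 : g + 1 = g0
          · rw [if_pos h2] at ht
            simp at ht
          · rw [if_neg h2] at ht
            obtain ⟨h3, h4⟩ := hS2 v g j t ht
            refine ⟨h3, ?_⟩
            rw [hupd] at h4
            unfold nA at h4
            rw [← hg0, if_neg h1, if_neg h2] at h4
            exact h4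
      · simp only [if_neg hv] at ht
        obtain ⟨h3, h4⟩ := hS2 v g j t ht
        refine ⟨h3, ?_⟩
        rwa [hupd2 v hv] at h4
    · intro p hp hW
      have hmv : p.mv = u := by
        unfold Pos.mv
        rw [hW, hu]
      have hpu : p.s u = s := by
        rw [hp]
        simp
      have hlv : p.lv = g0 := by
        unfold Pos.lv
        rw [hmv, hpu, hlev]
      have hfl : p.fl = φ := by
        unfold Pos.fl
        rw [hlv, hmv, hpu, hs]
        simp
      have hndn : ¬ p.dn p.mv := by
        intro hd
        have h1 := hd g0
        rw [hmv, hpu, hs] at h1
        simp at h1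
      have hAnn : p.Ann T ts := by
        refine ⟨hT, ?_, ?_⟩
        · intro h1
          rw [hlv] at h1
          exact hts0 h1
        · intro h1
          rw [hlv] at h1
          rw [hfl, hφ, if_pos h1]
          constructor
          · intro h2
            by_contra h3
            rw [if_neg h3] at h2
            simp at h2
          · intro h2
            rw [if_pos h2]
      set p' := p.adv ts (sel (m ++ [true]) J') with hp'
      have hnewp : newS (p.s p.mv) ts (sel (m ++ [true]) J') = S' u := by
        rw [hmv, hpu, hnews]
      have hp's : p'.s = S' := by
        rw [hp']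
        unfold Pos.adv
        simp only
        rw [hnewp, hmv]
        funext v
        by_cases hv : v = u
        · subst hv
          rw [Function.update_self]
        · rw [Function.update_of_ne hv, hp]
          simp only [if_neg hv]
      have hcompiff : (∀ j, newS (p.s p.mv) ts (sel (m ++ [true]) J') j = []) ↔ comp := by
        rw [hnewp, hcomp]
        constructor
        · intro h1 g
          apply List.length_eq_zero_iff.1
          rw [← hupd g, ← hS1 u g, h1 g]
          rfl
        · intro h1 g
          apply List.length_eq_zero_iff.1
          rw [hS1 u g, hupd g, h1 g]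
          rfl
      have hend : ¬ comp → ((p.lv = 0 ∧ p.fl ≠ none) ↔ e2) := by
        intro hnc
        rw [hlv, hfl]
        constructor
        · rintro ⟨h1, h2⟩
          rw [hφ] at h2
          by_contra h3
          apply h2
          rw [if_neg (not_not.2 h1), if_neg (fun hx => h3 hx.1)]
        · intro h1
          obtain ⟨e, he, heu⟩ := h1
          rcases hturn e he heu with h4 | ⟨h4, _⟩
          · exact absurd h4 hnc
          · have h5 : g0 = 0 := h4
            refine ⟨h5, ?_⟩
            rw [hφ, if_neg (not_not.2 h5), if_pos ⟨⟨e, he, heu⟩, hnc⟩]
            simp
      have hW' : p'.W = if comp then p.W ++ [4] else if e2 then p.W ++ [max p.h g0] else p.W := by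
        rw [hp']
        unfold Pos.adv
        simp only
        by_cases hc : comp
        · rw [if_pos (hcompiff.2 hc), if_pos hc]
        · rw [if_neg (fun h1 => hc (hcompiff.1 h1)), if_neg hc]
          by_cases hc2 : e2
          · rw [if_pos ((hend hc).2 hc2), if_pos hc2, hlv]
          · rw [if_neg (fun h1 => hc2 ((hend hc).1 h1)), if_neg hc2]
      have hh' : p'.h = if comp ∨ e2 then 0 else max p.h g0 := by
        rw [hp']
        unfold Pos.adv
        simp only
        by_cases hc : comp
        · rw [if_pos (Or.inl (hcompiff.2 hc)), if_pos (Or.inl hc)]
        · by_cases hc2 : e2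
          · rw [if_pos (Or.inr ((hend hc).2 hc2)), if_pos (Or.inr hc2)]
          · rw [if_neg, if_neg, hlv]
            · exact not_or.2 ⟨hc, hc2⟩
            · intro h1
              rcases h1 with h1 | h1
              · exact hc (hcompiff.1 h1)
              · exact hc2 ((hend hc).1 h1)
      have hWlen : p'.W.length = k' := by
        rw [hW', hk']
        by_cases hc : comp
        · rw [if_pos hc, if_pos (Or.inl hc)]
          simp [hW]
        · rw [if_neg hc]
          by_cases hc2 : e2
          · rw [if_pos hc2, if_pos (Or.inr hc2)]
            simp [hW]
          · rw [if_neg hc2, if_neg (not_or.2 ⟨hc, hc2⟩), hW]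
      obtain ⟨q, hq1, hq2, hq3, hq4⟩ := hS3 p' hp's hWlen
      refine ⟨q, ?_, hq2, ?_, ?_⟩
      · have := Run2.cons (T := T) p J' h m ts q hndn hAnn hm1 hm2 hq1
        rw [hmv] at this
        exact this
      · rw [hq3, hW', hh']
        simp only [wdf]
        by_cases hc : comp
        · rw [if_pos hc, if_pos (Or.inl hc), if_pos hc]
        · rw [if_neg hc, if_neg hc]
          by_cases hc2 : e2
          · rw [if_pos hc2, if_pos (Or.inr hc2), if_pos hc2]
          · rw [if_neg hc2, if_neg (not_or.2 ⟨hc, hc2⟩), if_neg hc2]
      · intro f hf
        rcases hq4 f hf with h1 | h1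
        · rw [hp', adv_facts, hfl] at h1
          cases hφc : φ with
          | none =>
            rw [hφc] at h1
            exact Or.inl h1
          | some t =>
            rw [hφc] at h1
            simp only [List.mem_cons] at h1
            rcases h1 with h1 | h1
            · right
              rw [h1]
              simp only
              rw [hW, hlv]
              exact (hφ1 t hφc).1
            · exact Or.inl h1
        · exact Or.inr h1

end Pool.Agent.H.MP_2e666d_lc
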