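import Pool.Agent.H.MP_2e666d_lc.GameLem

/-! # Fusion: definitions

An event of a history is a pair `(u, J')`: the element `u` draws; `J'` is the list of the positions
of the free children followed by the drawn number. -/

namespace Pool.Agent.H.MP_2e666d_lc

open Pos

/-- positions consistent with a history (from the start) -/
inductive Cons {τ : Type} (T : Set τ) : List (Bool × List ℕ) → Pos τ → Prop
  | nil (φ1 φ2 : Option τ) : (∀ t, φ1 = some t → t ∈ T) → (∀ t, φ2 = some t → t ∈ T) →
      Cons T [] (start φ1 φ2)
  | snoc (h : List (Bool × List ℕ)) (p : Pos τ) (J' : List ℕ) (m : List Bool) (ts : List τ) :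
      Cons T h p → ¬ p.dn p.mv → p.Ann T ts → J'.length = m.length + 1 →
      m.count true = ts.length →
      Cons T (h ++ [(p.mv, J')]) (p.adv ts (sel (m ++ [true]) J'))

/-- plays of one element along a list of events -/
inductive Run {τ : Type} (T : Set τ) (u : Bool) : Pos τ → List (List ℕ) → Pos τ → Prop
  | nil (p : Pos τ) : Run T u p [] p
  | cons (p : Pos τ) (J' : List ℕ) (Js : List (List ℕ)) (m : List Bool) (ts : List τ)
      (q : Pos τ) : p.mv = u → ¬ p.dn p.mv → p.Ann T ts → J'.length = m.length + 1 →
      m.count true = ts.length → Run T u (p.adv ts (sel (m ++ [true]) J')) Js q →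
      Run T u p (J' :: Js) q

/-- plays of both elements along a history -/
inductive Run2 {τ : Type} (T : Set τ) : Pos τ → List (Bool × List ℕ) → Pos τ → Prop
  | nil (p : Pos τ) : Run2 T p [] p
  | cons (p : Pos τ) (J' : List ℕ) (h : List (Bool × List ℕ)) (m : List Bool) (ts : List τ)
      (q : Pos τ) : ¬ p.dn p.mv → p.Ann T ts → J'.length = m.length + 1 →
      m.count true = ts.length → Run2 T (p.adv ts (sel (m ++ [true]) J')) h q →
      Run2 T p ((p.mv, J') :: h) q

/-- the free children of a node (`true` = free) -/
def mkA (J' : List ℕ) : List Bool :=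
  (List.range (J'.getLastD 0 + 1)).map (fun j => decide (j ∈ J'.dropLast))

/-- effect of a draw on the lists of the pending draws (`true` = free) -/
noncomputable def nA (A : ℕ → List Bool) (J' : List ℕ) : ℕ → List Bool := fun j =>
  if j = levL A then (A j).tail else if j + 1 = levL A then mkA J' else A j

/-- initial structure -/
def A0 : ℕ → List Bool := fun g => if g = 3 then [true] else []

/-- structure after a list of events -/
noncomputable def Afree (Js : List (List ℕ)) : ℕ → List Bool := Js.foldl nA A0

/-- A group with the list `q` of quotas: non-free draws, and draws of free entries, each with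
the next quota of free children, until a free draw of level `0`. -/
inductive Grp : (ℕ → List Bool) → List ℕ → List (List ℕ) → (ℕ → List Bool) → Prop
  | junk (A : ℕ → List Bool) (q : List ℕ) (N : ℕ) (Js : List (List ℕ)) (A' : ℕ → List Bool) :
      (A (levL A)).head? = some false → Grp (nA A [N]) q Js A' → Grp A q ([N] :: Js) A'
  | free (A : ℕ → List Bool) (m : ℕ) (q J' : List ℕ) (Js : List (List ℕ))
      (A' : ℕ → List Bool) : (A (levL A)).head? = some true → levL A ≠ 0 →
      J'.length = m + 1 → J'.Pairwise (· < ·) → Grp (nA A J') q Js A' →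
      Grp A (m :: q) (J' :: Js) A'
  | leaf (A : ℕ → List Bool) (N : ℕ) : (A (levL A)).head? = some true → levL A = 0 →
      Grp A [] [[N]] (nA A [N])

/-- non-free draws until completion -/
inductive Junk : (ℕ → List Bool) → List (List ℕ) → Prop
  | nil (A : ℕ → List Bool) : (∀ g, A g = []) → Junk A []
  | cons (A : ℕ → List Bool) (N : ℕ) (Js : List (List ℕ)) :
      (A (levL A)).head? = some false → Junk (nA A [N]) Js → Junk A ([N] :: Js)

open Classical in
/-- the group of the source node which is reached from a source node with the state `c` by the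
number `n` -/
def FullGrp (A : ℕ → List Bool) (c : ℕ → ℕ) (n : ℕ) (Js : List (List ℕ)) : Prop :=
  ∃ (Js1 : List (List ℕ)) (A' : ℕ → List Bool) (Js2 : List (List ℕ)),
    Grp A (if lev c = 0 then [] else (n + 2) :: List.replicate (lev c - 1) 1) Js1 A' ∧
    Js = Js1 ++ Js2 ∧ (if ∀ g, rd c n g = 0 then Junk A' Js2 else Js2 = [])

/-- state of the counter machine after a list -/
noncomputable def stS (s : List ℕ) : ℕ → ℕ := s.foldl rd one3

/-- initial segments of complete lists -/
def VN (s : List ℕ) : Prop := ∀ (s' : List ℕ) (n : ℕ), s' ++ [n] <+: s → ∃ g, stS s' g ≠ 0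

/-- numbering of the source nodes -/
def num (s : List ℕ) : ℕ := Encodable.encode s.reverse

/-- the events on the way to the source node `s`, given the groups -/
def evs (gr : ℕ → List (List ℕ)) (s : List ℕ) : List (List ℕ) :=
  (List.range s.length).flatMap (fun i => gr (num (s.take (i + 1))))

open Classical in
/-- the history of a pair of source nodes before the time `K` -/
noncomputable def hist (gr : ℕ → List (List ℕ)) (K : ℕ) (x y : List ℕ) :
    List (Bool × List ℕ) :=
  (List.range K).flatMap (fun i =>
    if ∃ j < x.length, num (x.take (j + 1)) = i then (gr i).map (fun J => (false, J))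
    else if ∃ j < y.length, num (y.take (j + 1)) = i then (gr i).map (fun J => (true, J))
    else [])

/-- pairs of source nodes with different roots; the second one may be empty -/
def PV (x y : List ℕ) : Prop := VN x ∧ VN y ∧ (y ≠ [] → x ≠ [] ∧ x.headD 0 < y.headD 0)

/-- the fusion invariant: all consistent positions before the time `K` are not winning -/
def InvW {τ : Type} (T : Set τ) (G : SimpleGraph B) (Φ : List ℕ → ℕ → ℕ → τ)
    (gr : ℕ → List (List ℕ)) (K : ℕ) : Prop :=
  ∀ x y, PV x y → ∀ q, Cons T (hist gr K x y) q → ¬ Win T G Φ q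

/-- the requirements on the group number `i` -/
def GoodAt {τ : Type} (T : Set τ) (G : SimpleGraph B) (Φ : List ℕ → ℕ → ℕ → τ)
    (i : ℕ) (gr : ℕ → List (List ℕ)) : Prop :=
  (∀ s n, num (s ++ [n]) = i → VN s → (∃ g, stS s g ≠ 0) →
    FullGrp (Afree (evs gr s)) (stS s) n (gr i) ∧
    ∀ j < i, ∀ J ∈ gr j, ∀ a ∈ J, ∀ J' ∈ gr i, ∀ a' ∈ J', a < a') ∧
  InvW T G Φ gr (i + 1)

/-- well-formed complete histories -/
inductive WFH : (Bool → ℕ → List Bool) → List (Bool × List ℕ) → Prop
  | nil (A : Bool → ℕ → List Bool) : (∀ u g, A u g = []) → WFH A []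
  | cons (A : Bool → ℕ → List Bool) (u : Bool) (J' : List ℕ) (h : List (Bool × List ℕ)) :
      (¬ ∀ g, A u g = []) → J' ≠ [] → J'.Pairwise (· < ·) →
      ((A u (levL (A u))).head? = some false → J'.length = 1) →
      (levL (A u) = 0 → J'.length = 1) →
      (∀ e, h.head? = some e → e.1 ≠ u → (∀ g, nA (A u) J' g = []) ∨
        (levL (A u) = 0 ∧ (A u 0).head? = some true)) →
      WFH (Function.update A u (nA (A u) J')) h → WFH A ((u, J') :: h)

open Classical in
/-- the final word of a history -/
noncomputable def wdf : List ℕ → ℕ → (Bool → ℕ → List Bool) → List (Bool × List ℕ) → List ℕ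
  | W, _, _, [] => W
  | W, h, A, (u, J') :: r =>
      if ∀ g, nA (A u) J' g = [] then wdf (W ++ [4]) 0 (Function.update A u (nA (A u) J')) r
      else if ∃ e, r.head? = some e ∧ e.1 ≠ u then
        wdf (W ++ [max h (levL (A u))]) 0 (Function.update A u (nA (A u) J')) r
      else wdf W (max h (levL (A u))) (Function.update A u (nA (A u) J')) r

end Pool.Agent.H.MP_2e666d_lc
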