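import Pool.Agent.H.MP_2e666d_lc.FDef

/-! # Events of one element -/

namespace Pool.Agent.H.MP_2e666d_lc

/-- events of one element -/
def evOf (u : Bool) (h : List (Bool × List ℕ)) : List (List ℕ) :=
  (h.filter (fun e => e.1 == u)).map (fun e => e.2)

end Pool.Agent.H.MP_2e666d_lc
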