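import Pool.Agent.H.MP_2e666d_lc.FDef

/-! # Groups -/

namespace Pool.Agent.H.MP_2e666d_lc

open Pos

theorem FGrp_sup (A : ℕ → List Bool) (J' : List ℕ) (hne : ¬ ∀ g, A g = [])
    (hs : ∀ g, 3 < g → A g = []) : ∀ g, 3 < g → nA A J' g = [] := by
  intro g hg
  have hl : levL A ≤ 3 := by
    by_contra hc
    exact (levL_spec A hne).1 (hs _ (by omega))
  have h1 : g ≠ levL A := by omega
  have h2 : g + 1 ≠ levL A := by omega
  simp only [nA, h1, h2, if_false]
  exact hs g hg

/-- counts of the new children -/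
theorem FGrp_mkA (J' : List ℕ) (m : ℕ) (h1 : J'.length = m + 1) (h2 : J'.Pairwise (· < ·)) :
    (mkA J').count true = m := by
  have hne : J' ≠ [] := by
    intro h0
    rw [h0] at h1
    simp at h1
  obtain ⟨F, n, rfl⟩ : ∃ F n, J' = F ++ [n] :=
    ⟨J'.dropLast, J'.getLast hne, (List.dropLast_append_getLast hne).symm⟩
  have hF : F.Pairwise (· < ·) := (List.pairwise_append.mp h2).1
  have hFn : ∀ a ∈ F, a < n := fun a ha => (List.pairwise_append.mp h2).2.2 a ha n (by simp)
  have hlen : F.length = m := by simpa using h1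
  unfold mkA
  rw [List.getLastD_concat, List.dropLast_concat, List.count_eq_countP, List.countP_map,
    List.countP_eq_length_filter]
  have hperm : (List.filter ((fun x => x == true) ∘ fun j => decide (j ∈ F))
      (List.range (n + 1))).Perm F := by
    rw [List.perm_ext_iff_of_nodup (List.nodup_range.filter _) hF.nodup]
    intro a
    simp only [List.mem_filter, List.mem_range, Function.comp_apply, beq_iff_eq,
      decide_eq_true_eq]
    constructor
    · rintro ⟨_, h⟩
      exact h
    · intro h
      exact ⟨by have := hFn a h; omega, h⟩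
  rw [hperm.length_eq, hlen]

/-- a non-free draw does not change the counts -/
theorem FGrp_junk_count (A : ℕ → List Bool) (N : ℕ) (hne : ¬ ∀ g, A g = [])
    (hh : (A (levL A)).head? = some false) :
    ∀ g, (nA A [N] g).count true = (A g).count true := by
  intro g
  unfold nA
  split_ifs with h1 h2
  · subst h1
    cases hA : A (levL A) with
    | nil => rw [hA] at hh; simp at hh
    | cons b l =>
      rw [hA] at hh
      simp only [List.head?_cons, Option.some.injEq] at hh
      subst hh
      simp
  · rw [FGrp_mkA [N] 0 (by simp) (by simp)]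
    have : A g = [] := (levL_spec A hne).2 g (by omega)
    simp [this]
  · rfl

theorem FGrp_tail (l : List Bool) (h : l.head? = some true) :
    l.tail.count true = l.count true - 1 := by
  cases l with
  | nil => simp at h
  | cons b l =>
    simp only [List.head?_cons, Option.some.injEq] at h
    subst h
    simp

theorem FGrp_nz (l : List Bool) (h : l.head? = some true) : l.count true ≠ 0 := by
  cases l with
  | nil => simp at h
  | cons b l =>
    simp only [List.head?_cons, Option.some.injEq] at h
    subst h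
    simp

theorem FGrp_ne {A : ℕ → List Bool} {b : Bool} (h : (A (levL A)).head? = some b) :
    ¬ ∀ g, A g = [] := by
  intro h'
  rw [h' _] at h
  simp at h

theorem FGrp_lev {A : ℕ → List Bool} (h : (A (levL A)).head? = some true) (j : ℕ)
    (h1 : (A j).count true ≠ 0) (h2 : ∀ i < j, (A i).count true = 0) : levL A = j := by
  have hne := FGrp_ne h
  have h3 : levL A ≤ j := by
    by_contra hcon
    push Not at hcon
    have := (levL_spec A hne).2 _ hcon
    rw [this] at h1
    simp at h1
  have h4 : j ≤ levL A := by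
    by_contra hcon
    push Not at hcon
    exact FGrp_nz _ h (h2 _ hcon)
  omega

theorem FGrp_fold {A : ℕ → List Bool} {q : List ℕ} {Js : List (List ℕ)} {A' : ℕ → List Bool}
    (h : Grp A q Js A') : Js.foldl nA A = A' ∧ Js ≠ [] ∧
      ((∀ g, 3 < g → A g = []) → ∀ g, 3 < g → A' g = []) := by
  induction h with
  | junk A q N Js A' hh _ ih =>
    refine ⟨by simpa using ih.1, by simp, ?_⟩
    intro hs
    exact ih.2.2 (FGrp_sup A [N] (FGrp_ne hh) hs)
  | free A m q J' Js A' hh _ _ _ _ ih =>
    refine ⟨by simpa using ih.1, by simp, ?_⟩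
    intro hs
    exact ih.2.2 (FGrp_sup A J' (FGrp_ne hh) hs)
  | leaf A N hh _ =>
    refine ⟨by simp, by simp, ?_⟩
    intro hs
    exact FGrp_sup A [N] (FGrp_ne hh) hs

theorem FGrp_count1 {A : ℕ → List Bool} {q : List ℕ} {Js : List (List ℕ)} {A' : ℕ → List Bool}
    (h : Grp A q Js A') : ∀ j, q = List.replicate j 1 → (A j).count true ≠ 0 →
      (∀ i < j, (A i).count true = 0) →
      ∀ g, (A' g).count true = if g = j then (A g).count true - 1 else (A g).count true := by
  induction h with
  | junk A q N Js A' hh _ ih =>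
    intro j hq h1 h2 g
    have hc := FGrp_junk_count A N (FGrp_ne hh) hh
    rw [ih j hq (by rw [hc]; exact h1) (fun i hi => by rw [hc]; exact h2 i hi) g, hc]
  | free A m q J' Js A' hh hl hJ hP _ ih =>
    intro j hq h1 h2 g
    have hlev := FGrp_lev hh j h1 h2
    cases j with
    | zero => omega
    | succ j =>
      simp only [List.replicate_succ, List.cons.injEq] at hq
      obtain ⟨hm, hq⟩ := hq
      have e1 : nA A J' j = mkA J' := by
        unfold nA
        rw [hlev]
        simp
      have e2 : ∀ i, i ≠ j → i ≠ j + 1 → nA A J' i = A i := by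
        intro i hi hi'
        unfold nA
        rw [hlev, if_neg hi', if_neg (by omega)]
      have e3 : nA A J' (j + 1) = (A (j + 1)).tail := by
        unfold nA
        rw [hlev, if_pos rfl]
      have c1 : (nA A J' j).count true = 1 := by
        rw [e1, FGrp_mkA J' m hJ hP, hm]
      rw [ih j hq (by rw [c1]; omega)
        (fun i hi => by rw [e2 i (by omega) (by omega)]; exact h2 i (by omega)) g]
      by_cases hg : g = j
      · subst hg
        rw [if_pos rfl, if_neg (by omega), c1, h2 g (by omega)]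
      · rw [if_neg hg]
        by_cases hg' : g = j + 1
        · subst hg'
          rw [if_pos rfl, e3]
          exact FGrp_tail _ (by rw [hlev] at hh; exact hh)
        · rw [if_neg hg', e2 g hg hg']
  | leaf A N hh hl =>
    intro j hq h1 h2 g
    have hlev := FGrp_lev hh j h1 h2
    have hj : j = 0 := by omega
    subst hj
    unfold nA
    rw [hlev]
    by_cases h1 : g = 0
    · subst h1
      rw [if_pos rfl, if_pos rfl]
      exact FGrp_tail _ (by rw [hlev] at hh; exact hh)
    · rw [if_neg h1, if_neg h1, if_neg (by omega)]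

theorem FGrp_count2 {A : ℕ → List Bool} {q : List ℕ} {Js : List (List ℕ)} {A' : ℕ → List Bool}
    (h : Grp A q Js A') : ∀ m j, q = (m + 1) :: List.replicate j 1 →
      (A (j + 1)).count true ≠ 0 →
      (∀ i < j + 1, (A i).count true = 0) →
      ∀ g, (A' g).count true = if g = j + 1 then (A g).count true - 1 else
        if g + 1 = j + 1 then m else (A g).count true := by
  induction h with
  | junk A q N Js A' hh _ ih =>
    intro m j hq h1 h2 g
    have hc := FGrp_junk_count A N (FGrp_ne hh) hh
    rw [ih m j hq (by rw [hc]; exact h1) (fun i hi => by rw [hc]; exact h2 i hi) g, hc]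
  | free A m' q J' Js A' hh hl hJ hP hr _ =>
    intro m j hq h1 h2 g
    have hlev := FGrp_lev hh (j + 1) h1 h2
    simp only [List.cons.injEq] at hq
    obtain ⟨hm, hq⟩ := hq
    have e1 : nA A J' j = mkA J' := by
      unfold nA
      rw [hlev]
      simp
    have e2 : ∀ i, i ≠ j → i ≠ j + 1 → nA A J' i = A i := by
      intro i hi hi'
      unfold nA
      rw [hlev, if_neg hi', if_neg (by omega)]
    have e3 : nA A J' (j + 1) = (A (j + 1)).tail := by
      unfold nA
      rw [hlev, if_pos rfl]
    have c1 : (nA A J' j).count true = m + 1 := by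
      rw [e1, FGrp_mkA J' m' hJ hP, hm]
    rw [FGrp_count1 hr j hq (by rw [c1]; omega)
      (fun i hi => by rw [e2 i (by omega) (by omega)]; exact h2 i (by omega)) g]
    by_cases hg : g = j
    · subst hg
      rw [if_pos rfl, if_neg (by omega), if_pos rfl, c1]
      rfl
    · rw [if_neg hg]
      by_cases hg' : g = j + 1
      · subst hg'
        rw [if_pos rfl, e3]
        exact FGrp_tail _ (by rw [hlev] at hh; exact hh)
      · rw [if_neg hg', if_neg (by omega), e2 g hg hg']
  | leaf A N hh hl =>
    intro m j hq h1 h2 g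
    simp at hq

theorem FGrp_junk_fold {A : ℕ → List Bool} {Js : List (List ℕ)} (h : Junk A Js) :
    ∀ g, Js.foldl nA A g = [] := by
  induction h with
  | nil A h => simpa using h
  | cons A N Js hh _ ih => simpa using ih

/-- state after a group -/
theorem full_count (A : ℕ → List Bool) (c : ℕ → ℕ) (n : ℕ) (Js : List (List ℕ))
    (hA : ∀ g, (A g).count true = c g) (hs : ∀ g, 3 < g → A g = []) (hc : ∃ g, c g ≠ 0)
    (h : FullGrp A c n Js) :
    (∀ g, (Js.foldl nA A g).count true = rd c n g) ∧ (∀ g, 3 < g → Js.foldl nA A g = []) ∧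
      ((∀ g, rd c n g = 0) → ∀ g, Js.foldl nA A g = []) ∧ Js ≠ [] := by
  obtain ⟨Js1, A', Js2, h1, h2, h3⟩ := h
  have hlev1 : c (lev c) ≠ 0 := Nat.sInf_mem (s := {g | c g ≠ 0}) hc
  have hlev2 : ∀ i < lev c, c i = 0 := by
    intro i hi
    have := Nat.notMem_of_lt_sInf (s := {g | c g ≠ 0}) hi
    simpa using this
  obtain ⟨f1, f2, f3⟩ := FGrp_fold h1
  have hne : Js ≠ [] := by
    rw [h2]
    intro h4
    exact f2 (List.append_eq_nil_iff.mp h4).1
  by_cases hz : ∀ g, rd c n g = 0
  · rw [if_pos hz] at h3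
    have h4 : ∀ g, Js.foldl nA A g = [] := by
      intro g
      rw [h2, List.foldl_append, f1]
      exact FGrp_junk_fold h3 g
    exact ⟨fun g => by rw [h4 g, hz g]; simp, fun g _ => h4 g, fun _ => h4, hne⟩
  · rw [if_neg hz] at h3
    have h4 : Js.foldl nA A = A' := by
      rw [h2, h3, List.append_nil, f1]
    rw [h4]
    refine ⟨?_, f3 hs, fun h5 => absurd h5 hz, hne⟩
    intro g
    by_cases hl : lev c = 0
    · rw [if_pos hl] at h1
      rw [FGrp_count1 h1 0 (by simp) (by rw [hA]; rw [hl] at hlev1; exact hlev1) (by simp) g, hA]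
      unfold rd
      rw [hl]
      by_cases hg : g = 0
      · rw [if_pos hg, if_pos hg]
      · rw [if_neg hg, if_neg hg, if_neg (by omega)]
    · rw [if_neg hl] at h1
      obtain ⟨j, hj⟩ : ∃ j, lev c = j + 1 := ⟨lev c - 1, by omega⟩
      rw [hj] at h1 hlev1 hlev2
      rw [FGrp_count2 h1 (n + 1) j (by simp) (by rw [hA]; exact hlev1)
        (fun i hi => by rw [hA]; exact hlev2 i hi) g, hA]
      unfold rd
      rw [hj]

theorem FGrp_wf1 {A : ℕ → List Bool} {q : List ℕ} {Js : List (List ℕ)} {A' : ℕ → List Bool}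
    (h : Grp A q Js A') : ∀ (Js1 Js2 : List (List ℕ)) (J' : List ℕ), Js = Js1 ++ J' :: Js2 →
    (¬ ∀ g, Js1.foldl nA A g = []) ∧ J' ≠ [] ∧ J'.Pairwise (· < ·) ∧
    ((Js1.foldl nA A (levL (Js1.foldl nA A))).head? = some false → J'.length = 1) ∧
    (levL (Js1.foldl nA A) = 0 → J'.length = 1) ∧
    (Js2 = [] → 
      (levL (Js1.foldl nA A) = 0 ∧ (Js1.foldl nA A 0).head? = some true)) := by
  induction h with
  | junk A q N Js A' hh hr ih =>
    intro Js1 Js2 J' hJ
    cases Js1 with
    | nil =>
      simp only [List.nil_append, List.cons.injEq] at hJ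
      obtain ⟨rfl, rfl⟩ := hJ
      refine ⟨FGrp_ne hh, by simp, by simp, by simp, by simp, ?_⟩
      intro h0
      exact absurd h0 (FGrp_fold hr).2.1
    | cons J1 Js1 =>
      simp only [List.cons_append, List.cons.injEq] at hJ
      obtain ⟨rfl, hJ⟩ := hJ
      exact ih Js1 Js2 J' hJ
  | free A m q K Js A' hh hl hJ1 hP hr ih =>
    intro Js1 Js2 J' hJ
    cases Js1 with
    | nil =>
      simp only [List.nil_append, List.cons.injEq] at hJ
      obtain ⟨rfl, rfl⟩ := hJ
      refine ⟨FGrp_ne hh, ?_, hP, ?_, ?_, ?_⟩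
      · intro h0
        rw [h0] at hJ1
        simp at hJ1
      · intro h0
        rw [List.foldl_nil, hh] at h0
        simp at h0
      · intro h0
        exact absurd h0 hl
      · intro h0
        exact absurd h0 (FGrp_fold hr).2.1
    | cons J1 Js1 =>
      simp only [List.cons_append, List.cons.injEq] at hJ
      obtain ⟨rfl, hJ⟩ := hJ
      exact ih Js1 Js2 J' hJ
  | leaf A N hh hl =>
    intro Js1 Js2 J' hJ
    cases Js1 with
    | nil =>
      simp only [List.nil_append, List.cons.injEq] at hJ
      obtain ⟨rfl, rfl⟩ := hJ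
      refine ⟨FGrp_ne hh, by simp, by simp, by simp, by simp, ?_⟩
      intro _
      refine ⟨hl, ?_⟩
      rw [hl] at hh
      exact hh
    | cons J1 Js1 =>
      simp at hJ

theorem FGrp_wf2 {A : ℕ → List Bool} {Js : List (List ℕ)} 
    (h : Junk A Js) : ∀ (Js1 Js2 : List (List ℕ)) (J' : List ℕ), Js = Js1 ++ J' :: Js2 →
    (¬ ∀ g, Js1.foldl nA A g = []) ∧ J' ≠ [] ∧ J'.Pairwise (· < ·) ∧
    ((Js1.foldl nA A (levL (Js1.foldl nA A))).head? = some false → J'.length = 1) ∧
    (levL (Js1.foldl nA A) = 0 → J'.length = 1) ∧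
    (Js2 = [] → (∀ g, nA (Js1.foldl nA A) J' g = [])) := by
  induction h with
  | nil A h =>
    intro Js1 Js2 J' hJ
    simp at hJ
  | cons A N Js hh hr ih =>
    intro Js1 Js2 J' hJ
    cases Js1 with
    | nil =>
      simp only [List.nil_append, List.cons.injEq] at hJ
      obtain ⟨rfl, rfl⟩ := hJ
      refine ⟨FGrp_ne hh, by simp, by simp, by simp, by simp, ?_⟩
      intro h0
      subst h0
      exact FGrp_junk_fold hr
    | cons J1 Js1 =>
      simp only [List.cons_append, List.cons.injEq] at hJ
      obtain ⟨rfl, hJ⟩ := hJ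
      exact ih Js1 Js2 J' hJ

/-- every event of a group is a legal draw; the last one is a free leaf or completes -/
theorem full_wf (A : ℕ → List Bool) (c : ℕ → ℕ) (n : ℕ) (Js : List (List ℕ))
    (hA : ∀ g, (A g).count true = c g) (hs : ∀ g, 3 < g → A g = []) (hc : ∃ g, c g ≠ 0)
    (h : FullGrp A c n Js) (Js1 Js2 : List (List ℕ)) (J' : List ℕ)
    (hJ : Js = Js1 ++ J' :: Js2) :
    (¬ ∀ g, Js1.foldl nA A g = []) ∧ J' ≠ [] ∧ J'.Pairwise (· < ·) ∧
    ((Js1.foldl nA A (levL (Js1.foldl nA A))).head? = some false → J'.length = 1) ∧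
    (levL (Js1.foldl nA A) = 0 → J'.length = 1) ∧
    (Js2 = [] → (∀ g, nA (Js1.foldl nA A) J' g = []) ∨
      (levL (Js1.foldl nA A) = 0 ∧ (Js1.foldl nA A 0).head? = some true)) := by
  obtain ⟨L1, A', L2, h1, h2, h3⟩ := h
  have hf := (FGrp_fold h1).1
  rw [h2] at hJ
  rcases List.append_eq_append_iff.mp hJ with ⟨L, hL1, hL2⟩ | ⟨L, hL1, hL2⟩
  · -- second part
    have h4 : Junk A' L2 := by
      split_ifs at h3 with hz
      · exact h3
      · rw [h3] at hL2
        simp at hL2
    obtain ⟨w1, w2, w3, w4, w5, w6⟩ := FGrp_wf2 h4 L Js2 J' hL2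
    have hfo : Js1.foldl nA A = L.foldl nA A' := by
      rw [hL1, List.foldl_append, hf]
    rw [hfo]
    exact ⟨w1, w2, w3, w4, w5, fun h5 => Or.inl (w6 h5)⟩
  · cases L with
    | nil =>
      simp only [List.nil_append] at hL2
      simp only [List.append_nil] at hL1
      have h4 : Junk A' L2 := by
        split_ifs at h3 with hz
        · exact h3
        · rw [h3] at hL2
          simp at hL2
      obtain ⟨w1, w2, w3, w4, w5, w6⟩ := FGrp_wf2 h4 [] Js2 J' (by rw [← hL2]; rfl)
      have hfo : Js1.foldl nA A = ([] : List (List ℕ)).foldl nA A' := by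
        rw [← hL1, hf]
        rfl
      rw [hfo]
      exact ⟨w1, w2, w3, w4, w5, fun h5 => Or.inl (w6 h5)⟩
    | cons K L =>
      simp only [List.cons_append, List.cons.injEq] at hL2
      obtain ⟨rfl, hL2⟩ := hL2
      obtain ⟨w1, w2, w3, w4, w5, w6⟩ := FGrp_wf1 h1 Js1 L J' hL1
      refine ⟨w1, w2, w3, w4, w5, fun h5 => Or.inr (w6 ?_)⟩
      rw [hL2] at h5
      exact (List.append_eq_nil_iff.mp h5).1

end Pool.Agent.H.MP_2e666d_lc
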