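import Pool.Agent.H.MP_2e666d_lc.FSafe
import Pool.Agent.H.MP_2e666d_lc.FGrp
import Pool.Agent.H.MP_2e666d_lc.FLen
import Pool.Agent.H.MP_2e666d_lc.EMa

/-! # The extension lemma -/

namespace Pool.Agent.H.MP_2e666d_lc

open Pos

/-- positions after a list of events -/
def FExtAft {τ : Type} (T : Set τ) (P : Set (Bool × Pos τ)) (Js : List (List ℕ)) :
    Set (Bool × Pos τ) := {y | ∃ x ∈ P, x.1 = y.1 ∧ Run T x.1 x.2 Js y.2}

/-- safe sets of positions -/
def FExtSafe {τ : Type} (T : Set τ) (G : SimpleGraph B) (Φ : List ℕ → ℕ → ℕ → τ)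
    (A : ℕ → List Bool) (P : Set (Bool × Pos τ)) : Prop :=
  P.Finite ∧ (∀ x ∈ P, ¬ Win T G Φ x.2) ∧
    (∀ x ∈ P, ∀ g, (x.2.s x.1 g).length = (A g).length)

theorem FExtSafe.mono {τ : Type} {T : Set τ} {G : SimpleGraph B} {Φ : List ℕ → ℕ → ℕ → τ}
    {A : ℕ → List Bool} {P P' : Set (Bool × Pos τ)} (h : FExtSafe T G Φ A P) (hs : P' ⊆ P) :
    FExtSafe T G Φ A P' :=
  ⟨h.1.subset hs, fun x hx => h.2.1 x (hs hx), fun x hx => h.2.2 x (hs hx)⟩

theorem FExt_run_append {τ : Type} {T : Set τ} {u : Bool} :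
    ∀ (Js1 Js2 : List (List ℕ)) (p q : Pos τ), Run T u p (Js1 ++ Js2) q →
      ∃ r, Run T u p Js1 r ∧ Run T u r Js2 q := by
  intro Js1
  induction Js1 with
  | nil => intro Js2 p q h; exact ⟨p, Run.nil p, h⟩
  | cons J Js1 ih =>
    intro Js2 p q h
    rw [List.cons_append] at h
    cases h with
    | cons _ _ _ m ts _ h1 h2 h3 h4 h5 h6 =>
      obtain ⟨r, hr1, hr2⟩ := ih Js2 _ _ h6
      exact ⟨r, Run.cons p J Js1 m ts r h1 h2 h3 h4 h5 hr1, hr2⟩

theorem FExt_aft_append {τ : Type} {T : Set τ} (P : Set (Bool × Pos τ))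
    (Js1 Js2 : List (List ℕ)) :
    FExtAft T P (Js1 ++ Js2) ⊆ FExtAft T (FExtAft T P Js1) Js2 := by
  rintro ⟨u, q⟩ ⟨x, hx, hxu, hr⟩
  obtain ⟨r, h1, h2⟩ := FExt_run_append _ _ _ _ hr
  simp only at hxu
  refine ⟨(x.1, r), ⟨x, hx, rfl, h1⟩, hxu, h2⟩

theorem FExt_aft_nil {τ : Type} {T : Set τ} (P : Set (Bool × Pos τ)) :
    FExtAft T P [] ⊆ P := by
  rintro ⟨u, q⟩ ⟨⟨v, p⟩, hx, hxu, hr⟩
  simp only at hxu hr
  cases hr
  subst hxu
  exact hx

theorem FExt_tsfin {τ : Type} {T : Set τ} (hT : T.Finite) (m : ℕ) :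
    {ts : List τ | (∀ t ∈ ts, t ∈ T) ∧ ts.length ≤ m}.Finite := by
  have : Finite T := hT
  have h1 : {l : List T | l.length ≤ m}.Finite := List.finite_length_le T m
  refine (h1.image (fun l => l.map Subtype.val)).subset ?_
  rintro ts ⟨h2, h3⟩
  refine ⟨ts.attach.map (fun t => (⟨t.1, h2 t.1 t.2⟩ : T)), ?_, ?_⟩
  · simp only [Set.mem_ofPred_eq, List.length_map, List.length_attach]
    exact h3
  · simp only [List.map_map]
    conv_rhs => rw [← List.attach_map_subtype_val ts]
    rfl

theorem FExt_last (mk : List Bool) (J' : List ℕ) (h : J'.length = mk.length + 1) :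
    (sel (mk ++ [true]) J').getLastD 0 = J'.getLastD 0 := by
  have hne : J' ≠ [] := by
    intro h0
    rw [h0] at h
    simp at h
  obtain ⟨F, n, rfl⟩ : ∃ F n, J' = F ++ [n] :=
    ⟨J'.dropLast, J'.getLast hne, (List.dropLast_append_getLast hne).symm⟩
  rw [sel_append_true mk F n (by simpa using h)]
  simp

/-- one draw -/
theorem FExt_step {τ : Type} {T : Set τ} (hT : T.Finite) (G : SimpleGraph B)
    (Φ : List ℕ → ℕ → ℕ → τ) (A : ℕ → List Bool) (M m : ℕ)
    (P : Set (Bool × Pos τ)) (hP : FExtSafe T G Φ A P) :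
    ∃ J' : List ℕ, J'.length = m + 1 ∧ J'.Pairwise (· < ·) ∧ (∀ a ∈ J', M < a) ∧
      FExtSafe T G Φ (nA A J') (FExtAft T P [J']) := by
  obtain ⟨J', h1, h2, h3, h4⟩ := (gen_safe hT G Φ P hP.1 hP.2.1 m).exists_incr M
  refine ⟨J', h2, h3, h4, ?_, ?_, ?_⟩
  · have hm : {mk : List Bool | mk.length = m}.Finite := List.finite_length_eq Bool m
    have ht := FExt_tsfin hT m
    refine (hP.1.biUnion (fun x _ => hm.biUnion (fun mk _ => ht.biUnion (fun ts _ =>
      Set.finite_singleton ((x.1, x.2.adv ts (sel (mk ++ [true]) J')) : Bool × Pos τ))))).subset ?_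
    rintro ⟨u, q⟩ ⟨x, hx, hxu, hr⟩
    simp only at hxu hr
    cases hr with
    | cons _ _ _ mk ts _ a1 a2 a3 a4 a5 a6 =>
      cases a6
      simp only [Set.mem_iUnion]
      have hmk : mk.length = m := by omega
      refine ⟨x, hx, mk, hmk, ts, ⟨a3.1, ?_⟩, ?_⟩
      · rw [← a5, ← hmk]
        exact List.count_le_length
      · rw [← hxu]
        exact rfl
  · rintro ⟨u, q⟩ ⟨x, hx, hxu, hr⟩
    simp only at hxu hr ⊢
    cases hr with
    | cons _ _ _ mk ts _ a1 a2 a3 a4 a5 a6 =>
      cases a6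
      exact h1 x hx a1 a2 mk ts (by omega) a3 a5
  · rintro ⟨u, q⟩ ⟨x, hx, hxu, hr⟩ g
    simp only at hxu hr ⊢
    cases hr with
    | cons _ _ _ mk ts _ a1 a2 a3 a4 a5 a6 =>
      cases a6
      rw [← hxu, ← a1, adv_s_mv, newS_length, nA_length, FExt_last mk J' a4]
      have : (fun g => (x.2.s x.2.mv g).length) = (fun g => (A g).length) := by
        funext g
        rw [a1]
        exact hP.2.2 x hx g
      rw [this]

theorem FExt_comp {τ : Type} {T : Set τ} {G : SimpleGraph B}
    {Φ : List ℕ → ℕ → ℕ → τ} {A' : ℕ → List Bool} {P : Set (Bool × Pos τ)} {J' : List ℕ}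
    {Js : List (List ℕ)} (h : FExtSafe T G Φ A' (FExtAft T (FExtAft T P [J']) Js)) :
    FExtSafe T G Φ A' (FExtAft T P (J' :: Js)) :=
  h.mono (FExt_aft_append P [J'] Js)

theorem FExt_msr (A : ℕ → List Bool) (J' : List ℕ) (hne : ¬ ∀ g, A g = [])
    (hs : ∀ g, 3 < g → A g = []) :
    msr (fun g => (nA A J' g).length) < msr (fun g => (A g).length) := by
  have h1 : (fun g => (nA A J' g).length) = rd (fun g => (A g).length) (J'.getLastD 0) := by
    funext g
    exact nA_length A J' g
  rw [h1]
  apply msr_rd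
  · push Not at hne
    obtain ⟨g, hg⟩ := hne
    exact ⟨g, by simpa using hg⟩
  · intro g hg
    simp [hs g hg]

theorem FExt_sup (A : ℕ → List Bool) (J' : List ℕ) (hne : ¬ ∀ g, A g = [])
    (hs : ∀ g, 3 < g → A g = []) : ∀ g, 3 < g → nA A J' g = [] := by
  intro g hg
  have hl : levL A ≤ 3 := by
    by_contra hc
    exact (levL_spec A hne).1 (hs _ (by omega))
  have h1 : g ≠ levL A := by omega
  have h2 : g + 1 ≠ levL A := by omega
  simp only [nA, h1, h2, if_false]
  exact hs g hg

/-- counts of the new children -/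
theorem FExt_mkA (J' : List ℕ) (m : ℕ) (h1 : J'.length = m + 1) (h2 : J'.Pairwise (· < ·)) :
    (mkA J').count true = m := by
  have hne : J' ≠ [] := by
    intro h0
    rw [h0] at h1
    simp at h1
  obtain ⟨F, n, rfl⟩ : ∃ F n, J' = F ++ [n] :=
    ⟨J'.dropLast, J'.getLast hne, (List.dropLast_append_getLast hne).symm⟩
  have hF : F.Pairwise (· < ·) := (List.pairwise_append.mp h2).1
  have hFn : ∀ a ∈ F, a < n := fun a ha => (List.pairwise_append.mp h2).2.2 a ha n (by simp)
  have hlen : F.length = m := by simpa using h1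
  unfold mkA
  rw [List.getLastD_concat, List.dropLast_concat, List.count_eq_countP, List.countP_map,
    List.countP_eq_length_filter]
  have hperm : (List.filter ((fun x => x == true) ∘ fun j => decide (j ∈ F))
      (List.range (n + 1))).Perm F := by
    rw [List.perm_ext_iff_of_nodup (List.nodup_range.filter _) hF.nodup]
    intro a
    simp only [List.mem_filter, List.mem_range, Function.comp_apply, beq_iff_eq,
      decide_eq_true_eq]
    constructor
    · rintro ⟨_, h⟩
      exact h
    · intro h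
      exact ⟨by have := hFn a h; omega, h⟩
  rw [hperm.length_eq, hlen]

/-- a non-free draw does not change the counts -/
theorem FExt_junk_count (A : ℕ → List Bool) (N : ℕ) (hne : ¬ ∀ g, A g = [])
    (hh : (A (levL A)).head? = some false) :
    ∀ g, (nA A [N] g).count true = (A g).count true := by
  intro g
  unfold nA
  split_ifs with h1 h2
  · subst h1
    cases hA : A (levL A) with
    | nil => rw [hA] at hh; simp at hh
    | cons b l =>
      rw [hA] at hh
      simp only [List.head?_cons, Option.some.injEq] at hh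
      subst hh
      simp
  · rw [FExt_mkA [N] 0 (by simp) (by simp)]
    have : A g = [] := (levL_spec A hne).2 g (by omega)
    simp [this]
  · rfl

theorem FExt_ne (A : ℕ → List Bool) (g : ℕ) (h : (A g).count true ≠ 0) : ¬ ∀ g, A g = [] := by
  intro h'
  apply h
  rw [h' g]
  simp

theorem FExt_head (A : ℕ → List Bool) (hne : ¬ ∀ g, A g = []) :
    (A (levL A)).head? = some false ∨ (A (levL A)).head? = some true := by
  have h := (levL_spec A hne).1
  cases hA : A (levL A) with
  | nil => exact absurd hA h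
  | cons b l =>
    cases b
    · left; simp
    · right; simp

/-- a chain of free draws -/
theorem FExt_grp {τ : Type} {T : Set τ} (hT : T.Finite) (G : SimpleGraph B)
    (Φ : List ℕ → ℕ → ℕ → τ) (M : ℕ) (μ : ℕ ×ₗ ℕ ×ₗ ℕ ×ₗ ℕ) :
    ∀ (A : ℕ → List Bool) (q : List ℕ) (P : Set (Bool × Pos τ)),
      msr (fun g => (A g).length) = μ → (∀ m ∈ q, 1 ≤ m) → (A q.length).count true ≠ 0 →
      (∀ i < q.length, (A i).count true = 0) → (∀ g, 3 < g → A g = []) →
      FExtSafe T G Φ A P →
      ∃ (Js : List (List ℕ)) (A' : ℕ → List Bool), Grp A q Js A' ∧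
        (∀ J' ∈ Js, ∀ a ∈ J', M < a) ∧ (∀ g, 3 < g → A' g = []) ∧
        (q = [] → ∀ g, (A' g).count true = if g = 0 then (A g).count true - 1
          else (A g).count true) ∧
        FExtSafe T G Φ A' (FExtAft T P Js) := by
  induction μ using WellFoundedLT.induction with
  | ind μ ih =>
  intro A q P hμ hq hc1 hc2 hs hP
  have hne := FExt_ne A _ hc1
  rcases FExt_head A hne with hh | hh
  · -- junk
    obtain ⟨J', a1, a2, a3, a4⟩ := FExt_step hT G Φ A M 0 P hP
    obtain ⟨N, rfl⟩ : ∃ N, J' = [N] := by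
      match J', a1 with
      | [N], _ => exact ⟨N, rfl⟩
    have hcnt := FExt_junk_count A N hne hh
    have hlt := FExt_msr A [N] hne hs
    rw [hμ] at hlt
    obtain ⟨Js, A', b1, b2, b3, b4, b5⟩ := ih _ hlt (nA A [N]) q (FExtAft T P [[N]]) rfl hq
      (by rw [hcnt]; exact hc1) (fun i hi => by rw [hcnt]; exact hc2 i hi)
      (FExt_sup A [N] hne hs) a4
    refine ⟨[N] :: Js, A', Grp.junk A q N Js A' hh b1, ?_, b3, ?_, FExt_comp b5⟩
    · intro J hJ
      rcases List.mem_cons.mp hJ with rfl | hJ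
      · exact a3
      · exact b2 J hJ
    · intro hq0 g
      rw [b4 hq0 g, hcnt]
  · -- free
    have hlev : levL A = q.length := by
      have h1 : levL A ≤ q.length := by
        by_contra hcon
        push Not at hcon
        have := (levL_spec A hne).2 _ hcon
        rw [this] at hc1
        simp at hc1
      have h2 : q.length ≤ levL A := by
        by_contra hcon
        push Not at hcon
        have h3 := hc2 _ hcon
        cases hA : A (levL A) with
        | nil => rw [hA] at hh; simp at hh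
        | cons b l =>
          rw [hA] at hh h3
          simp only [List.head?_cons, Option.some.injEq] at hh
          subst hh
          simp at h3
      omega
    cases q with
    | nil =>
      obtain ⟨J', a1, a2, a3, a4⟩ := FExt_step hT G Φ A M 0 P hP
      obtain ⟨N, rfl⟩ : ∃ N, J' = [N] := by
        match J', a1 with
        | [N], _ => exact ⟨N, rfl⟩
      simp only [List.length_nil] at hlev
      refine ⟨[[N]], nA A [N], Grp.leaf A N hh hlev, ?_, FExt_sup A [N] hne hs, ?_, a4⟩
      · intro J hJ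
        rw [List.mem_singleton] at hJ
        rw [hJ]
        exact a3
      · intro _ g
        unfold nA
        rw [hlev]
        by_cases h1 : g = 0
        · subst h1
          rw [if_pos rfl, if_pos rfl]
          cases hA : A 0 with
          | nil => rw [hlev, hA] at hh; simp at hh
          | cons b l =>
            rw [hlev, hA] at hh
            simp only [List.head?_cons, Option.some.injEq] at hh
            subst hh
            simp
        · rw [if_neg h1, if_neg h1, if_neg (by omega)]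
    | cons m q =>
      obtain ⟨J', a1, a2, a3, a4⟩ := FExt_step hT G Φ A M m P hP
      simp only [List.length_cons] at hlev
      have hlt := FExt_msr A J' hne hs
      rw [hμ] at hlt
      have hm1 : 1 ≤ m := hq m (by simp)
      have e1 : nA A J' q.length = mkA J' := by
        unfold nA
        rw [hlev]
        simp
      obtain ⟨Js, A', b1, b2, b3, b4, b5⟩ := ih _ hlt (nA A J') q (FExtAft T P [J']) rfl
        (fun m' hm' => hq m' (by simp [hm']))
        (by rw [e1, FExt_mkA J' m a1 a2]; omega)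
        (fun i hi => by
          have e2 : nA A J' i = A i := by
            unfold nA
            rw [hlev, if_neg (by omega), if_neg (by omega)]
          rw [e2]
          exact hc2 i (by simp only [List.length_cons]; omega))
        (FExt_sup A J' hne hs) a4
      refine ⟨J' :: Js, A', Grp.free A m q J' Js A' hh (by omega) a1 a2 b1, ?_, b3, ?_,
        FExt_comp b5⟩
      · intro J hJ
        rcases List.mem_cons.mp hJ with rfl | hJ
        · exact a3
        · exact b2 J hJ
      · intro hq0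
        simp at hq0

/-- completion -/
theorem FExt_junk {τ : Type} {T : Set τ} (hT : T.Finite) (G : SimpleGraph B)
    (Φ : List ℕ → ℕ → ℕ → τ) (M : ℕ) (μ : ℕ ×ₗ ℕ ×ₗ ℕ ×ₗ ℕ) :
    ∀ (A : ℕ → List Bool) (P : Set (Bool × Pos τ)),
      msr (fun g => (A g).length) = μ → 
      (∀ i, (A i).count true = 0) → (∀ g, 3 < g → A g = []) →
      FExtSafe T G Φ A P →
      ∃ (Js : List (List ℕ)) (A' : ℕ → List Bool), Junk A Js ∧
        (∀ J' ∈ Js, ∀ a ∈ J', M < a) ∧ FExtSafe T G Φ A' (FExtAft T P Js) := by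
  induction μ using WellFoundedLT.induction with
  | ind μ ih =>
  intro A P hμ hc hs hP
  by_cases hne : ∀ g, A g = []
  · exact ⟨[], A, Junk.nil A hne, by simp, hP.mono (FExt_aft_nil P)⟩
  have hh : (A (levL A)).head? = some false := by
    rcases FExt_head A hne with hh | hh
    · exact hh
    · have h3 := hc (levL A)
      cases hA : A (levL A) with
      | nil => rw [hA] at hh; simp at hh
      | cons b l =>
        rw [hA] at hh h3
        simp only [List.head?_cons, Option.some.injEq] at hh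
        subst hh
        simp at h3
  obtain ⟨J', a1, a2, a3, a4⟩ := FExt_step hT G Φ A M 0 P hP
  obtain ⟨N, rfl⟩ : ∃ N, J' = [N] := by
    match J', a1 with
    | [N], _ => exact ⟨N, rfl⟩
  have hcnt := FExt_junk_count A N hne hh
  have hlt := FExt_msr A [N] hne hs
  rw [hμ] at hlt
  obtain ⟨Js, A', b1, b2, b5⟩ := ih _ hlt (nA A [N]) (FExtAft T P [[N]]) rfl
    (fun i => by rw [hcnt]; exact hc i) (FExt_sup A [N] hne hs) a4
  refine ⟨[N] :: Js, A', Junk.cons A N Js hh b1, ?_, FExt_comp b5⟩
  intro J hJ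
  rcases List.mem_cons.mp hJ with rfl | hJ
  · exact a3
  · exact b2 J hJ

/-- the extension lemma: a group can be chosen such that all positions stay non-winning -/
theorem exists_group {τ : Type} {T : Set τ} (hT : T.Finite) (G : SimpleGraph B)
    (Φ : List ℕ → ℕ → ℕ → τ) (A : ℕ → List Bool) (c : ℕ → ℕ) (n M : ℕ)
    (hA : ∀ g, (A g).count true = c g) (hs : ∀ g, 3 < g → A g = []) (hc : ∃ g, c g ≠ 0)
    (P : Set (Bool × Pos τ)) (hP : P.Finite) (hw : ∀ x ∈ P, ¬ Win T G Φ x.2)
    (hl : ∀ x ∈ P, ∀ g, (x.2.s x.1 g).length = (A g).length) :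
    ∃ Js, FullGrp A c n Js ∧ (∀ J' ∈ Js, ∀ a ∈ J', M < a) ∧
      ∀ x ∈ P, ∀ q, Run T x.1 x.2 Js q → ¬ Win T G Φ q := by
  have hlev1 : c (lev c) ≠ 0 := Nat.sInf_mem (s := {g | c g ≠ 0}) hc
  have hlev2 : ∀ i < lev c, c i = 0 := by
    intro i hi
    have := Nat.notMem_of_lt_sInf (s := {g | c g ≠ 0}) hi
    simpa using this
  have hsafe : FExtSafe T G Φ A P := ⟨hP, hw, hl⟩
  set q0 : List ℕ := if lev c = 0 then [] else (n + 2) :: List.replicate (lev c - 1) 1 with hq0
  have hq0l : q0.length = lev c := by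
    rw [hq0]
    split_ifs with h
    · simp [h]
    · simp only [List.length_cons, List.length_replicate]
      omega
  have hq0m : ∀ m ∈ q0, 1 ≤ m := by
    intro m hm
    rw [hq0] at hm
    split_ifs at hm with h
    · simp at hm
    · rcases List.mem_cons.mp hm with rfl | hm
      · omega
      · rw [List.mem_replicate] at hm
        omega
  obtain ⟨Js1, A', b1, b2, b3, b4, b5⟩ := FExt_grp hT G Φ M _ A q0 P rfl hq0m
    (by rw [hq0l, hA]; exact hlev1) (fun i hi => by rw [hA]; exact hlev2 i (by omega)) hs hsafe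
  by_cases hz : ∀ g, rd c n g = 0
  · -- completion
    have hl0 : lev c = 0 := by
      by_contra h
      have h1 := hz (lev c - 1)
      unfold rd at h1
      rw [if_neg (by omega), if_pos (by omega)] at h1
      omega
    have hqn : q0 = [] := by rw [hq0, if_pos hl0]
    have hcnt : ∀ g, (A' g).count true = 0 := by
      intro g
      rw [b4 hqn g]
      have h1 := hz g
      unfold rd at h1
      rw [hl0] at h1
      split_ifs with h2
      · rw [hA, ← h1, if_pos h2]
      · rw [hA, ← h1, if_neg h2, if_neg (by omega)]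
    obtain ⟨Js2, A2, d1, d2, d3⟩ := FExt_junk hT G Φ M _ A' (FExtAft T P Js1) rfl hcnt b3 b5
    refine ⟨Js1 ++ Js2, ⟨Js1, A', Js2, b1, rfl, ?_⟩, ?_, ?_⟩
    · rw [if_pos hz]
      exact d1
    · intro J hJ
      rcases List.mem_append.mp hJ with h | h
      · exact b2 J h
      · exact d2 J h
    · intro x hx q hq
      exact d3.2.1 (x.1, q) (FExt_aft_append P Js1 Js2 ⟨x, hx, rfl, hq⟩)
  · refine ⟨Js1, ⟨Js1, A', [], b1, by simp, ?_⟩, b2, ?_⟩
    · rw [if_neg hz]
    · intro x hx q hq
      exact b5.2.1 (x.1, q) ⟨x, hx, rfl, hq⟩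

end Pool.Agent.H.MP_2e666d_lc
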