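import Pool.Agent.H.MP_2e666d_lc.FSClass

/-! # Canonical forms of the words with at least two switches

Class `A`: letters `2` at even positions of the word, class `B`: odd positions. -/

namespace Pool.Agent.H.MP_2e666d_lc.T3

/-- at least two switches, the first run is of class `A` (form: first switch) -/
def clsABAf (p q : ℕ) : List Cell :=
  [Cell.L 3, Cell.L 3, Cell.L p, Cell.S true 2 1, Cell.L 2, Cell.S false 1 1, Cell.L 2,
    Cell.S false 1 2, Cell.L 2, Cell.S true 2 2, Cell.L q, Cell.L 4, Cell.L 4]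

/-- at least two switches, the first run is of class `B` (form: first switch) -/
def clsBABf (p q : ℕ) : List Cell :=
  [Cell.L 3, Cell.L 3, Cell.L p, Cell.S false 1 2, Cell.L 2, Cell.S false 1 1, Cell.L 2,
    Cell.S false 2 1, Cell.L 2, Cell.S false 2 2, Cell.L q, Cell.L 4, Cell.L 4]

/-- at least two switches, the last run is of class `A` (form: last switch) -/
def clsABAl (p q : ℕ) : List Cell :=
  [Cell.L 3, Cell.L 3, Cell.L p, Cell.S true 2 2, Cell.L 2, Cell.S false 1 2, Cell.L 2,
    Cell.S false 1 1, Cell.L 2, Cell.S true 2 1, Cell.L q, Cell.L 4, Cell.L 4]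

/-- at least two switches, the last run is of class `B` (form: last switch) -/
def clsBABl (p q : ℕ) : List Cell :=
  [Cell.L 3, Cell.L 3, Cell.L p, Cell.S false 2 2, Cell.L 2, Cell.S false 2 1, Cell.L 2,
    Cell.S false 1 1, Cell.L 2, Cell.S false 1 2, Cell.L q, Cell.L 4, Cell.L 4]

/-- reduction to words in which both classes contain a `2` -/
theorem good_rt_both {K p q : ℕ} (hK : 18 ≤ K) (hp : p ≤ 1) (hq : q ≤ 1)
    (H : ∀ P : List ℕ, P.length % 2 = 1 → (∀ k, P.getD k 0 ≤ 2) →
      (∃ k < P.length, k % 2 = 1 ∧ P.getD k 0 = 2) →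
      (∃ k < P.length, k % 2 = 0 ∧ P.getD k 0 = 2) →
      ∃ Ns : List ℕ, Ns.length ≤ K ∧ LChain (3 :: 3 :: p :: (P ++ [q, 4, 4])) Ns) :
    Good K (rt p q) := by
  intro W hW
  obtain ⟨P, hodd, hP, rfl⟩ := rt_inv hW
  have hpq : ∀ k < (p :: (P ++ [q])).length, (p :: (P ++ [q])).getD k 0 ≤ 1 ∨
      ∃ j < P.length, k = j + 1 ∧ (p :: (P ++ [q])).getD k 0 = P.getD j 0 := by
    intro k hk
    cases k with
    | zero => left; simpa using hp
    | succ k =>
      rcases Nat.lt_or_ge k P.length with h | h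
      · right
        refine ⟨k, h, rfl, ?_⟩
        rw [List.getD_cons_succ, List.getD_append _ _ _ _ h]
      · left
        simp only [List.length_cons, List.length_append, List.length_nil] at hk
        have : k = P.length := by omega
        subst this
        rw [List.getD_cons_succ, List.getD_append_right _ _ _ _ le_rfl]
        simpa using hq
  have hlen : (p :: (P ++ [q])).length = P.length + 2 := by simp
  by_cases hA : ∃ k < P.length, k % 2 = 1 ∧ P.getD k 0 = 2
  swap
  · refine (NoSw.goodA.mono hK) _ ?_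
    have hw : (3 :: 3 :: p :: (P ++ [q, 4, 4])) =
        3 :: 3 :: ((((p :: (P ++ [q])).drop 0).take ((P.length + 2) - 0)) ++ [4, 4]) := by
      rw [List.drop_zero, Nat.sub_zero, ← hlen, List.take_length]
      simp
    rw [hw]
    refine Inst.letter _ _ _ _ (Inst.letter _ _ _ _ ?_)
    refine inst_piece (off := 2) (Nat.zero_le _) hlen.ge (by simp) ?_ ?_ ?_
      (Inst.letter _ _ _ _ (Inst.letter _ _ _ _ (Inst.nil _)))
    · simpa using hodd
    · intro k _ hk hk2
      rcases hpq k (by omega) with h | ⟨j, j1, j2, j3⟩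
      · exact h
      · rw [j3]
        have h1 := hP j j1
        have h2 : ¬ P.getD j 0 = 2 := fun h => hA ⟨j, j1, by omega, h⟩
        omega
    · intro k _ hk hk2
      rcases hpq k (by omega) with h | ⟨j, j1, j2, j3⟩
      · omega
      · rw [j3]
        exact hP j j1
  by_cases hB : ∃ k < P.length, k % 2 = 0 ∧ P.getD k 0 = 2
  swap
  · refine (NoSw.goodB.mono hK) _ ?_
    have hw : (3 :: 3 :: p :: (P ++ [q, 4, 4])) =
        3 :: 3 :: ((((p :: (P ++ [q])).drop 0).take ((P.length + 2) - 0)) ++ [4, 4]) := by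
      rw [List.drop_zero, Nat.sub_zero, ← hlen, List.take_length]
      simp
    rw [hw]
    refine Inst.letter _ _ _ _ (Inst.letter _ _ _ _ ?_)
    refine inst_piece (off := 2) (Nat.zero_le _) hlen.ge (by simp) ?_ ?_ ?_
      (Inst.letter _ _ _ _ (Inst.letter _ _ _ _ (Inst.nil _)))
    · simpa using hodd
    · intro k _ hk hk2
      rcases hpq k (by omega) with h | ⟨j, j1, j2, j3⟩
      · omega
      · rw [j3]
        exact hP j j1
    · intro k _ hk hk2
      rcases hpq k (by omega) with h | ⟨j, j1, j2, j3⟩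
      · exact h
      · rw [j3]
        have h1 := hP j j1
        have h2 : ¬ P.getD j 0 = 2 := fun h => hB ⟨j, j1, by omega, h⟩
        omega
  refine H P hodd (fun k => ?_) hA hB
  rcases Nat.lt_or_ge k P.length with h | h
  · exact hP k h
  · rw [List.getD_eq_default _ _ h]; omega

/-- the word cut at two positions -/
theorem word_cut2 {P : List ℕ} {a b p : ℕ} {R : List ℕ} (h1 : a + 1 ≤ b) (h2 : b < P.length)
    (ha : P.getD a 0 = 2) (hb : P.getD b 0 = 2) :
    (3 :: 3 :: p :: (P ++ R)) =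
      3 :: 3 :: p :: ((P.drop 0).take (a - 0) ++ 2 :: ((P.drop (a + 1)).take (b - (a + 1)) ++
        2 :: ((P.drop (b + 1)).take (P.length - (b + 1)) ++ R))) := by
  congr 3
  conv_lhs => rw [← List.drop_zero (l := P), drop_split P (Nat.zero_le a) (by omega), ha,
    drop_split P h1 h2, hb, take_all P (b + 1)]
  simp

/-- the word cut at three positions -/
theorem word_cut3 {P : List ℕ} {a b c p : ℕ} {R : List ℕ} (h1 : a + 1 ≤ b) (h2 : b + 1 ≤ c)
    (h3 : c < P.length) (ha : P.getD a 0 = 2) (hb : P.getD b 0 = 2) (hc : P.getD c 0 = 2) :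
    (3 :: 3 :: p :: (P ++ R)) =
      3 :: 3 :: p :: ((P.drop 0).take (a - 0) ++ 2 :: ((P.drop (a + 1)).take (b - (a + 1)) ++
        2 :: ((P.drop (b + 1)).take (c - (b + 1)) ++ 2 ::
          ((P.drop (c + 1)).take (P.length - (c + 1)) ++ R)))) := by
  congr 3
  conv_lhs => rw [← List.drop_zero (l := P), drop_split P (Nat.zero_le a) (by omega), ha,
    drop_split P h1 (by omega), hb, drop_split P h2 h3, hc, take_all P (c + 1)]
  simp

/-- The classification by the first switch. -/
theorem good_rt_first {K p q : ℕ} (hK : 18 ≤ K) (hp : p ≤ 1) (hq : q ≤ 1)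
    (hAB : Good K (clsAB p q)) (hBA : Good K (clsBA p q)) (hABA : Good K (clsABAf p q))
    (hBAB : Good K (clsBABf p q)) : Good K (rt p q) := by
  refine good_rt_both hK hp hq ?_
  intro P hodd hP2 hA hB
  obtain ⟨a, a1, ⟨a2, a3⟩, a4⟩ := exists_first (fun k => k % 2 = 1 ∧ P.getD k 0 = 2) _ hA
  obtain ⟨b, b1, ⟨b2, b3⟩, b4⟩ := exists_first (fun k => k % 2 = 0 ∧ P.getD k 0 = 2) _ hB
  have tail : Inst (false ^^ false) [Cell.L q, Cell.L 4, Cell.L 4] [q, 4, 4] :=
    Inst.letter _ _ _ _ (Inst.letter _ _ _ _ (Inst.letter _ _ _ _ (Inst.nil _)))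
  have tail1 : Inst (true ^^ true) [Cell.L q, Cell.L 4, Cell.L 4] [q, 4, 4] := tail
  have le1 : ∀ k, P.getD k 0 ≠ 2 → P.getD k 0 ≤ 1 := fun k hk => by
    have := hP2 k
    omega
  rcases Nat.lt_or_ge a b with hab | hab
  · obtain ⟨c, c1, ⟨c2, c3⟩, c4⟩ := exists_last (fun k => k % 2 = 1 ∧ P.getD k 0 = 2) b
      ⟨a, hab, a2, a3⟩
    by_cases hx : ∃ k < P.length, b < k ∧ k % 2 = 1 ∧ P.getD k 0 = 2
    · obtain ⟨d, d1, ⟨d0, d2, d3⟩, d4⟩ :=
        exists_first (fun k => b < k ∧ k % 2 = 1 ∧ P.getD k 0 = 2) _ hx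
      refine hABA _ ?_
      rw [word_cut3 (by omega : c + 1 ≤ b) (by omega : b + 1 ≤ d) d1 c3 b3 d3]
      refine Inst.letter _ _ _ _ (Inst.letter _ _ _ _ (Inst.letter _ _ _ _ ?_))
      refine inst_piece (off := 3) (Nat.zero_le _) (by omega) (by simp) (by simp; omega)
        (fun k _ _ _ => hP2 k)
        (fun k _ h1 h2 => le1 k fun h3 => b4 k (by omega) ⟨by omega, h3⟩)
        (Inst.letter _ _ _ _ ?_)
      refine inst_piece (off := 3) (by omega) (by omega) (by simp; omega) (by simp; omega)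
        (fun k h0 h1 h2 => le1 k fun h3 => c4 k (by omega) h1 ⟨by omega, h3⟩)
        (fun k _ h1 h2 => le1 k fun h3 => b4 k (by omega) ⟨by omega, h3⟩)
        (Inst.letter _ _ _ _ ?_)
      refine inst_piece (off := 3) (by omega) (by omega) (by simp; omega) (by simp; omega)
        (fun k h0 h1 h2 => le1 k fun h3 => d4 k (by omega) ⟨by omega, by omega, h3⟩)
        (fun k _ _ _ => hP2 k) (Inst.letter _ _ _ _ ?_)
      exact inst_piece (off := 3) (by omega) (by omega) (by simp; omega) (by simp; omega)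
        (fun k _ _ _ => hP2 k) (fun k _ _ _ => hP2 k) tail1
    · refine hAB _ ?_
      rw [word_cut2 (by omega : c + 1 ≤ b) b1 c3 b3]
      refine Inst.letter _ _ _ _ (Inst.letter _ _ _ _ (Inst.letter _ _ _ _ ?_))
      refine inst_piece (off := 3) (Nat.zero_le _) (by omega) (by simp) (by simp; omega)
        (fun k _ _ _ => hP2 k)
        (fun k _ h1 h2 => le1 k fun h3 => b4 k (by omega) ⟨by omega, h3⟩)
        (Inst.letter _ _ _ _ ?_)
      refine inst_piece (off := 3) (by omega) (by omega) (by simp; omega) (by simp; omega)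
        (fun k h0 h1 h2 => le1 k fun h3 => c4 k (by omega) h1 ⟨by omega, h3⟩)
        (fun k _ h1 h2 => le1 k fun h3 => b4 k (by omega) ⟨by omega, h3⟩)
        (Inst.letter _ _ _ _ ?_)
      exact inst_piece (off := 3) (by omega) (by omega) (by simp; omega) (by simp; omega)
        (fun k h0 h1 h2 => le1 k fun h3 => hx ⟨k, h1, by omega, by omega, h3⟩)
        (fun k _ _ _ => hP2 k) tail
  · have hba : b < a := by
      rcases Nat.lt_or_ge b a with h | h
      · exact h
      · omega
    obtain ⟨c, c1, ⟨c2, c3⟩, c4⟩ := exists_last (fun k => k % 2 = 0 ∧ P.getD k 0 = 2) a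
      ⟨b, hba, b2, b3⟩
    by_cases hx : ∃ k < P.length, a < k ∧ k % 2 = 0 ∧ P.getD k 0 = 2
    · obtain ⟨d, d1, ⟨d0, d2, d3⟩, d4⟩ :=
        exists_first (fun k => a < k ∧ k % 2 = 0 ∧ P.getD k 0 = 2) _ hx
      refine hBAB _ ?_
      rw [word_cut3 (by omega : c + 1 ≤ a) (by omega : a + 1 ≤ d) d1 c3 a3 d3]
      refine Inst.letter _ _ _ _ (Inst.letter _ _ _ _ (Inst.letter _ _ _ _ ?_))
      refine inst_piece (off := 3) (Nat.zero_le _) (by omega) (by simp) (by simp; omega)
        (fun k _ h1 h2 => le1 k fun h3 => a4 k (by omega) ⟨by omega, h3⟩)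
        (fun k _ _ _ => hP2 k) (Inst.letter _ _ _ _ ?_)
      refine inst_piece (off := 3) (by omega) (by omega) (by simp; omega) (by simp; omega)
        (fun k _ h1 h2 => le1 k fun h3 => a4 k (by omega) ⟨by omega, h3⟩)
        (fun k h0 h1 h2 => le1 k fun h3 => c4 k (by omega) h1 ⟨by omega, h3⟩)
        (Inst.letter _ _ _ _ ?_)
      refine inst_piece (off := 3) (by omega) (by omega) (by simp; omega) (by simp; omega)
        (fun k _ _ _ => hP2 k)
        (fun k h0 h1 h2 => le1 k fun h3 => d4 k (by omega) ⟨by omega, by omega, h3⟩)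
        (Inst.letter _ _ _ _ ?_)
      exact inst_piece (off := 3) (by omega) (by omega) (by simp; omega) (by simp; omega)
        (fun k _ _ _ => hP2 k) (fun k _ _ _ => hP2 k) tail
    · refine hBA _ ?_
      rw [word_cut2 (by omega : c + 1 ≤ a) a1 c3 a3]
      refine Inst.letter _ _ _ _ (Inst.letter _ _ _ _ (Inst.letter _ _ _ _ ?_))
      refine inst_piece (off := 3) (Nat.zero_le _) (by omega) (by simp) (by simp; omega)
        (fun k _ h1 h2 => le1 k fun h3 => a4 k (by omega) ⟨by omega, h3⟩)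
        (fun k _ _ _ => hP2 k)
        (Inst.letter _ _ _ _ ?_)
      refine inst_piece (off := 3) (by omega) (by omega) (by simp; omega) (by simp; omega)
        (fun k _ h1 h2 => le1 k fun h3 => a4 k (by omega) ⟨by omega, h3⟩)
        (fun k h0 h1 h2 => le1 k fun h3 => c4 k (by omega) h1 ⟨by omega, h3⟩)
        (Inst.letter _ _ _ _ ?_)
      exact inst_piece (off := 3) (by omega) (by omega) (by simp; omega) (by simp; omega)
        (fun k _ _ _ => hP2 k)
        (fun k h0 h1 h2 => le1 k fun h3 => hx ⟨k, h1, by omega, by omega, h3⟩) tail1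

/-- The classification by the last switch. -/
theorem good_rt_last {K p q : ℕ} (hK : 18 ≤ K) (hp : p ≤ 1) (hq : q ≤ 1)
    (hAB : Good K (clsAB p q)) (hBA : Good K (clsBA p q)) (hABA : Good K (clsABAl p q))
    (hBAB : Good K (clsBABl p q)) : Good K (rt p q) := by
  refine good_rt_both hK hp hq ?_
  intro P hodd hP2 hA hB
  obtain ⟨a, a1, ⟨a2, a3⟩, a4⟩ := exists_last (fun k => k % 2 = 1 ∧ P.getD k 0 = 2) _ hA
  obtain ⟨b, b1, ⟨b2, b3⟩, b4⟩ := exists_last (fun k => k % 2 = 0 ∧ P.getD k 0 = 2) _ hB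
  have tail : Inst (false ^^ false) [Cell.L q, Cell.L 4, Cell.L 4] [q, 4, 4] :=
    Inst.letter _ _ _ _ (Inst.letter _ _ _ _ (Inst.letter _ _ _ _ (Inst.nil _)))
  have tail1 : Inst (true ^^ true) [Cell.L q, Cell.L 4, Cell.L 4] [q, 4, 4] := tail
  have le1 : ∀ k, P.getD k 0 ≠ 2 → P.getD k 0 ≤ 1 := fun k hk => by
    have := hP2 k
    omega
  rcases Nat.lt_or_ge b a with hba | hab
  · -- the last run is of class `A`
    obtain ⟨c, c1, ⟨c0, c2, c3⟩, c4⟩ :=
      exists_first (fun k => b < k ∧ k % 2 = 1 ∧ P.getD k 0 = 2) _ ⟨a, a1, hba, a2, a3⟩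
    by_cases hx : ∃ k < b, k % 2 = 1 ∧ P.getD k 0 = 2
    · obtain ⟨d, d1, ⟨d2, d3⟩, d4⟩ := exists_last (fun k => k % 2 = 1 ∧ P.getD k 0 = 2) b hx
      refine hABA _ ?_
      rw [word_cut3 (by omega : d + 1 ≤ b) (by omega : b + 1 ≤ c) c1 d3 b3 c3]
      refine Inst.letter _ _ _ _ (Inst.letter _ _ _ _ (Inst.letter _ _ _ _ ?_))
      refine inst_piece (off := 3) (Nat.zero_le _) (by omega) (by simp) (by simp; omega)
        (fun k _ _ _ => hP2 k) (fun k _ _ _ => hP2 k) (Inst.letter _ _ _ _ ?_)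
      refine inst_piece (off := 3) (by omega) (by omega) (by simp; omega) (by simp; omega)
        (fun k h0 h1 h2 => le1 k fun h3 => d4 k (by omega) h1 ⟨by omega, h3⟩)
        (fun k _ _ _ => hP2 k) (Inst.letter _ _ _ _ ?_)
      refine inst_piece (off := 3) (by omega) (by omega) (by simp; omega) (by simp; omega)
        (fun k h0 h1 h2 => le1 k fun h3 => c4 k h1 ⟨by omega, by omega, h3⟩)
        (fun k h0 h1 h2 => le1 k fun h3 => b4 k (by omega) (by omega) ⟨by omega, h3⟩)
        (Inst.letter _ _ _ _ ?_)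
      exact inst_piece (off := 3) (by omega) (by omega) (by simp; omega) (by simp; omega)
        (fun k _ _ _ => hP2 k)
        (fun k h0 h1 h2 => le1 k fun h3 => b4 k (by omega) (by omega) ⟨by omega, h3⟩) tail1
    · refine hBA _ ?_
      rw [word_cut2 (by omega : b + 1 ≤ c) c1 b3 c3]
      refine Inst.letter _ _ _ _ (Inst.letter _ _ _ _ (Inst.letter _ _ _ _ ?_))
      refine inst_piece (off := 3) (Nat.zero_le _) (by omega) (by simp) (by simp; omega)
        (fun k h0 h1 h2 => le1 k fun h3 => hx ⟨k, h1, by omega, h3⟩)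
        (fun k _ _ _ => hP2 k) (Inst.letter _ _ _ _ ?_)
      refine inst_piece (off := 3) (by omega) (by omega) (by simp; omega) (by simp; omega)
        (fun k h0 h1 h2 => le1 k fun h3 => c4 k h1 ⟨by omega, by omega, h3⟩)
        (fun k h0 h1 h2 => le1 k fun h3 => b4 k (by omega) (by omega) ⟨by omega, h3⟩)
        (Inst.letter _ _ _ _ ?_)
      exact inst_piece (off := 3) (by omega) (by omega) (by simp; omega) (by simp; omega)
        (fun k _ _ _ => hP2 k)
        (fun k h0 h1 h2 => le1 k fun h3 => b4 k (by omega) (by omega) ⟨by omega, h3⟩) tail1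
  · -- the last run is of class `B`
    have hab' : a < b := by
      rcases Nat.lt_or_ge a b with h | h
      · exact h
      · omega
    obtain ⟨c, c1, ⟨c0, c2, c3⟩, c4⟩ :=
      exists_first (fun k => a < k ∧ k % 2 = 0 ∧ P.getD k 0 = 2) _ ⟨b, b1, hab', b2, b3⟩
    by_cases hx : ∃ k < a, k % 2 = 0 ∧ P.getD k 0 = 2
    · obtain ⟨d, d1, ⟨d2, d3⟩, d4⟩ := exists_last (fun k => k % 2 = 0 ∧ P.getD k 0 = 2) a hx
      refine hBAB _ ?_
      rw [word_cut3 (by omega : d + 1 ≤ a) (by omega : a + 1 ≤ c) c1 d3 a3 c3]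
      refine Inst.letter _ _ _ _ (Inst.letter _ _ _ _ (Inst.letter _ _ _ _ ?_))
      refine inst_piece (off := 3) (Nat.zero_le _) (by omega) (by simp) (by simp; omega)
        (fun k _ _ _ => hP2 k) (fun k _ _ _ => hP2 k) (Inst.letter _ _ _ _ ?_)
      refine inst_piece (off := 3) (by omega) (by omega) (by simp; omega) (by simp; omega)
        (fun k _ _ _ => hP2 k)
        (fun k h0 h1 h2 => le1 k fun h3 => d4 k (by omega) h1 ⟨by omega, h3⟩)
        (Inst.letter _ _ _ _ ?_)
      refine inst_piece (off := 3) (by omega) (by omega) (by simp; omega) (by simp; omega)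
        (fun k h0 h1 h2 => le1 k fun h3 => a4 k (by omega) (by omega) ⟨by omega, h3⟩)
        (fun k h0 h1 h2 => le1 k fun h3 => c4 k h1 ⟨by omega, by omega, h3⟩)
        (Inst.letter _ _ _ _ ?_)
      exact inst_piece (off := 3) (by omega) (by omega) (by simp; omega) (by simp; omega)
        (fun k h0 h1 h2 => le1 k fun h3 => a4 k (by omega) (by omega) ⟨by omega, h3⟩)
        (fun k _ _ _ => hP2 k) tail
    · refine hAB _ ?_
      rw [word_cut2 (by omega : a + 1 ≤ c) c1 a3 c3]
      refine Inst.letter _ _ _ _ (Inst.letter _ _ _ _ (Inst.letter _ _ _ _ ?_))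
      refine inst_piece (off := 3) (Nat.zero_le _) (by omega) (by simp) (by simp; omega)
        (fun k _ _ _ => hP2 k)
        (fun k h0 h1 h2 => le1 k fun h3 => hx ⟨k, h1, by omega, h3⟩)
        (Inst.letter _ _ _ _ ?_)
      refine inst_piece (off := 3) (by omega) (by omega) (by simp; omega) (by simp; omega)
        (fun k h0 h1 h2 => le1 k fun h3 => a4 k (by omega) (by omega) ⟨by omega, h3⟩)
        (fun k h0 h1 h2 => le1 k fun h3 => c4 k h1 ⟨by omega, by omega, h3⟩)
        (Inst.letter _ _ _ _ ?_)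
      exact inst_piece (off := 3) (by omega) (by omega) (by simp; omega) (by simp; omega)
        (fun k h0 h1 h2 => le1 k fun h3 => a4 k (by omega) (by omega) ⟨by omega, h3⟩)
        (fun k _ _ _ => hP2 k) tail

end Pool.Agent.H.MP_2e666d_lc.T3
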