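import Pool.Agent.H.MP_2e666d_lc.TreeFS3

/-! # Words without a letter `2` in one of the classes -/

namespace Pool.Agent.H.MP_2e666d_lc.T3

namespace NoSw

abbrev l (es : List ℕ) : Tree := Tree.leaf es
abbrev n (p ty : ℕ) (ch : Tree) : Tree := Tree.node p ty ch
abbrev c (t r : Tree) : Tree := Tree.cons t r
abbrev e : Tree := Tree.nil

/-- the tree for the words without a `2` in the class `A` -/
def treeA : Tree :=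
  (n 2 0 (c (n 3 1 (c (l [1,3,4,4]) (c (n 3 4 (c (l [1,5,6,6]) (c (n 3 3 (c (n 3 3 (c (l
  [1,6,4,8,8]) (c (l [4,8,6,10,10]) e))) (c (n 5 5 (c (l [4,8,6,10,10]) (c (l [6,10,8,12,12]) e)))
  e))) e))) (c (l [4,5,6,6]) e)))) (c (l [1,4,5,5]) e)))

/-- the tree for the words without a `2` in the class `B` -/
def treeB : Tree :=
  (n 2 2 (c (n 2 0 (c (n 3 1 (c (l [1,3,4,4]) (c (n 3 4 (c (l [1,5,6,6]) (c (n 3 3 (c (l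
  [1,6,4,8,8]) (c (l [4,8,6,10,10]) e))) e))) (c (l [4,5,6,6]) e)))) (c (l [1,4,5,5]) e))) (c (n 2 2
  (c (n 2 0 (c (l [1,4,5,5]) (c (n 5 0 (c (l [4,5,6,6]) (c (n 6 3 (c (n 6 3 (c (n 6 1 (c (n 3 3 (c
  (l [1,7,4,9,9]) (c (n 8 1 (c (l [6,8,9,10,10]) (c (n 5 1 (c (l [4,4,9,10,11,11]) (c (l
  [6,4,10,7,12,13,13]) e))) (c (l [6,9,6,11,12,12]) e)))) e))) e)) (c (n 3 1 (c (n 9 1 (c (l
  [1,8,5,10,10]) (c (n 3 0 (c (l [1,9,4,11,11]) (c (n 10 2 (c (l [1,9,5,12,13,13]) (c (l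
  [1,9,5,11,14,15,15]) e))) (c (l [1,9,5,12,13,13]) e)))) e))) (c (n 3 0 (c (l [1,4,3,9,10,10]) (c
  (n 10 2 (c (l [1,9,5,11,12,12]) (c (l [1,9,5,11,13,14,14]) e))) (c (l [1,6,5,11,12,12]) e)))) e)))
  e))) (c (n 8 1 (c (l [7,8,9,9]) (c (n 3 0 (c (n 9 5 (c (n 9 2 (c (l [8,10,11,12,12]) (c (n 4 1 (c
  (l [1,11,4,13,13]) (c (l [1,9,5,11,14,15,15]) (c (l [1,9,5,11,14,15,15]) e)))) e))) (c (n 4 5 (c
  (l [1,12,5,14,14]) (c (n 13 0 (c (n 4 0 (c (n 15 4 (c (l [1,13,6,16,8,18,18]) (c (n 7 1 (c (l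
  [1,12,6,15,18,19,19]) (c (l [1,14,8,17,20,21,21]) e))) e))) e)) (c (l [1,12,7,16,17,17]) e))) e)))
  e))) (c (n 4 1 (c (l [1,7,3,10,11,11]) (c (n 10 5 (c (l [1,9,5,12,13,13]) (c (l [1,11,5,14,15,15])
  e))) (c (l [1,9,5,12,13,13]) e)))) e))) (c (l [1,9,4,11,11]) e)))) e))) (c (n 3 0 (c (n 4 5 (c (n
  7 1 (c (l [1,8,5,10,10]) (c (l [1,8,5,10,10]) (c (l [8,9,10,10]) e)))) (c (n 4 0 (c (n 10 1 (c (n
  10 3 (c (l [1,8,8,12,13,13]) (c (n 12 0 (c (n 13 4 (c (l [1,11,6,14,8,16,16]) (c (n 13 1 (c (l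
  [1,11,6,14,8,18,19,19]) (c (l [1,14,8,18,19,19]) e))) e))) (c (l [1,11,8,15,16,16]) e))) e))) (c
  (l [1,11,8,13,13]) (c (l [11,12,13,13]) e)))) e)) e))) (c (n 7 3 (c (l [1,5,5,8,9,9]) (c (n 4 1 (c
  (l [1,7,3,9,10,10]) (c (n 10 5 (c (l [1,9,5,11,12,12]) (c (l [1,11,5,13,14,14]) e))) (c (l
  [1,9,5,11,12,12]) e)))) e))) e))) e)))) e))) (c (n 6 5 (c (n 6 1 (c (l [5,6,7,7]) (c (n 4 3 (c (n
  6 3 (c (n 6 1 (c (n 2 0 (c (l [1,7,4,9,9]) (c (n 7 5 (c (l [6,9,10,11,11]) (c (n 3 0 (c (l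
  [7,9,12,13,14,14]) (c (l [7,9,12,13,14,14]) e))) e))) e))) e)) (c (n 2 5 (c (n 4 1 (c (n 2 0 (c (l
  [1,9,5,11,11]) (c (n 10 1 (c (l [1,9,4,7,12,12]) (c (l [1,11,4,7,14,14]) e))) e))) e)) (c (n 4 0
  (c (n 5 0 (c (n 2 1 (c (n 11 3 (c (n 2 0 (c (l [1,7,3,11,7,13,13]) (c (n 3 2 (c (n 10 5 (c (l
  [6,5,4,9,13,14,15,15]) (c (n 10 1 (c (l [1,11,4,5,16,9,18,18]) (c (l [1,11,4,5,16,9,18,18]) e)))
  e))) (c (n 12 4 (c (l [8,7,6,11,15,16,17,17]) (c (n 12 0 (c (n 10 1 (c (l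
  [1,10,6,4,15,9,18,19,19]) (c (l [1,12,6,4,17,11,19,12,21,21]) e))) (c (l [1,11,6,7,18,11,20,20])
  e))) e))) e))) e))) (c (l [5,4,3,8,12,14,15,16,16]) e))) e)) e)) (c (n 11 1 (c (n 7 1 (c (n 2 0 (c
  (n 11 5 (c (n 11 0 (c (l [10,11,7,13,14,14]) (c (l [10,13,7,15,16,16]) (c (l [10,13,7,15,16,16])
  e)))) (c (n 3 1 (c (l [1,9,3,13,6,9,16,16]) (c (n 12 0 (c (n 3 2 (c (l [1,11,4,5,16,8,11,19,19])
  (c (l [1,13,6,4,18,10,13,21,21]) e))) (c (l [1,11,4,5,16,8,11,19,19]) e))) e))) e))) e)) e)) (c (n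
  7 1 (c (n 2 0 (c (n 3 0 (c (l [1,9,3,13,6,9,16,16]) (c (n 4 0 (c (n 8 0 (c (n 16 2 (c (n 16 1 (c
  (n 14 2 (c (l [1,13,6,15,6,17,10,10,13,21,21]) (c (n 16 3 (c (l [1,13,6,15,6,19,10,10,13,23,23])
  (c (n 18 2 (c (l [1,17,6,19,6,21,10,10,13,25,25]) (c (l [1,17,6,19,6,23,10,10,13,27,27]) e))) e)))
  e))) e)) (c (l [1,15,6,17,6,19,10,13,22,22]) e))) e)) e)) (c (n 4 0 (c (n 15 1 (c (n 8 0 (c (n 16
  3 (c (l [1,13,6,15,6,17,10,10,13,21,21]) (c (l [1,15,6,17,6,20,10,13,23,23]) e))) e)) (c (l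
  [1,14,6,16,9,12,12,20,20]) e))) e)) e)))) e)) e)) e))) e))) e))) e))) (c (n 8 5 (c (n 8 3 (c (n 2
  0 (c (l [6,8,9,10,10]) (c (l [8,10,11,12,12]) e))) (c (n 8 1 (c (n 9 0 (c (l [7,8,3,10,11,11]) (c
  (n 6 1 (c (l [5,5,10,11,12,12]) (c (l [8,9,7,12,13,14,14]) e))) e))) (c (n 11 0 (c (n 8 0 (c (l
  [7,11,3,13,14,14]) (c (l [7,11,3,13,14,14]) e))) (c (n 6 1 (c (l [5,5,12,13,14,14]) (c (n 2 0 (c
  (l [7,13,14,15,15]) (c (n 10 2 (c (l [9,11,12,8,15,16,17,17]) (c (n 12 0 (c (l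
  [9,12,11,8,16,17,18,18]) (c (l [9,14,11,8,18,19,20,20]) e))) e))) e))) e))) e))) e))) e))) (c (n 2
  0 (c (n 7 0 (c (n 5 1 (c (n 3 0 (c (l [1,4,3,10,11,11]) (c (n 10 2 (c (l [1,9,5,12,13,13]) (c (l
  [1,9,5,11,14,15,15]) e))) (c (l [1,6,5,12,13,13]) e)))) (c (n 3 0 (c (l [1,9,5,12,13,13]) (c (n 12
  2 (c (l [1,11,7,14,15,15]) (c (l [1,11,7,13,16,17,17]) e))) (c (l [1,11,7,14,15,15]) e)))) e))) (c
  (l [1,6,6,12,13,13]) e))) (c (n 9 1 (c (n 12 2 (c (n 3 3 (c (n 7 1 (c (n 5 0 (c (l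
  [1,8,4,5,12,13,13]) (c (l [1,10,4,7,14,15,15]) (c (l [1,10,4,7,14,15,15]) e)))) (c (n 5 0 (c (l
  [1,10,4,7,14,15,15]) (c (l [1,12,4,9,16,17,17]) (c (l [1,12,4,9,16,17,17]) e)))) e))) (c (n 11 3
  (c (n 3 0 (c (l [9,12,14,15,16,16]) (c (l [11,14,16,17,18,18]) (c (l [11,14,16,17,18,18]) e)))) (c
  (n 7 0 (c (n 8 1 (c (l [6,7,6,13,15,16,17,17]) (c (n 11 0 (c (l [1,10,6,9,16,10,18,18]) (c (l
  [9,4,15,6,18,19,20,20]) (c (l [9,4,15,6,18,19,20,20]) e)))) e))) (c (n 10 1 (c (n 11 0 (c (l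
  [9,4,13,6,16,17,18,18]) (c (l [9,4,15,6,18,19,20,20]) (c (l [9,4,15,6,18,19,20,20]) e)))) (c (n 13
  0 (c (l [11,4,15,6,18,19,20,20]) (c (l [11,4,17,6,20,21,22,22]) (c (l [11,4,17,6,20,21,22,22])
  e)))) e))) (c (n 10 1 (c (n 8 0 (c (l [6,10,6,16,18,19,20,20]) (c (l [6,10,6,16,18,19,20,20]) e)))
  (c (n 13 0 (c (l [11,4,15,6,18,19,20,20]) (c (l [11,4,17,6,20,21,22,22]) (c (l
  [11,4,17,6,20,21,22,22]) e)))) e))) e)))) e))) e))) (c (n 9 0 (c (n 11 1 (c (n 12 0 (c (l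
  [8,10,11,6,13,14,14]) (c (n 7 1 (c (l [7,9,10,6,13,14,15,15]) (c (n 14 3 (c (l
  [9,11,12,8,15,16,17,17]) (c (n 3 2 (c (l [1,10,4,9,18,19,19]) (c (l [11,12,4,17,10,19,20,21,21])
  e))) e))) e))) e))) (c (n 7 1 (c (n 13 0 (c (n 3 0 (c (l [8,10,12,13,7,15,16,16]) (c (l
  [8,10,12,13,5,15,16,16]) e))) (c (n 3 0 (c (l [8,10,12,13,7,16,17,18,18]) (c (l
  [8,10,12,13,7,16,17,18,18]) e))) e))) (c (n 3 2 (c (n 5 0 (c (l [1,9,4,7,16,17,17]) (c (l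
  [1,11,4,9,15,18,19,19]) (c (l [1,11,4,9,18,19,19]) e)))) (c (n 14 0 (c (n 18 0 (c (l
  [11,12,4,17,6,19,20,20]) (c (n 7 0 (c (l [10,11,4,16,6,19,20,21,21]) (c (n 20 3 (c (l
  [12,13,4,18,6,21,22,23,23]) (c (n 22 0 (c (l [12,13,4,21,6,23,24,24]) (c (l
  [12,13,4,21,6,24,25,26,26]) e))) e))) (c (l [12,13,4,18,6,21,22,23,23]) e)))) e))) e)) e))) e)))
  e))) (c (n 13 0 (c (n 14 0 (c (n 3 3 (c (l [1,11,4,8,15,16,16]) (c (n 12 4 (c (l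
  [10,14,15,6,17,18,18]) (c (n 9 1 (c (l [8,4,14,6,16,8,18,19,19]) (c (l [10,4,16,6,18,8,20,21,21])
  e))) e))) e))) (c (n 3 3 (c (l [1,11,4,8,17,18,18]) (c (n 9 1 (c (l [8,4,12,6,14,8,17,18,19,19])
  (c (n 9 0 (c (n 19 3 (c (l [11,4,15,6,17,8,20,21,22,22]) (c (n 21 0 (c (l
  [11,4,15,6,20,8,22,23,23]) (c (l [11,4,15,6,20,8,23,24,25,25]) e))) e))) (c (l
  [11,4,15,6,17,8,20,21,22,22]) e))) e))) e))) e))) (c (n 3 3 (c (n 5 0 (c (l [7,10,4,16,17,18,18])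
  (c (n 8 1 (c (l [1,11,4,7,15,18,19,19]) (c (l [1,13,4,9,17,20,21,21]) e))) (c (l
  [9,12,4,18,19,20,20]) e)))) (c (n 9 1 (c (n 7 1 (c (l [6,7,6,12,17,18,19,19]) (c (n 16 0 (c (n 7 0
  (c (n 13 4 (c (n 8 3 (c (l [6,10,6,15,19,10,21,22,23,23]) (c (n 10 3 (c (l
  [9,11,12,11,17,23,24,25,25]) (c (l [14,11,18,13,19,25,26,27,27]) e))) e))) (c (n 8 3 (c (l
  [10,4,16,6,17,21,10,23,24,25,25]) (c (n 10 2 (c (l [9,11,12,9,18,12,25,26,27,27]) (c (l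
  [9,13,11,9,20,11,25,14,27,28,29,29]) e))) e))) e))) (c (l [10,4,14,6,21,22,23,23]) e))) e)) (c (l
  [8,9,8,14,19,20,21,21]) e)))) (c (n 7 0 (c (l [9,4,13,6,19,20,21,21]) (c (n 8 4 (c (n 18 0 (c (n 8
  1 (c (n 22 5 (c (l [12,4,16,6,21,9,23,24,25,25]) (c (l [12,4,16,6,23,9,25,26,27,27]) e))) (c (l
  [12,4,16,6,21,9,23,24,25,25]) e))) e)) (c (n 20 0 (c (n 8 1 (c (n 24 5 (c (l
  [14,4,18,6,23,9,25,26,27,27]) (c (l [14,4,18,6,25,9,27,28,29,29]) e))) (c (l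
  [14,4,18,6,23,9,25,26,27,27]) e))) e)) e))) (c (l [11,4,15,6,21,22,23,23]) e)))) e))) e))) e))) (c
  (n 7 1 (c (n 9 0 (c (n 5 0 (c (l [1,6,4,5,16,17,17]) (c (n 11 4 (c (l [1,8,4,7,13,12,18,19,19]) (c
  (n 11 3 (c (l [1,8,4,7,12,9,19,12,21,21]) (c (l [1,8,4,7,14,12,21,14,23,23]) e))) e))) (c (l
  [1,8,4,7,13,12,18,19,19]) e)))) (c (l [1,7,4,7,8,17,18,18]) e))) (c (n 3 1 (c (n 3 3 (c (n 6 0 (c
  (l [1,12,5,8,18,19,19]) (c (l [1,14,5,10,17,20,21,21]) (c (l [1,14,5,10,20,21,21]) e)))) (c (n 14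
  0 (c (n 5 1 (c (n 9 0 (c (l [11,4,16,8,21,22,23,23]) (c (n 17 4 (c (l
  [1,14,6,4,18,8,13,21,24,25,25]) (c (n 17 3 (c (l [1,14,8,13,18,15,25,18,27,27]) (c (l
  [1,14,6,4,18,13,20,18,27,20,29,29]) e))) e))) (c (l [13,4,18,8,23,24,25,25]) e)))) e)) (c (l
  [1,12,7,12,13,22,23,23]) e))) e))) (c (n 6 0 (c (l [8,4,13,17,18,19,19]) (c (n 3 1 (c (l
  [1,10,3,14,9,16,19,20,20]) (c (l [1,12,4,5,16,11,18,21,22,22]) e))) (c (l [10,4,15,19,20,21,21])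
  e)))) e))) e))) e)))) e))) (c (n 7 1 (c (n 5 1 (c (l [1,8,4,5,12,13,13]) (c (n 5 0 (c (n 10 0 (c
  (l [9,10,8,13,14,15,15]) (c (n 14 2 (c (l [1,12,4,8,16,17,17]) (c (l [1,12,4,8,15,18,19,19]) e)))
  (c (l [4,8,4,12,8,15,16,17,17]) e)))) (c (l [1,11,4,8,15,16,16]) e))) (c (l
  [6,7,6,11,13,14,15,15]) e)))) (c (n 5 0 (c (l [1,10,4,7,14,15,15]) (c (n 14 2 (c (l
  [1,12,4,9,16,17,17]) (c (n 11 0 (c (l [1,10,4,10,11,17,18,18]) (c (l [1,13,4,9,16,19,20,20]) (c (l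
  [1,13,4,9,16,19,20,20]) e)))) e))) (c (l [1,12,4,9,16,17,17]) e)))) e))) e))) e))) e))) e))) (c (n
  6 3 (c (n 2 0 (c (l [1,6,4,8,8]) (c (l [6,8,9,10,10]) e))) (c (n 8 1 (c (n 6 0 (c (l
  [5,6,3,8,9,9]) (c (l [5,8,3,10,11,11]) (c (l [5,8,3,10,11,11]) e)))) (c (n 2 5 (c (n 6 0 (c (l
  [5,8,3,10,11,11]) (c (l [5,10,3,12,13,13]) (c (l [5,10,3,12,13,13]) e)))) (c (n 6 1 (c (n 9 0 (c
  (l [7,3,11,5,13,14,14]) (c (l [7,3,13,5,15,16,16]) (c (l [7,3,13,5,15,16,16]) e)))) (c (l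
  [7,7,13,14,15,15]) e))) e))) e))) e))) e)))) (c (n 4 2 (c (n 2 5 (c (n 2 1 (c (n 7 1 (c (l
  [6,7,8,8]) (c (l [1,8,4,10,10]) (c (l [1,8,4,10,10]) e)))) (c (n 9 1 (c (l [8,9,10,10]) (c (n 2 0
  (c (n 10 1 (c (l [1,11,5,7,14,14]) (c (l [1,11,5,7,14,14]) e))) e)) (c (n 2 1 (c (n 10 1 (c (n 10
  0 (c (l [9,10,3,12,13,13]) (c (l [9,12,5,14,15,15]) (c (l [9,12,5,14,15,15]) e)))) (c (n 10 0 (c
  (l [9,10,5,12,13,13]) (c (l [9,12,5,14,15,15]) (c (l [9,12,5,14,15,15]) e)))) e))) e)) e)))) e)))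
  (c (n 10 3 (c (n 10 0 (c (l [9,10,11,11]) (c (n 2 0 (c (n 12 1 (c (n 12 3 (c (l [10,13,14,15,15])
  (c (n 3 0 (c (l [9,12,14,15,16,16]) (c (l [11,14,16,17,18,18]) (c (l [11,14,16,17,18,18]) e))))
  e))) (c (l [10,13,14,15,15]) e))) e)) e))) (c (n 12 3 (c (n 10 5 (c (n 12 0 (c (n 6 0 (c (n 14 1
  (c (n 11 0 (c (l [10,11,5,13,14,14]) (c (l [10,13,5,15,16,16]) (c (l [10,13,5,15,16,16]) e)))) (c
  (n 11 0 (c (l [10,11,5,14,15,16,16]) (c (l [10,13,5,16,17,18,18]) (c (l [10,13,5,16,17,18,18])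
  e)))) e))) e)) e)) (c (n 4 1 (c (n 2 1 (c (n 6 0 (c (n 15 1 (c (n 2 0 (c (l [1,9,3,15,7,17,17]) (c
  (n 12 0 (c (n 3 2 (c (l [1,11,4,5,18,9,20,20]) (c (n 10 1 (c (l [1,12,6,4,17,9,20,21,21]) (c (l
  [1,14,6,4,19,11,21,12,23,23]) e))) e))) (c (l [1,11,4,5,18,9,20,20]) e))) e))) e)) e)) e)) (c (n 2
  1 (c (n 2 0 (c (n 7 0 (c (n 16 0 (c (n 8 1 (c (l [1,12,5,14,7,17,18,18]) (c (l
  [1,14,5,16,6,9,19,20,20]) e))) e)) e)) (c (n 17 1 (c (n 17 1 (c (n 6 0 (c (n 14 0 (c (n 3 2 (c (l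
  [1,13,4,5,18,9,11,21,21]) (c (l [1,15,6,4,20,11,13,23,23]) e))) (c (l [1,13,4,5,18,9,11,21,21])
  e))) e)) (c (n 6 0 (c (n 14 0 (c (n 3 2 (c (l [1,13,4,5,20,9,11,23,23]) (c (n 9 0 (c (l
  [1,14,6,4,19,9,22,12,24,24]) (c (l [1,16,6,4,21,11,24,14,26,26]) e))) e))) (c (l
  [1,13,4,5,20,9,11,23,23]) e))) e)) e))) e)) e))) e)) e))) e))) (c (n 14 1 (c (n 4 1 (c (n 7 1 (c
  (l [8,3,13,14,15,15]) (c (l [8,3,13,14,15,15]) e))) (c (n 4 1 (c (n 2 0 (c (n 15 1 (c (l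
  [1,14,8,10,17,17]) (c (n 15 0 (c (n 3 2 (c (l [1,14,6,4,18,10,20,20]) (c (l
  [1,16,8,4,20,12,22,22]) e))) (c (l [1,14,6,4,18,10,20,20]) e))) e))) e)) e)) e))) (c (n 4 1 (c (n
  5 0 (c (n 8 1 (c (l [9,3,14,16,17,18,18]) (c (l [9,3,14,16,17,18,18]) e))) e)) (c (n 7 1 (c (n 2 0
  (c (n 17 1 (c (n 5 1 (c (n 16 1 (c (l [1,15,6,4,19,11,21,21]) (c (n 16 0 (c (n 3 2 (c (l
  [1,15,6,4,22,11,24,24]) (c (n 11 0 (c (l [1,16,8,4,20,11,24,25,25]) (c (l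
  [1,18,8,4,22,13,26,27,27]) e))) e))) (c (l [1,15,6,4,22,11,24,24]) e))) e))) e)) e)) e)) e)) e)))
  e))) e))) e))) e))) (c (n 10 5 (c (n 2 1 (c (n 9 1 (c (l [8,9,10,10]) (c (l [8,10,11,12,12]) e)))
  (c (n 11 1 (c (l [10,11,12,12]) (c (n 11 1 (c (n 2 0 (c (n 12 1 (c (l [11,13,14,15,15]) (c (n 12 2
  (c (l [11,15,16,17,17]) (c (n 3 3 (c (l [11,15,13,5,18,19,19]) (c (n 5 0 (c (n 13 1 (c (l
  [14,4,19,17,8,22,23,23]) (c (l [14,4,19,17,8,22,23,23]) e))) e)) e))) e))) e))) e)) (c (n 11 0 (c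
  (l [10,11,4,13,14,14]) (c (l [10,13,4,15,16,16]) (c (l [10,13,4,15,16,16]) e)))) e))) e))) (c (n
  11 1 (c (l [10,11,12,12]) (c (n 9 1 (c (l [10,3,13,14,15,15]) (c (l [10,3,13,14,15,15]) e))) e)))
  e)))) (c (n 10 1 (c (n 2 5 (c (n 2 0 (c (n 3 0 (c (n 4 1 (c (l [1,6,3,11,12,12]) (c (l
  [1,11,5,13,14,14]) (c (l [1,8,5,13,14,14]) e)))) (c (n 13 2 (c (n 6 1 (c (l [1,11,5,13,14,14]) (c
  (l [1,13,7,15,16,16]) (c (l [1,13,7,15,16,16]) e)))) (c (n 8 0 (c (n 6 1 (c (l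
  [1,12,5,14,16,17,17]) (c (l [1,14,7,16,18,19,19]) (c (l [1,14,7,16,18,19,19]) e)))) (c (n 6 1 (c
  (l [1,12,5,14,16,17,17]) (c (l [1,14,7,16,18,19,19]) (c (l [1,14,7,16,18,19,19]) e)))) e))) e)))
  e))) (c (n 5 0 (c (n 6 1 (c (l [1,10,4,5,13,14,14]) (c (l [1,12,4,7,15,16,16]) (c (l
  [1,12,4,7,15,16,16]) e)))) (c (n 15 2 (c (n 8 1 (c (l [1,12,4,7,15,16,16]) (c (l
  [1,14,4,9,17,18,18]) (c (l [1,14,4,9,17,18,18]) e)))) (c (n 10 0 (c (n 8 1 (c (l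
  [1,13,4,7,16,18,19,19]) (c (l [1,15,4,9,18,20,21,21]) (c (l [1,15,4,9,18,20,21,21]) e)))) (c (n 8
  1 (c (l [1,13,4,7,16,18,19,19]) (c (l [1,15,4,9,18,20,21,21]) (c (l [1,15,4,9,18,20,21,21]) e))))
  e))) e))) e))) e))) (c (n 15 1 (c (n 2 0 (c (n 11 1 (c (n 14 0 (c (l [13,15,16,17,17]) (c (l
  [12,4,16,6,18,19,19]) (c (l [12,4,16,6,18,19,19]) e)))) (c (n 14 0 (c (l [13,15,16,17,17]) (c (l
  [12,4,16,6,18,19,19]) (c (l [12,4,16,6,18,19,19]) e)))) e))) e)) (c (n 15 1 (c (n 15 3 (c (n 12 2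
  (c (n 2 0 (c (n 3 0 (c (l [11,14,17,18,19,19]) (c (l [13,16,19,20,21,21]) (c (l
  [13,16,19,20,21,21]) e)))) e)) (c (n 12 0 (c (n 6 0 (c (n 9 1 (c (l [10,3,14,5,18,19,20,20]) (c (l
  [10,3,14,5,18,19,20,20]) e))) (c (n 11 1 (c (l [12,3,16,5,20,21,22,22]) (c (l
  [12,3,16,5,20,21,22,22]) e))) e))) (c (n 10 1 (c (n 6 0 (c (l [10,3,16,5,20,21,22,22]) (c (l
  [12,3,18,5,22,23,24,24]) e))) (c (n 6 0 (c (l [10,3,16,5,20,21,22,22]) (c (l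
  [12,3,18,5,22,23,24,24]) e))) e))) e))) e))) (c (n 6 5 (c (n 10 1 (c (n 2 1 (c (n 17 0 (c (n 14 0
  (c (l [12,4,14,6,18,8,20,21,21]) (c (l [12,4,16,6,20,8,22,23,23]) (c (l [12,4,16,6,20,8,22,23,23])
  e)))) (c (n 14 0 (c (l [12,4,14,6,20,8,22,23,23]) (c (l [12,4,16,6,22,8,24,25,25]) (c (l
  [12,4,16,6,22,8,24,25,25]) e)))) (c (n 14 0 (c (l [12,4,14,6,20,8,22,23,23]) (c (l
  [12,4,16,6,22,8,24,25,25]) (c (l [12,4,16,6,22,8,24,25,25]) e)))) e)))) e)) (c (n 16 0 (c (n 13 0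
  (c (l [11,3,13,5,17,7,19,20,20]) (c (l [11,3,15,5,19,7,21,22,22]) (c (l [11,3,15,5,19,7,21,22,22])
  e)))) (c (n 13 0 (c (l [11,3,13,5,19,7,21,22,22]) (c (l [11,3,15,5,21,7,23,24,24]) (c (l
  [11,3,15,5,21,7,23,24,24]) e)))) (c (n 13 0 (c (l [11,3,13,5,19,7,21,22,22]) (c (l
  [11,3,15,5,21,7,23,24,24]) (c (l [11,3,15,5,21,7,23,24,24]) e)))) e)))) e))) (c (n 17 0 (c (n 18 0
  (c (n 14 0 (c (n 6 1 (c (n 2 0 (c (l [15,17,18,8,22,23,24,24]) e)) e)) (c (n 12 1 (c (n 10 1 (c (l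
  [12,3,16,5,18,9,22,23,24,24]) (c (l [14,3,18,5,20,11,24,25,26,26]) (c (l
  [14,3,18,5,20,11,24,25,26,26]) e)))) (c (n 10 1 (c (l [12,3,16,5,18,9,22,23,24,24]) (c (l
  [14,3,18,5,20,11,24,25,26,26]) (c (l [14,3,18,5,20,11,24,25,26,26]) e)))) e))) (c (n 12 1 (c (l
  [13,3,17,7,22,9,24,25,25]) (c (l [13,3,17,7,22,9,24,25,25]) e))) e)))) e)) (c (n 20 0 (c (n 14 0
  (c (n 6 0 (c (n 2 0 (c (n 3 2 (c (l [15,16,4,23,6,25,26,26]) (c (l [17,18,4,22,8,26,27,28,28])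
  e))) e)) e)) (c (n 12 1 (c (n 10 0 (c (l [12,3,16,5,20,9,24,25,26,26]) (c (l
  [14,3,18,5,22,9,26,27,28,28]) (c (l [14,3,18,5,22,9,26,27,28,28]) e)))) (c (n 10 0 (c (l
  [12,3,16,5,20,9,24,25,26,26]) (c (l [14,3,18,5,22,9,26,27,28,28]) (c (l
  [14,3,18,5,22,9,26,27,28,28]) e)))) e))) (c (n 12 1 (c (l [13,3,17,7,24,9,26,27,27]) (c (l
  [13,3,17,7,24,9,26,27,27]) e))) e)))) e)) (c (n 14 0 (c (n 17 0 (c (n 2 0 (c (n 19 0 (c (l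
  [14,16,17,8,21,10,23,24,24]) (c (l [14,16,17,8,23,10,25,26,26]) (c (l [14,16,17,8,23,10,25,26,26])
  e)))) e)) e)) (c (n 21 0 (c (n 12 1 (c (n 10 0 (c (l [12,3,16,5,20,9,24,25,26,26]) (c (l
  [14,3,18,5,22,9,26,27,28,28]) (c (l [14,3,18,5,22,9,26,27,28,28]) e)))) (c (n 10 0 (c (l
  [12,3,16,5,20,9,24,25,26,26]) (c (l [14,3,18,5,22,9,26,27,28,28]) (c (l
  [14,3,18,5,22,9,26,27,28,28]) e)))) e))) e)) (c (n 19 0 (c (n 12 1 (c (l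
  [13,3,17,7,24,9,26,27,27]) (c (l [13,3,17,7,24,9,26,27,27]) e))) e)) e)))) e)))) e))) e))) (c (n
  10 1 (c (n 16 0 (c (n 13 0 (c (l [11,3,13,5,15,7,17,18,18]) (c (l [11,3,15,5,17,7,19,20,20]) (c (l
  [11,3,15,5,17,7,19,20,20]) e)))) (c (n 13 0 (c (l [11,3,13,5,17,7,19,20,20]) (c (l
  [11,3,15,5,19,7,21,22,22]) (c (l [11,3,15,5,19,7,21,22,22]) e)))) (c (n 13 0 (c (l
  [11,3,13,5,17,7,19,20,20]) (c (l [11,3,15,5,19,7,21,22,22]) (c (l [11,3,15,5,19,7,21,22,22]) e))))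
  e)))) (c (n 16 0 (c (n 13 0 (c (l [11,3,13,5,15,7,17,18,18]) (c (l [11,3,15,5,17,7,19,20,20]) (c
  (l [11,3,15,5,17,7,19,20,20]) e)))) (c (n 13 0 (c (l [11,3,13,5,17,7,19,20,20]) (c (l
  [11,3,15,5,19,7,21,22,22]) (c (l [11,3,15,5,19,7,21,22,22]) e)))) (c (n 13 0 (c (l
  [11,3,13,5,17,7,19,20,20]) (c (l [11,3,15,5,19,7,21,22,22]) (c (l [11,3,15,5,19,7,21,22,22]) e))))
  e)))) e))) e))) e))) e))) (c (n 2 0 (c (n 7 0 (c (n 13 1 (c (l [1,12,6,14,14]) (c (n 3 0 (c (l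
  [8,11,13,14,15,15]) (c (n 14 2 (c (l [10,13,15,16,17,17]) (c (n 6 1 (c (l [1,12,5,14,17,18,18]) (c
  (l [1,14,7,16,19,20,20]) (c (l [1,14,7,16,19,20,20]) e)))) e))) e))) e))) (c (n 8 1 (c (l
  [1,10,6,7,13,14,14]) (c (l [1,12,6,9,15,16,16]) (c (l [1,12,6,9,15,16,16]) e)))) e))) (c (n 5 0 (c
  (n 6 1 (c (l [1,10,4,5,13,14,14]) (c (l [1,12,4,7,15,16,16]) (c (l [1,12,4,7,15,16,16]) e)))) (c
  (n 15 2 (c (n 8 1 (c (l [1,12,4,7,15,16,16]) (c (l [1,14,4,9,17,18,18]) (c (l [1,14,4,9,17,18,18])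
  e)))) (c (n 10 0 (c (n 8 1 (c (l [1,13,4,7,16,18,19,19]) (c (l [1,15,4,9,18,20,21,21]) (c (l
  [1,15,4,9,18,20,21,21]) e)))) (c (n 8 1 (c (l [1,13,4,7,16,18,19,19]) (c (l
  [1,15,4,9,18,20,21,21]) (c (l [1,15,4,9,18,20,21,21]) e)))) e))) e))) e))) e))) e))) e))) e)))
  e))) e))) e)))

set_option maxRecDepth 100000 in
theorem chkA : chk 18 treeA [[Cell.L 3, Cell.L 3, Cell.S true 1 2, Cell.L 4, Cell.L 4]] = true := by decide +kernel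

set_option maxRecDepth 100000 in
theorem chkB : chk 18 treeB [[Cell.L 3, Cell.L 3, Cell.S true 2 1, Cell.L 4, Cell.L 4]] = true := by decide +kernel

theorem goodA : Good 18 [Cell.L 3, Cell.L 3, Cell.S true 1 2, Cell.L 4, Cell.L 4] := Good.of_chk ⟨_, _, _, rfl⟩ chkA

theorem goodB : Good 18 [Cell.L 3, Cell.L 3, Cell.S true 2 1, Cell.L 4, Cell.L 4] := Good.of_chk ⟨_, _, _, rfl⟩ chkB

end NoSw

end Pool.Agent.H.MP_2e666d_lc.T3
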