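import Pool.Agent.H.MP_2e666d_lc.FSThree
import Pool.Agent.H.MP_2e666d_lc.NoSwitch

/-! # The classes: no switch, one switch, at least two switches -/

namespace Pool.Agent.H.MP_2e666d_lc.T3

/-- exactly one switch, first the letters `2` of the class `A` (even positions) -/
def clsAB (p q : ℕ) : List Cell :=
  [Cell.L 3, Cell.L 3, Cell.L p, Cell.S true 2 1, Cell.L 2, Cell.S false 1 1, Cell.L 2,
    Cell.S false 1 2, Cell.L q, Cell.L 4, Cell.L 4]

/-- exactly one switch, first the letters `2` of the class `B` -/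
def clsBA (p q : ℕ) : List Cell :=
  [Cell.L 3, Cell.L 3, Cell.L p, Cell.S false 1 2, Cell.L 2, Cell.S false 1 1, Cell.L 2,
    Cell.S true 2 1, Cell.L q, Cell.L 4, Cell.L 4]

/-- at least two switches -/
def clsABA (p q : ℕ) : List Cell :=
  [Cell.L 3, Cell.L 3, Cell.L p, Cell.S true 2 2, Cell.L 2, Cell.S false 2 2, Cell.L 2,
    Cell.S false 2 2, Cell.L 2, Cell.S true 2 2, Cell.L q, Cell.L 4, Cell.L 4]

/-- at least two switches -/
def clsBAB (p q : ℕ) : List Cell :=
  [Cell.L 3, Cell.L 3, Cell.L p, Cell.S false 2 2, Cell.L 2, Cell.S false 2 2, Cell.L 2,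
    Cell.S false 2 2, Cell.L 2, Cell.S false 2 2, Cell.L q, Cell.L 4, Cell.L 4]

/-- a piece of a word is an instance of a stretch -/
theorem inst_piece {P W : List ℕ} {m n off i j : ℕ} {q o : Bool} {cs : List Cell}
    (hm : m ≤ n) (hn : n ≤ P.length) (hq : q = decide ((off + m) % 2 = 1))
    (ho : o = decide ((n - m) % 2 = 1))
    (hA : ∀ k, m ≤ k → k < n → (off + k) % 2 = 0 → P.getD k 0 ≤ i)
    (hB : ∀ k, m ≤ k → k < n → (off + k) % 2 = 1 → P.getD k 0 ≤ j)
    (hW : Inst (q ^^ o) cs W) :
    Inst q (Cell.S o i j :: cs) ((P.drop m).take (n - m) ++ W) := by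
  have hlen : ((P.drop m).take (n - m)).length = n - m := by
    rw [List.length_take, List.length_drop]
    omega
  have hget : ∀ k < n - m, ((P.drop m).take (n - m)).getD k 0 = P.getD (m + k) 0 := by
    intro k hk
    rw [List.getD_eq_getElem _ _ (by rw [hlen]; exact hk),
      List.getD_eq_getElem _ _ (by omega : m + k < P.length)]
    simp
  refine Inst.stretch q o i j cs _ W ?_ ?_ ?_ hW
  · rw [hlen, ho]
    rcases Nat.mod_two_eq_zero_or_one (n - m) with h | h <;> simp [h]
  · intro k hk hk2
    rw [hlen] at hk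
    rw [hget k hk, hq]
    rcases Nat.mod_two_eq_zero_or_one (off + m) with h | h
    · have h' : decide ((off + m) % 2 = 1) = false := by simp [h]
      rw [h', if_neg (by simp)]
      exact hA _ (by omega) (by omega) (by omega)
    · have h' : decide ((off + m) % 2 = 1) = true := by simp [h]
      rw [h', if_pos rfl]
      exact hB _ (by omega) (by omega) (by omega)
  · intro k hk hk2
    rw [hlen] at hk
    rw [hget k hk, hq]
    rcases Nat.mod_two_eq_zero_or_one (off + m) with h | h
    · have h' : decide ((off + m) % 2 = 1) = false := by simp [h]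
      rw [h', if_neg (by simp)]
      exact hB _ (by omega) (by omega) (by omega)
    · have h' : decide ((off + m) % 2 = 1) = true := by simp [h]
      rw [h', if_pos rfl]
      exact hA _ (by omega) (by omega) (by omega)

theorem drop_split (P : List ℕ) {m n : ℕ} (hm : m ≤ n) (hn : n < P.length) :
    P.drop m = (P.drop m).take (n - m) ++ P.getD n 0 :: P.drop (n + 1) := by
  have h1 : P.drop m = (P.drop m).take (n - m) ++ (P.drop m).drop (n - m) :=
    (List.take_append_drop _ _).symm
  have h2 : (P.drop m).drop (n - m) = P.drop n := by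
    rw [List.drop_drop]
    congr 1
    omega
  have h3 : P.drop n = P.getD n 0 :: P.drop (n + 1) := by
    rw [List.getD_eq_getElem _ _ hn]
    exact List.drop_eq_getElem_cons hn
  conv_lhs => rw [h1, h2, h3]

theorem take_all (P : List ℕ) (m : ℕ) : P.drop m = (P.drop m).take (P.length - m) := by
  rw [List.take_of_length_le]
  simp

/-- the words of `rt p q` -/
theorem rt_inv {p q : ℕ} {W : List ℕ} (h : Inst false (rt p q) W) :
    ∃ P : List ℕ, P.length % 2 = 1 ∧ (∀ k < P.length, P.getD k 0 ≤ 2) ∧
      W = 3 :: 3 :: p :: (P ++ [q, 4, 4]) := by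
  unfold rt at h
  cases h with
  | letter _ _ _ W h =>
  cases h with
  | letter _ _ _ W h =>
  cases h with
  | letter _ _ _ W h =>
  cases h with
  | stretch _ _ _ _ _ T W h1 h2 h3 h =>
  cases h with
  | letter _ _ _ W h =>
  cases h with
  | letter _ _ _ W h =>
  cases h with
  | letter _ _ _ W h =>
  cases h with
  | nil =>
  refine ⟨T, by simpa using h1, ?_, rfl⟩
  intro k hk
  rcases Nat.mod_two_eq_zero_or_one k with h4 | h4
  · simpa using h2 k hk h4
  · simpa using h3 k hk h4

/-- a greatest element below a bound -/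
theorem exists_last (f : ℕ → Prop) (n : ℕ) (h : ∃ k < n, f k) :
    ∃ k < n, f k ∧ ∀ j, k < j → j < n → ¬ f j := by
  induction n with
  | zero => obtain ⟨k, hk, _⟩ := h; omega
  | succ n ih =>
    by_cases hn : f n
    · exact ⟨n, by omega, hn, fun j h1 h2 => by omega⟩
    · obtain ⟨k, hk, hf⟩ := h
      have hkn : k < n := by
        rcases Nat.lt_or_ge k n with h1 | h1
        · exact h1
        · have : k = n := by omega
          exact absurd (this ▸ hf) hn
      obtain ⟨k', h1, h2, h3⟩ := ih ⟨k, hkn, hf⟩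
      refine ⟨k', by omega, h2, fun j h4 h5 => ?_⟩
      rcases Nat.lt_or_ge j n with h6 | h6
      · exact h3 j h4 h6
      · have : j = n := by omega
        exact this ▸ hn

/-- a least element below a bound -/
theorem exists_first (f : ℕ → Prop) (n : ℕ) (h : ∃ k < n, f k) :
    ∃ k < n, f k ∧ ∀ j < k, ¬ f j := by
  classical
  have h' : ∃ k, k < n ∧ f k := h
  refine ⟨Nat.find h', (Nat.find_spec h').1, (Nat.find_spec h').2, fun j hj hf => ?_⟩
  exact Nat.find_min h' hj ⟨hj.trans (Nat.find_spec h').1, hf⟩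

/-- The classification.  The positions of the letters of `P` in the word are `3 + k`. -/
theorem good_rt {K p q : ℕ} (hK : 18 ≤ K) (hp : p ≤ 1) (hq : q ≤ 1) (hAB : Good K (clsAB p q))
    (hBA : Good K (clsBA p q)) (hABA : Good K (clsABA p q)) (hBAB : Good K (clsBAB p q)) :
    Good K (rt p q) := by
  intro W hW
  obtain ⟨P, hodd, hP, rfl⟩ := rt_inv hW
  -- the case of one class without 2
  have hpq : ∀ k < (p :: (P ++ [q])).length, (p :: (P ++ [q])).getD k 0 ≤ 1 ∨
      ∃ j < P.length, k = j + 1 ∧ (p :: (P ++ [q])).getD k 0 = P.getD j 0 := by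
    intro k hk
    cases k with
    | zero => left; simpa using hp
    | succ k =>
      rcases Nat.lt_or_ge k P.length with h | h
      · right
        refine ⟨k, h, rfl, ?_⟩
        rw [List.getD_cons_succ, List.getD_append _ _ _ _ h]
      · left
        simp only [List.length_cons, List.length_append, List.length_nil] at hk
        have : k = P.length := by omega
        subst this
        rw [List.getD_cons_succ, List.getD_append_right _ _ _ _ le_rfl]
        simpa using hq
  have hlen : (p :: (P ++ [q])).length = P.length + 2 := by simp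
  by_cases hA : ∃ k < P.length, k % 2 = 1 ∧ P.getD k 0 = 2
  swap
  · refine (NoSw.goodA.mono hK) _ ?_
    have hw : (3 :: 3 :: p :: (P ++ [q, 4, 4])) =
        3 :: 3 :: ((((p :: (P ++ [q])).drop 0).take ((P.length + 2) - 0)) ++ [4, 4]) := by
      rw [List.drop_zero, Nat.sub_zero, ← hlen, List.take_length]
      simp
    rw [hw]
    refine Inst.letter _ _ _ _ (Inst.letter _ _ _ _ ?_)
    refine inst_piece (off := 2) (Nat.zero_le _) hlen.ge (by simp) ?_ ?_ ?_
      (Inst.letter _ _ _ _ (Inst.letter _ _ _ _ (Inst.nil _)))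
    · simpa using hodd
    · intro k _ hk hk2
      rcases hpq k (by omega) with h | ⟨j, j1, j2, j3⟩
      · exact h
      · rw [j3]
        have h1 := hP j j1
        have h2 : ¬ P.getD j 0 = 2 := fun h => hA ⟨j, j1, by omega, h⟩
        omega
    · intro k _ hk hk2
      rcases hpq k (by omega) with h | ⟨j, j1, j2, j3⟩
      · omega
      · rw [j3]
        exact hP j j1
  by_cases hB : ∃ k < P.length, k % 2 = 0 ∧ P.getD k 0 = 2
  swap
  · refine (NoSw.goodB.mono hK) _ ?_
    have hw : (3 :: 3 :: p :: (P ++ [q, 4, 4])) =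
        3 :: 3 :: ((((p :: (P ++ [q])).drop 0).take ((P.length + 2) - 0)) ++ [4, 4]) := by
      rw [List.drop_zero, Nat.sub_zero, ← hlen, List.take_length]
      simp
    rw [hw]
    refine Inst.letter _ _ _ _ (Inst.letter _ _ _ _ ?_)
    refine inst_piece (off := 2) (Nat.zero_le _) hlen.ge (by simp) ?_ ?_ ?_
      (Inst.letter _ _ _ _ (Inst.letter _ _ _ _ (Inst.nil _)))
    · simpa using hodd
    · intro k _ hk hk2
      rcases hpq k (by omega) with h | ⟨j, j1, j2, j3⟩
      · omega
      · rw [j3]
        exact hP j j1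
    · intro k _ hk hk2
      rcases hpq k (by omega) with h | ⟨j, j1, j2, j3⟩
      · exact h
      · rw [j3]
        have h1 := hP j j1
        have h2 : ¬ P.getD j 0 = 2 := fun h => hB ⟨j, j1, by omega, h⟩
        omega
  -- both classes contain a 2
  obtain ⟨a, a1, ⟨a2, a3⟩, a4⟩ := exists_first (fun k => k % 2 = 1 ∧ P.getD k 0 = 2) _ hA
  obtain ⟨b, b1, ⟨b2, b3⟩, b4⟩ := exists_first (fun k => k % 2 = 0 ∧ P.getD k 0 = 2) _ hB
  have tail : Inst (false ^^ false) [Cell.L q, Cell.L 4, Cell.L 4] [q, 4, 4] :=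
    Inst.letter _ _ _ _ (Inst.letter _ _ _ _ (Inst.letter _ _ _ _ (Inst.nil _)))
  have tail1 : Inst (true ^^ true) [Cell.L q, Cell.L 4, Cell.L 4] [q, 4, 4] := tail
  have hP2 : ∀ k, P.getD k 0 ≤ 2 := by
    intro k
    rcases Nat.lt_or_ge k P.length with h | h
    · exact hP k h
    · rw [List.getD_eq_default _ _ h]; omega
  rcases Nat.lt_or_ge a b with hab | hab
  · by_cases hx : ∃ k < P.length, b < k ∧ k % 2 = 1 ∧ P.getD k 0 = 2
    · obtain ⟨c, c1, c2, c3, c4⟩ := hx
      refine hABA _ ?_
      have hw : (3 :: 3 :: p :: (P ++ [q, 4, 4])) =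
          3 :: 3 :: p :: ((P.drop 0).take (a - 0) ++ 2 :: ((P.drop (a + 1)).take (b - (a + 1)) ++
            2 :: ((P.drop (b + 1)).take (c - (b + 1)) ++ 2 ::
              ((P.drop (c + 1)).take (P.length - (c + 1)) ++ [q, 4, 4])))) := by
        congr 3
        conv_lhs => rw [← List.drop_zero (l := P), drop_split P (Nat.zero_le a) a1, a3,
          drop_split P (by omega : a + 1 ≤ b) b1, b3, drop_split P (by omega : b + 1 ≤ c) c1, c4,
          take_all P (c + 1)]
        simp
      rw [hw]
      refine Inst.letter _ _ _ _ (Inst.letter _ _ _ _ (Inst.letter _ _ _ _ ?_))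
      refine inst_piece (off := 3) (Nat.zero_le _) (by omega) (by simp) (by simp; omega)
        (fun k _ _ _ => hP2 k) (fun k _ _ _ => hP2 k) (Inst.letter _ _ _ _ ?_)
      refine inst_piece (off := 3) (by omega) (by omega) (by simp; omega) (by simp; omega)
        (fun k _ _ _ => hP2 k) (fun k _ _ _ => hP2 k) (Inst.letter _ _ _ _ ?_)
      refine inst_piece (off := 3) (by omega) (by omega) (by simp; omega) (by simp; omega)
        (fun k _ _ _ => hP2 k) (fun k _ _ _ => hP2 k) (Inst.letter _ _ _ _ ?_)
      exact inst_piece (off := 3) (by omega) (by omega) (by simp; omega) (by simp; omega)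
        (fun k _ _ _ => hP2 k) (fun k _ _ _ => hP2 k) tail
    · obtain ⟨c, c1, ⟨c2, c3⟩, c4⟩ := exists_last (fun k => k % 2 = 1 ∧ P.getD k 0 = 2) b
        ⟨a, hab, a2, a3⟩
      refine hAB _ ?_
      have hw : (3 :: 3 :: p :: (P ++ [q, 4, 4])) =
          3 :: 3 :: p :: ((P.drop 0).take (c - 0) ++ 2 :: ((P.drop (c + 1)).take (b - (c + 1)) ++
            2 :: ((P.drop (b + 1)).take (P.length - (b + 1)) ++ [q, 4, 4]))) := by
        congr 3
        conv_lhs => rw [← List.drop_zero (l := P), drop_split P (Nat.zero_le c) (by omega), c3,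
          drop_split P (by omega : c + 1 ≤ b) b1, b3, take_all P (b + 1)]
        simp
      rw [hw]
      have le1 : ∀ k, P.getD k 0 ≠ 2 → P.getD k 0 ≤ 1 := fun k hk => by
        have := hP2 k
        omega
      refine Inst.letter _ _ _ _ (Inst.letter _ _ _ _ (Inst.letter _ _ _ _ ?_))
      refine inst_piece (off := 3) (Nat.zero_le _) (by omega) (by simp) (by simp; omega)
        (fun k _ _ _ => hP2 k)
        (fun k _ h1 h2 => le1 k fun h3 => b4 k (by omega) ⟨by omega, h3⟩)
        (Inst.letter _ _ _ _ ?_)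
      refine inst_piece (off := 3) (by omega) (by omega) (by simp; omega) (by simp; omega)
        (fun k h0 h1 h2 => le1 k fun h3 => c4 k (by omega) h1 ⟨by omega, h3⟩)
        (fun k _ h1 h2 => le1 k fun h3 => b4 k (by omega) ⟨by omega, h3⟩)
        (Inst.letter _ _ _ _ ?_)
      exact inst_piece (off := 3) (by omega) (by omega) (by simp; omega) (by simp; omega)
        (fun k h0 h1 h2 => le1 k fun h3 => hx ⟨k, h1, by omega, by omega, h3⟩)
        (fun k _ _ _ => hP2 k) tail
  · have hba : b < a := by
      rcases Nat.lt_or_ge b a with h | h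
      · exact h
      · omega
    by_cases hx : ∃ k < P.length, a < k ∧ k % 2 = 0 ∧ P.getD k 0 = 2
    · obtain ⟨c, c1, c2, c3, c4⟩ := hx
      refine hBAB _ ?_
      have hw : (3 :: 3 :: p :: (P ++ [q, 4, 4])) =
          3 :: 3 :: p :: ((P.drop 0).take (b - 0) ++ 2 :: ((P.drop (b + 1)).take (a - (b + 1)) ++
            2 :: ((P.drop (a + 1)).take (c - (a + 1)) ++ 2 ::
              ((P.drop (c + 1)).take (P.length - (c + 1)) ++ [q, 4, 4])))) := by
        congr 3
        conv_lhs => rw [← List.drop_zero (l := P), drop_split P (Nat.zero_le b) b1, b3,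
          drop_split P (by omega : b + 1 ≤ a) a1, a3, drop_split P (by omega : a + 1 ≤ c) c1, c4,
          take_all P (c + 1)]
        simp
      rw [hw]
      refine Inst.letter _ _ _ _ (Inst.letter _ _ _ _ (Inst.letter _ _ _ _ ?_))
      refine inst_piece (off := 3) (Nat.zero_le _) (by omega) (by simp) (by simp; omega)
        (fun k _ _ _ => hP2 k) (fun k _ _ _ => hP2 k) (Inst.letter _ _ _ _ ?_)
      refine inst_piece (off := 3) (by omega) (by omega) (by simp; omega) (by simp; omega)
        (fun k _ _ _ => hP2 k) (fun k _ _ _ => hP2 k) (Inst.letter _ _ _ _ ?_)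
      refine inst_piece (off := 3) (by omega) (by omega) (by simp; omega) (by simp; omega)
        (fun k _ _ _ => hP2 k) (fun k _ _ _ => hP2 k) (Inst.letter _ _ _ _ ?_)
      exact inst_piece (off := 3) (by omega) (by omega) (by simp; omega) (by simp; omega)
        (fun k _ _ _ => hP2 k) (fun k _ _ _ => hP2 k) tail
    · obtain ⟨c, c1, ⟨c2, c3⟩, c4⟩ := exists_last (fun k => k % 2 = 0 ∧ P.getD k 0 = 2) a
        ⟨b, hba, b2, b3⟩
      refine hBA _ ?_
      have hw : (3 :: 3 :: p :: (P ++ [q, 4, 4])) =
          3 :: 3 :: p :: ((P.drop 0).take (c - 0) ++ 2 :: ((P.drop (c + 1)).take (a - (c + 1)) ++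
            2 :: ((P.drop (a + 1)).take (P.length - (a + 1)) ++ [q, 4, 4]))) := by
        congr 3
        conv_lhs => rw [← List.drop_zero (l := P), drop_split P (Nat.zero_le c) (by omega), c3,
          drop_split P (by omega : c + 1 ≤ a) a1, a3, take_all P (a + 1)]
        simp
      rw [hw]
      have le1 : ∀ k, P.getD k 0 ≠ 2 → P.getD k 0 ≤ 1 := fun k hk => by
        have := hP2 k
        omega
      refine Inst.letter _ _ _ _ (Inst.letter _ _ _ _ (Inst.letter _ _ _ _ ?_))
      refine inst_piece (off := 3) (Nat.zero_le _) (by omega) (by simp) (by simp; omega)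
        (fun k _ h1 h2 => le1 k fun h3 => a4 k (by omega) ⟨by omega, h3⟩)
        (fun k _ _ _ => hP2 k)
        (Inst.letter _ _ _ _ ?_)
      refine inst_piece (off := 3) (by omega) (by omega) (by simp; omega) (by simp; omega)
        (fun k _ h1 h2 => le1 k fun h3 => a4 k (by omega) ⟨by omega, h3⟩)
        (fun k h0 h1 h2 => le1 k fun h3 => c4 k (by omega) h1 ⟨by omega, h3⟩)
        (Inst.letter _ _ _ _ ?_)
      exact inst_piece (off := 3) (by omega) (by omega) (by simp; omega) (by simp; omega)
        (fun k _ _ _ => hP2 k)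
        (fun k h0 h1 h2 => le1 k fun h3 => hx ⟨k, h1, by omega, by omega, h3⟩) tail1

end Pool.Agent.H.MP_2e666d_lc.T3
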