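import Pool.Agent.H.MP_2e666d_lc.TreeFS3

/-! # Reduction of the finite statement to three classes: first/last letter `00`, `10`, `01` -/

namespace Pool.Agent.H.MP_2e666d_lc.T3

theorem Good.mono {K K' : ℕ} {cs : List Cell} (h : Good K cs) (hK : K ≤ K') : Good K' cs := by
  intro W hW
  obtain ⟨Ns, h1, h2⟩ := h W hW
  exact ⟨Ns, h1.trans hK, h2⟩

/-- the abstract word `33 p S(odd)(2,2) q 44` -/
def rt (p q : ℕ) : List Cell :=
  [Cell.L 3, Cell.L 3, Cell.L p, Cell.S true 2 2, Cell.L q, Cell.L 4, Cell.L 4]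

theorem good11 : Good 8 (rt 1 1) :=
  Good.of_chk (t := Tree.node 3 4 (Tree.cons (Tree.leaf [1,5,6,6]) (Tree.cons
    (Tree.node 3 3 (Tree.cons (Tree.leaf [1,6,4,8,8]) (Tree.cons (Tree.leaf [4,8,6,10,10])
      Tree.nil))) Tree.nil))) ⟨_, _, _, rfl⟩ (by decide +kernel)

theorem good02 : Good 8 (rt 0 2) :=
  Good.of_chk (t := Tree.leaf [4,5,6,6]) ⟨_, _, _, rfl⟩ (by decide +kernel)

theorem good12 : Good 8 (rt 1 2) :=
  Good.of_chk (t := Tree.leaf [4,5,6,6]) ⟨_, _, _, rfl⟩ (by decide +kernel)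

theorem good2 : Good 8 [Cell.L 3, Cell.L 3, Cell.L 2, Cell.S false 2 2, Cell.L 4, Cell.L 4] :=
  Good.of_chk (t := Tree.leaf [1,4,5,5]) ⟨_, _, _, rfl⟩ (by decide +kernel)

theorem good0' : Good 8 [Cell.L 3, Cell.L 3, Cell.L 0, Cell.L 4, Cell.L 4] :=
  Good.of_chk (t := Tree.leaf [1,3,4,4]) ⟨_, _, _, rfl⟩ (by decide +kernel)

theorem good1' : Good 8 [Cell.L 3, Cell.L 3, Cell.L 1, Cell.L 4, Cell.L 4] :=
  Good.of_chk (t := Tree.leaf [1,3,4,4]) ⟨_, _, _, rfl⟩ (by decide +kernel)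

theorem FS_of_three {K : ℕ} (h00 : Good K (rt 0 0)) (h10 : Good K (rt 1 0))
    (h01 : Good K (rt 0 1)) : FS := by
  have key : Good (max K 8)
      [Cell.L 3, Cell.L 3, Cell.S true 2 2, Cell.L 4, Cell.L 4] := by
    refine Good.node (ty := 0) (p := 2) rfl ?_
    intro cs hcs
    have hcs' : cs = [Cell.L 3, Cell.L 3, Cell.L 0, Cell.S false 2 2, Cell.L 4, Cell.L 4] ∨
        cs = [Cell.L 3, Cell.L 3, Cell.L 1, Cell.S false 2 2, Cell.L 4, Cell.L 4] ∨
        cs = [Cell.L 3, Cell.L 3, Cell.L 2, Cell.S false 2 2, Cell.L 4, Cell.L 4] := by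
      simpa [List.range_succ, mkS] using hcs
    rcases hcs' with rfl | rfl | rfl
    · refine Good.node (ty := 1) (p := 3) rfl ?_
      intro cs hcs
      have hcs' : cs = [Cell.L 3, Cell.L 3, Cell.L 0, Cell.L 4, Cell.L 4] ∨
          cs = rt 0 0 ∨ cs = rt 0 1 ∨ cs = rt 0 2 := by
        simpa [List.range_succ, mkS, rt] using hcs
      rcases hcs' with rfl | rfl | rfl | rfl
      · exact good0'.mono (le_max_right _ _)
      · exact h00.mono (le_max_left _ _)
      · exact h01.mono (le_max_left _ _)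
      · exact good02.mono (le_max_right _ _)
    · refine Good.node (ty := 1) (p := 3) rfl ?_
      intro cs hcs
      have hcs' : cs = [Cell.L 3, Cell.L 3, Cell.L 1, Cell.L 4, Cell.L 4] ∨
          cs = rt 1 0 ∨ cs = rt 1 1 ∨ cs = rt 1 2 := by
        simpa [List.range_succ, mkS, rt] using hcs
      rcases hcs' with rfl | rfl | rfl | rfl
      · exact good1'.mono (le_max_right _ _)
      · exact h10.mono (le_max_left _ _)
      · exact good11.mono (le_max_right _ _)
      · exact good12.mono (le_max_right _ _)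
    · exact good2.mono (le_max_right _ _)
  exact FS_of_good (by omega) key

end Pool.Agent.H.MP_2e666d_lc.T3
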