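import Pool.Agent.H.MP_2e666d_lc.FDef
import Pool.Agent.H.MP_2e666d_lc.Masks

/-! # One generic draw -/

namespace Pool.Agent.H.MP_2e666d_lc

open Pos

variable {τ : Type} {T : Set τ}

theorem FSafe_tsfin (hT : T.Finite) (m : ℕ) :
    {ts : List τ | (∀ t ∈ ts, t ∈ T) ∧ ts.length ≤ m}.Finite := by
  have : Finite T := hT
  have h1 : {l : List T | l.length ≤ m}.Finite := List.finite_length_le T m
  refine (h1.image (fun l => l.map Subtype.val)).subset ?_
  rintro ts ⟨h2, h3⟩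
  refine ⟨ts.attach.map (fun t => (⟨t.1, h2 t.1 t.2⟩ : T)), ?_, ?_⟩
  · simp only [Set.mem_ofPred_eq, List.length_map, List.length_attach]
    exact h3
  · simp only [List.map_map]
    conv_rhs => rw [← List.attach_map_subtype_val ts]
    rfl

/-- one draw with generic numbers keeps finitely many positions non-winning -/
theorem gen_safe (hT : T.Finite) (G : SimpleGraph B) (Φ : List ℕ → ℕ → ℕ → τ)
    (P : Set (Bool × Pos τ)) (hP : P.Finite) (hw : ∀ x ∈ P, ¬ Win T G Φ x.2) (m : ℕ) :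
    Gen (m + 1) (fun J' => ∀ x ∈ P, x.2.mv = x.1 → ¬ x.2.dn x.2.mv →
      ∀ (mk : List Bool) (ts : List τ), mk.length = m → x.2.Ann T ts →
        mk.count true = ts.length →
        ¬ Win T G Φ (x.2.adv ts (sel (mk ++ [true]) J'))) := by
  have hm : {mk : List Bool | mk.length = m}.Finite := List.finite_length_eq Bool m
  have ht := FSafe_tsfin hT m
  have hfin : {y : (Bool × Pos τ) × List Bool × List τ | y.1 ∈ P ∧ y.2.1.length = m ∧
      ((∀ t ∈ y.2.2, t ∈ T) ∧ y.2.2.length ≤ m) ∧ y.1.2.mv = y.1.1 ∧ ¬ y.1.2.dn y.1.2.mv ∧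
      y.1.2.Ann T y.2.2 ∧ y.2.1.count true = y.2.2.length}.Finite := by
    refine (hP.prod (hm.prod ht)).subset ?_
    rintro ⟨x, mk, ts⟩ ⟨h1, h2, h3, _⟩
    exact ⟨h1, h2, h3⟩
  have key := Gen.ball (k := m + 1) _ hfin
    (φ := fun y J' => ¬ Win T G Φ (y.1.2.adv y.2.2 (sel (y.2.1 ++ [true]) J'))) (by
    rintro ⟨x, mk, ts⟩ ⟨h1, h2, _, h4, h5, h6, h7⟩
    simp only at h1 h2 h4 h5 h6 h7 ⊢
    have h8 : ¬ Gen (ts.length + 1) (fun J => Win T G Φ (x.2.adv ts J)) := by
      intro hg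
      exact hw x h1 ((win_iff T G Φ x.2).mpr (Or.inr ⟨h5, ts, h6, hg⟩))
    rw [gen_not] at h8
    have h9 := gen_sel (mk ++ [true]) (φ := fun J => ¬ Win T G Φ (x.2.adv ts J)) (by
      have : (mk ++ [true]).count true = ts.length + 1 := by
        rw [List.count_append, h7]
        simp
      rw [this]
      exact h8)
    have h10 : (mk ++ [true]).length = m + 1 := by simp [h2]
    rw [h10] at h9
    exact h9)
  refine Gen.mono ?_ key
  intro J' hJ x hx a1 a2 mk ts a3 a4 a5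
  exact hJ (x, mk, ts) ⟨hx, a3, ⟨a4.1, by
    simp only
    rw [← a5, ← a3]
    exact List.count_le_length⟩, a1, a2, a4, a5⟩

end Pool.Agent.H.MP_2e666d_lc
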