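import Pool.Agent.H.MP_2e666d_lc.Ultra

/-! # The pair game with announcements

The state of an element is a function assigning to every level the list of the flags of the
pending draws (`none` or a tag). -/

namespace Pool.Agent.H.MP_2e666d_lc

/-- lowest level with a nonempty list -/
noncomputable def levL {α : Type} (s : ℕ → List α) : ℕ := lev (fun g => (s g).length)

/-- the list of flags of the children of a new node: `J = I ++ [n]` gives `n + 1` children,
the children with index in `I` get the tags `ts` -/
def mkF {τ : Type} (ts : List τ) (J : List ℕ) : List (Option τ) :=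
  (List.range (J.getLastD 0 + 1)).map (fun j => (J.zip ts).lookup j)

/-- effect of a draw on a state -/
noncomputable def newS {τ : Type} (s : ℕ → List (Option τ)) (ts : List τ) (J : List ℕ) :
    ℕ → List (Option τ) := fun j =>
  if j = levL s then (s j).tail else if j + 1 = levL s then mkF ts J else s j

/-- positions of the pair game; `false` is the first element, `true` the second one.
`s`: states, `v`: drawn numbers, `W`: letters of the completed blocks, `h`: highest level drawn in
the current block, `facts`: triples (block, level, tag) of the flagged draws, `path`: for every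
level the block and the tag of the flagged draw leading to the current node. -/
structure Pos (τ : Type) where
  s : Bool → ℕ → List (Option τ)
  v : Bool → List ℕ
  W : List ℕ
  h : ℕ
  facts : List (ℕ × ℕ × τ)
  path : Bool → ℕ → Option (ℕ × τ)

namespace Pos

variable {τ : Type}

/-- the element which has the turn: the owner of the current block -/
def mv (p : Pos τ) : Bool := decide (p.W.length % 2 = 1)

/-- the element `u` is complete -/
def dn (p : Pos τ) (u : Bool) : Prop := ∀ g, p.s u g = []

/-- level of the next draw -/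
noncomputable def lv (p : Pos τ) : ℕ := levL (p.s p.mv)

/-- flag of the next draw -/
noncomputable def fl (p : Pos τ) : Option τ := (p.s p.mv p.lv).headD none

open Classical in
/-- the position after a draw; `ts` are the announced tags, the last entry of `J` is the drawn
number -/
noncomputable def adv (p : Pos τ) (ts : List τ) (J : List ℕ) : Pos τ where
  s := Function.update p.s p.mv (newS (p.s p.mv) ts J)
  v := Function.update p.v p.mv (p.v p.mv ++ [J.getLastD 0])
  W := if (∀ j, newS (p.s p.mv) ts J j = []) then p.W ++ [4]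
    else if p.lv = 0 ∧ p.fl ≠ none then p.W ++ [max p.h p.lv] else p.W
  h := if (∀ j, newS (p.s p.mv) ts J j = []) ∨ (p.lv = 0 ∧ p.fl ≠ none) then 0 else max p.h p.lv
  facts := match p.fl with
    | some t => (p.W.length, p.lv, t) :: p.facts
    | none => p.facts
  path := Function.update p.path p.mv (fun j =>
    if j = p.lv then p.fl.map (fun t => (p.W.length, t))
    else if j < p.lv then none else p.path p.mv j)

/-- legal announcements -/
def Ann (T : Set τ) (p : Pos τ) (ts : List τ) : Prop :=
  (∀ t ∈ ts, t ∈ T) ∧ (p.lv = 0 → ts = []) ∧ (p.lv ≠ 0 → (p.fl = none ↔ ts = []))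

/-- winning final positions: the two elements are adjacent and all tags are truthful -/
def Good (G : SimpleGraph B) (Φ : List ℕ → ℕ → ℕ → τ) (p : Pos τ) : Prop :=
  (∃ x y : B, x.1 = p.v false ∧ y.1 = p.v true ∧ G.Adj x y) ∧
    ∀ f ∈ p.facts, f.2.2 = Φ p.W f.1 f.2.1

/-- initial position -/
def start (φ1 φ2 : Option τ) : Pos τ where
  s := fun u g => if g = 3 then [if u then φ2 else φ1] else []
  v := fun _ => []
  W := []
  h := 0
  facts := []
  path := fun _ _ => none

/-- the operator defining `Win` -/
noncomputable def winOp (T : Set τ) (G : SimpleGraph B) (Φ : List ℕ → ℕ → ℕ → τ) :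
    (Pos τ → Prop) →o (Pos τ → Prop) where
  toFun X p := (p.dn p.mv ∧ p.dn (!p.mv) ∧ p.Good G Φ) ∨
    (¬ p.dn p.mv ∧ ∃ ts, p.Ann T ts ∧ Gen (ts.length + 1) (fun J => X (p.adv ts J)))
  monotone' := by
    intro X Y hXY p h
    rcases h with h | ⟨h1, ts, h2, h3⟩
    · exact Or.inl h
    · exact Or.inr ⟨h1, ts, h2, Gen.mono (fun J hJ => hXY _ hJ) h3⟩

/-- the pair finder wins -/
noncomputable def Win (T : Set τ) (G : SimpleGraph B) (Φ : List ℕ → ℕ → ℕ → τ) : Pos τ → Prop :=
  OrderHom.lfp (winOp T G Φ)

theorem win_iff (T : Set τ) (G : SimpleGraph B) (Φ : List ℕ → ℕ → ℕ → τ) (p : Pos τ) :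
    Win T G Φ p ↔ (p.dn p.mv ∧ p.dn (!p.mv) ∧ p.Good G Φ) ∨
    (¬ p.dn p.mv ∧ ∃ ts, p.Ann T ts ∧ Gen (ts.length + 1) (fun J => Win T G Φ (p.adv ts J))) := by
  have h := congrFun (OrderHom.map_lfp (winOp T G Φ)) p
  exact Iff.of_eq h.symm

theorem win_induction (T : Set τ) (G : SimpleGraph B) (Φ : List ℕ → ℕ → ℕ → τ)
    (X : Pos τ → Prop)
    (h1 : ∀ p : Pos τ, p.dn p.mv → p.dn (!p.mv) → p.Good G Φ → X p)
    (h2 : ∀ (p : Pos τ) (ts : List τ), ¬ p.dn p.mv → p.Ann T ts →
      Gen (ts.length + 1) (fun J => X (p.adv ts J)) → X p) :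
    ∀ p, Win T G Φ p → X p := by
  have h : Win T G Φ ≤ X := by
    apply OrderHom.lfp_le
    intro p hp
    rcases hp with ⟨a, b, c⟩ | ⟨a, ts, b, c⟩
    · exact h1 p a b c
    · exact h2 p ts a b c
  exact h

end Pos

end Pool.Agent.H.MP_2e666d_lc
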