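import Pool.Agent.H.MP_2e666d_lc.HS4

/-! # Half signatures: compressed certificates

The set of slots of a node is given by the list of its elements, packed in one number. -/

namespace Pool.Agent.H.MP_2e666d_lc.HS

open Pool.Agent.H.MP_2e666d_lc Pool.Agent.H.MP_2e666d_lc.T3

/-- the set of slots coded by `P` (elements + 1 in base `65536`) -/
def mkS : ℕ → ℕ → ℕ
  | 0, _ => 0
  | f + 1, P => bif Nat.beq P 0 then 0 else (1 <<< (P % 65536 - 1)) ||| mkS f (P / 65536)

/-- all elements coded by `P` are in the set `S` -/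
def allS (S : ℕ) : ℕ → ℕ → Bool
  | 0, _ => true
  | f + 1, P => bif Nat.beq P 0 then true else
      Nat.beq ((S >>> (P % 65536 - 1)) % 2) 1 && allS S f (P / 65536)

/-- the transitions of a node -/
def chkE' (Ms : List (List (ℕ × ℕ))) (B : BT) (S : ℕ) : List (ℕ × ℕ) → ℕ → Bool
  | [], _ => true
  | (a, s) :: l, T =>
      Nat.beq (B.get (T % 65536) % 256) s &&
        allS (stepL (nthM Ms a) S) 128 (B.get (T % 65536) / 256) &&
        chkE' Ms B S l (T / 65536)

/-- one node; `fin S T` is the final condition -/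
def chkN' (Ms : List (List (ℕ × ℕ))) (tab : List RSt) (fin : ℕ → ℕ → Bool) (B : BT) (N T : ℕ) :
    Bool :=
  Nat.blt (N % 256) tab.length &&
    (bif cvNull (nthR tab (N % 256)).2.1 then fin (mkS 128 (N / 256)) T else true) &&
    chkE' Ms B (mkS 128 (N / 256)) (nthR tab (N % 256)).2.2 T

/-- all nodes -/
def chkT' (Ms : List (List (ℕ × ℕ))) (tab : List RSt) (fin : ℕ → ℕ → Bool) (B : BT) : BT → Bool
  | BT.leaf N T => chkN' Ms tab fin B N T
  | BT.node a b => chkT' Ms tab fin B a && chkT' Ms tab fin B b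

theorem allS_sub {S f P : ℕ} (h : allS S f P = true) {y : ℕ}
    (hy : (mkS f P).testBit y = true) : S.testBit y = true := by
  induction f generalizing P with
  | zero => simp [mkS] at hy
  | succ f ih =>
    simp only [mkS] at hy
    simp only [allS] at h
    cases hP : Nat.beq P 0 with
    | true => rw [hP] at hy; simp at hy
    | false =>
      rw [hP] at hy h
      simp only [cond_false, Bool.and_eq_true] at h hy
      rw [Nat.testBit_or, Bool.or_eq_true] at hy
      rcases hy with hy | hy
      · rw [Nat.one_shiftLeft, Nat.testBit_two_pow] at hy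
        have hy' : P % 65536 - 1 = y := by simpa using hy
        have h1 := Nat.eq_of_beq_eq_true h.1
        rw [hy', Nat.shiftRight_eq_div_pow] at h1
        rw [Nat.testBit_eq_decide_div_mod_eq, h1]
        rfl
      · exact ih h.2 hy

theorem good_all {D : List ℕ} {its : List It} {m S f P : ℕ} (h : Good D its m S)
    (hs : allS S f P = true) : Good D its m (mkS f P) :=
  fun y hy hsem => h y (allS_sub hs hy) hsem

theorem hc4_get {Ms : List (List (ℕ × ℕ))} {tab : List RSt} {fin : ℕ → ℕ → Bool} {B B0 : BT}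
    (h : chkT' Ms tab fin B B0 = true) (n : ℕ) : ∃ T, chkN' Ms tab fin B (B0.get n) T = true := by
  induction B0 generalizing n with
  | leaf N T => exact ⟨T, h⟩
  | node a b iha ihb =>
    rw [chkT', Bool.and_eq_true] at h
    simp only [BT.get]
    cases Nat.beq (n % 2) 0 with
    | true => exact iha h.1 _
    | false => exact ihb h.2 _

theorem hc4_chkE {Ms : List (List (ℕ × ℕ))} {B : BT} {S : ℕ} {l : List (ℕ × ℕ)} {T : ℕ}
    (h : chkE' Ms B S l T = true) {p : ℕ × ℕ} (hp : p ∈ l) :
    ∃ t, B.get t % 256 = p.2 ∧ allS (stepL (nthM Ms p.1) S) 128 (B.get t / 256) = true := by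
  induction l generalizing T with
  | nil => simp at hp
  | cons x l ih =>
    obtain ⟨a, s⟩ := x
    rw [chkE', Bool.and_eq_true, Bool.and_eq_true] at h
    obtain ⟨⟨h1, h2⟩, h3⟩ := h
    rcases List.mem_cons.1 hp with rfl | hp
    · exact ⟨T % 65536, Nat.eq_of_beq_eq_true h1, h2⟩
    · exact ih h3 hp

theorem hc4_main {its : List It} {Ms : List (List (ℕ × ℕ))} {tab : List RSt}
    {fin : ℕ → ℕ → Bool} {B : BT} {D : List ℕ}
    (hM : chkMs its 0 Ms = true) (hR : chkR tab = true) (hT : chkT' Ms tab fin B B = true)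
    (V : List ℕ) : ∀ (U : List ℕ) (n : ℕ), D = U ++ V →
    Inst (nthR tab (B.get n % 256)).1 (nthR tab (B.get n % 256)).2.1 V →
    Good D its U.length (mkS 128 (B.get n / 256)) →
    ∃ S T, Good D its D.length S ∧ fin S T = true := by
  induction V with
  | nil =>
    intro U n hD hi hg
    obtain ⟨T, hN⟩ := hc4_get hT n
    rw [chkN', Bool.and_eq_true, Bool.and_eq_true] at hN
    obtain ⟨⟨-, h2⟩, -⟩ := hN
    rw [cover_null hi, cond_true] at h2
    refine ⟨_, T, ?_, h2⟩
    have : D.length = U.length := by rw [hD]; simp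
    rw [this]
    exact hg
  | cons a V ih =>
    intro U n hD hi hg
    obtain ⟨T, hN⟩ := hc4_get hT n
    rw [chkN', Bool.and_eq_true, Bool.and_eq_true] at hN
    obtain ⟨⟨h1, -⟩, h3⟩ := hN
    have h1' : B.get n % 256 < tab.length := by
      have := h1
      rw [Nat.blt_eq] at this
      exact this
    have hs := hs4_nthR h1'
    rw [chkR, List.all_eq_true] at hR
    have hs' := hR _ hs
    rw [Bool.and_eq_true, decide_eq_true_eq, List.all_eq_true] at hs'
    obtain ⟨h4, h5⟩ := hs'
    obtain ⟨r, hr, hi'⟩ := cover_tr hi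
    rw [h4, List.mem_map] at hr
    obtain ⟨p, hp, hpr⟩ := hr
    rw [Prod.mk.injEq] at hpr
    obtain ⟨rfl, rfl⟩ := hpr
    have h6 := h5 p hp
    rw [Bool.and_eq_true, beq_iff_eq] at h6
    obtain ⟨t, ht1, ht2⟩ := hc4_chkE h3 hp
    have hm : U.length < D.length := by rw [hD]; simp
    have hl : D.getD U.length 0 = p.1 := by rw [hD]; simp
    refine ih (U ++ [p.1]) t (by rw [hD]; simp) ?_ ?_
    · rw [ht1, h6.2]
      exact hi'
    · rw [List.length_append, List.length_singleton]
      exact good_all (good_step hM hm hl hg) ht2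

/-- soundness of the compressed certificates -/
theorem cert_sound' {its : List It} {Ms : List (List (ℕ × ℕ))} {tab : List RSt}
    {fin : ℕ → ℕ → Bool} {B : BT} {root : List Cell} {D : List ℕ}
    (hM : chkMs its 0 Ms = true) (hR : chkR tab = true) (hT : chkT' Ms tab fin B B = true)
    (h1 : (nthR tab 0).1 = false) (h2 : (nthR tab 0).2.1 = root) (h3 : B.get 0 % 256 = 0)
    (h4 : chkStart true its (mkS 128 (B.get 0 / 256)) = true) (hD : Inst false root D) :
    ∃ S T, Good D its D.length S ∧ fin S T = true := by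
  refine hc4_main hM hR hT D [] 0 rfl ?_ ?_
  · rw [h3, h1, h2]
    exact hD
  · exact good_start h4

end Pool.Agent.H.MP_2e666d_lc.HS
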