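import Pool.Agent.H.MP_2e666d_lc.HC4

/-! # Half signatures: fast versions of the checkers -/

namespace Pool.Agent.H.MP_2e666d_lc.HS

open Pool.Agent.H.MP_2e666d_lc Pool.Agent.H.MP_2e666d_lc.T3

/-- the masks applied to `S`, not yet shifted back -/
noncomputable def stepF0 (S : ℕ) (ms : List (ℕ × ℕ)) : ℕ :=
  List.rec (motive := fun _ => ℕ) 0
    (fun p _ ih => Nat.lor (Nat.shiftLeft (Nat.land S p.2) p.1) ih) ms

noncomputable def stepF (ms : List (ℕ × ℕ)) (S : ℕ) : ℕ := Nat.shiftRight (stepF0 S ms) 8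

theorem stepF_eq (ms : List (ℕ × ℕ)) (S : ℕ) : stepF ms S = stepL ms S := by
  have h : ∀ ms : List (ℕ × ℕ), stepF0 S ms >>> 8 = stepL ms S := by
    intro ms
    induction ms with
    | nil => exact Nat.zero_shiftRight 8
    | cons p ms ih =>
      have h1 : stepF0 S (p :: ms) = ((S &&& p.2) <<< p.1) ||| stepF0 S ms := rfl
      rw [h1, Nat.shiftRight_or_distrib, ih]
      rfl
  exact h ms

noncomputable def mkF (f : ℕ) : ℕ → ℕ :=
  Nat.rec (motive := fun _ => ℕ → ℕ) (fun _ => 0)
    (fun _ ih P => Bool.rec (Nat.lor (Nat.shiftLeft 1 (Nat.sub (Nat.mod P 65536) 1))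
      (ih (Nat.div P 65536))) 0 (Nat.beq P 0)) f

theorem mkF_eq (f P : ℕ) : mkF f P = mkS f P := by
  induction f generalizing P with
  | zero => rfl
  | succ f ih =>
    have h1 : mkF (f + 1) P = Bool.rec (motive := fun _ => ℕ) (Nat.lor (Nat.shiftLeft 1 (Nat.sub (Nat.mod P 65536) 1))
      (mkF f (Nat.div P 65536))) 0 (Nat.beq P 0) := rfl
    rw [h1, mkS]
    cases Nat.beq P 0 with
    | true => rfl
    | false =>
      rw [ih]
      rfl

noncomputable def allF (S f : ℕ) : ℕ → Bool :=
  Nat.rec (motive := fun _ => ℕ → Bool) (fun _ => true)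
    (fun _ ih P => Bool.rec (Bool.rec false (ih (Nat.div P 65536))
      (Nat.beq (Nat.mod (Nat.shiftRight S (Nat.sub (Nat.mod P 65536) 1)) 2) 1)) true
      (Nat.beq P 0)) f

theorem allF_eq (S f P : ℕ) : allF S f P = allS S f P := by
  induction f generalizing P with
  | zero => rfl
  | succ f ih =>
    have h1 : allF S (f + 1) P = Bool.rec (motive := fun _ => Bool) (Bool.rec (motive := fun _ => Bool) false (allF S f (Nat.div P 65536))
      (Nat.beq (Nat.mod (Nat.shiftRight S (Nat.sub (Nat.mod P 65536) 1)) 2) 1)) true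
      (Nat.beq P 0) := rfl
    rw [h1, allS]
    cases Nat.beq P 0 with
    | true => rfl
    | false =>
      rw [ih]
      show Bool.rec (motive := fun _ => Bool) false (allS S f (P / 65536))
        (Nat.beq (S >>> (P % 65536 - 1) % 2) 1) = _
      cases Nat.beq (S >>> (P % 65536 - 1) % 2) 1 with
      | true => simp
      | false => simp

noncomputable def BT.getF (B : BT) : ℕ → ℕ :=
  BT.rec (motive := fun _ => ℕ → ℕ) (fun N _ _ => N)
    (fun _ _ ia ib n => Bool.rec (ib (Nat.div n 2)) (ia (Nat.div n 2)) (Nat.beq (Nat.mod n 2) 0)) B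

theorem BT.getF_eq (B : BT) (n : ℕ) : B.getF n = B.get n := by
  induction B generalizing n with
  | leaf N T => rfl
  | node a b iha ihb =>
    have h1 : (BT.node a b).getF n = Bool.rec (motive := fun _ => ℕ) (b.getF (Nat.div n 2)) (a.getF (Nat.div n 2))
      (Nat.beq (Nat.mod n 2) 0) := rfl
    rw [h1, BT.get, iha, ihb]
    show Bool.rec (motive := fun _ => ℕ) (b.get (n / 2)) (a.get (n / 2)) (Nat.beq (n % 2) 0) = _
    cases Nat.beq (n % 2) 0 <;> rfl

noncomputable def nthMF (Ms : List (List (ℕ × ℕ))) : ℕ → List (ℕ × ℕ) :=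
  List.rec (motive := fun _ => ℕ → List (ℕ × ℕ)) (fun _ => [])
    (fun m _ ih n => Nat.rec (motive := fun _ => List (ℕ × ℕ)) m (fun k _ => ih k) n) Ms

theorem nthMF_eq (Ms : List (List (ℕ × ℕ))) (n : ℕ) : nthMF Ms n = nthM Ms n := by
  induction Ms generalizing n with
  | nil => rfl
  | cons m Ms ih =>
    cases n with
    | zero => rfl
    | succ n => exact ih n

noncomputable def nthRF (Ms : List RSt) : ℕ → RSt :=
  List.rec (motive := fun _ => ℕ → RSt) (fun _ => (false, [], []))
    (fun m _ ih n => Nat.rec (motive := fun _ => RSt) m (fun k _ => ih k) n) Ms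

theorem nthRF_eq (Ms : List RSt) (n : ℕ) : nthRF Ms n = nthR Ms n := by
  induction Ms generalizing n with
  | nil => rfl
  | cons m Ms ih =>
    cases n with
    | zero => rfl
    | succ n => exact ih n

/-- the transition to a node with the number `N` -/
noncomputable def edgeF (Ms : List (List (ℕ × ℕ))) (S a s N : ℕ) : Bool :=
  Bool.rec false (allF (stepF (nthMF Ms a) S) 128 (Nat.div N 256)) (Nat.beq (Nat.mod N 256) s)

noncomputable def chkEF (Ms : List (List (ℕ × ℕ))) (B : BT) (S : ℕ) (l : List (ℕ × ℕ)) :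
    ℕ → Bool :=
  List.rec (motive := fun _ => ℕ → Bool) (fun _ => true)
    (fun p _ ih T => Bool.rec false (ih (Nat.div T 65536))
      (edgeF Ms S p.1 p.2 (B.getF (Nat.mod T 65536)))) l

theorem chkEF_imp {Ms : List (List (ℕ × ℕ))} {B : BT} {S : ℕ} {l : List (ℕ × ℕ)} {T : ℕ}
    (h : chkEF Ms B S l T = true) : chkE' Ms B S l T = true := by
  induction l generalizing T with
  | nil => rfl
  | cons p l ih =>
    obtain ⟨a, s⟩ := p
    have h1 : chkEF Ms B S ((a, s) :: l) T = Bool.rec (motive := fun _ => Bool) false (chkEF Ms B S l (Nat.div T 65536))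
      (edgeF Ms S a s (B.getF (Nat.mod T 65536))) := rfl
    rw [h1] at h
    cases h2 : edgeF Ms S a s (B.getF (Nat.mod T 65536)) with
    | false => rw [h2] at h; exact absurd h (by simp)
    | true =>
      rw [h2] at h
      have h3 := ih h
      unfold edgeF at h2
      rw [BT.getF_eq] at h2
      cases h4 : Nat.beq (Nat.mod (B.get (Nat.mod T 65536)) 256) s with
      | false => rw [h4] at h2; exact absurd h2 (by simp)
      | true =>
        rw [h4] at h2
        have h5 : allF (stepF (nthMF Ms a) S) 128 (Nat.div (B.get (Nat.mod T 65536)) 256) = true :=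
          h2
        rw [allF_eq, stepF_eq, nthMF_eq] at h5
        rw [chkE', Bool.and_eq_true, Bool.and_eq_true]
        exact ⟨⟨h4, h5⟩, h3⟩

noncomputable def chkNF (Ms : List (List (ℕ × ℕ))) (tab : List RSt) (fin : ℕ → ℕ → Bool) (B : BT)
    (N T : ℕ) : Bool :=
  Bool.rec false (Bool.rec false
    (chkEF Ms B (mkF 128 (Nat.div N 256)) (nthRF tab (Nat.mod N 256)).2.2 T)
    (Bool.rec true (fin (mkF 128 (Nat.div N 256)) T)
      (cvNull (nthRF tab (Nat.mod N 256)).2.1))) (Nat.blt (Nat.mod N 256) tab.length)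

theorem chkNF_imp {Ms : List (List (ℕ × ℕ))} {tab : List RSt} {fin : ℕ → ℕ → Bool} {B : BT}
    {N T : ℕ} (h : chkNF Ms tab fin B N T = true) : chkN' Ms tab fin B N T = true := by
  unfold chkNF at h
  rw [mkF_eq, nthRF_eq] at h
  cases h1 : Nat.blt (Nat.mod N 256) tab.length with
  | false => rw [h1] at h; exact absurd h (by simp)
  | true =>
    rw [h1] at h
    cases h2 : (Bool.rec (motive := fun _ => Bool) true (fin (mkS 128 (Nat.div N 256)) T)
      (cvNull (nthR tab (Nat.mod N 256)).2.1)) with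
    | false =>
      have h3 : (Bool.rec (motive := fun _ => Bool) false (chkEF Ms B (mkS 128 (Nat.div N 256))
        (nthR tab (Nat.mod N 256)).2.2 T) (Bool.rec (motive := fun _ => Bool) true
          (fin (mkS 128 (Nat.div N 256)) T)
          (cvNull (nthR tab (Nat.mod N 256)).2.1))) = true := h
      rw [h2] at h3
      exact absurd h3 (by simp)
    | true =>
      have h3 : (Bool.rec (motive := fun _ => Bool) false (chkEF Ms B (mkS 128 (Nat.div N 256))
        (nthR tab (Nat.mod N 256)).2.2 T) (Bool.rec (motive := fun _ => Bool) true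
          (fin (mkS 128 (Nat.div N 256)) T)
          (cvNull (nthR tab (Nat.mod N 256)).2.1))) = true := h
      rw [h2] at h3
      rw [chkN', Bool.and_eq_true, Bool.and_eq_true]
      refine ⟨⟨h1, ?_⟩, chkEF_imp h3⟩
      show (bif cvNull (nthR tab (Nat.mod N 256)).2.1 then fin (mkS 128 (Nat.div N 256)) T
        else true) = true
      cases h4 : cvNull (nthR tab (Nat.mod N 256)).2.1 with
      | false => rfl
      | true =>
        rw [h4] at h2
        exact h2

noncomputable def chkTF (Ms : List (List (ℕ × ℕ))) (tab : List RSt) (fin : ℕ → ℕ → Bool) (B : BT)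
    (B0 : BT) : Bool :=
  BT.rec (motive := fun _ => Bool) (fun N T => chkNF Ms tab fin B N T)
    (fun _ _ ia ib => Bool.rec false ib ia) B0

theorem chkTF_imp {Ms : List (List (ℕ × ℕ))} {tab : List RSt} {fin : ℕ → ℕ → Bool} {B B0 : BT}
    (h : chkTF Ms tab fin B B0 = true) : chkT' Ms tab fin B B0 = true := by
  induction B0 with
  | leaf N T => exact chkNF_imp h
  | node a b iha ihb =>
    have h1 : chkTF Ms tab fin B (BT.node a b) = Bool.rec (motive := fun _ => Bool) false (chkTF Ms tab fin B b)
      (chkTF Ms tab fin B a) := rfl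
    rw [h1] at h
    cases h2 : chkTF Ms tab fin B a with
    | false => rw [h2] at h; exact absurd h (by simp)
    | true =>
      rw [h2] at h
      rw [chkT', Bool.and_eq_true]
      exact ⟨iha h2, ihb h⟩

end Pool.Agent.H.MP_2e666d_lc.HS
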