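import Pool.Agent.H.MP_2e666d_lc.HSM

/-! # Half signatures: the byte of the legal slots of an item -/

namespace Pool.Agent.H.MP_2e666d_lc.HS

open Pool.Agent.H.MP_2e666d_lc Pool.Agent.H.MP_2e666d_lc.T3

noncomputable def iteN (b : Bool) (x y : ℕ) : ℕ := Bool.rec (motive := fun _ => ℕ) y x b

theorem iteN_eq (b : Bool) (x y : ℕ) : iteN b x y = if b = true then x else y := by
  cases b <;> rfl

/-- number of the mark of an item `F`, 99 for the other items -/
noncomputable def It.ekT (a : It) : ℕ :=
  It.rec (motive := fun _ => ℕ) (fun _ => 99) (fun _ _ _ _ _ _ => 99) (fun _ => 99)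
    (fun _ _ _ => 99) (fun k => k) (fun _ => 99) 99 99 a

theorem entry_ekT (b : It) {l : ℕ} (hl : l < 13) : b.entry l = if l = b.ekT then 1 else 0 := by
  cases b <;> first | rfl | exact (if_neg (by show l ≠ 99; omega)).symm

/-- the slots with an exit -/
noncomputable def exF (e l k : ℕ) : ℕ := Nat.shiftRight (iteN (Nat.beq l e) 131072 65536) k

/-- the item `A` -/
noncomputable def bfA (o : Bool) (bw bu : ℕ) (rw ru : Bool) (m e l v k : ℕ) : ℕ :=
  Nat.lor
    (iteN (Nat.beq k 9) (iteN (Nat.ble v bw) (iteN (andB rw (Nat.ble bw v)) 68 85) 0)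
      (iteN (Nat.beq k 7) (iteN (Nat.ble v bu) (iteN (andB ru (Nat.ble bu v)) 160 170) 0)
        (iteN (Nat.beq k 11) (Nat.lor (iteN (andB (Nat.ble v bw) (andB rw (Nat.ble bw v))) 17 0)
          (iteN (andB (Nat.ble v bu) (andB ru (Nat.ble bu v))) 10 0)) 0)))
    (iteN (Nat.beq (Nat.mod (Nat.shiftRight m l) 2) 1)
      (Nat.land (exF e l k)
        (Nat.land (iteN o 85 170) (Nat.land (iteN rw 204 255) (iteN ru 240 255)))) 0)

/-- the legal slots of the item `a` for the letter `l` and the shift `k - 8`, if the next item has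
the kind `e` -/
noncomputable def bfT (a : It) (e l k : ℕ) : ℕ :=
  It.rec (motive := fun _ => ℕ)
    (fun m => iteN (Nat.beq (Nat.mod (Nat.shiftRight m l) 2) 1) (Nat.land (exF e l k) 1) 0)
    (fun o bw bu rw ru m => bfA o bw bu rw ru m e l (iteN (Nat.ble 5 l) 2 l) k)
    (fun k' => iteN (Nat.beq l k') (Nat.land (exF e l k) 1) (iteN (Nat.beq k 8) 1 0))
    (fun k' d m =>
      Nat.lor (iteN (Nat.beq l k') (iteN (Nat.beq k 9) 6 (iteN (Nat.beq k 7) 8
        (iteN (Nat.beq k 11) 1 0)))
        (iteN (Nat.beq k 9) 5 (iteN (Nat.beq k 7) 10 0)))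
      (iteN (Nat.beq (Nat.mod (Nat.shiftRight m l) 2) 1)
        (Nat.land (exF e l k) (Nat.land (iteN d 10 5) (iteN (Nat.beq l k') 15 12))) 0))
    (fun k' => iteN (Nat.beq k 8) (iteN (Nat.beq l k') 2 3)
      (iteN (Nat.beq k 9) (iteN (Nat.beq l k') 1 0) 0))
    (fun k' => iteN (Nat.beq k 8) 2 (iteN (Nat.beq k 9) (iteN (Nat.beq l k') 1 0) 0))
    (iteN (Nat.beq k 8) 1 0)
    0 a

theorem bit_mod {m l : ℕ} (h : Nat.beq (Nat.mod (Nat.shiftRight m l) 2) 1 = true) :
    m.testBit l = true := by
  have h1 : (m >>> l) % 2 = 1 := Nat.eq_of_beq_eq_true h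
  rw [Nat.shiftRight_eq_div_pow] at h1
  rw [Nat.testBit_eq_decide_div_mod_eq, h1]
  rfl

theorem exF_bit {e l k x : ℕ} (h : (exF e l k).testBit x = true) :
    16 + (if l = e then 1 else 0) = x + k := by
  have h' : ((iteN (Nat.beq l e) 131072 65536) >>> k).testBit x = true := h
  rw [Nat.testBit_shiftRight, iteN_eq] at h'
  by_cases hle : l = e
  · rw [if_pos hle]
    have : Nat.beq l e = true := by rw [hle]; exact Nat.beq_refl e
    rw [if_pos this, show 131072 = 2 ^ 17 by norm_num, Nat.testBit_two_pow,
      decide_eq_true_eq] at h'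
    omega
  · rw [if_neg hle]
    have : ¬ Nat.beq l e = true := fun hc => hle (Nat.eq_of_beq_eq_true hc)
    rw [if_neg this, show 65536 = 2 ^ 16 by norm_num, Nat.testBit_two_pow,
      decide_eq_true_eq] at h'
    omega

theorem land_bit {a b x : ℕ} (h : (Nat.land a b).testBit x = true) :
    a.testBit x = true ∧ b.testBit x = true := by
  have h' : (a &&& b).testBit x = true := h
  rwa [Nat.testBit_and, Bool.and_eq_true] at h'

theorem lor_bit {a b x : ℕ} (h : (Nat.lor a b).testBit x = true) :
    a.testBit x = true ∨ b.testBit x = true := by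
  have h' : (a ||| b).testBit x = true := h
  rwa [Nat.testBit_or, Bool.or_eq_true] at h'

theorem iteN_bit {b : Bool} {y z x : ℕ} (h : (iteN b y z).testBit x = true) :
    (b = true ∧ y.testBit x = true) ∨ (b = false ∧ z.testBit x = true) := by
  cases b
  · exact Or.inr ⟨rfl, h⟩
  · exact Or.inl ⟨rfl, h⟩

theorem zero_bit {x : ℕ} (h : (0 : ℕ).testBit x = true) : False := by
  simp at h

theorem andB_ff {a b : Bool} (h : andB a b = false) : ¬ (a = true ∧ b = true) := by
  rintro ⟨rfl, rfl⟩
  exact absurd (show true = false from h) (by decide)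

theorem ble_f {a b : ℕ} (h : Nat.ble a b = false) : ¬ a ≤ b := by
  intro hc
  rw [← Nat.ble_eq, h] at hc
  exact absurd hc (by decide)

theorem tb1 : ∀ x < 8, (1 : ℕ).testBit x = true → x = 0 := by decide
theorem tb2 : ∀ x < 8, (2 : ℕ).testBit x = true → x = 1 := by decide
theorem tb3 : ∀ x < 8, (3 : ℕ).testBit x = true → x = 0 ∨ x = 1 := by decide
theorem tb5 : ∀ x < 8, (5 : ℕ).testBit x = true → x = 0 ∨ x = 2 := by decide
theorem tb6 : ∀ x < 8, (6 : ℕ).testBit x = true → x = 1 ∨ x = 2 := by decide
theorem tb8 : ∀ x < 8, (8 : ℕ).testBit x = true → x = 3 := by decide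
theorem tb10 : ∀ x < 8, (10 : ℕ).testBit x = true → x = 1 ∨ x = 3 := by decide
theorem tb12 : ∀ x < 8, (12 : ℕ).testBit x = true → 2 ≤ x := by decide
theorem tb17 : ∀ x < 8, (17 : ℕ).testBit x = true → x = 0 ∨ x = 4 := by decide
theorem tb68 : ∀ x < 8, (68 : ℕ).testBit x = true → x = 2 ∨ x = 6 := by decide
theorem tb85 : ∀ x < 8, (85 : ℕ).testBit x = true → x % 2 = 0 := by decide
theorem tb160 : ∀ x < 8, (160 : ℕ).testBit x = true → x = 5 ∨ x = 7 := by decide
theorem tb170 : ∀ x < 8, (170 : ℕ).testBit x = true → x % 2 = 1 := by decide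
theorem tb204 : ∀ x < 8, (204 : ℕ).testBit x = true → x.testBit 1 = true := by decide
theorem tb240 : ∀ x < 8, (240 : ℕ).testBit x = true → x.testBit 2 = true := by decide

/-- the two inner parts of the item `A` -/
theorem bfA_in {bw bu : ℕ} {rw ru : Bool} {v k x : ℕ} (hx : x < 8)
    (h : (iteN (Nat.beq k 9) (iteN (Nat.ble v bw) (iteN (andB rw (Nat.ble bw v)) 68 85) 0)
      (iteN (Nat.beq k 7) (iteN (Nat.ble v bu) (iteN (andB ru (Nat.ble bu v)) 160 170) 0)
        (iteN (Nat.beq k 11) (Nat.lor (iteN (andB (Nat.ble v bw) (andB rw (Nat.ble bw v))) 17 0)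
          (iteN (andB (Nat.ble v bu) (andB ru (Nat.ble bu v))) 10 0)) 0))).testBit x = true) :
    (x % 2 = 0 ∧ v ≤ bw ∧
      x + k = 8 + (if rw = true ∧ bw ≤ v ∧ x.testBit 1 = false then x + 3 else x + 1)) ∨
    (x % 2 ≠ 0 ∧ v ≤ bu ∧
      x + k = 8 + (if ru = true ∧ bu ≤ v ∧ x.testBit 2 = false then x + 3 else x - 1)) := by
  replace h := iteN_bit h
  rcases h with ⟨hk, h⟩ | ⟨-, h⟩
  · have hk := Nat.eq_of_beq_eq_true hk
    subst hk
    replace h := iteN_bit h
    rcases h with ⟨hv, h⟩ | ⟨-, h⟩
    · have hv := Nat.le_of_ble_eq_true hv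
      left
      replace h := iteN_bit h
      rcases h with ⟨hr, h⟩ | ⟨hr, h⟩
      · obtain ⟨h1, h2⟩ := andB_eq hr
        have h2 := Nat.le_of_ble_eq_true h2
        have : x = 2 ∨ x = 6 := tb68 x hx h
        rcases this with rfl | rfl
        · exact ⟨rfl, hv, by rw [if_neg (by rintro ⟨-, -, h3⟩; exact absurd h3 (by decide))]⟩
        · exact ⟨rfl, hv, by rw [if_neg (by rintro ⟨-, -, h3⟩; exact absurd h3 (by decide))]⟩
      · have hn := andB_ff hr
        have he : x % 2 = 0 := tb85 x hx h
        refine ⟨he, hv, ?_⟩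
        rw [if_neg]
        · omega
        · rintro ⟨h1, h2, -⟩
          exact hn ⟨h1, by rw [Nat.ble_eq]; exact h2⟩
    · exact (zero_bit h).elim
  · replace h := iteN_bit h
    rcases h with ⟨hk, h⟩ | ⟨-, h⟩
    · have hk := Nat.eq_of_beq_eq_true hk
      subst hk
      replace h := iteN_bit h
      rcases h with ⟨hv, h⟩ | ⟨-, h⟩
      · have hv := Nat.le_of_ble_eq_true hv
        right
        replace h := iteN_bit h
        rcases h with ⟨hr, h⟩ | ⟨hr, h⟩
        · have : x = 5 ∨ x = 7 := tb160 x hx h
          rcases this with rfl | rfl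
          · exact ⟨by decide, hv,
              by rw [if_neg (by rintro ⟨-, -, h3⟩; exact absurd h3 (by decide))]⟩
          · exact ⟨by decide, hv,
              by rw [if_neg (by rintro ⟨-, -, h3⟩; exact absurd h3 (by decide))]⟩
        · have hn := andB_ff hr
          have he : x % 2 = 1 := tb170 x hx h
          refine ⟨by omega, hv, ?_⟩
          rw [if_neg]
          · omega
          · rintro ⟨h1, h2, -⟩
            exact hn ⟨h1, by rw [Nat.ble_eq]; exact h2⟩
      · exact (zero_bit h).elim
    · replace h := iteN_bit h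
      rcases h with ⟨hk, h⟩ | ⟨-, h⟩
      · have hk := Nat.eq_of_beq_eq_true hk
        subst hk
        replace h := lor_bit h
        rcases h with h | h
        · replace h := iteN_bit h
          rcases h with ⟨hr, h⟩ | ⟨-, h⟩
          · obtain ⟨h1, h2⟩ := andB_eq hr
            obtain ⟨h2, h3⟩ := andB_eq h2
            have h1 := Nat.le_of_ble_eq_true h1
            have h3 := Nat.le_of_ble_eq_true h3
            left
            have : x = 0 ∨ x = 4 := tb17 x hx h
            rcases this with rfl | rfl
            · exact ⟨rfl, h1, by rw [if_pos ⟨h2, h3, by decide⟩]⟩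
            · exact ⟨rfl, h1, by rw [if_pos ⟨h2, h3, by decide⟩]⟩
          · exact (zero_bit h).elim
        · replace h := iteN_bit h
          rcases h with ⟨hr, h⟩ | ⟨-, h⟩
          · obtain ⟨h1, h2⟩ := andB_eq hr
            obtain ⟨h2, h3⟩ := andB_eq h2
            have h1 := Nat.le_of_ble_eq_true h1
            have h3 := Nat.le_of_ble_eq_true h3
            right
            have : x = 1 ∨ x = 3 := tb10 x hx h
            rcases this with rfl | rfl
            · exact ⟨by decide, h1, by rw [if_pos ⟨h2, h3, by decide⟩]⟩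
            · exact ⟨by decide, h1, by rw [if_pos ⟨h2, h3, by decide⟩]⟩
          · exact (zero_bit h).elim
      · exact (zero_bit h).elim

theorem vl_iteN (l : ℕ) : iteN (Nat.ble 5 l) 2 l = vl l := by
  rw [iteN_eq, vl]
  simp only [Nat.ble_eq]

theorem bfT_sound {a b : It} {l k x : ℕ} (hl : l < 13) (hx : x < 8)
    (h : (bfT a b.ekT l k).testBit x = true) : 8 ≤ x + k ∧ x + k - 8 ∈ tr a b l x := by
  have hent := entry_ekT b hl
  have hex : ∀ {z : ℕ}, (exF b.ekT l k).testBit z = true → 8 ≤ z + k ∧ z + k - 8 = 8 + b.entry l := by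
    intro z hz
    have := exF_bit hz
    rw [← hent] at this
    omega
  cases a with
  | H m =>
    replace h := iteN_bit h
    rcases h with ⟨hm, h⟩ | ⟨-, h⟩
    · obtain ⟨h1, h2⟩ := land_bit h
      have hx0 : x = 0 := tb1 x hx h2
      subst hx0
      obtain ⟨h3, h4⟩ := hex h1
      refine ⟨h3, ?_⟩
      rw [h4]
      simp [tr, bit_mod hm]
    · exact (zero_bit h).elim
  | A o bw bu rw ru m =>
    have h' : (bfA o bw bu rw ru m b.ekT l (iteN (Nat.ble 5 l) 2 l) k).testBit x = true := h
    rw [vl_iteN] at h'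
    replace h' := lor_bit h'
    rcases h' with h' | h'
    · have key := bfA_in hx h'
      rcases key with ⟨k1, k2, k3⟩ | ⟨k1, k2, k3⟩
      · refine ⟨by rw [k3]; omega, ?_⟩
        simp only [tr]
        rw [if_pos k1, if_pos k2, k3]
        simp
      · refine ⟨by rw [k3]; omega, ?_⟩
        simp only [tr]
        rw [if_neg k1, if_pos k2, k3]
        simp
    · replace h' := iteN_bit h'
      rcases h' with ⟨hm, h'⟩ | ⟨-, h'⟩
      · obtain ⟨h1, h2⟩ := land_bit h'
        obtain ⟨h2, h3⟩ := land_bit h2
        obtain ⟨h3, h4⟩ := land_bit h3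
        obtain ⟨h5, h6⟩ := hex h1
        refine ⟨h5, ?_⟩
        rw [h6]
        simp only [tr]
        rw [List.mem_append]
        right
        have c1 : x % 2 = (if o = true then 0 else 1) := by
          cases o
          · exact tb170 x hx h2
          · exact tb85 x hx h2
        have c2 : rw = true → x.testBit 1 = true := by
          rintro rfl
          exact tb204 x hx h3
        have c3 : ru = true → x.testBit 2 = true := by
          rintro rfl
          exact tb240 x hx h4
        rw [if_pos ⟨c1, c2, c3, bit_mod hm⟩]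
        exact List.mem_singleton_self _
      · exact (zero_bit h').elim
  | W k' =>
    replace h := iteN_bit h
    rcases h with ⟨hk, h⟩ | ⟨hk, h⟩
    · have hk := Nat.eq_of_beq_eq_true hk
      obtain ⟨h1, h2⟩ := land_bit h
      have hx0 : x = 0 := tb1 x hx h2
      subst hx0
      obtain ⟨h3, h4⟩ := hex h1
      refine ⟨h3, ?_⟩
      rw [h4]
      simp [tr, hk]
    · have hne : l ≠ k' := fun hc => by
        rw [hc, Nat.beq_refl] at hk
        exact absurd hk (by decide)
      replace h := iteN_bit h
      rcases h with ⟨hk8, h⟩ | ⟨-, h⟩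
      · have hk8 := Nat.eq_of_beq_eq_true hk8
        subst hk8
        have hx0 : x = 0 := tb1 x hx h
        subst hx0
        simp [tr, hne]
      · exact (zero_bit h).elim
  | Z k' d m =>
    replace h := lor_bit h
    rcases h with h | h
    · replace h := iteN_bit h
      rcases h with ⟨hk, h⟩ | ⟨hk, h⟩
      · have hk := Nat.eq_of_beq_eq_true hk
        subst hk
        replace h := iteN_bit h
        rcases h with ⟨hk9, h⟩ | ⟨-, h⟩
        · have hk9 := Nat.eq_of_beq_eq_true hk9
          subst hk9
          have : x = 1 ∨ x = 2 := tb6 x hx h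
          rcases this with rfl | rfl <;> simp [tr]
        · replace h := iteN_bit h
          rcases h with ⟨hk9, h⟩ | ⟨-, h⟩
          · have hk9 := Nat.eq_of_beq_eq_true hk9
            subst hk9
            have : x = 3 := tb8 x hx h
            subst this
            simp [tr]
          · replace h := iteN_bit h
            rcases h with ⟨hk9, h⟩ | ⟨-, h⟩
            · have hk9 := Nat.eq_of_beq_eq_true hk9
              subst hk9
              have : x = 0 := tb1 x hx h
              subst this
              simp [tr]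
            · exact (zero_bit h).elim
      · have hne : l ≠ k' := fun hc => by
          rw [hc, Nat.beq_refl] at hk
          exact absurd hk (by decide)
        replace h := iteN_bit h
        rcases h with ⟨hk9, h⟩ | ⟨-, h⟩
        · have hk9 := Nat.eq_of_beq_eq_true hk9
          subst hk9
          have : x = 0 ∨ x = 2 := tb5 x hx h
          rcases this with rfl | rfl <;> simp [tr, hne]
        · replace h := iteN_bit h
          rcases h with ⟨hk9, h⟩ | ⟨-, h⟩
          · have hk9 := Nat.eq_of_beq_eq_true hk9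
            subst hk9
            have : x = 1 ∨ x = 3 := tb10 x hx h
            rcases this with rfl | rfl <;> simp [tr, hne]
          · exact (zero_bit h).elim
    · replace h := iteN_bit h
      rcases h with ⟨hm, h⟩ | ⟨-, h⟩
      · obtain ⟨h1, h2⟩ := land_bit h
        obtain ⟨h2, h3⟩ := land_bit h2
        obtain ⟨h5, h6⟩ := hex h1
        refine ⟨h5, ?_⟩
        rw [h6]
        have c0 : x < 4 ∧ x % 2 = (if d = true then 1 else 0) := by
          cases d
          · rcases tb5 x hx h2 with rfl | rfl <;> decide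
          · rcases tb10 x hx h2 with rfl | rfl <;> decide
        obtain ⟨hx4, c1⟩ := c0
        have c2 : 2 ≤ x ∨ l = k' := by
          replace h3 := iteN_bit h3
          rcases h3 with ⟨hk, h3⟩ | ⟨-, h3⟩
          · exact Or.inr (Nat.eq_of_beq_eq_true hk)
          · exact Or.inl (tb12 x hx h3)
        simp only [tr]
        rw [if_pos hx4, List.mem_append]
        right
        rw [if_pos ⟨c1, bit_mod hm, c2⟩]
        exact List.mem_singleton_self _
      · exact (zero_bit h).elim
  | F k' =>
    replace h := iteN_bit h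
    rcases h with ⟨hk, h⟩ | ⟨-, h⟩
    · have hk := Nat.eq_of_beq_eq_true hk
      subst hk
      replace h := iteN_bit h
      rcases h with ⟨hk, h⟩ | ⟨hk, h⟩
      · have : x = 1 := tb2 x hx h
        subst this
        simp [tr]
      · have hne : l ≠ k' := fun hc => by
          rw [hc, Nat.beq_refl] at hk
          exact absurd hk (by decide)
        have : x = 0 ∨ x = 1 := tb3 x hx h
        rcases this with rfl | rfl <;> simp [tr, hne]
    · replace h := iteN_bit h
      rcases h with ⟨hk, h⟩ | ⟨-, h⟩
      · have hk := Nat.eq_of_beq_eq_true hk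
        subst hk
        replace h := iteN_bit h
        rcases h with ⟨hk, h⟩ | ⟨-, h⟩
        · have hk := Nat.eq_of_beq_eq_true hk
          have : x = 0 := tb1 x hx h
          subst this
          simp [tr, hk]
        · exact (zero_bit h).elim
      · exact (zero_bit h).elim
  | X k' =>
    replace h := iteN_bit h
    rcases h with ⟨hk, h⟩ | ⟨-, h⟩
    · have hk := Nat.eq_of_beq_eq_true hk
      subst hk
      have : x = 1 := tb2 x hx h
      subst this
      simp [tr]
    · replace h := iteN_bit h
      rcases h with ⟨hk, h⟩ | ⟨-, h⟩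
      · have hk := Nat.eq_of_beq_eq_true hk
        subst hk
        replace h := iteN_bit h
        rcases h with ⟨hk, h⟩ | ⟨-, h⟩
        · have hk := Nat.eq_of_beq_eq_true hk
          have : x = 0 := tb1 x hx h
          subst this
          simp [tr, hk]
        · exact (zero_bit h).elim
      · exact (zero_bit h).elim
  | T =>
    replace h := iteN_bit h
    rcases h with ⟨hk, h⟩ | ⟨-, h⟩
    · have hk := Nat.eq_of_beq_eq_true hk
      subst hk
      have : x = 0 := tb1 x hx h
      subst this
      simp [tr]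
    · exact (zero_bit h).elim
  | E => exact (zero_bit h).elim

/-- **the fast check of the masks** -/
theorem ms_fastT {Ts : List (It × ℕ × ℕ)} {TY N8 : ℕ} {its : List It}
    {Ms : List (List (ℕ × ℕ))} (h : chkFast bfT It.ekT Ts TY N8 its Ms = true) :
    chkMs its 0 Ms = true :=
  ms_fast (fun _ _ _ _ _ hl hx hb => bfT_sound hl hx hb) h

end Pool.Agent.H.MP_2e666d_lc.HS
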