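import Pool.Agent.H.MP_2e666d_lc.HS8
import Pool.Agent.H.MP_2e666d_lc.HCF
import Pool.Agent.H.MP_2e666d_lc.HSB

/-! # Half signatures: class certificates over a common pool of signatures

The offsets of the signatures in the list of items and the set of the starting slots are checked
once for the pool. -/

namespace Pool.Agent.H.MP_2e666d_lc.HS

open Pool.Agent.H.MP_2e666d_lc Pool.Agent.H.MP_2e666d_lc.T3

/-- numbers of the first items of the signatures -/
def offs (l1 l2 : ℕ) : ℕ → List Sig → List ℕ
  | _, [] => []
  | n, s :: ss => n :: offs l1 l2 (n + (s.tapes l1 l2).1.length + (s.tapes l1 l2).2.1.length +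
        (s.tapes l1 l2).2.2.length) ss

/-- check of the offsets -/
noncomputable def chkOffs (l1 l2 : ℕ) (ss : List Sig) : List ℕ → ℕ → Bool :=
  List.rec (motive := fun _ => List ℕ → ℕ → Bool)
    (fun os _ => List.rec (motive := fun _ => Bool) true (fun _ _ _ => false) os)
    (fun s _ ih os n => List.rec (motive := fun _ => Bool) false
      (fun o os' _ => Bool.rec (motive := fun _ => Bool) false
        (ih os' (Nat.add (Nat.add (Nat.add o (s.tapes l1 l2).1.length)
          (s.tapes l1 l2).2.1.length) (s.tapes l1 l2).2.2.length)) (Nat.beq o n)) os) ss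

theorem chkOffs_eq {l1 l2 : ℕ} {ss : List Sig} {os : List ℕ} {n : ℕ}
    (h : chkOffs l1 l2 ss os n = true) : os = offs l1 l2 n ss := by
  induction ss generalizing os n with
  | nil =>
    cases os with
    | nil => rfl
    | cons o os => exact absurd (show false = true from h) (by decide)
  | cons s ss ih =>
    cases os with
    | nil => exact absurd (show false = true from h) (by decide)
    | cons o os =>
      have h' : Bool.rec (motive := fun _ => Bool) false
        (chkOffs l1 l2 ss os (o + (s.tapes l1 l2).1.length + (s.tapes l1 l2).2.1.length +
          (s.tapes l1 l2).2.2.length)) (Nat.beq o n) = true := h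
      cases h1 : Nat.beq o n with
      | false => rw [h1] at h'; exact absurd (show false = true from h') (by decide)
      | true =>
        rw [h1] at h'
        have h2 := ih (show chkOffs l1 l2 ss os (o + (s.tapes l1 l2).1.length +
          (s.tapes l1 l2).2.1.length + (s.tapes l1 l2).2.2.length) = true from h')
        have h3 : o = n := Nat.eq_of_beq_eq_true h1
        subst h3
        rw [offs, ← h2]

/-- element of a list of numbers -/
noncomputable def nthNF (Ms : List ℕ) : ℕ → ℕ :=
  List.rec (motive := fun _ => ℕ → ℕ) (fun _ => 0)
    (fun m _ ih n => Nat.rec (motive := fun _ => ℕ) m (fun k _ => ih k) n) Ms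

/-- element of a list of signatures -/
noncomputable def nthSF (Ms : List Sig) : ℕ → Sig :=
  List.rec (motive := fun _ => ℕ → Sig) (fun _ => Sig.F [])
    (fun m _ ih n => Nat.rec (motive := fun _ => Sig) m (fun k _ => ih k) n) Ms

/-- accepting bits of the signature `s` with first item number `n` -/
def accM (l1 l2 : ℕ) (s : Sig) (n : ℕ) : ℕ :=
  accBit n (s.tapes l1 l2).1 + accBit (n + (s.tapes l1 l2).1.length) (s.tapes l1 l2).2.1 +
    accBit (n + (s.tapes l1 l2).1.length + (s.tapes l1 l2).2.1.length) (s.tapes l1 l2).2.2

theorem nth_accs {l1 l2 : ℕ} {ss : List Sig} {n i : ℕ} (hi : i < ss.length) :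
    nthA (accs l1 l2 n ss) i = some (nthSF ss i, accM l1 l2 (nthSF ss i)
      (nthNF (offs l1 l2 n ss) i)) := by
  induction ss generalizing n i with
  | nil => simp at hi
  | cons s ss ih =>
    cases i with
    | zero => rfl
    | succ i => exact ih (by simpa using hi)

/-- the final condition with the offsets `os`, `m` = number of the signatures -/
noncomputable def finG (ss : List Sig) (os : List ℕ) (m S T : ℕ) : Bool :=
  Bool.rec (motive := fun _ => Bool) false
    (Bool.rec (motive := fun _ => Bool) false
      (Sig.rec (motive := fun _ => Bool)
        (fun m1 m2 ps => Bool.rec (motive := fun _ => Bool) false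
          (Sig.rec (motive := fun _ => Bool) (fun _ _ _ => false)
            (fun ka kb d lo hi mm ps' =>
              Nat.beq (accM 5 6 (Sig.R ka kb d lo hi mm ps') (nthNF os (Nat.div T 65536)) &&& S)
                (accM 5 6 (Sig.R ka kb d lo hi mm ps') (nthNF os (Nat.div T 65536))) &&
              decide ((Sig.L m1 m2 ps).ty = (ka, kb)) &&
              Nat.ble (ps.length + ps'.length + 1) 40)
            (fun _ => false) (nthSF ss (Nat.div T 65536)))
          (Nat.blt (Nat.div T 65536) m))
        (fun _ _ _ _ _ _ _ => false) (fun ps => Nat.ble ps.length 40)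
        (nthSF ss (Nat.mod T 65536)))
      (Nat.beq (Nat.land (accM 5 6 (nthSF ss (Nat.mod T 65536)) (nthNF os (Nat.mod T 65536))) S)
        (accM 5 6 (nthSF ss (Nat.mod T 65536)) (nthNF os (Nat.mod T 65536)))))
    (Nat.blt (Nat.mod T 65536) m)

theorem finG_imp {ss : List Sig} {os : List ℕ} {S T : ℕ} (ho : chkOffs 5 6 ss os 0 = true)
    (h : finG ss os ss.length S T = true) : finC (accs 5 6 0 ss) S T = true := by
  have ho' := chkOffs_eq ho
  subst ho'
  unfold finG at h
  cases h1 : Nat.blt (Nat.mod T 65536) ss.length with
  | false => rw [h1] at h; exact absurd (show false = true from h) (by decide)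
  | true =>
    rw [h1] at h
    have h1' : T % 65536 < ss.length := by
      have := h1
      rw [Nat.blt_eq] at this
      exact this
    have e1 := nth_accs (l1 := 5) (l2 := 6) (n := 0) h1'
    generalize hs : nthSF ss (Nat.mod T 65536) = s at h
    generalize hm : accM 5 6 s (nthNF (offs 5 6 0 ss) (Nat.mod T 65536)) = ms at h
    have hs' : nthSF ss (T % 65536) = s := hs
    have hm' : accM 5 6 s (nthNF (offs 5 6 0 ss) (T % 65536)) = ms := hm
    rw [hs', hm'] at e1
    cases h2 : Nat.beq (Nat.land ms S) ms with
    | false => rw [h2] at h; exact absurd (show false = true from h) (by decide)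
    | true =>
      rw [h2] at h
      unfold finC
      rw [e1]
      have h2' : Nat.beq (ms &&& S) ms = true := h2
      simp only [h2', Bool.true_and]
      cases s with
      | F ps => exact h
      | R ka kb d lo hi mm ps => exact absurd (show false = true from h) (by decide)
      | L m1 m2 ps =>
        cases h3 : Nat.blt (Nat.div T 65536) ss.length with
        | false => rw [h3] at h; exact absurd (show false = true from h) (by decide)
        | true =>
          rw [h3] at h
          have h3' : T / 65536 < ss.length := by
            have := h3
            rw [Nat.blt_eq] at this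
            exact this
          have e2 := nth_accs (l1 := 5) (l2 := 6) (n := 0) h3'
          generalize ht : nthSF ss (Nat.div T 65536) = t at h
          have ht' : nthSF ss (T / 65536) = t := ht
          rw [ht'] at e2
          simp only [e2]
          cases t with
          | F ps => exact absurd (show false = true from h) (by decide)
          | L _ _ _ => exact absurd (show false = true from h) (by decide)
          | R ka kb d lo hi mm ps' => exact h

theorem chkTF_fin {Ms : List (List (ℕ × ℕ))} {tab : List RSt} {f g : ℕ → ℕ → Bool} {B B0 : BT}
    (hfg : ∀ S T, f S T = true → g S T = true) (h : chkTF Ms tab f B B0 = true) :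
    chkTF Ms tab g B B0 = true := by
  induction B0 with
  | leaf N T =>
    have h' : chkNF Ms tab f B N T = true := h
    show chkNF Ms tab g B N T = true
    unfold chkNF at h' ⊢
    cases h1 : Nat.blt (Nat.mod N 256) tab.length with
    | false => rw [h1] at h'; exact absurd (show false = true from h') (by decide)
    | true =>
      rw [h1] at h'
      cases h2 : cvNull (nthRF tab (Nat.mod N 256)).2.1 with
      | false =>
        rw [h2] at h'
        exact h'
      | true =>
        rw [h2] at h'
        cases h3 : f (mkF 128 (Nat.div N 256)) T with
        | false =>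
          have h'' : Bool.rec (motive := fun _ => Bool) false
            (chkEF Ms B (mkF 128 (Nat.div N 256)) (nthRF tab (Nat.mod N 256)).2.2 T)
            (f (mkF 128 (Nat.div N 256)) T) = true := h'
          rw [h3] at h''
          exact absurd (show false = true from h'') (by decide)
        | true =>
          have h'' : Bool.rec (motive := fun _ => Bool) false
            (chkEF Ms B (mkF 128 (Nat.div N 256)) (nthRF tab (Nat.mod N 256)).2.2 T)
            (f (mkF 128 (Nat.div N 256)) T) = true := h'
          rw [h3] at h''
          show Bool.rec (motive := fun _ => Bool) false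
            (chkEF Ms B (mkF 128 (Nat.div N 256)) (nthRF tab (Nat.mod N 256)).2.2 T)
            (g (mkF 128 (Nat.div N 256)) T) = true
          rw [hfg _ _ h3]
          exact h''
  | node a b iha ihb =>
    have h1 : Bool.rec (motive := fun _ => Bool) false (chkTF Ms tab f B b)
      (chkTF Ms tab f B a) = true := h
    show Bool.rec (motive := fun _ => Bool) false (chkTF Ms tab g B b)
      (chkTF Ms tab g B a) = true
    cases h2 : chkTF Ms tab f B a with
    | false => rw [h2] at h1; exact absurd (show false = true from h1) (by decide)
    | true =>
      rw [h2] at h1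
      rw [iha h2]
      exact ihb h1

/-- the first node -/
noncomputable def chkFst (tab : List RSt) (root : List Cell) (st : ℕ) (N : ℕ) : Bool :=
  Nat.beq (Nat.mod N 256) 0 && allF st 128 (Nat.div N 256) &&
    !(nthR tab 0).1 && decide ((nthR tab 0).2.1 = root)

/-- **Soundness of a class certificate** over a pool of signatures -/
theorem hs_class' {root : List Cell} {ss : List Sig} {its : List It}
    {Ms : List (List (ℕ × ℕ))} {os : List ℕ} {st : ℕ} {tab : List RSt} {B : BT}
    (h_its : items 5 6 ss = its) (h_ok : (ss.all fun s => s.ok && s.marks) = true)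
    (h_ms : chkMs its 0 Ms = true) (h_os : chkOffs 5 6 ss os 0 = true)
    (h_st : chkStart true its st = true) {m : ℕ} (h_m : ss.length = m)
    (h_tab : chkR tab = true)
    (h_root : chkRoot 5 6 root = true) (h_start : chkFst tab root st (B.get 0) = true)
    (h_cert : chkTF Ms tab (finG ss os m) B B = true) :
    ∀ D, Inst false root D → Comp (D.map vl) 40 0 0 0 := by
  intro D hD
  unfold chkFst at h_start
  rw [Bool.and_eq_true, Bool.and_eq_true, Bool.and_eq_true, decide_eq_true_eq] at h_start
  obtain ⟨⟨⟨s1, s2⟩, s3⟩, s4⟩ := h_start
  subst h_its h_m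
  have hc : chkT' Ms tab (finC (accs 5 6 0 ss)) B B = true :=
    chkTF_imp (chkTF_fin (fun S T h => finG_imp h_os h) h_cert)
  rw [allF_eq] at s2
  obtain ⟨S, T, hg, hf⟩ := hc4_main h_ms h_tab hc D [] 0 rfl (by
      have e1 : B.get 0 % 256 = 0 := Nat.eq_of_beq_eq_true s1
      rw [e1, s4]
      have e2 : (nthR tab 0).1 = false := by simpa using s3
      rw [e2]
      exact hD)
    (good_all (good_start h_st) s2)
  exact fin_sound h_ok h_root hD hg hf

end Pool.Agent.H.MP_2e666d_lc.HS
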