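import Pool.Agent.H.MP_2e666d_lc.HCG

/-! # Half signatures: faster certificate check

A node is coded by a number `N`: the state of the root is `N % 256`, then 16 bits which are
different for different nodes (so that the cache of the kernel works well), 8 bits for the number
of the elements of the set of slots and the elements in base `65536`.  The set of slots of a node is
evaluated only once, since its number is passed to a continuation. -/

namespace Pool.Agent.H.MP_2e666d_lc.HS

open Pool.Agent.H.MP_2e666d_lc Pool.Agent.H.MP_2e666d_lc.T3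

/-- the set with `f` elements coded in base `65536` -/
noncomputable def mkC (f : ℕ) : ℕ → ℕ :=
  Nat.rec (motive := fun _ => ℕ → ℕ) (fun _ => 0)
    (fun _ ih P => Nat.lor (Nat.shiftLeft 1 (Nat.mod P 65536)) (ih (Nat.div P 65536))) f

/-- the set of slots of the node with the number `N` -/
noncomputable def decK (N : ℕ) : ℕ :=
  mkC (Nat.mod (Nat.div N 16777216) 256) (Nat.div N 4294967296)

/-- `M` is contained in `R` -/
noncomputable def subK (M R : ℕ) : Bool := Nat.beq (Nat.land M R) M

theorem good_subK {D : List ℕ} {its : List It} {m S M : ℕ} (h : Good D its m S)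
    (hs : subK M S = true) : Good D its m M := by
  have h1 : M &&& S = M := Nat.eq_of_beq_eq_true hs
  intro y hy hsem
  refine h y ?_ hsem
  rw [← h1, Nat.testBit_and, Bool.and_eq_true] at hy
  exact hy.2

/-- the number stored at `n` is passed to the continuation -/
noncomputable def BT.getK (B : BT) : ℕ → (ℕ → Bool) → Bool :=
  BT.rec (motive := fun _ => ℕ → (ℕ → Bool) → Bool) (fun N _ _ k => k N)
    (fun _ _ ia ib n k => Bool.rec (ib (Nat.div n 2) k) (ia (Nat.div n 2) k)
      (Nat.beq (Nat.mod n 2) 0)) B

theorem BT.getK_eq (B : BT) (n : ℕ) (k : ℕ → Bool) : B.getK n k = k (B.get n) := by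
  induction B generalizing n with
  | leaf N T => rfl
  | node a b iha ihb =>
    have h1 : (BT.node a b).getK n k = Bool.rec (motive := fun _ => Bool)
      (b.getK (Nat.div n 2) k) (a.getK (Nat.div n 2) k) (Nat.beq (Nat.mod n 2) 0) := rfl
    rw [h1, BT.get, iha, ihb]
    show Bool.rec (motive := fun _ => Bool) (k (b.get (n / 2))) (k (a.get (n / 2)))
      (Nat.beq (n % 2) 0) = _
    cases Nat.beq (n % 2) 0 <;> rfl

/-- the transition to a node with the number `N` -/
noncomputable def edgeK (Ms : List (List (ℕ × ℕ))) (S a s N : ℕ) : Bool :=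
  Bool.rec false (subK (decK N) (stepF (nthMF Ms a) S)) (Nat.beq (Nat.mod N 256) s)

noncomputable def chkEK (Ms : List (List (ℕ × ℕ))) (B : BT) (S : ℕ) (l : List (ℕ × ℕ)) :
    ℕ → Bool :=
  List.rec (motive := fun _ => ℕ → Bool) (fun _ => true)
    (fun p _ ih T => Bool.rec false (ih (Nat.div T 65536))
      (B.getK (Nat.mod T 65536) (edgeK Ms S p.1 p.2))) l

/-- the transitions, logical form -/
theorem chkEK_imp {Ms : List (List (ℕ × ℕ))} {B : BT} {S : ℕ} {l : List (ℕ × ℕ)} {T : ℕ}
    (h : chkEK Ms B S l T = true) {p : ℕ × ℕ} (hp : p ∈ l) :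
    ∃ t, B.get t % 256 = p.2 ∧ subK (decK (B.get t)) (stepL (nthM Ms p.1) S) = true := by
  induction l generalizing T with
  | nil => simp at hp
  | cons x l ih =>
    have h1 : chkEK Ms B S (x :: l) T = Bool.rec (motive := fun _ => Bool) false
      (chkEK Ms B S l (Nat.div T 65536))
      (B.getK (Nat.mod T 65536) (edgeK Ms S x.1 x.2)) := rfl
    rw [h1, BT.getK_eq] at h
    cases h2 : edgeK Ms S x.1 x.2 (B.get (Nat.mod T 65536)) with
    | false => rw [h2] at h; exact absurd (show false = true from h) (by decide)
    | true =>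
      rw [h2] at h
      rcases List.mem_cons.1 hp with rfl | hp
      · unfold edgeK at h2
        cases h4 : Nat.beq (Nat.mod (B.get (Nat.mod T 65536)) 256) p.2 with
        | false => rw [h4] at h2; exact absurd (show false = true from h2) (by decide)
        | true =>
          rw [h4] at h2
          have h5 : subK (decK (B.get (Nat.mod T 65536))) (stepF (nthMF Ms p.1) S) = true := h2
          rw [stepF_eq, nthMF_eq] at h5
          exact ⟨_, Nat.eq_of_beq_eq_true h4, h5⟩
      · exact ih h hp

noncomputable def chkNK (Ms : List (List (ℕ × ℕ))) (tab : List RSt) (fin : ℕ → ℕ → Bool) (B : BT)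
    (N T : ℕ) : Bool :=
  Bool.rec false (Bool.rec false
    (chkEK Ms B (decK N) (nthRF tab (Nat.mod N 256)).2.2 T)
    (Bool.rec true (fin (decK N) T)
      (cvNull (nthRF tab (Nat.mod N 256)).2.1))) (Nat.blt (Nat.mod N 256) tab.length)

/-- one node, logical form -/
theorem chkNK_imp {Ms : List (List (ℕ × ℕ))} {tab : List RSt} {fin : ℕ → ℕ → Bool} {B : BT}
    {N T : ℕ} (h : chkNK Ms tab fin B N T = true) :
    N % 256 < tab.length ∧ (cvNull (nthR tab (N % 256)).2.1 = true → fin (decK N) T = true) ∧
      chkEK Ms B (decK N) (nthR tab (N % 256)).2.2 T = true := by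
  unfold chkNK at h
  rw [nthRF_eq] at h
  cases h1 : Nat.blt (Nat.mod N 256) tab.length with
  | false => rw [h1] at h; exact absurd (show false = true from h) (by decide)
  | true =>
    rw [h1] at h
    cases h2 : (Bool.rec (motive := fun _ => Bool) true (fin (decK N) T)
      (cvNull (nthR tab (Nat.mod N 256)).2.1)) with
    | false =>
      have h3 : (Bool.rec (motive := fun _ => Bool) false (chkEK Ms B (decK N)
        (nthR tab (Nat.mod N 256)).2.2 T) (Bool.rec (motive := fun _ => Bool) true
          (fin (decK N) T)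
          (cvNull (nthR tab (Nat.mod N 256)).2.1))) = true := h
      rw [h2] at h3
      exact absurd (show false = true from h3) (by decide)
    | true =>
      have h3 : (Bool.rec (motive := fun _ => Bool) false (chkEK Ms B (decK N)
        (nthR tab (Nat.mod N 256)).2.2 T) (Bool.rec (motive := fun _ => Bool) true
          (fin (decK N) T)
          (cvNull (nthR tab (Nat.mod N 256)).2.1))) = true := h
      rw [h2] at h3
      refine ⟨?_, ?_, h3⟩
      · have := h1
        rw [Nat.blt_eq] at this
        exact this
      · intro h4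
        have h4' : cvNull (nthR tab (Nat.mod N 256)).2.1 = true := h4
        rw [h4'] at h2
        exact h2

noncomputable def chkTK (Ms : List (List (ℕ × ℕ))) (tab : List RSt) (fin : ℕ → ℕ → Bool) (B : BT)
    (B0 : BT) : Bool :=
  BT.rec (motive := fun _ => Bool) (fun N T => chkNK Ms tab fin B N T)
    (fun _ _ ia ib => Bool.rec false ib ia) B0

theorem chkTK_node {Ms : List (List (ℕ × ℕ))} {tab : List RSt} {fin : ℕ → ℕ → Bool}
    {B a b : BT} (ha : chkTK Ms tab fin B a = true) (hb : chkTK Ms tab fin B b = true) :
    chkTK Ms tab fin B (BT.node a b) = true := by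
  show Bool.rec (motive := fun _ => Bool) false (chkTK Ms tab fin B b)
    (chkTK Ms tab fin B a) = true
  rw [ha]
  exact hb

theorem hcK_get {Ms : List (List (ℕ × ℕ))} {tab : List RSt} {fin : ℕ → ℕ → Bool} {B B0 : BT}
    (h : chkTK Ms tab fin B B0 = true) (n : ℕ) : ∃ T, chkNK Ms tab fin B (B0.get n) T = true := by
  induction B0 generalizing n with
  | leaf N T => exact ⟨T, h⟩
  | node a b iha ihb =>
    have h0 : Bool.rec (motive := fun _ => Bool) false (chkTK Ms tab fin B b)
      (chkTK Ms tab fin B a) = true := h
    simp only [BT.get]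
    cases h2 : chkTK Ms tab fin B a with
    | false => rw [h2] at h0; exact absurd (show false = true from h0) (by decide)
    | true =>
      rw [h2] at h0
      cases Nat.beq (n % 2) 0 with
      | true => exact iha h2 _
      | false => exact ihb h0 _

theorem hcK_main {its : List It} {Ms : List (List (ℕ × ℕ))} {tab : List RSt}
    {fin : ℕ → ℕ → Bool} {B : BT} {D : List ℕ}
    (hM : chkMs its 0 Ms = true) (hR : chkR tab = true) (hT : chkTK Ms tab fin B B = true)
    (V : List ℕ) : ∀ (U : List ℕ) (n : ℕ), D = U ++ V →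
    Inst (nthR tab (B.get n % 256)).1 (nthR tab (B.get n % 256)).2.1 V →
    Good D its U.length (decK (B.get n)) →
    ∃ S T, Good D its D.length S ∧ fin S T = true := by
  induction V with
  | nil =>
    intro U n hD hi hg
    obtain ⟨T, hN⟩ := hcK_get hT n
    obtain ⟨-, h2, -⟩ := chkNK_imp hN
    refine ⟨_, T, ?_, h2 (cover_null hi)⟩
    have : D.length = U.length := by rw [hD]; simp
    rw [this]
    exact hg
  | cons a V ih =>
    intro U n hD hi hg
    obtain ⟨T, hN⟩ := hcK_get hT n
    obtain ⟨h1', -, h3⟩ := chkNK_imp hN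
    have hs := hs4_nthR h1'
    rw [chkR, List.all_eq_true] at hR
    have hs' := hR _ hs
    rw [Bool.and_eq_true, decide_eq_true_eq, List.all_eq_true] at hs'
    obtain ⟨h4, h5⟩ := hs'
    obtain ⟨r, hr, hi'⟩ := cover_tr hi
    rw [h4, List.mem_map] at hr
    obtain ⟨p, hp, hpr⟩ := hr
    rw [Prod.mk.injEq] at hpr
    obtain ⟨rfl, rfl⟩ := hpr
    have h6 := h5 p hp
    rw [Bool.and_eq_true, beq_iff_eq] at h6
    obtain ⟨t, ht1, ht2⟩ := chkEK_imp h3 hp
    have hm : U.length < D.length := by rw [hD]; simp
    have hl : D.getD U.length 0 = p.1 := by rw [hD]; simp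
    refine ih (U ++ [p.1]) t (by rw [hD]; simp) ?_ ?_
    · rw [ht1, h6.2]
      exact hi'
    · rw [List.length_append, List.length_singleton]
      exact good_subK (good_step hM hm hl hg) ht2

/-- the first node -/
noncomputable def chkFK (tab : List RSt) (root : List Cell) (st : ℕ) (N : ℕ) : Bool :=
  Nat.beq (Nat.mod N 256) 0 && subK (decK N) st &&
    !(nthR tab 0).1 && decide ((nthR tab 0).2.1 = root)

/-- **Soundness of a class certificate** over a pool of signatures, fast check -/
theorem hs_classK {root : List Cell} {ss : List Sig} {its : List It}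
    {Ms : List (List (ℕ × ℕ))} {os : List ℕ} {st : ℕ} {tab : List RSt} {B : BT}
    (h_its : items 5 6 ss = its) (h_ok : (ss.all fun s => s.ok && s.marks) = true)
    (h_ms : chkMs its 0 Ms = true) (h_os : chkOffs 5 6 ss os 0 = true)
    (h_st : chkStart true its st = true) {m : ℕ} (h_m : ss.length = m)
    (h_tab : chkR tab = true)
    (h_root : chkRoot 5 6 root = true) (h_start : chkFK tab root st (B.get 0) = true)
    (h_cert : chkTK Ms tab (finG ss os m) B B = true) :
    ∀ D, Inst false root D → Comp (D.map vl) 40 0 0 0 := by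
  intro D hD
  unfold chkFK at h_start
  rw [Bool.and_eq_true, Bool.and_eq_true, Bool.and_eq_true, decide_eq_true_eq] at h_start
  obtain ⟨⟨⟨s1, s2⟩, s3⟩, s4⟩ := h_start
  subst h_its h_m
  obtain ⟨S, T, hg, hf⟩ := hcK_main h_ms h_tab h_cert D [] 0 rfl (by
      have e1 : B.get 0 % 256 = 0 := Nat.eq_of_beq_eq_true s1
      rw [e1, s4]
      have e2 : (nthR tab 0).1 = false := by simpa using s3
      rw [e2]
      exact hD)
    (good_subK (good_start h_st) s2)
  exact fin_sound h_ok h_root hD hg (finG_imp h_os hf)

end Pool.Agent.H.MP_2e666d_lc.HS
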