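import Pool.Agent.H.MP_2e666d_lc.HCK

/-! # Half signatures: learned certificates

A node is given by some slots, to which the base slots of the state of the root are added, and by
a set of resolved types: the type number `k` is resolved, if a left signature of this type has been
performed. -/

namespace Pool.Agent.H.MP_2e666d_lc.HS

open Pool.Agent.H.MP_2e666d_lc Pool.Agent.H.MP_2e666d_lc.T3

/-- the set of slots with `f` items coded in base `2 ^ 24`: number of the item, 8 bits -/
noncomputable def mkL (f : ℕ) : ℕ → ℕ :=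
  Nat.rec (motive := fun _ => ℕ → ℕ) (fun _ => 0)
    (fun _ ih P => Nat.lor (Nat.shiftLeft (Nat.mod (Nat.div P 65536) 256)
      (Nat.mul 8 (Nat.mod P 65536))) (ih (Nat.div P 16777216))) f

/-- the set of slots of the node with the number `N` -/
noncomputable def decL (N : ℕ) : ℕ :=
  mkL (Nat.mod (Nat.div N 16777216) 65536) (Nat.div N 20282409603651670423947251286016)

/-- the resolved types of the node with the number `N` -/
noncomputable def resL (N : ℕ) : ℕ := Nat.mod (Nat.div N 1099511627776) 18446744073709551616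

/-- the set of slots together with the base slots -/
noncomputable def fulL (Bs : List ℕ) (N : ℕ) : ℕ :=
  Nat.lor (decL N) (nthNF Bs (Nat.mod N 256))

/-- the types which are resolved by the set `S`; `RT` = list of type, signature, accepting slots -/
noncomputable def newR (S : ℕ) (RT : List (ℕ × ℕ × ℕ)) : ℕ :=
  List.rec (motive := fun _ => ℕ) 0
    (fun p _ ih => Bool.rec (motive := fun _ => ℕ) ih (Nat.lor (Nat.shiftLeft 1 p.1) ih)
      (subK p.2.2 S)) RT

/-- the resolved types `r'` follow from `r` and the slots `S` -/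
noncomputable def resK (RT : List (ℕ × ℕ × ℕ)) (S r r' : ℕ) : Bool :=
  Bool.rec (motive := fun _ => Bool) (subK r' (Nat.lor r (newR S RT))) true (subK r' r)

/-- the transition to a node with the number `N'` -/
noncomputable def edgeL (Ms : List (List (ℕ × ℕ))) (RT : List (ℕ × ℕ × ℕ)) (S r a s N' : ℕ) :
    Bool :=
  Bool.rec (motive := fun _ => Bool) false
    (Bool.rec (motive := fun _ => Bool) false (resK RT (stepF (nthMF Ms a) S) r (resL N'))
      (subK (decL N') (stepF (nthMF Ms a) S))) (Nat.beq (Nat.mod N' 256) s)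

noncomputable def chkEL (Ms : List (List (ℕ × ℕ))) (RT : List (ℕ × ℕ × ℕ)) (B : BT) (S r : ℕ)
    (l : List (ℕ × ℕ)) : ℕ → Bool :=
  List.rec (motive := fun _ => ℕ → Bool) (fun _ => true)
    (fun p _ ih T => Bool.rec (motive := fun _ => Bool) false (ih (Nat.div T 65536))
      (B.getK (Nat.mod T 65536) (edgeL Ms RT S r p.1 p.2))) l

noncomputable def chkNL (Ms : List (List (ℕ × ℕ))) (RT : List (ℕ × ℕ × ℕ)) (Bs : List ℕ)
    (tab : List RSt) (fin : ℕ → ℕ → ℕ → Bool) (B : BT) (N T : ℕ) : Bool :=
  Bool.rec (motive := fun _ => Bool) false (Bool.rec (motive := fun _ => Bool) false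
    (chkEL Ms RT B (fulL Bs N) (resL N) (nthRF tab (Nat.mod N 256)).2.2 T)
    (Bool.rec (motive := fun _ => Bool) true (fin (fulL Bs N) (resL N) T)
      (cvNull (nthRF tab (Nat.mod N 256)).2.1))) (Nat.blt (Nat.mod N 256) tab.length)

noncomputable def chkTL (Ms : List (List (ℕ × ℕ))) (RT : List (ℕ × ℕ × ℕ)) (Bs : List ℕ)
    (tab : List RSt) (fin : ℕ → ℕ → ℕ → Bool) (B : BT) (B0 : BT) : Bool :=
  BT.rec (motive := fun _ => Bool) (fun N T => chkNL Ms RT Bs tab fin B N T)
    (fun _ _ ia ib => Bool.rec (motive := fun _ => Bool) false ib ia) B0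

/-! ### logical forms -/

theorem rec_true {a b : Bool} (h : Bool.rec (motive := fun _ => Bool) false b a = true) :
    a = true ∧ b = true := by
  cases a with
  | false => exact absurd (show false = true from h) (by decide)
  | true => exact ⟨rfl, h⟩

theorem rec_imp {a b : Bool} (h : Bool.rec (motive := fun _ => Bool) true b a = true) :
    a = true → b = true := by
  rintro rfl
  exact h

theorem subK_bit {M R y : ℕ} (h : subK M R = true) (hy : M.testBit y = true) :
    R.testBit y = true := by
  have h1 : M &&& R = M := Nat.eq_of_beq_eq_true h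
  rw [← h1, Nat.testBit_and, Bool.and_eq_true] at hy
  exact hy.2

theorem newR_bit {S : ℕ} {RT : List (ℕ × ℕ × ℕ)} {k : ℕ} (h : (newR S RT).testBit k = true) :
    ∃ p ∈ RT, p.1 = k ∧ subK p.2.2 S = true := by
  induction RT with
  | nil => exact absurd (show (0 : ℕ).testBit k = true from h) (by simp)
  | cons p RT ih =>
    have h1 : (Bool.rec (motive := fun _ => ℕ) (newR S RT) (Nat.lor (Nat.shiftLeft 1 p.1)
      (newR S RT)) (subK p.2.2 S)).testBit k = true := h
    cases h2 : subK p.2.2 S with
    | false =>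
      rw [h2] at h1
      obtain ⟨q, hq, h3⟩ := ih h1
      exact ⟨q, List.mem_cons_of_mem _ hq, h3⟩
    | true =>
      rw [h2] at h1
      have h3 : ((1 <<< p.1) ||| newR S RT).testBit k = true := h1
      rw [Nat.testBit_or, Bool.or_eq_true, Nat.one_shiftLeft, Nat.testBit_two_pow,
        decide_eq_true_eq] at h3
      rcases h3 with h3 | h3
      · exact ⟨p, List.mem_cons_self, h3, h2⟩
      · obtain ⟨q, hq, h4⟩ := ih h3
        exact ⟨q, List.mem_cons_of_mem _ hq, h4⟩

theorem resK_bit {RT : List (ℕ × ℕ × ℕ)} {S r r' k : ℕ} (h : resK RT S r r' = true)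
    (hk : r'.testBit k = true) :
    r.testBit k = true ∨ ∃ p ∈ RT, p.1 = k ∧ subK p.2.2 S = true := by
  unfold resK at h
  cases h1 : subK r' r with
  | true => exact Or.inl (subK_bit h1 hk)
  | false =>
    rw [h1] at h
    have h2 : (r ||| newR S RT).testBit k = true := subK_bit h hk
    rw [Nat.testBit_or, Bool.or_eq_true] at h2
    exact h2.imp id newR_bit

theorem edgeL_imp {Ms : List (List (ℕ × ℕ))} {RT : List (ℕ × ℕ × ℕ)} {S r a s N' : ℕ}
    (h : edgeL Ms RT S r a s N' = true) : N' % 256 = s ∧
      subK (decL N') (stepL (nthM Ms a) S) = true ∧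
      resK RT (stepL (nthM Ms a) S) r (resL N') = true := by
  obtain ⟨h1, h2⟩ := rec_true h
  obtain ⟨h2, h3⟩ := rec_true h2
  rw [stepF_eq, nthMF_eq] at h2 h3
  exact ⟨Nat.eq_of_beq_eq_true h1, h2, h3⟩

theorem chkEL_imp {Ms : List (List (ℕ × ℕ))} {RT : List (ℕ × ℕ × ℕ)} {B : BT} {S r : ℕ}
    {l : List (ℕ × ℕ)} {T : ℕ} (h : chkEL Ms RT B S r l T = true) {p : ℕ × ℕ} (hp : p ∈ l) :
    ∃ t, B.get t % 256 = p.2 ∧ subK (decL (B.get t)) (stepL (nthM Ms p.1) S) = true ∧
      resK RT (stepL (nthM Ms p.1) S) r (resL (B.get t)) = true := by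
  induction l generalizing T with
  | nil => simp at hp
  | cons x l ih =>
    have h1 : Bool.rec (motive := fun _ => Bool) false
      (chkEL Ms RT B S r l (Nat.div T 65536))
      (B.getK (Nat.mod T 65536) (edgeL Ms RT S r x.1 x.2)) = true := h
    rw [BT.getK_eq] at h1
    obtain ⟨h2, h3⟩ := rec_true h1
    rcases List.mem_cons.1 hp with rfl | hp
    · exact ⟨_, edgeL_imp h2⟩
    · exact ih h3 hp

theorem chkNL_imp {Ms : List (List (ℕ × ℕ))} {RT : List (ℕ × ℕ × ℕ)} {Bs : List ℕ}
    {tab : List RSt} {fin : ℕ → ℕ → ℕ → Bool} {B : BT} {N T : ℕ}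
    (h : chkNL Ms RT Bs tab fin B N T = true) :
    N % 256 < tab.length ∧
      (cvNull (nthR tab (N % 256)).2.1 = true → fin (fulL Bs N) (resL N) T = true) ∧
      chkEL Ms RT B (fulL Bs N) (resL N) (nthR tab (N % 256)).2.2 T = true := by
  unfold chkNL at h
  rw [nthRF_eq] at h
  obtain ⟨h1, h2⟩ := rec_true h
  obtain ⟨h2, h3⟩ := rec_true h2
  refine ⟨?_, rec_imp h2, h3⟩
  have := h1
  rw [Nat.blt_eq] at this
  exact this

theorem chkTL_node {Ms : List (List (ℕ × ℕ))} {RT : List (ℕ × ℕ × ℕ)} {Bs : List ℕ}
    {tab : List RSt} {fin : ℕ → ℕ → ℕ → Bool} {B a b : BT}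
    (ha : chkTL Ms RT Bs tab fin B a = true) (hb : chkTL Ms RT Bs tab fin B b = true) :
    chkTL Ms RT Bs tab fin B (BT.node a b) = true := by
  show Bool.rec (motive := fun _ => Bool) false (chkTL Ms RT Bs tab fin B b)
    (chkTL Ms RT Bs tab fin B a) = true
  rw [ha]
  exact hb

theorem hcL_get {Ms : List (List (ℕ × ℕ))} {RT : List (ℕ × ℕ × ℕ)} {Bs : List ℕ}
    {tab : List RSt} {fin : ℕ → ℕ → ℕ → Bool} {B B0 : BT}
    (h : chkTL Ms RT Bs tab fin B B0 = true) (n : ℕ) :
    ∃ T, chkNL Ms RT Bs tab fin B (B0.get n) T = true := by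
  induction B0 generalizing n with
  | leaf N T => exact ⟨T, h⟩
  | node a b iha ihb =>
    obtain ⟨h1, h2⟩ := rec_true (a := chkTL Ms RT Bs tab fin B a)
      (b := chkTL Ms RT Bs tab fin B b) h
    simp only [BT.get]
    cases Nat.beq (n % 2) 0 with
    | true => exact iha h1 _
    | false => exact ihb h2 _

/-! ### the base slots -/

/-- the base slots are closed under the transitions; `q` = number of the state -/
noncomputable def chkBs (Ms : List (List (ℕ × ℕ))) (Bs : List ℕ) (tab : List RSt) : ℕ → Bool :=
  List.rec (motive := fun _ => ℕ → Bool) (fun _ => true)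
    (fun s _ ih q => Bool.rec (motive := fun _ => Bool) false (ih (Nat.succ q))
      (s.2.2.all fun p => subK (nthNF Bs p.2) (stepF (nthMF Ms p.1) (nthNF Bs q)))) tab

theorem chkBs_imp {Ms : List (List (ℕ × ℕ))} {Bs : List ℕ} {tab : List RSt} {q n : ℕ}
    (h : chkBs Ms Bs tab q = true) (hn : n < tab.length) {p : ℕ × ℕ}
    (hp : p ∈ (nthR tab n).2.2) :
    subK (nthNF Bs p.2) (stepL (nthM Ms p.1) (nthNF Bs (q + n))) = true := by
  induction tab generalizing q n with
  | nil => simp at hn
  | cons s tab ih =>
    obtain ⟨h1, h2⟩ := rec_true (a := s.2.2.all fun p => subK (nthNF Bs p.2)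
      (stepF (nthMF Ms p.1) (nthNF Bs q))) (b := chkBs Ms Bs tab (q + 1)) h
    cases n with
    | zero =>
      have h3 := (List.all_eq_true.1 h1) p hp
      rw [stepF_eq, nthMF_eq] at h3
      exact h3
    | succ n =>
      have h3 := ih h2 (by simpa using hn) hp
      rw [show q + (n + 1) = q + 1 + n by omega]
      exact h3

/-! ### the main induction -/

theorem good_lor {D : List ℕ} {its : List It} {m S S' : ℕ} (h : Good D its m S)
    (h' : Good D its m S') : Good D its m (Nat.lor S S') := by
  intro y hy hsem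
  have hy' : (S ||| S').testBit y = true := hy
  rw [Nat.testBit_or, Bool.or_eq_true] at hy'
  rcases hy' with hy' | hy'
  · exact h y hy' hsem
  · exact h' y hy' hsem

theorem good_left {D : List ℕ} {its : List It} {m S S' : ℕ} (h : Good D its m (Nat.lor S S')) :
    Good D its m S' := by
  intro y hy hsem
  refine h y ?_ hsem
  show (S ||| S').testBit y = true
  rw [Nat.testBit_or, hy, Bool.or_true]

/-- the type number `k` is resolved -/
def RI (D : List ℕ) (its : List It) (RT : List (ℕ × ℕ × ℕ)) (k : ℕ) : Prop :=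
  ∃ p ∈ RT, p.1 = k ∧ ∀ m, Good D its m p.2.2

/-- finished slots -/
noncomputable def chkFinM : List It → ℕ → Bool
  | [], M => Nat.beq M 0
  | a :: r, M => (Nat.beq (M % 256) 0 || It.rec (motive := fun _ => Bool) (fun _ => false)
      (fun _ _ _ _ _ _ => false) (fun _ => false) (fun _ _ _ => false)
      (fun _ => Nat.beq (M % 256) 2) (fun _ => Nat.beq (M % 256) 2) (Nat.beq (M % 256) 1)
      false a) && chkFinM r (M / 256)

theorem bit_one {y : ℕ} (h : (1 : ℕ).testBit y = true) : y = 0 := by
  by_contra hne0
  have h5 : Nat.testBit 1 y = false := Nat.testBit_lt_two_pow (Nat.one_lt_two_pow hne0)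
  rw [h5] at h
  exact absurd h (by simp)

theorem bit_two {y : ℕ} (h : (2 : ℕ).testBit y = true) : y = 1 := by
  rw [show (2 : ℕ) = 2 ^ 1 from rfl, Nat.testBit_two_pow, decide_eq_true_eq] at h
  exact h.symm

theorem chkFinM_sem {D : List ℕ} (m : ℕ) : ∀ (its : List It) (M y : ℕ), chkFinM its M = true →
    M.testBit y = true → Sem D (its.drop (y / 8)) (y % 8) m := by
  intro its
  induction its with
  | nil =>
    intro M y h hy
    simp only [chkFinM] at h
    rw [Nat.eq_of_beq_eq_true h] at hy
    simp at hy
  | cons a r ih =>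
    intro M y h hy
    rw [chkFinM, Bool.and_eq_true, Bool.or_eq_true] at h
    obtain ⟨h1, h2⟩ := h
    by_cases hz8 : y < 8
    · have hb : (M % 256).testBit y = true := by
        rw [show (256 : ℕ) = 2 ^ 8 from rfl, Nat.testBit_mod_two_pow, hy]
        simp [hz8]
      have hne : Nat.beq (M % 256) 0 ≠ true := by
        intro h3
        rw [Nat.eq_of_beq_eq_true h3] at hb
        simp at hb
      have h3 := h1.resolve_left hne
      rw [show y / 8 = 0 by omega, List.drop_zero]
      cases a with
      | H m => exact absurd (show false = true from h3) (by decide)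
      | A o bw bu rw ru m => exact absurd (show false = true from h3) (by decide)
      | W k => exact absurd (show false = true from h3) (by decide)
      | Z k d m => exact absurd (show false = true from h3) (by decide)
      | F k =>
        rw [show M % 256 = 2 from Nat.eq_of_beq_eq_true h3] at hb
        rw [bit_two hb]
        exact Or.inl (by norm_num)
      | X k =>
        rw [show M % 256 = 2 from Nat.eq_of_beq_eq_true h3] at hb
        rw [bit_two hb]
        exact Or.inl (by norm_num)
      | T => exact trivial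
      | E => exact absurd (show false = true from h3) (by decide)
    · have hb : (M / 256).testBit (y - 8) = true := by
        rw [show (256 : ℕ) = 2 ^ 8 from rfl, Nat.testBit_div_two_pow,
          show y - 8 + 8 = y by omega]
        exact hy
      have h3 := ih (M / 256) (y - 8) h2 hb
      rw [show (y - 8) % 8 = y % 8 by omega] at h3
      rw [show y / 8 = (y - 8) / 8 + 1 by omega, List.drop_succ_cons]
      exact h3

/-- finished slots stay good for ever -/
theorem good_fin {D : List ℕ} {its : List It} {U A m : ℕ} (hU : chkFinM its U = true)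
    (hA : subK A U = true) (h : Good D its m A) (m' : ℕ) : Good D its m' A := by
  intro y hy _
  exact h y hy (chkFinM_sem m its U y hU (subK_bit hA hy))

theorem hcL_main {its : List It} {Ms : List (List (ℕ × ℕ))} {RT : List (ℕ × ℕ × ℕ)}
    {Bs : List ℕ} {tab : List RSt} {fin : ℕ → ℕ → ℕ → Bool} {B : BT} {D : List ℕ} {U : ℕ}
    (hM : chkMs its 0 Ms = true) (hR : chkR tab = true) (hB : chkBs Ms Bs tab 0 = true)
    (hU : chkFinM its U = true) (hRT : ∀ p ∈ RT, subK p.2.2 U = true)
    (hT : chkTL Ms RT Bs tab fin B B = true)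
    (V : List ℕ) : ∀ (W : List ℕ) (n : ℕ), D = W ++ V →
    Inst (nthR tab (B.get n % 256)).1 (nthR tab (B.get n % 256)).2.1 V →
    Good D its W.length (fulL Bs (B.get n)) →
    (∀ k, (resL (B.get n)).testBit k = true → RI D its RT k) →
    ∃ S r T, Good D its D.length S ∧ (∀ k, r.testBit k = true → RI D its RT k) ∧
      fin S r T = true := by
  induction V with
  | nil =>
    intro W n hD hi hg hr
    obtain ⟨T, hN⟩ := hcL_get hT n
    obtain ⟨-, h2, -⟩ := chkNL_imp hN
    refine ⟨_, _, T, ?_, hr, h2 (cover_null hi)⟩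
    have : D.length = W.length := by rw [hD]; simp
    rw [this]
    exact hg
  | cons a V ih =>
    intro W n hD hi hg hr
    obtain ⟨T, hN⟩ := hcL_get hT n
    obtain ⟨h1', -, h3⟩ := chkNL_imp hN
    have hs := hs4_nthR h1'
    have hR0 := hR
    rw [chkR, List.all_eq_true] at hR0
    have hs' := hR0 _ hs
    rw [Bool.and_eq_true, decide_eq_true_eq, List.all_eq_true] at hs'
    obtain ⟨h4, h5⟩ := hs'
    obtain ⟨r, hr1, hi'⟩ := cover_tr hi
    rw [h4, List.mem_map] at hr1
    obtain ⟨p, hp, hpr⟩ := hr1
    rw [Prod.mk.injEq] at hpr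
    obtain ⟨rfl, rfl⟩ := hpr
    have h6 := h5 p hp
    rw [Bool.and_eq_true, beq_iff_eq] at h6
    obtain ⟨t, ht1, ht2, ht3⟩ := chkEL_imp h3 hp
    have hm : W.length < D.length := by rw [hD]; simp
    have hl : D.getD W.length 0 = p.1 := by rw [hD]; simp
    have g1 := good_step hM hm hl hg
    refine ih (W ++ [p.1]) t (by rw [hD]; simp) ?_ ?_ ?_
    · rw [ht1, h6.2]
      exact hi'
    · rw [List.length_append, List.length_singleton]
      refine good_lor (good_subK g1 ht2) ?_
      have hb := chkBs_imp hB h1' hp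
      rw [Nat.zero_add] at hb
      have g2 : Good D its W.length (nthNF Bs (B.get n % 256)) := good_left hg
      have ht1' : Nat.mod (B.get t) 256 = p.2 := ht1
      rw [ht1']
      exact good_subK (good_step hM hm hl g2) hb
    · intro k hk
      rcases resK_bit ht3 hk with h | ⟨q, hq, hqk, hq3⟩
      · exact hr k h
      · exact ⟨q, hq, hqk, fun m' => good_fin hU (hRT q hq) (good_subK g1 hq3) m'⟩

/-! ### the final condition -/

/-- element of a list of types -/
noncomputable def nthTF (Ms : List (ℕ × ℕ)) : ℕ → ℕ × ℕ :=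
  List.rec (motive := fun _ => ℕ → ℕ × ℕ) (fun _ => (0, 0))
    (fun m _ ih n => Nat.rec (motive := fun _ => ℕ × ℕ) m (fun k _ => ih k) n) Ms

/-- a legal table of the left signatures -/
noncomputable def chkRT (ss : List Sig) (os : List ℕ) (m U : ℕ) (TL : List (ℕ × ℕ))
    (RT : List (ℕ × ℕ × ℕ)) : Bool :=
  RT.all fun p => Nat.blt p.2.1 m && Nat.blt p.2.1 65536 && subK p.2.2 U &&
    Nat.beq (accM 5 6 (nthSF ss p.2.1) (nthNF os p.2.1)) p.2.2 &&
    Sig.rec (motive := fun _ => Bool)
      (fun m1 m2 ps => decide ((Sig.L m1 m2 ps).ty = nthTF TL p.1) && Nat.ble ps.length 20)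
      (fun _ _ _ _ _ _ _ => false) (fun _ => false) (nthSF ss p.2.1)

/-- the final condition; `T / 2 ^ 32 = k + 1`: with the resolved type number `k` -/
noncomputable def finL (ss : List Sig) (os : List ℕ) (m : ℕ) (TL : List (ℕ × ℕ)) (S r T : ℕ) :
    Bool :=
  Nat.rec (motive := fun _ => Bool) (finG ss os m S T)
    (fun k _ => Nat.testBit r k && Nat.blt (Nat.mod T 65536) m &&
      Sig.rec (motive := fun _ => Bool) (fun _ _ _ => false)
        (fun ka kb d lo hi mm ps' =>
          subK (accM 5 6 (Sig.R ka kb d lo hi mm ps') (nthNF os (Nat.mod T 65536))) S &&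
          decide (nthTF TL k = (ka, kb)) && Nat.ble ps'.length 19)
        (fun _ => false) (nthSF ss (Nat.mod T 65536))) (Nat.div T 4294967296)

theorem finL_imp {ss : List Sig} {os : List ℕ} {TL : List (ℕ × ℕ)} {RT : List (ℕ × ℕ × ℕ)}
    {D : List ℕ} {its : List It} {U S r T : ℕ} (ho : chkOffs 5 6 ss os 0 = true)
    (hRT : chkRT ss os ss.length U TL RT = true) (hg : Good D its D.length S)
    (hr : ∀ k, r.testBit k = true → RI D its RT k)
    (h : finL ss os ss.length TL S r T = true) :
    ∃ S' T', Good D its D.length S' ∧ finC (accs 5 6 0 ss) S' T' = true := by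
  unfold finL at h
  generalize hk : Nat.div T 4294967296 = q at h
  cases q with
  | zero => exact ⟨S, T, hg, finG_imp ho h⟩
  | succ k =>
    have h' : (Nat.testBit r k && Nat.blt (Nat.mod T 65536) ss.length &&
      Sig.rec (motive := fun _ => Bool) (fun _ _ _ => false)
        (fun ka kb d lo hi mm ps' =>
          subK (accM 5 6 (Sig.R ka kb d lo hi mm ps') (nthNF os (Nat.mod T 65536))) S &&
          decide (nthTF TL k = (ka, kb)) && Nat.ble ps'.length 19)
        (fun _ => false) (nthSF ss (Nat.mod T 65536))) = true := h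
    rw [Bool.and_eq_true, Bool.and_eq_true] at h'
    obtain ⟨⟨h1, h2⟩, h3⟩ := h'
    obtain ⟨p, hp, hpk, hA⟩ := hr k h1
    rw [chkRT, List.all_eq_true] at hRT
    have h4 := hRT p hp
    rw [Bool.and_eq_true, Bool.and_eq_true, Bool.and_eq_true, Bool.and_eq_true] at h4
    obtain ⟨⟨⟨⟨h5, h5b⟩, -⟩, h6⟩, h7⟩ := h4
    have h5' : p.2.1 < ss.length := by
      have := h5
      rw [Nat.blt_eq] at this
      exact this
    have h2' : T % 65536 < ss.length := by
      have := h2
      rw [Nat.blt_eq] at this
      exact this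
    have ho' := chkOffs_eq ho
    have e1 := nth_accs (l1 := 5) (l2 := 6) (n := 0) h5'
    have e2 := nth_accs (l1 := 5) (l2 := 6) (n := 0) h2'
    rw [← ho', Nat.eq_of_beq_eq_true h6] at e1
    rw [← ho'] at e2
    refine ⟨Nat.lor S p.2.2, p.2.1 + 65536 * (T % 65536), good_lor hg (hA _), ?_⟩
    generalize hs : nthSF ss p.2.1 = s at e1 h7
    generalize ht : nthSF ss (T % 65536) = t at e2
    have ht' : nthSF ss (Nat.mod T 65536) = t := ht
    rw [ht'] at h3
    cases s with
    | R _ _ _ _ _ _ _ => exact absurd (show false = true from h7) (by decide)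
    | F _ => exact absurd (show false = true from h7) (by decide)
    | L m1 m2 ps =>
      cases t with
      | L _ _ _ => exact absurd (show false = true from h3) (by decide)
      | F _ => exact absurd (show false = true from h3) (by decide)
      | R ka kb d lo hi mm ps' =>
        have h7' : (decide ((Sig.L m1 m2 ps).ty = nthTF TL p.1) && Nat.ble ps.length 20) = true :=
          h7
        have h3' : (subK (accM 5 6 (Sig.R ka kb d lo hi mm ps') (nthNF os (T % 65536))) S &&
          decide (nthTF TL k = (ka, kb)) && Nat.ble ps'.length 19) = true := h3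
        rw [Bool.and_eq_true, decide_eq_true_eq] at h7'
        rw [Bool.and_eq_true, Bool.and_eq_true, decide_eq_true_eq] at h3'
        obtain ⟨h8, h9⟩ := h7'
        obtain ⟨⟨h10, h11⟩, h12⟩ := h3'
        have h9' := Nat.le_of_ble_eq_true h9
        have h12' := Nat.le_of_ble_eq_true h12
        have lt1 : p.2.1 < 65536 := by
          have := h5b
          rw [Nat.blt_eq] at this
          exact this
        have hsub : ∀ A, subK A S = true → Nat.beq (A &&& (Nat.lor S p.2.2)) A = true := by
          intro A hA'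
          have : A &&& (S ||| p.2.2) = A := by
            apply Nat.eq_of_testBit_eq
            intro i
            rw [Nat.testBit_and, Nat.testBit_or]
            cases hi : A.testBit i with
            | false => rfl
            | true =>
              rw [subK_bit hA' hi]
              rfl
          show Nat.beq (A &&& (S ||| p.2.2)) A = true
          rw [this]
          exact Nat.beq_refl A
        have hsub2 : Nat.beq (p.2.2 &&& (Nat.lor S p.2.2)) p.2.2 = true := by
          have : p.2.2 &&& (S ||| p.2.2) = p.2.2 := by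
            apply Nat.eq_of_testBit_eq
            intro i
            rw [Nat.testBit_and, Nat.testBit_or]
            cases hi : p.2.2.testBit i with
            | false => rfl
            | true => rw [Bool.or_true]; rfl
          show Nat.beq (p.2.2 &&& (S ||| p.2.2)) p.2.2 = true
          rw [this]
          exact Nat.beq_refl _
        have d1 : (p.2.1 + 65536 * (T % 65536)) % 65536 = p.2.1 := by omega
        have d2 : (p.2.1 + 65536 * (T % 65536)) / 65536 = T % 65536 := by omega
        unfold finC
        rw [d1, d2, e1]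
        simp only [hsub2, Bool.true_and, e2]
        rw [Bool.and_eq_true, Bool.and_eq_true, decide_eq_true_eq]
        refine ⟨⟨hsub _ h10, ?_⟩, ?_⟩
        · rw [h8, hpk, h11]
        · rw [Nat.ble_eq]
          omega

/-- the first node -/
noncomputable def chkFL (tab : List RSt) (Bs : List ℕ) (root : List Cell) (st : ℕ) (N : ℕ) :
    Bool :=
  Nat.beq (Nat.mod N 256) 0 && subK (fulL Bs N) st && Nat.beq (resL N) 0 &&
    !(nthR tab 0).1 && decide ((nthR tab 0).2.1 = root)

/-- **Soundness of a learned class certificate** over a pool of signatures -/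
theorem hs_classL {root : List Cell} {ss : List Sig} {its : List It}
    {Ms : List (List (ℕ × ℕ))} {os : List ℕ} {st : ℕ} {tab : List RSt} {B : BT}
    {RT : List (ℕ × ℕ × ℕ)} {Bs : List ℕ} {TL : List (ℕ × ℕ)} {U : ℕ}
    (h_its : items 5 6 ss = its) (h_ok : (ss.all fun s => s.ok && s.marks) = true)
    (h_ms : chkMs its 0 Ms = true) (h_os : chkOffs 5 6 ss os 0 = true)
    (h_st : chkStart true its st = true) {m : ℕ} (h_m : ss.length = m)
    (h_U : chkFinM its U = true) (h_RT : chkRT ss os m U TL RT = true)
    (h_tab : chkR tab = true) (h_Bs : chkBs Ms Bs tab 0 = true)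
    (h_root : chkRoot 5 6 root = true) (h_start : chkFL tab Bs root st (B.get 0) = true)
    (h_cert : chkTL Ms RT Bs tab (finL ss os m TL) B B = true) :
    ∀ D, Inst false root D → Comp (D.map vl) 40 0 0 0 := by
  intro D hD
  unfold chkFL at h_start
  rw [Bool.and_eq_true, Bool.and_eq_true, Bool.and_eq_true, Bool.and_eq_true,
    decide_eq_true_eq] at h_start
  obtain ⟨⟨⟨⟨s1, s2⟩, s5⟩, s3⟩, s4⟩ := h_start
  subst h_its h_m
  have hRT' : ∀ p ∈ RT, subK p.2.2 U = true := by
    intro p hp
    have h4 := h_RT
    rw [chkRT, List.all_eq_true] at h4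
    have h5 := h4 p hp
    rw [Bool.and_eq_true, Bool.and_eq_true, Bool.and_eq_true, Bool.and_eq_true] at h5
    exact h5.1.1.2
  obtain ⟨S, r, T, hg, hr, hf⟩ := hcL_main h_ms h_tab h_Bs h_U hRT' h_cert D [] 0 rfl (by
      have e1 : B.get 0 % 256 = 0 := Nat.eq_of_beq_eq_true s1
      rw [e1, s4]
      have e2 : (nthR tab 0).1 = false := by simpa using s3
      rw [e2]
      exact hD)
    (good_subK (good_start h_st) s2)
    (by
      intro k hk
      rw [Nat.eq_of_beq_eq_true s5] at hk
      simp at hk)
  obtain ⟨S', T', hg', hf'⟩ := finL_imp h_os h_RT hg hr hf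
  exact fin_sound h_ok h_root hD hg' hf'

end Pool.Agent.H.MP_2e666d_lc.HS
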