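import Pool.Agent.H.MP_2e666d_lc.HCL

/-! # Half signatures: learned certificates with inlined nodes

Only the nodes with several predecessors are stored, each by the difference of its slots to the
slots of another stored node; a node with one predecessor is checked with the slots which result
from the slots of the predecessor.  The transitions are given by streams of numbers. -/

namespace Pool.Agent.H.MP_2e666d_lc.HS

open Pool.Agent.H.MP_2e666d_lc Pool.Agent.H.MP_2e666d_lc.T3

/-- the headers of the stored nodes; `s C a`: the headers `a` with the stream `C` -/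
inductive HT where
  | l (N : ℕ)
  | n (a b : HT)
  | s (C : ℕ) (a : HT)

/-- the header number `n` -/
noncomputable def HT.get (B : HT) : ℕ → ℕ :=
  HT.rec (motive := fun _ => ℕ → ℕ) (fun N _ => N)
    (fun _ _ ia ib n => Bool.rec (motive := fun _ => ℕ) (ib (Nat.div n 2)) (ia (Nat.div n 2))
      (Nat.beq (Nat.mod n 2) 0)) (fun _ _ ia n => ia n) B

/-- evaluation of the argument -/
noncomputable def frc (f : ℕ → Bool) (x : ℕ) : Bool :=
  Nat.rec (motive := fun _ => Bool) true (fun k _ => f k) (Nat.succ x)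

/-- evaluation of the argument -/
noncomputable def frn (f : ℕ → ℕ) (x : ℕ) : ℕ :=
  Nat.rec (motive := fun _ => ℕ) 0 (fun k _ => f k) (Nat.succ x)

theorem frc_eq (f : ℕ → Bool) (x : ℕ) : frc f x = f x := rfl

/-- the changed slots of the header `N`; bits of `N`: 8 state, 8 depth, 16 reference, 12 number of
the changes, 16 different for different headers, changes, resolved types -/
noncomputable def dltM (N : ℕ) : ℕ :=
  mkC (Nat.mod (Nat.shiftRight N 32) 4096) (Nat.shiftRight N 60)

/-- the resolved types of the header `N` -/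
noncomputable def resM (N : ℕ) : ℕ :=
  Nat.shiftRight (Nat.shiftRight N 60) (Nat.mul 16 (Nat.mod (Nat.shiftRight N 32) 4096))

/-- the slots of the header `N` with the depth `d` -/
noncomputable def decR (B : HT) (d : ℕ) : ℕ → ℕ :=
  Nat.rec (motive := fun _ => ℕ → ℕ) dltM
    (fun _ ih N => Nat.xor (dltM N)
      (frn (fun u => frn ih (B.get u)) (Nat.mod (Nat.shiftRight N 16) 65536))) d

/-- the slots of the header `N` -/
noncomputable def decM (B : HT) (N : ℕ) : ℕ :=
  frn (fun d => decR B d N) (Nat.mod (Nat.shiftRight N 8) 256)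

noncomputable def memN (k : ℕ) (ks : List ℕ) : Bool :=
  List.rec (motive := fun _ => Bool) false
    (fun x _ ih => Bool.rec (motive := fun _ => Bool) ih true (Nat.beq x k)) ks

/-- the masks with the shifts in `ks` -/
noncomputable def flt (ks : List ℕ) (l : List (ℕ × ℕ)) : List (ℕ × ℕ) :=
  List.rec (motive := fun _ => List (ℕ × ℕ)) []
    (fun p _ ih => Bool.rec (motive := fun _ => List (ℕ × ℕ)) ih (p :: ih) (memN p.1 ks)) l

/-- element of a list of lists of numbers -/
noncomputable def nthKF (Ms : List (List ℕ)) : ℕ → List ℕ :=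
  List.rec (motive := fun _ => ℕ → List ℕ) (fun _ => [])
    (fun m _ ih n => Nat.rec (motive := fun _ => List ℕ) m (fun k _ => ih k) n) Ms

/-- functions of the set of slots -/
inductive FB where
  | mk (f : ℕ → ℕ)

noncomputable def frF (f : ℕ → FB) (x : ℕ) : FB :=
  Nat.rec (motive := fun _ => FB) (FB.mk (fun _ => 0)) (fun k _ => f k) (Nat.succ x)

/-- the masks applied to `S`, not yet shifted back; the kernel evaluates this only once -/
noncomputable def mkFB (ms : List (ℕ × ℕ)) : FB :=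
  List.rec (motive := fun _ => FB) (FB.mk (fun _ => 0))
    (fun p l ih => frF (fun k => frF (fun M => List.rec (motive := fun _ => FB)
      (FB.mk (fun S => Nat.shiftLeft (Nat.land S M) k))
      (fun _ _ _ => FB.rec (motive := fun _ => FB)
        (fun g => FB.mk (fun S => Nat.lor (Nat.shiftLeft (Nat.land S M) k) (g S))) ih) l)
      p.2) p.1) ms

/-- reading the letter `a` with the masks number `c` -/
noncomputable def stM (Ms : List (List (ℕ × ℕ))) (KS : List (List ℕ)) (a c S : ℕ) : ℕ :=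
  FB.rec (motive := fun _ => ℕ) (fun f => Nat.shiftRight (f S) 8)
    (mkFB (flt (nthKF KS c) (nthMF Ms a)))

/-- the transition to a stored node with the number `N'` -/
noncomputable def tgtM (RT : List (ℕ × ℕ × ℕ)) (B : HT) (S r s N' : ℕ) : Bool :=
  Bool.rec (motive := fun _ => Bool) false
    (Bool.rec (motive := fun _ => Bool) false
      (Bool.rec (motive := fun _ => Bool) (resK RT S r (resM N')) true (Nat.beq (resM N') 0))
      (subK (decM B N') S)) (Nat.beq (Nat.mod N' 256) s)

/-- one transition; `v` = stored node, `65535` = inlined node, `65534` = inlined node with more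
resolved types -/
noncomputable def edgeM (Ms : List (List (ℕ × ℕ))) (KS : List (List ℕ)) (RT : List (ℕ × ℕ × ℕ))
    (Bs : List ℕ) (B : HT) (ih : ℕ → ℕ → ℕ → ℕ → (ℕ → Bool) → Bool)
    (ihl : ℕ → (ℕ → Bool) → Bool) (S r a s C : ℕ) (k : ℕ → Bool) (c v : ℕ) : Bool :=
  Bool.rec (motive := fun _ => Bool)
    (Bool.rec (motive := fun _ => Bool) false (ihl (Nat.shiftRight C 20) k)
      (frc (fun N' => tgtM RT B (stM Ms KS a c S) r s N') (B.get v)))
    (ih (Nat.lor (stM Ms KS a c S) (nthNF Bs s))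
      (Bool.rec (motive := fun _ => ℕ) (Nat.lor r (newR (stM Ms KS a c S) RT)) r
        (Nat.beq v 65535)) s (Nat.shiftRight C 20) (fun C' => ihl C' k))
    (Nat.ble 65534 v)

noncomputable def edgesM (Ms : List (List (ℕ × ℕ))) (KS : List (List ℕ))
    (RT : List (ℕ × ℕ × ℕ)) (Bs : List ℕ) (B : HT) (ih : ℕ → ℕ → ℕ → ℕ → (ℕ → Bool) → Bool)
    (S r : ℕ) (l : List (ℕ × ℕ)) : ℕ → (ℕ → Bool) → Bool :=
  List.rec (motive := fun _ => ℕ → (ℕ → Bool) → Bool) (fun C k => k C)
    (fun p _ ihl C k => frc (fun c => frc (fun v => edgeM Ms KS RT Bs B ih ihl S r p.1 p.2 C k c v)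
      (Nat.mod (Nat.shiftRight C 4) 65536)) (Nat.mod C 16)) l

/-- the check of a node; arguments: fuel, slots, resolved types, state, stream, continuation -/
noncomputable def nodeM (Ms : List (List (ℕ × ℕ))) (KS : List (List ℕ))
    (RT : List (ℕ × ℕ × ℕ)) (Bs : List ℕ) (tab : List RSt) (fin : ℕ → ℕ → ℕ → Bool) (B : HT)
    (f : ℕ) : ℕ → ℕ → ℕ → ℕ → (ℕ → Bool) → Bool :=
  Nat.rec (motive := fun _ => ℕ → ℕ → ℕ → ℕ → (ℕ → Bool) → Bool) (fun _ _ _ _ _ => false)
    (fun _ ih S r q C k => Bool.rec (motive := fun _ => Bool)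
      (edgesM Ms KS RT Bs B ih S r (nthRF tab q).2.2 C k)
      (Bool.rec (motive := fun _ => Bool) false
        (edgesM Ms KS RT Bs B ih S r (nthRF tab q).2.2 (Nat.shiftRight C 40) k)
        (fin S r (Nat.mod C 1099511627776)))
      (cvNull (nthRF tab q).2.1)) f

/-- the check of a stored node -/
noncomputable def storM (Ms : List (List (ℕ × ℕ))) (KS : List (List ℕ))
    (RT : List (ℕ × ℕ × ℕ)) (Bs : List ℕ) (tab : List RSt) (fin : ℕ → ℕ → ℕ → Bool) (B : HT)
    (f N C : ℕ) (k : ℕ → Bool) : Bool :=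
  frc (fun q => nodeM Ms KS RT Bs tab fin B f (Nat.lor (decM B N) (nthNF Bs q)) (resM N) q C k)
    (Nat.mod N 256)

noncomputable def walkM (chk : ℕ → ℕ → (ℕ → Bool) → Bool) (B0 : HT) :
    ℕ → (ℕ → Bool) → Bool :=
  HT.rec (motive := fun _ => ℕ → (ℕ → Bool) → Bool) (fun N C k => chk N C k)
    (fun _ _ ia ib C k => ia C (fun C' => ib C' k)) (fun _ _ _ _ _ => false) B0

noncomputable def chkTM (Ms : List (List (ℕ × ℕ))) (KS : List (List ℕ))
    (RT : List (ℕ × ℕ × ℕ)) (Bs : List ℕ) (tab : List RSt) (fin : ℕ → ℕ → ℕ → Bool) (B : HT)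
    (f : ℕ) (B0 : HT) : Bool :=
  HT.rec (motive := fun _ => Bool) (fun _ => false)
    (fun _ _ ia ib => Bool.rec (motive := fun _ => Bool) false ib ia)
    (fun C a _ => walkM (storM Ms KS RT Bs tab fin B f) a C (fun _ => true)) B0

/-! ### logical forms -/

theorem flt_mem {ks : List ℕ} {l : List (ℕ × ℕ)} {p : ℕ × ℕ} (h : p ∈ flt ks l) : p ∈ l := by
  induction l with
  | nil => exact h
  | cons x l ih =>
    have h1 : p ∈ Bool.rec (motive := fun _ => List (ℕ × ℕ)) (flt ks l) (x :: flt ks l)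
      (memN x.1 ks) := h
    cases h2 : memN x.1 ks with
    | false =>
      rw [h2] at h1
      exact List.mem_cons_of_mem _ (ih h1)
    | true =>
      rw [h2] at h1
      rcases List.mem_cons.1 (show p ∈ x :: flt ks l from h1) with rfl | h3
      · exact List.mem_cons_self
      · exact List.mem_cons_of_mem _ (ih h3)

theorem stepL_bit {l : List (ℕ × ℕ)} {S y : ℕ} :
    (stepL l S).testBit y = true ↔ ∃ p ∈ l, (((S &&& p.2) <<< p.1) >>> 8).testBit y = true := by
  induction l with
  | nil => simp [stepL]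
  | cons x l ih =>
    rw [stepL, Nat.testBit_or, Bool.or_eq_true, ih]
    simp

theorem mkFB_eq (ms : List (ℕ × ℕ)) : mkFB ms = FB.mk (fun S => stepF0 S ms) := by
  induction ms with
  | nil => rfl
  | cons p l ih =>
    have h1 : mkFB (p :: l) = List.rec (motive := fun _ => FB)
      (FB.mk (fun S => Nat.shiftLeft (Nat.land S p.2) p.1))
      (fun _ _ _ => FB.rec (motive := fun _ => FB)
        (fun g => FB.mk (fun S => Nat.lor (Nat.shiftLeft (Nat.land S p.2) p.1) (g S)))
        (mkFB l)) l := rfl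
    rw [h1, ih]
    cases l with
    | nil =>
      show FB.mk (fun S => Nat.shiftLeft (Nat.land S p.2) p.1) =
        FB.mk (fun S => Nat.lor (Nat.shiftLeft (Nat.land S p.2) p.1) 0)
      congr 1
      funext S
      exact (Nat.or_zero _).symm
    | cons _ _ => rfl

theorem stM_eq (Ms : List (List (ℕ × ℕ))) (KS : List (List ℕ)) (a c S : ℕ) :
    stM Ms KS a c S = stepF (flt (nthKF KS c) (nthMF Ms a)) S := by
  unfold stM
  rw [mkFB_eq]
  rfl

theorem stM_bit {Ms : List (List (ℕ × ℕ))} {KS : List (List ℕ)} {a c S y : ℕ}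
    (h : (stM Ms KS a c S).testBit y = true) : (stepL (nthM Ms a) S).testBit y = true := by
  rw [stM_eq, stepF_eq, stepL_bit] at h
  obtain ⟨p, hp, h1⟩ := h
  rw [stepL_bit, ← nthMF_eq]
  exact ⟨p, flt_mem hp, h1⟩

theorem good_bit {D : List ℕ} {its : List It} {m S M : ℕ} (h : Good D its m S)
    (hs : ∀ y, M.testBit y = true → S.testBit y = true) : Good D its m M :=
  fun y hy hsem => h y (hs y hy) hsem

theorem tgtM_imp {RT : List (ℕ × ℕ × ℕ)} {B : HT} {S r s N' : ℕ}
    (h : tgtM RT B S r s N' = true) :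
    N' % 256 = s ∧ subK (decM B N') S = true ∧
      ((resM N') = 0 ∨ resK RT S r (resM N') = true) := by
  obtain ⟨h1, h2⟩ := rec_true h
  obtain ⟨h2, h3⟩ := rec_true h2
  refine ⟨Nat.eq_of_beq_eq_true h1, h2, ?_⟩
  cases h4 : Nat.beq (resM N') 0 with
  | true => exact Or.inl (Nat.eq_of_beq_eq_true h4)
  | false =>
    rw [h4] at h3
    exact Or.inr h3

/-- the continuation holds somewhere -/
def KC (f : ℕ → ℕ → ℕ → ℕ → (ℕ → Bool) → Bool) : Prop :=
  ∀ S r q C k, f S r q C k = true → ∃ C', k C' = true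

/-- a transition is all right -/
def EdgeM (Ms : List (List (ℕ × ℕ))) (KS : List (List ℕ)) (RT : List (ℕ × ℕ × ℕ))
    (Bs : List ℕ) (B : HT) (ih : ℕ → ℕ → ℕ → ℕ → (ℕ → Bool) → Bool) (S r a s : ℕ) : Prop :=
  ∃ c, (∃ v, tgtM RT B (stM Ms KS a c S) r s (B.get v) = true) ∨
      ∃ r' C k, ih (Nat.lor (stM Ms KS a c S) (nthNF Bs s)) r' s C k = true ∧
        (r' = r ∨ r' = Nat.lor r (newR (stM Ms KS a c S) RT))

theorem edgeM_imp {Ms : List (List (ℕ × ℕ))} {KS : List (List ℕ)} {RT : List (ℕ × ℕ × ℕ)}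
    {Bs : List ℕ} {B : HT} {ih : ℕ → ℕ → ℕ → ℕ → (ℕ → Bool) → Bool}
    {ihl : ℕ → (ℕ → Bool) → Bool} {S r a s C : ℕ} {k : ℕ → Bool} {c v : ℕ} (hk : KC ih)
    (h : edgeM Ms KS RT Bs B ih ihl S r a s C k c v = true) :
    (∃ C', ihl C' k = true) ∧ EdgeM Ms KS RT Bs B ih S r a s := by
  unfold edgeM at h
  cases h1 : Nat.ble 65534 v with
  | false =>
    rw [h1] at h
    obtain ⟨h2, h3⟩ := rec_true h
    exact ⟨⟨_, h3⟩, c, Or.inl ⟨v, h2⟩⟩
  | true =>
    rw [h1] at h
    have h2 : ih (Nat.lor (stM Ms KS a c S) (nthNF Bs s))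
      (Bool.rec (motive := fun _ => ℕ) (Nat.lor r (newR (stM Ms KS a c S) RT)) r
        (Nat.beq v 65535)) s (Nat.shiftRight C 20) (fun C' => ihl C' k) = true := h
    refine ⟨hk _ _ _ _ _ h2, c, Or.inr ⟨_, _, _, h2, ?_⟩⟩
    cases Nat.beq v 65535 with
    | true => exact Or.inl rfl
    | false => exact Or.inr rfl

theorem edgesM_imp {Ms : List (List (ℕ × ℕ))} {KS : List (List ℕ)} {RT : List (ℕ × ℕ × ℕ)}
    {Bs : List ℕ} {B : HT} {ih : ℕ → ℕ → ℕ → ℕ → (ℕ → Bool) → Bool} {S r : ℕ}
    {l : List (ℕ × ℕ)} {C : ℕ} {k : ℕ → Bool} (hk : KC ih)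
    (h : edgesM Ms KS RT Bs B ih S r l C k = true) :
    (∃ C', k C' = true) ∧ ∀ p ∈ l, EdgeM Ms KS RT Bs B ih S r p.1 p.2 := by
  induction l generalizing C k with
  | nil => exact ⟨⟨C, h⟩, by simp⟩
  | cons x l ihl =>
    have h1 : edgeM Ms KS RT Bs B ih (edgesM Ms KS RT Bs B ih S r l) S r x.1 x.2 C k
      (Nat.mod C 16) (Nat.mod (Nat.shiftRight C 4) 65536) = true := h
    obtain ⟨⟨C', h2⟩, h3⟩ := edgeM_imp hk h1
    obtain ⟨h4, h5⟩ := ihl h2
    refine ⟨h4, ?_⟩
    intro p hp
    rcases List.mem_cons.1 hp with rfl | hp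
    · exact h3
    · exact h5 p hp

theorem nodeM_imp {Ms : List (List (ℕ × ℕ))} {KS : List (List ℕ)} {RT : List (ℕ × ℕ × ℕ)}
    {Bs : List ℕ} {tab : List RSt} {fin : ℕ → ℕ → ℕ → Bool} {B : HT} {f S r q C : ℕ}
    {k : ℕ → Bool} (hk : KC (nodeM Ms KS RT Bs tab fin B f))
    (h : nodeM Ms KS RT Bs tab fin B (f + 1) S r q C k = true) :
    (∃ C', k C' = true) ∧ (cvNull (nthR tab q).2.1 = true → ∃ T, fin S r T = true) ∧
      ∀ p ∈ (nthR tab q).2.2, EdgeM Ms KS RT Bs B (nodeM Ms KS RT Bs tab fin B f) S r p.1 p.2 := by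
  have h0 : Bool.rec (motive := fun _ => Bool)
      (edgesM Ms KS RT Bs B (nodeM Ms KS RT Bs tab fin B f) S r (nthRF tab q).2.2 C k)
      (Bool.rec (motive := fun _ => Bool) false
        (edgesM Ms KS RT Bs B (nodeM Ms KS RT Bs tab fin B f) S r (nthRF tab q).2.2
          (Nat.shiftRight C 40) k)
        (fin S r (Nat.mod C 1099511627776)))
      (cvNull (nthRF tab q).2.1) = true := h
  rw [nthRF_eq] at h0
  cases h1 : cvNull (nthR tab q).2.1 with
  | false =>
    rw [h1] at h0
    obtain ⟨h2, h3⟩ := edgesM_imp hk h0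
    exact ⟨h2, fun h4 => absurd h4 (by decide), h3⟩
  | true =>
    rw [h1] at h0
    obtain ⟨h2, h3⟩ := rec_true h0
    obtain ⟨h4, h5⟩ := edgesM_imp hk h3
    exact ⟨h4, fun _ => ⟨_, h2⟩, h5⟩

theorem nodeM_kc {Ms : List (List (ℕ × ℕ))} {KS : List (List ℕ)} {RT : List (ℕ × ℕ × ℕ)}
    {Bs : List ℕ} {tab : List RSt} {fin : ℕ → ℕ → ℕ → Bool} {B : HT} (f : ℕ) :
    KC (nodeM Ms KS RT Bs tab fin B f) := by
  induction f with
  | zero => intro S r q C k h; exact absurd (show false = true from h) (by decide)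
  | succ f ih => intro S r q C k h; exact (nodeM_imp ih h).1

theorem chkTM_node {Ms : List (List (ℕ × ℕ))} {KS : List (List ℕ)} {RT : List (ℕ × ℕ × ℕ)}
    {Bs : List ℕ} {tab : List RSt} {fin : ℕ → ℕ → ℕ → Bool} {B a b : HT} {f : ℕ}
    (ha : chkTM Ms KS RT Bs tab fin B f a = true) (hb : chkTM Ms KS RT Bs tab fin B f b = true) :
    chkTM Ms KS RT Bs tab fin B f (HT.n a b) = true := by
  show Bool.rec (motive := fun _ => Bool) false (chkTM Ms KS RT Bs tab fin B f b)
    (chkTM Ms KS RT Bs tab fin B f a) = true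
  rw [ha]
  exact hb

theorem get_node (a b : HT) (n : ℕ) : (HT.n a b).get n = Bool.rec (motive := fun _ => ℕ)
    (b.get (Nat.div n 2)) (a.get (Nat.div n 2)) (Nat.beq (Nat.mod n 2) 0) := rfl

theorem walkM_get {chk : ℕ → ℕ → (ℕ → Bool) → Bool}
    (hc : ∀ N C k, chk N C k = true → ∃ C', k C' = true) {B0 : HT} :
    ∀ {C : ℕ} {k : ℕ → Bool}, walkM chk B0 C k = true → (∃ C', k C' = true) ∧
      ∀ n, ∃ C' k', chk (B0.get n) C' k' = true := by
  induction B0 with
  | l N => intro C k h; exact ⟨hc N C k h, fun _ => ⟨C, k, h⟩⟩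
  | n a b iha ihb =>
    intro C k h
    have h' : walkM chk a C (fun C' => walkM chk b C' k) = true := h
    obtain ⟨⟨C', h1⟩, h2⟩ := iha h'
    obtain ⟨h3, h4⟩ := ihb h1
    refine ⟨h3, ?_⟩
    intro n
    rw [get_node]
    cases Nat.beq (Nat.mod n 2) 0 with
    | true => exact h2 _
    | false => exact h4 _
  | s C a _ => intro C k h; exact absurd (show false = true from h) (by decide)

theorem hcM_get {Ms : List (List (ℕ × ℕ))} {KS : List (List ℕ)} {RT : List (ℕ × ℕ × ℕ)}
    {Bs : List ℕ} {tab : List RSt} {fin : ℕ → ℕ → ℕ → Bool} {B B0 : HT} {f : ℕ}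
    (h : chkTM Ms KS RT Bs tab fin B f B0 = true) (n : ℕ) :
    ∃ C k, nodeM Ms KS RT Bs tab fin B f (Nat.lor (decM B (B0.get n))
      (nthNF Bs (Nat.mod (B0.get n) 256))) (resM (B0.get n)) (Nat.mod (B0.get n) 256) C k
        = true := by
  induction B0 generalizing n with
  | l N => exact absurd (show false = true from h) (by decide)
  | n a b iha ihb =>
    obtain ⟨h1, h2⟩ := rec_true (a := chkTM Ms KS RT Bs tab fin B f a)
      (b := chkTM Ms KS RT Bs tab fin B f b) h
    rw [get_node]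
    cases Nat.beq (Nat.mod n 2) 0 with
    | true => exact iha h1 _
    | false => exact ihb h2 _
  | s C a _ =>
    have h' : walkM (storM Ms KS RT Bs tab fin B f) a C (fun _ => true) = true := h
    have hc : ∀ N C k, storM Ms KS RT Bs tab fin B f N C k = true → ∃ C', k C' = true :=
      fun N C k h => nodeM_kc f _ _ _ _ _ h
    exact (walkM_get hc h').2 n

/-- soundness of a check for the suffixes with less than `n` letters -/
def SndM (D : List ℕ) (its : List It) (RT : List (ℕ × ℕ × ℕ)) (Bs : List ℕ) (tab : List RSt)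
    (fin : ℕ → ℕ → ℕ → Bool) (n S r q : ℕ) : Prop :=
  ∀ W V : List ℕ, V.length < n → D = W ++ V → q < tab.length →
    Inst (nthR tab q).1 (nthR tab q).2.1 V → Good D its W.length S →
    Good D its W.length (nthNF Bs q) → (∀ k, r.testBit k = true → RI D its RT k) →
    ∃ S r T, Good D its D.length S ∧ (∀ k, r.testBit k = true → RI D its RT k) ∧
      fin S r T = true

theorem newR_RI {its : List It} {RT : List (ℕ × ℕ × ℕ)} {D : List ℕ} {U S m : ℕ}
    (hU : chkFinM its U = true) (hRT : ∀ p ∈ RT, subK p.2.2 U = true)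
    (hg : Good D its m S) {k : ℕ} (hk : (newR S RT).testBit k = true) : RI D its RT k := by
  obtain ⟨q, hq, hqk, hq3⟩ := newR_bit hk
  exact ⟨q, hq, hqk, fun m' => good_fin hU (hRT q hq) (good_subK hg hq3) m'⟩

theorem sndM_step {its : List It} {Ms : List (List (ℕ × ℕ))} {KS : List (List ℕ)}
    {RT : List (ℕ × ℕ × ℕ)} {Bs : List ℕ} {tab : List RSt} {fin : ℕ → ℕ → ℕ → Bool} {B : HT}
    {D : List ℕ} {U : ℕ}
    (hM : chkMs its 0 Ms = true) (hR : chkR tab = true) (hB : chkBs Ms Bs tab 0 = true)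
    (hU : chkFinM its U = true) (hRT : ∀ p ∈ RT, subK p.2.2 U = true) {n : ℕ}
    (hn : ∀ v, SndM D its RT Bs tab fin n (Nat.lor (decM B (B.get v))
      (nthNF Bs (Nat.mod (B.get v) 256))) (resM (B.get v)) (Nat.mod (B.get v) 256)) (f : ℕ) :
    ∀ S r q C k, nodeM Ms KS RT Bs tab fin B f S r q C k = true →
      SndM D its RT Bs tab fin (n + 1) S r q := by
  induction f with
  | zero => intro S r q C k h; exact absurd (show false = true from h) (by decide)
  | succ f ih =>
    intro S r q C k h W V hV hD hq hi hg hb hr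
    obtain ⟨-, h2, h3⟩ := nodeM_imp (nodeM_kc f) h
    cases V with
    | nil =>
      obtain ⟨T, h2⟩ := h2 (cover_null hi)
      refine ⟨S, r, T, ?_, hr, h2⟩
      have : D.length = W.length := by rw [hD]; simp
      rw [this]
      exact hg
    | cons x V =>
      have hs := hs4_nthR hq
      have hR0 := hR
      rw [chkR, List.all_eq_true] at hR0
      have hs' := hR0 _ hs
      rw [Bool.and_eq_true, decide_eq_true_eq, List.all_eq_true] at hs'
      obtain ⟨h4, h5⟩ := hs'
      obtain ⟨w, hr1, hi'⟩ := cover_tr hi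
      rw [h4, List.mem_map] at hr1
      obtain ⟨p, hp, hpr⟩ := hr1
      rw [Prod.mk.injEq] at hpr
      obtain ⟨rfl, rfl⟩ := hpr
      have h6 := h5 p hp
      rw [Bool.and_eq_true, beq_iff_eq] at h6
      have hq' : p.2 < tab.length := by
        have h7 := h6.1
        rw [Nat.blt_eq] at h7
        exact h7
      have hm : W.length < D.length := by rw [hD]; simp
      have hl : D.getD W.length 0 = p.1 := by rw [hD]; simp
      have hWl : (W ++ [p.1]).length = W.length + 1 := by simp
      have hD' : D = (W ++ [p.1]) ++ V := by rw [hD]; simp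
      have hVn : V.length < n := by
        have : (p.1 :: V).length = V.length + 1 := rfl
        omega
      -- the base slots
      have gb : Good D its (W ++ [p.1]).length (nthNF Bs p.2) := by
        have h7 := chkBs_imp hB hq hp
        rw [Nat.zero_add] at h7
        rw [hWl]
        exact good_subK (good_step hM hm hl hb) h7
      have gs : ∀ c, Good D its (W ++ [p.1]).length (stM Ms KS p.1 c S) := by
        intro c
        rw [hWl]
        exact good_bit (good_step hM hm hl hg) fun y hy => stM_bit hy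
      have hi2 : Inst (nthR tab p.2).1 (nthR tab p.2).2.1 V := by
        rw [h6.2]
        exact hi'
      obtain ⟨c, ⟨v, h7⟩ | ⟨r', C', k', h7, h8⟩⟩ := h3 p hp
      · obtain ⟨h8, h9, h10⟩ := tgtM_imp h7
        have h8' : Nat.mod (B.get v) 256 = p.2 := h8
        refine hn v (W ++ [p.1]) V hVn hD' ?_ ?_ ?_ ?_ ?_
        · rw [h8']
          exact hq'
        · rw [h8']
          exact hi2
        · refine good_lor (good_subK (gs c) h9) ?_
          rw [h8']
          exact gb
        · rw [h8']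
          exact gb
        · intro k hk
          rcases h10 with h10 | h10
          · rw [h10] at hk
            simp at hk
          · rcases resK_bit h10 hk with h11 | ⟨q', hq, hqk, hq3⟩
            · exact hr k h11
            · exact ⟨q', hq, hqk, fun m' => good_fin hU (hRT q' hq) (good_subK (gs c) hq3) m'⟩
      · refine ih _ _ _ _ _ h7 (W ++ [p.1]) V (Nat.lt_succ_of_lt hVn) hD' hq' hi2
          (good_lor (gs c) gb) gb ?_
        intro k' hk'
        rcases h8 with rfl | rfl
        · exact hr k' hk'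
        · have hk2 : (r ||| newR (stM Ms KS p.1 c S) RT).testBit k' = true := hk'
          rw [Nat.testBit_or, Bool.or_eq_true] at hk2
          rcases hk2 with hk2 | hk2
          · exact hr k' hk2
          · exact newR_RI hU hRT (gs c) hk2

theorem sndM {its : List It} {Ms : List (List (ℕ × ℕ))} {KS : List (List ℕ)}
    {RT : List (ℕ × ℕ × ℕ)} {Bs : List ℕ} {tab : List RSt} {fin : ℕ → ℕ → ℕ → Bool} {B : HT}
    {D : List ℕ} {U f : ℕ}
    (hM : chkMs its 0 Ms = true) (hR : chkR tab = true) (hB : chkBs Ms Bs tab 0 = true)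
    (hU : chkFinM its U = true) (hRT : ∀ p ∈ RT, subK p.2.2 U = true)
    (hT : chkTM Ms KS RT Bs tab fin B f B = true) (n : ℕ) :
    ∀ v, SndM D its RT Bs tab fin n (Nat.lor (decM B (B.get v))
      (nthNF Bs (Nat.mod (B.get v) 256))) (resM (B.get v)) (Nat.mod (B.get v) 256) := by
  induction n with
  | zero =>
    intro v W V hV
    exact absurd hV (Nat.not_lt_zero _)
  | succ n ih =>
    intro v
    obtain ⟨C, k, h⟩ := hcM_get hT v
    exact sndM_step hM hR hB hU hRT ih f _ _ _ _ _ h

/-- the first node -/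
noncomputable def chkFM (tab : List RSt) (Bs : List ℕ) (root : List Cell) (st : ℕ) (B : HT)
    (N : ℕ) : Bool :=
  Nat.beq (Nat.mod N 256) 0 && subK (Nat.lor (decM B N) (nthNF Bs 0)) st &&
    Nat.beq (resM N) 0 && Nat.blt 0 tab.length &&
    !(nthR tab 0).1 && decide ((nthR tab 0).2.1 = root)

/-- **Soundness of a learned class certificate** with inlined nodes -/
theorem hs_classM {root : List Cell} {ss : List Sig} {its : List It}
    {Ms : List (List (ℕ × ℕ))} {os : List ℕ} {st : ℕ} {tab : List RSt} {B : HT}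
    {KS : List (List ℕ)} {RT : List (ℕ × ℕ × ℕ)} {Bs : List ℕ} {TL : List (ℕ × ℕ)} {U f : ℕ}
    (h_its : items 5 6 ss = its) (h_ok : (ss.all fun s => s.ok && s.marks) = true)
    (h_ms : chkMs its 0 Ms = true) (h_os : chkOffs 5 6 ss os 0 = true)
    (h_st : chkStart true its st = true) {m : ℕ} (h_m : ss.length = m)
    (h_U : chkFinM its U = true) (h_RT : chkRT ss os m U TL RT = true)
    (h_tab : chkR tab = true) (h_Bs : chkBs Ms Bs tab 0 = true)
    (h_root : chkRoot 5 6 root = true) (h_start : chkFM tab Bs root st B (B.get 0) = true)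
    (h_cert : chkTM Ms KS RT Bs tab (finL ss os m TL) B f B = true) :
    ∀ D, Inst false root D → Comp (D.map vl) 40 0 0 0 := by
  intro D hD
  unfold chkFM at h_start
  rw [Bool.and_eq_true, Bool.and_eq_true, Bool.and_eq_true, Bool.and_eq_true,
    Bool.and_eq_true, decide_eq_true_eq] at h_start
  obtain ⟨⟨⟨⟨⟨s1, s2⟩, s5⟩, s6⟩, s3⟩, s4⟩ := h_start
  subst h_its h_m
  have hRT' : ∀ p ∈ RT, subK p.2.2 U = true := by
    intro p hp
    have h4 := h_RT
    rw [chkRT, List.all_eq_true] at h4
    have h5 := h4 p hp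
    rw [Bool.and_eq_true, Bool.and_eq_true, Bool.and_eq_true, Bool.and_eq_true] at h5
    exact h5.1.1.2
  have e1 : Nat.mod (B.get 0) 256 = 0 := Nat.eq_of_beq_eq_true s1
  have e3 : 0 < tab.length := by
    rw [Nat.blt_eq] at s6
    exact s6
  have hg0 : Good D (items 5 6 ss) 0 (Nat.lor (decM B (B.get 0)) (nthNF Bs 0)) :=
    good_subK (good_start h_st) s2
  obtain ⟨S, r, T, hg, hr, hf⟩ := sndM h_ms h_tab h_Bs h_U hRT' h_cert (D.length + 1) 0
    [] D (Nat.lt_succ_self _) rfl (by rw [e1]; exact e3) (by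
      rw [e1, s4]
      have e2 : (nthR tab 0).1 = false := by simpa using s3
      rw [e2]
      exact hD) (by rw [e1]; exact hg0) (by rw [e1]; exact good_left hg0) (by
      intro k hk
      rw [Nat.eq_of_beq_eq_true s5] at hk
      simp at hk)
  obtain ⟨S', T', hg', hf'⟩ := finL_imp h_os h_RT hg hr hf
  exact fin_sound h_ok h_root hD hg' hf'

end Pool.Agent.H.MP_2e666d_lc.HS
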