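import Pool.Agent.H.MP_2e666d_lc.LabDef

/-! # Chains from lists -/

namespace Pool.Agent.H.MP_2e666d_lc

/-- one phase of the state -/
def labB_step (N : ℕ) (s : (Fin 3 → ℕ) × Fin 3 × Fin 3 × Fin 3) :
    (Fin 3 → ℕ) × Fin 3 × Fin 3 × Fin 3 :=
  (fun t => if t = s.2.2.1.rev then s.1 t + N else if t = s.2.1.rev then s.1 t + 1 else s.1 t,
    if N % 2 = 1 then s.2.2.2 else s.2.1, if N % 2 = 1 then s.2.1 else s.2.2.2, s.2.2.1)

/-- the sequence of states -/
def labB_st (N : ℕ → ℕ) : ℕ → (Fin 3 → ℕ) × Fin 3 × Fin 3 × Fin 3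
  | 0 => (fun _ => 0, 2, 1, 0)
  | i + 1 => labB_step (N i) (labB_st N i)

/-- the numbers of atoms -/
def labB_N (Ns : List ℕ) : ℕ → ℕ
  | 0 => 1
  | i + 1 => Ns.getD i 1

/-- the flag of a state -/
def labB_sat (W : List ℕ) (N : ℕ) (s : (Fin 3 → ℕ) × Fin 3 × Fin 3 × Fin 3) : Prop :=
  W.getD (s.1 s.2.2.1.rev + (N - 1)) 0 ≤
    if N % 2 = 1 then W.getD (s.1 s.2.1.rev) 0 else W.getD (s.1 s.2.2.2.rev - 1) 0

theorem labB_A (W Ns : List ℕ) (h : LChain W Ns) (j : ℕ) (hj : j ≤ Ns.length) :
    LCh W (Ns.drop j) (labB_st (labB_N Ns) (j + 1)).1 (labB_st (labB_N Ns) (j + 1)).2.1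
      (labB_st (labB_N Ns) (j + 1)).2.2.1 (labB_st (labB_N Ns) (j + 1)).2.2.2
      (labB_sat W (labB_N Ns j) (labB_st (labB_N Ns) j)) := by
  induction j with
  | zero =>
    have hs : labB_sat W (labB_N Ns 0) (labB_st (labB_N Ns) 0) = True := by
      apply eq_true
      simp [labB_sat, labB_N, labB_st]
    rw [hs]
    have hc : (labB_st (labB_N Ns) (0 + 1)).1 = (fun t : Fin 3 => if t = 2 then 0 else 1) := by
      funext t
      fin_cases t <;> simp [labB_st, labB_step, labB_N]
    have hu : (labB_st (labB_N Ns) (0 + 1)).2 = ((0 : Fin 3), (2 : Fin 3), (1 : Fin 3)) := by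
      simp [labB_st, labB_step, labB_N]
    rw [hc, hu, List.drop_zero]
    exact h
  | succ j ih =>
    have hlt : j < Ns.length := hj
    have h1 := ih hlt.le
    rw [List.drop_eq_getElem_cons hlt] at h1
    have hN : labB_N Ns (j + 1) = Ns[j] := by
      simp [labB_N, List.getD_eq_getElem?_getD, hlt]
    have h2 := h1.2.2.2.2.2
    rw [← hN] at h2
    exact h2

/-- the chain given by a list -/
theorem exists_ch (W Ns : List ℕ) (h0 : W ≠ []) (h : LChain W Ns) :
    ∃ ch : Ch (fun _ => W), ch.m = Ns.length + 1 := by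
  have hA := labB_A W Ns h
  have hB : ∀ j, j < Ns.length → LCh W (labB_N Ns (j + 1) :: Ns.drop (j + 1))
      (labB_st (labB_N Ns) (j + 1)).1 (labB_st (labB_N Ns) (j + 1)).2.1
      (labB_st (labB_N Ns) (j + 1)).2.2.1 (labB_st (labB_N Ns) (j + 1)).2.2.2
      (labB_sat W (labB_N Ns j) (labB_st (labB_N Ns) j)) := by
    intro j hj
    have h1 := hA j hj.le
    rw [List.drop_eq_getElem_cons hj] at h1
    have hN : labB_N Ns (j + 1) = Ns[j] := by
      simp [labB_N, List.getD_eq_getElem?_getD, hj]
    rw [hN]
    exact h1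
  have hN1 : ∀ i < Ns.length + 1, 1 ≤ labB_N Ns i := by
    intro i hi
    rcases i with _ | j
    · exact le_refl 1
    · exact (hB j (by omega)).1.1
  refine ⟨{ m := Ns.length + 1
            N := labB_N Ns
            u := fun i => (labB_st (labB_N Ns) i).2.1
            v := fun i => (labB_st (labB_N Ns) i).2.2.1
            w := fun i => (labB_st (labB_N Ns) i).2.2.2
            c := fun i => (labB_st (labB_N Ns) i).1
            c0 := fun _ => rfl
            u0 := rfl
            v0 := rfl
            w0 := rfl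
            N0 := rfl
            m1 := by omega
            N1 := hN1
            us := fun _ => rfl
            vs := fun _ => rfl
            ws := fun _ => rfl
            cs := fun _ _ => rfl
            ce := ?_
            sw := ?_
            su := ?_
            ah := ?_
            ag := ?_ }, rfl⟩
  · intro t
    have h1 := hA Ns.length le_rfl
    rw [List.drop_length] at h1
    exact h1.1 t
  · intro i hi n hn hn2
    rcases i with _ | j
    · exact absurd hn (by simp [labB_N])
    · exact (hB j (by omega)).2.1 n hn hn2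
  · intro i hi n hn hn2
    rcases i with _ | j
    · exact absurd hn (by simp [labB_N])
    · exact (hB j (by omega)).2.2.1 n hn hn2
  · intro i hi
    rcases i with _ | j
    · right
      simp [labB_N, labB_st]
    · exact (hB j (by omega)).2.2.2.1
  · intro i hi
    rcases i with _ | j
    · left
      simp [labB_N, labB_st]
    · by_cases hj : j + 1 < Ns.length
      · have hN2 : 1 ≤ labB_N Ns (j + 1) := hN1 (j + 1) hi
        have h1 := (hB (j + 1) hj).2.2.2.2.1
        have hc : (labB_st (labB_N Ns) (j + 1 + 1)).1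
            (labB_st (labB_N Ns) (j + 1 + 1)).2.2.2.rev - 1
            = (labB_st (labB_N Ns) (j + 1)).1 (labB_st (labB_N Ns) (j + 1)).2.2.1.rev
              + (labB_N Ns (j + 1) - 1) := by
          have e : (labB_st (labB_N Ns) (j + 1 + 1)).1
              (labB_st (labB_N Ns) (j + 1 + 1)).2.2.2.rev
              = (labB_st (labB_N Ns) (j + 1)).1 (labB_st (labB_N Ns) (j + 1)).2.2.1.rev
                + labB_N Ns (j + 1) := by
            simp [labB_st, labB_step]
          rw [e]
          omega
        rw [hc] at h1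
        rcases h1 with h1 | h1
        · left
          exact h1
        · right
          exact ⟨by omega, h1⟩
      · left
        have hj2 : j + 1 = Ns.length := by omega
        have h1 := hA (j + 1) (by omega)
        rw [hj2, List.drop_length] at h1
        have h2 := h1.2
        rw [← hj2] at h2
        exact h2

end Pool.Agent.H.MP_2e666d_lc
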