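import Pool.Agent.H.MP_2e666d_lc.LabDef

/-! # Mixed chains -/

namespace Pool.Agent.H.MP_2e666d_lc

theorem LabC_sig {W W' : Fin 3 → List ℕ} (ch : Ch W) (ch' : Ch W') (h : ch.sg = ch'.sg) :
    ch.m = ch'.m ∧ ∀ i < ch.m, ch.N i % 2 = ch'.N i % 2 ∧ ch.hl i = ch'.hl i ∧
      ch.lt i (ch.N i - 1) = ch'.lt i (ch'.N i - 1) ∧ ch.ms i 0 = ch'.ms i 0 ∧
      ch.ms i 1 = ch'.ms i 1 := by
  have hm : ch.m = ch'.m := by
    have := congrArg List.length h
    simpa [Ch.sg] using this
  refine ⟨hm, ?_⟩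
  intro i hi
  have h1 := congrArg (fun l => l[i]?) h
  simp only [Ch.sg, List.getElem?_map] at h1
  rw [List.getElem?_range hi, List.getElem?_range (hm ▸ hi)] at h1
  simp only [Option.map_some, Option.some.injEq, Prod.mk.injEq] at h1
  exact h1

theorem LabC_roles {W W' : Fin 3 → List ℕ} (ch : Ch W) (ch' : Ch W') (h : ch.sg = ch'.sg) :
    ∀ i ≤ ch.m, ch.u i = ch'.u i ∧ ch.v i = ch'.v i ∧ ch.w i = ch'.w i := by
  obtain ⟨hm, hs⟩ := LabC_sig ch ch' h
  intro i
  induction i with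
  | zero =>
    intro _
    rw [ch.u0, ch'.u0, ch.v0, ch'.v0, ch.w0, ch'.w0]
    exact ⟨rfl, rfl, rfl⟩
  | succ i ih =>
    intro hi
    obtain ⟨h1, h2, h3⟩ := ih (by omega)
    have h4 := (hs i (by omega)).1
    rw [ch.us, ch'.us, ch.vs, ch'.vs, ch.ws, ch'.ws, h1, h2, h3, h4]
    exact ⟨rfl, rfl, rfl⟩

theorem LabC_ms {W : Fin 3 → List ℕ} (ch : Ch W) (i g : ℕ) :
    (∃ n, n + 1 < ch.N i ∧ n % 2 = 1 ∧ g ≤ ch.lt i n) ↔ g < ch.ms i 1 := by
  unfold Ch.ms
  rw [Finset.lt_sup_iff]
  constructor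
  · rintro ⟨n, h1, h2, h3⟩
    refine ⟨n, ?_, by omega⟩
    rw [Finset.mem_filter, Finset.mem_range]
    exact ⟨by omega, h2⟩
  · rintro ⟨n, h1, h2⟩
    rw [Finset.mem_filter, Finset.mem_range] at h1
    exact ⟨n, by omega, h1.2, by omega⟩

/-- the last letter of the phase `i` on the passive tape of the phase `i + 1` -/
theorem LabC_pas {W : Fin 3 → List ℕ} (ch : Ch W) (i : ℕ) (hi : i < ch.m) :
    (W (ch.w (i + 1)).rev).getD (ch.c (i + 1) (ch.w (i + 1)).rev - 1) 0 =
      ch.lt i (ch.N i - 1) := by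
  unfold Ch.lt
  rw [ch.ws, ch.cs, if_pos rfl]
  have := ch.N1 i hi
  congr 1
  omega

section

variable (W : Fin 3 → List ℕ) (chs : ∀ t, Ch (fun _ => W t))

open Classical in
noncomputable def LabC_N (i : ℕ) : ℕ :=
  if i < (chs 0).m then (chs ((chs 0).v i).rev).N i else (chs 0).N i

open Classical in
noncomputable def LabC_c : ℕ → Fin 3 → ℕ
  | 0, _ => 0
  | i + 1, t => if t = ((chs 0).v i).rev then LabC_c i t + LabC_N W chs i
      else if t = ((chs 0).u i).rev then LabC_c i t + 1 else LabC_c i t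

theorem LabC_c_eq (h : ∀ t t', (chs t).sg = (chs t').sg) (i : ℕ) (hi : i ≤ (chs 0).m)
    (t : Fin 3) : LabC_c W chs i t = (chs t).c i t := by
  induction i with
  | zero =>
    rw [(chs t).c0]
    rfl
  | succ i ih =>
    obtain ⟨h1, h2, h3⟩ := LabC_roles (chs 0) (chs t) (h 0 t) i (by omega)
    rw [(chs t).cs, ← h1, ← h2]
    simp only [LabC_c]
    rw [ih (by omega)]
    by_cases h4 : t = ((chs 0).v i).rev
    · rw [if_pos h4, if_pos h4]
      unfold LabC_N
      rw [if_pos (show i < (chs 0).m by omega), ← h4]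
    · rw [if_neg h4, if_neg h4]

theorem LabC_N_par (h : ∀ t t', (chs t).sg = (chs t').sg) (i : ℕ) :
    LabC_N W chs i % 2 = (chs 0).N i % 2 := by
  unfold LabC_N
  by_cases hi : i < (chs 0).m
  · rw [if_pos hi]
    exact ((LabC_sig (chs 0) (chs ((chs 0).v i).rev) (h _ _)).2 i hi).1.symm
  · rw [if_neg hi]

end

theorem LabC_sInf (S S' : Set ℕ) (m : ℕ) (h : ∀ i < m, i ∈ S ↔ i ∈ S') (i : ℕ) (hi : i < m)
    (hS : i ∈ S) : sInf S = sInf S' ∧ sInf S < m ∧ sInf S ∈ S := by
  have hS' : i ∈ S' := (h i hi).1 hS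
  have h1 : sInf S ∈ S := Nat.sInf_mem ⟨i, hS⟩
  have h2 : sInf S' ∈ S' := Nat.sInf_mem ⟨i, hS'⟩
  have h3 : sInf S ≤ i := Nat.sInf_le hS
  have h4 : sInf S' ≤ i := Nat.sInf_le hS'
  refine ⟨le_antisymm ?_ ?_, by omega, h1⟩
  · exact Nat.sInf_le ((h _ (by omega)).2 h2)
  · exact Nat.sInf_le ((h _ (by omega)).1 h1)

/-- mixed chains -/
theorem exists_mix (W : Fin 3 → List ℕ) (chs : ∀ t, Ch (fun _ => W t))
    (h : ∀ t t', (chs t).sg = (chs t').sg) :
    ∃ ch : Ch W, ∀ t k g, k < (W t).length → ch.lab t k g = (chs t).lab t k g := by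
  classical
  set X := chs 0 with hX
  have hm : ∀ t, (chs t).m = X.m := fun t => (LabC_sig (chs t) X (h t 0)).1
  have hsig : ∀ t i, i < X.m → (chs t).N i % 2 = X.N i % 2 ∧ (chs t).hl i = X.hl i ∧
      (chs t).lt i ((chs t).N i - 1) = X.lt i (X.N i - 1) ∧ (chs t).ms i 0 = X.ms i 0 ∧
      (chs t).ms i 1 = X.ms i 1 := fun t i hi =>
    (LabC_sig (chs t) X (h t 0)).2 i (by rw [hm t]; exact hi)
  have hu : ∀ t i, i ≤ X.m → (chs t).u i = X.u i := fun t i hi =>
    (LabC_roles (chs t) X (h t 0) i (by rw [hm t]; exact hi)).1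
  have hv : ∀ t i, i ≤ X.m → (chs t).v i = X.v i := fun t i hi =>
    (LabC_roles (chs t) X (h t 0) i (by rw [hm t]; exact hi)).2.1
  have hw : ∀ t i, i ≤ X.m → (chs t).w i = X.w i := fun t i hi =>
    (LabC_roles (chs t) X (h t 0) i (by rw [hm t]; exact hi)).2.2
  have hc : ∀ i, i ≤ X.m → ∀ t, LabC_c W chs i t = (chs t).c i t := fun i hi t =>
    LabC_c_eq W chs h i hi t
  have hNp : ∀ i, LabC_N W chs i % 2 = X.N i % 2 := fun i => LabC_N_par W chs h i
  have hN : ∀ i, i < X.m → LabC_N W chs i = (chs (X.v i).rev).N i := by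
    intro i hi
    unfold LabC_N
    rw [if_pos hi]
  -- the letters of the mixed chain
  have hlt : ∀ i, i < X.m → ∀ n, (W (X.v i).rev).getD (LabC_c W chs i (X.v i).rev + n) 0 =
      (chs (X.v i).rev).lt i n := by
    intro i hi n
    rw [hc i hi.le]
    unfold Ch.lt
    rw [hv (X.v i).rev i hi.le]
  have hlast : ∀ i, i < X.m → (W (X.v i).rev).getD (LabC_c W chs i (X.v i).rev +
      (LabC_N W chs i - 1)) 0 = X.lt i (X.N i - 1) := by
    intro i hi
    rw [hlt i hi, hN i hi]
    exact (hsig _ i hi).2.2.1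
  have hhost : ∀ i, i < X.m → (W (X.u i).rev).getD (LabC_c W chs i (X.u i).rev) 0 =
      X.hl i := by
    intro i hi
    rw [hc i hi.le, ← (hsig (X.u i).rev i hi).2.1]
    unfold Ch.hl
    rw [hu (X.u i).rev i hi.le]
  have hhostT : ∀ i, i < X.m → ∀ t, (W t).getD ((chs t).c i ((chs t).u i).rev) 0 =
      X.hl i := by
    intro i hi t
    rw [← (hsig t i hi).2.1]
    rfl
  have hpas : ∀ i, i + 1 ≤ X.m → (W (X.w (i + 1)).rev).getD
      (LabC_c W chs (i + 1) (X.w (i + 1)).rev - 1) 0 = X.lt i (X.N i - 1) := by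
    intro i hi
    rw [hc (i + 1) hi]
    have h1 := LabC_pas (chs (X.w (i + 1)).rev) i (by rw [hm]; omega)
    rw [hw (X.w (i + 1)).rev (i + 1) hi] at h1
    rw [h1]
    exact (hsig _ i (by omega)).2.2.1
  have hpasT : ∀ i, i + 1 ≤ X.m → ∀ t, (W t).getD
      ((chs t).c (i + 1) ((chs t).w (i + 1)).rev - 1) 0 = X.lt i (X.N i - 1) := by
    intro i hi t
    have h1 := LabC_pas (chs t) i (by rw [hm]; omega)
    rw [h1]
    exact (hsig _ i (by omega)).2.2.1
  have hN00 : LabC_N W chs 0 = 1 := by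
    rw [hN 0 (by have := X.m1; omega)]
    exact (chs _).N0
  let ch : Ch W := {
    m := X.m
    N := LabC_N W chs
    u := X.u
    v := X.v
    w := X.w
    c := LabC_c W chs
    c0 := fun t => rfl
    u0 := X.u0
    v0 := X.v0
    w0 := X.w0
    N0 := hN00
    m1 := X.m1
    N1 := by
      intro i hi
      rw [hN i hi]
      exact (chs _).N1 i (by rw [hm]; exact hi)
    us := by
      intro i
      rw [hNp]
      exact X.us i
    vs := by
      intro i
      rw [hNp]
      exact X.vs i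
    ws := X.ws
    cs := by
      intro i t
      simp only [LabC_c]
      rfl
    ce := by
      intro t
      rw [hc X.m le_rfl, ← hm t]
      exact (chs t).ce t
    sw := by
      intro i hi n hn hn2
      rw [hlt i hi, hhost i hi, ← hhostT i hi (X.v i).rev]
      rw [hN i hi] at hn
      have h1 := (chs (X.v i).rev).sw i (by rw [hm]; exact hi) n hn hn2
      exact h1
    su := by
      intro i hi n hn hn2
      cases i with
      | zero =>
        exfalso
        rw [hN00] at hn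
        omega
      | succ i =>
        rw [hlt (i + 1) hi, hpas i (by omega), ← hpasT i (by omega) (X.v (i + 1)).rev]
        rw [hN (i + 1) hi] at hn
        exact (chs (X.v (i + 1)).rev).su (i + 1) (by rw [hm]; exact hi) n hn hn2
    ah := by
      intro i hi
      simp only [hlt i hi, hhost i hi]
      rw [hN i hi]
      have h1 := (chs (X.v i).rev).ah i (by rw [hm]; exact hi)
      rw [hhostT i hi] at h1
      exact h1
    ag := by
      intro i hi
      set T := (X.v (i + 1)).rev with hT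
      have h1 := (chs T).ag i (by rw [hm]; exact hi)
      rw [hlast i hi, hhost i hi, hNp]
      have h2 : (W T).getD ((chs T).c i ((chs T).v i).rev + ((chs T).N i - 1)) 0 =
          X.lt i (X.N i - 1) := by
        rw [← (hsig T i hi).2.2.1]
        rfl
      rw [h2, hhostT i hi T, (hsig T i hi).1, hm T] at h1
      have h3 : (if X.N i % 2 = 1 then X.hl i else
          (W T).getD ((chs T).c i ((chs T).w i).rev - 1) 0) =
          if X.N i % 2 = 1 then X.hl i else
            (W (X.w i).rev).getD (LabC_c W chs i (X.w i).rev - 1) 0 := by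
        cases i with
        | zero =>
          rw [X.N0]
          rfl
        | succ i =>
          rw [hpas i (by omega), hpasT i (by omega) T]
      rw [h3] at h1
      rcases h1 with h1 | ⟨h4, h1⟩
      · exact Or.inl h1
      · right
        refine ⟨h4, ?_⟩
        have h5 := hlt (i + 1) h4
        have h6 := hN (i + 1) h4
        rw [← hT] at h5 h6
        simp only [h5]
        rw [h6]
        exact h1 }
  refine ⟨ch, ?_⟩
  intro t k g hk
  -- the phases agree
  have hph : ch.ph t k = (chs t).ph t k ∧ ch.ph t k < X.m := by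
    have hm1 := X.m1
    have hmem : X.m - 1 ∈ {i | k < ch.c (i + 1) t} := by
      show k < LabC_c W chs (X.m - 1 + 1) t
      have h1 : X.m - 1 + 1 = X.m := by omega
      rw [h1, hc X.m le_rfl, ← hm t, (chs t).ce t]
      exact hk
    obtain ⟨h1, h2, _⟩ := LabC_sInf {i | k < ch.c (i + 1) t} {i | k < (chs t).c (i + 1) t} X.m
      (fun i hi => by
        show k < LabC_c W chs (i + 1) t ↔ k < (chs t).c (i + 1) t
        rw [hc (i + 1) (by omega)]) (X.m - 1) (by omega) hmem
    exact ⟨h1, h2⟩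
  obtain ⟨hph1, hph2⟩ := hph
  unfold Ch.lab
  rw [← hph1]
  set i := ch.ph t k with hi
  have hcv : ch.v i = X.v i := rfl
  have hcc : ch.c i t = (chs t).c i t := hc i hph2.le t
  have hcm : ch.m = (chs t).m := (hm t).symm
  have hpar : ∀ j, j < X.m → ch.N j % 2 = (chs t).N j % 2 := by
    intro j hj
    rw [(hsig t j hj).1]
    exact hNp j
  have hlasts : ∀ j, j < X.m → ch.lt j (ch.N j - 1) = (chs t).lt j ((chs t).N j - 1) := by
    intro j hj
    rw [(hsig t j hj).2.2.1]
    exact hlast j hj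
  have hms : ∀ j, j < X.m → ch.ms j 1 = (chs t).ms j 1 := by
    intro j hj
    rw [(hsig t j hj).2.2.2.2, ← (hsig (X.v j).rev j hj).2.2.2.2]
    unfold Ch.ms
    have h1 : ch.N j = (chs (X.v j).rev).N j := hN j hj
    have h2 : ∀ n, ch.lt j n = (chs (X.v j).rev).lt j n := hlt j hj
    rw [h1]
    simp only [h2]
  rw [hcv, hv t i hph2.le]
  by_cases h1 : t = (X.v i).rev
  · rw [if_pos h1, if_pos h1]
    have hNt : ch.N i = (chs t).N i := by
      rw [h1]
      exact hN i hph2
    have hltt : ∀ n, ch.lt i n = (chs t).lt i n := by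
      intro n
      have h2 := hlt i hph2 n
      rw [← h1] at h2
      rw [← h2]
      show (W (X.v i).rev).getD (LabC_c W chs i (X.v i).rev + n) 0 = _
      rw [← h1]
    rw [hNt, hcc]
    simp only [hltt]
    by_cases h2 : k - (chs t).c i t + 1 < (chs t).N i
    · rw [if_pos h2, if_pos h2]
    · rw [if_neg h2, if_neg h2]
      have e1 : (i + 1 < ch.m ∧ ch.N (i + 1) % 2 = 0 ∧
          g ≤ ch.lt (i + 1) (ch.N (i + 1) - 1)) ↔
          (i + 1 < (chs t).m ∧ (chs t).N (i + 1) % 2 = 0 ∧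
            g ≤ (chs t).lt (i + 1) ((chs t).N (i + 1) - 1)) := by
        rw [hcm]
        constructor
        · rintro ⟨h3, h4, h5⟩
          have h6 : i + 1 < X.m := by rw [← hm t]; exact h3
          exact ⟨h3, by rw [← hpar _ h6]; exact h4, by rw [← hlasts _ h6]; exact h5⟩
        · rintro ⟨h3, h4, h5⟩
          have h6 : i + 1 < X.m := by rw [← hm t]; exact h3
          exact ⟨h3, by rw [hpar _ h6]; exact h4, by rw [hlasts _ h6]; exact h5⟩
      have e2 : (i + 1 < ch.m ∧ ∃ n, n + 1 < ch.N (i + 1) ∧ n % 2 = 1 ∧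
          g ≤ ch.lt (i + 1) n) ↔
          (i + 1 < (chs t).m ∧ ∃ n, n + 1 < (chs t).N (i + 1) ∧ n % 2 = 1 ∧
          g ≤ (chs t).lt (i + 1) n) := by
        rw [LabC_ms, LabC_ms, hcm]
        constructor
        · rintro ⟨h3, h4⟩
          have h6 : i + 1 < X.m := by rw [← hm t]; exact h3
          exact ⟨h3, by rw [← hms _ h6]; exact h4⟩
        · rintro ⟨h3, h4⟩
          have h6 : i + 1 < X.m := by rw [← hm t]; exact h3
          exact ⟨h3, by rw [hms _ h6]; exact h4⟩
      by_cases h3 : (i + 1 < ch.m ∧ ch.N (i + 1) % 2 = 0 ∧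
          g ≤ ch.lt (i + 1) (ch.N (i + 1) - 1))
      · rw [if_pos h3, if_pos (e1.1 h3)]
      · rw [if_neg h3, if_neg (fun h4 => h3 (e1.2 h4))]
        by_cases h4 : (i + 1 < ch.m ∧ ∃ n, n + 1 < ch.N (i + 1) ∧ n % 2 = 1 ∧
          g ≤ ch.lt (i + 1) n)
        · rw [if_pos h4, if_pos (e2.1 h4)]
        · rw [if_neg h4, if_neg (fun h5 => h4 (e2.2 h5))]
  · rw [if_neg h1, if_neg h1, hpar i hph2, hlasts i hph2]

end Pool.Agent.H.MP_2e666d_lc
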