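import Pool.Agent.H.MP_2e666d_lc.LocB

/-! # The labels determine the order of the crossings -/

namespace Pool.Agent.H.MP_2e666d_lc

variable {W : Fin 3 → List ℕ}

theorem LocC_lex (C i n i' : ℕ) (h : i < i') (hn : n < C) (n' : ℕ) :
    C * i + n < C * i' + n' := by
  have h1 : C * (i + 1) ≤ C * i' := Nat.mul_le_mul_left C h
  have h2 : C * (i + 1) = C * i + C := by ring
  omega

/-- the labels determine the order of the crossings -/
theorem labE (ch : Ch W) (S : Sched W) (C : ℕ) (hS : SchedOf ch S C) (t t' : Fin 3)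
    (k l g : ℕ) (ht : t ≠ t') (ho : owner t k = owner t' l) (h2 : g ≤ 2)
    (hk : Let (W t) k g) (hl : Let (W t') l g) :
    S.E t k g < S.E t' l g ↔ ch.lab t k g < ch.lab t' l g := by
  obtain ⟨i, n, hi, hn, hE, hp, hc⟩ := loc ch S C hS t k g hk.1 hk.2.1 h2
  obtain ⟨i', n', hi', hn', hE', hp', hc'⟩ := loc ch S C hS t' l g hl.1 hl.2.1 h2
  have hnC : n < C := lt_trans hn (hS.hC i hi)
  have hnC' : n' < C := lt_trans hn' (hS.hC i' hi')
  have hr : ch.lab t k g = 3 * i + 2 ∨ ch.lab t k g = 3 * i + 1 ∨ ch.lab t k g = 3 * i := by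
    rcases hc with h | h | h
    · exact Or.inl h.1
    · exact Or.inr (Or.inl h.1)
    · exact Or.inr (Or.inr h.1)
  have hr' : ch.lab t' l g = 3 * i' + 2 ∨ ch.lab t' l g = 3 * i' + 1 ∨
      ch.lab t' l g = 3 * i' := by
    rcases hc' with h | h | h
    · exact Or.inl h.1
    · exact Or.inr (Or.inl h.1)
    · exact Or.inr (Or.inr h.1)
  rcases lt_trichotomy i i' with h | h | h
  · have h1 := LocC_lex C i n i' h hnC n'
    rw [hE, hE']
    constructor
    · intro _
      omega
    · intro _
      exact h1
  · subst h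
    have hpar : n % 2 = n' % 2 := by
      rw [← ho] at hp'
      have huw := (ch.roles i).2.1
      by_cases a : n % 2 = 0
      · by_cases b : n' % 2 = 0
        · omega
        · rw [if_pos a] at hp
          rw [if_neg b] at hp'
          exact absurd (hp'.trans hp.symm) huw
      · by_cases b : n' % 2 = 0
        · rw [if_neg a] at hp
          rw [if_pos b] at hp'
          exact absurd (hp.trans hp'.symm) huw
        · omega
    rw [hE, hE']
    rcases hc with ⟨a1, a2⟩ | ⟨a1, a2, a3, a4⟩ | ⟨a1, a2, a3, m, a4, a5, a6, a7⟩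
    · rcases hc' with ⟨b1, b2⟩ | ⟨b1, b2, b3, b4⟩ | ⟨b1, b2, b3, m', b4, b5, b6, b7⟩
      · omega
      · omega
      · omega
    · rcases hc' with ⟨b1, b2⟩ | ⟨b1, b2, b3, b4⟩ | ⟨b1, b2, b3, m', b4, b5, b6, b7⟩
      · omega
      · have h3 : ¬ n < n' := by
          intro h3
          have := a4 n' h3 b2 hpar.symm
          omega
        have h4 : ¬ n' < n := by
          intro h4
          have := b4 n h4 a2 hpar
          omega
        omega
      · have h3 : ¬ n < m' := by
          intro h3
          have := a4 m' h3 b5 (by omega)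
          omega
        omega
    · rcases hc' with ⟨b1, b2⟩ | ⟨b1, b2, b3, b4⟩ | ⟨b1, b2, b3, m', b4, b5, b6, b7⟩
      · omega
      · have h3 : ¬ n' < m := by
          intro h3
          have := b4 m h3 a5 (by omega)
          omega
        omega
      · exact absurd (a3.trans b3.symm) ht
  · have h1 := LocC_lex C i' n' i h hnC' n
    rw [hE, hE']
    constructor
    · intro _
      omega
    · intro _
      omega

end Pool.Agent.H.MP_2e666d_lc
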