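import Pool.Agent.H.MP_2e666d_lc.LocA
import Pool.Agent.H.MP_2e666d_lc.LocC
import Pool.Agent.H.MP_2e666d_lc.LabB
import Pool.Agent.H.MP_2e666d_lc.LabC

/-! # Existence of classes and labels -/

namespace Pool.Agent.H.MP_2e666d_lc

theorem hLabEx_getD (W : List ℕ) (h : ValidW W) (k : ℕ) : W.getD k 0 ≤ 4 := by
  have h1 : ∀ a ∈ W, a ≤ 4 := by
    rcases h with h | h | ⟨P, hP, h⟩
    · subst h; intro a ha; simp at ha; omega
    · subst h; intro a ha; simp at ha; omega
    · subst h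
      intro a ha
      simp only [List.mem_cons, List.mem_append, List.not_mem_nil, or_false] at ha
      rcases ha with ha | ha | ha | ha | ha
      · omega
      · omega
      · exact (hP a ha).trans (by norm_num)
      · omega
      · omega
  by_cases hk : k < W.length
  · rw [List.getD_eq_getElem _ _ hk]
    exact h1 _ (List.getElem_mem hk)
  · rw [List.getD_eq_default _ _ (by omega)]
    omega

theorem hLabEx_sg (W : List ℕ) (h : ValidW W) (ch : Ch (fun _ => W)) :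
    ∀ x ∈ ch.sg, x ≤ (5, 5, 5, 5, 5) := by
  intro x hx
  unfold Ch.sg at hx
  rw [List.mem_map] at hx
  obtain ⟨i, _, rfl⟩ := hx
  have hlt : ∀ i n, ch.lt i n ≤ 4 := fun i n => hLabEx_getD W h _
  have hms : ∀ i r, ch.ms i r ≤ 5 := by
    intro i r
    unfold Ch.ms
    refine Finset.sup_le fun n _ => ?_
    have := hlt i n
    omega
  refine Prod.mk_le_mk.2 ⟨by omega, Prod.mk_le_mk.2 ⟨?_, Prod.mk_le_mk.2 ⟨?_,
    Prod.mk_le_mk.2 ⟨hms i 0, hms i 1⟩⟩⟩⟩
  · exact (hLabEx_getD W h _).trans (by norm_num)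
  · exact (hlt _ _).trans (by norm_num)

theorem hLabEx_fin (K : ℕ) :
    {l : List (ℕ × ℕ × ℕ × ℕ × ℕ) | l.length ≤ K ∧ ∀ x ∈ l, x ≤ (5, 5, 5, 5, 5)}.Finite := by
  have hF : (Set.Iic ((5, 5, 5, 5, 5) : ℕ × ℕ × ℕ × ℕ × ℕ)).Finite := Set.finite_Iic _
  haveI : Finite (Set.Iic ((5, 5, 5, 5, 5) : ℕ × ℕ × ℕ × ℕ × ℕ)) := hF.to_subtype
  have h1 := List.finite_length_le (Set.Iic ((5, 5, 5, 5, 5) : ℕ × ℕ × ℕ × ℕ × ℕ)) K
  refine (h1.image (List.map Subtype.val)).subset ?_
  rintro l ⟨hl1, hl2⟩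
  lift l to List (Set.Iic ((5, 5, 5, 5, 5) : ℕ × ℕ × ℕ × ℕ × ℕ)) using hl2
  refine ⟨l, ?_, rfl⟩
  simpa using hl1

/-- the labels and classes exist if the finite statement holds -/
theorem exists_hlab (h : FS) : ∃ (cl : List ℕ → ℕ) (lab : Fin 3 → List ℕ → ℕ → ℕ → ℕ),
    (Set.range (fun x : List ℕ × ℕ × ℕ => Phi cl lab x.1 x.2.1 x.2.2)).Finite ∧ HLab cl lab := by
  classical
  obtain ⟨K, hK⟩ := h
  have hex : ∀ W, ValidW W → ∃ ch : Ch (fun _ => W), ch.m ≤ K + 1 := by
    intro W hW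
    obtain ⟨Ns, h1, h2⟩ := hK W hW
    have h0 : W ≠ [] := by
      rcases hW with hW | hW | ⟨P, _, hW⟩ <;> rw [hW] <;> simp
    obtain ⟨ch, hch⟩ := exists_ch W Ns h0 h2
    exact ⟨ch, by omega⟩
  choose ch hm using hex
  let cl : List ℕ → ℕ := fun W =>
    if hv : ValidW W then Encodable.encode (ch W hv).sg + 1 else 0
  let lab : Fin 3 → List ℕ → ℕ → ℕ → ℕ := fun t W k g =>
    if hv : ValidW W ∧ k < W.length then (ch W hv.1).lab t k g else 0
  have hcl : ∀ W (hv : ValidW W), cl W = Encodable.encode (ch W hv).sg + 1 := fun W hv =>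
    dif_pos hv
  have hlab : ∀ t W k g (hv : ValidW W) (_ : k < W.length),
      lab t W k g = (ch W hv).lab t k g := fun t W k g hv hk => dif_pos ⟨hv, hk⟩
  refine ⟨cl, lab, ?_, ?_⟩
  · have hS : (insert 0 ((fun l => Encodable.encode l + 1) ''
        {l : List (ℕ × ℕ × ℕ × ℕ × ℕ) | l.length ≤ K + 1 ∧ ∀ x ∈ l, x ≤ (5, 5, 5, 5, 5)})).Finite :=
      ((hLabEx_fin (K + 1)).image _).insert _
    have hT : (Set.Iic (fun _ : Fin 3 => 3 * (K + 1) + 2)).Finite := Set.finite_Iic _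
    refine (hS.prod hT).subset ?_
    rintro _ ⟨⟨W, k, g⟩, rfl⟩
    refine ⟨?_, ?_⟩
    · show cl W ∈ _
      by_cases hv : ValidW W
      · right
        refine ⟨(ch W hv).sg, ⟨?_, hLabEx_sg W hv _⟩, (hcl W hv).symm⟩
        have := hm W hv
        simpa [Ch.sg] using this
      · left
        exact dif_neg hv
    · show (fun t => lab t W k g) ≤ _
      intro t
      show lab t W k g ≤ 3 * (K + 1) + 2
      by_cases hv : ValidW W ∧ k < W.length
      · rw [hlab t W k g hv.1 hv.2]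
        have h1 := (ch W hv.1).lab_le t k g hv.2
        have h2 := hm W hv.1
        omega
      · have : lab t W k g = 0 := dif_neg hv
        omega
  · intro W hv hc
    have hsg : ∀ t t', (ch (W t) (hv t)).sg = (ch (W t') (hv t')).sg := by
      intro t t'
      have h1 := hc t t'
      rw [hcl _ (hv t), hcl _ (hv t')] at h1
      exact Encodable.encode_injective (Nat.succ_injective h1)
    obtain ⟨chm, hchm⟩ := exists_mix W (fun t => ch (W t) (hv t)) hsg
    obtain ⟨S, C, hS⟩ := exists_sched chm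
    refine S.tim lab ?_
    intro t t' k l g ht ho h2 hk hl
    rw [labE chm S C hS t t' k l g ht ho h2 hk hl, hchm t k g hk.1, hchm t' l g hl.1,
      hlab t (W t) k g (hv t) hk.1, hlab t' (W t') l g (hv t') hl.1]

end Pool.Agent.H.MP_2e666d_lc
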