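import Pool.Agent.H.MP_2e666d_lc.HSDef

/-! # Half signatures: the phases of a signature -/

namespace Pool.Agent.H.MP_2e666d_lc.HS

open Pool.Agent.H.MP_2e666d_lc Pool.Agent.H.MP_2e666d_lc.T3

theorem maskIn_sound {m lo hi l : ℕ} (h : maskIn m lo hi = true) (hl : m.testBit l = true) :
    lo ≤ vl l ∧ vl l ≤ hi := by
  unfold maskIn at h
  rw [Bool.and_eq_true] at h
  obtain ⟨h1, h2⟩ := h
  have hm : m < 2 ^ 13 := by
    have := Nat.le_of_ble_eq_true h1
    norm_num
    omega
  have hl9 : l < 13 := by
    by_contra hc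
    have : m < 2 ^ l := lt_of_lt_of_le hm (Nat.pow_le_pow_right (by norm_num) (by omega))
    rw [Nat.testBit_lt_two_pow this] at hl
    exact absurd hl (by decide)
  have h3 := List.all_eq_true.1 h2 l (List.mem_range.2 hl9)
  rw [hl] at h3
  simp only [Bool.not_true, Bool.false_or, Bool.and_eq_true] at h3
  exact ⟨Nat.le_of_ble_eq_true h3.1, Nat.le_of_ble_eq_true h3.2⟩

theorem sig_sound {D : List ℕ} {base : List It × List It × List It} :
    ∀ {ps : List HP} {pl ph m0 : ℕ} {sat : Bool} {s r q : ℕ},
    okS ps pl ph sat = true → pl ≤ vl (D.getD q 0) → vl (D.getD q 0) ≤ ph →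
    (sat = true → vl (D.getD q 0) ≤ vl (D.getD s 0)) → m0.testBit (D.getD q 0) = true →
    Sem D (evs base ps pl ph sat).1 0 (s + 1) → Sem D (evs base ps pl ph sat).2.1 0 r →
    Sem D (evs base ps pl ph sat).2.2 0 (q + 1) →
    ∃ x y z, Sem D base.1 0 (x + 1) ∧ Sem D base.2.1 0 y ∧ Sem D base.2.2 0 (z + 1) ∧
      (lastM ps m0).testBit (D.getD z 0) = true ∧
      decide (x % 2 = 1) = fpar ps (decide (s % 2 = 1)) (decide (r % 2 = 1)) (decide (q % 2 = 1)) ∧
      (∀ s' r' q', s' ≤ s → r' ≤ r → q' ≤ q → fmin ps s' r' q' ≤ x) ∧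
      ∀ k, Comp (D.map vl) k x y z → Comp (D.map vl) (k + ps.length) s r q := by
  intro ps
  induction ps with
  | nil =>
    intro pl ph m0 sat s r q _ _ _ _ hm h1 h2 h3
    exact ⟨s, r, q, h1, h2, h3, hm, rfl, fun s' r' q' hs _ _ => hs, fun k hk => hk⟩
  | cons p ps ih =>
    intro pl ph m0 sat s r q hok hpl hph hsat hm h1 h2 h3
    rw [okS] at hok
    simp only [Bool.and_eq_true] at hok
    obtain ⟨⟨⟨⟨ok1, ok2⟩, ok3⟩, ok4⟩, ok5⟩ := hok
    -- the phase itself
    have main : ∀ {ra rh : List It},
        Sem D (It.A p.o p.hl pl (!(p.o && Nat.ble p.hh p.gl)) (!(sat || (!p.o && Nat.ble ph p.gl)))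
          p.gm :: ra) 0 (s + 1) → Sem D (It.H p.hm :: rh) 0 r →
        ∃ e, Ph (D.map vl) s r q e ∧ (e - s) % 2 = (if p.o then 1 else 0) ∧
          p.gm.testBit (D.getD e 0) = true ∧ p.gl ≤ vl (D.getD e 0) ∧ vl (D.getD e 0) ≤ p.gh ∧
          p.hl ≤ vl (D.getD r 0) ∧ Sem D ra 0 (e + 1) ∧ Sem D rh 0 (r + 1) := by
      intro ra rh ha hh
      rw [Sem] at ha
      rw [Sem] at hh
      obtain ⟨-, e, e1, e2, e3, e4, e5, e6, e7, e8, e9⟩ := ha
      obtain ⟨-, r1, r2, r3⟩ := hh
      have hr := maskIn_sound ok1 r2
      have he := maskIn_sound ok2 e4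
      have hpar : (e - s) % 2 = (if p.o then 1 else 0) := by
        cases ho : p.o
        · rw [ho] at e3
          simp only [Bool.false_eq_true, if_false] at e3 ⊢
          omega
        · rw [ho] at e3
          simp only [if_true] at e3 ⊢
          omega
      refine ⟨e, ⟨by omega, by simpa using e2, by simpa using r1, ?_, ?_, ?_, ?_⟩, hpar, e4,
        he.1, he.2, hr.1, e9, r3⟩
      · intro i i1 i2 i3
        rw [getD_map_vl, getD_map_vl]
        exact (e5 i (by omega) i2 (by omega)).trans hr.1
      · intro i i1 i2 i3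
        rw [getD_map_vl, getD_map_vl]
        exact (e6 i (by omega) i2 (by omega)).trans hpl
      · by_cases hc : (p.o && Nat.ble p.hh p.gl) = true
        · obtain ⟨c1, c2⟩ := Bool.and_eq_true _ _ ▸ hc
          rw [c1] at hpar
          refine ⟨e, by omega, le_rfl, by simpa using hpar, ?_⟩
          rw [getD_map_vl, getD_map_vl]
          exact hr.2.trans ((Nat.le_of_ble_eq_true c2).trans he.1)
        · rw [Bool.not_eq_true] at hc
          rw [hc, Bool.false_or] at ok3
          have e7' := e7 (by rw [hc]; rfl)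
          rcases e7' with h | ⟨k, k1, k2, k3, k4⟩
          · exact absurd h (by decide)
          · refine ⟨k, by omega, by omega, by omega, ?_⟩
            rw [getD_map_vl, getD_map_vl]
            have := Nat.eq_of_beq_eq_true ok3
            omega
      · by_cases hc : (sat || (!p.o && Nat.ble ph p.gl)) = true
        · rw [Bool.or_eq_true] at hc
          rcases hc with hc | hc
          · refine ⟨s, le_rfl, by omega, by omega, ?_⟩
            rw [getD_map_vl, getD_map_vl]
            exact hsat hc
          · rw [Bool.and_eq_true, Bool.not_eq_true'] at hc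
            obtain ⟨c1, c2⟩ := hc
            rw [c1] at hpar
            refine ⟨e, by omega, le_rfl, by simpa using hpar, ?_⟩
            rw [getD_map_vl, getD_map_vl]
            exact hph.trans ((Nat.le_of_ble_eq_true c2).trans he.1)
        · rw [Bool.not_eq_true] at hc
          rw [hc, Bool.false_or] at ok4
          have e8' := e8 (by rw [hc]; rfl)
          rcases e8' with h | ⟨k, k1, k2, k3, k4⟩
          · exact absurd h (by decide)
          · refine ⟨k, by omega, by omega, by omega, ?_⟩
            rw [getD_map_vl, getD_map_vl]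
            have := Nat.eq_of_beq_eq_true ok4
            omega
    rw [evs] at h1 h2 h3
    cases ho : p.o
    · -- even
      rw [ho] at h1 h2 h3 ok5 main
      simp only [Bool.false_eq_true, if_false] at h1 h2 h3 ok5
      obtain ⟨e, hPh, hpar, hgm, hgl, hgh, hhl, ha, hh⟩ := main h1 h2
      simp only [Bool.false_eq_true, if_false] at hpar
      obtain ⟨x, y, z, x1, x2, x3, x4, x5, x6, x7⟩ := ih (m0 := p.gm) (s := q) (r := r + 1) (q := e)
        ok5 hgl hgh (fun hs => hgh.trans ((Nat.le_of_ble_eq_true hs).trans hpl)) hgm h3 hh ha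
      have hse := hPh.lt
      refine ⟨x, y, z, x1, x2, x3, x4, ?_, ?_, ?_⟩
      · rw [x5, fpar, ho]
        simp only [Bool.false_eq_true, if_false]
        congr 1
        · rw [← decide_not]
          exact decide_eq_decide.2 (by omega)
        · exact decide_eq_decide.2 (by omega)
      · intro s' r' q' hs hr hq
        rw [fmin, ho]
        simp only [Bool.false_eq_true, if_false]
        exact x6 _ _ _ hq (by omega) (by omega)
      · intro k hk
        have := x7 k hk
        rw [List.length_cons, ← Nat.add_assoc]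
        exact Comp.step hPh (fun h => by omega) (fun _ => this)
    · -- odd
      rw [ho] at h1 h2 h3 ok5 main
      simp only [if_true] at h1 h2 h3 ok5
      obtain ⟨e, hPh, hpar, hgm, hgl, hgh, hhl, ha, hh⟩ := main h1 h2
      simp only [if_true] at hpar
      obtain ⟨x, y, z, x1, x2, x3, x4, x5, x6, x7⟩ := ih (m0 := p.gm) (s := r) (r := q + 1) (q := e)
        ok5 hgl hgh (fun hs => hgh.trans ((Nat.le_of_ble_eq_true hs).trans hhl)) hgm hh h3 ha
      have hse := hPh.lt
      refine ⟨x, y, z, x1, x2, x3, x4, ?_, ?_, ?_⟩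
      · rw [x5, fpar, ho]
        simp only [if_true]
        congr 1
        · rw [← decide_not]
          exact decide_eq_decide.2 (by omega)
        · rw [← decide_not]
          exact decide_eq_decide.2 (by omega)
      · intro s' r' q' hs hr hq
        rw [fmin, ho]
        simp only [if_true]
        exact x6 _ _ _ hr (by omega) (by omega)
      · intro k hk
        have := x7 k hk
        rw [List.length_cons, ← Nat.add_assoc]
        exact Comp.step hPh (fun _ => this) (fun h => by omega)

end Pool.Agent.H.MP_2e666d_lc.HS
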