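import Pool.Agent.H.MP_2e666d_lc.HSDef

/-! # Half signatures: one letter -/

namespace Pool.Agent.H.MP_2e666d_lc.HS

open Pool.Agent.H.MP_2e666d_lc Pool.Agent.H.MP_2e666d_lc.T3

theorem hs3_entry_lt (b : It) (l : ℕ) : b.entry l < 8 := by
  unfold It.entry
  split
  · split <;> omega
  · omega

theorem hs3_entry {D : List ℕ} {r : List It} {l i : ℕ} (hl : D.getD i 0 = l)
    (hi : i < D.length) (h : Sem D r ((r.headD It.E).entry l) (i + 1)) : Sem D r 0 (i + 1) := by
  cases r with
  | nil => exact h
  | cons b r =>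
    cases b with
    | F k =>
      simp only [List.headD_cons, It.entry] at h
      by_cases hk : l = k
      · unfold Sem
        exact Or.inr ⟨i, le_rfl, hi, hl.trans hk⟩
      · rw [if_neg hk] at h
        exact h
    | _ => exact h

theorem hs3_mem {c : Prop} [Decidable c] {t v : ℕ} (h : t ∈ if c then [v] else []) :
    c ∧ t = v := by
  by_cases hc : c
  · rw [if_pos hc, List.mem_singleton] at h
    exact ⟨hc, h⟩
  · rw [if_neg hc] at h
    simp at h

/-- an inner letter of a piece -/
theorem hs3_inner {D : List ℕ} {o : Bool} {bw bu : ℕ} {rw' ru : Bool} {m : ℕ} {r : List It}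
    {l x t i : ℕ} (hx : x < 8) (hl : D.getD i 0 = l)
    (hpar : (t + 1) % 2 = x % 2) (h0 : x % 2 = 0 → vl l ≤ bw) (h1 : x % 2 = 1 → vl l ≤ bu)
    (hb1 : t.testBit 1 = true → x.testBit 1 = true ∨ (x % 2 = 0 ∧ bw ≤ vl l))
    (hb2 : t.testBit 2 = true → x.testBit 2 = true ∨ (x % 2 = 1 ∧ bu ≤ vl l))
    (h : Sem D (It.A o bw bu rw' ru m :: r) t (i + 1)) :
    Sem D (It.A o bw bu rw' ru m :: r) x i := by
  unfold Sem at h ⊢
  obtain ⟨-, e, e1, e2, e3, e4, e5, e6, e7, e8, e9⟩ := h
  refine ⟨hx, e, by omega, e2, ?_, e4, ?_, ?_, ?_, ?_, e9⟩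
  · rw [← e3]
    omega
  · intro k k1 k2 k3
    rcases Nat.eq_or_lt_of_le k1 with hk | hk
    · rw [← hk, hl]
      exact h0 (by omega)
    · exact e5 k (by omega) k2 (by omega)
  · intro k k1 k2 k3
    rcases Nat.eq_or_lt_of_le k1 with hk | hk
    · rw [← hk, hl]
      exact h1 (by omega)
    · exact e6 k (by omega) k2 (by omega)
  · intro hr
    rcases e7 hr with h7 | ⟨k, k1, k2, k3, k4⟩
    · rcases hb1 h7 with h8 | ⟨h8, h9⟩
      · exact Or.inl h8
      · exact Or.inr ⟨i, le_rfl, by omega, by omega, by rw [hl]; exact h9⟩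
    · exact Or.inr ⟨k, by omega, k2, by omega, k4⟩
  · intro hr
    rcases e8 hr with h7 | ⟨k, k1, k2, k3, k4⟩
    · rcases hb2 h7 with h8 | ⟨h8, h9⟩
      · exact Or.inl h8
      · exact Or.inr ⟨i, le_rfl, by omega, by omega, by rw [hl]; exact h9⟩
    · exact Or.inr ⟨k, by omega, k2, by omega, k4⟩

/-- arithmetic of the slots of a piece -/
theorem hs3_bits : ∀ x : Fin 8, (x.val % 2 = 0 → x.val.testBit 1 = false → (x.val + 3 < 8 ∧
      (x.val + 3).testBit 1 = true ∧ (x.val + 3).testBit 2 = x.val.testBit 2)) ∧
    (x.val % 2 = 1 → x.val.testBit 2 = false → (x.val + 3 < 8 ∧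
      (x.val + 3).testBit 1 = x.val.testBit 1 ∧ (x.val + 3).testBit 2 = true)) ∧
    (x.val % 2 = 0 → (x.val + 1 < 8 ∧ (x.val + 1).testBit 1 = x.val.testBit 1 ∧
      (x.val + 1).testBit 2 = x.val.testBit 2)) ∧
    (x.val % 2 = 1 → (x.val - 1 < 8 ∧ (x.val - 1).testBit 1 = x.val.testBit 1 ∧
      (x.val - 1).testBit 2 = x.val.testBit 2)) := by
  decide

theorem tr_sound {D : List ℕ} {a : It} {r : List It} {l x t i : ℕ} (hx : x < 8)
    (hl : D.getD i 0 = l) (hi : i < D.length) (ht : t ∈ tr a (r.headD It.E) l x) :
    (t < 8 → Sem D (a :: r) t (i + 1) → Sem D (a :: r) x i) ∧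
    (8 ≤ t → t < 16 ∧ a.term = false ∧ (Sem D r (t - 8) (i + 1) → Sem D (a :: r) x i)) := by
  have hen := hs3_entry_lt (r.headD It.E) l
  have hexit : ∀ {P : Prop}, (Sem D r 0 (i + 1) → P) →
      Sem D r (8 + (r.headD It.E).entry l - 8) (i + 1) → P := by
    intro P hP h
    rw [Nat.add_sub_cancel_left] at h
    exact hP (hs3_entry hl hi h)
  cases a with
  | H m =>
    simp only [tr] at ht
    split at ht
    · next hc =>
      rw [List.mem_singleton] at ht
      subst ht
      refine ⟨fun h => by omega, fun _ => ⟨by omega, rfl, hexit fun h => ?_⟩⟩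
      unfold Sem
      exact ⟨hc.1, hi, by rw [hl]; exact hc.2, h⟩
    · simp at ht
  | A o bw bu rw' ru m =>
    obtain ⟨b1, b2, b3, b4⟩ := hs3_bits ⟨x, hx⟩
    simp only at b1 b2 b3 b4
    simp only [tr, List.mem_append] at ht
    rcases ht with ht | ht
    · -- inner letters
      have hsmall : t < 8 ∧ (Sem D (It.A o bw bu rw' ru m :: r) t (i + 1) →
          Sem D (It.A o bw bu rw' ru m :: r) x i) := by
        by_cases hx2 : x % 2 = 0
        · rw [if_pos hx2] at ht
          by_cases hv : vl l ≤ bw
          · rw [if_pos hv, List.mem_singleton] at ht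
            by_cases hc : rw' = true ∧ bw ≤ vl l ∧ x.testBit 1 = false
            · rw [if_pos hc] at ht
              subst ht
              obtain ⟨c1, c2, c3⟩ := b1 hx2 hc.2.2
              exact ⟨c1, hs3_inner hx hl (by omega) (fun _ => hv) (fun h => by omega)
                (fun _ => Or.inr ⟨hx2, hc.2.1⟩) (fun h => Or.inl (by rw [← c3]; exact h))⟩
            · rw [if_neg hc] at ht
              subst ht
              obtain ⟨c1, c2, c3⟩ := b3 hx2
              exact ⟨c1, hs3_inner hx hl (by omega) (fun _ => hv) (fun h => by omega)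
                (fun h => Or.inl (by rw [← c2]; exact h)) (fun h => Or.inl (by rw [← c3]; exact h))⟩
          · rw [if_neg hv] at ht
            simp at ht
        · have hx2' : x % 2 = 1 := by omega
          rw [if_neg hx2] at ht
          by_cases hv : vl l ≤ bu
          · rw [if_pos hv, List.mem_singleton] at ht
            by_cases hc : ru = true ∧ bu ≤ vl l ∧ x.testBit 2 = false
            · rw [if_pos hc] at ht
              subst ht
              obtain ⟨c1, c2, c3⟩ := b2 hx2' hc.2.2
              exact ⟨c1, hs3_inner hx hl (by omega) (fun h => by omega) (fun _ => hv)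
                (fun h => Or.inl (by rw [← c2]; exact h)) (fun _ => Or.inr ⟨hx2', hc.2.1⟩)⟩
            · rw [if_neg hc] at ht
              subst ht
              obtain ⟨c1, c2, c3⟩ := b4 hx2'
              exact ⟨c1, hs3_inner hx hl (by omega) (fun h => by omega) (fun _ => hv)
                (fun h => Or.inl (by rw [← c2]; exact h)) (fun h => Or.inl (by rw [← c3]; exact h))⟩
          · rw [if_neg hv] at ht
            simp at ht
      exact ⟨fun _ => hsmall.2, fun h => by omega⟩
    · -- exit
      obtain ⟨hc, rfl⟩ := hs3_mem ht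
      refine ⟨fun h => by omega, fun _ => ⟨by omega, rfl, hexit fun h => ?_⟩⟩
      unfold Sem
      refine ⟨hx, i, le_rfl, hi, ?_, by rw [hl]; exact hc.2.2.2, fun k k1 k2 => by omega,
        fun k k1 k2 => by omega, fun hr => Or.inl (hc.2.1 hr), fun hr => Or.inl (hc.2.2.1 hr), h⟩
      rw [Nat.sub_self, Nat.add_zero]
      exact hc.1
  | W k =>
    simp only [tr] at ht
    split at ht
    · next hx0 =>
      split at ht
      · next hk =>
        rw [List.mem_singleton] at ht
        subst ht
        refine ⟨fun h => by omega, fun _ => ⟨by omega, rfl, hexit fun h => ?_⟩⟩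
        unfold Sem
        exact ⟨hx0, i, le_rfl, hi, hl.trans hk, h⟩
      · rw [List.mem_singleton] at ht
        subst ht
        refine ⟨fun _ h => ?_, fun h => by omega⟩
        unfold Sem at h ⊢
        obtain ⟨-, e, e1, e2, e3, e4⟩ := h
        exact ⟨hx0, e, by omega, e2, e3, e4⟩
    · simp at ht
  | Z k d m =>
    simp only [tr] at ht
    by_cases hx4 : x < 4
    · rw [if_pos hx4, List.mem_append, List.mem_singleton] at ht
      rcases ht with ht | ht
      · have ht4 : t < 4 ∧ (t + 1) % 2 = x % 2 ∧
            (t.testBit 1 = true → x.testBit 1 = true ∨ l = k) := by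
          rw [ht]
          by_cases hk : l = k
          · refine ⟨?_, ?_, fun _ => Or.inr hk⟩
            · interval_cases x <;> simp [hk]
            · interval_cases x <;> simp [hk]
          · refine ⟨?_, ?_, fun h => Or.inl ?_⟩
            · interval_cases x <;> simp [hk]
            · interval_cases x <;> simp [hk]
            · interval_cases x <;> simp [hk, Nat.testBit] at h ⊢
        refine ⟨fun _ h => ?_, fun h => by omega⟩
        unfold Sem at h ⊢
        obtain ⟨-, e, e1, e2, e3, e4, e5, e6⟩ := h
        refine ⟨hx4, e, by omega, e2, ?_, e4, ?_, e6⟩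
        · rw [← e3]
          omega
        · rcases e5 with e5 | ⟨j, j1, j2, j3⟩
          · rcases ht4.2.2 e5 with h | h
            · exact Or.inl h
            · exact Or.inr ⟨i, le_rfl, by omega, hl.trans h⟩
          · exact Or.inr ⟨j, by omega, j2, j3⟩
      · obtain ⟨hc, rfl⟩ := hs3_mem ht
        refine ⟨fun h => by omega, fun _ => ⟨by omega, rfl, hexit fun h => ?_⟩⟩
        unfold Sem
        refine ⟨hx4, i, le_rfl, hi, ?_, by rw [hl]; exact hc.2.1, ?_, h⟩
        · rw [Nat.sub_self, Nat.add_zero]
          exact hc.1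
        · rcases hc.2.2 with h2 | h2
          · left
            clear hc ht
            interval_cases x <;> first | omega | rfl
          · exact Or.inr ⟨i, le_rfl, le_rfl, hl.trans h2⟩
    · rw [if_neg hx4] at ht
      simp at ht
  | F k =>
    simp only [tr] at ht
    split at ht
    · next hx0 =>
      rw [List.mem_singleton] at ht
      by_cases hk : l = k
      · rw [if_pos hk] at ht
        subst ht
        refine ⟨fun _ _ => ?_, fun h => by omega⟩
        unfold Sem
        exact Or.inr ⟨i, by omega, hi, hl.trans hk⟩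
      · rw [if_neg hk] at ht
        subst ht
        refine ⟨fun _ h => ?_, fun h => by omega⟩
        unfold Sem at h ⊢
        rcases h with h | ⟨j, j1, j2, j3⟩
        · omega
        · exact Or.inr ⟨j, by omega, j2, j3⟩
    · split at ht
      · next hx1 =>
        rw [List.mem_singleton] at ht
        subst ht
        refine ⟨fun _ _ => ?_, fun h => by omega⟩
        unfold Sem
        exact Or.inl (by omega)
      · simp at ht
  | X k =>
    simp only [tr] at ht
    split at ht
    · next hx0 =>
      split at ht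
      · next hk =>
        rw [List.mem_singleton] at ht
        subst ht
        refine ⟨fun _ _ => ?_, fun h => by omega⟩
        unfold Sem
        exact Or.inr ⟨hi, hl.trans hk⟩
      · simp at ht
    · split at ht
      · next hx1 =>
        rw [List.mem_singleton] at ht
        subst ht
        refine ⟨fun _ _ => ?_, fun h => by omega⟩
        unfold Sem
        exact Or.inl (by omega)
      · simp at ht
  | T =>
    simp only [tr] at ht
    split at ht
    · rw [List.mem_singleton] at ht
      subst ht
      refine ⟨fun _ _ => ?_, fun h => by omega⟩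
      unfold Sem
      trivial
    · simp at ht
  | E =>
    simp [tr] at ht

theorem hs3_chkM {l k : ℕ} : ∀ (its : List It) (M z : ℕ), chkM l k its M = true →
    M.testBit z = true → ∃ a r, its.drop (z / 8) = a :: r ∧ 8 ≤ z % 8 + k ∧
      (z % 8 + k - 8) ∈ tr a (r.headD It.E) l (z % 8) := by
  intro its
  induction its with
  | nil =>
    intro M z h hz
    simp only [chkM] at h
    rw [Nat.eq_of_beq_eq_true h] at hz
    simp at hz
  | cons a r ih =>
    intro M z h hz
    simp only [chkM, Bool.and_eq_true, Bool.or_eq_true] at h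
    obtain ⟨h1, h2⟩ := h
    by_cases hz8 : z < 8
    · have hb : (M % 256).testBit z = true := by
        rw [show (256 : ℕ) = 2 ^ 8 from rfl, Nat.testBit_mod_two_pow, hz]
        simp [hz8]
      have hne : Nat.beq (M % 256) 0 ≠ true := by
        intro h3
        rw [Nat.eq_of_beq_eq_true h3] at hb
        simp at hb
      have h3 := h1.resolve_left hne
      unfold chkB at h3
      rw [List.all_eq_true] at h3
      have h4 := h3 z (List.mem_range.2 hz8)
      rw [hb] at h4
      simp only [Bool.not_true, Bool.false_or, Bool.and_eq_true] at h4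
      have hz0 : z / 8 = 0 := Nat.div_eq_of_lt hz8
      have hzm : z % 8 = z := Nat.mod_eq_of_lt hz8
      refine ⟨a, r, by rw [hz0]; rfl, ?_, ?_⟩
      · rw [hzm]
        exact Nat.le_of_ble_eq_true h4.1
      · rw [hzm]
        exact List.contains_iff_mem.1 h4.2
    · have hb : (M / 256).testBit (z - 8) = true := by
        rw [show (256 : ℕ) = 2 ^ 8 from rfl, Nat.testBit_div_two_pow,
          show z - 8 + 8 = z by omega]
        exact hz
      obtain ⟨a', r', e1, e2, e3⟩ := ih (M / 256) (z - 8) h2 hb
      have hzm : (z - 8) % 8 = z % 8 := by omega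
      rw [hzm] at e2 e3
      refine ⟨a', r', ?_, e2, e3⟩
      rw [← e1, show z / 8 = (z - 8) / 8 + 1 by omega]
      rfl

theorem hs3_chkMs {its : List It} : ∀ (Ms : List (List (ℕ × ℕ))) (l0 n : ℕ),
    chkMs its l0 Ms = true → ∀ p ∈ nthM Ms n, chkM (l0 + n) p.1 its p.2 = true := by
  intro Ms
  induction Ms with
  | nil =>
    intro l0 n _ p hp
    simp [nthM] at hp
  | cons ms Ms ih =>
    intro l0 n h p hp
    simp only [chkMs, Bool.and_eq_true, List.all_eq_true] at h
    cases n with
    | zero => exact h.1 p hp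
    | succ n =>
      have := ih (l0 + 1) n h.2 p hp
      rwa [show l0 + 1 + n = l0 + (n + 1) by omega] at this

theorem hs3_stepL {S y : ℕ} : ∀ (ms : List (ℕ × ℕ)), (stepL ms S).testBit y = true →
    ∃ p ∈ ms, ∃ z, z + p.1 = y + 8 ∧ S.testBit z = true ∧ p.2.testBit z = true := by
  intro ms
  induction ms with
  | nil =>
    intro h
    simp [stepL] at h
  | cons p ms ih =>
    intro h
    simp only [stepL, Nat.testBit_or, Bool.or_eq_true] at h
    rcases h with h | h
    · rw [Nat.testBit_shiftRight, Nat.testBit_shiftLeft, Bool.and_eq_true,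
        decide_eq_true_iff, Nat.testBit_and, Bool.and_eq_true] at h
      exact ⟨p, List.mem_cons_self, 8 + y - p.1, by omega, h.2.1, h.2.2⟩
    · obtain ⟨p', h1, h2⟩ := ih h
      exact ⟨p', List.mem_cons_of_mem _ h1, h2⟩

theorem good_step {D : List ℕ} {its : List It} {Ms : List (List (ℕ × ℕ))} {m l S : ℕ}
    (hM : chkMs its 0 Ms = true) (hm : m < D.length) (hl : D.getD m 0 = l) (h : Good D its m S) :
    Good D its (m + 1) (stepL (nthM Ms l) S) := by
  intro y hy hsem
  obtain ⟨p, hp, z, hz, hSz, hMz⟩ := hs3_stepL _ hy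
  have hc := hs3_chkMs Ms 0 l hM p hp
  rw [Nat.zero_add] at hc
  obtain ⟨a, r, e1, e2, e3⟩ := hs3_chkM its p.2 z hc hMz
  obtain ⟨t1, t2⟩ := tr_sound (Nat.mod_lt z (by norm_num)) hl hm e3
  have hget : its.getD (z / 8) It.E = a := by
    have h1 := congrArg List.head? e1
    rw [List.head?_drop] at h1
    rw [List.getD_eq_getElem?_getD, h1]
    rfl
  have hdrop : its.drop (z / 8 + 1) = r := by
    rw [← List.drop_drop, e1]
    rfl
  rcases Nat.lt_or_ge (z % 8 + p.1 - 8) 8 with ht | ht
  · have hy1 : y / 8 = z / 8 := by omega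
    have hy2 : y % 8 = z % 8 + p.1 - 8 := by omega
    rw [hy1] at hsem ⊢
    rw [hy2, e1] at hsem
    refine h z hSz ?_
    rw [e1]
    exact t1 ht hsem
  · obtain ⟨t3, t4, t5⟩ := t2 ht
    have hy1 : y / 8 = z / 8 + 1 := by omega
    have hy2 : y % 8 = z % 8 + p.1 - 8 - 8 := by omega
    rw [hy1, hy2, hdrop] at hsem
    have h1 := t5 hsem
    rw [← e1] at h1
    have h2 := h z hSz h1
    have h3 : tb its (z / 8 + 1) = tb its (z / 8) := by
      show (if (its.getD (z / 8) It.E).term = true then z / 8 + 1 else tb its (z / 8)) = _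
      rw [hget, t4]
      simp
    rw [hy1, h3]
    exact h2

theorem good_sub {D : List ℕ} {its : List It} {m S S' : ℕ} (h : Good D its m S)
    (hs : Nat.beq (S' &&& S) S' = true) : Good D its m S' := by
  intro y hy
  refine h y ?_
  rw [← Nat.eq_of_beq_eq_true hs, Nat.testBit_and, Bool.and_eq_true] at hy
  exact hy.2

theorem hs3_start : ∀ (its : List It) (t : Bool) (M z : ℕ), chkStart t its M = true →
    M.testBit z = true → z % 8 = 0 ∧ ((z / 8 = 0 ∧ t = true) ∨
      (1 ≤ z / 8 ∧ (its.getD (z / 8 - 1) It.E).term = true)) := by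
  intro its
  induction its with
  | nil =>
    intro t M z h hz
    simp only [chkStart] at h
    rw [Nat.eq_of_beq_eq_true h] at hz
    simp at hz
  | cons a r ih =>
    intro t M z h hz
    simp only [chkStart, Bool.and_eq_true, Bool.or_eq_true] at h
    obtain ⟨h1, h2⟩ := h
    by_cases hz8 : z < 8
    · have hb : (M % 256).testBit z = true := by
        rw [show (256 : ℕ) = 2 ^ 8 from rfl, Nat.testBit_mod_two_pow, hz]
        simp [hz8]
      have hne : Nat.beq (M % 256) 0 ≠ true := by
        intro h3
        rw [Nat.eq_of_beq_eq_true h3] at hb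
        simp at hb
      obtain ⟨h3, h4⟩ := h1.resolve_left hne
      rw [Nat.eq_of_beq_eq_true h4] at hb
      have hz0 : z = 0 := by
        by_contra hne0
        have h5 : Nat.testBit 1 z = false :=
          Nat.testBit_lt_two_pow (Nat.one_lt_two_pow hne0)
        rw [h5] at hb
        exact absurd hb (by simp)
      exact ⟨by omega, Or.inl ⟨by omega, h3⟩⟩
    · have hb : (M / 256).testBit (z - 8) = true := by
        rw [show (256 : ℕ) = 2 ^ 8 from rfl, Nat.testBit_div_two_pow,
          show z - 8 + 8 = z by omega]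
        exact hz
      obtain ⟨h3, h4⟩ := ih a.term (M / 256) (z - 8) h2 hb
      refine ⟨by omega, Or.inr ⟨by omega, ?_⟩⟩
      rcases h4 with ⟨h4, h5⟩ | ⟨h4, h5⟩
      · rw [show z / 8 - 1 = 0 by omega]
        exact h5
      · rw [show z / 8 - 1 = ((z - 8) / 8 - 1) + 1 by omega, List.getD_cons_succ]
        exact h5

theorem good_start {D : List ℕ} {its : List It} {S : ℕ} (h : chkStart true its S = true) :
    Good D its 0 S := by
  intro y hy hsem
  obtain ⟨h1, h2⟩ := hs3_start its true S y h hy
  have h3 : tb its (y / 8) = y / 8 := by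
    rcases h2 with ⟨h2, -⟩ | ⟨h2, h4⟩
    · rw [h2]
      rfl
    · obtain ⟨n, hn⟩ : ∃ n, y / 8 = n + 1 := ⟨y / 8 - 1, by omega⟩
      rw [hn] at h4 ⊢
      rw [Nat.add_sub_cancel] at h4
      show (if (its.getD n It.E).term = true then n + 1 else tb its n) = _
      rw [if_pos h4]
  rw [h3]
  rw [h1] at hsem
  exact hsem

end Pool.Agent.H.MP_2e666d_lc.HS
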