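import Pool.Agent.H.MP_2e666d_lc.HS3

/-! # Half signatures: soundness of the certificates -/

namespace Pool.Agent.H.MP_2e666d_lc.HS

open Pool.Agent.H.MP_2e666d_lc Pool.Agent.H.MP_2e666d_lc.T3

theorem hs4_get {Ms : List (List (ℕ × ℕ))} {tab : List RSt} {fin : ℕ → ℕ → Bool} {B B0 : BT}
    (h : chkT Ms tab fin B B0 = true) (n : ℕ) : ∃ T, chkN Ms tab fin B (B0.get n) T = true := by
  induction B0 generalizing n with
  | leaf N T => exact ⟨T, h⟩
  | node a b iha ihb =>
    rw [chkT, Bool.and_eq_true] at h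
    simp only [BT.get]
    cases Nat.beq (n % 2) 0 with
    | true => exact iha h.1 _
    | false => exact ihb h.2 _

theorem hs4_nthR {tab : List RSt} {n : ℕ} (h : n < tab.length) : nthR tab n ∈ tab := by
  induction tab generalizing n with
  | nil => simp at h
  | cons s tab ih =>
    cases n with
    | zero => simp [nthR]
    | succ n =>
      simp only [nthR]
      exact List.mem_cons_of_mem _ (ih (by simpa using h))

theorem hs4_chkE {Ms : List (List (ℕ × ℕ))} {B : BT} {S : ℕ} {l : List (ℕ × ℕ)} {T : ℕ}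
    (h : chkE Ms B S l T = true) {p : ℕ × ℕ} (hp : p ∈ l) :
    ∃ t, B.get t % 256 = p.2 ∧
      Nat.beq ((B.get t / 256) &&& stepL (nthM Ms p.1) S) (B.get t / 256) = true := by
  induction l generalizing T with
  | nil => simp at hp
  | cons x l ih =>
    obtain ⟨a, s⟩ := x
    rw [chkE, Bool.and_eq_true, Bool.and_eq_true] at h
    obtain ⟨⟨h1, h2⟩, h3⟩ := h
    rcases List.mem_cons.1 hp with rfl | hp
    · exact ⟨T % 65536, Nat.eq_of_beq_eq_true h1, h2⟩
    · exact ih h3 hp

theorem hs4_main {its : List It} {Ms : List (List (ℕ × ℕ))} {tab : List RSt}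
    {fin : ℕ → ℕ → Bool} {B : BT} {D : List ℕ}
    (hM : chkMs its 0 Ms = true) (hR : chkR tab = true) (hT : chkT Ms tab fin B B = true)
    (V : List ℕ) : ∀ (U : List ℕ) (n : ℕ), D = U ++ V →
    Inst (nthR tab (B.get n % 256)).1 (nthR tab (B.get n % 256)).2.1 V →
    Good D its U.length (B.get n / 256) → ∃ S T, Good D its D.length S ∧ fin S T = true := by
  induction V with
  | nil =>
    intro U n hD hi hg
    obtain ⟨T, hN⟩ := hs4_get hT n
    rw [chkN, Bool.and_eq_true, Bool.and_eq_true] at hN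
    obtain ⟨⟨-, h2⟩, -⟩ := hN
    rw [cover_null hi, cond_true] at h2
    refine ⟨_, T, ?_, h2⟩
    have : D.length = U.length := by rw [hD]; simp
    rw [this]
    exact hg
  | cons a V ih =>
    intro U n hD hi hg
    obtain ⟨T, hN⟩ := hs4_get hT n
    rw [chkN, Bool.and_eq_true, Bool.and_eq_true] at hN
    obtain ⟨⟨h1, -⟩, h3⟩ := hN
    have h1' : B.get n % 256 < tab.length := by
      have := h1
      rw [Nat.blt_eq] at this
      exact this
    have hs := hs4_nthR h1'
    rw [chkR, List.all_eq_true] at hR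
    have hs' := hR _ hs
    rw [Bool.and_eq_true, decide_eq_true_eq, List.all_eq_true] at hs'
    obtain ⟨h4, h5⟩ := hs'
    obtain ⟨r, hr, hi'⟩ := cover_tr hi
    rw [h4, List.mem_map] at hr
    obtain ⟨p, hp, hpr⟩ := hr
    rw [Prod.mk.injEq] at hpr
    obtain ⟨rfl, rfl⟩ := hpr
    have h6 := h5 p hp
    rw [Bool.and_eq_true, beq_iff_eq] at h6
    obtain ⟨t, ht1, ht2⟩ := hs4_chkE h3 hp
    have hm : U.length < D.length := by rw [hD]; simp
    have hl : D.getD U.length 0 = p.1 := by rw [hD]; simp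
    refine ih (U ++ [p.1]) t (by rw [hD]; simp) ?_ ?_
    · rw [ht1, h6.2]
      exact hi'
    · rw [List.length_append, List.length_singleton]
      exact good_sub (good_step hM hm hl hg) ht2

theorem cert_sound {its : List It} {Ms : List (List (ℕ × ℕ))} {tab : List RSt}
    {fin : ℕ → ℕ → Bool} {B : BT} {root : List Cell} {D : List ℕ}
    (hM : chkMs its 0 Ms = true) (hR : chkR tab = true) (hT : chkT Ms tab fin B B = true)
    (h1 : (nthR tab 0).1 = false) (h2 : (nthR tab 0).2.1 = root) (h3 : B.get 0 % 256 = 0)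
    (h4 : chkStart true its (B.get 0 / 256) = true) (hD : Inst false root D) :
    ∃ S T, Good D its D.length S ∧ fin S T = true := by
  refine hs4_main hM hR hT D [] 0 rfl ?_ ?_
  · rw [h3, h1, h2]
    exact hD
  · exact good_start h4

end Pool.Agent.H.MP_2e666d_lc.HS
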