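import Pool.Agent.H.MP_2e666d_lc.HSDef

/-! # Half signatures: facts about the instances of the root -/

namespace Pool.Agent.H.MP_2e666d_lc.HS

open Pool.Agent.H.MP_2e666d_lc Pool.Agent.H.MP_2e666d_lc.T3

structure RootF (l1 l2 : ℕ) (D : List ℕ) : Prop where
  m1 : 5 ≤ l1
  m2 : 5 ≤ l2
  uniq : ∀ k i j, 5 ≤ k → i < D.length → j < D.length → D.getD i 0 = k → D.getD j 0 = k → i = j
  cut : ∃ p1 p2, p1 < p2 ∧ p2 < D.length ∧ D.getD p1 0 = l1 ∧ D.getD p2 0 = l2 ∧ p1 % 2 ≠ p2 % 2
  two : ∀ i, 2 ≤ i → i + 2 < D.length → vl (D.getD i 0) ≤ 2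

theorem hs5_stretch {q : Bool} {i j : ℕ} {T : List ℕ} (hi : i ≤ 2) (hj : j ≤ 2)
    (h0 : ∀ k < T.length, k % 2 = 0 → T.getD k 0 ≤ if q then j else i)
    (h1 : ∀ k < T.length, k % 2 = 1 → T.getD k 0 ≤ if q then i else j) : ∀ a ∈ T, a ≤ 2 := by
  intro a ha
  obtain ⟨k, hk, rfl⟩ := List.getElem_of_mem ha
  have h2 : T.getD k 0 = T[k] := List.getD_eq_getElem T 0 hk
  rw [← h2]
  rcases Nat.mod_two_eq_zero_or_one k with h | h
  · refine (h0 k hk h).trans ?_
    split <;> assumption
  · refine (h1 k hk h).trans ?_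
    split <;> assumption

theorem hs5_count {k : ℕ} (hk : 5 ≤ k) {q : Bool} {cs : List Cell} {W : List ℕ}
    (h : Inst q cs W) (hS : ∀ o i j, Cell.S o i j ∈ cs → i ≤ 2 ∧ j ≤ 2) :
    W.count k = cs.count (Cell.L k) := by
  induction h with
  | nil q => simp
  | letter q v cs W _ ih =>
    have ih' := ih fun o i j hm => hS o i j (List.mem_cons_of_mem _ hm)
    rw [List.count_cons, List.count_cons, ih']
    congr 1
    by_cases hv : v = k
    · subst hv
      simp
    · have h2 : ¬ (Cell.L v = Cell.L k) := fun h => hv (Cell.L.inj h)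
      simp [hv]
  | stretch q o i j cs T W _ h0 h1 _ ih =>
    have ih' := ih fun o i j hm => hS o i j (List.mem_cons_of_mem _ hm)
    obtain ⟨hi, hj⟩ := hS o i j (List.mem_cons_self ..)
    have h2 := hs5_stretch hi hj h0 h1
    have h3 : T.count k = 0 := by
      rw [List.count_eq_zero]
      intro hm
      have := h2 k hm
      omega
    rw [List.count_append, h3, zero_add, ih', List.count_cons]
    simp

theorem hs5_mem {Q : ℕ → Prop} (hQ : ∀ a ≤ 2, Q a) {q : Bool} {cs : List Cell} {W : List ℕ}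
    (h : Inst q cs W) (hS : ∀ o i j, Cell.S o i j ∈ cs → i ≤ 2 ∧ j ≤ 2)
    (hL : ∀ v, Cell.L v ∈ cs → Q v) : ∀ a ∈ W, Q a := by
  induction h with
  | nil q => simp
  | letter q v cs W _ ih =>
    have ih' := ih (fun o i j hm => hS o i j (List.mem_cons_of_mem _ hm))
      (fun v hm => hL v (List.mem_cons_of_mem _ hm))
    intro a ha
    rcases List.mem_cons.mp ha with rfl | ha
    · exact hL _ (List.mem_cons_self ..)
    · exact ih' a ha
  | stretch q o i j cs T W _ h0 h1 _ ih =>
    have ih' := ih (fun o i j hm => hS o i j (List.mem_cons_of_mem _ hm))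
      (fun v hm => hL v (List.mem_cons_of_mem _ hm))
    obtain ⟨hi, hj⟩ := hS o i j (List.mem_cons_self ..)
    have h2 := hs5_stretch hi hj h0 h1
    intro a ha
    rcases List.mem_append.mp ha with ha | ha
    · exact hQ a (h2 a ha)
    · exact ih' a ha

theorem hs5_append {A B : List Cell} : ∀ {q : Bool} {W : List ℕ}, Inst q (A ++ B) W →
    ∃ U V q', W = U ++ V ∧ Inst q A U ∧ Inst q' B V := by
  induction A with
  | nil =>
    intro q W h
    exact ⟨[], W, q, rfl, Inst.nil q, h⟩
  | cons a A ih =>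
    intro q W h
    rw [List.cons_append] at h
    cases h with
    | letter _ v _ W h =>
      obtain ⟨U, V, q', rfl, h1, h2⟩ := ih h
      exact ⟨v :: U, V, q', rfl, Inst.letter q v A U h1, h2⟩
    | stretch _ o i j _ T W hT h0 h1 h =>
      obtain ⟨U, V, q', rfl, h2, h3⟩ := ih h
      exact ⟨T ++ U, V, q', by rw [List.append_assoc], Inst.stretch q o i j A T U hT h0 h1 h2, h3⟩

theorem hs5_four {q : Bool} {V : List ℕ} (h : Inst q [Cell.L 4, Cell.L 4] V) : V = [4, 4] := by
  cases h with
  | letter _ _ _ W h =>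
    cases h with
    | letter _ _ _ W h =>
      cases h with
      | nil => rfl

theorem hs5_two_count {D : List ℕ} {k i j : ℕ} (hij : i < j) (hj : j < D.length)
    (hi' : D.getD i 0 = k) (hj' : D.getD j 0 = k) : 2 ≤ D.count k := by
  rw [← List.duplicate_iff_two_le_count, List.duplicate_iff_exists_distinct_get]
  have hi : i < D.length := hij.trans hj
  refine ⟨⟨i, hi⟩, ⟨j, hj⟩, hij, ?_, ?_⟩
  · rw [← hi', List.getD_eq_getElem D 0 hi]
    rfl
  · rw [← hj', List.getD_eq_getElem D 0 hj]
    rfl

theorem hs5_le {q : Bool} {cs : List Cell} {W : List ℕ} {pos : ℕ → ℕ}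
    (h : treeleaf3_Pos q cs W pos) : ∀ d c, c + d ≤ cs.length → pos c ≤ pos (c + d) := by
  intro d
  induction d with
  | zero => intro c _; exact le_rfl
  | succ d ih =>
    intro c hc
    refine (ih c (by omega)).trans ?_
    have hlt : c + d < cs.length := by omega
    have hx : cs[c + d]? = some (cs[c + d]) := List.getElem?_eq_getElem hlt
    cases hxx : cs[c + d] with
    | L v =>
      rw [hxx] at hx
      have := (h.let1 (c + d) v hx).1
      show pos (c + d) ≤ pos (c + d + 1)
      omega
    | S o i j =>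
      rw [hxx] at hx
      exact (h.str (c + d) o i j hx).1

theorem root_facts {l1 l2 : ℕ} {root : List Cell} {D : List ℕ} (h : chkRoot l1 l2 root = true)
    (hD : Inst false root D) : RootF l1 l2 D := by
  unfold chkRoot at h
  rw [Bool.and_eq_true, Bool.and_eq_true, Bool.and_eq_true, Bool.and_eq_true, Bool.and_eq_true]
    at h
  obtain ⟨⟨⟨⟨⟨hl1, hl2⟩, hcut⟩, hroot⟩, hcnt⟩, hle⟩ := h
  have hm1 : 5 ≤ l1 := Nat.le_of_ble_eq_true hl1
  have hm2 : 5 ≤ l2 := Nat.le_of_ble_eq_true hl2
  have hcut' := of_decide_eq_true hcut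
  -- the shape of the root
  obtain ⟨r, rfl, hr⟩ : ∃ r, root = Cell.L 3 :: Cell.L 3 :: r ∧
      (decide (2 ≤ r.length) && decide (r.drop (r.length - 2) = [Cell.L 4, Cell.L 4]) &&
          (r.take (r.length - 2)).all fun c => match c with
            | Cell.L v => decide (vl v ≤ 2)
            | Cell.S _ i j => decide (i ≤ 2 ∧ j ≤ 2)) = true := by
    split at hroot
    · exact ⟨_, rfl, hroot⟩
    · exact absurd hroot (by simp)
  rw [Bool.and_eq_true, Bool.and_eq_true] at hr
  obtain ⟨⟨hr1, hr2⟩, hr3⟩ := hr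
  have hr2' := of_decide_eq_true hr2
  have hr4 := List.all_eq_true.mp hr3
  have hsplit : r = r.take (r.length - 2) ++ [Cell.L 4, Cell.L 4] := by
    conv_lhs => rw [← List.take_append_drop (r.length - 2) r, hr2']
  have hSr : ∀ o i j, Cell.S o i j ∈ r.take (r.length - 2) → i ≤ 2 ∧ j ≤ 2 := by
    intro o i j hm
    exact of_decide_eq_true (hr4 _ hm)
  have hS : ∀ o i j, Cell.S o i j ∈ Cell.L 3 :: Cell.L 3 :: r → i ≤ 2 ∧ j ≤ 2 := by
    intro o i j hm
    rw [List.mem_cons, List.mem_cons] at hm
    rcases hm with hm | hm | hm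
    · exact absurd hm (by simp)
    · exact absurd hm (by simp)
    · rw [hsplit, List.mem_append] at hm
      rcases hm with hm | hm
      · exact hSr o i j hm
      · simp at hm
  refine ⟨hm1, hm2, ?_, ?_, ?_⟩
  · intro k i j hk hi hj hik hjk
    have hk8 : k ≤ 12 := by
      have h1 := hs5_mem (Q := fun a => a ≤ 12) (fun a ha => by omega) hD hS (by
        intro v hv
        exact of_decide_eq_true (List.all_eq_true.mp hle _ hv))
      refine h1 k ?_
      rw [← hik, List.getD_eq_getElem D 0 hi]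
      exact List.getElem_mem hi
    have hc : D.count k ≤ 1 := by
      rw [hs5_count hk hD hS]
      have h1 := List.all_eq_true.mp hcnt k (List.mem_range.mpr (by omega))
      rw [Bool.or_eq_true] at h1
      rcases h1 with h1 | h1
      · have := of_decide_eq_true h1
        omega
      · exact of_decide_eq_true h1
    by_contra hne
    rcases Nat.lt_or_gt_of_ne hne with hlt | hlt
    · have := hs5_two_count hlt hj hik hjk
      omega
    · have := hs5_two_count hlt hi hjk hik
      omega
  · obtain ⟨c1, _, c2, hc2, hlt, h1, h2, hpar⟩ := hcut'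
    obtain ⟨pos, hpos⟩ := treeleaf3_pos hD
    obtain ⟨a1, a2, a3⟩ := hpos.let1 c1 l1 h1
    obtain ⟨b1, b2, b3⟩ := hpos.let1 c2 l2 h2
    refine ⟨pos c1, pos c2, ?_, b3, a2, b2, ?_⟩
    · have h3 := hs5_le hpos (c2 - (c1 + 1)) (c1 + 1) (by omega)
      have h4 : c1 + 1 + (c2 - (c1 + 1)) = c2 := by omega
      rw [h4] at h3
      omega
    · intro he
      apply hpar
      rw [hpos.par, hpos.par, he]
  · intro i hi2 hi
    cases hD with
    | letter _ _ _ W hD =>
      cases hD with
      | letter _ _ _ W hD =>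
        rw [hsplit] at hD
        obtain ⟨U, V, q', rfl, hU, hV⟩ := hs5_append hD
        have hV' := hs5_four hV
        subst hV'
        have hlen : i - 2 < U.length := by
          simp only [List.length_cons, List.length_append, List.length_nil] at hi
          omega
        have e1 : (3 :: 3 :: (U ++ [4, 4])).getD i 0 = U.getD (i - 2) 0 := by
          obtain ⟨m, rfl⟩ : ∃ m, i = m + 2 := ⟨i - 2, by omega⟩
          rw [List.getD_cons_succ, List.getD_cons_succ, Nat.add_sub_cancel,
            List.getD_append _ _ _ _ (by simpa using hlen)]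
        rw [e1]
        have h3 := hs5_mem (Q := fun a => vl a ≤ 2) (fun a ha => (vl_le a).trans ha) hU hSr (by
          intro v hv
          exact of_decide_eq_true (hr4 _ hv))
        refine h3 _ ?_
        rw [List.getD_eq_getElem U 0 hlen]
        exact List.getElem_mem hlen

end Pool.Agent.H.MP_2e666d_lc.HS
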