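import Pool.Agent.H.MP_2e666d_lc.HSDef

/-! # Half signatures: the accepting bits -/

namespace Pool.Agent.H.MP_2e666d_lc.HS

open Pool.Agent.H.MP_2e666d_lc Pool.Agent.H.MP_2e666d_lc.T3

/-- a list of items whose only terminal item is the last one -/
def hs6_tape (t : List It) : Prop :=
  ∃ t0 a, t = t0 ++ [a] ∧ a.term = true ∧ ∀ b ∈ t0, b.term = false

/-- the empty list or a list with a terminal last item -/
def hs6_pre (P : List It) : Prop := P = [] ∨ ∃ P0 a, P = P0 ++ [a] ∧ a.term = true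

theorem hs6_tape_one {a : It} (h : a.term = true) : hs6_tape [a] :=
  ⟨[], a, rfl, h, by simp⟩

theorem hs6_tape_cons {x : It} {t : List It} (hx : x.term = false) (h : hs6_tape t) :
    hs6_tape (x :: t) := by
  obtain ⟨t0, a, rfl, h1, h2⟩ := h
  refine ⟨x :: t0, a, rfl, h1, ?_⟩
  intro b hb
  rcases List.mem_cons.1 hb with rfl | hb
  · exact hx
  · exact h2 b hb

theorem hs6_pre_app {P t : List It} (h : hs6_tape t) : hs6_pre (P ++ t) := by
  obtain ⟨t0, a, rfl, h1, -⟩ := h
  exact Or.inr ⟨P ++ t0, a, by rw [List.append_assoc], h1⟩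

theorem hs6_evs {base : List It × List It × List It} (h1 : hs6_tape base.1)
    (h2 : hs6_tape base.2.1) (h3 : hs6_tape base.2.2) :
    ∀ (ps : List HP) (pl ph : ℕ) (sat : Bool), hs6_tape (evs base ps pl ph sat).1 ∧
      hs6_tape (evs base ps pl ph sat).2.1 ∧ hs6_tape (evs base ps pl ph sat).2.2 := by
  intro ps
  induction ps with
  | nil =>
    intro pl ph sat
    exact ⟨h1, h2, h3⟩
  | cons p ps ih =>
    intro pl ph sat
    obtain ⟨i1, i2, i3⟩ := ih p.gl p.gh (Nat.ble p.gh (if p.o then p.hl else pl))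
    unfold evs
    by_cases ho : p.o = true
    · simp only [ho, if_true]
      rw [ho, if_pos rfl] at i1 i2 i3
      exact ⟨hs6_tape_cons rfl i3, hs6_tape_cons rfl i1, i2⟩
    · simp only [ho, if_false]
      rw [if_neg ho] at i1 i2 i3
      exact ⟨hs6_tape_cons rfl i3, hs6_tape_cons rfl i2, i1⟩

theorem hs6_tapes (l1 l2 : ℕ) (s : Sig) : hs6_tape (s.tapes l1 l2).1 ∧
    hs6_tape (s.tapes l1 l2).2.1 ∧ hs6_tape (s.tapes l1 l2).2.2 := by
  cases s with
  | L ma mb ps =>
    obtain ⟨i1, i2, i3⟩ := hs6_evs (base := ([It.F l1], [It.X ma], [It.T]))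
      (hs6_tape_one rfl) (hs6_tape_one rfl) (hs6_tape_one rfl) ps 3 3 true
    exact ⟨hs6_tape_cons rfl i1, i2, hs6_tape_cons rfl i3⟩
  | R ka kb d lo hi m ps =>
    obtain ⟨i1, i2, i3⟩ := hs6_evs (base := ([It.E], [It.E], [It.E]))
      (hs6_tape_one rfl) (hs6_tape_one rfl) (hs6_tape_one rfl) ps lo hi (Nat.ble hi 2)
    exact ⟨hs6_tape_cons rfl i1, hs6_tape_cons rfl i2, hs6_tape_cons rfl i3⟩
  | F ps =>
    obtain ⟨i1, i2, i3⟩ := hs6_evs (base := ([It.E], [It.E], [It.E]))
      (hs6_tape_one rfl) (hs6_tape_one rfl) (hs6_tape_one rfl) ps 3 3 true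
    exact ⟨hs6_tape_cons rfl i1, i2, hs6_tape_cons rfl i3⟩

/-- the items after the end of a tape are irrelevant -/
theorem hs6_sem_append {D : List ℕ} {a : It} {R : List It} (ha : a.term = true) :
    ∀ (t0 : List It) (x i : ℕ), Sem D (t0 ++ [a] ++ R) x i → Sem D (t0 ++ [a]) x i := by
  intro t0
  induction t0 with
  | nil =>
    intro x i h
    cases a <;> first | exact h | simp [It.term] at ha
  | cons b t0 ih =>
    intro x i h
    rw [List.cons_append, List.cons_append] at h
    rw [List.cons_append]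
    cases b with
    | H m =>
      unfold Sem at h ⊢
      exact ⟨h.1, h.2.1, h.2.2.1, ih _ _ h.2.2.2⟩
    | A o bw bu rw' ru m =>
      unfold Sem at h ⊢
      obtain ⟨h0, e, h1, h2, h3, h4, h5, h6, h7, h8, h9⟩ := h
      exact ⟨h0, e, h1, h2, h3, h4, h5, h6, h7, h8, ih _ _ h9⟩
    | W k =>
      unfold Sem at h ⊢
      obtain ⟨h0, e, h1, h2, h3, h4⟩ := h
      exact ⟨h0, e, h1, h2, h3, ih _ _ h4⟩
    | Z k d m =>
      unfold Sem at h ⊢
      obtain ⟨h0, e, h1, h2, h3, h4, h5, h6⟩ := h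
      exact ⟨h0, e, h1, h2, h3, h4, h5, ih _ _ h6⟩
    | F k => exact h
    | X k => exact h
    | T => exact h
    | E => exact h

theorem hs6_getD_mid {P R : List It} {a : It} : (P ++ a :: R).getD P.length It.E = a := by
  rw [List.getD_append_right _ _ _ _ le_rfl, Nat.sub_self]
  rfl

theorem hs6_tb {P t0 R : List It} (hP : hs6_pre P) (ht : ∀ b ∈ t0, b.term = false) :
    ∀ j, j ≤ t0.length → tb (P ++ (t0 ++ R)) (P.length + j) = P.length := by
  intro j
  induction j with
  | zero =>
    intro _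
    rcases hP with rfl | ⟨P0, a, rfl, ha⟩
    · rfl
    · rw [List.length_append, List.length_singleton, Nat.add_zero]
      show (if ((P0 ++ [a] ++ (t0 ++ R)).getD P0.length It.E).term = true then P0.length + 1
        else _) = _
      rw [List.append_assoc, List.singleton_append, hs6_getD_mid, if_pos ha]
  | succ j ih =>
    intro hj
    show (if ((P ++ (t0 ++ R)).getD (P.length + j) It.E).term = true then P.length + j + 1
        else tb (P ++ (t0 ++ R)) (P.length + j)) = _
    have h1 : (P ++ (t0 ++ R)).getD (P.length + j) It.E = t0[j] := by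
      rw [List.getD_append_right _ _ _ _ (by omega), Nat.add_sub_cancel_left,
        List.getD_append _ _ _ _ (by omega), List.getD_eq_getElem _ _ (by omega)]
    rw [h1, ht _ (List.getElem_mem _), if_neg (by simp)]
    exact ih (by omega)

theorem hs6_acc {D : List ℕ} {a : It} {R : List It} (ha : a.term = true) :
    Sem D (a :: R) a.acc D.length := by
  cases a with
  | F k =>
    unfold Sem
    exact Or.inl le_rfl
  | X k =>
    unfold Sem
    exact Or.inl le_rfl
  | T =>
    unfold Sem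
    trivial
  | E =>
    unfold Sem
    exact ⟨rfl, rfl⟩
  | _ => simp [It.term] at ha

theorem hs6_acc_lt (a : It) : a.acc < 8 := by
  unfold It.acc
  split <;> omega

theorem hs6_tape_sound {D : List ℕ} {its P t R : List It} {S : ℕ}
    (h : Good D its D.length S) (hits : its = P ++ (t ++ R)) (hP : hs6_pre P) (ht : hs6_tape t)
    (hb : S.testBit (8 * (P.length + t.length - 1) + (t.getLastD It.E).acc) = true) :
    Sem D t 0 0 := by
  obtain ⟨t0, a, rfl, h1, h2⟩ := ht
  have e0 : (t0 ++ [a]).getLastD It.E = a := by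
    exact List.getLastD_concat
  have e1 : P.length + (t0 ++ [a]).length - 1 = P.length + t0.length := by
    rw [List.length_append, List.length_singleton]
    omega
  rw [e0, e1] at hb
  have hacc := hs6_acc_lt a
  have h3 := h _ hb
  have e2 : (8 * (P.length + t0.length) + a.acc) / 8 = P.length + t0.length := by omega
  have e3 : (8 * (P.length + t0.length) + a.acc) % 8 = a.acc := by omega
  rw [e2, e3] at h3
  have e4 : its.drop (P.length + t0.length) = a :: R := by
    rw [hits, ← List.drop_drop, List.drop_left, List.append_assoc, List.drop_left]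
    rfl
  have e5 : tb its (P.length + t0.length) = P.length := by
    rw [hits, List.append_assoc]
    exact hs6_tb hP h2 _ le_rfl
  rw [e4, e5, hits, List.drop_left] at h3
  exact hs6_sem_append h1 t0 0 0 (h3 (hs6_acc h1))

theorem hs6_find {l1 l2 : ℕ} {s : Sig} {m : ℕ} :
    ∀ (ss : List Sig) (P : List It) (i : ℕ), hs6_pre P →
    nthA (accs l1 l2 P.length ss) i = some (s, m) →
    ∃ P' R, P ++ items l1 l2 ss = P' ++ ((s.tapes l1 l2).1 ++ ((s.tapes l1 l2).2.1 ++
        ((s.tapes l1 l2).2.2 ++ R))) ∧ hs6_pre P' ∧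
      m = accBit P'.length (s.tapes l1 l2).1 +
        accBit (P'.length + (s.tapes l1 l2).1.length) (s.tapes l1 l2).2.1 +
        accBit (P'.length + (s.tapes l1 l2).1.length + (s.tapes l1 l2).2.1.length)
          (s.tapes l1 l2).2.2 := by
  intro ss
  induction ss with
  | nil =>
    intro P i _ h
    simp [accs, nthA] at h
  | cons s' ss ih =>
    intro P i hP h
    cases i with
    | zero =>
      simp only [accs, nthA, Option.some.injEq, Prod.mk.injEq] at h
      obtain ⟨rfl, rfl⟩ := h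
      exact ⟨P, items l1 l2 ss, rfl, hP, rfl⟩
    | succ i =>
      simp only [accs, nthA] at h
      set T1 := (s'.tapes l1 l2).1 with hT1
      set T2 := (s'.tapes l1 l2).2.1 with hT2
      set T3' := (s'.tapes l1 l2).2.2 with hT3
      have h1 := ih (P ++ T1 ++ T2 ++ T3') i (hs6_pre_app (hs6_tapes l1 l2 s').2.2) (by
        rw [List.length_append, List.length_append, List.length_append]
        exact h)
      obtain ⟨P', R, e1, e2, e3⟩ := h1
      refine ⟨P', R, ?_, e2, e3⟩
      rw [← e1]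
      show P ++ (T1 ++ (T2 ++ (T3' ++ items l1 l2 ss))) = _
      simp only [List.append_assoc]

theorem hs6_testBit_sum {a b c S : ℕ} (hab : a < b) (hbc : b < c)
    (h : Nat.beq ((2 ^ a + 2 ^ b + 2 ^ c) &&& S) (2 ^ a + 2 ^ b + 2 ^ c) = true) :
    S.testBit a = true ∧ S.testBit b = true ∧ S.testBit c = true := by
  have h0 := Nat.eq_of_beq_eq_true h
  have hlt1 : 2 ^ a < 2 ^ b := Nat.pow_lt_pow_right (by norm_num) hab
  have hlt3 : 2 ^ a + 2 ^ b < 2 ^ c := by
    have : 2 ^ (b + 1) ≤ 2 ^ c := Nat.pow_le_pow_right (by norm_num) hbc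
    rw [pow_succ] at this
    omega
  have e1 : 2 ^ a + 2 ^ b = 2 ^ b ||| 2 ^ a := by
    have := Nat.two_pow_add_eq_or_of_lt hlt1 1
    rw [Nat.mul_one] at this
    rw [← this, Nat.add_comm]
  have e2 : 2 ^ a + 2 ^ b + 2 ^ c = 2 ^ c ||| (2 ^ b ||| 2 ^ a) := by
    have := Nat.two_pow_add_eq_or_of_lt hlt3 1
    rw [Nat.mul_one, e1] at this
    rw [← this, e1, Nat.add_comm]
  have key : ∀ n, (2 ^ a + 2 ^ b + 2 ^ c).testBit n = true → S.testBit n = true := by
    intro n hn
    rw [← h0, Nat.testBit_and, Bool.and_eq_true] at hn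
    exact hn.2
  refine ⟨key a ?_, key b ?_, key c ?_⟩ <;> rw [e2, Nat.testBit_or, Nat.testBit_or]
  · rw [Nat.testBit_two_pow_self, Bool.or_true, Bool.or_true]
  · rw [Nat.testBit_two_pow_self, Bool.true_or, Bool.or_true]
  · rw [Nat.testBit_two_pow_self, Bool.true_or]

theorem acc_sound {l1 l2 : ℕ} {D : List ℕ} {ss : List Sig} {S i : ℕ} {s : Sig} {m : ℕ}
    (h : Good D (items l1 l2 ss) D.length S) (hi : nthA (accs l1 l2 0 ss) i = some (s, m))
    (hm : Nat.beq (m &&& S) m = true) :
    Sem D (s.tapes l1 l2).1 0 0 ∧ Sem D (s.tapes l1 l2).2.1 0 0 ∧ Sem D (s.tapes l1 l2).2.2 0 0 := by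
  obtain ⟨P, R, e1, e2, e3⟩ := hs6_find ss [] i (Or.inl rfl) hi
  rw [List.nil_append] at e1
  obtain ⟨t1, t2, t3⟩ := hs6_tapes l1 l2 s
  set T1 := (s.tapes l1 l2).1 with hT1
  set T2 := (s.tapes l1 l2).2.1 with hT2
  set T3' := (s.tapes l1 l2).2.2 with hT3
  have l1' : 0 < T1.length := by
    obtain ⟨t0, a, h1, -⟩ := t1
    rw [h1]
    simp
  have l2' : 0 < T2.length := by
    obtain ⟨t0, a, h1, -⟩ := t2
    rw [h1]
    simp
  have l3' : 0 < T3'.length := by
    obtain ⟨t0, a, h1, -⟩ := t3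
    rw [h1]
    simp
  have a1 := hs6_acc_lt (T1.getLastD It.E)
  have a2 := hs6_acc_lt (T2.getLastD It.E)
  have a3 := hs6_acc_lt (T3'.getLastD It.E)
  rw [e3] at hm
  unfold accBit at hm
  obtain ⟨b1, b2, b3⟩ := hs6_testBit_sum (by omega) (by omega) hm
  refine ⟨?_, ?_, ?_⟩
  · exact hs6_tape_sound h e1 e2 t1 b1
  · refine hs6_tape_sound (P := P ++ T1) (t := T2) (R := T3' ++ R) h ?_ (hs6_pre_app t1) t2 ?_
    · rw [e1, List.append_assoc]
    · rw [List.length_append]
      exact b2
  · refine hs6_tape_sound (P := P ++ T1 ++ T2) (t := T3') (R := R) h ?_ (hs6_pre_app t2) t3 ?_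
    · rw [e1, List.append_assoc, List.append_assoc]
    · rw [List.length_append, List.length_append]
      exact b3

end Pool.Agent.H.MP_2e666d_lc.HS
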