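import Pool.Agent.H.MP_2e666d_lc.HS2
import Pool.Agent.H.MP_2e666d_lc.HS5

/-! # Half signatures: a signature gives a half -/

namespace Pool.Agent.H.MP_2e666d_lc.HS

open Pool.Agent.H.MP_2e666d_lc Pool.Agent.H.MP_2e666d_lc.T3

theorem hs7_mask {m l k : ℕ} (h : (2 ^ k).testBit l = true) (_ : m = m) : l = k := by
  rw [Nat.testBit_two_pow] at h
  exact (of_decide_eq_true h).symm

theorem hs7_maskIn {m lo hi l : ℕ} (h : maskIn m lo hi = true) (hl : m.testBit l = true) :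
    lo ≤ vl l ∧ vl l ≤ hi := by
  rw [maskIn, Bool.and_eq_true, List.all_eq_true] at h
  obtain ⟨h1, h2⟩ := h
  rw [Nat.blt_eq] at h1
  have h3 : l < 13 := by
    by_contra h4
    have h5 : m < 2 ^ l := lt_of_lt_of_le h1 (by
      have : 2 ^ 13 ≤ 2 ^ l := Nat.pow_le_pow_right (by norm_num) (by omega)
      simpa using this)
    rw [Nat.testBit_lt_two_pow h5] at hl
    exact absurd hl (by simp)
  have h4 := h2 l (List.mem_range.2 h3)
  rw [hl] at h4
  simp only [Bool.not_true, Bool.false_or, Bool.and_eq_true] at h4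
  exact ⟨Nat.le_of_ble_eq_true h4.1, Nat.le_of_ble_eq_true h4.2⟩

/-- the tapes with the ends `E` have a first item `E` or a proper one -/
theorem hs7_head (ps : List HP) : ∀ (pl ph : ℕ) (sat : Bool),
    ∀ t, (t = (evs ([It.E], [It.E], [It.E]) ps pl ph sat).1 ∨
      t = (evs ([It.E], [It.E], [It.E]) ps pl ph sat).2.1 ∨
      t = (evs ([It.E], [It.E], [It.E]) ps pl ph sat).2.2) →
      t = [It.E] ∨ (∃ m r, t = It.H m :: r) ∨ ∃ o bw bu rw ru m r, t = It.A o bw bu rw ru m :: r := by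
  induction ps with
  | nil =>
    intro pl ph sat t ht
    simp only [evs, or_self] at ht
    exact Or.inl ht
  | cons p ps ih =>
    intro pl ph sat t ht
    have ih' := ih p.gl p.gh (Nat.ble p.gh (if p.o then p.hl else pl))
    simp only [evs] at ht
    cases ho : p.o with
    | true =>
      simp only [ho, if_true] at ht ih'
      rcases ht with rfl | rfl | rfl
      · exact Or.inr (Or.inr ⟨_, _, _, _, _, _, _, rfl⟩)
      · exact Or.inr (Or.inl ⟨_, _, rfl⟩)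
      · exact ih' _ (Or.inr (Or.inl rfl))
    | false =>
      simp only [ho, Bool.false_eq_true, if_false] at ht ih'
      rcases ht with rfl | rfl | rfl
      · exact Or.inr (Or.inr ⟨_, _, _, _, _, _, _, rfl⟩)
      · exact Or.inr (Or.inl ⟨_, _, rfl⟩)
      · exact ih' _ (Or.inl rfl)

theorem hs7_lt {D : List ℕ} {t : List It} {i : ℕ} (h : Sem D t 0 i) (ht : t ≠ [It.E])
    (h2 : t = [It.E] ∨ (∃ m r, t = It.H m :: r) ∨
      ∃ o bw bu rw ru m r, t = It.A o bw bu rw ru m :: r) : i < D.length := by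
  rcases h2 with h2 | ⟨m, r, rfl⟩ | ⟨o, bw, bu, rw', ru, m, r, rfl⟩
  · exact absurd h2 ht
  · rw [Sem] at h
    exact h.2.1
  · rw [Sem] at h
    obtain ⟨_, e, h1, h2, _⟩ := h
    omega

theorem left_sound {l1 l2 ma mb : ℕ} {ps : List HP} {D : List ℕ} (hR : RootF l1 l2 D)
    (ha : 5 ≤ ma) (hb : 5 ≤ mb) (hok : (Sig.L ma mb ps).ok = true)
    (h1 : Sem D ((Sig.L ma mb ps).tapes l1 l2).1 0 0)
    (h2 : Sem D ((Sig.L ma mb ps).tapes l1 l2).2.1 0 0)
    (h3 : Sem D ((Sig.L ma mb ps).tapes l1 l2).2.2 0 0) :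
    ∃ α β p1, α < D.length ∧ β < D.length ∧ p1 < D.length ∧
      (D.getD α 0, D.getD β 0) = (Sig.L ma mb ps).ty ∧ D.getD p1 0 = l1 ∧
      LeftT ps.length (D.map vl) α β p1 := by
  simp only [Sig.tapes] at h1 h2 h3
  rw [Sem] at h1 h3
  obtain ⟨-, hD0, hm0, h1⟩ := h1
  obtain ⟨-, -, -, h3⟩ := h3
  simp only [Sig.ok, Bool.and_eq_true] at hok
  obtain ⟨⟨ho1, ho2⟩, ho3⟩ := hok
  have ho2 := Nat.eq_of_beq_eq_true ho2
  have ho3 := Nat.le_of_ble_eq_true ho3
  have h03 : D.getD 0 0 = 3 := hs7_mask (m := 0) (k := 3) (by simpa using hm0) rfl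
  obtain ⟨x, y, z, hx, hy, hz, hzm, hpar, hmin, hC⟩ := sig_sound (s := 0) (r := 0) (q := 0)
    (m0 := 8) ho1 (by rw [h03]; decide) (by rw [h03]; decide) (fun _ => le_rfl) hm0 h1 h2 h3
  rw [ho2] at hzm
  have hz' := hs7_mask (m := 0) hzm rfl
  have hx1 := hmin 0 0 0 le_rfl le_rfl le_rfl
  have hx : Sem D [It.F l1] 0 (x + 1) := hx
  have hy : Sem D [It.X ma] 0 y := hy
  simp only [Sem] at hx hy
  obtain ⟨p1, hp1, hp1', hp1''⟩ : ∃ j, x + 1 ≤ j + 1 ∧ j < D.length ∧ D.getD j 0 = l1 := by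
    rcases hx with hx | hx
    · omega
    · exact hx
  obtain ⟨hyl, hy'⟩ : y < D.length ∧ D.getD y 0 = ma := by
    rcases hy with hy | hy
    · omega
    · exact hy
  have hzl : z < D.length := by
    by_contra h
    rw [List.getD_eq_default _ _ (by omega)] at hz'
    omega
  have hf : fpar ps false false false = decide (x % 2 = 1) := by
    rw [hpar]
    simp
  rcases Nat.mod_two_eq_zero_or_one x with hx2 | hx2
  · refine ⟨z, y, p1, hzl, hyl, hp1', ?_, hp1'', x, by omega, by omega, ?_⟩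
    · rw [hz', hy', Sig.ty, hf, hx2]
      simp
    · intro k hk
      rw [if_pos hx2] at hk
      exact hC k hk
  · refine ⟨y, z, p1, hyl, hzl, hp1', ?_, hp1'', x, by omega, by omega, ?_⟩
    · rw [hz', hy', Sig.ty, hf, hx2]
      simp
    · intro k hk
      rw [if_neg (by omega)] at hk
      exact hC k hk

/-- all the tapes have reached the end -/
theorem hs7_final {D : List ℕ} {x y z : ℕ} (hx : Sem D [It.E] 0 (x + 1)) (hy : Sem D [It.E] 0 y)
    (hz : Sem D [It.E] 0 (z + 1)) : Comp (D.map vl) 0 x y z := by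
  rw [Sem] at hx
  rw [Sem] at hy
  rw [Sem] at hz
  obtain ⟨-, hx⟩ := hx
  obtain ⟨-, hy⟩ := hy
  obtain ⟨-, hz⟩ := hz
  have h1 : y = x + 1 := by omega
  have h2 : z = x := by omega
  rw [h1, h2]
  exact Comp.final (by simpa using hx.symm)

theorem right_sound {l1 l2 ka kb lo hi m : ℕ} {d : Bool} {ps : List HP} {D : List ℕ}
    (hR : RootF l1 l2 D) (ha : 5 ≤ ka) (hb : 5 ≤ kb) (hok : (Sig.R ka kb d lo hi m ps).ok = true)
    (h1 : Sem D ((Sig.R ka kb d lo hi m ps).tapes l1 l2).1 0 0)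
    (h2 : Sem D ((Sig.R ka kb d lo hi m ps).tapes l1 l2).2.1 0 0)
    (h3 : Sem D ((Sig.R ka kb d lo hi m ps).tapes l1 l2).2.2 0 0) :
    ∃ α β p2, α < D.length ∧ β < D.length ∧ p2 < D.length ∧
      D.getD α 0 = ka ∧ D.getD β 0 = kb ∧ D.getD p2 0 = l2 ∧
      RightT ps.length (D.map vl) α β p2 := by
  simp only [Sig.tapes] at h1 h2 h3
  rw [Sem] at h1
  rw [Sem] at h2
  rw [Sem] at h3
  obtain ⟨-, a, -, hal, ha', h1⟩ := h1
  obtain ⟨-, b, -, hbl, hb', h2⟩ := h2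
  obtain ⟨-, e, -, hel, hep, hem, hj, h3⟩ := h3
  obtain ⟨j, -, hj1, hj2⟩ : ∃ j, 0 ≤ j ∧ j ≤ e ∧ D.getD j 0 = l2 := by
    rcases hj with hj | hj
    · simp at hj
    · exact hj
  simp only [Sig.ok, Bool.and_eq_true, decide_eq_true_eq] at hok
  obtain ⟨⟨⟨⟨ho1, ho2⟩, ho3⟩, ho4⟩, ho5⟩ := hok
  have he1 : e + 1 < D.length := hs7_lt h3 ho5 (hs7_head ps _ _ _ _ (Or.inr (Or.inr rfl)))
  obtain ⟨hlo, hhi⟩ := hs7_maskIn ho2 hem
  have hva : vl (D.getD a 0) = 2 := by
    rw [ha']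
    cases d
    · simpa using ho3
    · simpa using ho4
  obtain ⟨x, y, z, hx, hy, hz, -, -, -, hC⟩ := sig_sound (s := a) (r := b + 1) (q := e)
    (m0 := m) ho1 hlo hhi (fun hs => by
      have := Nat.le_of_ble_eq_true hs
      omega) hem h1 h2 h3
  have hK := hC 0 (hs7_final hx hy hz)
  rw [Nat.zero_add] at hK
  cases d with
  | false =>
    simp only [Bool.false_eq_true, if_false] at ha' hb' hep
    refine ⟨a, b, j, hal, hbl, by omega, ha', hb', hj2, e, hj1, by simpa using he1, ?_⟩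
    rw [if_pos (by omega)]
    exact hK
  | true =>
    simp only [if_true] at ha' hb' hep
    refine ⟨b, a, j, hbl, hal, by omega, hb', ha', hj2, e, hj1, by simpa using he1, ?_⟩
    rw [if_neg (by omega)]
    exact hK

theorem full_sound {l1 l2 : ℕ} {ps : List HP} {D : List ℕ} (hok : (Sig.F ps).ok = true)
    (h1 : Sem D ((Sig.F ps).tapes l1 l2).1 0 0) (h2 : Sem D ((Sig.F ps).tapes l1 l2).2.1 0 0)
    (h3 : Sem D ((Sig.F ps).tapes l1 l2).2.2 0 0) : Comp (D.map vl) ps.length 0 0 0 := by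
  simp only [Sig.tapes] at h1 h2 h3
  rw [Sem] at h1 h3
  obtain ⟨-, hD0, hm0, h1⟩ := h1
  obtain ⟨-, -, -, h3⟩ := h3
  simp only [Sig.ok] at hok
  have h03 : D.getD 0 0 = 3 := hs7_mask (m := 0) (k := 3) (by simpa using hm0) rfl
  obtain ⟨x, y, z, hx, hy, hz, -, -, -, hC⟩ := sig_sound (s := 0) (r := 0) (q := 0)
    (m0 := 8) hok (by rw [h03]; decide) (by rw [h03]; decide) (fun _ => le_rfl) hm0 h1 h2 h3
  have hK := hC 0 (hs7_final hx hy hz)
  rwa [Nat.zero_add] at hK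

end Pool.Agent.H.MP_2e666d_lc.HS
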