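import Pool.Agent.H.MP_2e666d_lc.HS6
import Pool.Agent.H.MP_2e666d_lc.HS7
import Pool.Agent.H.MP_2e666d_lc.HC4

/-! # Half signatures: a certificate gives the chains of a class -/

namespace Pool.Agent.H.MP_2e666d_lc.HS

open Pool.Agent.H.MP_2e666d_lc Pool.Agent.H.MP_2e666d_lc.T3

/-- the marks of a signature are marks -/
def Sig.marks : Sig → Bool
  | Sig.L ma mb _ => Nat.ble 5 ma && Nat.ble 5 mb
  | Sig.R ka kb _ _ _ _ _ => Nat.ble 5 ka && Nat.ble 5 kb
  | Sig.F _ => true

theorem nthA_mem {l1 l2 : ℕ} {ss : List Sig} {n i : ℕ} {s : Sig} {m : ℕ}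
    (h : nthA (accs l1 l2 n ss) i = some (s, m)) : s ∈ ss := by
  induction ss generalizing n i with
  | nil => simp [accs, nthA] at h
  | cons t ss ih =>
    rw [accs] at h
    cases i with
    | zero =>
      simp only [nthA, Option.some.injEq, Prod.mk.injEq] at h
      rw [h.1]
      exact List.mem_cons_self
    | succ i =>
      simp only [nthA] at h
      exact List.mem_cons_of_mem _ (ih h)

/-- the final condition gives a chain -/
theorem fin_sound {l1 l2 : ℕ} {root : List Cell} {ss : List Sig} {D : List ℕ} {S T : ℕ}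
    (hok : (ss.all fun s => s.ok && s.marks) = true) (hroot : chkRoot l1 l2 root = true)
    (hD : Inst false root D) (hg : Good D (items l1 l2 ss) D.length S)
    (hf : finC (accs l1 l2 0 ss) S T = true) : Comp (D.map vl) 40 0 0 0 := by
  have hR : RootF l1 l2 D := root_facts hroot hD
  have hok' : ∀ s ∈ ss, s.ok = true ∧ s.marks = true := by
    intro s hs
    have := (List.all_eq_true.1 hok) s hs
    rwa [Bool.and_eq_true] at this
  unfold finC at hf
  split at hf
  · simp at hf
  · next a ma hi =>
    rw [Bool.and_eq_true] at hf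
    obtain ⟨hm, hf⟩ := hf
    obtain ⟨s1, s2, s3⟩ := acc_sound hg hi hm
    obtain ⟨hoa, hma⟩ := hok' a (nthA_mem hi)
    split at hf
    · next ps =>
      exact (full_sound hoa s1 s2 s3).mono (Nat.le_of_ble_eq_true hf)
    · simp at hf
    · next m1 m2 ps =>
      split at hf
      · next ka kb d lo hi' m ps' mb hj =>
        rw [Bool.and_eq_true, Bool.and_eq_true, decide_eq_true_eq] at hf
        obtain ⟨⟨hm', hty⟩, hlen⟩ := hf
        obtain ⟨t1, t2, t3⟩ := acc_sound hg hj hm'
        obtain ⟨hob, hmb⟩ := hok' _ (nthA_mem hj)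
        simp only [Sig.marks, Bool.and_eq_true] at hma hmb
        have a1 := Nat.le_of_ble_eq_true hma.1
        have a2 := Nat.le_of_ble_eq_true hma.2
        have b1 := Nat.le_of_ble_eq_true hmb.1
        have b2 := Nat.le_of_ble_eq_true hmb.2
        obtain ⟨α, β, p1, e1, e2, e3, e4, e5, hL⟩ := left_sound hR a1 a2 hoa s1 s2 s3
        obtain ⟨α', β', p2, f1, f2, f3, f4, f5, f6, hRt⟩ := right_sound hR b1 b2 hob t1 t2 t3
        rw [hty, Prod.mk.injEq] at e4
        obtain ⟨e4, e4'⟩ := e4
        have hα : α = α' := hR.uniq ka α α' b1 e1 f1 e4 f4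
        have hβ : β = β' := hR.uniq kb β β' b2 e2 f2 e4' f5
        subst hα hβ
        obtain ⟨q1, q2, g1, g2, g3, g4, g5⟩ := hR.cut
        have hp1 : p1 = q1 := hR.uniq l1 p1 q1 hR.m1 e3 (by omega) e5 g3
        have hp2 : p2 = q2 := hR.uniq l2 p2 q2 hR.m2 f3 g2 f6 g4
        subst hp1 hp2
        have v1 : (D.map vl).getD p1 0 = 2 := by
          rw [getD_map_vl, e5, vl, if_pos hR.m1]
        have v2 : (D.map vl).getD p2 0 = 2 := by
          rw [getD_map_vl, f6, vl, if_pos hR.m2]
        have key := cut_join hL hRt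
          (by rw [getD_map_vl, e4, vl, if_pos b1]) (by rw [getD_map_vl, e4', vl, if_pos b2])
          (by simpa using e1) (by simpa using e2) ?_ ?_ ?_
        · exact key.mono (Nat.le_of_ble_eq_true hlen)
        · rcases Nat.mod_two_eq_zero_or_one p1 with h | h
          · exact ⟨p1, le_rfl, by omega, h, by omega⟩
          · exact ⟨p2, by omega, le_rfl, by omega, by omega⟩
        · rcases Nat.mod_two_eq_zero_or_one p1 with h | h
          · exact ⟨p2, by omega, le_rfl, by omega, by omega⟩
          · exact ⟨p1, le_rfl, by omega, h, by omega⟩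
        · intro i i1 i2
          rw [getD_map_vl]
          exact hR.two i i1 (by simpa using i2)
      · simp at hf

/-- **Soundness of a class certificate** -/
theorem hs_class {l1 l2 : ℕ} {root : List Cell} {ss : List Sig} {its : List It}
    {Ms : List (List (ℕ × ℕ))} {tab : List RSt} {B : BT}
    (h_its : items l1 l2 ss = its) (h_ok : (ss.all fun s => s.ok && s.marks) = true)
    (h_ms : chkMs its 0 Ms = true) (h_tab : chkR tab = true)
    (h_root : chkRoot l1 l2 root = true)
    (h_start : (Nat.beq (B.get 0 % 256) 0 && chkStart true its (mkS 128 (B.get 0 / 256)) &&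
      !(nthR tab 0).1 && decide ((nthR tab 0).2.1 = root)) = true)
    (h_cert : chkT' Ms tab (finC (accs l1 l2 0 ss)) B B = true) :
    ∀ D, Inst false root D → Comp (D.map vl) 40 0 0 0 := by
  intro D hD
  rw [Bool.and_eq_true, Bool.and_eq_true, Bool.and_eq_true, decide_eq_true_eq] at h_start
  obtain ⟨⟨⟨s1, s2⟩, s3⟩, s4⟩ := h_start
  subst h_its
  obtain ⟨S, T, hg, hf⟩ := cert_sound' h_ms h_tab h_cert (by simpa using s3) s4
    (Nat.eq_of_beq_eq_true s1) s2 hD
  exact fin_sound h_ok h_root hD hg hf

end Pool.Agent.H.MP_2e666d_lc.HS
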