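import Pool.Agent.H.MP_2e666d_lc.HSDef
import Pool.Agent.H.MP_2e666d_lc.CoverCat
import Pool.Agent.H.MP_2e666d_lc.FSClass

/-! # Half signatures: the decorated sub-roots of the classes with one switch -/

namespace Pool.Agent.H.MP_2e666d_lc.HS

open Pool.Agent.H.MP_2e666d_lc Pool.Agent.H.MP_2e666d_lc.T3

/-- sub-roots of `clsAB p q`: marks 5, 6 = the switch, 7 = previous, 8 = next letter `2` -/
def rAB (p q : ℕ) (h0 h3 : Bool) : List Cell :=
  [Cell.L 3, Cell.L 3, Cell.L p] ++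
    (if h0 then [Cell.S true 2 1, Cell.L 7, Cell.S true 1 1] else [Cell.S true 1 1]) ++
    [Cell.L 5, Cell.S false 1 1, Cell.L 6] ++
    (if h3 then [Cell.S true 1 1, Cell.L 8, Cell.S false 1 2] else [Cell.S false 1 1]) ++
    [Cell.L q, Cell.L 4, Cell.L 4]

def rBA (p q : ℕ) (h0 h3 : Bool) : List Cell :=
  [Cell.L 3, Cell.L 3, Cell.L p] ++
    (if h0 then [Cell.S false 1 2, Cell.L 7, Cell.S true 1 1] else [Cell.S false 1 1]) ++
    [Cell.L 5, Cell.S false 1 1, Cell.L 6] ++
    (if h3 then [Cell.S true 1 1, Cell.L 8, Cell.S true 2 1] else [Cell.S true 1 1]) ++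
    [Cell.L q, Cell.L 4, Cell.L 4]

theorem hs9_vl {p : ℕ} (hp : p ≤ 4) : vl p = p := by
  unfold vl
  rw [if_neg (by omega)]

/-- from the decorated root to the root -/
theorem hs9_lift {K : ℕ} {r cs : List Cell} (hr : r.map vlc = cs) (hs : Cov.sm4 r = true)
    (h : ∀ D, Inst false r D → Comp (D.map vl) K 0 0 0) : T3.Good K cs := by
  intro W hW
  rw [← hr] at hW
  obtain ⟨D, hD, rfl⟩ := Cov.lift_vlc hs hW
  exact LChain_of_Comp (h D hD)

theorem goodAB {K p q : ℕ} (hp : p ≤ 4) (hq : q ≤ 4)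
    (h : ∀ h0 h3 : Bool, ∀ D, Inst false (rAB p q h0 h3) D → Comp (D.map vl) K 0 0 0) :
    T3.Good K (clsAB p q) := by
  have key : ∀ h0 h3 : Bool, T3.Good K ((rAB p q h0 h3).map vlc) := fun h0 h3 =>
    hs9_lift rfl (by cases h0 <;> cases h3 <;> rfl) (h h0 h3)
  have k00 := key false false
  have k01 := key false true
  have k10 := key true false
  have k11 := key true true
  simp only [rAB, List.map_append, List.map_cons, List.map_nil, vlc, hs9_vl hp, hs9_vl hq,
    Bool.false_eq_true, if_false, if_true, List.cons_append, List.nil_append,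
    hs9_vl (show 3 ≤ 4 by decide), hs9_vl (le_refl 4), show vl 5 = 2 from rfl,
    show vl 6 = 2 from rfl, show vl 7 = 2 from rfl, show vl 8 = 2 from rfl] at k00 k01 k10 k11
  refine Good.node (ty := 5) (p := 3) (l :=
    [[Cell.L 3, Cell.L 3, Cell.L p, Cell.S true 1 1, Cell.L 2, Cell.S false 1 1, Cell.L 2,
      Cell.S false 1 2, Cell.L q, Cell.L 4, Cell.L 4],
     [Cell.L 3, Cell.L 3, Cell.L p, Cell.S true 2 1, Cell.L 2, Cell.S true 1 1, Cell.L 2,
      Cell.S false 1 1, Cell.L 2, Cell.S false 1 2, Cell.L q, Cell.L 4, Cell.L 4]]) rfl ?_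
  intro cs hcs
  rw [List.mem_cons, List.mem_singleton] at hcs
  rcases hcs with rfl | rfl
  · refine Good.node (ty := 4) (p := 7) (l :=
      [[Cell.L 3, Cell.L 3, Cell.L p, Cell.S true 1 1, Cell.L 2, Cell.S false 1 1, Cell.L 2,
        Cell.S false 1 1, Cell.L q, Cell.L 4, Cell.L 4],
       [Cell.L 3, Cell.L 3, Cell.L p, Cell.S true 1 1, Cell.L 2, Cell.S false 1 1, Cell.L 2,
        Cell.S true 1 1, Cell.L 2, Cell.S false 1 2, Cell.L q, Cell.L 4, Cell.L 4]]) rfl ?_
    intro cs hcs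
    rw [List.mem_cons, List.mem_singleton] at hcs
    rcases hcs with rfl | rfl
    · exact k00
    · exact k01
  · refine Good.node (ty := 4) (p := 9) (l :=
      [[Cell.L 3, Cell.L 3, Cell.L p, Cell.S true 2 1, Cell.L 2, Cell.S true 1 1, Cell.L 2,
        Cell.S false 1 1, Cell.L 2, Cell.S false 1 1, Cell.L q, Cell.L 4, Cell.L 4],
       [Cell.L 3, Cell.L 3, Cell.L p, Cell.S true 2 1, Cell.L 2, Cell.S true 1 1, Cell.L 2,
        Cell.S false 1 1, Cell.L 2, Cell.S true 1 1, Cell.L 2, Cell.S false 1 2, Cell.L q,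
        Cell.L 4, Cell.L 4]]) rfl ?_
    intro cs hcs
    rw [List.mem_cons, List.mem_singleton] at hcs
    rcases hcs with rfl | rfl
    · exact k10
    · exact k11

theorem goodBA {K p q : ℕ} (hp : p ≤ 4) (hq : q ≤ 4)
    (h : ∀ h0 h3 : Bool, ∀ D, Inst false (rBA p q h0 h3) D → Comp (D.map vl) K 0 0 0) :
    T3.Good K (clsBA p q) := by
  have key : ∀ h0 h3 : Bool, T3.Good K ((rBA p q h0 h3).map vlc) := fun h0 h3 =>
    hs9_lift rfl (by cases h0 <;> cases h3 <;> rfl) (h h0 h3)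
  have k00 := key false false
  have k01 := key false true
  have k10 := key true false
  have k11 := key true true
  simp only [rBA, List.map_append, List.map_cons, List.map_nil, vlc, hs9_vl hp, hs9_vl hq,
    Bool.false_eq_true, if_false, if_true, List.cons_append, List.nil_append,
    hs9_vl (show 3 ≤ 4 by decide), hs9_vl (le_refl 4), show vl 5 = 2 from rfl,
    show vl 6 = 2 from rfl, show vl 7 = 2 from rfl, show vl 8 = 2 from rfl] at k00 k01 k10 k11
  refine Good.node (ty := 3) (p := 3) (l :=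
    [[Cell.L 3, Cell.L 3, Cell.L p, Cell.S false 1 1, Cell.L 2, Cell.S false 1 1, Cell.L 2,
      Cell.S true 2 1, Cell.L q, Cell.L 4, Cell.L 4],
     [Cell.L 3, Cell.L 3, Cell.L p, Cell.S false 1 2, Cell.L 2, Cell.S true 1 1, Cell.L 2,
      Cell.S false 1 1, Cell.L 2, Cell.S true 2 1, Cell.L q, Cell.L 4, Cell.L 4]]) rfl ?_
  intro cs hcs
  rw [List.mem_cons, List.mem_singleton] at hcs
  rcases hcs with rfl | rfl
  · refine Good.node (ty := 4) (p := 7) (l :=
      [[Cell.L 3, Cell.L 3, Cell.L p, Cell.S false 1 1, Cell.L 2, Cell.S false 1 1, Cell.L 2,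
        Cell.S true 1 1, Cell.L q, Cell.L 4, Cell.L 4],
       [Cell.L 3, Cell.L 3, Cell.L p, Cell.S false 1 1, Cell.L 2, Cell.S false 1 1, Cell.L 2,
        Cell.S true 1 1, Cell.L 2, Cell.S true 2 1, Cell.L q, Cell.L 4, Cell.L 4]]) rfl ?_
    intro cs hcs
    rw [List.mem_cons, List.mem_singleton] at hcs
    rcases hcs with rfl | rfl
    · exact k00
    · exact k01
  · refine Good.node (ty := 4) (p := 9) (l :=
      [[Cell.L 3, Cell.L 3, Cell.L p, Cell.S false 1 2, Cell.L 2, Cell.S true 1 1, Cell.L 2,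
        Cell.S false 1 1, Cell.L 2, Cell.S true 1 1, Cell.L q, Cell.L 4, Cell.L 4],
       [Cell.L 3, Cell.L 3, Cell.L p, Cell.S false 1 2, Cell.L 2, Cell.S true 1 1, Cell.L 2,
        Cell.S false 1 1, Cell.L 2, Cell.S true 1 1, Cell.L 2, Cell.S true 2 1, Cell.L q,
        Cell.L 4, Cell.L 4]]) rfl ?_
    intro cs hcs
    rw [List.mem_cons, List.mem_singleton] at hcs
    rcases hcs with rfl | rfl
    · exact k10
    · exact k11

end Pool.Agent.H.MP_2e666d_lc.HS
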