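import Pool.Agent.H.MP_2e666d_lc.CutJoin
import Pool.Agent.H.MP_2e666d_lc.Cover

/-! # Half signatures: definitions

A decorated word `D` has the letters `0..4` and the marks `5..12` (value `2`, see `T3.vl`).
Every tape of a (half) chain is a list of items which read the word `D` from left to right;
all items of all tapes of all signatures form one list `its`, item number `n` has the slots
(bits) `8 n, .., 8 n + 7`, a set of slots is one natural number. -/

set_option linter.unusedVariables false

namespace Pool.Agent.H.MP_2e666d_lc.HS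

open Pool.Agent.H.MP_2e666d_lc Pool.Agent.H.MP_2e666d_lc.T3

/-- items of a tape: `H m` one letter from the mask `m`; `A` the piece of a phase (the first letter
is at an odd offset), `o` = its last letter has odd offset, `bw`, `bu` bounds for the inner letters
with odd, even offset, `rw`, `ru`: the bound must be attained by an inner letter, `m` mask of the
last letter; `W k`: everything up to the mark `k` (included); `Z k d m`: everything up to a letter
in `m` at a position of parity `d` (`true` = odd), not before the mark `k`.
Ends: `F k`: the last letter read is not after the mark `k`; `X k`: the next letter is the mark `k`;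
`T`: no condition; `E`: everything has been read. -/
inductive It where
  | H (m : ℕ)
  | A (o : Bool) (bw bu : ℕ) (rw ru : Bool) (m : ℕ)
  | W (k : ℕ)
  | Z (k : ℕ) (d : Bool) (m : ℕ)
  | F (k : ℕ)
  | X (k : ℕ)
  | T
  | E
  deriving DecidableEq

/-- the items which end a tape -/
def It.term : It → Bool
  | It.F _ => true
  | It.X _ => true
  | It.T => true
  | It.E => true
  | _ => false

/-- the list of items can be performed, if we are in the slot `x` of its first item and the next
letter has the number `i` -/
def Sem (D : List ℕ) : List It → ℕ → ℕ → Prop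
  | [], _, _ => False
  | It.H m :: r, x, i =>
      x = 0 ∧ i < D.length ∧ m.testBit (D.getD i 0) = true ∧ Sem D r 0 (i + 1)
  | It.A o bw bu rw ru m :: r, x, i =>
      x < 8 ∧ ∃ e, i ≤ e ∧ e < D.length ∧ (x + (e - i)) % 2 = (if o then 0 else 1) ∧
        m.testBit (D.getD e 0) = true ∧
        (∀ k, i ≤ k → k < e → (x + (k - i)) % 2 = 0 → vl (D.getD k 0) ≤ bw) ∧
        (∀ k, i ≤ k → k < e → (x + (k - i)) % 2 = 1 → vl (D.getD k 0) ≤ bu) ∧
        (rw = true → x.testBit 1 = true ∨
          ∃ k, i ≤ k ∧ k < e ∧ (x + (k - i)) % 2 = 0 ∧ bw ≤ vl (D.getD k 0)) ∧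
        (ru = true → x.testBit 2 = true ∨
          ∃ k, i ≤ k ∧ k < e ∧ (x + (k - i)) % 2 = 1 ∧ bu ≤ vl (D.getD k 0)) ∧
        Sem D r 0 (e + 1)
  | It.W k :: r, x, i =>
      x = 0 ∧ ∃ e, i ≤ e ∧ e < D.length ∧ D.getD e 0 = k ∧ Sem D r 0 (e + 1)
  | It.Z k d m :: r, x, i =>
      x < 4 ∧ ∃ e, i ≤ e ∧ e < D.length ∧ (x + (e - i)) % 2 = (if d then 1 else 0) ∧
        m.testBit (D.getD e 0) = true ∧ (x.testBit 1 = true ∨ ∃ j, i ≤ j ∧ j ≤ e ∧ D.getD j 0 = k) ∧
        Sem D r 0 (e + 1)
  | It.F k :: _, x, i => 1 ≤ x ∨ ∃ j, i ≤ j + 1 ∧ j < D.length ∧ D.getD j 0 = k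
  | It.X k :: _, x, i => 1 ≤ x ∨ (i < D.length ∧ D.getD i 0 = k)
  | It.T :: _, _, _ => True
  | It.E :: _, x, i => x = 0 ∧ i = D.length

/-- the slot in which an item is entered after the letter `l` -/
def It.entry : It → ℕ → ℕ
  | It.F k, l => if l = k then 1 else 0
  | _, _ => 0

/-- the slots after reading the letter `l` in the slot `x < 8` of the item `a` (the next item is
`b`); `8 + y` is the slot `y` of the next item -/
def tr (a b : It) (l x : ℕ) : List ℕ :=
  match a with
  | It.H m => if x = 0 ∧ m.testBit l = true then [8 + b.entry l] else []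
  | It.A o bw bu rw ru m =>
      (if x % 2 = 0 then
        (if vl l ≤ bw then [if rw = true ∧ bw ≤ vl l ∧ x.testBit 1 = false then x + 3 else x + 1]
          else [])
      else
        (if vl l ≤ bu then [if ru = true ∧ bu ≤ vl l ∧ x.testBit 2 = false then x + 3 else x - 1]
          else [])) ++
      (if x % 2 = (if o then 0 else 1) ∧ (rw = true → x.testBit 1 = true) ∧
          (ru = true → x.testBit 2 = true) ∧ m.testBit l = true then [8 + b.entry l] else [])
  | It.W k => if x = 0 then (if l = k then [8 + b.entry l] else [0]) else []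
  | It.Z k d m =>
      if x < 4 then
        [(if x < 2 ∧ l = k then 2 else 0) + (if x % 2 = 0 then x + 1 else x - 1)] ++
        (if x % 2 = (if d then 1 else 0) ∧ m.testBit l = true ∧ (2 ≤ x ∨ l = k) then
          [8 + b.entry l] else [])
      else []
  | It.F k => if x = 0 then [if l = k then 1 else 0] else if x = 1 then [1] else []
  | It.X k => if x = 0 then (if l = k then [1] else []) else if x = 1 then [1] else []
  | It.T => if x = 0 then [0] else []
  | It.E => []

/-- every bit of `y` (slots of the item `a`) may be shifted by `k - 8` -/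
def chkB (a b : It) (l k y : ℕ) : Bool :=
  (List.range 8).all fun x =>
    !y.testBit x || (Nat.ble 8 (x + k) && (tr a b l x).contains (x + k - 8))

/-- the mask `M` is legal for the letter `l` and the shift `k - 8` -/
def chkM (l k : ℕ) : List It → ℕ → Bool
  | [], M => Nat.beq M 0
  | a :: r, M => (Nat.beq (M % 256) 0 || chkB a (r.headD It.E) l k (M % 256)) && chkM l k r (M / 256)

/-- reading a letter with the masks `ms` (shift + 8, mask) -/
def stepL : List (ℕ × ℕ) → ℕ → ℕ
  | [], _ => 0
  | p :: ms, S => (((S &&& p.2) <<< p.1) >>> 8) ||| stepL ms S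

/-- all masks are legal; `Ms` is the list of the masks of the letters `l, l + 1, ..` -/
def chkMs (its : List It) : ℕ → List (List (ℕ × ℕ)) → Bool
  | _, [] => true
  | l, ms :: Ms => (ms.all fun p => chkM l p.1 its p.2) && chkMs its (l + 1) Ms

/-- element of a list of lists -/
def nthM : List (List (ℕ × ℕ)) → ℕ → List (ℕ × ℕ)
  | [], _ => []
  | m :: _, 0 => m
  | _ :: Ms, n + 1 => nthM Ms n

/-- first item of the tape of item number `n` -/
def tb (its : List It) : ℕ → ℕ
  | 0 => 0
  | n + 1 => if (its.getD n It.E).term = true then n + 1 else tb its n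

/-- the invariant of a set of slots after `m` letters -/
def Good (D : List ℕ) (its : List It) (m S : ℕ) : Prop :=
  ∀ y, S.testBit y = true → Sem D (its.drop (y / 8)) (y % 8) m →
    Sem D (its.drop (tb its (y / 8))) 0 0

/-- a set of starting slots; `t`: the next item is the first one of a tape -/
def chkStart : Bool → List It → ℕ → Bool
  | _, [], M => Nat.beq M 0
  | t, a :: r, M =>
      (Nat.beq (M % 256) 0 || (t && Nat.beq (M % 256) 1)) && chkStart a.term r (M / 256)

/-! ### the root -/

/-- states of the root: parity, rest, transitions (letter, number of the new state) -/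
abbrev RSt := Bool × List Cell × List (ℕ × ℕ)

/-- element of a list of states -/
def nthR : List RSt → ℕ → RSt
  | [], _ => (false, [], [])
  | m :: _, 0 => m
  | _ :: Ms, n + 1 => nthR Ms n

/-- the table of the states is legal -/
def chkR (tab : List RSt) : Bool :=
  tab.all fun s =>
    decide (cvTr s.1 s.2.1 = s.2.2.map fun p => (p.1, (nthR tab p.2).2.1)) &&
      s.2.2.all fun p => Nat.blt p.2 tab.length && ((nthR tab p.2).1 == !s.1)

/-! ### certificates -/

/-- nodes of a certificate: `N = 256 S + state`, `T` = packed numbers of the targets -/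
inductive BT where
  | leaf (N T : ℕ)
  | node (a b : BT)

/-- the number `N` of the node number `n` -/
def BT.get : BT → ℕ → ℕ
  | BT.leaf N _, _ => N
  | BT.node a b, n => bif Nat.beq (n % 2) 0 then a.get (n / 2) else b.get (n / 2)

/-- the transitions of a node -/
def chkE (Ms : List (List (ℕ × ℕ))) (B : BT) (S : ℕ) : List (ℕ × ℕ) → ℕ → Bool
  | [], _ => true
  | (a, s) :: l, T =>
      Nat.beq (B.get (T % 65536) % 256) s &&
        Nat.beq ((B.get (T % 65536) / 256) &&& stepL (nthM Ms a) S) (B.get (T % 65536) / 256) &&
        chkE Ms B S l (T / 65536)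

/-- one node; `fin S T` is the final condition -/
def chkN (Ms : List (List (ℕ × ℕ))) (tab : List RSt) (fin : ℕ → ℕ → Bool) (B : BT) (N T : ℕ) :
    Bool :=
  Nat.blt (N % 256) tab.length &&
    (bif cvNull (nthR tab (N % 256)).2.1 then fin (N / 256) T else true) &&
    chkE Ms B (N / 256) (nthR tab (N % 256)).2.2 T

/-- all nodes -/
def chkT (Ms : List (List (ℕ × ℕ))) (tab : List RSt) (fin : ℕ → ℕ → Bool) (B : BT) : BT → Bool
  | BT.leaf N T => chkN Ms tab fin B N T
  | BT.node a b => chkT Ms tab fin B a && chkT Ms tab fin B b

/-! ### signatures -/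

/-- a phase: parity of the number of its letters, bounds `hl, hh` and mask `hm` of the next letter
of the host, bounds `gl, gh` and mask `gm` of the last letter of the phase -/
structure HP where
  o : Bool
  hl : ℕ
  hh : ℕ
  hm : ℕ
  gl : ℕ
  gh : ℕ
  gm : ℕ
  deriving DecidableEq

/-- the items of the active, host and passive tape of the phases `ps`, if the last letter of the
passive tape has a value in `[pl, ph]`, and (if `sat`) this value is at most the value of the last
letter of the active tape -/
def evs (base : List It × List It × List It) :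
    List HP → ℕ → ℕ → Bool → List It × List It × List It
  | [], _, _, _ => base
  | p :: ps, pl, ph, sat =>
      let ev := It.A p.o p.hl pl (!(p.o && Nat.ble p.hh p.gl)) (!(sat || (!p.o && Nat.ble ph p.gl)))
        p.gm
      let r := evs base ps p.gl p.gh (Nat.ble p.gh (if p.o then p.hl else pl))
      if p.o then (ev :: r.2.2, It.H p.hm :: r.1, r.2.1)
      else (ev :: r.2.2, It.H p.hm :: r.2.1, r.1)

/-- all letters of the mask have a value in `[lo, hi]` -/
def maskIn (m lo hi : ℕ) : Bool :=
  Nat.blt m 8192 && (List.range 13).all fun l => !m.testBit l || (Nat.ble lo (vl l) && Nat.ble (vl l) hi)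

/-- legal phases -/
def okS : List HP → ℕ → ℕ → Bool → Bool
  | [], _, _, _ => true
  | p :: ps, pl, ph, sat =>
      maskIn p.hm p.hl p.hh && maskIn p.gm p.gl p.gh &&
        ((p.o && Nat.ble p.hh p.gl) || Nat.beq p.hl p.hh) &&
        ((sat || (!p.o && Nat.ble ph p.gl)) || Nat.beq pl ph) &&
        okS ps p.gl p.gh (Nat.ble p.gh (if p.o then p.hl else pl))

/-- mask of the last letter of the passive tape at the end -/
def lastM : List HP → ℕ → ℕ
  | [], m => m
  | p :: ps, _ => lastM ps p.gm

/-- parity of the position of the last letter of the active tape at the end (from the parities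
of `s`, `r`, `q`, `true` = odd) -/
def fpar : List HP → Bool → Bool → Bool → Bool
  | [], s, _, _ => s
  | p :: ps, s, r, q => if p.o then fpar ps r (!q) (!s) else fpar ps q (!r) s

/-- lower bound of the position of the last letter of the active tape at the end -/
def fmin : List HP → ℕ → ℕ → ℕ → ℕ
  | [], s, _, _ => s
  | p :: ps, s, r, q => if p.o then fmin ps r (q + 1) (s + 1) else fmin ps q (r + 1) (s + 2)

/-- signatures: `L ma mb ps` left half, host stops at the mark `ma`, the last letter of the passive
tape is the mark `mb`; `R ka kb d lo hi m ps` right half, `ka`, `kb` = marks `α`, `β`, the landing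
`e` has parity `d` and a letter of the mask `m`, values `[lo, hi]`; `F ps` full chain -/
inductive Sig where
  | L (ma mb : ℕ) (ps : List HP)
  | R (ka kb : ℕ) (d : Bool) (lo hi m : ℕ) (ps : List HP)
  | F (ps : List HP)
  deriving DecidableEq

/-- the three tapes of a signature; the cut phase contains the marks `l1`, `l2` -/
def Sig.tapes (l1 l2 : ℕ) : Sig → List It × List It × List It
  | Sig.L ma _ ps =>
      let r := evs ([It.F l1], [It.X ma], [It.T]) ps 3 3 true
      (It.H 8 :: r.1, r.2.1, It.H 8 :: r.2.2)
  | Sig.R ka kb d lo hi m ps =>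
      let r := evs ([It.E], [It.E], [It.E]) ps lo hi (Nat.ble hi 2)
      (It.W (if d then kb else ka) :: r.1, It.W (if d then ka else kb) :: r.2.1,
        It.Z l2 d m :: r.2.2)
  | Sig.F ps =>
      let r := evs ([It.E], [It.E], [It.E]) ps 3 3 true
      (It.H 8 :: r.1, r.2.1, It.H 8 :: r.2.2)

/-- all items of a list of signatures -/
def items (l1 l2 : ℕ) : List Sig → List It
  | [] => []
  | s :: ss => (s.tapes l1 l2).1 ++ ((s.tapes l1 l2).2.1 ++ ((s.tapes l1 l2).2.2 ++ items l1 l2 ss))

/-- legal signatures -/
def Sig.ok : Sig → Bool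
  | Sig.L _ mb ps => okS ps 3 3 true && Nat.beq (lastM ps 8) (2 ^ mb) && Nat.ble 1 (fmin ps 0 0 0)
  | Sig.R ka kb d lo hi m ps => okS ps lo hi (Nat.ble hi 2) && maskIn m lo hi &&
      decide (vl ka = 2) && decide (vl kb = 2) &&
      decide ((evs ([It.E], [It.E], [It.E]) ps lo hi (Nat.ble hi 2)).2.2 ≠ [It.E])
  | Sig.F ps => okS ps 3 3 true

/-- type of a signature: the marks `α`, `β` -/
def Sig.ty : Sig → ℕ × ℕ
  | Sig.L ma mb ps => if fpar ps false false false then (ma, mb) else (mb, ma)
  | Sig.R ka kb _ _ _ _ _ => (ka, kb)
  | Sig.F _ => (0, 0)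

/-- number of phases -/
def Sig.len : Sig → ℕ
  | Sig.L _ _ ps => ps.length
  | Sig.R _ _ _ _ _ _ ps => ps.length
  | Sig.F ps => ps.length

/-- kind of a signature -/
def Sig.kind : Sig → ℕ
  | Sig.L _ _ _ => 0
  | Sig.R _ _ _ _ _ _ _ => 1
  | Sig.F _ => 2

/-- accepting slot of the last item of a tape -/
def It.acc : It → ℕ
  | It.F _ => 1
  | It.X _ => 1
  | _ => 0

/-- accepting bit of a tape which starts with the item number `n` -/
def accBit (n : ℕ) (t : List It) : ℕ := 2 ^ (8 * (n + t.length - 1) + (t.getLastD It.E).acc)

/-- table of the signatures with their accepting bits; `n` = number of the first item -/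
def accs (l1 l2 : ℕ) : ℕ → List Sig → List (Sig × ℕ)
  | _, [] => []
  | n, s :: ss =>
      (s, accBit n (s.tapes l1 l2).1 + accBit (n + (s.tapes l1 l2).1.length) (s.tapes l1 l2).2.1 +
        accBit (n + (s.tapes l1 l2).1.length + (s.tapes l1 l2).2.1.length) (s.tapes l1 l2).2.2) ::
      accs l1 l2 (n + (s.tapes l1 l2).1.length + (s.tapes l1 l2).2.1.length +
        (s.tapes l1 l2).2.2.length) ss

/-- element of the table -/
def nthA : List (Sig × ℕ) → ℕ → Option (Sig × ℕ)
  | [], _ => none
  | m :: _, 0 => some m
  | _ :: Ms, n + 1 => nthA Ms n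

/-- the final condition: `T = i + 65536 j`, the signature number `i` is a full one, or a left
one which fits to the right signature number `j`; all tapes are finished -/
def finC (tab : List (Sig × ℕ)) (S T : ℕ) : Bool :=
  match nthA tab (T % 65536) with
  | none => false
  | some (a, ma) =>
      Nat.beq (ma &&& S) ma &&
      match a with
      | Sig.F ps => Nat.ble ps.length 40
      | Sig.R _ _ _ _ _ _ _ => false
      | Sig.L m1 m2 ps =>
          match nthA tab (T / 65536) with
          | some (Sig.R ka kb d lo hi m ps', mb) =>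
              Nat.beq (mb &&& S) mb && decide ((Sig.L m1 m2 ps).ty = (ka, kb)) &&
                Nat.ble (ps.length + ps'.length + 1) 40
          | _ => false

/-- the root: `3, 3, .., 4, 4`, the mark `l1` before the mark `l2`, of different parity, every mark
occurs once -/
def chkRoot (l1 l2 : ℕ) (root : List Cell) : Bool :=
  Nat.ble 5 l1 && Nat.ble 5 l2 && decide (∃ c1 < root.length, ∃ c2 < root.length, c1 < c2 ∧ root[c1]? = some (Cell.L l1) ∧
    root[c2]? = some (Cell.L l2) ∧ parAt false c1 root ≠ parAt false c2 root) &&
  (match root with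
    | Cell.L 3 :: Cell.L 3 :: r =>
        decide (2 ≤ r.length) && decide (r.drop (r.length - 2) = [Cell.L 4, Cell.L 4]) &&
          (r.take (r.length - 2)).all fun c => match c with
            | Cell.L v => decide (vl v ≤ 2)
            | Cell.S _ i j => decide (i ≤ 2 ∧ j ≤ 2)
    | _ => false) &&
  (List.range 13).all (fun k => decide (k < 5) || decide (root.count (Cell.L k) ≤ 1)) &&
  root.all fun c => match c with
    | Cell.L v => decide (v ≤ 12)
    | Cell.S _ _ _ => true

end Pool.Agent.H.MP_2e666d_lc.HS
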