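import Pool.Agent.H.MP_2e666d_lc.HSDef

/-! # Half signatures: a fast check of the masks

`Ts` is the list of the types of items: `(a, e, I)` = item, kind of the next item, set of the
bits `8 n` for all positions `n` of this type; byte number `n` of `TY` is the number of the type
of the item number `n`; `N8 = 8 * its.length`.  `bf a e l k` is the set of the legal slots of the
item `a` for the letter `l` and the shift `k - 8`. -/

set_option linter.unusedVariables false

namespace Pool.Agent.H.MP_2e666d_lc.HS

open Pool.Agent.H.MP_2e666d_lc Pool.Agent.H.MP_2e666d_lc.T3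

/-- equality of Booleans -/
noncomputable def eqB (a b : Bool) : Bool :=
  Bool.rec (motive := fun _ => Bool) (Bool.rec (motive := fun _ => Bool) true false b) b a

theorem eqB_eq {a b : Bool} (h : eqB a b = true) : a = b := by
  cases a <;> cases b <;> first | rfl | exact absurd h (by decide)

/-- conjunction -/
noncomputable def andB (a b : Bool) : Bool := Bool.rec (motive := fun _ => Bool) false b a

theorem andB_eq {a b : Bool} (h : andB a b = true) : a = true ∧ b = true := by
  cases a
  · exact absurd (show false = true from h) (by decide)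
  · exact ⟨rfl, h⟩

noncomputable def eqIH (m : ℕ) (b : It) : Bool :=
  It.rec (motive := fun _ => Bool) (fun m' => Nat.beq m m') (fun _ _ _ _ _ _ => false)
    (fun _ => false) (fun _ _ _ => false) (fun _ => false) (fun _ => false) false false b

noncomputable def eqIA (o : Bool) (bw bu : ℕ) (rw ru : Bool) (m : ℕ) (b : It) : Bool :=
  It.rec (motive := fun _ => Bool) (fun m' => false)
    (fun o' bw' bu' rw' ru' m' =>
      andB (Nat.beq m m') (andB (Nat.beq bw bw') (andB (Nat.beq bu bu')
        (andB (eqB o o') (andB (eqB rw rw') (eqB ru ru'))))))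
    (fun _ => false) (fun _ _ _ => false) (fun _ => false) (fun _ => false) false false b

noncomputable def eqIW (k : ℕ) (b : It) : Bool :=
  It.rec (motive := fun _ => Bool) (fun m' => false) (fun _ _ _ _ _ _ => false)
    (fun k' => Nat.beq k k') (fun _ _ _ => false) (fun _ => false) (fun _ => false) false false b

noncomputable def eqIZ (k : ℕ) (d : Bool) (m : ℕ) (b : It) : Bool :=
  It.rec (motive := fun _ => Bool) (fun m' => false) (fun _ _ _ _ _ _ => false)
    (fun _ => false) (fun k' d' m' => andB (Nat.beq k k') (andB (eqB d d') (Nat.beq m m')))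
    (fun _ => false) (fun _ => false) false false b

noncomputable def eqIF (k : ℕ) (b : It) : Bool :=
  It.rec (motive := fun _ => Bool) (fun m' => false) (fun _ _ _ _ _ _ => false)
    (fun _ => false) (fun _ _ _ => false) (fun k' => Nat.beq k k') (fun _ => false) false false b

noncomputable def eqIX (k : ℕ) (b : It) : Bool :=
  It.rec (motive := fun _ => Bool) (fun m' => false) (fun _ _ _ _ _ _ => false)
    (fun _ => false) (fun _ _ _ => false) (fun _ => false) (fun k' => Nat.beq k k') false false b

noncomputable def eqIT (b : It) : Bool :=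
  It.rec (motive := fun _ => Bool) (fun m' => false) (fun _ _ _ _ _ _ => false)
    (fun _ => false) (fun _ _ _ => false) (fun _ => false) (fun _ => false) true false b

noncomputable def eqIE (b : It) : Bool :=
  It.rec (motive := fun _ => Bool) (fun m' => false) (fun _ _ _ _ _ _ => false)
    (fun _ => false) (fun _ _ _ => false) (fun _ => false) (fun _ => false) false true b

/-- equality of items -/
noncomputable def eqI (a b : It) : Bool :=
  It.rec (motive := fun _ => Bool) (fun m => eqIH m b) (fun o bw bu rw ru m => eqIA o bw bu rw ru m b)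
    (fun k => eqIW k b) (fun k d m => eqIZ k d m b) (fun k => eqIF k b) (fun k => eqIX k b)
    (eqIT b) (eqIE b) a

theorem eqI_eq {a b : It} (h : eqI a b = true) : a = b := by
  cases a <;> cases b <;> first | exact absurd (show false = true from h) (by decide) | rfl | skip
  case H.H m m' =>
    have : Nat.beq m m' = true := h
    rw [Nat.eq_of_beq_eq_true this]
  case A.A o bw bu rw ru m o' bw' bu' rw' ru' m' =>
    have h' : andB (Nat.beq m m') (andB (Nat.beq bw bw') (andB (Nat.beq bu bu')
        (andB (eqB o o') (andB (eqB rw rw') (eqB ru ru'))))) = true := h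
    obtain ⟨h1, h'⟩ := andB_eq h'
    obtain ⟨h2, h'⟩ := andB_eq h'
    obtain ⟨h3, h'⟩ := andB_eq h'
    obtain ⟨h4, h'⟩ := andB_eq h'
    obtain ⟨h5, h6⟩ := andB_eq h'
    rw [Nat.eq_of_beq_eq_true h1, Nat.eq_of_beq_eq_true h2, Nat.eq_of_beq_eq_true h3,
      eqB_eq h4, eqB_eq h5, eqB_eq h6]
  case W.W k k' =>
    have : Nat.beq k k' = true := h
    rw [Nat.eq_of_beq_eq_true this]
  case Z.Z k d m k' d' m' =>
    have h' : andB (Nat.beq k k') (andB (eqB d d') (Nat.beq m m')) = true := h
    obtain ⟨h1, h'⟩ := andB_eq h'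
    obtain ⟨h2, h3⟩ := andB_eq h'
    rw [Nat.eq_of_beq_eq_true h1, eqB_eq h2, Nat.eq_of_beq_eq_true h3]
  case F.F k k' =>
    have : Nat.beq k k' = true := h
    rw [Nat.eq_of_beq_eq_true this]
  case X.X k k' =>
    have : Nat.beq k k' = true := h
    rw [Nat.eq_of_beq_eq_true this]

/-! ### types -/

/-- element of the list of types -/
noncomputable def nthT (Ts : List (It × ℕ × ℕ)) : ℕ → It × ℕ × ℕ :=
  List.rec (motive := fun _ => ℕ → It × ℕ × ℕ) (fun _ => (It.E, 0, 0))
    (fun m _ ih n => Nat.rec (motive := fun _ => It × ℕ × ℕ) m (fun k _ => ih k) n) Ts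

theorem nthT_mem (Ts : List (It × ℕ × ℕ)) (n : ℕ) : nthT Ts n ∈ Ts ∨ nthT Ts n = (It.E, 0, 0) := by
  induction Ts generalizing n with
  | nil => exact Or.inr rfl
  | cons m Ts ih =>
    cases n with
    | zero => exact Or.inl List.mem_cons_self
    | succ n =>
      rcases ih n with h | h
      · exact Or.inl (List.mem_cons_of_mem _ h)
      · exact Or.inr h

/-- the item `a` with the next item of kind `e` at the bit `n` has the type `T` -/
noncomputable def tyOk (a : It) (e n : ℕ) (T : It × ℕ × ℕ) : Bool :=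
  Prod.rec (motive := fun _ => Bool) (fun a' q => Prod.rec (motive := fun _ => Bool)
    (fun e' I => andB (Nat.beq (Nat.mod (Nat.shiftRight I n) 2) 1)
      (andB (Nat.beq e e') (eqI a a'))) q) T

theorem tyOk_eq {a : It} {e n : ℕ} {T : It × ℕ × ℕ} (h : tyOk a e n T = true) :
    T.1 = a ∧ T.2.1 = e ∧ T.2.2.testBit n = true := by
  obtain ⟨a', e', I⟩ := T
  have h' : andB (Nat.beq (Nat.mod (Nat.shiftRight I n) 2) 1)
      (andB (Nat.beq e e') (eqI a a')) = true := h
  obtain ⟨h1, h'⟩ := andB_eq h'
  obtain ⟨h2, h3⟩ := andB_eq h'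
  refine ⟨(eqI_eq h3).symm, (Nat.eq_of_beq_eq_true h2).symm, ?_⟩
  have h4 : (I >>> n) % 2 = 1 := Nat.eq_of_beq_eq_true h1
  rw [Nat.shiftRight_eq_div_pow] at h4
  show I.testBit n = true
  rw [Nat.testBit_eq_decide_div_mod_eq, h4]
  rfl

/-- kind of the first item -/
noncomputable def hdk (ek : It → ℕ) (r : List It) : ℕ :=
  List.rec (motive := fun _ => ℕ) (ek It.E) (fun b _ _ => ek b) r

/-- one pass over the items -/
noncomputable def passF (ek : It → ℕ) (Ts : List (It × ℕ × ℕ)) (N8 : ℕ) (its : List It) :
    ℕ → ℕ → Bool :=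
  List.rec (motive := fun _ => ℕ → ℕ → Bool) (fun _ n => Nat.beq n N8)
    (fun a r ih TY n => Bool.rec (motive := fun _ => Bool) false
      (ih (Nat.div TY 256) (Nat.add n 8))
      (tyOk a (hdk ek r) n (nthT Ts (Nat.mod TY 256)))) its

theorem passF_eq {ek : It → ℕ} {Ts : List (It × ℕ × ℕ)} {N8 : ℕ} {its : List It} {TY n : ℕ}
    (h : passF ek Ts N8 its TY n = true) :
    N8 = n + 8 * its.length ∧ ∀ i < its.length, ∃ T, (T ∈ Ts ∨ T = (It.E, 0, 0)) ∧
      T.1 = its.getD i It.E ∧ T.2.1 = ek (its.getD (i + 1) It.E) ∧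
      T.2.2.testBit (n + 8 * i) = true := by
  induction its generalizing TY n with
  | nil =>
    have h' : Nat.beq n N8 = true := h
    refine ⟨by rw [Nat.eq_of_beq_eq_true h']; simp, ?_⟩
    intro i hi
    simp at hi
  | cons a r ih =>
    have h' : Bool.rec (motive := fun _ => Bool) false
      (passF ek Ts N8 r (Nat.div TY 256) (Nat.add n 8))
      (tyOk a (hdk ek r) n (nthT Ts (Nat.mod TY 256))) = true := h
    cases h1 : tyOk a (hdk ek r) n (nthT Ts (Nat.mod TY 256)) with
    | false => rw [h1] at h'; exact absurd (show false = true from h') (by decide)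
    | true =>
      rw [h1] at h'
      obtain ⟨h2, h3⟩ := ih h'
      have e8 : Nat.add n 8 = n + 8 := rfl
      rw [e8] at h2 h3
      refine ⟨by rw [h2, List.length_cons]; ring, ?_⟩
      intro i hi
      cases i with
      | zero =>
        obtain ⟨q1, q2, q3⟩ := tyOk_eq h1
        refine ⟨nthT Ts (Nat.mod TY 256), nthT_mem _ _, q1, ?_, q3⟩
        rw [q2]
        cases r with
        | nil => rfl
        | cons b r => rfl
      | succ i =>
        obtain ⟨T, t1, t2, t3, t4⟩ := h3 i (by rw [List.length_cons] at hi; omega)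
        refine ⟨T, t1, t2, t3, ?_⟩
        rw [show n + 8 * (i + 1) = n + 8 + 8 * i by ring]
        exact t4

/-- the sets are disjoint subsets of `ones` -/
noncomputable def disjF (ones : ℕ) (Ts : List (It × ℕ × ℕ)) : ℕ → Bool :=
  List.rec (motive := fun _ => ℕ → Bool) (fun _ => true)
    (fun T _ ih acc => Prod.rec (motive := fun _ => Bool) (fun _ q => Prod.rec (motive := fun _ => Bool)
      (fun _ I => Bool.rec (motive := fun _ => Bool) false (ih (Nat.lor acc I))
        (andB (Nat.beq (Nat.land I ones) I) (Nat.beq (Nat.land acc I) 0))) q) T) Ts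

theorem disjF_cons {ones : ℕ} {T : It × ℕ × ℕ} {Ts : List (It × ℕ × ℕ)} {acc : ℕ}
    (h : disjF ones (T :: Ts) acc = true) :
    T.2.2 &&& ones = T.2.2 ∧ acc &&& T.2.2 = 0 ∧ disjF ones Ts (acc ||| T.2.2) = true := by
  obtain ⟨a, e, I⟩ := T
  have h' : Bool.rec (motive := fun _ => Bool) false (disjF ones Ts (acc ||| I))
        (andB (Nat.beq (I &&& ones) I) (Nat.beq (acc &&& I) 0)) = true := h
  cases h1 : andB (Nat.beq (I &&& ones) I) (Nat.beq (acc &&& I) 0) with
  | false => rw [h1] at h'; exact absurd (show false = true from h') (by decide)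
  | true =>
    rw [h1] at h'
    obtain ⟨h2, h3⟩ := andB_eq h1
    exact ⟨Nat.eq_of_beq_eq_true h2, Nat.eq_of_beq_eq_true h3, h'⟩

theorem disjF_acc {ones : ℕ} {Ts : List (It × ℕ × ℕ)} {acc : ℕ} (h : disjF ones Ts acc = true)
    {T : It × ℕ × ℕ} (hT : T ∈ Ts) {j : ℕ} (hj : T.2.2.testBit j = true) :
    acc.testBit j = false ∧ ones.testBit j = true := by
  induction Ts generalizing acc with
  | nil => simp at hT
  | cons T' Ts ih =>
    obtain ⟨h1, h2, h3⟩ := disjF_cons h
    rcases List.mem_cons.1 hT with rfl | hT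
    · refine ⟨?_, ?_⟩
      · have := congrArg (fun y => y.testBit j) h2
        simp only [Nat.testBit_and, hj, Bool.and_true, Nat.zero_testBit] at this
        exact this
      · have := congrArg (fun y => y.testBit j) h1
        simp only [Nat.testBit_and, hj, Bool.true_and] at this
        exact this
    · obtain ⟨h4, h5⟩ := ih h3 hT
      rw [Nat.testBit_or, Bool.or_eq_false_iff] at h4
      exact ⟨h4.1, h5⟩

theorem disjF_uniq {ones : ℕ} {Ts : List (It × ℕ × ℕ)} {acc : ℕ} (h : disjF ones Ts acc = true)
    {T T' : It × ℕ × ℕ} (hT : T ∈ Ts) (hT' : T' ∈ Ts) {j : ℕ} (hj : T.2.2.testBit j = true)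
    (hj' : T'.2.2.testBit j = true) : T = T' := by
  induction Ts generalizing acc with
  | nil => simp at hT
  | cons U Ts ih =>
    obtain ⟨h1, h2, h3⟩ := disjF_cons h
    rcases List.mem_cons.1 hT with e1 | hS
    · rcases List.mem_cons.1 hT' with e2 | hS'
      · rw [e1, e2]
      · have := (disjF_acc h3 hS' hj').1
        rw [← e1, Nat.testBit_or, hj, Bool.or_true] at this
        exact absurd this (by decide)
    · rcases List.mem_cons.1 hT' with e2 | hS'
      · have := (disjF_acc h3 hS hj).1
        rw [← e2, Nat.testBit_or, hj', Bool.or_true] at this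
        exact absurd this (by decide)
      · exact ih h3 hS hS'

/-! ### masks -/

/-- all legal slots for the letter `l` and the shift `k - 8` -/
noncomputable def orF (bf : It → ℕ → ℕ → ℕ → ℕ) (l k : ℕ) (Ts : List (It × ℕ × ℕ)) : ℕ :=
  List.rec (motive := fun _ => ℕ) 0
    (fun T _ ih => Nat.lor (Prod.rec (motive := fun _ => ℕ) (fun a q => Prod.rec (motive := fun _ => ℕ)
      (fun e I => Nat.mul I (Nat.land 255 (bf a e l k))) q) T) ih) Ts

theorem orF_cons (bf : It → ℕ → ℕ → ℕ → ℕ) (l k : ℕ) (T : It × ℕ × ℕ) (Ts : List (It × ℕ × ℕ)) :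
    orF bf l k (T :: Ts) = (T.2.2 * (255 &&& bf T.1 T.2.1 l k)) ||| orF bf l k Ts := rfl

theorem orF_bit {bf : It → ℕ → ℕ → ℕ → ℕ} {l k : ℕ} {Ts : List (It × ℕ × ℕ)} {j : ℕ}
    (h : (orF bf l k Ts).testBit j = true) :
    ∃ T ∈ Ts, (T.2.2 * (255 &&& bf T.1 T.2.1 l k)).testBit j = true := by
  induction Ts with
  | nil =>
    have h' : (0 : ℕ).testBit j = true := h
    simp at h'
  | cons T Ts ih =>
    rw [orF_cons, Nat.testBit_or, Bool.or_eq_true] at h
    rcases h with h | h
    · exact ⟨T, List.mem_cons_self, h⟩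
    · obtain ⟨T', h1, h2⟩ := ih h
      exact ⟨T', List.mem_cons_of_mem _ h1, h2⟩

/-- the masks of one letter -/
noncomputable def chkLF (bf : It → ℕ → ℕ → ℕ → ℕ) (Ts : List (It × ℕ × ℕ)) (l : ℕ)
    (ms : List (ℕ × ℕ)) : Bool :=
  List.rec (motive := fun _ => Bool) true
    (fun p _ ih => Bool.rec (motive := fun _ => Bool) false ih
      (Prod.rec (motive := fun _ => Bool) (fun k M => Nat.beq (Nat.land M (orF bf l k Ts)) M) p)) ms

/-- the masks of all letters -/
noncomputable def chkAF (bf : It → ℕ → ℕ → ℕ → ℕ) (Ts : List (It × ℕ × ℕ))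
    (Ms : List (List (ℕ × ℕ))) : ℕ → Bool :=
  List.rec (motive := fun _ => ℕ → Bool) (fun l => Nat.ble l 13)
    (fun ms _ ih l => Bool.rec (motive := fun _ => Bool) false (ih (Nat.succ l))
      (chkLF bf Ts l ms)) Ms

/-- `1 + 256 + .. `, `N8 / 8` terms -/
noncomputable def onesF (N8 : ℕ) : ℕ := Nat.div (Nat.sub (Nat.pow 2 N8) 1) 255

/-- fast check of the masks -/
noncomputable def chkFast (bf : It → ℕ → ℕ → ℕ → ℕ) (ek : It → ℕ) (Ts : List (It × ℕ × ℕ))
    (TY N8 : ℕ) (its : List It) (Ms : List (List (ℕ × ℕ))) : Bool :=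
  andB (passF ek Ts N8 its TY 0) (andB (disjF (onesF N8) Ts 0) (chkAF bf Ts Ms 0))

theorem ones_succ (n : ℕ) : onesF (8 * (n + 1)) = 256 * onesF (8 * n) + 1 := by
  have h : ∀ n, onesF (8 * n) = (256 ^ n - 1) / 255 := by
    intro n
    show (2 ^ (8 * n) - 1) / 255 = _
    rw [pow_mul]
    norm_num
  rw [h, h, pow_succ]
  have h1 : 1 ≤ 256 ^ n := Nat.one_le_pow _ _ (by norm_num)
  have h2 : (255 : ℕ) ∣ 256 ^ n - 1 := by
    have := Nat.sub_one_dvd_pow_sub_one 256 n
    simpa using this
  obtain ⟨c, hc⟩ := h2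
  have h3 : 256 ^ n = 255 * c + 1 := by omega
  rw [h3]
  have e1 : (255 * c + 1) * 256 - 1 = 255 * (256 * c + 1) := by omega
  have e2 : 255 * c + 1 - 1 = 255 * c := by omega
  rw [e1, e2, Nat.mul_div_cancel_left _ (by norm_num), Nat.mul_div_cancel_left _ (by norm_num)]

theorem ones_bit {n i x : ℕ} (hx : x < 8) :
    (onesF (8 * n)).testBit (8 * i + x) = (decide (x = 0) && decide (i < n)) := by
  induction n generalizing i with
  | zero =>
    have : onesF (8 * 0) = 0 := rfl
    rw [this]
    simp
  | succ n ih =>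
    rw [ones_succ]
    have e : 256 * onesF (8 * n) + 1 = 2 ^ 8 * onesF (8 * n) + 1 := by norm_num
    rw [e, Nat.testBit_two_pow_mul_add _ (by norm_num)]
    cases i with
    | zero =>
      rw [if_pos (by omega)]
      interval_cases x <;> simp [Nat.testBit]
    | succ i =>
      rw [if_neg (by omega), show 8 * (i + 1) + x - 8 = 8 * i + x by omega, ih]
      simp

/-- multiplication of a set of multiples of 8 with a byte -/
theorem mul_bit {b : ℕ} (hb : b < 256) {n : ℕ} : ∀ {I : ℕ}, I &&& onesF (8 * n) = I →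
    ∀ {i x : ℕ}, x < 8 → (I * b).testBit (8 * i + x) = (I.testBit (8 * i) && b.testBit x) := by
  induction n with
  | zero =>
    intro I hI i x hx
    have h0 : onesF (8 * 0) = 0 := rfl
    rw [h0, Nat.and_zero] at hI
    subst hI
    simp
  | succ n ih =>
    intro I hI i x hx
    rw [ones_succ] at hI
    have hmod : I % 256 = I % 256 &&& 1 := by
      have h1 : (I &&& (256 * onesF (8 * n) + 1)) % 2 ^ 8 = I % 2 ^ 8 := by rw [hI]
      rw [Nat.and_mod_two_pow] at h1
      have h2 : (256 * onesF (8 * n) + 1) % 2 ^ 8 = 1 := by omega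
      rw [h2] at h1
      exact h1.symm
    have hdiv : I / 256 &&& onesF (8 * n) = I / 256 := by
      have h1 : (I &&& (256 * onesF (8 * n) + 1)) / 2 ^ 8 = I / 2 ^ 8 := by rw [hI]
      rw [Nat.and_div_two_pow] at h1
      have h2 : (256 * onesF (8 * n) + 1) / 2 ^ 8 = onesF (8 * n) := by omega
      rw [h2] at h1
      exact h1
    have hc : I % 256 < 2 := by
      rw [hmod, Nat.and_one_is_mod]
      omega
    have e : I * b = 2 ^ 8 * (I / 256 * b) + I % 256 * b := by
      have := Nat.div_add_mod I 256
      calc I * b = (256 * (I / 256) + I % 256) * b := by rw [this]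
        _ = _ := by ring
    have hlt : I % 256 * b < 2 ^ 8 := by
      have : I % 256 = 0 ∨ I % 256 = 1 := by omega
      rcases this with h | h <;> rw [h] <;> simp <;> omega
    rw [e, Nat.testBit_two_pow_mul_add _ hlt]
    cases i with
    | zero =>
      rw [if_pos (by omega)]
      have hI0 : I.testBit (8 * 0) = decide (I % 2 = 1) := by
        rw [Nat.mul_zero, Nat.testBit_zero]
      rw [hI0]
      have h2 : I % 2 = I % 256 % 2 := by omega
      have : I % 256 = 0 ∨ I % 256 = 1 := by omega
      rcases this with h | h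
      · rw [h2, h]; simp
      · rw [h2, h]; simp
    | succ i =>
      rw [if_neg (by omega), show 8 * (i + 1) + x - 8 = 8 * i + x by omega, ih hdiv hx]
      congr 1
      have : I / 256 = I / 2 ^ 8 := by norm_num
      rw [this, Nat.testBit_div_two_pow]
      congr 1

/-- a criterion for `chkM` -/
theorem chkM_of {l k : ℕ} {its : List It} {M : ℕ} (h : ∀ n x, x < 8 → M.testBit (8 * n + x) = true →
    n < its.length ∧ 8 ≤ x + k ∧
      x + k - 8 ∈ tr (its.getD n It.E) (its.getD (n + 1) It.E) l x) : chkM l k its M = true := by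
  induction its generalizing M with
  | nil =>
    have : M = 0 := by
      apply Nat.eq_of_testBit_eq
      intro j
      rw [Nat.zero_testBit]
      by_contra hc
      rw [Bool.not_eq_false] at hc
      have := (h (j / 8) (j % 8) (Nat.mod_lt _ (by norm_num)) (by rwa [Nat.div_add_mod])).1
      simp at this
    rw [this]
    rfl
  | cons a r ih =>
    rw [chkM, Bool.and_eq_true, Bool.or_eq_true]
    refine ⟨Or.inr ?_, ih ?_⟩
    · unfold chkB
      rw [List.all_eq_true]
      intro x hx
      have hx8 : x < 8 := List.mem_range.1 hx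
      cases hb : (M % 256).testBit x with
      | false => rfl
      | true =>
        have hb' : M.testBit (8 * 0 + x) = true := by
          have : (256 : ℕ) = 2 ^ 8 := by norm_num
          rw [this, Nat.testBit_mod_two_pow] at hb
          simp only [Bool.and_eq_true] at hb
          simpa using hb.2
        obtain ⟨-, h2, h3⟩ := h 0 x hx8 hb'
        have e1 : (a :: r).getD 0 It.E = a := rfl
        have e2 : (a :: r).getD (0 + 1) It.E = r.headD It.E := by
          cases r <;> rfl
        rw [e1, e2] at h3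
        have h4 : Nat.ble 8 (x + k) = true := by rw [Nat.ble_eq]; exact h2
        have h5 : (tr a (r.headD It.E) l x).contains (x + k - 8) = true := by
          rw [List.contains_iff_mem]
          exact h3
        rw [h4, h5]
        rfl
    · intro n x hx hb
      have hb' : M.testBit (8 * (n + 1) + x) = true := by
        have e : M / 256 = M / 2 ^ 8 := by norm_num
        rw [e, Nat.testBit_div_two_pow] at hb
        rw [← hb]
        congr 1
        ring
      obtain ⟨h1, h2, h3⟩ := h (n + 1) x hx hb'
      refine ⟨by rw [List.length_cons] at h1; omega, h2, ?_⟩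
      have e1 : (a :: r).getD (n + 1) It.E = r.getD n It.E := rfl
      have e2 : (a :: r).getD (n + 1 + 1) It.E = r.getD (n + 1) It.E := rfl
      rw [e1, e2] at h3
      exact h3

theorem chkAF_imp {bf : It → ℕ → ℕ → ℕ → ℕ} {Ts : List (It × ℕ × ℕ)} {its : List It}
    (key : ∀ l k M, l < 13 → M &&& orF bf l k Ts = M → chkM l k its M = true)
    {Ms : List (List (ℕ × ℕ))} {l : ℕ} (h : chkAF bf Ts Ms l = true) :
    l + Ms.length ≤ 13 ∧ chkMs its l Ms = true := by
  induction Ms generalizing l with
  | nil =>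
    have h' : Nat.ble l 13 = true := h
    exact ⟨by simpa using Nat.le_of_ble_eq_true h', rfl⟩
  | cons ms Ms ih =>
    have h' : Bool.rec (motive := fun _ => Bool) false (chkAF bf Ts Ms (l + 1))
      (chkLF bf Ts l ms) = true := h
    cases h1 : chkLF bf Ts l ms with
    | false => rw [h1] at h'; exact absurd (show false = true from h') (by decide)
    | true =>
      rw [h1] at h'
      obtain ⟨h2, h3⟩ := ih h'
      rw [List.length_cons]
      refine ⟨by omega, ?_⟩
      rw [chkMs, h3, Bool.and_true, List.all_eq_true]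
      have hl : l < 13 := by omega
      clear h3 h2 h' ih h
      induction ms with
      | nil => simp
      | cons p ms ih =>
        obtain ⟨k, M⟩ := p
        have h' : Bool.rec (motive := fun _ => Bool) false (chkLF bf Ts l ms)
          (Nat.beq (M &&& orF bf l k Ts) M) = true := h1
        cases h2 : Nat.beq (M &&& orF bf l k Ts) M with
        | false => rw [h2] at h'; exact absurd (show false = true from h') (by decide)
        | true =>
          rw [h2] at h'
          intro q hq
          rcases List.mem_cons.1 hq with rfl | hq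
          · exact key l k M hl (Nat.eq_of_beq_eq_true h2)
          · exact ih h' q hq

/-- **the fast check is sound** -/
theorem ms_fast {bf : It → ℕ → ℕ → ℕ → ℕ} {ek : It → ℕ}
    (hbf : ∀ (a b : It) (l k x : ℕ), l < 13 → x < 8 → (bf a (ek b) l k).testBit x = true →
      8 ≤ x + k ∧ x + k - 8 ∈ tr a b l x)
    {Ts : List (It × ℕ × ℕ)} {TY N8 : ℕ} {its : List It} {Ms : List (List (ℕ × ℕ))}
    (h : chkFast bf ek Ts TY N8 its Ms = true) : chkMs its 0 Ms = true := by
  obtain ⟨h1, h2⟩ := andB_eq h
  obtain ⟨h2, h3⟩ := andB_eq h2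
  obtain ⟨p1, p2⟩ := passF_eq h1
  rw [Nat.zero_add] at p1
  refine (chkAF_imp ?_ h3).2
  intro l k M hl hM
  apply chkM_of
  intro n x hx hb
  rw [← hM, Nat.testBit_and, Bool.and_eq_true] at hb
  obtain ⟨T, hT, hTb⟩ := orF_bit hb.2
  have hone : T.2.2 &&& onesF N8 = T.2.2 := by
    apply Nat.eq_of_testBit_eq
    intro j
    rw [Nat.testBit_and]
    cases hj : T.2.2.testBit j with
    | false => rfl
    | true => rw [(disjF_acc h2 hT hj).2]; rfl
  rw [p1] at hone
  have h255 : 255 &&& bf T.1 T.2.1 l k < 256 := by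
    have := @Nat.and_le_left 255 (bf T.1 T.2.1 l k)
    omega
  rw [mul_bit h255 hone hx, Bool.and_eq_true, Nat.testBit_and, Bool.and_eq_true] at hTb
  obtain ⟨b1, b2, b3⟩ := hTb
  have hn : n < its.length := by
    have := (disjF_acc h2 hT b1).2
    rw [p1] at this
    have h0 := ones_bit (n := its.length) (i := n) (x := 0) (by norm_num)
    rw [Nat.add_zero, this] at h0
    simpa using h0.symm
  obtain ⟨T', t1, t2, t3, t4⟩ := p2 n hn
  rw [Nat.zero_add] at t4
  have hT' : T' ∈ Ts := by
    rcases t1 with t1 | t1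
    · exact t1
    · rw [t1] at t4
      simp at t4
  have : T = T' := disjF_uniq h2 hT hT' b1 t4
  subst this
  refine ⟨hn, ?_⟩
  rw [t2, t3] at b3
  exact hbf _ _ _ _ _ hl hx b3

end Pool.Agent.H.MP_2e666d_lc.HS
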