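import Pool.Agent.H.MP_2e666d_lc.HS9

/-! # Half signatures: split trees whose leaves are class certificates -/

namespace Pool.Agent.H.MP_2e666d_lc.HS

open Pool.Agent.H.MP_2e666d_lc Pool.Agent.H.MP_2e666d_lc.T3

/-- stack machine: `some (ty, p)` splits the cell number `p` of the class on the top of the stack,
`none`: the class on the top is the next leaf -/
def walk : List (Option (ℕ × ℕ)) → List (List Cell) → List (List Cell) → Bool
  | [], [], _ => true
  | none :: is, c :: st, l :: ls => decide (c = l) && walk is st ls
  | some (ty, p) :: is, c :: st, ls =>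
      match children ty false p c with
      | some l => walk is (l ++ st) ls
      | none => false
  | _, _, _ => false

theorem walk_sound {K : ℕ} : ∀ (is : List (Option (ℕ × ℕ))) (st ls : List (List Cell)),
    walk is st ls = true → (∀ c ∈ ls, T3.Good K c) → ∀ c ∈ st, T3.Good K c
  | [], [], _, _, _ => by simp
  | none :: is, c :: st, l :: ls, h, hl => by
      rw [walk, Bool.and_eq_true, decide_eq_true_eq] at h
      intro d hd
      rw [List.mem_cons] at hd
      rcases hd with rfl | hd
      · rw [h.1]
        exact hl l List.mem_cons_self
      · exact walk_sound is st ls h.2 (fun c hc => hl c (List.mem_cons_of_mem _ hc)) d hd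
  | some (ty, p) :: is, c :: st, ls, h, hl => by
      rw [walk] at h
      split at h
      · next l hc =>
        have ih := walk_sound is (l ++ st) ls h hl
        intro d hd
        rw [List.mem_cons] at hd
        rcases hd with rfl | hd
        · exact Good.node hc fun c' hc' => ih c' (List.mem_append_left _ hc')
        · exact ih d (List.mem_append_right _ hd)
      · simp at h
  | [], _ :: _, _, h, _ => by simp [walk] at h
  | none :: _, [], _, h, _ => by simp [walk] at h
  | none :: _, _ :: _, [], h, _ => by simp [walk] at h
  | some _ :: _, [], _, h, _ => by simp [walk] at h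

/-- every decorated root in the list is certified -/
def AllC (K : ℕ) : List (List Cell) → Prop
  | [] => True
  | r :: rs => (∀ D, Inst false r D → Comp (D.map vl) K 0 0 0) ∧ AllC K rs

theorem AllC.good {K : ℕ} : ∀ {rs : List (List Cell)}, AllC K rs → rs.all Cov.sm4 = true →
    ∀ c ∈ rs.map (fun r => r.map vlc), T3.Good K c
  | [], _, _ => by simp
  | r :: rs, h, hs => by
      rw [List.all_cons, Bool.and_eq_true] at hs
      intro c hc
      rw [List.map_cons, List.mem_cons] at hc
      rcases hc with rfl | hc
      · exact hs9_lift rfl hs.1 h.1
      · exact AllC.good h.2 hs.2 c hc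

theorem AllC.append {K : ℕ} : ∀ {rs rs' : List (List Cell)}, AllC K rs → AllC K rs' →
    AllC K (rs ++ rs')
  | [], _, _, h' => h'
  | _ :: _, _, h, h' => ⟨h.1, AllC.append h.2 h'⟩

/-- a split tree with certified leaves -/
theorem good_of_walk {K : ℕ} {is : List (Option (ℕ × ℕ))} {root : List Cell}
    {rs : List (List Cell)} (h : AllC K rs) (hs : rs.all Cov.sm4 = true)
    (hw : walk is [root] (rs.map fun r => r.map vlc) = true) : T3.Good K root :=
  walk_sound is [root] _ hw (h.good hs) root List.mem_cons_self

end Pool.Agent.H.MP_2e666d_lc.HS
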