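import Pool.Agent.H.MP_2e666d_lc.HCP

/-! # Types of items (generated) -/

set_option linter.all false

namespace Pool.Agent.H.MP_2e666d_lc.HS

open Pool.Agent.H.MP_2e666d_lc Pool.Agent.H.MP_2e666d_lc.T3

noncomputable def g315 : TyP := ⟨It.X 12, nat_lit 99, nat_lit 0x10200000000000000000000020000000000000000000002000000000000000000000200000000000000000000020000000000000000000002000000000000000000000200000000000000000000020000000000000000000002000000000000000000000200000000000000000000020000000000000000000002000000000000000000000200, by decide +kernel⟩
noncomputable def g316 : TyP := ⟨It.W 12, nat_lit 99, nat_lit 0x1000000000000000000000000000000000000010000000000000000000001000000000000000000000100000000000000000000010000000000000000000001000000000000000000000100000000000000000000010000000000000000000001000000000000000000000100000000000000000000010000000000000000000001000000000000000000000100, by decide +kernel⟩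
noncomputable def g317 : TyP := ⟨It.A false 0 1 true false 1, nat_lit 99, nat_lit 0xaa0000000008001100c400aa, by decide +kernel⟩

end Pool.Agent.H.MP_2e666d_lc.HS
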