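import Pool.Agent.H.MP_2e666d_lc.HCP

/-! # Types of items (generated) -/

set_option linter.all false

namespace Pool.Agent.H.MP_2e666d_lc.HS

open Pool.Agent.H.MP_2e666d_lc Pool.Agent.H.MP_2e666d_lc.T3

noncomputable def g325 : TyP := ⟨It.A true 3 1 true false 8167, nat_lit 99, nat_lit 0x400000040550000000000040000004055000000000004000000405500000000000400000040550000000000040000004055000000000004000000405500000000000400000040550000000000040000004055000000000000000000000000000000000000001100440000000000040000004055000000000004000000405500aa00000004000000405500aa, by decide +kernel⟩
noncomputable def g326 : TyP := ⟨It.A false 1 4 true false 16, nat_lit 99, nat_lit 0xaa00000000000000000000aa00000000000000000000aa00000000000000000000aa00000000000000000000aa00000000000000000000aa00000000000000000000aa00000000000000000000aa00000000080000008000aa00000000000000000000aa00000000000000000000aa00000000000011004400aa00000000000000005500aa, by decide +kernel⟩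
noncomputable def g327 : TyP := ⟨It.A true 2 3 true false 3, nat_lit 99, nat_lit 0x11004400aa00000000000011004400aa00000000000011004400aa00000000000011004400aa00000000000011004400aa00000000000011004400aa00000000000011004400aa00000000000011004400aa000000000000000000000000000000000000000000aa00000000000011004400aa00000004000000405500aa00000004000000405500aa, by decide +kernel⟩
noncomputable def g328 : TyP := ⟨It.A true 1 1 false true 8166, nat_lit 99, nat_lit 0x10004000000000000000001000400000000000000000100040000000000000000010004000000000000000001000400000000000000000100040000000000000000010004000000000000000001000400000000000000000000000000000000000000000000000000000000000001000400000000000000000100a405500a000000000000000005500aa, by decide +kernel⟩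

end Pool.Agent.H.MP_2e666d_lc.HS
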