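import Pool.Agent.H.MP_2e666d_lc.HCP

/-! # Types of items (generated) -/

set_option linter.all false

namespace Pool.Agent.H.MP_2e666d_lc.HS

open Pool.Agent.H.MP_2e666d_lc Pool.Agent.H.MP_2e666d_lc.T3

noncomputable def g329 : TyP := ⟨It.A true 0 1 false true 16, nat_lit 99, nat_lit 0x100040000000000000000000000000000000000000000000000000000000000000000a000000a000000000000000005500aa, by decide +kernel⟩
noncomputable def g330 : TyP := ⟨It.A true 2 0 true false 2, nat_lit 99, nat_lit 0x11004400000000000000001100440000000000000000110044000000000000000011004400000000000000001100440000000000000000110044000000000000000011004400000000000000001100440000000000000000000000000000000000000000000000000000000000001100440000000000040000004055000000000000000000005500aa, by decide +kernel⟩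
noncomputable def g331 : TyP := ⟨It.A false 0 2 true true 8166, nat_lit 99, nat_lit 0xa008000a00000000000000a008000a00000000000000a008000a00000000000000a008000a00000000000000a008000a00000000000000a008000a00000000000000a008000a00000000000000a008000a0000000000000000000000000000000000000000000000000000000000a008000a000000000000000008000aa00000000000011004400aa, by decide +kernel⟩

end Pool.Agent.H.MP_2e666d_lc.HS
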