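import Pool.Agent.H.MP_2e666d_lc.HCP

/-! # Types of items (generated) -/

set_option linter.all false

namespace Pool.Agent.H.MP_2e666d_lc.HS

open Pool.Agent.H.MP_2e666d_lc Pool.Agent.H.MP_2e666d_lc.T3

noncomputable def g354 : TyP := ⟨It.A true 2 1 false true 128, nat_lit 99, nat_lit 0x55000000000000000000005500000000000000000000550000000000000000000055000000000000000000005500000000000000100040550000000000000000000055000000000000000000005500000000000000000000000000000000000000000000000000000000000000005500000000000000000a005500a000000000000000005500aa, by decide +kernel⟩
noncomputable def g355 : TyP := ⟨It.A true 1 0 false false 8166, nat_lit 5, nat_lit 0x10004001000400000000001000400100040000000000100040010004000000000010004001000400000000001000400100040000000000100040010004000000000010004001000400000000100040010004000000000000000000000000000000000000000000000000000000001000400100040000000000100040010004055000000000000000000005500aa, by decide +kernel⟩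
noncomputable def g356 : TyP := ⟨It.A true 1 1 false false 256, nat_lit 99, nat_lit 0x100040010004000000000000000000000000000000000000000000000000000000000000000000000000000000000000000000000000000000000000000000000000000000000000000000000000000000000005500aa00000000000000005500aa, by decide +kernel⟩
noncomputable def g357 : TyP := ⟨It.A false 1 2 true false 1024, nat_lit 99, nat_lit 0xaa00000000000000000000aa00000000080000008000aa00000000000000000000aa00000000000000000000aa00000000000000000000aa00000000000000000000aa00000000000000000000aa0000000000000000000000000000000000000000000000000000000000000000aa00000000000011004400aa00000000000000005500aa, by decide +kernel⟩
noncomputable def g358 : TyP := ⟨It.A true 2 1 false true 1024, nat_lit 99, nat_lit 0x55000000000000000000005500000000000000100040550000000000000000000055000000000000000000005500000000000000000000550000000000000000000055000000000000000000005500000000000000000000000000000000000000000000000000000000000000005500000000000000000a005500a000000000000000005500aa, by decide +kernel⟩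
noncomputable def g359 : TyP := ⟨It.A true 1 2 false false 8180, nat_lit 99, nat_lit 0x10004001000400000aa00010004001000400000aa00010004001000400000aa00010004001000400000aa00010004001000400000aa00010004001000400000aa00010004001000400000aa00010004001000400000aa0001000400100040000000000000000000000000000000010004001000400000aa00000000000000005500aa00000000000000005500aa, by decide +kernel⟩
noncomputable def g360 : TyP := ⟨It.Z 6 true 3, nat_lit 99, nat_lit 0x5000a000000000000000005000a000000000000000005000a000000000000000005000a000000000000000005000a000000000000000005000a0000000000000100060008000000000000000005000a000000000000000005000a000000000000000005000a000000000000000005000a000000000800000005000a000000000800000005000a, by decide +kernel⟩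

end Pool.Agent.H.MP_2e666d_lc.HS
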