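import Pool.Agent.H.MP_2e666d_lc.HCP

/-! # Types of items (generated) -/

set_option linter.all false

namespace Pool.Agent.H.MP_2e666d_lc.HS

open Pool.Agent.H.MP_2e666d_lc Pool.Agent.H.MP_2e666d_lc.T3

noncomputable def g361 : TyP := ⟨It.A false 0 2 true false 256, nat_lit 99, nat_lit 0xaa00000000000000000000aa00000000000000000000aa00000000000000000000aa00000000080000008000aa00000000000000000000aa00000000000000000000aa00000000000000000000aa0000000000000000000000000000000000000000000000000000000000000000aa00000000000000000000aa00000000000011004400aa, by decide +kernel⟩
noncomputable def g362 : TyP := ⟨It.A true 3 0 true false 128, nat_lit 99, nat_lit 0x5500000000000000000000550000000000000000000055000000000000000000005500000000000000000000550000000000040000004055000000000000000000005500000000000000000000550000000000000000000000000000000000000011004400000000000000000000550000000000000000000055000000000000000000005500aa, by decide +kernel⟩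
noncomputable def g363 : TyP := ⟨It.A true 3 1 true false 8164, nat_lit 99, nat_lit 0x400000040550000000000040000004055000000000004000000405500000000000400000040550000000000040000004055000000000004000000405500000000000400000040550000000000040000004055000000000000000000000000000000000000001100440000000000040000004055000000000000000000005500aa00000000000000005500aa, by decide +kernel⟩
noncomputable def g364 : TyP := ⟨It.A false 3 1 true false 8164, nat_lit 99, nat_lit 0x8000000d500000000000008000000d500000000000008000000d500000000000008000000d500000000000008000000d500000000000008000000d500000000000008000000d500000000000008000000d50000000000000000000000000000000000000011004400000000000008000000d5000000000000000000005500aa00000000000000005500aa, by decide +kernel⟩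
noncomputable def g365 : TyP := ⟨It.A false 0 2 true false 64, nat_lit 99, nat_lit 0xaa00000000000000000000aa00000000000000000000aa00000000000000000000aa00000000000000000000aa00000000000000000000aa00000000080000008000aa00000000000000000000aa0000000000000000000000000000000000000000000000000000000000000000aa00000000000000000000aa00000000000011004400aa, by decide +kernel⟩
noncomputable def g366 : TyP := ⟨It.A true 0 1 false true 8164, nat_lit 5, nat_lit 0x10004000000000000000001000400000000000000000100040000000000000000010004000000000000000001000400000000000000000100040000000000000000010004000000000000000100040000000000000000000000000000000000000000000000000000000000000001000400000000000000000000a000000a000000000000000005500aa, by decide +kernel⟩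
noncomputable def g367 : TyP := ⟨It.A true 0 2 false false 8166, nat_lit 5, nat_lit 0x10004001000400000aa00010004001000400000aa00010004001000400000aa00010004001000400000aa00010004001000400000aa00010004001000400000aa00010004001000400000aa01000400100040000000aa0000000000000000000000000000000000000000000000010004001000400000aa00010004001000400000aa00000000000000005500aa, by decide +kernel⟩
noncomputable def g368 : TyP := ⟨It.A true 1 3 false false 8164, nat_lit 99, nat_lit 0x10004001000400000aa00010004001000400000aa00010004001000400000aa00010004001000400000aa00010004001000400000aa00010004001000400000aa00010004001000400000aa00010004001000400000aa000000000000000000000000000000000000000000aa00010004001000400000aa00000000000000005500aa00000000000000005500aa, by decide +kernel⟩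

end Pool.Agent.H.MP_2e666d_lc.HS
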