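import Pool.Agent.H.MP_2e666d_lc.HCP

/-! # Types of items (generated) -/

set_option linter.all false

namespace Pool.Agent.H.MP_2e666d_lc.HS

open Pool.Agent.H.MP_2e666d_lc Pool.Agent.H.MP_2e666d_lc.T3

noncomputable def g369 : TyP := ⟨It.A true 2 1 true true 8190, nat_lit 99, nat_lit 0x114044000000000000000011404400000000000000001140440000000000000000114044000000000000000011404400000000000000001140440000000000000000114044000000000000000011404400000000000000000040000000000000000000004000000000000000000011404400000000000000000a405500a000000000000000005500aa, by decide +kernel⟩

end Pool.Agent.H.MP_2e666d_lc.HS
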