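import Pool.Agent.H.MP_2e666d_lc.HCP

/-! # Types of items (generated) -/

set_option linter.all false

namespace Pool.Agent.H.MP_2e666d_lc.HS

open Pool.Agent.H.MP_2e666d_lc Pool.Agent.H.MP_2e666d_lc.T3

noncomputable def g372 : TyP := ⟨It.A true 0 1 false true 3, nat_lit 99, nat_lit 0x100a400000a000000000001000405500aa, by decide +kernel⟩
noncomputable def g373 : TyP := ⟨It.A true 2 2 false true 8180, nat_lit 99, nat_lit 0x100a405500a00000000000100a405500a00000000000100a405500a00000000000100a405500a00000000000100a405500a00000000000100a405500a00000000000100a405500a00000000000100a405500a0000000000010004000000000000000000000000000000000000000100a405500a000000000000000005500aa00000000000000005500aa, by decide +kernel⟩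

end Pool.Agent.H.MP_2e666d_lc.HS
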