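import Pool.Agent.H.MP_2e666d_lc.HCP

/-! # Types of items (generated) -/

set_option linter.all false

namespace Pool.Agent.H.MP_2e666d_lc.HS

open Pool.Agent.H.MP_2e666d_lc Pool.Agent.H.MP_2e666d_lc.T3

noncomputable def g382 : TyP := ⟨It.A false 3 3 true false 1, nat_lit 99, nat_lit 0x5500aa00000000000000005500aa00000000000000005500aa00000000000000005500aa00000000000000005500aa00000000000000005500aa00000000000000005500aa00000000000000005500aa000000000000000000000000000000000011004400aa00000000000000005500aa00000000000000005500aa0000000008000000d500aa, by decide +kernel⟩
noncomputable def g383 : TyP := ⟨It.A false 1 2 true false 4096, nat_lit 99, nat_lit 0x80000008000aa00000000000000000000aa00000000000000000000aa00000000000000000000aa00000000000000000000aa00000000000000000000aa00000000000000000000aa00000000000000000000aa0000000000000000000000000000000000000000000000000000000000000000aa00000000000011004400aa00000000000000005500aa, by decide +kernel⟩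
noncomputable def g384 : TyP := ⟨It.A true 1 1 false true 64, nat_lit 99, nat_lit 0x10004000000000000000000000000000000000000000000000000000000000000000000000000000000000000000000000000000000000000a005500a000000000000000005500aa, by decide +kernel⟩
noncomputable def g385 : TyP := ⟨It.A true 0 1 false true 8166, nat_lit 5, nat_lit 0x10004000000000000000001000400000000000000000100040000000000000000010004000000000000000001000400000000000000000100040000000000000000010004000000000000000100040000000000000000000000000000000000000000000000000000000000000001000400000000000000000100a400000a000000000000000005500aa, by decide +kernel⟩
noncomputable def g386 : TyP := ⟨It.A true 1 1 false true 8166, nat_lit 5, nat_lit 0x10004000000000000000001000400000000000000000100040000000000000000010004000000000000000001000400000000000000000100040000000000000000010004000000000000000100040000000000000000000000000000000000000000000000000000000000000001000400000000000000000100a405500a000000000000000005500aa, by decide +kernel⟩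
noncomputable def g387 : TyP := ⟨It.A false 0 1 true false 128, nat_lit 99, nat_lit 0x80000008000000000000000000000000000000000000000000000000000000000000000000000000000000000000000000000000000000000000000000000000000000000000000aa00000000000011004400aa, by decide +kernel⟩

end Pool.Agent.H.MP_2e666d_lc.HS
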