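import Pool.Agent.H.MP_2e666d_lc.HCP

/-! # Types of items (generated) -/

set_option linter.all false

namespace Pool.Agent.H.MP_2e666d_lc.HS

open Pool.Agent.H.MP_2e666d_lc Pool.Agent.H.MP_2e666d_lc.T3

noncomputable def g388 : TyP := ⟨It.A true 1 0 true false 1, nat_lit 99, nat_lit 0x110044000000000004000000405500aa, by decide +kernel⟩
noncomputable def g389 : TyP := ⟨It.A true 1 2 false false 16, nat_lit 99, nat_lit 0xaa00000000000000000000aa00000000000000000000aa00000000000000000000aa00000000000000000000aa00000000000000000000aa00000000000000000000aa00000000000000000000aa0001000400100040000000000000000000000000000000000000000000000000aa00000000000000005500aa00000000000000005500aa, by decide +kernel⟩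
noncomputable def g390 : TyP := ⟨It.A false 0 3 true false 8172, nat_lit 99, nat_lit 0x80000008000aa00000000080000008000aa00000000080000008000aa00000000080000008000aa00000000080000008000aa00000000080000008000aa00000000080000008000aa00000000080000008000aa000000000000000000000000000000080000008000aa00000000080000008000aa00000000000000000000aa00000000000011004400aa, by decide +kernel⟩

end Pool.Agent.H.MP_2e666d_lc.HS
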