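import Pool.Agent.H.MP_2e666d_lc.HCP

/-! # Types of items (generated) -/

set_option linter.all false

namespace Pool.Agent.H.MP_2e666d_lc.HS

open Pool.Agent.H.MP_2e666d_lc Pool.Agent.H.MP_2e666d_lc.T3

noncomputable def g394 : TyP := ⟨It.A false 0 1 true false 4096, nat_lit 99, nat_lit 0x8000000800000000000000000000000000000000000000000000000000000000000000000000000000000000000000000000000000000000000000000000000000000000000000000000000000000000000000000000000000000000000000000000000000000000000000000000000000000000000000000000000000000aa00000000000011004400aa, by decide +kernel⟩
noncomputable def g395 : TyP := ⟨It.A true 1 0 true false 8175, nat_lit 99, nat_lit 0x4000000400000000000000400000040000000000000040000004000000000000004000000400000000000000400000040000000000000040000004000000000000004000000400000000000000400000040000000000000000000000000000000000004000000400000000000000400000040000000000000040000114044000000000004000000405500aa, by decide +kernel⟩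

end Pool.Agent.H.MP_2e666d_lc.HS
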