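import Pool.Agent.H.MP_2e666d_lc.HCP

/-! # Types of items (generated) -/

set_option linter.all false

namespace Pool.Agent.H.MP_2e666d_lc.HS

open Pool.Agent.H.MP_2e666d_lc Pool.Agent.H.MP_2e666d_lc.T3

noncomputable def g397 : TyP := ⟨It.A false 1 1 true false 4096, nat_lit 99, nat_lit 0x8000000800000000000000000000000000000000000000000000000000000000000000000000000000000000000000000000000000000000000000000000000000000000000000000000000000000000000000000000000000000000000000000000000000000000000000000000000000000000000000000000011004400aa00000000000000005500aa, by decide +kernel⟩
noncomputable def g398 : TyP := ⟨It.A true 1 1 false false 4096, nat_lit 99, nat_lit 0x1000400100040000000000000000000000000000000000000000000000000000000000000000000000000000000000000000000000000000000000000000000000000000000000000000000000000000000000000000000000000000000000000000000000000000000000000000000000000000000000000000000000000005500aa00000000000000005500aa, by decide +kernel⟩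
noncomputable def g399 : TyP := ⟨It.A true 2 1 false false 4096, nat_lit 99, nat_lit 0x1000400100040550000000000000000000055000000000000000000005500000000000000000000550000000000000000000055000000000000000000005500000000000000000000550000000000000000000055000000000000000000000000000000000000000000000000000000000000000055000000000000000000005500aa00000000000000005500aa, by decide +kernel⟩
noncomputable def g400 : TyP := ⟨It.A true 0 1 false false 4096, nat_lit 99, nat_lit 0x1000400100040000000000000000000000000000000000000000000000000000000000000000000000000000000000000000000000000000000000000000000000000000000000000000000000000000000000000000000000000000000000000000000000000000000000000000000000000000000000000000000000000000000aa00000000000000005500aa, by decide +kernel⟩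
noncomputable def g401 : TyP := ⟨It.A false 1 1 true false 8183, nat_lit 99, nat_lit 0x800000080000000000000080000008000000000000008000000800000000000000800000080000000000000080000008000000000000008000000800000000000000800000080000000000000080000008000000000000008000000800000000000000000000000000000000000080000008000000000000008001100c400aa0000000008000000d500aa, by decide +kernel⟩
noncomputable def g402 : TyP := ⟨It.A false 0 0 true false 8182, nat_lit 99, nat_lit 0x80000008000000000000008000000800000000000000800000080000000000000080000008000000000000008000000800000000000000800000080000000000000080000008000000000000008000000800000000000000800000080000000000000000000000000000000000008000000800000000000000800000080000000000000000011004400aa, by decide +kernel⟩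

end Pool.Agent.H.MP_2e666d_lc.HS
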