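import Pool.Agent.H.MP_2e666d_lc.HCP

/-! # Types of items (generated) -/

set_option linter.all false

namespace Pool.Agent.H.MP_2e666d_lc.HS

open Pool.Agent.H.MP_2e666d_lc Pool.Agent.H.MP_2e666d_lc.T3

noncomputable def g410 : TyP := ⟨It.A false 1 1 true false 8164, nat_lit 5, nat_lit 0x8000000800000000000000800000080000000000000080000008000000000000008000000800000000000000800000080000000000000080000008000000000000008000000800000000000080000008000000000000000000000000000000000000000000000000000000000000800000080000000000000000011004400aa00000000000000005500aa, by decide +kernel⟩
noncomputable def g411 : TyP := ⟨It.A false 1 2 true true 1, nat_lit 99, nat_lit 0xa000000a00000000000000a000000a00000000000000a000000a00000000000000a000000a00000000000000a000000a00000000000000a000000a00000000000000a000000a00000000000000a000000a0000000000000000000000000000000000000000000000000000000000a000000a000000000000011004400aa0000000000000000d500aa, by decide +kernel⟩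
noncomputable def g412 : TyP := ⟨It.A true 1 1 false false 8166, nat_lit 99, nat_lit 0x1000400100040000000000100040010004000000000010004001000400000000001000400100040000000000100040010004000000000010004001000400000000001000400100040000000000100040010004000000000000000000000000000000000000000000000000000000100040010004000000000010004001000405500aa00000000000000005500aa, by decide +kernel⟩

end Pool.Agent.H.MP_2e666d_lc.HS
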