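import Pool.Agent.H.MP_2e666d_lc.HCP

/-! # Types of items (generated) -/

set_option linter.all false

namespace Pool.Agent.H.MP_2e666d_lc.HS

open Pool.Agent.H.MP_2e666d_lc Pool.Agent.H.MP_2e666d_lc.T3

noncomputable def g413 : TyP := ⟨It.A false 0 2 true false 4096, nat_lit 99, nat_lit 0x80000008000aa00000000000000000000aa00000000000000000000aa00000000000000000000aa00000000000000000000aa00000000000000000000aa00000000000000000000aa00000000000000000000aa0000000000000000000000000000000000000000000000000000000000000000aa00000000000000000000aa00000000000011004400aa, by decide +kernel⟩
noncomputable def g414 : TyP := ⟨It.A true 2 0 false false 4096, nat_lit 99, nat_lit 0x10004001000405500000000000000000000550000000000000000000055000000000000000000005500000000000000000000550000000000000000000055000000000000000000005500000000000000000000550000000000000000000000000000000000000000000000000000000000000000550000000000000000000055000000000000000000005500aa, by decide +kernel⟩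
noncomputable def g415 : TyP := ⟨It.A true 4 2 false false 16, nat_lit 99, nat_lit 0x5500aa00000000000000005500aa00000000000000005500aa00000000000000005500aa00000000000000005500aa00000000000000005500aa00000000000000005500aa00000000000000005500aa0001000400100040550000000000000000000055000000000000000000005500aa00000000000000005500aa00000000000000005500aa, by decide +kernel⟩

end Pool.Agent.H.MP_2e666d_lc.HS
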