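import Pool.Agent.H.MP_2e666d_lc.HCP

/-! # Types of items (generated) -/

set_option linter.all false

namespace Pool.Agent.H.MP_2e666d_lc.HS

open Pool.Agent.H.MP_2e666d_lc Pool.Agent.H.MP_2e666d_lc.T3

noncomputable def g282 : TyP := ⟨It.A false 1 1 true false 32, nat_lit 99, nat_lit 0x800000080000000000000000000000000000000000000000000000000000000000000000000000000000000000011004400aa00000000000000005500aa, by decide +kernel⟩
noncomputable def g283 : TyP := ⟨It.A true 1 1 false false 32, nat_lit 99, nat_lit 0x100040010004000000000000000000000000000000000000000000000000000000000000000000000000000000000000000005500aa00000000000000005500aa, by decide +kernel⟩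
noncomputable def g284 : TyP := ⟨It.A true 1 2 false false 8164, nat_lit 99, nat_lit 0x10004001000400000aa00010004001000400000aa00010004001000400000aa00010004001000400000aa00010004001000400000aa00010004001000400000aa00010004001000400000aa00010004001000400000aa0000000000000000000000000000000000000000000000010004001000400000aa00000000000000005500aa00000000000000005500aa, by decide +kernel⟩
noncomputable def g285 : TyP := ⟨It.A false 1 1 true false 8166, nat_lit 99, nat_lit 0x800000080000000000000080000008000000000000008000000800000000000000800000080000000000000080000008000000000000008000000800000000000000800000080000000000000080000008000000000000000000000000000000000000000000000000000000000080000008000000000000008001100c400aa00000000000000005500aa, by decide +kernel⟩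
noncomputable def g286 : TyP := ⟨It.A false 1 2 true false 3, nat_lit 99, nat_lit 0xaa00000000000000000000aa00000000000000000000aa00000000000000000000aa00000000000000000000aa00000000000000000000aa00000000000000000000aa00000000000000000000aa0000000000000000000000000000000000000000000000000000000000000000aa0000000008001100c400aa0000000008000000d500aa, by decide +kernel⟩
noncomputable def g287 : TyP := ⟨It.A false 1 2 true true 3, nat_lit 99, nat_lit 0xa000000a00000000000000a000000a00000000000000a000000a00000000000000a000000a00000000000000a000000a00000000000000a000000a00000000000000a000000a00000000000000a000000a0000000000000000000000000000000000000000000000000000000000a000000a00000000000001100c400aa0000000000000000d500aa, by decide +kernel⟩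
noncomputable def g288 : TyP := ⟨It.A false 2 3 true false 8172, nat_lit 99, nat_lit 0x8001100c400aa0000000008001100c400aa0000000008001100c400aa0000000008001100c400aa0000000008001100c400aa0000000008001100c400aa0000000008001100c400aa0000000008001100c400aa000000000000000000000000000000080000008000aa0000000008001100c400aa00000000000000005500aa00000000000000005500aa, by decide +kernel⟩
noncomputable def g289 : TyP := ⟨It.H 3, nat_lit 5, nat_lit 0x10000000000000000000001000000000000000000, by decide +kernel⟩
noncomputable def g290 : TyP := ⟨It.A true 1 1 false true 32, nat_lit 99, nat_lit 0x1000400000000000000000000000000000000000000000000000000000000000000000000000000000000000000a005500a000000000000000005500aa, by decide +kernel⟩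
noncomputable def g291 : TyP := ⟨It.A true 3 0 true false 2, nat_lit 99, nat_lit 0x5500000000000000000000550000000000000000000055000000000000000000005500000000000000000000550000000000000000000055000000000000000000005500000000000000000000550000000000000000000000000000000000000011004400000000000000000000550000000000040000004055000000000000000000005500aa, by decide +kernel⟩
noncomputable def g292 : TyP := ⟨It.A true 0 1 false false 8174, nat_lit 99, nat_lit 0x1000400100040000000000100040010004000000000010004001000400000000001000400100040000000000100040010004000000000010004001000400000000001000400100040000000000100040010004000000000000000000000000000000001000400100040000000000100040010004000000000010004001000400000aa00000000000000005500aa, by decide +kernel⟩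

end Pool.Agent.H.MP_2e666d_lc.HS
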