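import Pool.Agent.H.MP_2e666d_lc.HCP

/-! # Types of items (generated) -/

set_option linter.all false

namespace Pool.Agent.H.MP_2e666d_lc.HS

open Pool.Agent.H.MP_2e666d_lc Pool.Agent.H.MP_2e666d_lc.T3

noncomputable def g417 : TyP := ⟨It.A true 2 2 true false 1, nat_lit 99, nat_lit 0x11004400aa00000000000011004400aa00000000000011004400aa00000000000011004400aa00000000000011004400aa00000000000011004400aa00000000000011004400aa00000000000011004400aa0000000000000000000000000000000000000000000000000000000011004400aa00000000000000005500aa00000004000000405500aa, by decide +kernel⟩

end Pool.Agent.H.MP_2e666d_lc.HS
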