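import Pool.Agent.H.MP_2e666d_lc.HCP

/-! # Types of items (generated) -/

set_option linter.all false

namespace Pool.Agent.H.MP_2e666d_lc.HS

open Pool.Agent.H.MP_2e666d_lc Pool.Agent.H.MP_2e666d_lc.T3

noncomputable def g418 : TyP := ⟨It.A true 0 2 false false 8190, nat_lit 99, nat_lit 0x10004001000400000aa00010004001000400000aa00010004001000400000aa00010004001000400000aa00010004001000400000aa00010004001000400000aa00010004001000400000aa00010004001000400000aa0001000400100040000000000100040010004000000000010004001000400000aa00010004001000400000aa00000000000000005500aa, by decide +kernel⟩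

end Pool.Agent.H.MP_2e666d_lc.HS
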