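import Pool.Agent.H.MP_2e666d_lc.HCP

/-! # Types of items (generated) -/

set_option linter.all false

namespace Pool.Agent.H.MP_2e666d_lc.HS

open Pool.Agent.H.MP_2e666d_lc Pool.Agent.H.MP_2e666d_lc.T3

noncomputable def g304 : TyP := ⟨It.A false 1 2 true true 8190, nat_lit 99, nat_lit 0xa008000a00000000000000a008000a00000000000000a008000a00000000000000a008000a00000000000000a008000a00000000000000a008000a00000000000000a008000a00000000000000a008000a0000000000000000080000000000000000000008000000000000000000a008000a00000000000001100c400aa00000000000000005500aa, by decide +kernel⟩
noncomputable def g305 : TyP := ⟨It.A false 1 1 true false 8172, nat_lit 99, nat_lit 0x8000000800000000000000800000080000000000000080000008000000000000008000000800000000000000800000080000000000000080000008000000000000008000000800000000000000800000080000000000000000000000000000000000008000000800000000000000800000080000000000000000011004400aa00000000000000005500aa, by decide +kernel⟩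

end Pool.Agent.H.MP_2e666d_lc.HS
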