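import Pool.Agent.H.MP_2e666d_lc.HCP

/-! # Types of items (generated) -/

set_option linter.all false

namespace Pool.Agent.H.MP_2e666d_lc.HS

open Pool.Agent.H.MP_2e666d_lc Pool.Agent.H.MP_2e666d_lc.T3

noncomputable def g306 : TyP := ⟨It.A true 0 0 false false 1024, nat_lit 99, nat_lit 0x100040010004000000000000000000000000000000000000000000000000000000000000000000000000000000000000000000000000000000000000000000000000000000000000000000000000000000000000000000000000000000000000000000000000000000000000000000000000000005500aa, by decide +kernel⟩
noncomputable def g307 : TyP := ⟨It.A true 2 0 false false 8180, nat_lit 99, nat_lit 0x10004001000405500000001000400100040550000000100040010004055000000010004001000405500000001000400100040550000000100040010004055000000010004001000405500000001000400100040550000000100040010004000000000000000000000000000000001000400100040550000000000000000000055000000000000000000005500aa, by decide +kernel⟩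
noncomputable def g308 : TyP := ⟨It.A false 1 0 true false 2, nat_lit 99, nat_lit 0x8001100c4000000000000000000005500aa, by decide +kernel⟩
noncomputable def g309 : TyP := ⟨It.A false 0 0 true false 8190, nat_lit 99, nat_lit 0x80000008000000000000008000000800000000000000800000080000000000000080000008000000000000008000000800000000000000800000080000000000000080000008000000000000008000000800000000000000800000080000000000000080000008000000000000008000000800000000000000800000080000000000000000011004400aa, by decide +kernel⟩
noncomputable def g310 : TyP := ⟨It.A true 0 1 false false 3, nat_lit 99, nat_lit 0x10004001000400000aa00010004001000405500aa, by decide +kernel⟩
noncomputable def g311 : TyP := ⟨It.A true 2 0 false false 8188, nat_lit 99, nat_lit 0x10004001000405500000001000400100040550000000100040010004055000000010004001000405500000001000400100040550000000100040010004055000000010004001000405500000001000400100040550000000100040010004000000000010004001000400000000001000400100040550000000000000000000055000000000000000000005500aa, by decide +kernel⟩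
noncomputable def g312 : TyP := ⟨It.A true 1 1 false false 64, nat_lit 99, nat_lit 0x1000400100040000000000000000000000000000000000000000000000000000000000000000000000000000000000000000000000000000000000000005500aa00000000000000005500aa, by decide +kernel⟩
noncomputable def g313 : TyP := ⟨It.A false 1 2 true true 2, nat_lit 99, nat_lit 0xa000000a00000000000000a000000a00000000000000a000000a00000000000000a000000a00000000000000a000000a00000000000000a000000a00000000000000a000000a00000000000000a000000a0000000000000000000000000000000000000000000000000000000000a000000a00000000000001100c400aa00000000000000005500aa, by decide +kernel⟩
noncomputable def g314 : TyP := ⟨It.A true 1 0 false false 8166, nat_lit 99, nat_lit 0x10004001000400000000001000400100040000000000100040010004000000000010004001000400000000001000400100040000000000100040010004000000000010004001000400000000001000400100040000000000000000000000000000000000000000000000000000001000400100040000000000100040010004055000000000000000000005500aa, by decide +kernel⟩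

end Pool.Agent.H.MP_2e666d_lc.HS
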