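import Pool.Agent.H.MP_2e666d_lc.HWM

/-! # Half signatures: compact pools of signatures, many slots

The signatures are given by numbers; the types of the items (item, kind of the next item, table of
the legal slots) are taken from a common list and the masks are evaluated by the kernel. -/

namespace Pool.Agent.H.MP_2e666d_lc.HW

open Pool.Agent.H.MP_2e666d_lc Pool.Agent.H.MP_2e666d_lc.T3 Pool.Agent.H.MP_2e666d_lc.HS

/-- the positions -/
noncomputable def posM (T : TyQ) : ℕ := mkW T.2.1 T.2.2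

/-- the mask of the letter `l` and the shift `k - 8` -/
noncomputable def orY (l k : ℕ) (Ts : List TyQ) : ℕ :=
  List.rec (motive := fun _ => ℕ) 0
    (fun T _ ih => Nat.rec (motive := fun _ => ℕ) ih
      (fun j _ => Nat.lor (Nat.mul (posM T) (Nat.succ j)) ih) (byY T.1.Y l k)) Ts

noncomputable def mkMl (Ts : List TyQ) (l : ℕ) : List (ℕ × ℕ) :=
  [(7, orY l 7 Ts), (8, orY l 8 Ts), (9, orY l 9 Ts), (10, orY l 10 Ts), (11, orY l 11 Ts),
   (12, orY l 12 Ts), (13, orY l 13 Ts), (14, orY l 14 Ts), (15, orY l 15 Ts), (16, orY l 16 Ts),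
   (17, orY l 17 Ts)]

/-- the masks -/
noncomputable def mkMs (Ts : List TyQ) : List (List (ℕ × ℕ)) :=
  [mkMl Ts 0, mkMl Ts 1, mkMl Ts 2, mkMl Ts 3, mkMl Ts 4, mkMl Ts 5, mkMl Ts 6, mkMl Ts 7,
   mkMl Ts 8, mkMl Ts 9, mkMl Ts 10, mkMl Ts 11, mkMl Ts 12]

/-- the numbers of the types of all positions; `g` = low or high byte -/
noncomputable def tyN (g : ℕ → ℕ) (Ts : List TyQ) : ℕ → ℕ :=
  List.rec (motive := fun _ => ℕ → ℕ) (fun _ => 0)
    (fun T _ ih t => Nat.lor (Nat.mul (posM T) (g t)) (ih (Nat.succ t))) Ts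

theorem tyD_ok : okTy It.E 0 0 = true := by decide +kernel

noncomputable def nthQ (Ts : List TyQ) : ℕ → TyQ :=
  List.rec (motive := fun _ => ℕ → TyQ) (fun _ => (⟨It.E, 0, 0, tyD_ok⟩, 0, 0))
    (fun m _ ih n => Nat.rec (motive := fun _ => TyQ) m (fun k _ => ih k) n) Ts

noncomputable def tyOkM (a : It) (e n : ℕ) (T : TyQ) : Bool :=
  andB (Nat.beq (Nat.mod (Nat.shiftRight (posM T) n) 2) 1)
    (andB (Nat.beq e T.1.e) (eqI a T.1.a))

/-- one pass over the items -/
noncomputable def passM (Ts : List TyQ) (N8 : ℕ) (its : List It) : ℕ → ℕ → ℕ → Bool :=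
  List.rec (motive := fun _ => ℕ → ℕ → ℕ → Bool) (fun _ _ n => Nat.beq n N8)
    (fun a r ih TY TZ n => Bool.rec (motive := fun _ => Bool) false
      (ih (Nat.div TY 256) (Nat.div TZ 256) (Nat.add n 8))
      (frc (fun t => tyOkM a (hdk It.ekT r) n (nthQ Ts t))
        (Nat.add (Nat.mod TY 256) (Nat.mul 256 (Nat.mod TZ 256))))) its

noncomputable def mapQ (Ts : List TyQ) : List (It × ℕ × ℕ) :=
  List.rec (motive := fun _ => List (It × ℕ × ℕ)) []
    (fun T _ ih => (T.1.a, T.1.e, posM T) :: ih) Ts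

noncomputable def termF (a : It) : Bool :=
  It.rec (motive := fun _ => Bool) (fun _ => false) (fun _ _ _ _ _ _ => false) (fun _ => false)
    (fun _ _ _ => false) (fun _ => true) (fun _ => true) true true a

noncomputable def orB (a b : Bool) : Bool := Bool.rec (motive := fun _ => Bool) b true a

/-- fast version of `chkStart` -/
noncomputable def staF (its : List It) : Bool → ℕ → Bool :=
  List.rec (motive := fun _ => Bool → ℕ → Bool) (fun _ M => Nat.beq M 0)
    (fun a _ ih t M => andB (orB (Nat.beq (Nat.mod M 256) 0)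
      (andB t (Nat.beq (Nat.mod M 256) 1))) (ih (termF a) (Nat.div M 256))) its

/-- fast version of `chkFinM` -/
noncomputable def finF (its : List It) : ℕ → Bool :=
  List.rec (motive := fun _ => ℕ → Bool) (fun M => Nat.beq M 0)
    (fun a _ ih M => andB (orB (Nat.beq (Nat.mod M 256) 0)
      (It.rec (motive := fun _ => Bool) (fun _ => false)
      (fun _ _ _ _ _ _ => false) (fun _ => false) (fun _ _ _ => false)
      (fun _ => Nat.beq (Nat.mod M 256) 2) (fun _ => Nat.beq (Nat.mod M 256) 2)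
      (Nat.beq (Nat.mod M 256) 1) false a)) (ih (Nat.div M 256))) its

/-- everything except for the nodes -/
noncomputable def chkPre (ss : List Sig) (os : List ℕ) (m st N8 : ℕ) (Ts : List TyQ)
    (root : List Cell) (tab : List RSt) (Bs : List ℕ) (TL : List (ℕ × ℕ)) (U : ℕ)
    (RT : List (ℕ × ℕ × ℕ)) (B : HT) : Bool :=
  andB (ss.all fun s => s.ok && s.marks)
    (andB (passM Ts N8 (items 5 6 ss) (tyN (fun t => Nat.mod t 256) Ts 0)
        (tyN (fun t => Nat.div t 256) Ts 0) 0)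
    (andB (disjF (onesF N8) (mapQ Ts) 0)
    (andB (chkOffs 5 6 ss os 0)
    (andB (staF (items 5 6 ss) true st)
    (andB (Nat.beq ss.length m)
    (andB (finF (items 5 6 ss) U)
    (andB (chkRT ss os m U TL RT)
    (andB (chkR tab)
    (andB (chkBs (mkMs Ts) Bs tab 0)
    (andB (chkRoot 5 6 root)
    (chkFM tab Bs root st B (B.get 0))))))))))))

/-! ### logical forms -/

theorem andB_and (a b : Bool) : andB a b = (a && b) := by cases a <;> rfl

theorem orB_or (a b : Bool) : orB a b = (a || b) := by cases a <;> rfl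

theorem okK_eq {a : It} {e l Y f : ℕ} : ∀ {k0 : ℕ}, okK a e l Y f k0 = true → ∀ k, k0 ≤ k →
    k < k0 + f → byY Y l k = Nat.land 255 (bfT a e l k) := by
  induction f with
  | zero => intro k0 _ k h1 h2; omega
  | succ f ih =>
    intro k0 h k h1 h2
    obtain ⟨h3, h4⟩ := andB_eq (a := Nat.beq (byY Y l k0) (Nat.land 255 (bfT a e l k0)))
      (b := okK a e l Y f (k0 + 1)) h
    by_cases hk : k = k0
    · rw [hk]; exact Nat.eq_of_beq_eq_true h3
    · exact ih h4 k (by omega) (by omega)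

theorem okL_eq {a : It} {e Y f : ℕ} : ∀ {l0 : ℕ}, okL a e Y f l0 = true → ∀ l, l0 ≤ l →
    l < l0 + f → okK a e l Y 11 7 = true := by
  induction f with
  | zero => intro l0 _ l h1 h2; omega
  | succ f ih =>
    intro l0 h l h1 h2
    obtain ⟨h3, h4⟩ := andB_eq (a := okK a e l0 Y 11 7) (b := okL a e Y f (l0 + 1)) h
    by_cases hl : l = l0
    · rw [hl]; exact h3
    · exact ih h4 l (by omega) (by omega)

theorem okTy_eq {a : It} {e Y : ℕ} (h : okTy a e Y = true) {l k : ℕ} (hl : l < 13) (hk : 7 ≤ k)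
    (hk' : k < 18) : byY Y l k = Nat.land 255 (bfT a e l k) :=
  okK_eq (okL_eq h l (Nat.zero_le _) (by omega)) k hk (by omega)

theorem orY_cons (l k : ℕ) (T : TyQ) (Ts : List TyQ) :
    orY l k (T :: Ts) = Nat.lor (Nat.mul (posM T) (byY T.1.Y l k)) (orY l k Ts) := by
  have h1 : orY l k (T :: Ts) = Nat.rec (motive := fun _ => ℕ) (orY l k Ts)
      (fun j _ => Nat.lor (Nat.mul (posM T) (Nat.succ j)) (orY l k Ts)) (byY T.1.Y l k) := rfl
  rw [h1]
  cases byY T.1.Y l k with
  | zero =>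
    show orY l k Ts = (0 ||| orY l k Ts)
    rw [Nat.zero_or]
  | succ j => rfl

theorem mapQ_cons (T : TyQ) (Ts : List TyQ) :
    mapQ (T :: Ts) = (T.1.a, T.1.e, posM T) :: mapQ Ts := rfl

theorem orY_eq {l k : ℕ} (hl : l < 13) (hk : 7 ≤ k) (hk' : k < 18) (Ts : List TyQ) :
    orY l k Ts = orF bfT l k (mapQ Ts) := by
  induction Ts with
  | nil => rfl
  | cons T Ts ih =>
    rw [orY_cons, mapQ_cons, orF_cons, okTy_eq T.1.ok hl hk hk', ih]
    rfl

theorem chkLF_cons {Ts : List (It × ℕ × ℕ)} {l k M : ℕ} {ms : List (ℕ × ℕ)}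
    (h : M = orF bfT l k Ts) (h2 : chkLF bfT Ts l ms = true) :
    chkLF bfT Ts l ((k, M) :: ms) = true := by
  show Bool.rec (motive := fun _ => Bool) false (chkLF bfT Ts l ms)
    (Nat.beq (M &&& orF bfT l k Ts) M) = true
  have h3 : Nat.beq (M &&& orF bfT l k Ts) M = true := by
    rw [← h, Nat.and_self]
    exact Nat.beq_refl M
  rw [h3]
  exact h2

theorem chkLF_mk {l : ℕ} (hl : l < 13) (Ts : List TyQ) :
    chkLF bfT (mapQ Ts) l (mkMl Ts l) = true := by
  have key : ∀ k, 7 ≤ k → k < 18 → orY l k Ts = orF bfT l k (mapQ Ts) :=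
    fun k h1 h2 => orY_eq hl h1 h2 Ts
  unfold mkMl
  refine chkLF_cons (key _ (by norm_num) (by norm_num)) ?_
  refine chkLF_cons (key _ (by norm_num) (by norm_num)) ?_
  refine chkLF_cons (key _ (by norm_num) (by norm_num)) ?_
  refine chkLF_cons (key _ (by norm_num) (by norm_num)) ?_
  refine chkLF_cons (key _ (by norm_num) (by norm_num)) ?_
  refine chkLF_cons (key _ (by norm_num) (by norm_num)) ?_
  refine chkLF_cons (key _ (by norm_num) (by norm_num)) ?_
  refine chkLF_cons (key _ (by norm_num) (by norm_num)) ?_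
  refine chkLF_cons (key _ (by norm_num) (by norm_num)) ?_
  refine chkLF_cons (key _ (by norm_num) (by norm_num)) ?_
  refine chkLF_cons (key _ (by norm_num) (by norm_num)) ?_
  rfl

theorem chkAF_cons {Ts : List (It × ℕ × ℕ)} {l : ℕ} {ms : List (ℕ × ℕ)}
    {Ms : List (List (ℕ × ℕ))} (h : chkLF bfT Ts l ms = true)
    (h2 : chkAF bfT Ts Ms (l + 1) = true) : chkAF bfT Ts (ms :: Ms) l = true := by
  show Bool.rec (motive := fun _ => Bool) false (chkAF bfT Ts Ms (l + 1))
    (chkLF bfT Ts l ms) = true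
  rw [h]
  exact h2

theorem chkAF_mk (Ts : List TyQ) : chkAF bfT (mapQ Ts) (mkMs Ts) 0 = true := by
  unfold mkMs
  refine chkAF_cons (chkLF_mk (by norm_num) Ts) ?_
  refine chkAF_cons (chkLF_mk (by norm_num) Ts) ?_
  refine chkAF_cons (chkLF_mk (by norm_num) Ts) ?_
  refine chkAF_cons (chkLF_mk (by norm_num) Ts) ?_
  refine chkAF_cons (chkLF_mk (by norm_num) Ts) ?_
  refine chkAF_cons (chkLF_mk (by norm_num) Ts) ?_
  refine chkAF_cons (chkLF_mk (by norm_num) Ts) ?_
  refine chkAF_cons (chkLF_mk (by norm_num) Ts) ?_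
  refine chkAF_cons (chkLF_mk (by norm_num) Ts) ?_
  refine chkAF_cons (chkLF_mk (by norm_num) Ts) ?_
  refine chkAF_cons (chkLF_mk (by norm_num) Ts) ?_
  refine chkAF_cons (chkLF_mk (by norm_num) Ts) ?_
  refine chkAF_cons (chkLF_mk (by norm_num) Ts) ?_
  rfl

theorem nthQ_mem (Ts : List TyQ) (n : ℕ) :
    ((nthQ Ts n).1.a, (nthQ Ts n).1.e, posM (nthQ Ts n)) ∈ mapQ Ts ∨
      ((nthQ Ts n).1.a, (nthQ Ts n).1.e, posM (nthQ Ts n)) = (It.E, 0, 0) := by
  induction Ts generalizing n with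
  | nil => exact Or.inr rfl
  | cons m Ts ih =>
    cases n with
    | zero => exact Or.inl List.mem_cons_self
    | succ n =>
      rcases ih n with h | h
      · exact Or.inl (List.mem_cons_of_mem _ h)
      · exact Or.inr h

theorem tyOkM_eq {a : It} {e n : ℕ} {T : TyQ} (h : tyOkM a e n T = true) :
    T.1.a = a ∧ T.1.e = e ∧ (posM T).testBit n = true := by
  obtain ⟨h1, h'⟩ := andB_eq h
  obtain ⟨h2, h3⟩ := andB_eq h'
  refine ⟨(eqI_eq h3).symm, (Nat.eq_of_beq_eq_true h2).symm, ?_⟩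
  have h4 : (posM T >>> n) % 2 = 1 := Nat.eq_of_beq_eq_true h1
  rw [Nat.shiftRight_eq_div_pow] at h4
  rw [Nat.testBit_eq_decide_div_mod_eq, h4]
  rfl

theorem passM_eq {Ts : List TyQ} {N8 : ℕ} {its : List It} {TY TZ n : ℕ}
    (h : passM Ts N8 its TY TZ n = true) :
    N8 = n + 8 * its.length ∧ ∀ i < its.length, ∃ T, (T ∈ mapQ Ts ∨ T = (It.E, 0, 0)) ∧
      T.1 = its.getD i It.E ∧ T.2.1 = (its.getD (i + 1) It.E).ekT ∧
      T.2.2.testBit (n + 8 * i) = true := by
  induction its generalizing TY TZ n with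
  | nil =>
    have h' : Nat.beq n N8 = true := h
    refine ⟨by rw [Nat.eq_of_beq_eq_true h']; simp, ?_⟩
    intro i hi
    simp at hi
  | cons a r ih =>
    have h' : Bool.rec (motive := fun _ => Bool) false
      (passM Ts N8 r (Nat.div TY 256) (Nat.div TZ 256) (Nat.add n 8))
      (tyOkM a (hdk It.ekT r) n (nthQ Ts (Nat.add (Nat.mod TY 256)
        (Nat.mul 256 (Nat.mod TZ 256))))) = true := h
    generalize ht : Nat.add (Nat.mod TY 256) (Nat.mul 256 (Nat.mod TZ 256)) = t at h'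
    cases h1 : tyOkM a (hdk It.ekT r) n (nthQ Ts t) with
    | false => rw [h1] at h'; exact absurd (show false = true from h') (by decide)
    | true =>
      rw [h1] at h'
      obtain ⟨h2, h3⟩ := ih h'
      have e8 : Nat.add n 8 = n + 8 := rfl
      rw [e8] at h2 h3
      refine ⟨by rw [h2, List.length_cons]; ring, ?_⟩
      intro i hi
      cases i with
      | zero =>
        obtain ⟨q1, q2, q3⟩ := tyOkM_eq h1
        refine ⟨((nthQ Ts t).1.a, (nthQ Ts t).1.e, posM (nthQ Ts t)), nthQ_mem _ _, q1, ?_, q3⟩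
        show (nthQ Ts t).1.e = _
        rw [q2]
        cases r with
        | nil => rfl
        | cons b r => rfl
      | succ i =>
        obtain ⟨T, t1, t2, t3, t4⟩ := h3 i (by rw [List.length_cons] at hi; omega)
        refine ⟨T, t1, t2, t3, ?_⟩
        rw [show n + 8 * (i + 1) = n + 8 + 8 * i by ring]
        exact t4

theorem ms_fast2 {bf : It → ℕ → ℕ → ℕ → ℕ} {ek : It → ℕ}
    (hbf : ∀ (a b : It) (l k x : ℕ), l < 13 → x < 8 → (bf a (ek b) l k).testBit x = true →
      8 ≤ x + k ∧ x + k - 8 ∈ tr a b l x)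
    {Ts : List (It × ℕ × ℕ)} {N8 : ℕ} {its : List It} {Ms : List (List (ℕ × ℕ))}
    (p1 : N8 = 8 * its.length)
    (p2 : ∀ i < its.length, ∃ T, (T ∈ Ts ∨ T = (It.E, 0, 0)) ∧
      T.1 = its.getD i It.E ∧ T.2.1 = ek (its.getD (i + 1) It.E) ∧
      T.2.2.testBit (8 * i) = true)
    (h2 : disjF (onesF N8) Ts 0 = true) (h3 : chkAF bf Ts Ms 0 = true) :
    chkMs its 0 Ms = true := by
  refine (chkAF_imp ?_ h3).2
  intro l k M hl hM
  apply chkM_of
  intro n x hx hb
  rw [← hM, Nat.testBit_and, Bool.and_eq_true] at hb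
  obtain ⟨T, hT, hTb⟩ := orF_bit hb.2
  have hone : T.2.2 &&& onesF N8 = T.2.2 := by
    apply Nat.eq_of_testBit_eq
    intro j
    rw [Nat.testBit_and]
    cases hj : T.2.2.testBit j with
    | false => rfl
    | true => rw [(disjF_acc h2 hT hj).2]; rfl
  rw [p1] at hone
  have h255 : 255 &&& bf T.1 T.2.1 l k < 256 := by
    have := @Nat.and_le_left 255 (bf T.1 T.2.1 l k)
    omega
  rw [mul_bit h255 hone hx, Bool.and_eq_true, Nat.testBit_and, Bool.and_eq_true] at hTb
  obtain ⟨b1, b2, b3⟩ := hTb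
  have hn : n < its.length := by
    have := (disjF_acc h2 hT b1).2
    rw [p1] at this
    have h0 := ones_bit (n := its.length) (i := n) (x := 0) (by norm_num)
    rw [Nat.add_zero, this] at h0
    simpa using h0.symm
  obtain ⟨T', t1, t2, t3, t4⟩ := p2 n hn
  have hT' : T' ∈ Ts := by
    rcases t1 with t1 | t1
    · exact t1
    · rw [t1] at t4
      simp at t4
  have : T = T' := disjF_uniq h2 hT hT' b1 t4
  subst this
  refine ⟨hn, ?_⟩
  rw [t2, t3] at b3
  exact hbf _ _ _ _ _ hl hx b3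

theorem ms_fastM {Ts : List TyQ} {N8 TY TZ : ℕ} {its : List It}
    (h : passM Ts N8 its TY TZ 0 = true) (h2 : disjF (onesF N8) (mapQ Ts) 0 = true) :
    chkMs its 0 (mkMs Ts) = true := by
  obtain ⟨p1, p2⟩ := passM_eq h
  rw [Nat.zero_add] at p1
  refine ms_fast2 (ek := It.ekT) (fun _ _ _ _ _ hl hx hb => bfT_sound hl hx hb) p1 ?_ h2
    (chkAF_mk Ts)
  intro i hi
  obtain ⟨T, t1, t2, t3, t4⟩ := p2 i hi
  rw [Nat.zero_add] at t4
  exact ⟨T, t1, t2, t3, t4⟩

theorem staF_eq (its : List It) : ∀ (t : Bool) (M : ℕ), staF its t M = chkStart t its M := by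
  induction its with
  | nil => intro t M; rfl
  | cons a r ih =>
    intro t M
    have h1 : staF (a :: r) t M = andB (orB (Nat.beq (Nat.mod M 256) 0)
      (andB t (Nat.beq (Nat.mod M 256) 1))) (staF r (termF a) (Nat.div M 256)) := rfl
    have h2 : termF a = a.term := by cases a <;> rfl
    rw [h1, ih, andB_and, orB_or, andB_and, h2, chkStart]
    rfl

theorem finF_eq (its : List It) : ∀ M : ℕ, finF its M = chkFinM its M := by
  induction its with
  | nil => intro M; rfl
  | cons a r ih =>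
    intro M
    have h1 : finF (a :: r) M = andB (orB (Nat.beq (Nat.mod M 256) 0)
      (It.rec (motive := fun _ => Bool) (fun _ => false)
      (fun _ _ _ _ _ _ => false) (fun _ => false) (fun _ _ _ => false)
      (fun _ => Nat.beq (Nat.mod M 256) 2) (fun _ => Nat.beq (Nat.mod M 256) 2)
      (Nat.beq (Nat.mod M 256) 1) false a)) (finF r (Nat.div M 256)) := rfl
    rw [h1, ih, andB_and, orB_or, chkFinM]
    rfl

/-- **Soundness of a compact learned class certificate** -/
theorem hs_leafM {ss : List Sig} {os : List ℕ} {m st N8 : ℕ} {Ts : List TyQ}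
    {root : List Cell} {tab : List RSt} {Bs : List ℕ} {TL : List (ℕ × ℕ)} {U : ℕ}
    {RT : List (ℕ × ℕ × ℕ)} {B : HT} {KS : List (List ℕ)} {f : ℕ}
    (h : andB (chkPre ss os m st N8 Ts root tab Bs TL U RT B)
      (chkTM (mkMs Ts) KS RT Bs tab (finL ss os m TL) B f B) = true) :
    ∀ D, Inst false root D → Comp (D.map vl) 40 0 0 0 := by
  obtain ⟨h, hc⟩ := andB_eq h
  obtain ⟨h1, h⟩ := andB_eq h
  obtain ⟨h2, h⟩ := andB_eq h
  obtain ⟨h3, h⟩ := andB_eq h
  obtain ⟨h4, h⟩ := andB_eq h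
  obtain ⟨h5, h⟩ := andB_eq h
  obtain ⟨h6, h⟩ := andB_eq h
  obtain ⟨h7, h⟩ := andB_eq h
  obtain ⟨h8, h⟩ := andB_eq h
  obtain ⟨h9, h⟩ := andB_eq h
  obtain ⟨h10, h⟩ := andB_eq h
  obtain ⟨h11, h12⟩ := andB_eq h
  exact hs_classM (tab := tab) (B := B) rfl h1 (ms_fastM h2 h3) h4 (by rw [← staF_eq]; exact h5)
    (Nat.eq_of_beq_eq_true h6) (by rw [← finF_eq]; exact h7) h8 h9 h10 h11 h12 hc

theorem hs_leafM2 {ss : List Sig} {os : List ℕ} {m st N8 : ℕ} {Ts : List TyQ}
    {root : List Cell} {tab : List RSt} {Bs : List ℕ} {TL : List (ℕ × ℕ)} {U : ℕ}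
    {RT : List (ℕ × ℕ × ℕ)} {B : HT} {KS : List (List ℕ)} {f : ℕ}
    (h : chkPre ss os m st N8 Ts root tab Bs TL U RT B = true)
    (hc : chkTM (mkMs Ts) KS RT Bs tab (finL ss os m TL) B f B = true) :
    ∀ D, Inst false root D → Comp (D.map vl) 40 0 0 0 := by
  refine hs_leafM (ss := ss) (os := os) (m := m) (st := st) (N8 := N8) (Ts := Ts) (tab := tab)
    (Bs := Bs) (TL := TL) (U := U) (RT := RT) (B := B) (KS := KS) (f := f) ?_
  rw [h, hc]
  rfl

end Pool.Agent.H.MP_2e666d_lc.HW
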