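import Pool.Agent.H.MP_2e666d_lc.HeABA00rabba_0
import Pool.Agent.H.MP_2e666d_lc.HeABA00rabba_1
import Pool.Agent.H.MP_2e666d_lc.HeABA00rabba_2
import Pool.Agent.H.MP_2e666d_lc.HeABA00rabba_3
import Pool.Agent.H.MP_2e666d_lc.HeABA00rabba_4
import Pool.Agent.H.MP_2e666d_lc.HeABA00rabba_5
import Pool.Agent.H.MP_2e666d_lc.HeABA00rabba_6
import Pool.Agent.H.MP_2e666d_lc.HeABA00rabba_7
import Pool.Agent.H.MP_2e666d_lc.HeABA00rabba_8
import Pool.Agent.H.MP_2e666d_lc.HeABA00rabba_9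
import Pool.Agent.H.MP_2e666d_lc.HeABA00rabba_10
import Pool.Agent.H.MP_2e666d_lc.HeABA00rabba_11
import Pool.Agent.H.MP_2e666d_lc.HeABA00rabba_12
import Pool.Agent.H.MP_2e666d_lc.HeABA00rabba_13
import Pool.Agent.H.MP_2e666d_lc.HeABA00rabba_14
import Pool.Agent.H.MP_2e666d_lc.HeABA00rabba_15
import Pool.Agent.H.MP_2e666d_lc.HeABA00rabba_16
import Pool.Agent.H.MP_2e666d_lc.HeABA00rabba_17
import Pool.Agent.H.MP_2e666d_lc.HeABA00rabba_18
import Pool.Agent.H.MP_2e666d_lc.HeABA00rabba_19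
import Pool.Agent.H.MP_2e666d_lc.HeABA00rabba_20
import Pool.Agent.H.MP_2e666d_lc.HeABA00rabba_21
import Pool.Agent.H.MP_2e666d_lc.HeABA00rabba_22
import Pool.Agent.H.MP_2e666d_lc.HeABA00rabba_23
import Pool.Agent.H.MP_2e666d_lc.HeABA00rabba_24
import Pool.Agent.H.MP_2e666d_lc.HeABA00rabba_25
import Pool.Agent.H.MP_2e666d_lc.HeABA00rabba_26
import Pool.Agent.H.MP_2e666d_lc.HeABA00rabba_27
import Pool.Agent.H.MP_2e666d_lc.HeABA00rabba_28
import Pool.Agent.H.MP_2e666d_lc.HeABA00rabba_29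
import Pool.Agent.H.MP_2e666d_lc.HeABA00rabba_30
import Pool.Agent.H.MP_2e666d_lc.HeABA00rabba_31

/-! # Certificate ABA00rabba (generated) -/

set_option maxRecDepth 100000
set_option linter.all false

namespace Pool.Agent.H.MP_2e666d_lc.HS

open Pool.Agent.H.MP_2e666d_lc Pool.Agent.H.MP_2e666d_lc.T3

namespace CABA00rabba

theorem h_pre : chkPre ss os (nat_lit 239) st (nat_lit 48888) Ts root tab Bs TL U RT B = true := by decide +kernel

theorem h_cert : chkTM (mkMs Ts) KS RT Bs tab (finL ss os (nat_lit 239) TL) B (nat_lit 10) B = true :=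
  (chkTM_node (chkTM_node (chkTM_node (chkTM_node (chkTM_node h_cert0 h_cert1) (chkTM_node h_cert2 h_cert3)) (chkTM_node (chkTM_node h_cert4 h_cert5) (chkTM_node h_cert6 h_cert7))) (chkTM_node (chkTM_node (chkTM_node h_cert8 h_cert9) (chkTM_node h_cert10 h_cert11)) (chkTM_node (chkTM_node h_cert12 h_cert13) (chkTM_node h_cert14 h_cert15)))) (chkTM_node (chkTM_node (chkTM_node (chkTM_node h_cert16 h_cert17) (chkTM_node h_cert18 h_cert19)) (chkTM_node (chkTM_node h_cert20 h_cert21) (chkTM_node h_cert22 h_cert23))) (chkTM_node (chkTM_node (chkTM_node h_cert24 h_cert25) (chkTM_node h_cert26 h_cert27)) (chkTM_node (chkTM_node h_cert28 h_cert29) (chkTM_node h_cert30 h_cert31)))))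

theorem cls : ∀ D, Inst false root D → Comp (D.map vl) 40 0 0 0 :=
  hs_leafM2 h_pre h_cert

end CABA00rabba

end Pool.Agent.H.MP_2e666d_lc.HS
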