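import Pool.Agent.H.MP_2e666d_lc.HdABA00rbbcak1k1

/-! # Certificate ABA00rbbcak1k1 (generated): check, part 11 -/

set_option maxRecDepth 100000
set_option linter.all false

namespace Pool.Agent.H.MP_2e666d_lc.HS

open Pool.Agent.H.MP_2e666d_lc Pool.Agent.H.MP_2e666d_lc.T3

namespace CABA00rbbcak1k1

theorem h_cert11 : chkTM (mkMs Ts) KS RT Bs tab (finL ss os (nat_lit 306) TL) B (nat_lit 9) c11 = true := by decide +kernel

end CABA00rbbcak1k1

end Pool.Agent.H.MP_2e666d_lc.HS
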