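import Pool.Agent.H.MP_2e666d_lc.HeBAB00raabak1k1_0
import Pool.Agent.H.MP_2e666d_lc.HeBAB00raabak1k1_1
import Pool.Agent.H.MP_2e666d_lc.HeBAB00raabak1k1_2
import Pool.Agent.H.MP_2e666d_lc.HeBAB00raabak1k1_3
import Pool.Agent.H.MP_2e666d_lc.HeBAB00raabak1k1_4
import Pool.Agent.H.MP_2e666d_lc.HeBAB00raabak1k1_5
import Pool.Agent.H.MP_2e666d_lc.HeBAB00raabak1k1_6
import Pool.Agent.H.MP_2e666d_lc.HeBAB00raabak1k1_7
import Pool.Agent.H.MP_2e666d_lc.HeBAB00raabak1k1_8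
import Pool.Agent.H.MP_2e666d_lc.HeBAB00raabak1k1_9
import Pool.Agent.H.MP_2e666d_lc.HeBAB00raabak1k1_10
import Pool.Agent.H.MP_2e666d_lc.HeBAB00raabak1k1_11
import Pool.Agent.H.MP_2e666d_lc.HeBAB00raabak1k1_12
import Pool.Agent.H.MP_2e666d_lc.HeBAB00raabak1k1_13
import Pool.Agent.H.MP_2e666d_lc.HeBAB00raabak1k1_14
import Pool.Agent.H.MP_2e666d_lc.HeBAB00raabak1k1_15

/-! # Certificate BAB00raabak1k1 (generated) -/

set_option maxRecDepth 100000
set_option linter.all false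

namespace Pool.Agent.H.MP_2e666d_lc.HS

open Pool.Agent.H.MP_2e666d_lc Pool.Agent.H.MP_2e666d_lc.T3

namespace CBAB00raabak1k1

theorem h_pre : HW.chkPre ss os (nat_lit 339) st (nat_lit 65752) Ts root tab Bs TL U RT B = true := by decide +kernel

theorem h_cert : HW.chkTM (HW.mkMs Ts) KS RT Bs tab (finL ss os (nat_lit 339) TL) B (nat_lit 10) B = true :=
  (HW.chkTM_node (HW.chkTM_node (HW.chkTM_node (HW.chkTM_node h_cert0 h_cert1) (HW.chkTM_node h_cert2 h_cert3)) (HW.chkTM_node (HW.chkTM_node h_cert4 h_cert5) (HW.chkTM_node h_cert6 h_cert7))) (HW.chkTM_node (HW.chkTM_node (HW.chkTM_node h_cert8 h_cert9) (HW.chkTM_node h_cert10 h_cert11)) (HW.chkTM_node (HW.chkTM_node h_cert12 h_cert13) (HW.chkTM_node h_cert14 h_cert15))))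

theorem cls : ∀ D, Inst false root D → Comp (D.map vl) 40 0 0 0 :=
  HW.hs_leafM2 h_pre h_cert

end CBAB00raabak1k1

end Pool.Agent.H.MP_2e666d_lc.HS
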