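import Pool.Agent.H.MP_2e666d_lc.HeBAB00rbabak1k1k1k0k1k1k1_0
import Pool.Agent.H.MP_2e666d_lc.HeBAB00rbabak1k1k1k0k1k1k1_1
import Pool.Agent.H.MP_2e666d_lc.HeBAB00rbabak1k1k1k0k1k1k1_2
import Pool.Agent.H.MP_2e666d_lc.HeBAB00rbabak1k1k1k0k1k1k1_3
import Pool.Agent.H.MP_2e666d_lc.HeBAB00rbabak1k1k1k0k1k1k1_4
import Pool.Agent.H.MP_2e666d_lc.HeBAB00rbabak1k1k1k0k1k1k1_5
import Pool.Agent.H.MP_2e666d_lc.HeBAB00rbabak1k1k1k0k1k1k1_6
import Pool.Agent.H.MP_2e666d_lc.HeBAB00rbabak1k1k1k0k1k1k1_7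

/-! # Certificate BAB00rbabak1k1k1k0k1k1k1 (generated) -/

set_option maxRecDepth 100000
set_option linter.all false

namespace Pool.Agent.H.MP_2e666d_lc.HS

open Pool.Agent.H.MP_2e666d_lc Pool.Agent.H.MP_2e666d_lc.T3

namespace CBAB00rbabak1k1k1k0k1k1k1

theorem h_pre : HW.chkPre ss os (nat_lit 367) st (nat_lit 66200) Ts root tab Bs TL U RT B = true := by decide +kernel

theorem h_cert : HW.chkTM (HW.mkMs Ts) KS RT Bs tab (finL ss os (nat_lit 367) TL) B (nat_lit 8) B = true :=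
  (HW.chkTM_node (HW.chkTM_node (HW.chkTM_node h_cert0 h_cert1) (HW.chkTM_node h_cert2 h_cert3)) (HW.chkTM_node (HW.chkTM_node h_cert4 h_cert5) (HW.chkTM_node h_cert6 h_cert7)))

theorem cls : ∀ D, Inst false root D → Comp (D.map vl) 40 0 0 0 :=
  HW.hs_leafM2 h_pre h_cert

end CBAB00rbabak1k1k1k0k1k1k1

end Pool.Agent.H.MP_2e666d_lc.HS
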