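import Pool.Agent.H.MP_2e666d_lc.HdBAB00rbabbk1k1k1k1

/-! # Certificate BAB00rbabbk1k1k1k1 (generated): check, part 12 -/

set_option maxRecDepth 100000
set_option linter.all false

namespace Pool.Agent.H.MP_2e666d_lc.HS

open Pool.Agent.H.MP_2e666d_lc Pool.Agent.H.MP_2e666d_lc.T3

namespace CBAB00rbabbk1k1k1k1

theorem h_cert12 : chkTM (mkMs Ts) KS RT Bs tab (finL ss os (nat_lit 299) TL) B (nat_lit 8) c12 = true := by decide +kernel

end CBAB00rbabbk1k1k1k1

end Pool.Agent.H.MP_2e666d_lc.HS
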