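import Pool.Agent.H.MP_2e666d_lc.HeBAB00rbbbak0k1k0k1k1k1k1k1_0
import Pool.Agent.H.MP_2e666d_lc.HeBAB00rbbbak0k1k0k1k1k1k1k1_1
import Pool.Agent.H.MP_2e666d_lc.HeBAB00rbbbak0k1k0k1k1k1k1k1_2
import Pool.Agent.H.MP_2e666d_lc.HeBAB00rbbbak0k1k0k1k1k1k1k1_3
import Pool.Agent.H.MP_2e666d_lc.HeBAB00rbbbak0k1k0k1k1k1k1k1_4
import Pool.Agent.H.MP_2e666d_lc.HeBAB00rbbbak0k1k0k1k1k1k1k1_5
import Pool.Agent.H.MP_2e666d_lc.HeBAB00rbbbak0k1k0k1k1k1k1k1_6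
import Pool.Agent.H.MP_2e666d_lc.HeBAB00rbbbak0k1k0k1k1k1k1k1_7
import Pool.Agent.H.MP_2e666d_lc.HeBAB00rbbbak0k1k0k1k1k1k1k1_8
import Pool.Agent.H.MP_2e666d_lc.HeBAB00rbbbak0k1k0k1k1k1k1k1_9
import Pool.Agent.H.MP_2e666d_lc.HeBAB00rbbbak0k1k0k1k1k1k1k1_10
import Pool.Agent.H.MP_2e666d_lc.HeBAB00rbbbak0k1k0k1k1k1k1k1_11
import Pool.Agent.H.MP_2e666d_lc.HeBAB00rbbbak0k1k0k1k1k1k1k1_12
import Pool.Agent.H.MP_2e666d_lc.HeBAB00rbbbak0k1k0k1k1k1k1k1_13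
import Pool.Agent.H.MP_2e666d_lc.HeBAB00rbbbak0k1k0k1k1k1k1k1_14
import Pool.Agent.H.MP_2e666d_lc.HeBAB00rbbbak0k1k0k1k1k1k1k1_15
import Pool.Agent.H.MP_2e666d_lc.HeBAB00rbbbak0k1k0k1k1k1k1k1_16
import Pool.Agent.H.MP_2e666d_lc.HeBAB00rbbbak0k1k0k1k1k1k1k1_17
import Pool.Agent.H.MP_2e666d_lc.HeBAB00rbbbak0k1k0k1k1k1k1k1_18
import Pool.Agent.H.MP_2e666d_lc.HeBAB00rbbbak0k1k0k1k1k1k1k1_19
import Pool.Agent.H.MP_2e666d_lc.HeBAB00rbbbak0k1k0k1k1k1k1k1_20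
import Pool.Agent.H.MP_2e666d_lc.HeBAB00rbbbak0k1k0k1k1k1k1k1_21
import Pool.Agent.H.MP_2e666d_lc.HeBAB00rbbbak0k1k0k1k1k1k1k1_22
import Pool.Agent.H.MP_2e666d_lc.HeBAB00rbbbak0k1k0k1k1k1k1k1_23
import Pool.Agent.H.MP_2e666d_lc.HeBAB00rbbbak0k1k0k1k1k1k1k1_24
import Pool.Agent.H.MP_2e666d_lc.HeBAB00rbbbak0k1k0k1k1k1k1k1_25
import Pool.Agent.H.MP_2e666d_lc.HeBAB00rbbbak0k1k0k1k1k1k1k1_26
import Pool.Agent.H.MP_2e666d_lc.HeBAB00rbbbak0k1k0k1k1k1k1k1_27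
import Pool.Agent.H.MP_2e666d_lc.HeBAB00rbbbak0k1k0k1k1k1k1k1_28
import Pool.Agent.H.MP_2e666d_lc.HeBAB00rbbbak0k1k0k1k1k1k1k1_29
import Pool.Agent.H.MP_2e666d_lc.HeBAB00rbbbak0k1k0k1k1k1k1k1_30
import Pool.Agent.H.MP_2e666d_lc.HeBAB00rbbbak0k1k0k1k1k1k1k1_31

/-! # Certificate BAB00rbbbak0k1k0k1k1k1k1k1 (generated) -/

set_option maxRecDepth 100000
set_option linter.all false

namespace Pool.Agent.H.MP_2e666d_lc.HS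

open Pool.Agent.H.MP_2e666d_lc Pool.Agent.H.MP_2e666d_lc.T3

namespace CBAB00rbbbak0k1k0k1k1k1k1k1

theorem h_pre : chkPre ss os (nat_lit 246) st (nat_lit 55648) Ts root tab Bs TL U RT B = true := by decide +kernel

theorem h_cert : chkTM (mkMs Ts) KS RT Bs tab (finL ss os (nat_lit 246) TL) B (nat_lit 9) B = true :=
  (chkTM_node (chkTM_node (chkTM_node (chkTM_node (chkTM_node h_cert0 h_cert1) (chkTM_node h_cert2 h_cert3)) (chkTM_node (chkTM_node h_cert4 h_cert5) (chkTM_node h_cert6 h_cert7))) (chkTM_node (chkTM_node (chkTM_node h_cert8 h_cert9) (chkTM_node h_cert10 h_cert11)) (chkTM_node (chkTM_node h_cert12 h_cert13) (chkTM_node h_cert14 h_cert15)))) (chkTM_node (chkTM_node (chkTM_node (chkTM_node h_cert16 h_cert17) (chkTM_node h_cert18 h_cert19)) (chkTM_node (chkTM_node h_cert20 h_cert21) (chkTM_node h_cert22 h_cert23)))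 (chkTM_node (chkTM_node (chkTM_node h_cert24 h_cert25) (chkTM_node h_cert26 h_cert27)) (chkTM_node (chkTM_node h_cert28 h_cert29) (chkTM_node h_cert30 h_cert31)))))

theorem cls : ∀ D, Inst false root D → Comp (D.map vl) 40 0 0 0 :=
  hs_leafM2 h_pre h_cert

end CBAB00rbbbak0k1k0k1k1k1k1k1

end Pool.Agent.H.MP_2e666d_lc.HS
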