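import Pool.Agent.H.MP_2e666d_lc.HeBAB00rbbbak0k1k0k1k1k1k1k2_0
import Pool.Agent.H.MP_2e666d_lc.HeBAB00rbbbak0k1k0k1k1k1k1k2_1
import Pool.Agent.H.MP_2e666d_lc.HeBAB00rbbbak0k1k0k1k1k1k1k2_2
import Pool.Agent.H.MP_2e666d_lc.HeBAB00rbbbak0k1k0k1k1k1k1k2_3
import Pool.Agent.H.MP_2e666d_lc.HeBAB00rbbbak0k1k0k1k1k1k1k2_4
import Pool.Agent.H.MP_2e666d_lc.HeBAB00rbbbak0k1k0k1k1k1k1k2_5
import Pool.Agent.H.MP_2e666d_lc.HeBAB00rbbbak0k1k0k1k1k1k1k2_6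
import Pool.Agent.H.MP_2e666d_lc.HeBAB00rbbbak0k1k0k1k1k1k1k2_7
import Pool.Agent.H.MP_2e666d_lc.HeBAB00rbbbak0k1k0k1k1k1k1k2_8
import Pool.Agent.H.MP_2e666d_lc.HeBAB00rbbbak0k1k0k1k1k1k1k2_9
import Pool.Agent.H.MP_2e666d_lc.HeBAB00rbbbak0k1k0k1k1k1k1k2_10
import Pool.Agent.H.MP_2e666d_lc.HeBAB00rbbbak0k1k0k1k1k1k1k2_11
import Pool.Agent.H.MP_2e666d_lc.HeBAB00rbbbak0k1k0k1k1k1k1k2_12
import Pool.Agent.H.MP_2e666d_lc.HeBAB00rbbbak0k1k0k1k1k1k1k2_13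
import Pool.Agent.H.MP_2e666d_lc.HeBAB00rbbbak0k1k0k1k1k1k1k2_14
import Pool.Agent.H.MP_2e666d_lc.HeBAB00rbbbak0k1k0k1k1k1k1k2_15
import Pool.Agent.H.MP_2e666d_lc.HeBAB00rbbbak0k1k0k1k1k1k1k2_16
import Pool.Agent.H.MP_2e666d_lc.HeBAB00rbbbak0k1k0k1k1k1k1k2_17
import Pool.Agent.H.MP_2e666d_lc.HeBAB00rbbbak0k1k0k1k1k1k1k2_18
import Pool.Agent.H.MP_2e666d_lc.HeBAB00rbbbak0k1k0k1k1k1k1k2_19
import Pool.Agent.H.MP_2e666d_lc.HeBAB00rbbbak0k1k0k1k1k1k1k2_20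
import Pool.Agent.H.MP_2e666d_lc.HeBAB00rbbbak0k1k0k1k1k1k1k2_21
import Pool.Agent.H.MP_2e666d_lc.HeBAB00rbbbak0k1k0k1k1k1k1k2_22
import Pool.Agent.H.MP_2e666d_lc.HeBAB00rbbbak0k1k0k1k1k1k1k2_23
import Pool.Agent.H.MP_2e666d_lc.HeBAB00rbbbak0k1k0k1k1k1k1k2_24
import Pool.Agent.H.MP_2e666d_lc.HeBAB00rbbbak0k1k0k1k1k1k1k2_25
import Pool.Agent.H.MP_2e666d_lc.HeBAB00rbbbak0k1k0k1k1k1k1k2_26
import Pool.Agent.H.MP_2e666d_lc.HeBAB00rbbbak0k1k0k1k1k1k1k2_27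
import Pool.Agent.H.MP_2e666d_lc.HeBAB00rbbbak0k1k0k1k1k1k1k2_28
import Pool.Agent.H.MP_2e666d_lc.HeBAB00rbbbak0k1k0k1k1k1k1k2_29
import Pool.Agent.H.MP_2e666d_lc.HeBAB00rbbbak0k1k0k1k1k1k1k2_30
import Pool.Agent.H.MP_2e666d_lc.HeBAB00rbbbak0k1k0k1k1k1k1k2_31
import Pool.Agent.H.MP_2e666d_lc.HeBAB00rbbbak0k1k0k1k1k1k1k2_32
import Pool.Agent.H.MP_2e666d_lc.HeBAB00rbbbak0k1k0k1k1k1k1k2_33
import Pool.Agent.H.MP_2e666d_lc.HeBAB00rbbbak0k1k0k1k1k1k1k2_34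
import Pool.Agent.H.MP_2e666d_lc.HeBAB00rbbbak0k1k0k1k1k1k1k2_35
import Pool.Agent.H.MP_2e666d_lc.HeBAB00rbbbak0k1k0k1k1k1k1k2_36
import Pool.Agent.H.MP_2e666d_lc.HeBAB00rbbbak0k1k0k1k1k1k1k2_37
import Pool.Agent.H.MP_2e666d_lc.HeBAB00rbbbak0k1k0k1k1k1k1k2_38
import Pool.Agent.H.MP_2e666d_lc.HeBAB00rbbbak0k1k0k1k1k1k1k2_39
import Pool.Agent.H.MP_2e666d_lc.HeBAB00rbbbak0k1k0k1k1k1k1k2_40
import Pool.Agent.H.MP_2e666d_lc.HeBAB00rbbbak0k1k0k1k1k1k1k2_41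
import Pool.Agent.H.MP_2e666d_lc.HeBAB00rbbbak0k1k0k1k1k1k1k2_42
import Pool.Agent.H.MP_2e666d_lc.HeBAB00rbbbak0k1k0k1k1k1k1k2_43
import Pool.Agent.H.MP_2e666d_lc.HeBAB00rbbbak0k1k0k1k1k1k1k2_44
import Pool.Agent.H.MP_2e666d_lc.HeBAB00rbbbak0k1k0k1k1k1k1k2_45
import Pool.Agent.H.MP_2e666d_lc.HeBAB00rbbbak0k1k0k1k1k1k1k2_46
import Pool.Agent.H.MP_2e666d_lc.HeBAB00rbbbak0k1k0k1k1k1k1k2_47
import Pool.Agent.H.MP_2e666d_lc.HeBAB00rbbbak0k1k0k1k1k1k1k2_48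
import Pool.Agent.H.MP_2e666d_lc.HeBAB00rbbbak0k1k0k1k1k1k1k2_49
import Pool.Agent.H.MP_2e666d_lc.HeBAB00rbbbak0k1k0k1k1k1k1k2_50
import Pool.Agent.H.MP_2e666d_lc.HeBAB00rbbbak0k1k0k1k1k1k1k2_51
import Pool.Agent.H.MP_2e666d_lc.HeBAB00rbbbak0k1k0k1k1k1k1k2_52
import Pool.Agent.H.MP_2e666d_lc.HeBAB00rbbbak0k1k0k1k1k1k1k2_53
import Pool.Agent.H.MP_2e666d_lc.HeBAB00rbbbak0k1k0k1k1k1k1k2_54
import Pool.Agent.H.MP_2e666d_lc.HeBAB00rbbbak0k1k0k1k1k1k1k2_55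
import Pool.Agent.H.MP_2e666d_lc.HeBAB00rbbbak0k1k0k1k1k1k1k2_56
import Pool.Agent.H.MP_2e666d_lc.HeBAB00rbbbak0k1k0k1k1k1k1k2_57
import Pool.Agent.H.MP_2e666d_lc.HeBAB00rbbbak0k1k0k1k1k1k1k2_58
import Pool.Agent.H.MP_2e666d_lc.HeBAB00rbbbak0k1k0k1k1k1k1k2_59
import Pool.Agent.H.MP_2e666d_lc.HeBAB00rbbbak0k1k0k1k1k1k1k2_60
import Pool.Agent.H.MP_2e666d_lc.HeBAB00rbbbak0k1k0k1k1k1k1k2_61
import Pool.Agent.H.MP_2e666d_lc.HeBAB00rbbbak0k1k0k1k1k1k1k2_62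
import Pool.Agent.H.MP_2e666d_lc.HeBAB00rbbbak0k1k0k1k1k1k1k2_63

/-! # Certificate BAB00rbbbak0k1k0k1k1k1k1k2 (generated) -/

set_option maxRecDepth 100000
set_option linter.all false

namespace Pool.Agent.H.MP_2e666d_lc.HS

open Pool.Agent.H.MP_2e666d_lc Pool.Agent.H.MP_2e666d_lc.T3

namespace CBAB00rbbbak0k1k0k1k1k1k1k2

theorem h_pre : HW.chkPre ss os (nat_lit 293) st (nat_lit 67584) Ts root tab Bs TL U RT B = true := by decide +kernel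

theorem h_cert : HW.chkTM (HW.mkMs Ts) KS RT Bs tab (finL ss os (nat_lit 293) TL) B (nat_lit 9) B = true :=
  (HW.chkTM_node (HW.chkTM_node (HW.chkTM_node (HW.chkTM_node (HW.chkTM_node (HW.chkTM_node h_cert0 h_cert1) (HW.chkTM_node h_cert2 h_cert3)) (HW.chkTM_node (HW.chkTM_node h_cert4 h_cert5) (HW.chkTM_node h_cert6 h_cert7))) (HW.chkTM_node (HW.chkTM_node (HW.chkTM_node h_cert8 h_cert9) (HW.chkTM_node h_cert10 h_cert11)) (HW.chkTM_node (HW.chkTM_node h_cert12 h_cert13) (HW.chkTM_node h_cert14 h_cert15)))) (HW.chkTM_node (HW.chkTM_node (HW.chkTM_node (HW.chkTM_node h_cert16 h_cert17) (HW.chkTM_node h_cert18 h_cert19)) (HW.chkTM_node (HW.chkTM_node h_cert20 h_cert21) (HW.chkTM_node h_cert22 h_cert23))) (HW.chkTM_node (HW.chkTM_node (HW.chkTM_node h_cert24 h_cert25) (HW.chkTM_node h_cert26 h_cert27))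 (HW.chkTM_node (HW.chkTM_node h_cert28 h_cert29) (HW.chkTM_node h_cert30 h_cert31))))) (HW.chkTM_node (HW.chkTM_node (HW.chkTM_node (HW.chkTM_node (HW.chkTM_node h_cert32 h_cert33) (HW.chkTM_node h_cert34 h_cert35)) (HW.chkTM_node (HW.chkTM_node h_cert36 h_cert37) (HW.chkTM_node h_cert38 h_cert39))) (HW.chkTM_node (HW.chkTM_node (HW.chkTM_node h_cert40 h_cert41) (HW.chkTM_node h_cert42 h_cert43)) (HW.chkTM_node (HW.chkTM_node h_cert44 h_cert45) (HW.chkTM_node h_cert46 h_cert47)))) (HW.chkTM_node (HW.chkTM_node (HW.chkTM_node (HW.chkTM_node h_cert48 h_cert49) (HW.chkTM_node h_cert50 h_cert51)) (HW.chkTM_node (HW.chkTM_node h_cert52 h_cert53) (HW.chkTM_node h_cert54 h_cert55))) (HW.chkTM_node (HW.chkTM_node (HW.chkTM_node h_cert56 h_cert57) (HW.chkTM_node h_cert58 h_cert59)) (HW.chkTM_node (HW.chkTM_node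 h_cert60 h_cert61) (HW.chkTM_node h_cert62 h_cert63))))))

theorem cls : ∀ D, Inst false root D → Comp (D.map vl) 40 0 0 0 :=
  HW.hs_leafM2 h_pre h_cert

end CBAB00rbbbak0k1k0k1k1k1k1k2

end Pool.Agent.H.MP_2e666d_lc.HS
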