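import Pool.Agent.H.MP_2e666d_lc.HeBAB00rbbbak0k1k1k1k0k1k2_0
import Pool.Agent.H.MP_2e666d_lc.HeBAB00rbbbak0k1k1k1k0k1k2_1
import Pool.Agent.H.MP_2e666d_lc.HeBAB00rbbbak0k1k1k1k0k1k2_2
import Pool.Agent.H.MP_2e666d_lc.HeBAB00rbbbak0k1k1k1k0k1k2_3

/-! # Certificate BAB00rbbbak0k1k1k1k0k1k2 (generated) -/

set_option maxRecDepth 100000
set_option linter.all false

namespace Pool.Agent.H.MP_2e666d_lc.HS

open Pool.Agent.H.MP_2e666d_lc Pool.Agent.H.MP_2e666d_lc.T3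

namespace CBAB00rbbbak0k1k1k1k0k1k2

theorem h_pre : chkPre ss os (nat_lit 164) st (nat_lit 39072) Ts root tab Bs TL U RT B = true := by decide +kernel

theorem h_cert : chkTM (mkMs Ts) KS RT Bs tab (finL ss os (nat_lit 164) TL) B (nat_lit 7) B = true :=
  (chkTM_node (chkTM_node h_cert0 h_cert1) (chkTM_node h_cert2 h_cert3))

theorem cls : ∀ D, Inst false root D → Comp (D.map vl) 40 0 0 0 :=
  hs_leafM2 h_pre h_cert

end CBAB00rbbbak0k1k1k1k0k1k2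

end Pool.Agent.H.MP_2e666d_lc.HS
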