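import Pool.Agent.H.MP_2e666d_lc.HeBAB00rbbbak0k1k1k1k1k2k2_0
import Pool.Agent.H.MP_2e666d_lc.HeBAB00rbbbak0k1k1k1k1k2k2_1
import Pool.Agent.H.MP_2e666d_lc.HeBAB00rbbbak0k1k1k1k1k2k2_2
import Pool.Agent.H.MP_2e666d_lc.HeBAB00rbbbak0k1k1k1k1k2k2_3
import Pool.Agent.H.MP_2e666d_lc.HeBAB00rbbbak0k1k1k1k1k2k2_4
import Pool.Agent.H.MP_2e666d_lc.HeBAB00rbbbak0k1k1k1k1k2k2_5
import Pool.Agent.H.MP_2e666d_lc.HeBAB00rbbbak0k1k1k1k1k2k2_6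
import Pool.Agent.H.MP_2e666d_lc.HeBAB00rbbbak0k1k1k1k1k2k2_7
import Pool.Agent.H.MP_2e666d_lc.HeBAB00rbbbak0k1k1k1k1k2k2_8
import Pool.Agent.H.MP_2e666d_lc.HeBAB00rbbbak0k1k1k1k1k2k2_9
import Pool.Agent.H.MP_2e666d_lc.HeBAB00rbbbak0k1k1k1k1k2k2_10
import Pool.Agent.H.MP_2e666d_lc.HeBAB00rbbbak0k1k1k1k1k2k2_11
import Pool.Agent.H.MP_2e666d_lc.HeBAB00rbbbak0k1k1k1k1k2k2_12
import Pool.Agent.H.MP_2e666d_lc.HeBAB00rbbbak0k1k1k1k1k2k2_13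
import Pool.Agent.H.MP_2e666d_lc.HeBAB00rbbbak0k1k1k1k1k2k2_14
import Pool.Agent.H.MP_2e666d_lc.HeBAB00rbbbak0k1k1k1k1k2k2_15

/-! # Certificate BAB00rbbbak0k1k1k1k1k2k2 (generated) -/

set_option maxRecDepth 100000
set_option linter.all false

namespace Pool.Agent.H.MP_2e666d_lc.HS

open Pool.Agent.H.MP_2e666d_lc Pool.Agent.H.MP_2e666d_lc.T3

namespace CBAB00rbbbak0k1k1k1k1k2k2

theorem h_pre : chkPre ss os (nat_lit 221) st (nat_lit 52360) Ts root tab Bs TL U RT B = true := by decide +kernel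

theorem h_cert : chkTM (mkMs Ts) KS RT Bs tab (finL ss os (nat_lit 221) TL) B (nat_lit 8) B = true :=
  (chkTM_node (chkTM_node (chkTM_node (chkTM_node h_cert0 h_cert1) (chkTM_node h_cert2 h_cert3)) (chkTM_node (chkTM_node h_cert4 h_cert5) (chkTM_node h_cert6 h_cert7))) (chkTM_node (chkTM_node (chkTM_node h_cert8 h_cert9) (chkTM_node h_cert10 h_cert11)) (chkTM_node (chkTM_node h_cert12 h_cert13) (chkTM_node h_cert14 h_cert15))))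

theorem cls : ∀ D, Inst false root D → Comp (D.map vl) 40 0 0 0 :=
  hs_leafM2 h_pre h_cert

end CBAB00rbbbak0k1k1k1k1k2k2

end Pool.Agent.H.MP_2e666d_lc.HS
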