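import Pool.Agent.H.MP_2e666d_lc.HeBAB00rbbbbk1k1k0k0_0
import Pool.Agent.H.MP_2e666d_lc.HeBAB00rbbbbk1k1k0k0_1

/-! # Certificate BAB00rbbbbk1k1k0k0 (generated) -/

set_option maxRecDepth 100000
set_option linter.all false

namespace Pool.Agent.H.MP_2e666d_lc.HS

open Pool.Agent.H.MP_2e666d_lc Pool.Agent.H.MP_2e666d_lc.T3

namespace CBAB00rbbbbk1k1k0k0

theorem h_pre : chkPre ss os (nat_lit 187) st (nat_lit 36608) Ts root tab Bs TL U RT B = true := by decide +kernel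

theorem h_cert : chkTM (mkMs Ts) KS RT Bs tab (finL ss os (nat_lit 187) TL) B (nat_lit 8) B = true :=
  (chkTM_node h_cert0 h_cert1)

theorem cls : ∀ D, Inst false root D → Comp (D.map vl) 40 0 0 0 :=
  hs_leafM2 h_pre h_cert

end CBAB00rbbbbk1k1k0k0

end Pool.Agent.H.MP_2e666d_lc.HS
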