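import Pool.Agent.H.MP_2e666d_lc.HSTree
import Pool.Agent.H.MP_2e666d_lc.FSCanon
import Pool.Agent.H.MP_2e666d_lc.HcAB00raa
import Pool.Agent.H.MP_2e666d_lc.HcAB00rab
import Pool.Agent.H.MP_2e666d_lc.HcAB00rba
import Pool.Agent.H.MP_2e666d_lc.HcAB00rbb

/-! # The class `clsAB 0 0` -/

set_option maxRecDepth 100000

namespace Pool.Agent.H.MP_2e666d_lc.HS

open Pool.Agent.H.MP_2e666d_lc Pool.Agent.H.MP_2e666d_lc.T3

def wAB00 : List (Option (ℕ × ℕ)) := [
  some (5, 3), some (4, 7), none, none, some (4, 9), none, none]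

theorem good_AB_00 : T3.Good 40 (clsAB 0 0) :=
  good_of_walk (is := wAB00) (rs := [
    CAB00raa.root,
    CAB00rab.root,
    CAB00rba.root,
    CAB00rbb.root])
    ⟨CAB00raa.cls,
    CAB00rab.cls,
    CAB00rba.cls,
    CAB00rbb.cls,
    trivial⟩
    (by decide +kernel) (by decide +kernel)

end Pool.Agent.H.MP_2e666d_lc.HS
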