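import Pool.Agent.H.MP_2e666d_lc.HSTree
import Pool.Agent.H.MP_2e666d_lc.FSCanon
import Pool.Agent.H.MP_2e666d_lc.HcAB010

/-! # The class `clsAB 0 1` (generated) -/

set_option maxRecDepth 100000

namespace Pool.Agent.H.MP_2e666d_lc.HS

open Pool.Agent.H.MP_2e666d_lc Pool.Agent.H.MP_2e666d_lc.T3

def wAB01 : List (Option (ℕ × ℕ)) := [
  none]

theorem good_AB_01 : T3.Good 40 (clsAB 0 1) :=
  good_of_walk (is := wAB01) (rs := [
    CAB010.AB01.r.root])
    ⟨CAB010.AB01.r.cls,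
    trivial⟩
    (by decide +kernel) (by decide +kernel)

end Pool.Agent.H.MP_2e666d_lc.HS
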