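import Pool.Agent.H.MP_2e666d_lc.HSTree
import Pool.Agent.H.MP_2e666d_lc.FSCanon
import Pool.Agent.H.MP_2e666d_lc.HcAB100
import Pool.Agent.H.MP_2e666d_lc.HcAB101
import Pool.Agent.H.MP_2e666d_lc.HcAB102
import Pool.Agent.H.MP_2e666d_lc.HcAB103
import Pool.Agent.H.MP_2e666d_lc.HcAB104

/-! # The class `clsAB 1 0` (generated) -/

set_option maxRecDepth 100000

namespace Pool.Agent.H.MP_2e666d_lc.HS

open Pool.Agent.H.MP_2e666d_lc Pool.Agent.H.MP_2e666d_lc.T3

def wAB10 : List (Option (ℕ × ℕ)) := [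
  some (4, 3), some (5, 7), none, some (3, 7), none, some (2, 11), none, some (5, 7),
  none, some (2, 7), none, some (5, 7), some (1, 5), none, some (2, 5), none,
  none, none, none, some (5, 9), some (9, 3), some (4, 8), none, some (2, 12),
  none, none, none, some (3, 3), none, some (5, 9), none, some (10, 9),
  some (2, 9), some (2, 12), none, some (2, 7), none, some (3, 20), none, some (5, 7),
  none, none, some (2, 16), some (6, 18), none, some (3, 5), none, none,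
  none, some (5, 16), none, none, some (3, 7), none, some (10, 20), some (2, 20),
  none, none, some (2, 21), none, some (4, 23), some (2, 20), none, none,
  some (2, 20), none, none, some (3, 20), none, none]

theorem good_AB_10 : T3.Good 40 (clsAB 1 0) :=
  good_of_walk (is := wAB10) (rs := [
    CAB100.AB10.raa.root,
    CAB100.AB10.raba.root,
    CAB100.AB10.rabba.root,
    CAB100.AB10.rabbba.root,
    CAB101.AB10.rabbbba.root,
    CAB101.AB10.rabbbbbaa.root,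
    CAB101.AB10.rabbbbbaba.root,
    CAB101.AB10.rabbbbbabb.root,
    CAB101.AB10.rabbbbbac.root,
    CAB102.AB10.rabbbbbb.root,
    CAB102.AB10.rbaaa.root,
    CAB102.AB10.rbaaba.root,
    CAB102.AB10.rbaabb.root,
    CAB102.AB10.rbab.root,
    CAB102.AB10.rbba.root,
    CAB102.AB10.rbbba.root,
    CAB102.AB10.rbbbbaaa.root,
    CAB102.AB10.rbbbbaaba.root,
    CAB103.AB10.rbbbbaabba.root,
    CAB103.AB10.rbbbbaabbba.root,
    CAB103.AB10.rbbbbaabbbb.root,
    CAB103.AB10.rbbbbabaa.root,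
    CAB103.AB10.rbbbbababa.root,
    CAB103.AB10.rbbbbababb.root,
    CAB103.AB10.rbbbbabac.root,
    CAB103.AB10.rbbbbabba.root,
    CAB103.AB10.rbbbbabbb.root,
    CAB103.AB10.rbbbbba.root,
    CAB103.AB10.rbbbbbbaa.root,
    CAB103.AB10.rbbbbbbab.root,
    CAB103.AB10.rbbbbbbba.root,
    CAB103.AB10.rbbbbbbbbaa.root,
    CAB103.AB10.rbbbbbbbbab.root,
    CAB104.AB10.rbbbbbbbbba.root,
    CAB104.AB10.rbbbbbbbbbb.root,
    CAB104.AB10.rbbbbbbca.root,
    CAB104.AB10.rbbbbbbcb.root])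
    ⟨CAB100.AB10.raa.cls,
    CAB100.AB10.raba.cls,
    CAB100.AB10.rabba.cls,
    CAB100.AB10.rabbba.cls,
    CAB101.AB10.rabbbba.cls,
    CAB101.AB10.rabbbbbaa.cls,
    CAB101.AB10.rabbbbbaba.cls,
    CAB101.AB10.rabbbbbabb.cls,
    CAB101.AB10.rabbbbbac.cls,
    CAB102.AB10.rabbbbbb.cls,
    CAB102.AB10.rbaaa.cls,
    CAB102.AB10.rbaaba.cls,
    CAB102.AB10.rbaabb.cls,
    CAB102.AB10.rbab.cls,
    CAB102.AB10.rbba.cls,
    CAB102.AB10.rbbba.cls,
    CAB102.AB10.rbbbbaaa.cls,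
    CAB102.AB10.rbbbbaaba.cls,
    CAB103.AB10.rbbbbaabba.cls,
    CAB103.AB10.rbbbbaabbba.cls,
    CAB103.AB10.rbbbbaabbbb.cls,
    CAB103.AB10.rbbbbabaa.cls,
    CAB103.AB10.rbbbbababa.cls,
    CAB103.AB10.rbbbbababb.cls,
    CAB103.AB10.rbbbbabac.cls,
    CAB103.AB10.rbbbbabba.cls,
    CAB103.AB10.rbbbbabbb.cls,
    CAB103.AB10.rbbbbba.cls,
    CAB103.AB10.rbbbbbbaa.cls,
    CAB103.AB10.rbbbbbbab.cls,
    CAB103.AB10.rbbbbbbba.cls,
    CAB103.AB10.rbbbbbbbbaa.cls,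
    CAB103.AB10.rbbbbbbbbab.cls,
    CAB104.AB10.rbbbbbbbbba.cls,
    CAB104.AB10.rbbbbbbbbbb.cls,
    CAB104.AB10.rbbbbbbca.cls,
    CAB104.AB10.rbbbbbbcb.cls,
    trivial⟩
    (by decide +kernel) (by decide +kernel)

end Pool.Agent.H.MP_2e666d_lc.HS
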