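import Pool.Agent.H.MP_2e666d_lc.HSTree
import Pool.Agent.H.MP_2e666d_lc.FSCanon
import Pool.Agent.H.MP_2e666d_lc.HcABA00raabak0k1
import Pool.Agent.H.MP_2e666d_lc.HcABA00raabak1k1
import Pool.Agent.H.MP_2e666d_lc.HcABA00raabb
import Pool.Agent.H.MP_2e666d_lc.HcABA00raaca
import Pool.Agent.H.MP_2e666d_lc.HcABA00raacb
import Pool.Agent.H.MP_2e666d_lc.HcABA00rabba
import Pool.Agent.H.MP_2e666d_lc.HcABA00rabbb
import Pool.Agent.H.MP_2e666d_lc.HcABA00rbabak0k1
import Pool.Agent.H.MP_2e666d_lc.HcABA00rbabak1k1k1k0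
import Pool.Agent.H.MP_2e666d_lc.HcABA00rbabak1k1k1k1
import Pool.Agent.H.MP_2e666d_lc.HcABA00rbabbk0
import Pool.Agent.H.MP_2e666d_lc.HcABA00rbabbk1
import Pool.Agent.H.MP_2e666d_lc.HcABA00rbacak0
import Pool.Agent.H.MP_2e666d_lc.HcABA00rbacak1k1k1k0
import Pool.Agent.H.MP_2e666d_lc.HcABA00rbacak1k1k1k1
import Pool.Agent.H.MP_2e666d_lc.HcABA00rbacbk0
import Pool.Agent.H.MP_2e666d_lc.HcABA00rbacbk1k1
import Pool.Agent.H.MP_2e666d_lc.HcABA00rbbbak0k1k1k0
import Pool.Agent.H.MP_2e666d_lc.HcABA00rbbbak0k1k1k1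
import Pool.Agent.H.MP_2e666d_lc.HcABA00rbbbak1k1k1k0
import Pool.Agent.H.MP_2e666d_lc.HcABA00rbbbak1k1k1k1
import Pool.Agent.H.MP_2e666d_lc.HcABA00rbbbb
import Pool.Agent.H.MP_2e666d_lc.HcABA00rbbcak0
import Pool.Agent.H.MP_2e666d_lc.HcABA00rbbcak1k1
import Pool.Agent.H.MP_2e666d_lc.HcABA00rbbcb
import Pool.Agent.H.MP_2e666d_lc.HmABA00x0
import Pool.Agent.H.MP_2e666d_lc.HmABA00x1
import Pool.Agent.H.MP_2e666d_lc.HmABA00x2

/-! # The class `clsABAf 0 0` -/

set_option maxRecDepth 100000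

namespace Pool.Agent.H.MP_2e666d_lc.HS

open Pool.Agent.H.MP_2e666d_lc Pool.Agent.H.MP_2e666d_lc.T3

def wABA00 : List (Option (ℕ × ℕ)) := [
  some (5, 3), some (4, 7), some (0, 5), none, some (1, 6), some (5, 11), some (5, 11), none, none, some (5, 13), none, none, none, some (1, 6), none, none, some (0, 5), none, some (1, 6), none, none, some (1, 6), none, none, some (4, 9), some (0, 7), none, some (1, 8), some (5, 13), some (5, 13), none, none, some (5, 15), none, some (5, 15), none, some (3, 19), none, none, some (5, 13), none, none, some (1, 8), some (5, 13), none, some (5, 15), none, some (5, 15), none, some (3, 19), none, none, some (5, 13), none, some (5, 15), none, none, some (0, 7), none, some (1, 8), some (5, 15), some (5, 15), none, some (5, 15), none, some (3, 19), none, none, some (3, 17), none, some (5, 17), none, some (3, 21), none, none, none, some (1, 8), some (5, 15), none, some (3, 17), none, none, none]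

theorem good_ABA_00 : T3.Good 40 (clsABAf 0 0) :=
  good_of_walk (is := wABA00) (rs := [
    CABA00raaa.root,
    CABA00raabak0k0.root,
    CABA00raabak0k1.root,
    CABA00raabak1k0.root,
    CABA00raabak1k1.root,
    CABA00raabb.root,
    CABA00raaca.root,
    CABA00raacb.root,
    CABA00raba.root,
    CABA00rabba.root,
    CABA00rabbb.root,
    CABA00rabca.root,
    CABA00rabcb.root,
    CABA00rbaa.root,
    CABA00rbabak0k0.root,
    CABA00rbabak0k1.root,
    CABA00rbabak1k0.root,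
    CABA00rbabak1k1k0.root,
    CABA00rbabak1k1k1k0.root,
    CABA00rbabak1k1k1k1.root,
    CABA00rbabbk0.root,
    CABA00rbabbk1.root,
    CABA00rbacak0.root,
    CABA00rbacak1k0.root,
    CABA00rbacak1k1k0.root,
    CABA00rbacak1k1k1k0.root,
    CABA00rbacak1k1k1k1.root,
    CABA00rbacbk0.root,
    CABA00rbacbk1k0.root,
    CABA00rbacbk1k1.root,
    CABA00rbba.root,
    CABA00rbbbak0k0.root,
    CABA00rbbbak0k1k0.root,
    CABA00rbbbak0k1k1k0.root,
    CABA00rbbbak0k1k1k1.root,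
    CABA00rbbbak1k0.root,
    CABA00rbbbak1k1k0.root,
    CABA00rbbbak1k1k1k0.root,
    CABA00rbbbak1k1k1k1.root,
    CABA00rbbbb.root,
    CABA00rbbcak0.root,
    CABA00rbbcak1k0.root,
    CABA00rbbcak1k1.root,
    CABA00rbbcb.root])
    ⟨CABA00raaa.cls,
    CABA00raabak0k0.cls,
    CABA00raabak0k1.cls,
    CABA00raabak1k0.cls,
    CABA00raabak1k1.cls,
    CABA00raabb.cls,
    CABA00raaca.cls,
    CABA00raacb.cls,
    CABA00raba.cls,
    CABA00rabba.cls,
    CABA00rabbb.cls,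
    CABA00rabca.cls,
    CABA00rabcb.cls,
    CABA00rbaa.cls,
    CABA00rbabak0k0.cls,
    CABA00rbabak0k1.cls,
    CABA00rbabak1k0.cls,
    CABA00rbabak1k1k0.cls,
    CABA00rbabak1k1k1k0.cls,
    CABA00rbabak1k1k1k1.cls,
    CABA00rbabbk0.cls,
    CABA00rbabbk1.cls,
    CABA00rbacak0.cls,
    CABA00rbacak1k0.cls,
    CABA00rbacak1k1k0.cls,
    CABA00rbacak1k1k1k0.cls,
    CABA00rbacak1k1k1k1.cls,
    CABA00rbacbk0.cls,
    CABA00rbacbk1k0.cls,
    CABA00rbacbk1k1.cls,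
    CABA00rbba.cls,
    CABA00rbbbak0k0.cls,
    CABA00rbbbak0k1k0.cls,
    CABA00rbbbak0k1k1k0.cls,
    CABA00rbbbak0k1k1k1.cls,
    CABA00rbbbak1k0.cls,
    CABA00rbbbak1k1k0.cls,
    CABA00rbbbak1k1k1k0.cls,
    CABA00rbbbak1k1k1k1.cls,
    CABA00rbbbb.cls,
    CABA00rbbcak0.cls,
    CABA00rbbcak1k0.cls,
    CABA00rbbcak1k1.cls,
    CABA00rbbcb.cls,
    trivial⟩
    (by decide +kernel) (by decide +kernel)

end Pool.Agent.H.MP_2e666d_lc.HS
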