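import Pool.Agent.H.MP_2e666d_lc.HSTree
import Pool.Agent.H.MP_2e666d_lc.FSCanon
import Pool.Agent.H.MP_2e666d_lc.HcABA10raa
import Pool.Agent.H.MP_2e666d_lc.HcABA10rab
import Pool.Agent.H.MP_2e666d_lc.HcABA10rba
import Pool.Agent.H.MP_2e666d_lc.HcABA10rbb

/-! # The class `clsABAf 1 0` -/

set_option maxRecDepth 100000

namespace Pool.Agent.H.MP_2e666d_lc.HS

open Pool.Agent.H.MP_2e666d_lc Pool.Agent.H.MP_2e666d_lc.T3

def wABA10 : List (Option (ℕ × ℕ)) := [
  some (5, 3), some (4, 7), none, none, some (4, 9), none, none]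

theorem good_ABA_10 : T3.Good 40 (clsABAf 1 0) :=
  good_of_walk (is := wABA10) (rs := [
    CABA10raa.root,
    CABA10rab.root,
    CABA10rba.root,
    CABA10rbb.root])
    ⟨CABA10raa.cls,
    CABA10rab.cls,
    CABA10rba.cls,
    CABA10rbb.cls,
    trivial⟩
    (by decide +kernel) (by decide +kernel)

end Pool.Agent.H.MP_2e666d_lc.HS
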