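import Pool.Agent.H.MP_2e666d_lc.HSTree
import Pool.Agent.H.MP_2e666d_lc.FSCanon
import Pool.Agent.H.MP_2e666d_lc.HcBAB00raabak1k1
import Pool.Agent.H.MP_2e666d_lc.HcBAB00raabbk1k1
import Pool.Agent.H.MP_2e666d_lc.HcBAB00raacb
import Pool.Agent.H.MP_2e666d_lc.HcBAB00rabbak0k1k1
import Pool.Agent.H.MP_2e666d_lc.HcBAB00rabbak1k1k1k0
import Pool.Agent.H.MP_2e666d_lc.HcBAB00rabbak1k1k1k1k0
import Pool.Agent.H.MP_2e666d_lc.HcBAB00rabbbk0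
import Pool.Agent.H.MP_2e666d_lc.HcBAB00rabbbk1
import Pool.Agent.H.MP_2e666d_lc.HcBAB00rabcb
import Pool.Agent.H.MP_2e666d_lc.HcBAB00rbabak0k1
import Pool.Agent.H.MP_2e666d_lc.HcBAB00rbabak1k1k0k0k1
import Pool.Agent.H.MP_2e666d_lc.HcBAB00rbabak1k1k0k1
import Pool.Agent.H.MP_2e666d_lc.HcBAB00rbabak1k1k1k0k0
import Pool.Agent.H.MP_2e666d_lc.HcBAB00rbabak1k1k1k0k1
import Pool.Agent.H.MP_2e666d_lc.HcBAB00rbabak1k1k1k1k1
import Pool.Agent.H.MP_2e666d_lc.HcBAB00rbabak1k1k1k1k2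
import Pool.Agent.H.MP_2e666d_lc.HcBAB00rbabbk1k1k0k0
import Pool.Agent.H.MP_2e666d_lc.HcBAB00rbabbk1k1k0k1
import Pool.Agent.H.MP_2e666d_lc.HcBAB00rbabbk1k1k1k0
import Pool.Agent.H.MP_2e666d_lc.HcBAB00rbabbk1k1k1k1
import Pool.Agent.H.MP_2e666d_lc.HcBAB00rbacbk1k1k1
import Pool.Agent.H.MP_2e666d_lc.HcBAB00rbbbak0k1k0k1k0b
import Pool.Agent.H.MP_2e666d_lc.HcBAB00rbbbak0k1k0k1k1k0k1k1
import Pool.Agent.H.MP_2e666d_lc.HcBAB00rbbbak0k1k0k1k1k0k1k2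
import Pool.Agent.H.MP_2e666d_lc.HcBAB00rbbbak0k1k0k1k1k0k2k1
import Pool.Agent.H.MP_2e666d_lc.HcBAB00rbbbak0k1k0k1k1k0k2k2
import Pool.Agent.H.MP_2e666d_lc.HcBAB00rbbbak0k1k0k1k1k1k1k0
import Pool.Agent.H.MP_2e666d_lc.HcBAB00rbbbak0k1k0k1k1k1k1k1
import Pool.Agent.H.MP_2e666d_lc.HcBAB00rbbbak0k1k0k1k1k1k1k2
import Pool.Agent.H.MP_2e666d_lc.HcBAB00rbbbak0k1k0k1k1k1k2k0
import Pool.Agent.H.MP_2e666d_lc.HcBAB00rbbbak0k1k0k1k1k1k2k1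
import Pool.Agent.H.MP_2e666d_lc.HcBAB00rbbbak0k1k0k1k1k1k2k2
import Pool.Agent.H.MP_2e666d_lc.HcBAB00rbbbak0k1k1k0
import Pool.Agent.H.MP_2e666d_lc.HcBAB00rbbbak0k1k1k1k0k1k1
import Pool.Agent.H.MP_2e666d_lc.HcBAB00rbbbak0k1k1k1k0k1k2
import Pool.Agent.H.MP_2e666d_lc.HcBAB00rbbbak0k1k1k1k0k2k2
import Pool.Agent.H.MP_2e666d_lc.HcBAB00rbbbak0k1k1k1k1k1k0
import Pool.Agent.H.MP_2e666d_lc.HcBAB00rbbbak0k1k1k1k1k1k1
import Pool.Agent.H.MP_2e666d_lc.HcBAB00rbbbak0k1k1k1k1k1k2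
import Pool.Agent.H.MP_2e666d_lc.HcBAB00rbbbak0k1k1k1k1k2k0
import Pool.Agent.H.MP_2e666d_lc.HcBAB00rbbbak0k1k1k1k1k2k2
import Pool.Agent.H.MP_2e666d_lc.HcBAB00rbbbak1k1k0k1
import Pool.Agent.H.MP_2e666d_lc.HcBAB00rbbbak1k1k1k0k0
import Pool.Agent.H.MP_2e666d_lc.HcBAB00rbbbak1k1k1k0k1k2k1
import Pool.Agent.H.MP_2e666d_lc.HcBAB00rbbbak1k1k1k0k2
import Pool.Agent.H.MP_2e666d_lc.HcBAB00rbbbak1k1k1k1k2
import Pool.Agent.H.MP_2e666d_lc.HcBAB00rbbbbk0k1k0k1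
import Pool.Agent.H.MP_2e666d_lc.HcBAB00rbbbbk0k1k1
import Pool.Agent.H.MP_2e666d_lc.HcBAB00rbbbbk1k1k0k0
import Pool.Agent.H.MP_2e666d_lc.HcBAB00rbbbbk1k1k0k1
import Pool.Agent.H.MP_2e666d_lc.HcBAB00rbbbbk1k1k1k0k0
import Pool.Agent.H.MP_2e666d_lc.HcBAB00rbbbbk1k1k1k0k2
import Pool.Agent.H.MP_2e666d_lc.HcBAB00rbbbbk1k1k1k1k0
import Pool.Agent.H.MP_2e666d_lc.HcBAB00rbbbbk1k1k1k1k1
import Pool.Agent.H.MP_2e666d_lc.HcBAB00rbbbbk1k1k1k1k2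
import Pool.Agent.H.MP_2e666d_lc.HcBAB00rbbcak0
import Pool.Agent.H.MP_2e666d_lc.HcBAB00rbbcbk1k1k1
import Pool.Agent.H.MP_2e666d_lc.HmBAB00x0
import Pool.Agent.H.MP_2e666d_lc.HmBAB00x1
import Pool.Agent.H.MP_2e666d_lc.HmBAB00x10
import Pool.Agent.H.MP_2e666d_lc.HmBAB00x11
import Pool.Agent.H.MP_2e666d_lc.HmBAB00x2
import Pool.Agent.H.MP_2e666d_lc.HmBAB00x3
import Pool.Agent.H.MP_2e666d_lc.HmBAB00x4
import Pool.Agent.H.MP_2e666d_lc.HmBAB00x5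
import Pool.Agent.H.MP_2e666d_lc.HmBAB00x6
import Pool.Agent.H.MP_2e666d_lc.HmBAB00x7
import Pool.Agent.H.MP_2e666d_lc.HmBAB00x8
import Pool.Agent.H.MP_2e666d_lc.HmBAB00x9

/-! # The class `clsBABf 0 0` -/

set_option maxRecDepth 100000

namespace Pool.Agent.H.MP_2e666d_lc.HS

open Pool.Agent.H.MP_2e666d_lc Pool.Agent.H.MP_2e666d_lc.T3

def wBAB00 : List (Option (ℕ × ℕ)) := [
  some (3, 3), some (4, 7), some (0, 5), none, some (1, 6), some (3, 11), some (3, 11), some (5, 9), none, none, none, some (5, 13), none, none, some (3, 11), none, some (5, 13), none, none, some (1, 6), none, none, some (0, 5), none, some (1, 6), some (3, 13), some (3, 13), some (3, 11), none, none, some (3, 15), none, none, some (5, 15), none, some (3, 15), none, some (3, 19), none, some (3, 19), none, none, some (3, 13), none, none, some (1, 6), none, none, some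 (4, 9), some (0, 7), none, some (1, 8), some (3, 13), some (3, 13), none, none, some (5, 15), none, some (3, 15), some (3, 17), some (7, 15), none, none, none, none, some (3, 19), some (7, 17), none, none, none, some (7, 17), none, none, none, some (3, 13), none, some (5, 15), none, some (3, 15), some (3, 17), none, none, some (3, 19), none, none, some (1, 8), some (3, 13), none, some (5, 15), none, some (3, 15), none, none, some (3, 13), none, some (5, 15), none, some (3, 15), some (2, 17), none, none, none, some (0, 7), none, some (1, 8), some (3, 15), some (3, 15), none, some (3, 17), some (3, 17), none, some (4, 13), none, some (4, 15), some (6, 15), none, some (7, 17), none, none, none, some (7, 17), none, none, none, some (7, 8), none, some (7, 13), none, none, none, some (7, 13), none, none, none, some (4, 13), none, some (4, 15),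 some (6, 15), none, some (7, 17), none, none, none, some (7, 17), none, none, none, some (6, 8), none, some (7, 13), none, none, none, some (7, 13), none, none, none, some (5, 17), none, some (3, 17), some (3, 19), some (7, 17), none, none, none, none, some (3, 21), some (7, 19), none, some (7, 8), none, none, some (2, 25), none, none, none, some (7, 19), none, some (7, 8), none, none, none, none, some (3, 15), some (3, 15), none, some (3, 17), some (3, 17), none, none, none, some (5, 17), none, some (3, 17), some (3, 19), none, none, some (3, 21), some (7, 19), none, none, none, some (7, 19), none, none, none, some (1, 8), some (3, 15), none, some (5, 17), none, some (3, 17), none, some (3, 21), some (7, 19), none, none, none, some (7, 19), none, none, none, some (3, 15), none, some (5, 17), none, some (3, 17), none, none]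

theorem good_BAB_00 : T3.Good 40 (clsBABf 0 0) :=
  good_of_walk (is := wBAB00) (rs := [
    CBAB00raaa.root,
    CBAB00raabak0k0k0.root,
    CBAB00raabak0k0k1.root,
    CBAB00raabak0k1.root,
    CBAB00raabak1k0.root,
    CBAB00raabak1k1.root,
    CBAB00raabbk0.root,
    CBAB00raabbk1k0.root,
    CBAB00raabbk1k1.root,
    CBAB00raaca.root,
    CBAB00raacb.root,
    CBAB00raba.root,
    CBAB00rabbak0k0k0.root,
    CBAB00rabbak0k0k1.root,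
    CBAB00rabbak0k1k0.root,
    CBAB00rabbak0k1k1.root,
    CBAB00rabbak1k0.root,
    CBAB00rabbak1k1k0.root,
    CBAB00rabbak1k1k1k0.root,
    CBAB00rabbak1k1k1k1k0.root,
    CBAB00rabbak1k1k1k1k1.root,
    CBAB00rabbbk0.root,
    CBAB00rabbbk1.root,
    CBAB00rabca.root,
    CBAB00rabcb.root,
    CBAB00rbaa.root,
    CBAB00rbabak0k0.root,
    CBAB00rbabak0k1.root,
    CBAB00rbabak1k0.root,
    CBAB00rbabak1k1k0k0k0b.root,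
    CBAB00rbabak1k1k0k0k1.root,
    CBAB00rbabak1k1k0k0k2.root,
    CBAB00rbabak1k1k0k1.root,
    CBAB00rbabak1k1k1k0k0.root,
    CBAB00rbabak1k1k1k0k1.root,
    CBAB00rbabak1k1k1k0k2.root,
    CBAB00rbabak1k1k1k1k0.root,
    CBAB00rbabak1k1k1k1k1.root,
    CBAB00rbabak1k1k1k1k2.root,
    CBAB00rbabbk0.root,
    CBAB00rbabbk1k0.root,
    CBAB00rbabbk1k1k0k0.root,
    CBAB00rbabbk1k1k0k1.root,
    CBAB00rbabbk1k1k1k0.root,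
    CBAB00rbabbk1k1k1k1.root,
    CBAB00rbacak0.root,
    CBAB00rbacak1k0.root,
    CBAB00rbacak1k1k0.root,
    CBAB00rbacak1k1k1.root,
    CBAB00rbacbk0.root,
    CBAB00rbacbk1k0.root,
    CBAB00rbacbk1k1k0k0.root,
    CBAB00rbacbk1k1k0k1.root,
    CBAB00rbacbk1k1k1.root,
    CBAB00rbba.root,
    CBAB00rbbbak0k0.root,
    CBAB00rbbbak0k1k0k0.root,
    CBAB00rbbbak0k1k0k1k0b.root,
    CBAB00rbbbak0k1k0k1k1k0k0.root,
    CBAB00rbbbak0k1k0k1k1k0k1k0.root,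
    CBAB00rbbbak0k1k0k1k1k0k1k1.root,
    CBAB00rbbbak0k1k0k1k1k0k1k2.root,
    CBAB00rbbbak0k1k0k1k1k0k2k0.root,
    CBAB00rbbbak0k1k0k1k1k0k2k1.root,
    CBAB00rbbbak0k1k0k1k1k0k2k2.root,
    CBAB00rbbbak0k1k0k1k1k1k0.root,
    CBAB00rbbbak0k1k0k1k1k1k1k0.root,
    CBAB00rbbbak0k1k0k1k1k1k1k1.root,
    CBAB00rbbbak0k1k0k1k1k1k1k2.root,
    CBAB00rbbbak0k1k0k1k1k1k2k0.root,
    CBAB00rbbbak0k1k0k1k1k1k2k1.root,
    CBAB00rbbbak0k1k0k1k1k1k2k2.root,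
    CBAB00rbbbak0k1k1k0.root,
    CBAB00rbbbak0k1k1k1k0k0.root,
    CBAB00rbbbak0k1k1k1k0k1k0.root,
    CBAB00rbbbak0k1k1k1k0k1k1.root,
    CBAB00rbbbak0k1k1k1k0k1k2.root,
    CBAB00rbbbak0k1k1k1k0k2k0.root,
    CBAB00rbbbak0k1k1k1k0k2k1.root,
    CBAB00rbbbak0k1k1k1k0k2k2.root,
    CBAB00rbbbak0k1k1k1k1k0.root,
    CBAB00rbbbak0k1k1k1k1k1k0.root,
    CBAB00rbbbak0k1k1k1k1k1k1.root,
    CBAB00rbbbak0k1k1k1k1k1k2.root,
    CBAB00rbbbak0k1k1k1k1k2k0.root,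
    CBAB00rbbbak0k1k1k1k1k2k1.root,
    CBAB00rbbbak0k1k1k1k1k2k2.root,
    CBAB00rbbbak1k0.root,
    CBAB00rbbbak1k1k0k0k0b.root,
    CBAB00rbbbak1k1k0k0k1.root,
    CBAB00rbbbak1k1k0k0k2.root,
    CBAB00rbbbak1k1k0k1.root,
    CBAB00rbbbak1k1k1k0k0.root,
    CBAB00rbbbak1k1k1k0k1k0.root,
    CBAB00rbbbak1k1k1k0k1k1.root,
    CBAB00rbbbak1k1k1k0k1k2k0.root,
    CBAB00rbbbak1k1k1k0k1k2k1.root,
    CBAB00rbbbak1k1k1k0k2.root,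
    CBAB00rbbbak1k1k1k1k0.root,
    CBAB00rbbbak1k1k1k1k1k0.root,
    CBAB00rbbbak1k1k1k1k1k1.root,
    CBAB00rbbbak1k1k1k1k1k2.root,
    CBAB00rbbbak1k1k1k1k2.root,
    CBAB00rbbbbk0k0.root,
    CBAB00rbbbbk0k1k0k0.root,
    CBAB00rbbbbk0k1k0k1.root,
    CBAB00rbbbbk0k1k1.root,
    CBAB00rbbbbk1k0.root,
    CBAB00rbbbbk1k1k0k0.root,
    CBAB00rbbbbk1k1k0k1.root,
    CBAB00rbbbbk1k1k1k0k0.root,
    CBAB00rbbbbk1k1k1k0k1.root,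
    CBAB00rbbbbk1k1k1k0k2.root,
    CBAB00rbbbbk1k1k1k1k0.root,
    CBAB00rbbbbk1k1k1k1k1.root,
    CBAB00rbbbbk1k1k1k1k2.root,
    CBAB00rbbcak0.root,
    CBAB00rbbcak1k0.root,
    CBAB00rbbcak1k1k0.root,
    CBAB00rbbcak1k1k1k0k0b.root,
    CBAB00rbbcak1k1k1k0k1.root,
    CBAB00rbbcak1k1k1k0k2.root,
    CBAB00rbbcak1k1k1k1k0.root,
    CBAB00rbbcak1k1k1k1k1.root,
    CBAB00rbbcak1k1k1k1k2.root,
    CBAB00rbbcbk0.root,
    CBAB00rbbcbk1k0.root,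
    CBAB00rbbcbk1k1k0.root,
    CBAB00rbbcbk1k1k1.root])
    ⟨CBAB00raaa.cls,
    CBAB00raabak0k0k0.cls,
    CBAB00raabak0k0k1.cls,
    CBAB00raabak0k1.cls,
    CBAB00raabak1k0.cls,
    CBAB00raabak1k1.cls,
    CBAB00raabbk0.cls,
    CBAB00raabbk1k0.cls,
    CBAB00raabbk1k1.cls,
    CBAB00raaca.cls,
    CBAB00raacb.cls,
    CBAB00raba.cls,
    CBAB00rabbak0k0k0.cls,
    CBAB00rabbak0k0k1.cls,
    CBAB00rabbak0k1k0.cls,
    CBAB00rabbak0k1k1.cls,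
    CBAB00rabbak1k0.cls,
    CBAB00rabbak1k1k0.cls,
    CBAB00rabbak1k1k1k0.cls,
    CBAB00rabbak1k1k1k1k0.cls,
    CBAB00rabbak1k1k1k1k1.cls,
    CBAB00rabbbk0.cls,
    CBAB00rabbbk1.cls,
    CBAB00rabca.cls,
    CBAB00rabcb.cls,
    CBAB00rbaa.cls,
    CBAB00rbabak0k0.cls,
    CBAB00rbabak0k1.cls,
    CBAB00rbabak1k0.cls,
    CBAB00rbabak1k1k0k0k0b.cls,
    CBAB00rbabak1k1k0k0k1.cls,
    CBAB00rbabak1k1k0k0k2.cls,
    CBAB00rbabak1k1k0k1.cls,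
    CBAB00rbabak1k1k1k0k0.cls,
    CBAB00rbabak1k1k1k0k1.cls,
    CBAB00rbabak1k1k1k0k2.cls,
    CBAB00rbabak1k1k1k1k0.cls,
    CBAB00rbabak1k1k1k1k1.cls,
    CBAB00rbabak1k1k1k1k2.cls,
    CBAB00rbabbk0.cls,
    CBAB00rbabbk1k0.cls,
    CBAB00rbabbk1k1k0k0.cls,
    CBAB00rbabbk1k1k0k1.cls,
    CBAB00rbabbk1k1k1k0.cls,
    CBAB00rbabbk1k1k1k1.cls,
    CBAB00rbacak0.cls,
    CBAB00rbacak1k0.cls,
    CBAB00rbacak1k1k0.cls,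
    CBAB00rbacak1k1k1.cls,
    CBAB00rbacbk0.cls,
    CBAB00rbacbk1k0.cls,
    CBAB00rbacbk1k1k0k0.cls,
    CBAB00rbacbk1k1k0k1.cls,
    CBAB00rbacbk1k1k1.cls,
    CBAB00rbba.cls,
    CBAB00rbbbak0k0.cls,
    CBAB00rbbbak0k1k0k0.cls,
    CBAB00rbbbak0k1k0k1k0b.cls,
    CBAB00rbbbak0k1k0k1k1k0k0.cls,
    CBAB00rbbbak0k1k0k1k1k0k1k0.cls,
    CBAB00rbbbak0k1k0k1k1k0k1k1.cls,
    CBAB00rbbbak0k1k0k1k1k0k1k2.cls,
    CBAB00rbbbak0k1k0k1k1k0k2k0.cls,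
    CBAB00rbbbak0k1k0k1k1k0k2k1.cls,
    CBAB00rbbbak0k1k0k1k1k0k2k2.cls,
    CBAB00rbbbak0k1k0k1k1k1k0.cls,
    CBAB00rbbbak0k1k0k1k1k1k1k0.cls,
    CBAB00rbbbak0k1k0k1k1k1k1k1.cls,
    CBAB00rbbbak0k1k0k1k1k1k1k2.cls,
    CBAB00rbbbak0k1k0k1k1k1k2k0.cls,
    CBAB00rbbbak0k1k0k1k1k1k2k1.cls,
    CBAB00rbbbak0k1k0k1k1k1k2k2.cls,
    CBAB00rbbbak0k1k1k0.cls,
    CBAB00rbbbak0k1k1k1k0k0.cls,
    CBAB00rbbbak0k1k1k1k0k1k0.cls,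
    CBAB00rbbbak0k1k1k1k0k1k1.cls,
    CBAB00rbbbak0k1k1k1k0k1k2.cls,
    CBAB00rbbbak0k1k1k1k0k2k0.cls,
    CBAB00rbbbak0k1k1k1k0k2k1.cls,
    CBAB00rbbbak0k1k1k1k0k2k2.cls,
    CBAB00rbbbak0k1k1k1k1k0.cls,
    CBAB00rbbbak0k1k1k1k1k1k0.cls,
    CBAB00rbbbak0k1k1k1k1k1k1.cls,
    CBAB00rbbbak0k1k1k1k1k1k2.cls,
    CBAB00rbbbak0k1k1k1k1k2k0.cls,
    CBAB00rbbbak0k1k1k1k1k2k1.cls,
    CBAB00rbbbak0k1k1k1k1k2k2.cls,
    CBAB00rbbbak1k0.cls,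
    CBAB00rbbbak1k1k0k0k0b.cls,
    CBAB00rbbbak1k1k0k0k1.cls,
    CBAB00rbbbak1k1k0k0k2.cls,
    CBAB00rbbbak1k1k0k1.cls,
    CBAB00rbbbak1k1k1k0k0.cls,
    CBAB00rbbbak1k1k1k0k1k0.cls,
    CBAB00rbbbak1k1k1k0k1k1.cls,
    CBAB00rbbbak1k1k1k0k1k2k0.cls,
    CBAB00rbbbak1k1k1k0k1k2k1.cls,
    CBAB00rbbbak1k1k1k0k2.cls,
    CBAB00rbbbak1k1k1k1k0.cls,
    CBAB00rbbbak1k1k1k1k1k0.cls,
    CBAB00rbbbak1k1k1k1k1k1.cls,
    CBAB00rbbbak1k1k1k1k1k2.cls,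
    CBAB00rbbbak1k1k1k1k2.cls,
    CBAB00rbbbbk0k0.cls,
    CBAB00rbbbbk0k1k0k0.cls,
    CBAB00rbbbbk0k1k0k1.cls,
    CBAB00rbbbbk0k1k1.cls,
    CBAB00rbbbbk1k0.cls,
    CBAB00rbbbbk1k1k0k0.cls,
    CBAB00rbbbbk1k1k0k1.cls,
    CBAB00rbbbbk1k1k1k0k0.cls,
    CBAB00rbbbbk1k1k1k0k1.cls,
    CBAB00rbbbbk1k1k1k0k2.cls,
    CBAB00rbbbbk1k1k1k1k0.cls,
    CBAB00rbbbbk1k1k1k1k1.cls,
    CBAB00rbbbbk1k1k1k1k2.cls,
    CBAB00rbbcak0.cls,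
    CBAB00rbbcak1k0.cls,
    CBAB00rbbcak1k1k0.cls,
    CBAB00rbbcak1k1k1k0k0b.cls,
    CBAB00rbbcak1k1k1k0k1.cls,
    CBAB00rbbcak1k1k1k0k2.cls,
    CBAB00rbbcak1k1k1k1k0.cls,
    CBAB00rbbcak1k1k1k1k1.cls,
    CBAB00rbbcak1k1k1k1k2.cls,
    CBAB00rbbcbk0.cls,
    CBAB00rbbcbk1k0.cls,
    CBAB00rbbcbk1k1k0.cls,
    CBAB00rbbcbk1k1k1.cls,
    trivial⟩
    (by decide +kernel) (by decide +kernel)

end Pool.Agent.H.MP_2e666d_lc.HS
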