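import Pool.Agent.H.MP_2e666d_lc.HSTree
import Pool.Agent.H.MP_2e666d_lc.FSCanon
import Pool.Agent.H.MP_2e666d_lc.HcBAB10rbbbak0k0
import Pool.Agent.H.MP_2e666d_lc.HcBAB10rbbbak1k1k1k0k0
import Pool.Agent.H.MP_2e666d_lc.HmBAB10x0
import Pool.Agent.H.MP_2e666d_lc.HmBAB10x1
import Pool.Agent.H.MP_2e666d_lc.HmBAB10x2
import Pool.Agent.H.MP_2e666d_lc.HmBAB10x3
import Pool.Agent.H.MP_2e666d_lc.HmBAB10x5

/-! # The class `clsBABf 1 0` -/

set_option maxRecDepth 100000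

namespace Pool.Agent.H.MP_2e666d_lc.HS

open Pool.Agent.H.MP_2e666d_lc Pool.Agent.H.MP_2e666d_lc.T3

def wBAB10 : List (Option (ℕ × ℕ)) := [
  some (3, 3), some (4, 7), none, none, some (4, 9), some (0, 7), none, some (1, 8), some (7, 13), none, none, some (2, 15), none, none, none, some (1, 8), none, none, some (0, 7), none, some (1, 8), some (3, 15), some (4, 15), none, none, some (5, 17), none, some (3, 17), none, some (3, 21), some (7, 19), none, none, none, none, some (3, 15), none, none, some (1, 8), none, none]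

theorem good_BAB_10 : T3.Good 40 (clsBABf 1 0) :=
  good_of_walk (is := wBAB10) (rs := [
    CBAB10raa.root,
    CBAB10rab.root,
    CBAB10rbaa.root,
    CBAB10rbabak0.root,
    CBAB10rbabak1.root,
    CBAB10rbabak2k0.root,
    CBAB10rbabak2k1.root,
    CBAB10rbabb.root,
    CBAB10rbaca.root,
    CBAB10rbacb.root,
    CBAB10rbba.root,
    CBAB10rbbbak0k0.root,
    CBAB10rbbbak0k1.root,
    CBAB10rbbbak1k0.root,
    CBAB10rbbbak1k1k0.root,
    CBAB10rbbbak1k1k1k0k0.root,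
    CBAB10rbbbak1k1k1k0k1.root,
    CBAB10rbbbak1k1k1k0k2.root,
    CBAB10rbbbak1k1k1k1.root,
    CBAB10rbbbbk0.root,
    CBAB10rbbbbk1.root,
    CBAB10rbbca.root,
    CBAB10rbbcb.root])
    ⟨CBAB10raa.cls,
    CBAB10rab.cls,
    CBAB10rbaa.cls,
    CBAB10rbabak0.cls,
    CBAB10rbabak1.cls,
    CBAB10rbabak2k0.cls,
    CBAB10rbabak2k1.cls,
    CBAB10rbabb.cls,
    CBAB10rbaca.cls,
    CBAB10rbacb.cls,
    CBAB10rbba.cls,
    CBAB10rbbbak0k0.cls,
    CBAB10rbbbak0k1.cls,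
    CBAB10rbbbak1k0.cls,
    CBAB10rbbbak1k1k0.cls,
    CBAB10rbbbak1k1k1k0k0.cls,
    CBAB10rbbbak1k1k1k0k1.cls,
    CBAB10rbbbak1k1k1k0k2.cls,
    CBAB10rbbbak1k1k1k1.cls,
    CBAB10rbbbbk0.cls,
    CBAB10rbbbbk1.cls,
    CBAB10rbbca.cls,
    CBAB10rbbcb.cls,
    trivial⟩
    (by decide +kernel) (by decide +kernel)

end Pool.Agent.H.MP_2e666d_lc.HS
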