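import Pool.Agent.H.MP_2e666d_lc.LabDef

/-! # Chains: openings and owners -/

namespace Pool.Agent.H.MP_2e666d_lc

theorem LabA_step : ∀ (a b d : Fin 3) (pv pu pw : Bool), pl b.rev pv = d → pl a.rev pu = d →
    pl d.rev pw = b → a ≠ b → a ≠ d → b ≠ d →
    pl a.rev (!pu) = b ∧ pl b.rev (!pv) = a ∧ pl d.rev (!pw) = a ∧
      b.rev ≠ a.rev ∧ d.rev ≠ a.rev ∧ d.rev ≠ b.rev := by
  decide

theorem LabA_succ (t : Fin 3) (k : ℕ) :
    owner t (k + 1) = pl t (!decide (k % 2 = 1)) := by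
  unfold owner
  congr 1
  rcases Nat.mod_two_eq_zero_or_one k with h | h
  · have : (k + 1) % 2 = 1 := by omega
    simp [h, this]
  · have : (k + 1) % 2 = 0 := by omega
    simp [h, this]

theorem LabA_odd (t : Fin 3) (k n : ℕ) (hn : n % 2 = 1) :
    owner t (k + n) = pl t (!decide (k % 2 = 1)) := by
  unfold owner
  congr 1
  rcases Nat.mod_two_eq_zero_or_one k with h | h
  · have : (k + n) % 2 = 1 := by omega
    simp [h, this]
  · have : (k + n) % 2 = 0 := by omega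
    simp [h, this]

theorem LabA_even (t : Fin 3) (k n : ℕ) (hn : ¬ n % 2 = 1) :
    owner t (k + n) = owner t k := by
  unfold owner
  have : (k + n) % 2 = k % 2 := by omega
  rw [this]

variable {W : Fin 3 → List ℕ}

namespace Ch

/-- the roles are three different players -/
theorem roles (ch : Ch W) (i : ℕ) : ch.u i ≠ ch.v i ∧ ch.u i ≠ ch.w i ∧ ch.v i ≠ ch.w i := by
  induction i with
  | zero =>
    rw [ch.u0, ch.v0, ch.w0]
    decide
  | succ i ih =>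
    obtain ⟨h1, h2, h3⟩ := ih
    rw [ch.us, ch.vs, ch.ws]
    by_cases hN : ch.N i % 2 = 1
    · rw [if_pos hN, if_pos hN]
      exact ⟨h2.symm, h3.symm, h1⟩
    · rw [if_neg hN, if_neg hN]
      exact ⟨h2, h1, h3.symm⟩

theorem LabA_inv (ch : Ch W) (i : ℕ) :
    owner (ch.v i).rev (ch.c i (ch.v i).rev) = ch.w i ∧
      owner (ch.u i).rev (ch.c i (ch.u i).rev) = ch.w i ∧
      owner (ch.w i).rev (ch.c i (ch.w i).rev) = ch.v i := by
  induction i with
  | zero =>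
    rw [ch.u0, ch.v0, ch.w0, ch.c0, ch.c0, ch.c0]
    decide
  | succ i ih =>
    obtain ⟨h1, h2, h3⟩ := ih
    obtain ⟨r1, r2, r3⟩ := ch.roles i
    obtain ⟨s1, s2, s3, s4, s5, s6⟩ := LabA_step _ _ _ _ _ _ h1 h2 h3 r1 r2 r3
    have ca : ch.c (i + 1) (ch.u i).rev = ch.c i (ch.u i).rev + 1 := by
      rw [ch.cs, if_neg s4.symm, if_pos rfl]
    have cb : ch.c (i + 1) (ch.v i).rev = ch.c i (ch.v i).rev + ch.N i := by
      rw [ch.cs, if_pos rfl]
    have cd : ch.c (i + 1) (ch.w i).rev = ch.c i (ch.w i).rev := by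
      rw [ch.cs, if_neg s6, if_neg s5]
    rw [ch.us, ch.vs, ch.ws]
    by_cases hN : ch.N i % 2 = 1
    · rw [if_pos hN, if_pos hN, ca, cb, cd, LabA_succ, LabA_odd _ _ _ hN]
      exact ⟨s1, h3, s2⟩
    · rw [if_neg hN, if_neg hN, ca, cb, cd, LabA_succ, LabA_even _ _ _ hN]
      exact ⟨h3, s1, h1⟩

/-- the owners of the next blocks (for `i < m`; the passive block is open for `1 ≤ i`) -/
theorem owners (ch : Ch W) (i : ℕ) (hi : i < ch.m) :
    owner (ch.v i).rev (ch.c i (ch.v i).rev) = ch.w i ∧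
      owner (ch.u i).rev (ch.c i (ch.u i).rev) = ch.w i ∧
      (1 ≤ i → 1 ≤ ch.c i (ch.w i).rev ∧ owner (ch.w i).rev (ch.c i (ch.w i).rev - 1) = ch.u i) ∧
      owner (ch.w i).rev (ch.c i (ch.w i).rev) = ch.v i := by
  obtain ⟨h1, h2, h3⟩ := ch.LabA_inv i
  obtain ⟨r1, r2, r3⟩ := ch.roles i
  obtain ⟨s1, s2, s3, s4, s5, s6⟩ := LabA_step _ _ _ _ _ _ h1 h2 h3 r1 r2 r3
  refine ⟨h1, h2, fun h => ?_, h3⟩
  have hc : 1 ≤ ch.c i (ch.w i).rev := by
    obtain ⟨j, rfl⟩ : ∃ j, i = j + 1 := ⟨i - 1, by omega⟩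
    rw [ch.ws, ch.cs, if_pos rfl]
    have := ch.N1 j (by omega)
    omega
  refine ⟨hc, ?_⟩
  obtain ⟨k, hk⟩ : ∃ k, ch.c i (ch.w i).rev = k + 1 := ⟨ch.c i (ch.w i).rev - 1, by omega⟩
  rw [hk] at s3 ⊢
  rw [Nat.add_sub_cancel, ← s3]
  unfold owner
  congr 1
  rcases Nat.mod_two_eq_zero_or_one k with h | h
  · have : (k + 1) % 2 = 1 := by omega
    simp [h, this]
  · have : (k + 1) % 2 = 0 := by omega
    simp [h, this]

/-- the phase of the opening of a block -/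
theorem ph_spec (ch : Ch W) (t : Fin 3) (k : ℕ) (hk : k < (W t).length) :
    ch.ph t k < ch.m ∧ ch.c (ch.ph t k) t ≤ k ∧ k < ch.c (ch.ph t k + 1) t ∧
      ((t = (ch.v (ch.ph t k)).rev ∧ k < ch.c (ch.ph t k) t + ch.N (ch.ph t k)) ∨
        (t = (ch.u (ch.ph t k)).rev ∧ k = ch.c (ch.ph t k) t)) := by
  have hm : ch.m - 1 ∈ {i | k < ch.c (i + 1) t} := by
    show k < ch.c (ch.m - 1 + 1) t
    rw [Nat.sub_add_cancel ch.m1, ch.ce]
    exact hk
  have h1 : k < ch.c (ch.ph t k + 1) t := Nat.sInf_mem ⟨_, hm⟩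
  have h2 : ch.ph t k ≤ ch.m - 1 := Nat.sInf_le hm
  have h3 : ch.c (ch.ph t k) t ≤ k := by
    rcases Nat.eq_zero_or_pos (ch.ph t k) with h | h
    · rw [h, ch.c0]
      exact Nat.zero_le _
    · by_contra hc
      have h4 : ch.ph t k - 1 ∈ {i | k < ch.c (i + 1) t} := by
        show k < ch.c (ch.ph t k - 1 + 1) t
        rw [Nat.sub_add_cancel h]
        omega
      have h5 : ch.ph t k ≤ ch.ph t k - 1 := Nat.sInf_le h4
      omega
  have hm1 := ch.m1
  refine ⟨by omega, h3, h1, ?_⟩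
  rw [ch.cs] at h1
  split_ifs at h1 with a1 a2
  · left
    exact ⟨a1, h1⟩
  · right
    exact ⟨a2, by omega⟩
  · omega

/-- the label is bounded -/
theorem lab_le (ch : Ch W) (t : Fin 3) (k g : ℕ) (hk : k < (W t).length) :
    ch.lab t k g ≤ 3 * ch.m + 2 := by
  have h := (ch.ph_spec t k hk).1
  unfold lab
  split_ifs <;> omega

end Ch

end Pool.Agent.H.MP_2e666d_lc
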