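import Pool.Agent.H.MP_2e666d_lc.Chain

/-! # Labels and signatures of chains -/

namespace Pool.Agent.H.MP_2e666d_lc

variable {W : Fin 3 → List ℕ}

namespace Ch

/-- the letter of the atom `n` (from `0`) of the phase `i` on the active tape -/
def lt (ch : Ch W) (i n : ℕ) : ℕ :=
  (W (ch.v i).rev).getD (ch.c i (ch.v i).rev + n) 0

/-- the host letter of the phase `i` -/
def hl (ch : Ch W) (i : ℕ) : ℕ := (W (ch.u i).rev).getD (ch.c i (ch.u i).rev) 0

/-- the phase in which the block `k` of the tape `t` is opened -/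
noncomputable def ph (ch : Ch W) (t : Fin 3) (k : ℕ) : ℕ := sInf {i | k < ch.c (i + 1) t}

open Classical in
/-- the label -/
noncomputable def lab (ch : Ch W) (t : Fin 3) (k g : ℕ) : ℕ :=
  if t = (ch.v (ch.ph t k)).rev then
    if k - ch.c (ch.ph t k) t + 1 < ch.N (ch.ph t k) then
      if ∃ n, k - ch.c (ch.ph t k) t < n ∧ n + 1 < ch.N (ch.ph t k) ∧
          n % 2 = (k - ch.c (ch.ph t k) t) % 2 ∧ g ≤ ch.lt (ch.ph t k) n then
        3 * ch.ph t k
      else 3 * ch.ph t k + 1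
    else if ch.ph t k + 1 < ch.m ∧ ch.N (ch.ph t k + 1) % 2 = 0 ∧
        g ≤ ch.lt (ch.ph t k + 1) (ch.N (ch.ph t k + 1) - 1) then
      3 * (ch.ph t k + 1) + 2
    else if ch.ph t k + 1 < ch.m ∧ ∃ n, n + 1 < ch.N (ch.ph t k + 1) ∧ n % 2 = 1 ∧
        g ≤ ch.lt (ch.ph t k + 1) n then
      3 * (ch.ph t k + 1) + 1
    else 3 * ch.ph t k + 2
  else if ch.N (ch.ph t k) % 2 = 1 ∧ g ≤ ch.lt (ch.ph t k) (ch.N (ch.ph t k) - 1) then
    3 * ch.ph t k + 2
  else 3 * ch.ph t k + 1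

/-- largest simple letter plus one on the side `r` (`0`: the player `w`, `1`: the player `u`) of
the phase `i`, `0` if there is no such letter -/
noncomputable def ms (ch : Ch W) (i r : ℕ) : ℕ :=
  ((Finset.range (ch.N i - 1)).filter (fun n => n % 2 = r)).sup (fun n => ch.lt i n + 1)

/-- the signature -/
noncomputable def sg (ch : Ch W) : List (ℕ × ℕ × ℕ × ℕ × ℕ) :=
  (List.range ch.m).map (fun i =>
    (ch.N i % 2, ch.hl i, ch.lt i (ch.N i - 1), ch.ms i 0, ch.ms i 1))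

end Ch

end Pool.Agent.H.MP_2e666d_lc
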