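import Pool.Agent.H.MP_2e666d_lc.LocDef

/-! # The schedule of a chain exists -/

namespace Pool.Agent.H.MP_2e666d_lc

variable {W : Fin 3 → List ℕ}

/-- player of the atom `n` of the phase `i` -/
def LocA_ee (ch : Ch W) (i n : ℕ) : Fin 3 := if n % 2 = 0 then ch.w i else ch.u i

/-- block of the tape `t` which contains the atom `n` of the phase `i` -/
def LocA_bb (ch : Ch W) (i n : ℕ) (t : Fin 3) : ℕ :=
  if t = (ch.v i).rev then ch.c i t + n else if t = (ch.u i).rev then ch.c i t
  else ch.c i t - 1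

theorem LocA_on (e t : Fin 3) : On e t ↔ t ≠ e.rev := by
  revert e t
  decide

theorem LocA_three (a b c t : Fin 3) (h1 : a ≠ b) (h2 : a ≠ c) (h3 : b ≠ c) :
    t = a ∨ t = b ∨ t = c := by
  revert a b c t
  decide

theorem LocA_own_add (t : Fin 3) (k n : ℕ) (hn : n % 2 = 0) : owner t (k + n) = owner t k := by
  have h : (k + n) % 2 = k % 2 := by omega
  unfold owner
  rw [h]

theorem LocA_own_odd (t : Fin 3) (k n : ℕ) (hn : n % 2 = 1) : owner t (k + n) ≠ owner t k := by
  unfold owner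
  rcases Nat.mod_two_eq_zero_or_one k with h | h
  · have h' : (k + n) % 2 = 1 := by omega
    rw [h, h']
    revert t
    decide
  · have h' : (k + n) % 2 = 0 := by omega
    rw [h, h']
    revert t
    decide

theorem LocA_own_on (t : Fin 3) (k : ℕ) : owner t k ≠ t.rev := by
  unfold owner
  rcases Nat.mod_two_eq_zero_or_one k with h | h
  · rw [h]
    revert t
    decide
  · rw [h]
    revert t
    decide

theorem LocA_revne {a b : Fin 3} (h : a ≠ b) : a.rev ≠ b.rev := by
  intro h'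
  exact h (Fin.rev_injective h')

variable (ch : Ch W)

theorem LocA_bv (i n : ℕ) : LocA_bb ch i n (ch.v i).rev = ch.c i (ch.v i).rev + n := by
  simp [LocA_bb]

theorem LocA_bu (i n : ℕ) : LocA_bb ch i n (ch.u i).rev = ch.c i (ch.u i).rev := by
  have h := LocA_revne (ch.roles i).1
  simp only [LocA_bb, if_neg h, if_true]

theorem LocA_bw (i n : ℕ) : LocA_bb ch i n (ch.w i).rev = ch.c i (ch.w i).rev - 1 := by
  have h := LocA_revne (ch.roles i).2.1.symm
  have h' := LocA_revne (ch.roles i).2.2.symm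
  simp only [LocA_bb, if_neg h', if_neg h]

theorem LocA_cv (i : ℕ) : ch.c (i + 1) (ch.v i).rev = ch.c i (ch.v i).rev + ch.N i := by
  rw [ch.cs]
  simp

theorem LocA_cu (i : ℕ) : ch.c (i + 1) (ch.u i).rev = ch.c i (ch.u i).rev + 1 := by
  have h := LocA_revne (ch.roles i).1
  rw [ch.cs, if_neg h, if_pos rfl]

theorem LocA_cw (i : ℕ) : ch.c (i + 1) (ch.w i).rev = ch.c i (ch.w i).rev := by
  have h := LocA_revne (ch.roles i).2.1.symm
  have h' := LocA_revne (ch.roles i).2.2.symm
  rw [ch.cs, if_neg h', if_neg h]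

theorem LocA_mono (t : Fin 3) {i j : ℕ} (h : i ≤ j) : ch.c i t ≤ ch.c j t := by
  have hm : Monotone (fun i => ch.c i t) := by
    apply monotone_nat_of_le_succ
    intro n
    show ch.c n t ≤ ch.c (n + 1) t
    rw [ch.cs]
    split_ifs <;> omega
  exact hm h

theorem LocA_cases (i n : ℕ) (t : Fin 3) (h : On (LocA_ee ch i n) t) :
    t = (ch.v i).rev ∨ (n % 2 = 0 ∧ t = (ch.u i).rev) ∨ (n % 2 = 1 ∧ t = (ch.w i).rev) := by
  have h1 := LocA_revne (ch.roles i).1
  have h2 := LocA_revne (ch.roles i).2.1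
  have h3 := LocA_revne (ch.roles i).2.2
  rw [LocA_on] at h
  unfold LocA_ee at h
  rcases LocA_three _ _ _ t h1 h2 h3 with h4 | h4 | h4
  · rcases Nat.mod_two_eq_zero_or_one n with h5 | h5
    · exact Or.inr (Or.inl ⟨h5, h4⟩)
    · rw [if_neg (by omega)] at h
      exact absurd h4 h
  · exact Or.inl h4
  · rcases Nat.mod_two_eq_zero_or_one n with h5 | h5
    · rw [if_pos h5] at h
      exact absurd h4 h
    · exact Or.inr (Or.inr ⟨h5, h4⟩)

theorem LocA_on_v (i n : ℕ) : On (LocA_ee ch i n) (ch.v i).rev := by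
  rw [LocA_on]
  unfold LocA_ee
  split_ifs
  · exact LocA_revne (ch.roles i).2.2
  · exact LocA_revne (ch.roles i).1.symm

theorem LocA_on_u (i n : ℕ) (hn : n % 2 = 0) : On (LocA_ee ch i n) (ch.u i).rev := by
  rw [LocA_on]
  unfold LocA_ee
  rw [if_pos hn]
  exact LocA_revne (ch.roles i).2.1

theorem LocA_on_w (i n : ℕ) (hn : n % 2 = 1) : On (LocA_ee ch i n) (ch.w i).rev := by
  rw [LocA_on]
  unfold LocA_ee
  rw [if_neg (by omega)]
  exact LocA_revne (ch.roles i).2.1.symm

theorem LocA_pos {i n : ℕ} (hn : n < ch.N i) (h1 : n % 2 = 1) : 1 ≤ i := by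
  rcases Nat.eq_zero_or_pos i with h | h
  · subst h
    rw [ch.N0] at hn
    omega
  · exact h

theorem LocA_up {i n : ℕ} (hi : i < ch.m) (hn : n < ch.N i) (t : Fin 3)
    (h : On (LocA_ee ch i n) t) : LocA_bb ch i n t + 1 ≤ ch.c (i + 1) t := by
  rcases LocA_cases ch i n t h with h1 | ⟨h2, h1⟩ | ⟨h2, h1⟩
  · subst h1
    rw [LocA_bv, LocA_cv]
    omega
  · subst h1
    rw [LocA_bu, LocA_cu]
  · subst h1
    rw [LocA_bw, LocA_cw]
    have h3 := ((ch.owners i hi).2.2.1 (LocA_pos ch hn h2)).1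
    omega

theorem LocA_lo (i n : ℕ) (t : Fin 3) : ch.c i t ≤ LocA_bb ch i n t + 1 := by
  unfold LocA_bb
  split_ifs <;> omega

theorem LocA_own {i n : ℕ} (hi : i < ch.m) (hn : n < ch.N i) (t : Fin 3)
    (h : On (LocA_ee ch i n) t) : owner t (LocA_bb ch i n t) = LocA_ee ch i n := by
  have hr := ch.roles i
  have ho := ch.owners i hi
  rcases LocA_cases ch i n t h with h1 | ⟨h2, h1⟩ | ⟨h2, h1⟩
  · subst h1
    rw [LocA_bv]
    unfold LocA_ee
    split_ifs with h2
    · rw [LocA_own_add _ _ _ h2]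
      exact ho.1
    · have h3 := LocA_own_odd (ch.v i).rev (ch.c i (ch.v i).rev) n (by omega)
      have h4 := LocA_own_on (ch.v i).rev (ch.c i (ch.v i).rev + n)
      rw [ho.1] at h3
      rw [Fin.rev_rev] at h4
      rcases LocA_three _ _ _ (owner (ch.v i).rev (ch.c i (ch.v i).rev + n)) hr.1 hr.2.1 hr.2.2
        with h5 | h5 | h5
      · exact h5
      · exact absurd h5 h4
      · exact absurd h5 h3
  · subst h1
    rw [LocA_bu]
    unfold LocA_ee
    rw [if_pos h2]
    exact ho.2.1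
  · subst h1
    rw [LocA_bw]
    unfold LocA_ee
    rw [if_neg (by omega)]
    exact (ho.2.2.1 (LocA_pos ch hn h2)).2

/-- the level `g` can be crossed in an atom if the letters of the two blocks allow it -/
theorem LocA_sv (i n g : ℕ)
    (h1 : g ≤ (W (ch.v i).rev).getD (ch.c i (ch.v i).rev + n) 0)
    (h2 : n % 2 = 0 → g ≤ (W (ch.u i).rev).getD (ch.c i (ch.u i).rev) 0)
    (h3 : n % 2 = 1 → g ≤ (W (ch.w i).rev).getD (ch.c i (ch.w i).rev - 1) 0) :
    ∀ t', On (LocA_ee ch i n) t' → g ≤ (W t').getD (LocA_bb ch i n t') 0 := by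
  intro t' h
  rcases LocA_cases ch i n t' h with h4 | ⟨h5, h4⟩ | ⟨h5, h4⟩
  · subst h4
    rw [LocA_bv]
    exact h1
  · subst h4
    rw [LocA_bu]
    exact h2 h5
  · subst h4
    rw [LocA_bw]
    exact h3 h5

theorem LocA_surj (t : Fin 3) (k : ℕ) (hk : k < (W t).length) :
    ∃ i n, i < ch.m ∧ n < ch.N i ∧ On (LocA_ee ch i n) t ∧ LocA_bb ch i n t = k := by
  obtain ⟨hi, hc1, hc2, h⟩ := ch.ph_spec t k hk
  generalize ch.ph t k = i at hi hc1 hc2 h
  rcases h with ⟨h1, h2⟩ | ⟨h1, h2⟩
  · refine ⟨i, k - ch.c i t, hi, by omega, ?_, ?_⟩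
    · rw [h1]
      exact LocA_on_v ch i _
    · subst h1
      rw [LocA_bv]
      omega
  · have h3 := ch.N1 i hi
    refine ⟨i, 0, hi, by omega, ?_, ?_⟩
    · rw [h1]
      exact LocA_on_u ch i 0 rfl
    · subst h1
      rw [LocA_bu]
      exact h2.symm

theorem LocA_served (t : Fin 3) (k g : ℕ) (hk : k < (W t).length) (hg : g ≤ (W t).getD k 0) :
    ∃ i n, i < ch.m ∧ n < ch.N i ∧ On (LocA_ee ch i n) t ∧ LocA_bb ch i n t = k ∧
      ∀ t', On (LocA_ee ch i n) t' → g ≤ (W t').getD (LocA_bb ch i n t') 0 := by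
  obtain ⟨hi, hc1, hc2, h⟩ := ch.ph_spec t k hk
  generalize ch.ph t k = i at hi hc1 hc2 h
  have hN := ch.N1 i hi
  rcases h with ⟨h1, h2⟩ | ⟨h1, h2⟩
  · subst h1
    obtain ⟨n, rfl⟩ : ∃ n, k = ch.c i (ch.v i).rev + n := ⟨k - ch.c i (ch.v i).rev, by omega⟩
    by_cases hn : n + 1 < ch.N i
    · refine ⟨i, n, hi, by omega, LocA_on_v ch i n, LocA_bv ch i n, LocA_sv ch i n g hg ?_ ?_⟩
      · intro h3
        exact hg.trans (ch.sw i hi n hn h3)
      · intro h3
        exact hg.trans (ch.su i hi n hn h3)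
    · have hn' : n = ch.N i - 1 := by omega
      subst hn'
      rcases ch.ag i hi with h3 | ⟨hi1, h3⟩
      · refine ⟨i, ch.N i - 1, hi, by omega, LocA_on_v ch i _, LocA_bv ch i _,
          LocA_sv ch i _ g hg ?_ ?_⟩
        · intro h4
          rw [if_pos (by omega)] at h3
          exact hg.trans h3
        · intro h4
          rw [if_neg (by omega)] at h3
          exact hg.trans h3
      · have hws : (ch.w (i + 1)).rev = (ch.v i).rev := by rw [ch.ws]
        have hcv := LocA_cv ch i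
        have hb : ∀ n', LocA_bb ch (i + 1) n' (ch.v i).rev =
            ch.c i (ch.v i).rev + (ch.N i - 1) := by
          intro n'
          rw [← hws, LocA_bw, hws, hcv]
          omega
        have hg' : g ≤ (W (ch.w (i + 1)).rev).getD (ch.c (i + 1) (ch.w (i + 1)).rev - 1) 0 := by
          rw [hws, hcv]
          have h5 : ch.c i (ch.v i).rev + ch.N i - 1 = ch.c i (ch.v i).rev + (ch.N i - 1) := by
            omega
          rw [h5]
          exact hg
        rcases h3 with ⟨n', h4, h5, h6⟩ | ⟨h4, h5⟩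
        · refine ⟨i + 1, n', hi1, by omega, ?_, hb n', LocA_sv ch (i + 1) n' g ?_ ?_ ?_⟩
          · rw [← hws]
            exact LocA_on_w ch (i + 1) n' h5
          · rw [h6]
            exact hg
          · intro h7
            omega
          · intro _
            exact hg'
        · have hN' := ch.N1 (i + 1) hi1
          refine ⟨i + 1, ch.N (i + 1) - 1, hi1, by omega, ?_, hb _,
            LocA_sv ch (i + 1) _ g ?_ ?_ ?_⟩
          · rw [← hws]
            exact LocA_on_w ch (i + 1) _ (by omega)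
          · exact hg.trans h5
          · intro h7
            omega
          · intro _
            exact hg'
  · subst h1
    subst h2
    rcases ch.ah i hi with ⟨n, h3, h4, h5⟩ | ⟨h3, h4⟩
    · refine ⟨i, n, hi, by omega, LocA_on_u ch i n h4, LocA_bu ch i n, LocA_sv ch i n g ?_ ?_ ?_⟩
      · rw [h5]
        exact hg
      · intro _
        exact hg
      · intro h6
        omega
    · refine ⟨i, ch.N i - 1, hi, by omega, LocA_on_u ch i _ (by omega), LocA_bu ch i _,
        LocA_sv ch i _ g ?_ ?_ ?_⟩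
      · exact hg.trans h4
      · intro _
        exact hg
      · intro h6
        omega

theorem LocA_div {C i n : ℕ} (h : n < C) : (C * i + n) / C = i := by
  rw [Nat.mul_add_div (by omega), Nat.div_eq_of_lt h, Nat.add_zero]

theorem LocA_mod {C i n : ℕ} (h : n < C) : (C * i + n) % C = n := by
  rw [Nat.mul_add_mod, Nat.mod_eq_of_lt h]

theorem LocA_lex {C i n i' n' : ℕ} (h : n < C) (h' : n' < C) (hle : C * i + n ≤ C * i' + n') :
    i < i' ∨ (i = i' ∧ n ≤ n') := by
  rcases lt_trichotomy i i' with h1 | h1 | h1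
  · exact Or.inl h1
  · subst h1
    exact Or.inr ⟨rfl, by omega⟩
  · exfalso
    have h2 : C * (i' + 1) ≤ C * i := Nat.mul_le_mul_left _ h1
    rw [Nat.mul_add] at h2
    omega

theorem exists_sched (ch : Ch W) : ∃ (S : Sched W) (C : ℕ), SchedOf ch S C := by
  classical
  obtain ⟨C, hC⟩ : ∃ C, ∀ i < ch.m, ch.N i < C := by
    refine ⟨(∑ i ∈ Finset.range ch.m, ch.N i) + 1, ?_⟩
    intro i hi
    have h := Finset.single_le_sum (f := ch.N) (s := Finset.range ch.m)
      (fun _ _ => Nat.zero_le _) (Finset.mem_range.2 hi)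
    omega
  have hCn : ∀ i < ch.m, ∀ n < ch.N i, n < C := by
    intro i hi n hn
    have := hC i hi
    omega
  have hA : ∀ a, a ∈ (Finset.range ch.m).biUnion
      (fun i => (Finset.range (ch.N i)).image (fun n => C * i + n)) ↔
      ∃ i n, i < ch.m ∧ n < ch.N i ∧ a = C * i + n := by
    intro a
    simp only [Finset.mem_biUnion, Finset.mem_range, Finset.mem_image]
    constructor
    · rintro ⟨i, hi, n, hn, rfl⟩
      exact ⟨i, n, hi, hn, rfl⟩
    · rintro ⟨i, n, hi, hn, rfl⟩
      exact ⟨i, hi, n, hn, rfl⟩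
  have he : ∀ i < ch.m, ∀ n < ch.N i,
      LocA_ee ch ((C * i + n) / C) ((C * i + n) % C) = LocA_ee ch i n := by
    intro i hi n hn
    rw [LocA_div (hCn i hi n hn), LocA_mod (hCn i hi n hn)]
  have hb : ∀ i < ch.m, ∀ n < ch.N i, ∀ t,
      LocA_bb ch ((C * i + n) / C) ((C * i + n) % C) t = LocA_bb ch i n t := by
    intro i hi n hn t
    rw [LocA_div (hCn i hi n hn), LocA_mod (hCn i hi n hn)]
  refine ⟨{
    A := (Finset.range ch.m).biUnion
      (fun i => (Finset.range (ch.N i)).image (fun n => C * i + n))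
    e := fun a => LocA_ee ch (a / C) (a % C)
    b := fun t a => LocA_bb ch (a / C) (a % C) t
    blt := ?_
    own := ?_
    mono := ?_
    surj := ?_
    served := ?_ }, C, ?_⟩
  · intro a ha t ht
    obtain ⟨i, n, hi, hn, rfl⟩ := (hA a).1 ha
    rw [he i hi n hn] at ht
    rw [hb i hi n hn]
    have h1 := LocA_up ch hi hn t ht
    have h2 := LocA_mono ch t (Nat.succ_le_of_lt hi)
    rw [ch.ce] at h2
    have h3 : ch.c (i + 1) t = ch.c i.succ t := rfl
    omega
  · intro a ha t ht
    obtain ⟨i, n, hi, hn, rfl⟩ := (hA a).1 ha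
    rw [he i hi n hn] at ht
    rw [hb i hi n hn, he i hi n hn]
    exact LocA_own ch hi hn t ht
  · intro a ha a' ha' t ht ht' hle
    obtain ⟨i, n, hi, hn, rfl⟩ := (hA a).1 ha
    obtain ⟨i', n', hi', hn', rfl⟩ := (hA a').1 ha'
    rw [he i hi n hn] at ht
    rw [he i' hi' n' hn'] at ht'
    rw [hb i hi n hn, hb i' hi' n' hn']
    rcases LocA_lex (hCn i hi n hn) (hCn i' hi' n' hn') hle with h | ⟨h, h'⟩
    · have h1 := LocA_up ch hi hn t ht
      have h2 := LocA_mono ch t (Nat.succ_le_of_lt h)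
      have h3 := LocA_lo ch i' n' t
      have h4 : ch.c (i + 1) t = ch.c i.succ t := rfl
      omega
    · subst h
      unfold LocA_bb
      split_ifs <;> omega
  · intro t k hk
    obtain ⟨i, n, hi, hn, h1, h2⟩ := LocA_surj ch t k hk
    refine ⟨C * i + n, (hA _).2 ⟨i, n, hi, hn, rfl⟩, ?_, ?_⟩
    · rw [he i hi n hn]
      exact h1
    · rw [hb i hi n hn]
      exact h2
  · intro t k g hk hg _
    obtain ⟨i, n, hi, hn, h1, h2, h3⟩ := LocA_served ch t k g hk hg
    refine ⟨C * i + n, (hA _).2 ⟨i, n, hi, hn, rfl⟩, ?_, ?_, ?_⟩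
    · rw [he i hi n hn]
      exact h1
    · rw [hb i hi n hn]
      exact h2
    · intro t' ht'
      rw [he i hi n hn] at ht'
      rw [hb i hi n hn]
      exact h3 t' ht'
  · refine ⟨hC, hA, ?_, ?_, ?_, ?_⟩
    · intro i hi n hn
      exact he i hi n hn
    · intro i hi n hn
      exact (hb i hi n hn _).trans (LocA_bv ch i n)
    · intro i hi n hn _
      exact (hb i hi n hn _).trans (LocA_bu ch i n)
    · intro i hi n hn _
      exact (hb i hi n hn _).trans (LocA_bw ch i n)

end Pool.Agent.H.MP_2e666d_lc
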