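import Pool.Agent.H.MP_2e666d_lc.LocDef

/-! # Location of the crossings -/

namespace Pool.Agent.H.MP_2e666d_lc

variable {W : Fin 3 → List ℕ}

theorem LocB_on (e t : Fin 3) : On e t ↔ t ≠ e.rev := by
  revert e t
  decide

theorem LocB_cases (u v w t : Fin 3) (h1 : u ≠ v) (h2 : u ≠ w) (h3 : v ≠ w) :
    t = v.rev ∨ t = u.rev ∨ t = w.rev := by
  revert u v w t
  decide

theorem LocB_rev_ne {a b : Fin 3} (h : a ≠ b) : a.rev ≠ b.rev := fun h' =>
  h (Fin.rev_injective h')

theorem LocB_c_le (ch : Ch W) (i : ℕ) (t : Fin 3) : ch.c i t ≤ ch.c (i + 1) t := by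
  rw [ch.cs]
  split_ifs <;> omega

theorem LocB_c_mono (ch : Ch W) (t : Fin 3) {i j : ℕ} (h : i ≤ j) : ch.c i t ≤ ch.c j t := by
  induction h with
  | refl => exact le_rfl
  | step _ ih => exact ih.trans (LocB_c_le ch _ t)

/-- the phase of the opening is unique -/
theorem LocB_ph (ch : Ch W) (t : Fin 3) (k i : ℕ) (h1 : ch.c i t ≤ k) (h2 : k < ch.c (i + 1) t) :
    ch.ph t k = i := by
  unfold Ch.ph
  have hmem : i ∈ {i | k < ch.c (i + 1) t} := h2
  apply le_antisymm (Nat.sInf_le hmem)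
  by_contra hcon
  have hlt : sInf {i | k < ch.c (i + 1) t} < i := by omega
  have h3 : k < ch.c (sInf {i | k < ch.c (i + 1) t} + 1) t := Nat.sInf_mem ⟨i, hmem⟩
  have h4 := LocB_c_mono ch t (show sInf {i | k < ch.c (i + 1) t} + 1 ≤ i by omega)
  omega

theorem LocB_M_even (ch : Ch W) (S : Sched W) (C : ℕ) (hS : SchedOf ch S C) (g i n : ℕ)
    (hi : i < ch.m) (hn : n < ch.N i) (h2 : n % 2 = 0) :
    S.M (C * i + n) g ↔ g ≤ ch.lt i n ∧ g ≤ (W (ch.u i).rev).getD (ch.c i (ch.u i).rev) 0 := by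
  obtain ⟨r1, r2, r3⟩ := ch.roles i
  have he : S.e (C * i + n) = ch.w i := by
    rw [hS.he i hi n hn, if_pos h2]
  unfold Sched.M
  rw [he]
  constructor
  · intro h
    have a1 := h (ch.v i).rev ((LocB_on _ _).2 (LocB_rev_ne r3))
    have a2 := h (ch.u i).rev ((LocB_on _ _).2 (LocB_rev_ne r2))
    rw [hS.bR i hi n hn] at a1
    rw [hS.bH i hi n hn h2] at a2
    exact ⟨a1, a2⟩
  · rintro ⟨a1, a2⟩ t ht
    rw [LocB_on] at ht
    rcases LocB_cases _ _ _ t r1 r2 r3 with rfl | rfl | rfl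
    · rw [hS.bR i hi n hn]
      exact a1
    · rw [hS.bH i hi n hn h2]
      exact a2
    · exact absurd rfl ht

theorem LocB_M_odd (ch : Ch W) (S : Sched W) (C : ℕ) (hS : SchedOf ch S C) (g i n : ℕ)
    (hi : i < ch.m) (hn : n < ch.N i) (h2 : n % 2 = 1) :
    S.M (C * i + n) g ↔ g ≤ ch.lt i n ∧
      g ≤ (W (ch.w i).rev).getD (ch.c i (ch.w i).rev - 1) 0 := by
  obtain ⟨r1, r2, r3⟩ := ch.roles i
  have he : S.e (C * i + n) = ch.u i := by
    rw [hS.he i hi n hn, if_neg (by omega)]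
  unfold Sched.M
  rw [he]
  constructor
  · intro h
    have a1 := h (ch.v i).rev ((LocB_on _ _).2 (LocB_rev_ne r1.symm))
    have a2 := h (ch.w i).rev ((LocB_on _ _).2 (LocB_rev_ne r2.symm))
    rw [hS.bR i hi n hn] at a1
    rw [hS.bQ i hi n hn h2] at a2
    exact ⟨a1, a2⟩
  · rintro ⟨a1, a2⟩ t ht
    rw [LocB_on] at ht
    rcases LocB_cases _ _ _ t r1 r2 r3 with rfl | rfl | rfl
    · rw [hS.bR i hi n hn]
      exact a1
    · exact absurd rfl ht
    · rw [hS.bQ i hi n hn h2]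
      exact a2

/-- maximality of the crossing among the atoms of the block -/
theorem LocB_max (S : Sched W) (t : Fin 3) (k g : ℕ) (hk : k < (W t).length)
    (hg : g ≤ (W t).getD k 0) (h2 : g ≤ 2) (a : ℕ) (ha : a ∈ S.A) (hon : On (S.e a) t)
    (hb : S.b t a = k) (hM : S.M a g) : a ≤ S.E t k g := by
  obtain ⟨-, -, -, l4⟩ := S.L_mem t k hk
  obtain ⟨-, -, -, -, -, e6⟩ := S.E_mem t k g hk hg h2
  have h3 := S.own a ha t hon
  rw [hb] at h3
  exact e6 a ha h3.symm (l4 a ha hon hb) hM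

/-- location of the crossings -/
theorem loc (ch : Ch W) (S : Sched W) (C : ℕ) (hS : SchedOf ch S C) (t : Fin 3) (k g : ℕ)
    (hk : k < (W t).length) (hg : g ≤ (W t).getD k 0) (h2 : g ≤ 2) :
    ∃ i n, i < ch.m ∧ n < ch.N i ∧ S.E t k g = C * i + n ∧
      (if n % 2 = 0 then ch.w i else ch.u i) = owner t k ∧
      ((ch.lab t k g = 3 * i + 2 ∧ n + 1 = ch.N i) ∨
       (ch.lab t k g = 3 * i + 1 ∧ n + 1 < ch.N i ∧ g ≤ ch.lt i n ∧
         ∀ n', n < n' → n' + 1 < ch.N i → n' % 2 = n % 2 → ch.lt i n' < g) ∨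
       (ch.lab t k g = 3 * i ∧ n + 1 < ch.N i ∧ t = (ch.v i).rev ∧
         ∃ n', n < n' ∧ n' + 1 < ch.N i ∧ n' % 2 = n % 2 ∧ g ≤ ch.lt i n')) := by
  obtain ⟨e1, e2, e3, e4, e5, e6⟩ := S.E_mem t k g hk hg h2
  obtain ⟨i, n, hi, hn, hE⟩ := (hS.hA _).1 e1
  have hmax : ∀ i' n', i' < ch.m → n' < ch.N i' → On (S.e (C * i' + n')) t →
      S.b t (C * i' + n') = k → S.M (C * i' + n') g → C * i' + n' ≤ C * i + n := by
    intro i' n' hi' hn' hon hb hM
    rw [← hE]
    exact LocB_max S t k g hk hg h2 _ ((hS.hA _).2 ⟨i', n', hi', hn', rfl⟩) hon hb hM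
  rw [hE] at e2 e3 e4
  have hown : (if n % 2 = 0 then ch.w i else ch.u i) = owner t k := by
    rw [← e2, hS.he i hi n hn]
  refine ⟨i, n, hi, hn, hE, hown, ?_⟩
  obtain ⟨r1, r2, r3⟩ := ch.roles i
  have hCi := hS.hC i hi
  have hlt : g ≤ ch.lt i n := by
    rcases Nat.mod_two_eq_zero_or_one n with h | h
    · exact ((LocB_M_even ch S C hS g i n hi hn h).1 e4).1
    · exact ((LocB_M_odd ch S C hS g i n hi hn h).1 e4).1
  -- atoms of the next phase on the passive tape
  have hnext : ∀ j, t = (ch.v j).rev → j + 1 < ch.m → k = ch.c j t + ch.N j - 1 →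
      1 ≤ ch.N j → ∀ n', n' < ch.N (j + 1) → n' % 2 = 1 → g ≤ ch.lt (j + 1) n' →
        C * (j + 1) + n' ≤ C * i + n := by
    intro j htj hj1 hkj hNj n' hn' hpar hgn
    obtain ⟨q1, q2, q3⟩ := ch.roles (j + 1)
    have hwv : (ch.w (j + 1)).rev = t := by rw [ch.ws, htj]
    have hc : ch.c (j + 1) t - 1 = k := by
      rw [ch.cs, if_pos htj]
      omega
    have hbq := hS.bQ (j + 1) hj1 n' hn' hpar
    rw [hwv, hc] at hbq
    refine hmax (j + 1) n' hj1 hn' ?_ hbq ?_
    · rw [hS.he (j + 1) hj1 n' hn', if_neg (by omega), LocB_on, ← hwv]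
      exact LocB_rev_ne q2.symm
    · rw [LocB_M_odd ch S C hS g (j + 1) n' hj1 hn' hpar]
      refine ⟨hgn, ?_⟩
      rw [hwv, hc]
      exact hg
  have hontE : On (S.e (C * i + n)) t := by
    rw [e2]
    unfold owner On
    cases decide (k % 2 = 1)
    · exact Or.inl rfl
    · exact Or.inr rfl
  rw [LocB_on, hS.he i hi n hn] at hontE
  rcases LocB_cases _ _ _ t r1 r2 r3 with ht | ht | ht
  · -- active tape
    have hb := hS.bR i hi n hn
    rw [← ht, e3] at hb
    have hc1 : ch.c (i + 1) t = ch.c i t + ch.N i := by rw [ch.cs, if_pos ht]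
    have hph : ch.ph t k = i := LocB_ph ch t k i (by omega) (by omega)
    have hkn : k - ch.c i t = n := by omega
    unfold Ch.lab
    rw [hph, hkn, if_pos ht]
    by_cases hsim : n + 1 < ch.N i
    · rw [if_pos hsim]
      by_cases hex : ∃ n', n < n' ∧ n' + 1 < ch.N i ∧ n' % 2 = n % 2 ∧ g ≤ ch.lt i n'
      · rw [if_pos hex]
        exact Or.inr (Or.inr ⟨rfl, hsim, ht, hex⟩)
      · rw [if_neg hex]
        refine Or.inr (Or.inl ⟨rfl, hsim, hlt, ?_⟩)
        intro n' x1 x2 x3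
        by_contra hcon
        exact hex ⟨n', x1, x2, x3, by omega⟩
    · rw [if_neg hsim]
      have hN : n + 1 = ch.N i := by omega
      have hc1' : ¬ (i + 1 < ch.m ∧ ch.N (i + 1) % 2 = 0 ∧
          g ≤ ch.lt (i + 1) (ch.N (i + 1) - 1)) := by
        rintro ⟨x1, x2, x3⟩
        have hN1 := ch.N1 (i + 1) x1
        have := hnext i ht x1 (by omega) (by omega) (ch.N (i + 1) - 1) (by omega) (by omega) x3
        rw [Nat.mul_succ] at this
        omega
      have hc2' : ¬ (i + 1 < ch.m ∧ ∃ n, n + 1 < ch.N (i + 1) ∧ n % 2 = 1 ∧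
          g ≤ ch.lt (i + 1) n) := by
        rintro ⟨x1, n', x2, x3, x4⟩
        have := hnext i ht x1 (by omega) (by omega) n' (by omega) x3 x4
        rw [Nat.mul_succ] at this
        omega
      rw [if_neg hc1', if_neg hc2']
      exact Or.inl ⟨rfl, hN⟩
  · -- host tape
    have hpar : n % 2 = 0 := by
      by_contra hcon
      rw [if_neg hcon] at hontE
      exact hontE ht
    have hb := hS.bH i hi n hn hpar
    rw [← ht, e3] at hb
    have htv : t ≠ (ch.v i).rev := by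
      rw [ht]
      exact LocB_rev_ne r1
    have hc1 : ch.c (i + 1) t = ch.c i t + 1 := by rw [ch.cs, if_neg htv, if_pos ht]
    have hph : ch.ph t k = i := LocB_ph ch t k i (by omega) (by omega)
    have hatom : ∀ n', n' < ch.N i → n' % 2 = 0 → g ≤ ch.lt i n' → n' ≤ n := by
      intro n' x1 x2 x3
      have hb' := hS.bH i hi n' x1 x2
      rw [← ht, ← hb] at hb'
      have := hmax i n' hi x1 (by
        rw [hS.he i hi n' x1, if_pos x2, LocB_on, ht]
        exact LocB_rev_ne r2) hb' (by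
        rw [LocB_M_even ch S C hS g i n' hi x1 x2]
        refine ⟨x3, ?_⟩
        rw [← ht, ← hb]
        exact hg)
      omega
    unfold Ch.lab
    rw [hph, if_neg htv]
    by_cases hc : ch.N i % 2 = 1 ∧ g ≤ ch.lt i (ch.N i - 1)
    · rw [if_pos hc]
      have := hatom (ch.N i - 1) (by omega) (by omega) hc.2
      exact Or.inl ⟨rfl, by omega⟩
    · rw [if_neg hc]
      have hsim : n + 1 < ch.N i := by
        by_contra hcon
        have hN : n + 1 = ch.N i := by omega
        apply hc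
        refine ⟨by omega, ?_⟩
        rw [← hN, Nat.add_sub_cancel]
        exact hlt
      refine Or.inr (Or.inl ⟨rfl, hsim, hlt, ?_⟩)
      intro n' x1 x2 x3
      by_contra hcon
      have := hatom n' (by omega) (by omega) (by omega)
      omega
  · -- passive tape
    have hpar : n % 2 = 1 := by
      by_contra hcon
      rw [if_pos (by omega)] at hontE
      exact hontE ht
    obtain ⟨j, rfl⟩ : ∃ j, i = j + 1 := by
      rcases Nat.eq_zero_or_pos i with h0 | h0
      · subst h0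
        rw [ch.N0] at hn
        omega
      · exact ⟨i - 1, by omega⟩
    have htv : t = (ch.v j).rev := by rw [ht, ch.ws]
    have hb := hS.bQ (j + 1) hi n hn hpar
    rw [← ht, e3] at hb
    have hc1 : ch.c (j + 1) t = ch.c j t + ch.N j := by rw [ch.cs, if_pos htv]
    have hNj := ch.N1 j (by omega)
    have hph : ch.ph t k = j := LocB_ph ch t k j (by omega) (by omega)
    have hatom : ∀ n', n' < ch.N (j + 1) → n' % 2 = 1 → g ≤ ch.lt (j + 1) n' → n' ≤ n := by
      intro n' x1 x2 x3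
      have := hnext j htv hi (by omega) hNj n' x1 x2 x3
      omega
    unfold Ch.lab
    rw [hph, if_pos htv, if_neg (show ¬ (k - ch.c j t + 1 < ch.N j) by omega)]
    by_cases hc : j + 1 < ch.m ∧ ch.N (j + 1) % 2 = 0 ∧ g ≤ ch.lt (j + 1) (ch.N (j + 1) - 1)
    · rw [if_pos hc]
      have := hatom (ch.N (j + 1) - 1) (by omega) (by omega) hc.2.2
      exact Or.inl ⟨rfl, by omega⟩
    · rw [if_neg hc]
      have hsim : n + 1 < ch.N (j + 1) := by
        by_contra hcon
        have hN : n + 1 = ch.N (j + 1) := by omega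
        apply hc
        refine ⟨hi, by omega, ?_⟩
        rw [← hN, Nat.add_sub_cancel]
        exact hlt
      have hc2 : j + 1 < ch.m ∧ ∃ n, n + 1 < ch.N (j + 1) ∧ n % 2 = 1 ∧
          g ≤ ch.lt (j + 1) n := ⟨hi, n, hsim, hpar, hlt⟩
      rw [if_pos hc2]
      refine Or.inr (Or.inl ⟨rfl, hsim, hlt, ?_⟩)
      intro n' x1 x2 x3
      by_contra hcon
      have := hatom n' (by omega) (by omega) (by omega)
      omega

end Pool.Agent.H.MP_2e666d_lc
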