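import Pool.Agent.H.MP_2e666d_lc.Sched
import Pool.Agent.H.MP_2e666d_lc.LabA

/-! # The schedule of a chain -/

namespace Pool.Agent.H.MP_2e666d_lc

variable {W : Fin 3 → List ℕ}

/-- `S` is the schedule of the chain `ch`: the atom `n` of the phase `i` has the time
`C * i + n` -/
structure SchedOf (ch : Ch W) (S : Sched W) (C : ℕ) : Prop where
  hC : ∀ i < ch.m, ch.N i < C
  hA : ∀ a, a ∈ S.A ↔ ∃ i n, i < ch.m ∧ n < ch.N i ∧ a = C * i + n
  he : ∀ i < ch.m, ∀ n < ch.N i, S.e (C * i + n) = if n % 2 = 0 then ch.w i else ch.u i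
  bR : ∀ i < ch.m, ∀ n < ch.N i, S.b (ch.v i).rev (C * i + n) = ch.c i (ch.v i).rev + n
  bH : ∀ i < ch.m, ∀ n < ch.N i, n % 2 = 0 →
    S.b (ch.u i).rev (C * i + n) = ch.c i (ch.u i).rev
  bQ : ∀ i < ch.m, ∀ n < ch.N i, n % 2 = 1 →
    S.b (ch.w i).rev (C * i + n) = ch.c i (ch.w i).rev - 1

end Pool.Agent.H.MP_2e666d_lc
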