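import Pool.Agent.H.MP_2e666d_lc.RealA

/-! # The simulation: choice of the next draw -/

namespace Pool.Agent.H.MP_2e666d_lc

open Pos

section

variable {T : Set Tag} {G : SimpleGraph B} {cl : List ℕ → ℕ}
  {lab : Fin 3 → List ℕ → ℕ → ℕ → ℕ} {φ1 φ2 : Option Tag} {P : Fin 3 → Pos Tag}

/-- the owner of a block of the parity of the role of `e` -/
theorem realC_owner (e t : Fin 3) (k : ℕ) (h : On e t) (hk : decide (k % 2 = 1) = rl e t) :
    owner t k = e := by
  unfold owner
  rw [hk]
  clear hk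
  revert e t
  decide

/-- the blocks in which the children announced by `ts` are drawn -/
theorem realC_kids (p : Pos Tag) (hp : PI p) (e t : Fin 3) (hon : On e t) (hmv : p.mv = rl e t)
    (hnd : ¬ p.dn p.mv) (g : ℕ) (hlv : p.lv = g + 1) (ts : List Tag) (ha : p.Ann T ts)
    (J0 : List ℕ) (hl : J0.length = ts.length + 1) (hJ : J0.Pairwise (· < ·)) (W : List ℕ)
    (hc : Comp T (Phi cl lab) (p.adv ts J0) W) :
    ∃ d : ℕ → ℕ, (∀ (i : ℕ) (a : Tag), ts[i]? = some a →
      a = Phi cl lab W (d i) g ∧ owner t (d i) = e ∧ Let W (d i) g) ∧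
      ∀ i i', i < i' → i' < ts.length → d i < d i' := by
  have hp' : PI (p.adv ts J0) := pi_step hp ts J0 hnd ha hl hJ
  obtain ⟨d0, hd1, hd2, _, _⟩ := comp_flags hp' hc p.mv
  have hs : (p.adv ts J0).s p.mv g = mkF ts J0 := by
    rw [adv_s_mv]
    unfold newS
    have h1 : levL (p.s p.mv) = g + 1 := hlv
    rw [if_neg (by omega), if_pos h1.symm]
  have hget : ∀ (i : ℕ) (a : Tag), ts[i]? = some a →
      ((p.adv ts J0).s p.mv g)[J0.getD i 0]? = some (some a) := by
    intro i a hi
    rw [hs, mkF_get ts J0 hl hJ]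
    refine ⟨i, hi, ?_⟩
    have hi' : i < ts.length := (List.getElem?_eq_some_iff.mp hi).1
    rw [List.getD_eq_getElem?_getD, List.getElem?_eq_getElem (by omega), Option.getD_some]
  refine ⟨fun i => d0 g (J0.getD i 0), ?_, ?_⟩
  · intro i a hi
    obtain ⟨h1, h2, _, h4⟩ := hd1 g _ a (hget i a hi)
    exact ⟨h1, realC_owner e t _ hon (h2.trans hmv), h4⟩
  · intro i i' hii hi'
    have h1 := hget i ts[i] (List.getElem?_eq_getElem (by omega))
    have h2 := hget i' ts[i'] (List.getElem?_eq_getElem (by omega))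
    refine hd2 g _ _ _ _ h1 h2 ?_
    have hlt := (List.pairwise_iff_getElem.mp hJ) i i' (by omega) (by omega) hii
    rw [List.getD_eq_getElem?_getD, List.getElem?_eq_getElem (by omega), Option.getD_some,
      List.getD_eq_getElem?_getD, List.getElem?_eq_getElem (by omega), Option.getD_some]
    exact hlt

/-- the choice of the announcements and of the next number -/
theorem inv_choice (hH : HLab cl lab) (h : Inv T G cl lab φ1 φ2 P) (e t1 t2 : Fin 3)
    (ht : t1 ≠ t2) (h1 : On e t1) (h2 : On e t2)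
    (he : ∀ t, On e t → (P t).mv = rl e t ∧ ¬ (P t).dn (P t).mv) :
    ∃ (ts1 ts2 : List Tag) (J1 J2 : List ℕ),
      (P t1).Ann T ts1 ∧ (P t2).Ann T ts2 ∧
      J1.length = ts1.length + 1 ∧ J2.length = ts2.length + 1 ∧
      J1.Pairwise (· < ·) ∧ J2.Pairwise (· < ·) ∧
      Win T G (Phi cl lab) ((P t1).adv ts1 J1) ∧ Win T G (Phi cl lab) ((P t2).adv ts2 J2) ∧
      J1.getLastD 0 = J2.getLastD 0 ∧
      (∀ (i j : ℕ) (a b : Tag) (x y : ℕ), ts1[i]? = some a → ts2[j]? = some b → J1[i]? = some x → J2[j]? = some y →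
        ((x < y ↔ a.2 t1 < b.2 t2) ∧ (y < x ↔ b.2 t2 < a.2 t1))) := by
  obtain ⟨hm1, hn1⟩ := he t1 h1
  obtain ⟨hm2, hn2⟩ := he t2 h2
  rcases (win_iff T G (Phi cl lab) (P t1)).mp (h.win t1) with hw | ⟨_, ts1, ha1, hg1⟩
  · exact absurd hw.1 hn1
  rcases (win_iff T G (Phi cl lab) (P t2)).mp (h.win t2) with hw | ⟨_, ts2, ha2, hg2⟩
  · exact absurd hw.1 hn2
  have hlv : (P t1).lv = (P t2).lv := by
    unfold lv
    rw [hm1, hm2]
    exact levL_congr _ _ (fun g => h.syncs e t1 t2 g h1 h2)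
  by_cases h0 : (P t1).lv = 0
  · have e1 : ts1 = [] := ha1.2.1 h0
    have e2 : ts2 = [] := ha2.2.1 (hlv ▸ h0)
    subst e1 e2
    obtain ⟨J, ⟨hJ1, hJ2⟩, hJl, hJp, _⟩ := Gen.exists_incr 0 (Gen.and hg1 hg2)
    exact ⟨[], [], J, J, ha1, ha2, hJl, hJl, hJp, hJp, hJ1, hJ2, rfl, by
      intro i j a b x y hh
      simp at hh⟩
  · obtain ⟨g, hg⟩ : ∃ g, (P t1).lv = g + 1 := Nat.exists_eq_succ_of_ne_zero h0
    have hp1 : PI (P t1) := pi_reach (h.reach t1)
    have hp2 : PI (P t2) := pi_reach (h.reach t2)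
    have hg2' : g ≤ 2 := by
      by_contra hcon
      have h3 := (levL_spec ((P t1).s (P t1).mv) hn1).1
      have h4 : levL ((P t1).s (P t1).mv) = g + 1 := hg
      rw [h4] at h3
      exact h3 (hp1.sup _ _ (by omega))
    obtain ⟨J10, hW10, hJl1, hJp1, _⟩ := Gen.exists_incr 0 hg1
    obtain ⟨J20, hW20, hJl2, hJp2, _⟩ := Gen.exists_incr 0 hg2
    obtain ⟨W1, hc1⟩ := comp_of_win T G (Phi cl lab) _ hW10
    obtain ⟨W2, hc2⟩ := comp_of_win T G (Phi cl lab) _ hW20
    choose W3 hc3 using fun t => comp_of_win T G (Phi cl lab) (P t) (h.win t)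
    let W : Fin 3 → List ℕ := fun t => if t = t1 then W1 else if t = t2 then W2 else W3 t
    have hWt1 : W t1 = W1 := by simp [W]
    have hWt2 : W t2 = W2 := by simp [W, ht.symm]
    have hcW : ∀ t, Comp T (Phi cl lab) (P t) (W t) := by
      intro t
      by_cases e1 : t = t1
      · subst e1
        rw [hWt1]
        exact Comp.step (P t) ts1 J10 W1 hn1 ha1 hJl1 hJp1 hc1
      · by_cases e2 : t = t2
        · subst e2
          rw [hWt2]
          exact Comp.step (P t) ts2 J20 W2 hn2 ha2 hJl2 hJp2 hc2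
        · have : W t = W3 t := by simp [W, e1, e2]
          rw [this]
          exact hc3 t
    obtain ⟨tm⟩ := exists_tim hH W P h.reach hcW
    obtain ⟨d1, hd1, hd1m⟩ := realC_kids (P t1) hp1 e t1 h1 hm1 hn1 g hg ts1 ha1 J10 hJl1 hJp1
      (W t1) (hWt1 ▸ hc1)
    obtain ⟨d2, hd2, hd2m⟩ := realC_kids (P t2) hp2 e t2 h2 hm2 hn2 g (hlv ▸ hg) ts2 ha2 J20 hJl2
      hJp2 (W t2) (hWt2 ▸ hc2)
    have hx : ((List.range ts1.length).map (fun i => tm.E t1 (d1 i) g)).Pairwise (· < ·) := by
      rw [List.pairwise_iff_getElem]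
      intro i j hi hj hij
      simp only [List.length_map, List.length_range] at hi hj
      simp only [List.getElem_map, List.getElem_range]
      have hi' := hd1 i _ (List.getElem?_eq_getElem hi)
      have hj' := hd1 j _ (List.getElem?_eq_getElem hj)
      exact tm.Emono t1 _ _ g (hd1m i j hij hj) (hi'.2.1.trans hj'.2.1.symm) hg2' hi'.2.2 hj'.2.2
    have hy : ((List.range ts2.length).map (fun i => tm.E t2 (d2 i) g)).Pairwise (· < ·) := by
      rw [List.pairwise_iff_getElem]
      intro i j hi hj hij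
      simp only [List.length_map, List.length_range] at hi hj
      simp only [List.getElem_map, List.getElem_range]
      have hi' := hd2 i _ (List.getElem?_eq_getElem hi)
      have hj' := hd2 j _ (List.getElem?_eq_getElem hj)
      exact tm.Emono t2 _ _ g (hd2m i j hij hj) (hi'.2.1.trans hj'.2.1.symm) hg2' hi'.2.2 hj'.2.2
    obtain ⟨mx, my, hlen, hcx, hcy, hM⟩ := merge_masks _ _ hx hy
    rw [List.length_map, List.length_range] at hcx hcy
    have hG1 : Gen (mx ++ [true]).length
        (fun J => Win T G (Phi cl lab) ((P t1).adv ts1 (sel (mx ++ [true]) J))) := by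
      refine gen_sel (mx ++ [true]) (φ := fun J => Win T G (Phi cl lab) ((P t1).adv ts1 J)) ?_
      rw [List.count_append, hcx]
      simpa using hg1
    have hG2 : Gen (my ++ [true]).length
        (fun J => Win T G (Phi cl lab) ((P t2).adv ts2 (sel (my ++ [true]) J))) := by
      refine gen_sel (my ++ [true]) (φ := fun J => Win T G (Phi cl lab) ((P t2).adv ts2 J)) ?_
      rw [List.count_append, hcy]
      simpa using hg2
    have hlen' : (my ++ [true]).length = (mx ++ [true]).length := by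
      rw [List.length_append, List.length_append, hlen]
    rw [hlen'] at hG2
    obtain ⟨J', ⟨hJ1, hJ2⟩, hJl, hJp, _⟩ := Gen.exists_incr 0 (Gen.and hG1 hG2)
    have hne : J' ≠ [] := by
      rintro rfl
      simp at hJl
    obtain ⟨F, n, rfl⟩ : ∃ F n, J' = F ++ [n] :=
      ⟨J'.dropLast, J'.getLast hne, (List.dropLast_append_getLast hne).symm⟩
    have hFl : F.length = mx.length := by
      simpa using hJl
    have hFl' : F.length = my.length := hFl.trans hlen
    have hFp : F.Pairwise (· < ·) := (List.pairwise_append.mp hJp).1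
    have hs1 : sel (mx ++ [true]) (F ++ [n]) = sel mx F ++ [n] := sel_append_true mx F n hFl
    have hs2 : sel (my ++ [true]) (F ++ [n]) = sel my F ++ [n] := sel_append_true my F n hFl'
    have hp1' := sel_pairwise (mx ++ [true]) (F ++ [n]) hJp
    have hp2' := sel_pairwise (my ++ [true]) (F ++ [n]) hJp
    rw [hs1] at hJ1 hp1'
    rw [hs2] at hJ2 hp2'
    have hl1 : (sel mx F).length = ts1.length := by rw [sel_length mx F hFl, hcx]
    have hl2 : (sel my F).length = ts2.length := by rw [sel_length my F hFl', hcy]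
    refine ⟨ts1, ts2, sel mx F ++ [n], sel my F ++ [n], ha1, ha2, by simp [hl1], by simp [hl2],
      hp1', hp2', hJ1, hJ2, by simp, ?_⟩
    intro i j a b x y hi hj hx' hy'
    have hi' : i < ts1.length := (List.getElem?_eq_some_iff.mp hi).1
    have hj' : j < ts2.length := (List.getElem?_eq_some_iff.mp hj).1
    rw [List.getElem?_append_left (by omega)] at hx' hy'
    have key := hM F hFl hFp i j (tm.E t1 (d1 i) g) (tm.E t2 (d2 j) g) x y
      (by rw [List.getElem?_map, List.getElem?_range hi']; rfl)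
      (by rw [List.getElem?_map, List.getElem?_range hj']; rfl) hx' hy'
    obtain ⟨ea, oa, la⟩ := hd1 i a hi
    obtain ⟨eb, ob, lb⟩ := hd2 j b hj
    have k1 := tm.labE t1 t2 (d1 i) (d2 j) g ht (oa.trans ob.symm) hg2' la lb
    have k2 := tm.labE t2 t1 (d2 j) (d1 i) g ht.symm (ob.trans oa.symm) hg2' lb la
    have ea2 : a.2 t1 = lab t1 (W t1) (d1 i) g := by rw [ea]; rfl
    have eb2 : b.2 t2 = lab t2 (W t2) (d2 j) g := by rw [eb]; rfl
    rw [ea2, eb2]
    exact ⟨key.1.trans k1, key.2.trans k2⟩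

end

end Pool.Agent.H.MP_2e666d_lc
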