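import Pool.Agent.H.MP_2e666d_lc.RealDef

/-! # The simulation: basic invariants and order of the flags -/

namespace Pool.Agent.H.MP_2e666d_lc

open Pos

theorem RealE_s (p : Pos Tag) (ts : List Tag) (J : List ℕ) (g : ℕ) :
    (p.adv ts J).s p.mv g = if g = p.lv then (p.s p.mv g).tail
      else if g + 1 = p.lv then mkF ts J else p.s p.mv g := by
  rw [adv_s_mv]
  rfl

theorem RealE_ord_aux (p q : Pos Tag) (tsp tsq : List Tag) (Jp Jq : List ℕ) (f f' : Tag → ℕ)
    (hlv : p.lv = q.lv) (lp : Jp.length = tsp.length + 1) (lq : Jq.length = tsq.length + 1)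
    (pp : Jp.Pairwise (· < ·)) (pq : Jq.Pairwise (· < ·))
    (hord : ∀ g ≤ 2, ∀ (i j : ℕ) (a b : Tag), (p.s p.mv g)[i]? = some (some a) →
      (q.s q.mv g)[j]? = some (some b) → (i < j ↔ f a < f' b))
    (ho : ∀ (i j : ℕ) (a b : Tag) (x y : ℕ), tsp[i]? = some a → tsq[j]? = some b →
      Jp[i]? = some x → Jq[j]? = some y → (x < y ↔ f a < f' b)) :
    ∀ g ≤ 2, ∀ (i j : ℕ) (a b : Tag), ((p.adv tsp Jp).s p.mv g)[i]? = some (some a) →
      ((q.adv tsq Jq).s q.mv g)[j]? = some (some b) → (i < j ↔ f a < f' b) := by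
  intro g hg i j a b h1 h2
  rw [RealE_s] at h1 h2
  rw [← hlv] at h2
  split_ifs at h1 h2 with h3 h4
  · rw [List.getElem?_tail] at h1 h2
    have := hord g hg (i + 1) (j + 1) a b h1 h2
    rw [← this]
    omega
  · obtain ⟨i', hi1, hi2⟩ := (mkF_get tsp Jp lp pp i a).1 h1
    obtain ⟨j', hj1, hj2⟩ := (mkF_get tsq Jq lq pq j b).1 h2
    exact ho i' j' a b i j hi1 hj1 hi2 hj2
  · exact hord g hg i j a b h1 h2

theorem RealE_pord_aux (p q : Pos Tag) (tsp tsq : List Tag) (Jp Jq : List ℕ) (f f' : Tag → ℕ)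
    (hlv : p.lv = q.lv)
    (hord : ∀ g ≤ 2, ∀ (i j : ℕ) (a b : Tag), (p.s p.mv g)[i]? = some (some a) →
      (q.s q.mv g)[j]? = some (some b) → (i < j ↔ f a < f' b))
    (hpord : ∀ g ≤ 2, ∀ (k j : ℕ) (a b : Tag), p.path p.mv g = some (k, a) →
      (q.s q.mv g)[j]? = some (some b) → f a < f' b) :
    ∀ g ≤ 2, ∀ (k j : ℕ) (a b : Tag), (p.adv tsp Jp).path p.mv g = some (k, a) →
      ((q.adv tsq Jq).s q.mv g)[j]? = some (some b) → f a < f' b := by
  intro g hg k j a b h1 h2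
  rw [RealE_s] at h2
  rw [adv_path_mv] at h1
  rw [← hlv] at h2
  split_ifs at h1 with h3 h4
  · rw [if_pos h3, List.getElem?_tail] at h2
    have h5 : p.fl = some a := by
      cases hfl : p.fl with
      | none => rw [hfl] at h1; simp at h1
      | some t =>
        rw [hfl] at h1
        simp only [Option.map_some, Option.some.injEq, Prod.mk.injEq] at h1
        rw [h1.2]
    have h6 : (p.s p.mv g)[0]? = some (some a) := by
      unfold fl at h5
      rw [← h3] at h5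
      cases hs : p.s p.mv g with
      | nil => rw [hs] at h5; simp at h5
      | cons c l =>
        rw [hs] at h5
        simp only [List.headD_cons] at h5
        rw [h5]
        rfl
    exact (hord g hg 0 (j + 1) a b h6 h2).1 (by omega)
  · rw [if_neg h3, if_neg (by omega)] at h2
    exact hpord g hg k j a b h1 h2

theorem RealE_rl (x e t : Fin 3) (h : x ≠ e) (h1 : On x t) (h2 : On e t) :
    rl x t = !(rl e t) := by
  revert x e t
  decide

theorem RealE_two (e t1 t2 t : Fin 3) (ht : t1 ≠ t2) (h1 : On e t1) (h2 : On e t2)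
    (h : On e t) : t = t1 ∨ t = t2 := by
  revert e t1 t2 t
  decide

section

variable {T : Set Tag} {G : SimpleGraph B} {cl : List ℕ → ℕ}
  {lab : Fin 3 → List ℕ → ℕ → ℕ → ℕ} {φ1 φ2 : Option Tag} {P : Fin 3 → Pos Tag}

theorem RealE_lv (h : Inv T G cl lab φ1 φ2 P) (e t t' : Fin 3) (h1 : On e t) (h2 : On e t')
    (he : ∀ t, On e t → (P t).mv = rl e t ∧ ¬ (P t).dn (P t).mv) : (P t).lv = (P t').lv := by
  unfold lv
  rw [(he t h1).1, (he t' h2).1]
  exact levL_congr _ _ (fun g => h.syncs e t t' g h1 h2)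

theorem RealE_n1 (P : Fin 3 → Pos Tag) (t1 t2 : Fin 3) (ts1 ts2 : List Tag) (J1 J2 : List ℕ) :
    nextP P t1 t2 ts1 ts2 J1 J2 t1 = (P t1).adv ts1 J1 := by
  unfold nextP
  rw [if_pos rfl]

theorem RealE_n2 (P : Fin 3 → Pos Tag) (t1 t2 : Fin 3) (ht : t1 ≠ t2) (ts1 ts2 : List Tag)
    (J1 J2 : List ℕ) :
    nextP P t1 t2 ts1 ts2 J1 J2 t2 = (P t2).adv ts2 J2 := by
  unfold nextP
  rw [if_neg (fun h => ht h.symm), if_pos rfl]

theorem RealE_n3 (P : Fin 3 → Pos Tag) (t1 t2 t : Fin 3) (h1 : t ≠ t1) (h2 : t ≠ t2)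
    (ts1 ts2 : List Tag) (J1 J2 : List ℕ) :
    nextP P t1 t2 ts1 ts2 J1 J2 t = P t := by
  unfold nextP
  rw [if_neg h1, if_neg h2]

/-- nothing changes for the other players -/
theorem RealE_other (P : Fin 3 → Pos Tag) (e t1 t2 : Fin 3)
    (ht : t1 ≠ t2) (h1 : On e t1) (h2 : On e t2)
    (he : ∀ t, On e t → (P t).mv = rl e t ∧ ¬ (P t).dn (P t).mv)
    (ts1 ts2 : List Tag) (J1 J2 : List ℕ) (x t : Fin 3) (hx : x ≠ e) (hxt : On x t) :
    (nextP P t1 t2 ts1 ts2 J1 J2 t).s (rl x t) = (P t).s (rl x t) ∧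
    (nextP P t1 t2 ts1 ts2 J1 J2 t).v (rl x t) = (P t).v (rl x t) ∧
    (nextP P t1 t2 ts1 ts2 J1 J2 t).path (rl x t) = (P t).path (rl x t) := by
  by_cases hc1 : t = t1
  · subst hc1
    rw [RealE_n1, RealE_rl x e t hx hxt h1, ← (he t h1).1]
    exact ⟨adv_s_other _ _ _, adv_v_other _ _ _, adv_path_other _ _ _⟩
  · by_cases hc2 : t = t2
    · subst hc2
      rw [RealE_n2 P t1 t ht, RealE_rl x e t hx hxt h2, ← (he t h2).1]
      exact ⟨adv_s_other _ _ _, adv_v_other _ _ _, adv_path_other _ _ _⟩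
    · rw [RealE_n3 P t1 t2 t hc1 hc2]
      exact ⟨rfl, rfl, rfl⟩

theorem RealE_self (P : Fin 3 → Pos Tag) (e t1 t2 : Fin 3)
    (ht : t1 ≠ t2) (h1 : On e t1) (h2 : On e t2)
    (he : ∀ t, On e t → (P t).mv = rl e t ∧ ¬ (P t).dn (P t).mv)
    (ts1 ts2 : List Tag) (J1 J2 : List ℕ) (hJ : J1.getLastD 0 = J2.getLastD 0)
    (t : Fin 3) (hxt : On e t) :
    (nextP P t1 t2 ts1 ts2 J1 J2 t).v (rl e t) = (P t).v (rl e t) ++ [J1.getLastD 0] ∧
    ∀ g, ((nextP P t1 t2 ts1 ts2 J1 J2 t).s (rl e t) g).length =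
      rd (fun g => ((P t).s (rl e t) g).length) (J1.getLastD 0) g := by
  rcases RealE_two e t1 t2 t ht h1 h2 hxt with hc | hc
  · subst hc
    rw [RealE_n1, ← (he t h1).1, adv_v_mv, adv_s_mv]
    exact ⟨rfl, fun g => newS_length _ _ _ g⟩
  · subst hc
    rw [RealE_n2 P t1 t ht, ← (he t h2).1, adv_v_mv, adv_s_mv, hJ]
    exact ⟨rfl, fun g => newS_length _ _ _ g⟩

theorem inv_next_basic (hH : HLab cl lab) (h : Inv T G cl lab φ1 φ2 P) (e t1 t2 : Fin 3)
    (ht : t1 ≠ t2) (h1 : On e t1) (h2 : On e t2)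
    (he : ∀ t, On e t → (P t).mv = rl e t ∧ ¬ (P t).dn (P t).mv)
    (ts1 ts2 : List Tag) (J1 J2 : List ℕ)
    (a1 : (P t1).Ann T ts1) (a2 : (P t2).Ann T ts2)
    (l1 : J1.length = ts1.length + 1) (l2 : J2.length = ts2.length + 1)
    (p1 : J1.Pairwise (· < ·)) (p2 : J2.Pairwise (· < ·))
    (w1 : Win T G (Phi cl lab) ((P t1).adv ts1 J1))
    (w2 : Win T G (Phi cl lab) ((P t2).adv ts2 J2))
    (hJ : J1.getLastD 0 = J2.getLastD 0)
    (ho : ∀ (i j : ℕ) (a b : Tag) (x y : ℕ), ts1[i]? = some a → ts2[j]? = some b → J1[i]? = some x →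
      J2[j]? = some y → ((x < y ↔ a.2 t1 < b.2 t2) ∧ (y < x ↔ b.2 t2 < a.2 t1))) :
    (∀ t, Win T G (Phi cl lab) (nextP P t1 t2 ts1 ts2 J1 J2 t)) ∧
    (∀ t, Reach T φ1 φ2 (nextP P t1 t2 ts1 ts2 J1 J2 t)) ∧
    (∀ e t t', On e t → On e t' → (nextP P t1 t2 ts1 ts2 J1 J2 t).v (rl e t) =
      (nextP P t1 t2 ts1 ts2 J1 J2 t').v (rl e t')) ∧
    (∀ e t t' g, On e t → On e t' → ((nextP P t1 t2 ts1 ts2 J1 J2 t).s (rl e t) g).length =
      ((nextP P t1 t2 ts1 ts2 J1 J2 t').s (rl e t') g).length) := by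
  refine ⟨?_, ?_, ?_, ?_⟩
  · intro t
    by_cases hc1 : t = t1
    · subst hc1
      rw [RealE_n1]
      exact w1
    · by_cases hc2 : t = t2
      · subst hc2
        rw [RealE_n2 P t1 t ht]
        exact w2
      · rw [RealE_n3 P t1 t2 t hc1 hc2]
        exact h.win t
  · intro t
    by_cases hc1 : t = t1
    · subst hc1
      rw [RealE_n1]
      exact Reach.step _ _ _ (h.reach t) (he t h1).2 a1 l1 p1
    · by_cases hc2 : t = t2
      · subst hc2
        rw [RealE_n2 P t1 t ht]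
        exact Reach.step _ _ _ (h.reach t) (he t h2).2 a2 l2 p2
      · rw [RealE_n3 P t1 t2 t hc1 hc2]
        exact h.reach t
  · intro x t t' hx hx'
    by_cases hxe : x = e
    · subst hxe
      rw [(RealE_self P x t1 t2 ht h1 h2 he ts1 ts2 J1 J2 hJ t hx).1,
        (RealE_self P x t1 t2 ht h1 h2 he ts1 ts2 J1 J2 hJ t' hx').1, h.syncv x t t' hx hx']
    · rw [(RealE_other P e t1 t2 ht h1 h2 he ts1 ts2 J1 J2 x t hxe hx).2.1,
        (RealE_other P e t1 t2 ht h1 h2 he ts1 ts2 J1 J2 x t' hxe hx').2.1]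
      exact h.syncv x t t' hx hx'
  · intro x t t' g hx hx'
    by_cases hxe : x = e
    · subst hxe
      rw [(RealE_self P x t1 t2 ht h1 h2 he ts1 ts2 J1 J2 hJ t hx).2,
        (RealE_self P x t1 t2 ht h1 h2 he ts1 ts2 J1 J2 hJ t' hx').2]
      have : (fun g => ((P t).s (rl x t) g).length) = fun g => ((P t').s (rl x t') g).length := by
        funext g
        exact h.syncs x t t' g hx hx'
      rw [this]
    · rw [(RealE_other P e t1 t2 ht h1 h2 he ts1 ts2 J1 J2 x t hxe hx).1,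
        (RealE_other P e t1 t2 ht h1 h2 he ts1 ts2 J1 J2 x t' hxe hx').1]
      exact h.syncs x t t' g hx hx'

theorem inv_next_ord (hH : HLab cl lab) (h : Inv T G cl lab φ1 φ2 P) (e t1 t2 : Fin 3)
    (ht : t1 ≠ t2) (h1 : On e t1) (h2 : On e t2)
    (he : ∀ t, On e t → (P t).mv = rl e t ∧ ¬ (P t).dn (P t).mv)
    (ts1 ts2 : List Tag) (J1 J2 : List ℕ)
    (a1 : (P t1).Ann T ts1) (a2 : (P t2).Ann T ts2)
    (l1 : J1.length = ts1.length + 1) (l2 : J2.length = ts2.length + 1)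
    (p1 : J1.Pairwise (· < ·)) (p2 : J2.Pairwise (· < ·))
    (w1 : Win T G (Phi cl lab) ((P t1).adv ts1 J1))
    (w2 : Win T G (Phi cl lab) ((P t2).adv ts2 J2))
    (hJ : J1.getLastD 0 = J2.getLastD 0)
    (ho : ∀ (i j : ℕ) (a b : Tag) (x y : ℕ), ts1[i]? = some a → ts2[j]? = some b → J1[i]? = some x →
      J2[j]? = some y → ((x < y ↔ a.2 t1 < b.2 t2) ∧ (y < x ↔ b.2 t2 < a.2 t1))) :
    ∀ e t t', t ≠ t' → On e t → On e t' → ∀ g ≤ 2, ∀ (i j : ℕ) (a b : Tag),
    ((nextP P t1 t2 ts1 ts2 J1 J2 t).s (rl e t) g)[i]? = some (some a) →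
      ((nextP P t1 t2 ts1 ts2 J1 J2 t').s (rl e t') g)[j]? = some (some b) →
      (i < j ↔ a.2 t < b.2 t') := by
  intro x t t' htt hx hx' g hg
  by_cases hxe : x = e
  · subst hxe
    rcases RealE_two x t1 t2 t ht h1 h2 hx with hc | hc
    · have hc' : t' = t2 := by
        rcases RealE_two x t1 t2 t' ht h1 h2 hx' with hc' | hc'
        · exact absurd (hc.trans hc'.symm) htt
        · exact hc'
      subst hc
      subst hc'
      rw [RealE_n1, RealE_n2 P t t' ht, ← (he t hx).1, ← (he t' hx').1]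
      refine RealE_ord_aux (P t) (P t') ts1 ts2 J1 J2 (fun a => a.2 t) (fun a => a.2 t')
        (RealE_lv h x t t' hx hx' he) l1 l2 p1 p2 ?_ ?_ g hg
      · intro g hg i j a b hi hj
        rw [(he t hx).1] at hi
        rw [(he t' hx').1] at hj
        exact h.ord x t t' htt hx hx' g hg i j a b hi hj
      · intro i j a b y z hi hj hy hz
        exact (ho i j a b y z hi hj hy hz).1
    · have hc' : t' = t1 := by
        rcases RealE_two x t1 t2 t' ht h1 h2 hx' with hc' | hc'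
        · exact hc'
        · exact absurd (hc.trans hc'.symm) htt
      subst hc
      subst hc'
      rw [RealE_n1, RealE_n2 P t' t ht, ← (he t hx).1, ← (he t' hx').1]
      refine RealE_ord_aux (P t) (P t') ts2 ts1 J2 J1 (fun a => a.2 t) (fun a => a.2 t')
        (RealE_lv h x t t' hx hx' he) l2 l1 p2 p1 ?_ ?_ g hg
      · intro g hg i j a b hi hj
        rw [(he t hx).1] at hi
        rw [(he t' hx').1] at hj
        exact h.ord x t t' htt hx hx' g hg i j a b hi hj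
      · intro i j a b y z hi hj hy hz
        exact (ho j i b a z y hj hi hz hy).2
  · intro i j a b hi hj
    rw [(RealE_other P e t1 t2 ht h1 h2 he ts1 ts2 J1 J2 x t hxe hx).1] at hi
    rw [(RealE_other P e t1 t2 ht h1 h2 he ts1 ts2 J1 J2 x t' hxe hx').1] at hj
    exact h.ord x t t' htt hx hx' g hg i j a b hi hj

theorem inv_next_pord (hH : HLab cl lab) (h : Inv T G cl lab φ1 φ2 P) (e t1 t2 : Fin 3)
    (ht : t1 ≠ t2) (h1 : On e t1) (h2 : On e t2)
    (he : ∀ t, On e t → (P t).mv = rl e t ∧ ¬ (P t).dn (P t).mv)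
    (ts1 ts2 : List Tag) (J1 J2 : List ℕ)
    (a1 : (P t1).Ann T ts1) (a2 : (P t2).Ann T ts2)
    (l1 : J1.length = ts1.length + 1) (l2 : J2.length = ts2.length + 1)
    (p1 : J1.Pairwise (· < ·)) (p2 : J2.Pairwise (· < ·))
    (w1 : Win T G (Phi cl lab) ((P t1).adv ts1 J1))
    (w2 : Win T G (Phi cl lab) ((P t2).adv ts2 J2))
    (hJ : J1.getLastD 0 = J2.getLastD 0)
    (ho : ∀ (i j : ℕ) (a b : Tag) (x y : ℕ), ts1[i]? = some a → ts2[j]? = some b → J1[i]? = some x →
      J2[j]? = some y → ((x < y ↔ a.2 t1 < b.2 t2) ∧ (y < x ↔ b.2 t2 < a.2 t1))) :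
    ∀ e t t', t ≠ t' → On e t → On e t' → ∀ g ≤ 2, ∀ (k j : ℕ) (a b : Tag),
    (nextP P t1 t2 ts1 ts2 J1 J2 t).path (rl e t) g = some (k, a) →
      ((nextP P t1 t2 ts1 ts2 J1 J2 t').s (rl e t') g)[j]? = some (some b) →
      a.2 t < b.2 t' := by
  intro x t t' htt hx hx' g hg
  by_cases hxe : x = e
  · subst hxe
    rcases RealE_two x t1 t2 t ht h1 h2 hx with hc | hc
    · have hc' : t' = t2 := by
        rcases RealE_two x t1 t2 t' ht h1 h2 hx' with hc' | hc'
        · exact absurd (hc.trans hc'.symm) htt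
        · exact hc'
      subst hc
      subst hc'
      rw [RealE_n1, RealE_n2 P t t' ht, ← (he t hx).1, ← (he t' hx').1]
      refine RealE_pord_aux (P t) (P t') ts1 ts2 J1 J2 (fun a => a.2 t) (fun a => a.2 t')
        (RealE_lv h x t t' hx hx' he) ?_ ?_ g hg
      · intro g hg i j a b hi hj
        rw [(he t hx).1] at hi
        rw [(he t' hx').1] at hj
        exact h.ord x t t' htt hx hx' g hg i j a b hi hj
      · intro g hg k j a b hi hj
        rw [(he t hx).1] at hi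
        rw [(he t' hx').1] at hj
        exact h.pord x t t' htt hx hx' g hg k j a b hi hj
    · have hc' : t' = t1 := by
        rcases RealE_two x t1 t2 t' ht h1 h2 hx' with hc' | hc'
        · exact hc'
        · exact absurd (hc.trans hc'.symm) htt
      subst hc
      subst hc'
      rw [RealE_n1, RealE_n2 P t' t ht, ← (he t hx).1, ← (he t' hx').1]
      refine RealE_pord_aux (P t) (P t') ts2 ts1 J2 J1 (fun a => a.2 t) (fun a => a.2 t')
        (RealE_lv h x t t' hx hx' he) ?_ ?_ g hg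
      · intro g hg i j a b hi hj
        rw [(he t hx).1] at hi
        rw [(he t' hx').1] at hj
        exact h.ord x t t' htt hx hx' g hg i j a b hi hj
      · intro g hg k j a b hi hj
        rw [(he t hx).1] at hi
        rw [(he t' hx').1] at hj
        exact h.pord x t t' htt hx hx' g hg k j a b hi hj
  · intro k j a b hi hj
    rw [(RealE_other P e t1 t2 ht h1 h2 he ts1 ts2 J1 J2 x t hxe hx).2.2] at hi
    rw [(RealE_other P e t1 t2 ht h1 h2 he ts1 ts2 J1 J2 x t' hxe hx').1] at hj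
    exact h.pord x t t' htt hx hx' g hg k j a b hi hj

end

end Pool.Agent.H.MP_2e666d_lc
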