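import Pool.Agent.H.MP_2e666d_lc.RealD

/-! # The simulation: the blocks which are done -/

namespace Pool.Agent.H.MP_2e666d_lc

open Pos

section

variable {T : Set Tag} {G : SimpleGraph B} {cl : List ℕ → ℕ}
  {lab : Fin 3 → List ℕ → ℕ → ℕ → ℕ} {φ1 φ2 : Option Tag} {P : Fin 3 → Pos Tag}

theorem RealF_two (e t1 t2 t : Fin 3) (ht : t1 ≠ t2) (h1 : On e t1) (h2 : On e t2)
    (h : On e t) : t = t1 ∨ t = t2 := by
  revert e t1 t2 t
  decide

theorem RealF_swap (P : Fin 3 → Pos Tag) (t1 t2 : Fin 3) (ht : t1 ≠ t2) (ts1 ts2 : List Tag)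
    (J1 J2 : List ℕ) : nextP P t2 t1 ts2 ts1 J2 J1 = nextP P t1 t2 ts1 ts2 J1 J2 := by
  funext t
  unfold nextP
  by_cases h1 : t = t1
  · rw [if_neg (by rw [h1]; exact ht), if_pos h1, if_pos h1]
  · by_cases h2 : t = t2
    · rw [if_pos h2, if_neg h1, if_pos h2]
    · rw [if_neg h2, if_neg h1, if_neg h1, if_neg h2]

theorem RealF_len (p : Pos Tag) (ts : List Tag) (J : List ℕ) :
    ((p.adv ts J).W ≠ p.W → (p.adv ts J).W.length = p.W.length + 1) ∧
      (¬ (p.adv ts J).W ≠ p.W → (p.adv ts J).W.length = p.W.length) := by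
  constructor
  · intro h
    rcases adv_W p ts J with hh | hh | hh
    · rw [hh.2.1, List.length_append, List.length_singleton]
    · rw [hh.2.2.2.1, List.length_append, List.length_singleton]
    · exact absurd hh.2.2.1 h
  · intro h
    rw [not_not.mp h]

theorem inv_next_D (hH : HLab cl lab) (h : Inv T G cl lab φ1 φ2 P) (e t1 t2 : Fin 3)
    (ht : t1 ≠ t2) (h1 : On e t1) (h2 : On e t2)
    (he : ∀ t, On e t → (P t).mv = rl e t ∧ ¬ (P t).dn (P t).mv)
    (ts1 ts2 : List Tag) (J1 J2 : List ℕ)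
    (a1 : (P t1).Ann T ts1) (a2 : (P t2).Ann T ts2)
    (l1 : J1.length = ts1.length + 1) (l2 : J2.length = ts2.length + 1)
    (p1 : J1.Pairwise (· < ·)) (p2 : J2.Pairwise (· < ·))
    (w1 : Win T G (Phi cl lab) ((P t1).adv ts1 J1))
    (w2 : Win T G (Phi cl lab) ((P t2).adv ts2 J2))
    (hJ : J1.getLastD 0 = J2.getLastD 0)
    (ho : ∀ (i j : ℕ) (a b : Tag) (x y : ℕ), ts1[i]? = some a → ts2[j]? = some b → J1[i]? = some x →
      J2[j]? = some y → ((x < y ↔ a.2 t1 < b.2 t2) ∧ (y < x ↔ b.2 t2 < a.2 t1))) :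
    ∀ W : Fin 3 → List ℕ, (∀ t, Comp T (Phi cl lab) (nextP P t1 t2 ts1 ts2 J1 J2 t) (W t)) →
      ∀ tm : Tim W lab, ∃ θ, ∀ t k, k < (W t).length →
        (k < (nextP P t1 t2 ts1 ts2 J1 J2 t).W.length ↔ tm.L t k < θ) := by
  intro W hW tm
  have n1 : nextP P t1 t2 ts1 ts2 J1 J2 t1 = (P t1).adv ts1 J1 := by
    unfold nextP
    rw [if_pos rfl]
  have n2 : nextP P t1 t2 ts1 ts2 J1 J2 t2 = (P t2).adv ts2 J2 := by
    unfold nextP
    rw [if_neg ht.symm, if_pos rfl]
  have n3 : ∀ t, t ≠ t1 → t ≠ t2 → nextP P t1 t2 ts1 ts2 J1 J2 t = P t := by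
    intro t x1 x2
    unfold nextP
    rw [if_neg x1, if_neg x2]
  have hC : ∀ t, Comp T (Phi cl lab) (P t) (W t) := by
    intro t
    have hWt := hW t
    by_cases x1 : t = t1
    · subst x1
      rw [n1] at hWt
      exact Comp.step (P t) ts1 J1 (W t) (he t h1).2 a1 l1 p1 hWt
    · by_cases x2 : t = t2
      · subst x2
        rw [n2] at hWt
        exact Comp.step (P t) ts2 J2 (W t) (he t h2).2 a2 l2 p2 hWt
      · rw [n3 t x1 x2] at hWt
        exact hWt
  obtain ⟨θ, hθ⟩ := h.D W hC tm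
  refine tm.next (fun t => (P t).W.length) θ hθ e ?_
    (fun t => (nextP P t1 t2 ts1 ts2 J1 J2 t).W ≠ (P t).W) ?_ ?_
    (fun t => (nextP P t1 t2 ts1 ts2 J1 J2 t).W.length) ?_
  · intro t hon
    obtain ⟨m, d⟩ := he t hon
    refine ⟨((comp_len (pi_reach (h.reach t)) (hC t)).1 d).1, ?_⟩
    have : owner t (P t).W.length = pl t (P t).mv := rfl
    rw [this, m, RealD_pl_rl hon]
  · intro t hs
    by_cases x1 : t = t1
    · rw [x1]
      exact h1
    · by_cases x2 : t = t2
      · rw [x2]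
        exact h2
      · exact absurd (by rw [n3 t x1 x2]) hs
  · intro t t' hne hon hon' hs
    rcases RealF_two e t1 t2 t ht h1 h2 hon with x1 | x1
    · have x2 : t' = t2 := by
        rcases RealF_two e t1 t2 t' ht h1 h2 hon' with x2 | x2
        · exact absurd (x1.trans x2.symm) hne
        · exact x2
      subst x1 x2
      have hs' : ((P t).adv ts1 J1).W ≠ (P t).W := by
        have hs0 : (nextP P t t' ts1 ts2 J1 J2 t).W ≠ (P t).W := hs
        rwa [n1] at hs0
      have key := inv_ends hH h e t t' ht h1 h2 he ts1 ts2 J1 J2 a1 a2 l1 l2 p1 p2 hJ W hW tm hs'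
      rw [← n2] at key
      rcases key with key | key
      · exact Or.inl key
      · exact Or.inr ⟨fun hx => hx key.1, key.2⟩
    · have x2 : t' = t1 := by
        rcases RealF_two e t1 t2 t' ht h1 h2 hon' with x2 | x2
        · exact x2
        · exact absurd (x1.trans x2.symm) hne
      subst x1 x2
      have hs' : ((P t).adv ts2 J2).W ≠ (P t).W := by
        have hs0 : (nextP P t' t ts1 ts2 J1 J2 t).W ≠ (P t).W := hs
        rwa [n2] at hs0
      have hW' : ∀ r, Comp T (Phi cl lab) (nextP P t t' ts2 ts1 J2 J1 r) (W r) := by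
        rw [RealF_swap P t' t ht ts1 ts2 J1 J2]
        exact hW
      have key := inv_ends hH h e t t' ht.symm h2 h1 he ts2 ts1 J2 J1 a2 a1 l2 l1 p2 p1 hJ.symm
        W hW' tm hs'
      rw [← n1] at key
      rcases key with key | key
      · exact Or.inl key
      · exact Or.inr ⟨fun hx => hx key.1, key.2⟩
  · intro t
    by_cases x1 : t = t1
    · subst x1
      have := RealF_len (P t) ts1 J1
      rw [← n1] at this
      exact this
    · by_cases x2 : t = t2
      · subst x2
        have := RealF_len (P t) ts2 J2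
        rw [← n2] at this
        exact this
      · have x3 := n3 t x1 x2
        constructor
        · intro hs
          exact absurd (by rw [x3]) hs
        · intro _
          show (nextP P t1 t2 ts1 ts2 J1 J2 t).W.length = (P t).W.length
          rw [x3]

end

end Pool.Agent.H.MP_2e666d_lc
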