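import Pool.Agent.H.MP_2e666d_lc.RealDef

/-! # The simulation: termination -/

namespace Pool.Agent.H.MP_2e666d_lc

open Pos

/-- the lexicographic comparison -/
theorem RealG_lex (f f' : ℕ → ℕ) (k : ℕ) (hk : k ≤ 3) (h1 : ∀ g, k < g → f' g = f g)
    (h2 : f' k < f k) :
    (toLex (f' 3, toLex (f' 2, toLex (f' 1, f' 0))) : ℕ ×ₗ ℕ ×ₗ ℕ ×ₗ ℕ) <
      toLex (f 3, toLex (f 2, toLex (f 1, f 0))) := by
  rw [Prod.Lex.toLex_lt_toLex]
  by_cases h3 : k = 3
  · subst h3
    exact Or.inl h2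
  · refine Or.inr ⟨h1 3 (by omega), ?_⟩
    rw [Prod.Lex.toLex_lt_toLex]
    by_cases h4 : k = 2
    · subst h4
      exact Or.inl h2
    · refine Or.inr ⟨h1 2 (by omega), ?_⟩
      rw [Prod.Lex.toLex_lt_toLex]
      by_cases h5 : k = 1
      · subst h5
        exact Or.inl h2
      · refine Or.inr ⟨h1 1 (by omega), ?_⟩
        have h6 : k = 0 := by omega
        subst h6
        exact h2

/-- number of pending draws of level `g` -/
def RealG_N (p : Pos Tag) (g : ℕ) : ℕ := (p.s false g).length + (p.s true g).length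

theorem RealG_N_eq (p : Pos Tag) (u : Bool) (g : ℕ) :
    RealG_N p g = (p.s u g).length + (p.s (!u) g).length := by
  unfold RealG_N
  cases u
  · rfl
  · exact add_comm _ _

theorem RealG_adv (p : Pos Tag) (hp : ¬ p.dn p.mv) (ts : List Tag) (J : List ℕ) :
    (∀ g, p.lv < g → RealG_N (p.adv ts J) g = RealG_N p g) ∧
      RealG_N (p.adv ts J) p.lv < RealG_N p p.lv := by
  have hs : ∀ g, RealG_N (p.adv ts J) g =
      (newS (p.s p.mv) ts J g).length + (p.s (!p.mv) g).length := by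
    intro g
    rw [RealG_N_eq _ p.mv, adv_s_mv, adv_s_other]
  refine ⟨?_, ?_⟩
  · intro g hg
    have hg' : levL (p.s p.mv) < g := hg
    rw [hs, RealG_N_eq p p.mv]
    unfold newS
    rw [if_neg (by omega), if_neg (by omega)]
  · rw [hs, RealG_N_eq p p.mv]
    have h1 : p.s p.mv p.lv ≠ [] := (levL_spec (p.s p.mv) hp).1
    have h2 : 0 < (p.s p.mv p.lv).length := List.length_pos_iff.2 h1
    have h3 : (newS (p.s p.mv) ts J p.lv).length = (p.s p.mv p.lv).length - 1 := by
      unfold newS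
      rw [if_pos (show p.lv = levL (p.s p.mv) from rfl), List.length_tail]
    rw [h3]
    omega

section

variable {T : Set Tag} {G : SimpleGraph B} {cl : List ℕ → ℕ}
  {lab : Fin 3 → List ℕ → ℕ → ℕ → ℕ} {φ1 φ2 : Option Tag} {P : Fin 3 → Pos Tag}

theorem tot_lt (h : Inv T G cl lab φ1 φ2 P) (e t1 t2 : Fin 3)
    (ht : t1 ≠ t2) (h1 : On e t1) (h2 : On e t2)
    (he : ∀ t, On e t → (P t).mv = rl e t ∧ ¬ (P t).dn (P t).mv)
    (ts1 ts2 : List Tag) (J1 J2 : List ℕ) (hJ : J1.getLastD 0 = J2.getLastD 0) :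
    tot (nextP P t1 t2 ts1 ts2 J1 J2) < tot P := by
  have hlv : (P t2).lv = (P t1).lv := by
    unfold lv
    apply levL_congr
    intro g
    rw [(he t1 h1).1, (he t2 h2).1]
    exact h.syncs e t2 t1 g h2 h1
  obtain ⟨a1, b1⟩ := RealG_adv (P t1) (he t1 h1).2 ts1 J1
  obtain ⟨a2, b2⟩ := RealG_adv (P t2) (he t2 h2).2 ts2 J2
  rw [hlv] at a2 b2
  have hle : (P t1).lv ≤ 3 := by
    by_contra hcon
    exact (levL_spec _ (he t1 h1).2).1 ((pi_reach (h.reach t1)).sup _ _ (by
      have : ¬ (P t1).lv ≤ 3 := hcon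
      unfold lv at this
      omega))
  refine RealG_lex (fun g => ∑ t, RealG_N (P t) g)
    (fun g => ∑ t, RealG_N (nextP P t1 t2 ts1 ts2 J1 J2 t) g) (P t1).lv hle ?_ ?_
  · intro g hg
    refine Finset.sum_congr rfl fun t _ => ?_
    unfold nextP
    split_ifs with c1 c2
    · rw [c1]
      exact a1 g hg
    · rw [c2]
      exact a2 g hg
    · rfl
  · refine Finset.sum_lt_sum ?_ ⟨t1, Finset.mem_univ _, ?_⟩
    · intro t _
      unfold nextP
      split_ifs with c1 c2
      · rw [c1]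
        exact b1.le
      · rw [c2]
        exact b2.le
      · exact le_rfl
    · unfold nextP
      rw [if_pos rfl]
      exact b1

end

end Pool.Agent.H.MP_2e666d_lc
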