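import Pool.Agent.H.MP_2e666d_lc.RealB
import Pool.Agent.H.MP_2e666d_lc.RealC
import Pool.Agent.H.MP_2e666d_lc.RealE
import Pool.Agent.H.MP_2e666d_lc.RealF
import Pool.Agent.H.MP_2e666d_lc.RealG

/-! # The realization: a winning pair game gives a triangle -/

namespace Pool.Agent.H.MP_2e666d_lc

open Pos

section

variable {T : Set Tag} {G : SimpleGraph B} {cl : List ℕ → ℕ}
  {lab : Fin 3 → List ℕ → ℕ → ℕ → ℕ} {φ1 φ2 : Option Tag} {P : Fin 3 → Pos Tag}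

/-- the invariant is preserved -/
theorem inv_next (hH : HLab cl lab) (h : Inv T G cl lab φ1 φ2 P) (e t1 t2 : Fin 3)
    (ht : t1 ≠ t2) (h1 : On e t1) (h2 : On e t2)
    (he : ∀ t, On e t → (P t).mv = rl e t ∧ ¬ (P t).dn (P t).mv)
    (ts1 ts2 : List Tag) (J1 J2 : List ℕ)
    (a1 : (P t1).Ann T ts1) (a2 : (P t2).Ann T ts2)
    (l1 : J1.length = ts1.length + 1) (l2 : J2.length = ts2.length + 1)
    (p1 : J1.Pairwise (· < ·)) (p2 : J2.Pairwise (· < ·))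
    (w1 : Win T G (Phi cl lab) ((P t1).adv ts1 J1))
    (w2 : Win T G (Phi cl lab) ((P t2).adv ts2 J2))
    (hJ : J1.getLastD 0 = J2.getLastD 0)
    (ho : ∀ (i j : ℕ) (a b : Tag) (x y : ℕ), ts1[i]? = some a → ts2[j]? = some b → J1[i]? = some x →
      J2[j]? = some y → ((x < y ↔ a.2 t1 < b.2 t2) ∧ (y < x ↔ b.2 t2 < a.2 t1))) :
    Inv T G cl lab φ1 φ2 (nextP P t1 t2 ts1 ts2 J1 J2) := by
  obtain ⟨b1, b2, b3, b4⟩ := inv_next_basic hH h e t1 t2 ht h1 h2 he ts1 ts2 J1 J2 a1 a2 l1 l2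
    p1 p2 w1 w2 hJ ho
  exact
    { win := b1
      reach := b2
      syncv := b3
      syncs := b4
      ord := inv_next_ord hH h e t1 t2 ht h1 h2 he ts1 ts2 J1 J2 a1 a2 l1 l2 p1 p2 w1 w2 hJ ho
      pord := inv_next_pord hH h e t1 t2 ht h1 h2 he ts1 ts2 J1 J2 a1 a2 l1 l2 p1 p2 w1 w2 hJ ho
      D := inv_next_D hH h e t1 t2 ht h1 h2 he ts1 ts2 J1 J2 a1 a2 l1 l2 p1 p2 w1 w2 hJ ho }

end

theorem Real_two (e : Fin 3) : ∃ t1 t2, t1 ≠ t2 ∧ On e t1 ∧ On e t2 := by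
  revert e
  decide

/-- every position of the simulation with the invariant gives a triangle -/
theorem Real_aux (T : Set Tag) (G : SimpleGraph B) (cl : List ℕ → ℕ)
    (lab : Fin 3 → List ℕ → ℕ → ℕ → ℕ) (hH : HLab cl lab) (φ1 φ2 : Option Tag)
    (P : Fin 3 → Pos Tag) (h : Inv T G cl lab φ1 φ2 P) :
    ∃ x y z, G.Adj x y ∧ G.Adj x z ∧ G.Adj y z := by
  induction hn : tot P using WellFoundedLT.induction generalizing P with
  | ind n ih =>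
    by_cases hd : ∀ t, (P t).dn (P t).mv ∧ (P t).dn (!(P t).mv)
    · exact inv_final h hd
    · obtain ⟨e, he⟩ := inv_mover hH h hd
      obtain ⟨t1, t2, ht, h1, h2⟩ := Real_two e
      obtain ⟨ts1, ts2, J1, J2, a1, a2, l1, l2, p1, p2, w1, w2, hJ, ho⟩ :=
        inv_choice hH h e t1 t2 ht h1 h2 he
      refine ih (tot (nextP P t1 t2 ts1 ts2 J1 J2)) ?_ (nextP P t1 t2 ts1 ts2 J1 J2) ?_ rfl
      · rw [← hn]
        exact tot_lt h e t1 t2 ht h1 h2 he ts1 ts2 J1 J2 hJ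
      · exact inv_next hH h e t1 t2 ht h1 h2 he ts1 ts2 J1 J2 a1 a2 l1 l2 p1 p2 w1 w2 hJ ho

/-- the realization theorem -/
theorem realize (T : Set Tag) (G : SimpleGraph B) (cl : List ℕ → ℕ)
    (lab : Fin 3 → List ℕ → ℕ → ℕ → ℕ) (hH : HLab cl lab) (φ1 φ2 : Option Tag)
    (h : Win T G (Phi cl lab) (start φ1 φ2)) : ∃ x y z, G.Adj x y ∧ G.Adj x z ∧ G.Adj y z :=
  Real_aux T G cl lab hH φ1 φ2 (fun _ => start φ1 φ2) (inv_start h)

end Pool.Agent.H.MP_2e666d_lc
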