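import Pool.Agent.H.MP_2e666d_lc.EM
import Pool.Agent.H.MP_2e666d_lc.Dich
import Pool.Agent.H.MP_2e666d_lc.Real
import Pool.Agent.H.MP_2e666d_lc.HLabEx

/-! # The positive half -/

namespace Pool.Agent.H.MP_2e666d_lc

open Pos

/-- `ω^(ω^3) → (ω^(ω^3), 3)`, given the finite statement -/
theorem positive (hFS : FS) (G : SimpleGraph B) (h3 : G.CliqueFree 3) :
    ∃ f : B ↪o B, ∀ x y, ¬ G.Adj (f x) (f y) := by
  obtain ⟨e, he⟩ := em_step G h3
  obtain ⟨cl, lab, hfin, hH⟩ := exists_hlab hFS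
  have h3' : (G.comap e).CliqueFree 3 := by
    exact SimpleGraph.CliqueFree.comap ⟨(SimpleGraph.Embedding.comap e.toEmbedding G).toCopy⟩ h3
  rcases dichotomy (G := G.comap e) (Φ := Phi cl lab)
    (T := Set.range (fun x : List ℕ × ℕ × ℕ => Phi cl lab x.1 x.2.1 x.2.2))
    (fun x y hxy => he x y hxy) hfin (fun W k g => ⟨(W, k, g), rfl⟩) with ⟨f, hf⟩ | ⟨φ1, φ2, hw⟩
  · exact ⟨f.trans e, fun x y => hf x y⟩
  · exfalso
    obtain ⟨x, y, z, hxy, hxz, hyz⟩ := realize _ _ cl lab hH φ1 φ2 hw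
    refine h3' {x, y, z} ?_
    exact SimpleGraph.is3Clique_triple_iff.mpr ⟨hxy, hxz, hyz⟩

end Pool.Agent.H.MP_2e666d_lc
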