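import Mathlib

/-!
# Negative half: there are no four elements all of whose pairs have the pattern 330121044

An element is described by the relation `H v j`: it has a draw of level `j` at time `v`.
-/

set_option autoImplicit false

namespace Pool.Agent.H.MP_2e666d_lc.Neg

/-- an element -/
abbrev El : Type := ℤ → ℕ → Prop

/-- The pair `(H, K)` has the pattern `330121044`, with the thresholds `t 1 < ... < t 8`. -/
structure Ed (H K : El) (t : ℕ → ℤ) : Prop where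
  l12 : t 1 < t 2
  l23 : t 2 < t 3
  l34 : t 3 < t 4
  l45 : t 4 < t 5
  l56 : t 5 < t 6
  l67 : t 6 < t 7
  l78 : t 7 < t 8
  memA : ∀ v j, H v j → v < t 1 ∨ (t 2 ≤ v ∧ v < t 3 ∧ j = 0) ∨ (t 4 ≤ v ∧ v < t 5) ∨
    (t 6 ≤ v ∧ v < t 7 ∧ j = 0) ∨ t 8 ≤ v
  memB : ∀ v j, K v j → (t 1 ≤ v ∧ v < t 2) ∨ (t 3 ≤ v ∧ v < t 4 ∧ j ≤ 1) ∨
    (t 5 ≤ v ∧ v < t 6 ∧ j ≤ 1) ∨ (t 7 ≤ v ∧ v < t 8)
  a0 : ∃ v j, H v j ∧ v < t 1
  a1 : ∃ v, H v 0 ∧ t 2 ≤ v ∧ v < t 3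
  a2 : ∃ v, H v 2 ∧ t 4 ≤ v ∧ v < t 5
  a3 : ∃ v, H v 0 ∧ t 6 ≤ v ∧ v < t 7
  a4 : ∃ v j, H v j ∧ t 8 ≤ v
  b0 : ∃ v j, K v j ∧ t 1 ≤ v ∧ v < t 2
  b1 : ∃ v, K v 1 ∧ t 3 ≤ v ∧ v < t 4
  b2 : ∃ v, K v 1 ∧ t 5 ≤ v ∧ v < t 6
  b3 : ∃ v j, K v j ∧ t 7 ≤ v ∧ v < t 8

/-- time reversal of an element -/
def rev (H : El) : El := fun v j => H (-v) j

/-- time reversal of thresholds -/
def revT (t : ℕ → ℤ) : ℕ → ℤ := fun i => 1 - t (9 - i)

theorem Ed.rev {H K : El} {t : ℕ → ℤ} (e : Ed H K t) :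
    Ed (Neg.rev H) (Neg.rev K) (revT t) := by
  have r1 : revT t 1 = 1 - t 8 := rfl
  have r2 : revT t 2 = 1 - t 7 := rfl
  have r3 : revT t 3 = 1 - t 6 := rfl
  have r4 : revT t 4 = 1 - t 5 := rfl
  have r5 : revT t 5 = 1 - t 4 := rfl
  have r6 : revT t 6 = 1 - t 3 := rfl
  have r7 : revT t 7 = 1 - t 2 := rfl
  have r8 : revT t 8 = 1 - t 1 := rfl
  have q12 := e.l12
  have q23 := e.l23
  have q34 := e.l34
  have q45 := e.l45
  have q56 := e.l56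
  have q67 := e.l67
  have q78 := e.l78
  refine ⟨by omega, by omega, by omega, by omega, by omega, by omega, by omega, ?_, ?_, ?_, ?_, ?_,
    ?_, ?_, ?_, ?_, ?_, ?_⟩
  · intro v j h
    have := e.memA (-v) j h
    omega
  · intro v j h
    have := e.memB (-v) j h
    omega
  · obtain ⟨v, j, h, h1⟩ := e.a4
    exact ⟨-v, j, by simpa [Neg.rev] using h, by omega⟩
  · obtain ⟨v, h, h1, h2⟩ := e.a3
    exact ⟨-v, by simpa [Neg.rev] using h, by omega, by omega⟩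
  · obtain ⟨v, h, h1, h2⟩ := e.a2
    exact ⟨-v, by simpa [Neg.rev] using h, by omega, by omega⟩
  · obtain ⟨v, h, h1, h2⟩ := e.a1
    exact ⟨-v, by simpa [Neg.rev] using h, by omega, by omega⟩
  · obtain ⟨v, j, h, h1⟩ := e.a0
    exact ⟨-v, j, by simpa [Neg.rev] using h, by omega⟩
  · obtain ⟨v, j, h, h1, h2⟩ := e.b3
    exact ⟨-v, j, by simpa [Neg.rev] using h, by omega, by omega⟩
  · obtain ⟨v, h, h1, h2⟩ := e.b2
    exact ⟨-v, by simpa [Neg.rev] using h, by omega, by omega⟩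
  · obtain ⟨v, h, h1, h2⟩ := e.b1
    exact ⟨-v, by simpa [Neg.rev] using h, by omega, by omega⟩
  · obtain ⟨v, j, h, h1, h2⟩ := e.b0
    exact ⟨-v, j, by simpa [Neg.rev] using h, by omega, by omega⟩

/-- the facts about a triple of type L -/
structure LF (J K : El) (t s r : ℕ → ℤ) : Prop where
  f1 : ∀ w j, K w j → w < s 4 → w < r 2
  f2 : ∀ τ, J τ 1 → t 3 ≤ τ → τ < t 4 → τ < s 5
  f3 : ∀ τ, J τ 1 → t 5 ≤ τ → τ < t 6 → s 8 ≤ τ
  f4 : ∀ w j, K w j → w < s 4 → w < t 2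
  f5 : ∀ w j, K w j → w < r 2 → w < s 4

theorem lf {I J K : El} {t s r : ℕ → ℤ} (e1 : Ed I J t) (e2 : Ed J K s) (e3 : Ed I K r)
    (h : ∃ σ, J σ 2 ∧ σ < t 2 ∧ s 4 ≤ σ ∧ σ < s 5) : LF J K t s r := by
  obtain ⟨σ, hσ, h1, h2, h3⟩ := h
  have q12 := e1.l12
  have q23 := e1.l23
  have q34 := e1.l34
  have q45 := e1.l45
  have q56 := e1.l56
  have q67 := e1.l67
  have q78 := e1.l78
  have p12 := e2.l12
  have p23 := e2.l23
  have p34 := e2.l34
  have p45 := e2.l45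
  have p56 := e2.l56
  have p67 := e2.l67
  have p78 := e2.l78
  have o12 := e3.l12
  have o23 := e3.l23
  have o34 := e3.l34
  have o45 := e3.l45
  have o56 := e3.l56
  have o67 := e3.l67
  have o78 := e3.l78
  -- the first value of `J` and the first value of `K`
  obtain ⟨x0, jx0, hx0, hx0'⟩ := e2.a0
  have hx0t := e1.memB x0 jx0 hx0
  have hs1 : t 1 < s 1 := by omega
  obtain ⟨z0, jz0, hz0, hz0', hz0''⟩ := e2.b0
  obtain ⟨w0, jw0, hw0, hw0', hw0''⟩ := e3.b0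
  have hw0s := e2.memB w0 jw0 hw0
  have hz0r := e3.memB z0 jz0 hz0
  have f4 : ∀ w j, K w j → w < s 4 → w < t 2 := by
    intro w j hw hw'
    omega
  have f1 : ∀ w j, K w j → w < s 4 → w < r 2 := by
    intro w j hw hw'
    by_contra hcon
    have hwr := e3.memB w j hw
    obtain ⟨v, hv, hv1, hv2⟩ := e3.a1
    have hvt := e1.memA v 0 hv
    have := f4 w j hw hw'
    omega
  have f2 : ∀ τ, J τ 1 → t 3 ≤ τ → τ < t 4 → τ < s 5 := by
    intro τ hτ hτ1 hτ2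
    have hτs := e2.memA τ 1 hτ
    by_contra hcon
    obtain ⟨v, hv, hv1, hv2⟩ := e3.a2
    obtain ⟨w, hw, hw1, hw2⟩ := e3.b2
    have hvt := e1.memA v 2 hv
    have hws := e2.memB w 1 hw
    omega
  have f3 : ∀ τ, J τ 1 → t 5 ≤ τ → τ < t 6 → s 8 ≤ τ := by
    intro τ hτ hτ1 hτ2
    have hτs := e2.memA τ 1 hτ
    by_contra hcon
    have hτ5 : τ < s 5 := by omega
    obtain ⟨v, hv, hv1, hv2⟩ := e1.a2
    have hvr := e3.memA v 2 hv
    obtain ⟨w, hw, hw1, hw2⟩ := e3.b1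
    have hws := e2.memB w 1 hw
    have hwf := f1 w 1 hw
    omega
  refine ⟨f1, f2, f3, f4, ?_⟩
  intro w j hw hw'
  by_contra hcon
  have hws := e2.memB w j hw
  obtain ⟨τ, hτ, hτ1, hτ2⟩ := e1.b1
  have hτ5 := f2 τ hτ hτ1 hτ2
  obtain ⟨v, hv, hv1, hv2⟩ := e1.a1
  have hvr := e3.memA v 0 hv
  omega

/-- the facts about a triple of type R -/
structure RF (J K : El) (t s r : ℕ → ℤ) : Prop where
  g3 : ∀ τ, J τ 1 → t 3 ≤ τ → τ < t 4 → τ < s 1
  g4 : ∀ w j, K w j → s 5 ≤ w → t 7 ≤ w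

theorem rf {I J K : El} {t s r : ℕ → ℤ} (e1 : Ed I J t) (e2 : Ed J K s) (e3 : Ed I K r)
    (h : ∃ σ, J σ 2 ∧ t 7 ≤ σ ∧ s 4 ≤ σ ∧ σ < s 5) : RF J K t s r := by
  obtain ⟨σ, hσ, h1, h2, h3⟩ := h
  have a2 : revT t 2 = 1 - t 7 := rfl
  have a5 : revT t 5 = 1 - t 4 := rfl
  have a6 : revT t 6 = 1 - t 3 := rfl
  have b4 : revT s 4 = 1 - s 5 := rfl
  have b5 : revT s 5 = 1 - s 4 := rfl
  have b8 : revT s 8 = 1 - s 1 := rfl
  have L := lf e1.rev e2.rev e3.rev ⟨-σ, by simpa [rev] using hσ, by omega, by omega, by omega⟩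
  refine ⟨?_, ?_⟩
  · intro τ hτ hτ1 hτ2
    have := L.f3 (-τ) (by simpa [rev] using hτ) (by omega) (by omega)
    omega
  · intro w j hw hw'
    have := L.f4 (-w) j (by simpa [rev] using hw) (by omega)
    omega

theorem type_or {I J K : El} {t s : ℕ → ℤ} (e1 : Ed I J t) (e2 : Ed J K s) :
    (∃ σ, J σ 2 ∧ σ < t 2 ∧ s 4 ≤ σ ∧ σ < s 5) ∨ (∃ σ, J σ 2 ∧ t 7 ≤ σ ∧ s 4 ≤ σ ∧ σ < s 5) := by
  obtain ⟨σ, hσ, h1, h2⟩ := e2.a2
  have := e1.memB σ 2 hσ
  have q12 := e1.l12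
  have h : σ < t 2 ∨ t 7 ≤ σ := by omega
  rcases h with h | h
  · exact Or.inl ⟨σ, hσ, h, h1, h2⟩
  · exact Or.inr ⟨σ, hσ, h, h1, h2⟩

theorem no_four_L {A B C D : El} {tab tac tad tbc tbd tcd : ℕ → ℤ} (eab : Ed A B tab)
    (eac : Ed A C tac) (ead : Ed A D tad) (ebc : Ed B C tbc) (ebd : Ed B D tbd)
    (ecd : Ed C D tcd) (h : ∃ σ, B σ 2 ∧ σ < tab 2 ∧ tbc 4 ≤ σ ∧ σ < tbc 5) : False := by
  have L123 := lf eab ebc eac h
  rcases type_or eab ebd with h124 | h124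
  swap
  · -- type R for (A, B, D)
    have R124 := rf eab ebd ead h124
    obtain ⟨τ, hτ, hτ1, hτ2⟩ := eab.b2
    have h1 := L123.f3 τ hτ hτ1 hτ2
    obtain ⟨w, jw, hw, hw1, hw2⟩ := ebd.b3
    have h2 := R124.g4 w jw hw (by have := ebd.l56; have := ebd.l67; omega)
    have h3 := ecd.memB w jw hw
    obtain ⟨v, jv, hv, hv1⟩ := ecd.a4
    have h4 := ebc.memB v jv hv
    have := eab.l67
    have := ecd.l12
    have := ecd.l23
    have := ecd.l34
    have := ecd.l45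
    have := ecd.l56
    have := ecd.l67
    have := ecd.l78
    have := ebc.l12
    have := ebc.l23
    have := ebc.l34
    have := ebc.l45
    have := ebc.l56
    have := ebc.l67
    have := ebc.l78
    omega
  have L124 := lf eab ebd ead h124
  rcases type_or eac ecd with h134 | h134
  swap
  · -- type R for (A, C, D)
    have R134 := rf eac ecd ead h134
    obtain ⟨τ, hτ, hτ1, hτ2⟩ := eac.b1
    have h1 := R134.g3 τ hτ hτ1 hτ2
    obtain ⟨z, jz, hz, hz1, hz2⟩ := ebd.b0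
    have h2 := L124.f4 z jz hz (by have := ebd.l23; have := ebd.l34; omega)
    have h3 := ecd.memB z jz hz
    obtain ⟨v, hv, hv1, hv2⟩ := eac.a1
    have h4 := eab.memA v 0 hv
    obtain ⟨w0, jw0, hw0, hw01, hw02⟩ := eac.b0
    have h5 := ebc.memB w0 jw0 hw0
    obtain ⟨v2, jv2, hv2', hv2''⟩ := ebc.a0
    have h6 := eab.memB v2 jv2 hv2'
    have := eab.l12
    have := eab.l23
    have := eab.l34
    have := eab.l45
    have := eab.l56
    have := eab.l67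
    have := eab.l78
    have := ebc.l12
    have := ebc.l23
    have := ebc.l34
    have := ebc.l45
    have := ebc.l56
    have := ebc.l67
    have := ecd.l12
    have := ecd.l23
    have := ecd.l34
    have := ecd.l45
    have := ecd.l56
    have := ecd.l67
    omega
  have L134 := lf eac ecd ead h134
  obtain ⟨σ, hσ, hσ1, hσ2, hσ3⟩ := h134
  have hσ4 := L123.f5 σ 2 hσ hσ1
  have hσ5 := ebc.memB σ 2 hσ
  have hσ6 : σ < tbc 2 := by
    have := ebc.l45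
    have := ebc.l56
    have := ebc.l67
    omega
  have L234 := lf ebc ecd ebd ⟨σ, hσ, hσ6, hσ2, hσ3⟩
  obtain ⟨τ, hτ, hτ1, hτ2⟩ := ebc.b2
  have h1 := L234.f3 τ hτ hτ1 hτ2
  obtain ⟨τ1, hτ', hτ3, hτ4⟩ := eac.b1
  have h2 := L134.f2 τ1 hτ' hτ3 hτ4
  have h3 := L123.f1 τ1 1 hτ'
  have h4 := ebc.memB τ1 1 hτ'
  have h5 := L234.f3 τ1 hτ'
  have := eac.l23
  have := ebc.l12
  have := ebc.l23
  have := ebc.l34
  have := ebc.l45
  have := ebc.l56
  have := ebc.l67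
  have := ecd.l56
  have := ecd.l67
  have := ecd.l78
  omega

/-- no four elements have all their pairs of the pattern `330121044` -/
theorem no_four {A B C D : El} {tab tac tad tbc tbd tcd : ℕ → ℤ} (eab : Ed A B tab)
    (eac : Ed A C tac) (ead : Ed A D tad) (ebc : Ed B C tbc) (ebd : Ed B D tbd)
    (ecd : Ed C D tcd) : False := by
  rcases type_or eab ebc with h | h
  · exact no_four_L eab eac ead ebc ebd ecd h
  · obtain ⟨σ, hσ, h1, h2, h3⟩ := h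
    have a2 : revT tab 2 = 1 - tab 7 := rfl
    have b4 : revT tbc 4 = 1 - tbc 5 := rfl
    have b5 : revT tbc 5 = 1 - tbc 4 := rfl
    exact no_four_L eab.rev eac.rev ead.rev ebc.rev ebd.rev ecd.rev
      ⟨-σ, by simpa [rev] using hσ, by omega, by omega, by omega⟩

end Pool.Agent.H.MP_2e666d_lc.Neg
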