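import Pool.Agent.H.MP_2e666d_lc.Defs

/-!
# Negative half: the counter machine with tuples as states
-/

set_option autoImplicit false

namespace Pool.Agent.H.MP_2e666d_lc.Neg

/-- A state `(d, a, b, c)`: `d` draws of level 3, `a` draws of level 2, `b` draws of level 1 and
`c` draws of level 0 are pending. -/
abbrev St : Type := ℕ × ℕ × ℕ × ℕ

/-- the next state after the draw of `v` -/
def step : St → ℕ → St
  | (d, a, b, c + 1), _ => (d, a, b, c)
  | (d, a, b + 1, 0), v => (d, a, b, v + 1)
  | (d, a + 1, 0, 0), v => (d, a, v + 1, 0)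
  | (d + 1, 0, 0, 0), v => (d, v + 1, 0, 0)
  | (0, 0, 0, 0), _ => (0, 0, 0, 0)

/-- the level of the pending draw -/
def slev : St → ℕ
  | (_, _, _, _ + 1) => 0
  | (_, _, _ + 1, 0) => 1
  | (_, _ + 1, 0, 0) => 2
  | (_, 0, 0, 0) => 3

/-- the start state -/
def R0 : St := (1, 0, 0, 0)

/-- the final state -/
def Z0 : St := (0, 0, 0, 0)

/-- the machine can read the list -/
def Ok : St → List ℕ → Prop
  | _, [] => True
  | s, v :: l => s ≠ Z0 ∧ Ok (step s v) l

/-- the state after reading the list -/
def sta : St → List ℕ → St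
  | s, [] => s
  | s, v :: l => sta (step s v) l

/-- the levels of the draws -/
def lvs : St → List ℕ → List ℕ
  | _, [] => []
  | s, v :: l => slev s :: lvs (step s v) l

/-- the time after reading the list -/
def tim : List ℕ → ℕ
  | [] => 0
  | v :: l => v + 1 + tim l

/-- the times and levels of the draws -/
def dr : St → ℕ → List ℕ → List (ℕ × ℕ)
  | _, _, [] => []
  | s, t, v :: l => (t + v + 1, slev s) :: dr (step s v) (t + v + 1) l

theorem ok_append (s : St) (l l' : List ℕ) : Ok s (l ++ l') ↔ Ok s l ∧ Ok (sta s l) l' := by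
  induction l generalizing s with
  | nil => simp [Ok, sta]
  | cons v l ih => simp [Ok, sta, ih, and_assoc]

theorem sta_append (s : St) (l l' : List ℕ) : sta s (l ++ l') = sta (sta s l) l' := by
  induction l generalizing s with
  | nil => rfl
  | cons v l ih => simp [sta, ih]

theorem lvs_append (s : St) (l l' : List ℕ) : lvs s (l ++ l') = lvs s l ++ lvs (sta s l) l' := by
  induction l generalizing s with
  | nil => rfl
  | cons v l ih => simp [sta, lvs, ih]

theorem tim_append (l l' : List ℕ) : tim (l ++ l') = tim l + tim l' := by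
  induction l with
  | nil => simp [tim]
  | cons v l ih => simp [tim, ih]; omega

theorem dr_append (s : St) (t : ℕ) (l l' : List ℕ) :
    dr s t (l ++ l') = dr s t l ++ dr (sta s l) (t + tim l) l' := by
  induction l generalizing s t with
  | nil => simp [dr, sta, tim]
  | cons v l ih =>
    simp only [List.cons_append, dr, sta, tim, ih]
    rw [show t + v + 1 + tim l = t + (v + 1 + tim l) by omega]

theorem dr_time {s : St} {t : ℕ} {l : List ℕ} {n j : ℕ} (h : (n, j) ∈ dr s t l) :
    t < n ∧ n ≤ t + tim l := by
  induction l generalizing s t with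
  | nil => simp [dr] at h
  | cons v l ih =>
    simp only [dr, List.mem_cons, Prod.mk.injEq] at h
    rcases h with ⟨h1, -⟩ | h
    · simp only [tim]
      omega
    · have := ih h
      simp only [tim]
      omega

theorem dr_time_head {s : St} {t e : ℕ} {l : List ℕ} {n j : ℕ} (h : (n, j) ∈ dr s t (e :: l)) :
    e < n := by
  simp only [dr, List.mem_cons, Prod.mk.injEq] at h
  rcases h with ⟨h1, -⟩ | h
  · omega
  · have := dr_time h
    omega

theorem dr_lev {s : St} {t : ℕ} {l : List ℕ} {n j : ℕ} (h : (n, j) ∈ dr s t l) : j ∈ lvs s l := by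
  induction l generalizing s t with
  | nil => simp [dr] at h
  | cons v l ih =>
    simp only [dr, List.mem_cons, Prod.mk.injEq] at h
    simp only [lvs, List.mem_cons]
    rcases h with ⟨-, h1⟩ | h
    · exact Or.inl h1
    · exact Or.inr (ih h)

theorem lev_dr {s : St} {l : List ℕ} {j : ℕ} (h : j ∈ lvs s l) (t : ℕ) : ∃ n, (n, j) ∈ dr s t l := by
  induction l generalizing s t with
  | nil => simp [lvs] at h
  | cons v l ih =>
    simp only [lvs, List.mem_cons] at h
    rcases h with h | h
    · exact ⟨t + v + 1, by simp [dr, h]⟩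
    · obtain ⟨n, hn⟩ := ih h (t + v + 1)
      exact ⟨n, by simp [dr, hn]⟩

theorem lvs_ne_nil {s : St} {l : List ℕ} (h : l ≠ []) : ∃ j, j ∈ lvs s l := by
  rcases l with _ | ⟨v, l⟩
  · exact absurd rfl h
  · exact ⟨slev s, by simp [lvs]⟩

/-- the component of a state at a level -/
def num : ℕ → St → ℕ
  | 0, (_, _, _, c) => c
  | 1, (_, _, b, _) => b
  | 2, (_, a, _, _) => a
  | 3, (d, _, _, _) => d
  | _, _ => 0

theorem num_step {s : St} {v j : ℕ} (hs : s ≠ Z0) (hj : slev s < j) :
    num j (step s v) = num j s := by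
  obtain ⟨d, a, b, c⟩ := s
  rcases c with _ | c
  · rcases b with _ | b
    · rcases a with _ | a
      · rcases d with _ | d
        · exact absurd rfl hs
        · simp only [slev] at hj
          obtain ⟨k, rfl⟩ : ∃ k, j = k + 4 := ⟨j - 4, by omega⟩
          simp [num]
      · simp only [slev] at hj
        obtain ⟨k, rfl⟩ : ∃ k, j = k + 3 := ⟨j - 3, by omega⟩
        rcases k with _ | k
        · simp [num, step]
        · simp [num]
    · simp only [slev] at hj
      obtain ⟨k, rfl⟩ : ∃ k, j = k + 2 := ⟨j - 2, by omega⟩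
      rcases k with _ | _ | k
      · simp [num, step]
      · simp [num, step]
      · simp [num]
  · simp only [slev] at hj
    obtain ⟨k, rfl⟩ : ∃ k, j = k + 1 := ⟨j - 1, by omega⟩
    rcases k with _ | _ | _ | k
    · simp [num, step]
    · simp [num, step]
    · simp [num, step]
    · simp [num]

theorem num_step_self {s : St} {v : ℕ} (hs : s ≠ Z0) :
    num (slev s) (step s v) + 1 = num (slev s) s := by
  obtain ⟨d, a, b, c⟩ := s
  rcases c with _ | c
  · rcases b with _ | b
    · rcases a with _ | a
      · rcases d with _ | d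
        · exact absurd rfl hs
        · simp [slev, num, step]
      · simp [slev, num, step]
    · simp [slev, num, step]
  · simp [slev, num, step]

/-- a path all of whose levels are at most `j` has at most `num j s` draws of level `j` -/
theorem count_le {j : ℕ} {s : St} {l : List ℕ} (hok : Ok s l) (h : ∀ x ∈ lvs s l, x ≤ j) :
    (lvs s l).countP (fun x => decide (j ≤ x)) ≤ num j s := by
  induction l generalizing s with
  | nil => simp [lvs]
  | cons v l ih =>
    simp only [lvs, List.mem_cons, forall_eq_or_imp] at h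
    obtain ⟨h1, h2⟩ := h
    obtain ⟨hs, hok⟩ := hok
    have := ih hok h2
    simp only [lvs, List.countP_cons]
    rcases lt_or_eq_of_le h1 with h1 | h1
    · rw [num_step hs h1] at this
      simp [not_le.mpr h1, this]
    · have h3 := num_step_self (v := v) hs
      rw [h1] at h3
      rw [h1]
      simp only [le_refl, decide_true, if_true]
      omega

theorem d_step {s : St} {v : ℕ} (h : s.1 = 0) : (step s v).1 = 0 := by
  obtain ⟨d, a, b, c⟩ := s
  rcases c with _ | c
  · rcases b with _ | b
    · rcases a with _ | a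
      · rcases d with _ | d
        · rfl
        · simp at h
      · exact h
    · exact h
  · exact h

theorem slev_le_two {s : St} (h : s.1 = 0) (hs : s ≠ Z0) : slev s ≤ 2 := by
  obtain ⟨d, a, b, c⟩ := s
  rcases c with _ | c
  · rcases b with _ | b
    · rcases a with _ | a
      · rcases d with _ | d
        · exact absurd rfl hs
        · simp at h
      · simp [slev]
    · simp [slev]
  · simp [slev]

theorem lvs_le_two {s : St} {l : List ℕ} (h : s.1 = 0) (hok : Ok s l) : ∀ x ∈ lvs s l, x ≤ 2 := by
  induction l generalizing s with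
  | nil => simp [lvs]
  | cons v l ih =>
    intro x hx
    simp only [lvs, List.mem_cons] at hx
    rcases hx with rfl | hx
    · exact slev_le_two h hok.1
    · exact ih (d_step h) hok.2 x hx

theorem d_sta {s : St} (l : List ℕ) (h : s.1 = 0) : (sta s l).1 = 0 := by
  induction l generalizing s with
  | nil => exact h
  | cons v l ih => exact ih (d_step h)

theorem d_node {p : List ℕ} (h : p ≠ []) : (sta R0 p).1 = 0 := by
  rcases p with _ | ⟨v, l⟩
  · exact absurd rfl h
  · exact d_sta l rfl

/-! ### complete lists -/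

/-- the order of the states -/
def StLt : St → St → Prop :=
  Prod.Lex (· < ·) (Prod.Lex (· < ·) (Prod.Lex (· < ·) (· < ·)))

theorem StLt.wf : WellFounded StLt :=
  WellFounded.prod_lex Nat.lt_wfRel.wf
    (WellFounded.prod_lex Nat.lt_wfRel.wf
      (WellFounded.prod_lex Nat.lt_wfRel.wf Nat.lt_wfRel.wf))

theorem step_lt (s : St) (v : ℕ) (h : s ≠ Z0) : StLt (step s v) s := by
  obtain ⟨d, a, b, c⟩ := s
  rcases c with _ | c
  · rcases b with _ | b
    · rcases a with _ | a
      · rcases d with _ | d
        · exact absurd rfl h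
        · exact Prod.Lex.left _ _ (Nat.lt_succ_self d)
      · exact Prod.Lex.right _ (Prod.Lex.left _ _ (Nat.lt_succ_self a))
    · exact Prod.Lex.right _ (Prod.Lex.right _ (Prod.Lex.left _ _ (Nat.lt_succ_self b)))
  · exact Prod.Lex.right _ (Prod.Lex.right _ (Prod.Lex.right _ (Nat.lt_succ_self c)))

/-- every state has a complete list -/
theorem exists_comp (s : St) : ∃ l, Ok s l ∧ sta s l = Z0 := by
  induction s using StLt.wf.induction with
  | _ s ih =>
    by_cases hs : s = Z0
    · exact ⟨[], trivial, hs⟩
    · obtain ⟨l, h1, h2⟩ := ih _ (step_lt s 0 hs)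
      exact ⟨0 :: l, ⟨hs, h1⟩, h2⟩

/-- the state as a function of the level -/
def toF : St → ℕ → ℕ
  | (_, _, _, c), 0 => c
  | (_, _, b, _), 1 => b
  | (_, a, _, _), 2 => a
  | (d, _, _, _), 3 => d
  | _, _ => 0

theorem toF_R0 : toF R0 = one3 := by
  funext g
  rcases g with _ | _ | _ | _ | g <;> simp [toF, R0, one3]

theorem toF_eq_zero (s : St) : (∀ g, toF s g = 0) ↔ s = Z0 := by
  obtain ⟨d, a, b, c⟩ := s
  constructor
  · intro h
    have h0 := h 0
    have h1 := h 1
    have h2 := h 2
    have h3 := h 3
    simp only [toF] at h0 h1 h2 h3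
    simp [Z0, h0, h1, h2, h3]
  · intro h g
    simp only [Z0, Prod.mk.injEq] at h
    obtain ⟨rfl, rfl, rfl, rfl⟩ := h
    rcases g with _ | _ | _ | _ | g <;> simp [toF]

theorem toF_lev {s : St} (hs : s ≠ Z0) : lev (toF s) = slev s := by
  have key : ∀ (F : ℕ → ℕ) (k : ℕ), F k ≠ 0 → (∀ i < k, F i = 0) → lev F = k := by
    intro F k hk hi
    unfold lev
    apply le_antisymm
    · exact Nat.sInf_le hk
    · by_contra hlt
      push Not at hlt
      have hne : {g | F g ≠ 0}.Nonempty := ⟨k, hk⟩
      exact Nat.sInf_mem hne (hi _ hlt)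
  obtain ⟨d, a, b, c⟩ := s
  rcases c with _ | c
  · rcases b with _ | b
    · rcases a with _ | a
      · rcases d with _ | d
        · exact absurd rfl hs
        · apply key
          · simp [toF, slev]
          · intro i hi
            simp only [slev] at hi
            rcases i with _ | _ | _ | i
            · rfl
            · rfl
            · rfl
            · omega
      · apply key
        · simp [toF, slev]
        · intro i hi
          simp only [slev] at hi
          rcases i with _ | _ | i
          · rfl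
          · rfl
          · omega
    · apply key
      · simp [toF, slev]
      · intro i hi
        simp only [slev] at hi
        rcases i with _ | i
        · rfl
        · omega
  · apply key
    · simp [toF, slev]
    · intro i hi
      simp only [slev] at hi
      omega

theorem toF_step {s : St} (hs : s ≠ Z0) (n : ℕ) : rd (toF s) n = toF (step s n) := by
  funext g
  unfold rd
  rw [toF_lev hs]
  obtain ⟨d, a, b, c⟩ := s
  rcases c with _ | c
  · rcases b with _ | b
    · rcases a with _ | a
      · rcases d with _ | d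
        · exact absurd rfl hs
        · rcases g with _ | _ | _ | _ | g <;> simp [toF, slev, step]
      · rcases g with _ | _ | _ | _ | g <;> simp [toF, slev, step]
    · rcases g with _ | _ | _ | _ | g <;> simp [toF, slev, step]
  · rcases g with _ | _ | _ | _ | g <;> simp [toF, slev, step]

theorem cpl_iff (s : St) (l : List ℕ) : cpl (toF s) l ↔ Ok s l ∧ sta s l = Z0 := by
  induction l generalizing s with
  | nil => simp [cpl, Ok, sta, toF_eq_zero]
  | cons v l ih =>
    have h1 : (∃ g, toF s g ≠ 0) ↔ s ≠ Z0 := by
      rw [Ne, ← toF_eq_zero]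
      push Not
      exact Iff.rfl
    simp only [cpl, Ok, sta, h1]
    constructor
    · rintro ⟨h2, h3⟩
      rw [toF_step h2] at h3
      have := (ih _).mp h3
      exact ⟨⟨h2, this.1⟩, this.2⟩
    · rintro ⟨⟨h2, h3⟩, h4⟩
      refine ⟨h2, ?_⟩
      rw [toF_step h2]
      exact (ih _).mpr ⟨h3, h4⟩

theorem cpl_one3 (l : List ℕ) : cpl one3 l ↔ Ok R0 l ∧ sta R0 l = Z0 := by
  rw [← toF_R0]
  exact cpl_iff R0 l

theorem B_ok (x : B) : Ok R0 x.1 := ((cpl_one3 x.1).mp x.2).1

theorem B_sta (x : B) : sta R0 x.1 = Z0 := ((cpl_one3 x.1).mp x.2).2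

def mkB (l : List ℕ) (h1 : Ok R0 l) (h2 : sta R0 l = Z0) : B := ⟨l, (cpl_one3 l).mpr ⟨h1, h2⟩⟩

theorem lt_def (x y : B) : x < y ↔ x.1 < y.1 := Iff.rfl

/-- every node lies below an element -/
theorem exists_above (u : List ℕ) (hu : Ok R0 u) : ∃ x : B, u <+: x.1 := by
  obtain ⟨l, h1, h2⟩ := exists_comp (sta R0 u)
  exact ⟨mkB (u ++ l) ((ok_append _ _ _).mpr ⟨hu, h1⟩) (by rw [sta_append, h2]), ⟨l, rfl⟩⟩

end Pool.Agent.H.MP_2e666d_lc.Neg
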