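import Pool.Agent.H.MP_2e666d_lc.NegDefs

/-!
# Negative half: limit nodes of an order embedding
-/

set_option autoImplicit false

namespace Pool.Agent.H.MP_2e666d_lc.Neg

theorem cons_lt_iff {a b : ℕ} {l l' : List ℕ} : a :: l < b :: l' ↔ a < b ∨ a = b ∧ l < l' :=
  List.cons_lt_cons_iff

theorem cons_le_iff {a b : ℕ} {l l' : List ℕ} : a :: l ≤ b :: l' ↔ a < b ∨ a = b ∧ l ≤ l' := by
  rw [le_iff_lt_or_eq, le_iff_lt_or_eq, cons_lt_iff, List.cons.injEq]
  tauto

theorem not_cons_le_nil {a : ℕ} {l : List ℕ} : ¬ a :: l ≤ [] :=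
  not_le_of_gt (List.nil_lt_cons a l)

theorem app_lt {e e' : ℕ} (h : e < e') (u r r' : List ℕ) :
    (u ++ [e]) ++ r < (u ++ [e']) ++ r' := by
  induction u with
  | nil => exact cons_lt_iff.mpr (Or.inl h)
  | cons v u ih => exact cons_lt_iff.mpr (Or.inr ⟨rfl, ih⟩)

theorem pre_lt {e e' : ℕ} (h : e < e') {u a b : List ℕ} (ha : u ++ [e] <+: a)
    (hb : u ++ [e'] <+: b) : a < b := by
  obtain ⟨r, rfl⟩ := ha
  obtain ⟨r', rfl⟩ := hb
  exact app_lt h u r r'

/-- convexity of cones -/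
theorem between {p a y b : List ℕ} {a' b' : ℕ} (ha : p ++ [a'] <+: a) (hb : p ++ [b'] <+: b)
    (h1 : a ≤ y) (h2 : y ≤ b) : ∃ c, a' ≤ c ∧ c ≤ b' ∧ p ++ [c] <+: y := by
  obtain ⟨ra, rfl⟩ := ha
  obtain ⟨rb, rfl⟩ := hb
  induction p generalizing y with
  | nil =>
    rcases y with _ | ⟨c, ry⟩
    · exact absurd h1 not_cons_le_nil
    · have h1' := cons_le_iff.mp h1
      have h2' := cons_le_iff.mp h2
      exact ⟨c, by omega, by omega, ⟨ry, rfl⟩⟩
  | cons q p ih =>
    rcases y with _ | ⟨c, ry⟩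
    · exact absurd h1 not_cons_le_nil
    · have h1' := cons_le_iff.mp h1
      have h2' := cons_le_iff.mp h2
      have hqc : q = c := by omega
      subst hqc
      have h3 : (p ++ [a']) ++ ra ≤ ry := by
        rcases h1' with h | h
        · exact absurd h (lt_irrefl _)
        · exact h.2
      have h4 : ry ≤ (p ++ [b']) ++ rb := by
        rcases h2' with h | h
        · exact absurd h (lt_irrefl _)
        · exact h.2
      obtain ⟨c, hc1, hc2, hc3⟩ := ih h3 h4
      obtain ⟨r, hr⟩ := hc3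
      exact ⟨c, hc1, hc2, ⟨r, by rw [← hr]; rfl⟩⟩

/-- a strictly increasing sequence of complete lists has a limit node -/
theorem limit_seq (s : St) : ∀ z : ℕ → List ℕ, StrictMono z →
    (∀ n, Ok s (z n) ∧ sta s (z n) = Z0) →
    ∃ p, ∀ M, ∃ E, ∀ n ≥ E, ∃ e' ≥ M, p ++ [e'] <+: z n := by
  induction s using StLt.wf.induction with
  | _ s ih =>
    intro z hz hc
    by_cases hs : s = Z0
    · exfalso
      have hnil : ∀ n, z n = [] := by
        intro n
        have h := (hc n).1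
        rcases hzn : z n with _ | ⟨v, l⟩
        · rfl
        · rw [hzn] at h
          exact absurd hs h.1
      have h01 := hz (show (0 : ℕ) < 1 by norm_num)
      rw [hnil 0, hnil 1] at h01
      exact lt_irrefl _ h01
    · have hex : ∀ n, ∃ h r, z n = h :: r := by
        intro n
        have h := (hc n).2
        rcases hzn : z n with _ | ⟨v, l⟩
        · rw [hzn] at h
          exact absurd h hs
        · exact ⟨v, l, rfl⟩
      choose h r hhr using hex
      have hmono : ∀ n m, n < m → h n < h m ∨ h n = h m ∧ r n < r m := by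
        intro n m hnm
        have := hz hnm
        rw [hhr n, hhr m] at this
        exact cons_lt_iff.mp this
      have hmono' : ∀ n m, n ≤ m → h n ≤ h m := by
        intro n m hnm
        rcases hnm.lt_or_eq with hlt | heq
        · rcases hmono n m hlt with h1 | h1
          · exact le_of_lt h1
          · exact le_of_eq h1.1
        · rw [heq]
      by_cases hub : ∀ M, ∃ n, M ≤ h n
      · refine ⟨[], fun M => ?_⟩
        obtain ⟨E, hE⟩ := hub M
        refine ⟨E, fun n hn => ⟨h n, le_trans hE (hmono' E n hn), ⟨r n, ?_⟩⟩⟩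
        rw [hhr n]
        rfl
      · push Not at hub
        obtain ⟨M, hM⟩ := hub
        have hk : ∃ k, ∃ n, k = M - h n := ⟨_, 0, rfl⟩
        classical
        obtain ⟨N, hN⟩ := Nat.find_spec hk
        have hmax : ∀ n, h n ≤ h N := by
          intro n
          have h1 := Nat.find_min' hk ⟨n, rfl⟩
          have h2 := hM n
          have h3 := hM N
          omega
        have hconst : ∀ n, h (N + n) = h N := by
          intro n
          exact le_antisymm (hmax _) (hmono' _ _ (Nat.le_add_right _ _))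
        obtain ⟨p, hp⟩ := ih (step s (h N)) (step_lt s (h N) hs) (fun n => r (N + n)) (by
          intro n m hnm
          rcases hmono (N + n) (N + m) (by omega) with h1 | h1
          · rw [hconst, hconst] at h1
            exact absurd h1 (lt_irrefl _)
          · exact h1.2) (by
          intro n
          have h1 := hc (N + n)
          rw [hhr (N + n), hconst n] at h1
          exact ⟨h1.1.2, h1.2⟩)
        refine ⟨h N :: p, fun K => ?_⟩
        obtain ⟨E, hE⟩ := hp K
        refine ⟨N + E, fun n hn => ?_⟩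
        obtain ⟨m, rfl⟩ : ∃ m, n = N + m := ⟨n - N, by omega⟩
        obtain ⟨e', he', t, ht⟩ := hE m (by omega)
        refine ⟨e', he', ⟨t, ?_⟩⟩
        rw [hhr (N + m), hconst m, ← ht]
        rfl

theorem comp_min (s : St) : ∀ (S : Set (List ℕ)), S.Nonempty →
    (∀ l ∈ S, Ok s l ∧ sta s l = Z0) → ∃ l ∈ S, ∀ l' ∈ S, l ≤ l' := by
  induction s using StLt.wf.induction with
  | _ s ih =>
    intro S hne hS
    by_cases hs : s = Z0
    · have hnil : ∀ l ∈ S, l = [] := by
        intro l hl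
        rcases l with _ | ⟨v, l⟩
        · rfl
        · exact absurd hs (hS _ hl).1.1
      obtain ⟨l, hl⟩ := hne
      refine ⟨l, hl, fun l' hl' => ?_⟩
      rw [hnil l hl, hnil l' hl']
    · have hcons : ∀ l ∈ S, ∃ v l', l = v :: l' := by
        intro l hl
        rcases l with _ | ⟨v, l⟩
        · exact absurd (hS _ hl).2 hs
        · exact ⟨v, l, rfl⟩
      have hV : ∃ v, ∃ l, v :: l ∈ S := by
        obtain ⟨l, hl⟩ := hne
        obtain ⟨v, l', rfl⟩ := hcons l hl
        exact ⟨v, l', hl⟩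
      classical
      let v₀ := Nat.find hV
      have hv₀ : ∃ l, v₀ :: l ∈ S := Nat.find_spec hV
      obtain ⟨l₀, hl₀, hmin⟩ := ih (step s v₀) (step_lt s v₀ hs) {l | v₀ :: l ∈ S} hv₀
        (fun l hl => ⟨(hS _ hl).1.2, (hS _ hl).2⟩)
      refine ⟨v₀ :: l₀, hl₀, fun l' hl' => ?_⟩
      obtain ⟨v, l'', rfl⟩ := hcons l' hl'
      have hle : v₀ ≤ v := Nat.find_min' hV ⟨l'', hl'⟩
      rcases hle.lt_or_eq with h | h
      · exact cons_le_iff.mpr (Or.inl h)
      · refine cons_le_iff.mpr (Or.inr ⟨h, ?_⟩)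
        apply hmin
        change v₀ :: l'' ∈ S
        rw [h]
        exact hl'

theorem B_wf : WellFoundedLT B := by
  refine ⟨WellFounded.wellFounded_iff_has_min.mpr ?_⟩
  intro S hne
  obtain ⟨l, hl, hmin⟩ := comp_min R0 (Subtype.val '' S) (hne.image _) (by
    rintro _ ⟨x, -, rfl⟩
    exact ⟨B_ok x, B_sta x⟩)
  obtain ⟨x, hx, rfl⟩ := hl
  refine ⟨x, hx, fun y hy hlt => ?_⟩
  exact absurd (hmin y.1 ⟨y, hy, rfl⟩) (not_le_of_gt hlt)

/-- `p` is the limit node of the incomplete node `u` -/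
def Good (f : B ↪o B) (u p : List ℕ) : Prop :=
  ∀ M, ∃ E, ∀ e ≥ E, ∀ y : B, u ++ [e] <+: y.1 → ∃ e' ≥ M, p ++ [e'] <+: (f y).1

/-- `p` is the limit node of `u` (complete or not) -/
def Lim (f : B ↪o B) (u p : List ℕ) : Prop :=
  Ok R0 u ∧ ((sta R0 u = Z0 ∧ ∃ x : B, x.1 = u ∧ (f x).1 = p) ∨ (sta R0 u ≠ Z0 ∧ Good f u p))

theorem ok_snoc {u : List ℕ} (h : Ok R0 u) (hs : sta R0 u ≠ Z0) (e : ℕ) : Ok R0 (u ++ [e]) :=
  (ok_append _ _ _).mpr ⟨h, hs, trivial⟩

theorem sta_snoc (u : List ℕ) (e : ℕ) : sta R0 (u ++ [e]) = step (sta R0 u) e :=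
  sta_append _ _ _

theorem lim_exists (f : B ↪o B) (u : List ℕ) (hu : Ok R0 u) : ∃ p, Lim f u p := by
  by_cases h : sta R0 u = Z0
  · exact ⟨(f (mkB u hu h)).1, hu, Or.inl ⟨h, mkB u hu h, rfl, rfl⟩⟩
  · have hex : ∀ e, ∃ x : B, u ++ [e] <+: x.1 := fun e => exists_above _ (ok_snoc hu h e)
    choose x hx using hex
    obtain ⟨p, hp⟩ := limit_seq R0 (fun e => (f (x e)).1) (by
      intro e e' hee
      have h1 : x e < x e' := pre_lt hee (hx e) (hx e')
      exact f.lt_iff_lt.mpr h1) (fun e => ⟨B_ok _, B_sta _⟩)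
    refine ⟨p, hu, Or.inr ⟨h, fun M => ?_⟩⟩
    obtain ⟨E, hE⟩ := hp M
    refine ⟨E + 1, fun e he y hy => ?_⟩
    obtain ⟨a', ha', ha⟩ := hE (e - 1) (by omega)
    obtain ⟨b', hb', hb⟩ := hE (e + 1) (by omega)
    have h1 : x (e - 1) < y := pre_lt (by omega) (hx (e - 1)) hy
    have h2 : y < x (e + 1) := pre_lt (by omega) hy (hx (e + 1))
    have h3 : f (x (e - 1)) < f y := f.lt_iff_lt.mpr h1
    have h4 : f y < f (x (e + 1)) := f.lt_iff_lt.mpr h2
    obtain ⟨c, hc1, hc2, hc3⟩ := between ha hb (le_of_lt h3) (le_of_lt h4)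
    exact ⟨c, by omega, hc3⟩

theorem Lim.good {f : B ↪o B} {u p : List ℕ} (h : Lim f u p) (hs : sta R0 u ≠ Z0) : Good f u p := by
  rcases h.2 with h1 | h1
  · exact absurd h1.1 hs
  · exact h1.2

theorem Lim.ok {f : B ↪o B} {u p : List ℕ} (h : Lim f u p) : Ok R0 p := by
  rcases h.2 with ⟨-, x, -, rfl⟩ | ⟨h1, h2⟩
  · exact B_ok _
  · obtain ⟨E, hE⟩ := h2 0
    obtain ⟨y, hy⟩ := exists_above _ (ok_snoc h.1 h1 E)
    obtain ⟨e', -, r, hr⟩ := hE E le_rfl y hy
    have := B_ok (f y)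
    rw [← hr, ok_append, ok_append] at this
    exact this.1.1

/-- the main property of limit nodes -/
theorem lim_step {f : B ↪o B} {u p : List ℕ} (h : Lim f u p) (hs : sta R0 u ≠ Z0) (M : ℕ) :
    ∃ E, ∀ e ≥ E, ∀ p', Lim f (u ++ [e]) p' → ∃ e' ≥ M, p ++ [e'] <+: p' := by
  obtain ⟨E, hE⟩ := h.good hs M
  refine ⟨E, fun e he p' hp' => ?_⟩
  rcases hp'.2 with ⟨h1, x, hx, rfl⟩ | ⟨h1, h2⟩
  · exact hE e he x (by rw [hx])
  · obtain ⟨y1, hy1⟩ := exists_above _ (ok_snoc h.1 hs (e + 1))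
    obtain ⟨e'', he'', hpre''⟩ := hE (e + 1) (by omega) y1 hy1
    obtain ⟨E2, hE2⟩ := h2 (p.sum + e'' + 1)
    obtain ⟨y, hy⟩ := exists_above _ (ok_snoc hp'.1 h1 E2)
    have hy' : u ++ [e] <+: y.1 := (List.prefix_append _ _).trans hy
    obtain ⟨e3, he3, hpre3⟩ := hE2 E2 le_rfl y hy
    obtain ⟨e4, he4, hpre4⟩ := hE e he y hy'
    have hlt : y < y1 := pre_lt (Nat.lt_succ_self e) hy' hy1
    have hlt' : (f y).1 < (f y1).1 := f.lt_iff_lt.mpr hlt
    have h44 : e4 ≤ e'' := by
      by_contra hcon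
      exact absurd hlt' (not_lt_of_gt (pre_lt (by omega) hpre'' hpre4))
    rcases le_or_gt (p ++ [e4]).length p'.length with hlen | hlen
    · exact ⟨e4, he4, List.prefix_of_prefix_length_le hpre4
        ((List.prefix_append p' [e3]).trans hpre3) hlen⟩
    · exfalso
      have h5 : p' ++ [e3] <+: p ++ [e4] := by
        apply List.prefix_of_prefix_length_le hpre3 hpre4
        simp only [List.length_append, List.length_cons, List.length_nil] at hlen ⊢
        omega
      have h6 : e3 ∈ p ++ [e4] := h5.subset (by simp)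
      rw [List.mem_append, List.mem_singleton] at h6
      rcases h6 with h6 | h6
      · have := List.single_le_sum (fun _ _ => Nat.zero_le _) e3 h6
        omega
      · omega

theorem lim_root {f : B ↪o B} {p : List ℕ} (h : Lim f [] p) : p = [] := by
  have hs : sta R0 ([] : List ℕ) ≠ Z0 := by simp [sta, R0, Z0]
  rcases p with _ | ⟨a, p⟩
  · rfl
  · exfalso
    obtain ⟨E, hE⟩ := h.good hs 0
    obtain ⟨y, hy⟩ := exists_above _ (ok_snoc h.1 hs (E + a + 1))
    obtain ⟨e', -, r', hr'⟩ := hE (E + a + 1) (by omega) y hy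
    obtain ⟨r, hr⟩ := hy
    have := B_wf
    have hle : y ≤ f y := f.strictMono.le_apply
    have hle' : y.1 ≤ (f y).1 := hle
    rw [← hr, ← hr'] at hle'
    have := cons_le_iff.mp hle'
    omega

end Pool.Agent.H.MP_2e666d_lc.Neg
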