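import Pool.Agent.H.MP_2e666d_lc.RealDef

/-! # The simulation: start, timing, end -/

namespace Pool.Agent.H.MP_2e666d_lc

open Pos

section

variable {T : Set Tag} {G : SimpleGraph B} {cl : List ℕ → ℕ}
  {lab : Fin 3 → List ℕ → ℕ → ℕ → ℕ} {φ1 φ2 : Option Tag} {P : Fin 3 → Pos Tag}

theorem inv_start (h : Win T G (Phi cl lab) (start φ1 φ2)) :
    Inv T G cl lab φ1 φ2 (fun _ => start φ1 φ2) := by
  refine
    { win := fun _ => h
      reach := fun _ => Reach.start
      syncv := fun _ _ _ _ _ => rfl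
      syncs := ?_
      ord := ?_
      pord := ?_
      D := ?_ }
  · intro e t t' g _ _
    by_cases hg : g = 3
    · simp [start, hg]
    · simp [start, hg]
  · intro e t t' _ _ _ g hg i j a b hi _
    have hg3 : g ≠ 3 := by omega
    simp [start, hg3] at hi
  · intro e t t' _ _ _ g hg k j a b hi _
    simp [start] at hi
  · intro W _ tm
    exact ⟨0, fun t k _ => by simp [start]⟩

/-- completions of the three positions have a common timing -/
theorem exists_tim (hH : HLab cl lab) (W : Fin 3 → List ℕ) (P : Fin 3 → Pos Tag)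
    (hr : ∀ t, Reach T φ1 φ2 (P t)) (hc : ∀ t, Comp T (Phi cl lab) (P t) (W t)) :
    Nonempty (Tim W lab) := by
  have hs : ∀ t, Comp T (Phi cl lab) (start φ1 φ2) (W t) := fun t => comp_reach (hr t) (hc t)
  refine hH W (fun t => comp_valid (hs t)) (fun t t' => ?_)
  obtain ⟨h1, h2⟩ := comp_root (hs t)
  obtain ⟨h1', h2'⟩ := comp_root (hs t')
  rcases hφ : φ1 with _ | x
  · rw [h2 hφ, h2' hφ]
  · have e1 := congrArg Prod.fst (h1 x hφ)
    have e2 := congrArg Prod.fst (h1' x hφ)
    exact e1.symm.trans e2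

theorem inv_final (h : Inv T G cl lab φ1 φ2 P)
    (hd : ∀ t, (P t).dn (P t).mv ∧ (P t).dn (!(P t).mv)) :
    ∃ x y z, G.Adj x y ∧ G.Adj x z ∧ G.Adj y z := by
  have hgood : ∀ t, ∃ x y : B, x.1 = (P t).v false ∧ y.1 = (P t).v true ∧ G.Adj x y := by
    intro t
    rcases (win_iff T G (Phi cl lab) (P t)).mp (h.win t) with hw | hw
    · exact hw.2.2.1
    · exact absurd (hd t).1 hw.1
  obtain ⟨x0, y0, hx0, hy0, a0⟩ := hgood 0
  obtain ⟨x1, y1, hx1, hy1, a1⟩ := hgood 1
  obtain ⟨x2, y2, hx2, hy2, a2⟩ := hgood 2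
  have s0 := h.syncv 0 0 1 (by decide) (by decide)
  have s1 := h.syncv 1 0 2 (by decide) (by decide)
  have s2 := h.syncv 2 1 2 (by decide) (by decide)
  have r00 : rl 0 0 = false := by decide
  have r01 : rl 0 1 = false := by decide
  have r10 : rl 1 0 = true := by decide
  have r12 : rl 1 2 = false := by decide
  have r21 : rl 2 1 = true := by decide
  have r22 : rl 2 2 = true := by decide
  rw [r00, r01] at s0
  rw [r10, r12] at s1
  rw [r21, r22] at s2
  have e1 : x1 = x0 := Subtype.ext (by rw [hx1, hx0, s0])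
  have e2 : x2 = y0 := Subtype.ext (by rw [hx2, hy0, s1])
  have e3 : y2 = y1 := Subtype.ext (by rw [hy2, hy1, s2])
  subst e1 e2 e3
  exact ⟨x1, x2, y2, a0, a1, a2⟩

end

end Pool.Agent.H.MP_2e666d_lc
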