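import Pool.Agent.H.MP_2e666d_lc.RealA

/-! # The simulation: the next mover -/

namespace Pool.Agent.H.MP_2e666d_lc

open Pos

theorem RealB_rl_pl : ∀ (t : Fin 3) (b : Bool), rl (pl t b) t = b := by
  decide

section

variable {T : Set Tag} {G : SimpleGraph B} {cl : List ℕ → ℕ}
  {lab : Fin 3 → List ℕ → ℕ → ℕ → ℕ} {φ1 φ2 : Option Tag} {P : Fin 3 → Pos Tag}

/-- there is a player who has the turn in both of his games -/
theorem inv_mover (hH : HLab cl lab) (h : Inv T G cl lab φ1 φ2 P)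
    (hd : ¬ ∀ t, (P t).dn (P t).mv ∧ (P t).dn (!(P t).mv)) :
    ∃ e, ∀ t, On e t → (P t).mv = rl e t ∧ ¬ (P t).dn (P t).mv := by
  choose W hW using fun t => comp_of_win T G (Phi cl lab) (P t) (h.win t)
  obtain ⟨tm⟩ := exists_tim hH W P h.reach hW
  obtain ⟨θ, hθ⟩ := h.D W hW tm
  have hpi : ∀ t, PI (P t) := fun t => pi_reach (h.reach t)
  have hpre : ∀ t, (P t).W <+: W t := fun t => comp_prefix (hW t)
  obtain ⟨t0, h0⟩ := not_forall.1 hd
  have hlt : (P t0).W.length < (W t0).length := by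
    obtain ⟨h1, h2, -⟩ := comp_len (hpi t0) (hW t0)
    by_cases hm : (P t0).dn (P t0).mv
    · have h3 := h2 (fun h' => h0 ⟨hm, h'⟩)
      omega
    · exact (h1 hm).1
  obtain ⟨e, he⟩ := tm.mover (fun t => (P t).W.length) θ (fun t => (hpre t).length_le) hθ t0 hlt
  refine ⟨e, fun t ht => ?_⟩
  obtain ⟨h1, h2⟩ := he t ht
  refine ⟨?_, ?_⟩
  · have h3 : pl t (P t).mv = e := h2
    rw [← h3, RealB_rl_pl]
  · intro hm
    have h4 := (comp_len (hpi t) (hW t)).2.2 hm (compc_both (hW t) hm)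
    have h5 : (P t).W.length < (W t).length := h1
    rw [h4] at h5
    exact lt_irrefl _ h5

end

end Pool.Agent.H.MP_2e666d_lc
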