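import Pool.Agent.H.MP_2e666d_lc.RealA

/-! # The simulation: ends of blocks -/

namespace Pool.Agent.H.MP_2e666d_lc

open Pos

section

variable {T : Set Tag} {G : SimpleGraph B} {cl : List ℕ → ℕ}
  {lab : Fin 3 → List ℕ → ℕ → ℕ → ℕ} {φ1 φ2 : Option Tag} {P : Fin 3 → Pos Tag}

theorem RealD_pl_rl {e t : Fin 3} (h : On e t) : pl t (rl e t) = e := by
  revert h; revert e t; decide

theorem RealD_pl_inj {t : Fin 3} {a b : Bool} (h : pl t a = pl t b) : a = b := by
  revert h; revert t a b; decide

theorem RealD_getD_of_pre {l l' : List ℕ} (h : l <+: l') {k : ℕ} (hk : k < l.length) :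
    l'.getD k 0 = l.getD k 0 := by
  obtain ⟨r, rfl⟩ := h
  rw [List.getD_append _ _ _ _ hk]

/-- when the mover completes its element, its last pending draw is an unflagged leaf -/
theorem RealD_noflags {p : Pos Tag} (hp : PI p) (ts : List Tag) (J : List ℕ)
    (hd : ¬ p.dn p.mv) (hd' : (p.adv ts J).dn p.mv) :
    ∀ g, ∀ x ∈ p.s p.mv g, x = none := by
  have hs := levL_spec (p.s p.mv) hd
  have hall : ∀ j, newS (p.s p.mv) ts J j = [] := by
    intro j
    have := hd' j
    rwa [adv_s_mv] at this
  have hl0 : levL (p.s p.mv) = 0 := by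
    by_contra hne
    obtain ⟨m, hm⟩ := Nat.exists_eq_succ_of_ne_zero hne
    have h1 := hall m
    unfold newS at h1
    rw [if_neg (by omega), if_pos (by omega)] at h1
    have h2 := mkF_length ts J
    rw [h1] at h2
    simp at h2
  intro g x hx
  have hg := hall g
  unfold newS at hg
  by_cases hg0 : g = levL (p.s p.mv)
  · rw [if_pos hg0] at hg
    rw [hl0] at hg0
    subst hg0
    obtain ⟨y, r, hyr⟩ : ∃ y r, p.s p.mv 0 = y :: r := by
      cases h0 : p.s p.mv 0 with
      | nil => rw [h0] at hx; cases hx
      | cons y r => exact ⟨y, r, rfl⟩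
    rw [hyr, List.tail_cons] at hg
    subst hg
    have hne : p.s p.mv 0 ≠ [] := by rw [hyr]; simp
    have h1 := hp.lastn p.mv 0 (by norm_num) hne
    have h2 : (p.s p.mv 0).getLast hne = y := by
      simp only [hyr, List.getLast_singleton]
    rw [h2] at h1
    rw [hyr] at hx
    rw [List.mem_singleton] at hx
    rw [hx, h1]
  · rw [if_neg hg0, if_neg (by omega)] at hg
    rw [hg] at hx
    cases hx

/-- the flag of the next draw at level `0` -/
theorem RealD_fl {p : Pos Tag} (hd : ¬ p.dn p.mv) (hl : p.lv = 0) {a : Tag}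
    (ha : p.fl = some a) : (p.s p.mv 0)[0]? = some (some a) := by
  have hs := (levL_spec (p.s p.mv) hd).1
  have hl' : levL (p.s p.mv) = 0 := hl
  rw [hl'] at hs
  unfold Pos.fl at ha
  rw [hl] at ha
  cases h0 : p.s p.mv 0 with
  | nil => exact absurd h0 hs
  | cons y r =>
    rw [h0] at ha
    simp only [List.headD_cons] at ha
    rw [ha]
    rfl

/-- the drawn flagged leaf: the block is `|W|`, the tag is truthful and the letter at most `3` -/
theorem RealD_leaf {p : Pos Tag} {Φ : List ℕ → ℕ → ℕ → Tag} {V : List ℕ} (hp : PI p)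
    (ts : List Tag) (J : List ℕ) (hl : p.lv = 0)
    (hW : (p.adv ts J).W = p.W ++ [p.h]) {a : Tag} (ha : p.fl = some a)
    (hc : Comp T Φ (p.adv ts J) V) : a = Φ V p.W.length 0 ∧ Let V p.W.length 0 := by
  constructor
  · have h1 := comp_facts hc (p.W.length, p.lv, a) (by
      rw [adv_facts, ha]
      exact List.mem_cons_self)
    rw [hl] at h1
    exact h1
  · have hpre := comp_prefix hc
    rw [hW] at hpre
    have hlen := hpre.length_le
    rw [List.length_append, List.length_singleton] at hlen
    have h2 := RealD_getD_of_pre hpre (k := p.W.length) (by simp)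
    refine ⟨by omega, Nat.zero_le _, ?_⟩
    rw [h2]
    have h3 : (p.W ++ [p.h]).getD p.W.length 0 = p.h := by simp
    rw [h3]
    exact hp.h3

/-- the labels tell which blocks end -/
theorem inv_ends (hH : HLab cl lab) (h : Inv T G cl lab φ1 φ2 P) (e t1 t2 : Fin 3)
    (ht : t1 ≠ t2) (h1 : On e t1) (h2 : On e t2)
    (he : ∀ t, On e t → (P t).mv = rl e t ∧ ¬ (P t).dn (P t).mv)
    (ts1 ts2 : List Tag) (J1 J2 : List ℕ)
    (a1 : (P t1).Ann T ts1) (a2 : (P t2).Ann T ts2)
    (l1 : J1.length = ts1.length + 1) (l2 : J2.length = ts2.length + 1)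
    (p1 : J1.Pairwise (· < ·)) (p2 : J2.Pairwise (· < ·))
    (hJ : J1.getLastD 0 = J2.getLastD 0)
    (W : Fin 3 → List ℕ)
    (hW : ∀ t, Comp T (Phi cl lab) (nextP P t1 t2 ts1 ts2 J1 J2 t) (W t)) (tm : Tim W lab)
    (hend : ((P t1).adv ts1 J1).W ≠ (P t1).W) :
    (((P t2).adv ts2 J2).W ≠ (P t2).W ∧
      tm.L t1 (P t1).W.length = tm.L t2 (P t2).W.length) ∨
    (((P t2).adv ts2 J2).W = (P t2).W ∧
      tm.L t1 (P t1).W.length < tm.L t2 (P t2).W.length) := by
  obtain ⟨m1, d1⟩ := he t1 h1
  obtain ⟨m2, d2⟩ := he t2 h2
  have c1' : Comp T (Phi cl lab) ((P t1).adv ts1 J1) (W t1) := by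
    have := hW t1
    unfold nextP at this
    rwa [if_pos rfl] at this
  have c2' : Comp T (Phi cl lab) ((P t2).adv ts2 J2) (W t2) := by
    have := hW t2
    unfold nextP at this
    rwa [if_neg ht.symm, if_pos rfl] at this
  have c1 := Comp.step (P t1) ts1 J1 (W t1) d1 a1 l1 p1 c1'
  have c2 := Comp.step (P t2) ts2 J2 (W t2) d2 a2 l2 p2 c2'
  have q1 : PI (P t1) := pi_reach (h.reach t1)
  have q2 : PI (P t2) := pi_reach (h.reach t2)
  have q1' : PI ((P t1).adv ts1 J1) := pi_step q1 ts1 J1 d1 a1 l1 p1
  have q2' : PI ((P t2).adv ts2 J2) := pi_step q2 ts2 J2 d2 a2 l2 p2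
  have hlen : ∀ g, ((P t1).s (P t1).mv g).length = ((P t2).s (P t2).mv g).length := by
    intro g
    rw [m1, m2]
    exact h.syncs e t1 t2 g h1 h2
  have hlv : (P t1).lv = (P t2).lv := levL_congr _ _ hlen
  have hlen' : ∀ g, (((P t1).adv ts1 J1).s (P t1).mv g).length =
      (((P t2).adv ts2 J2).s (P t2).mv g).length := by
    intro g
    rw [adv_s_mv, adv_s_mv, newS_length, newS_length, hJ, show
      (fun g => ((P t1).s (P t1).mv g).length) = (fun g => ((P t2).s (P t2).mv g).length) from
      funext hlen]
  have hdn : ((P t1).adv ts1 J1).dn (P t1).mv ↔ ((P t2).adv ts2 J2).dn (P t2).mv := by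
    unfold Pos.dn
    constructor
    · intro hx g
      have := hlen' g
      rw [hx g] at this
      exact List.length_eq_zero_iff.mp this.symm
    · intro hx g
      have := hlen' g
      rw [hx g] at this
      exact List.length_eq_zero_iff.mp this
  have o1 : owner t1 (P t1).W.length = e := by
    have : owner t1 (P t1).W.length = pl t1 (P t1).mv := rfl
    rw [this, m1, RealD_pl_rl h1]
  have o2 : owner t2 (P t2).W.length = e := by
    have : owner t2 (P t2).W.length = pl t2 (P t2).mv := rfl
    rw [this, m2, RealD_pl_rl h2]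
  have b1 := ((comp_len q1 c1).1 d1).1
  have b2 := ((comp_len q2 c2).1 d2).1
  by_cases hc : ((P t1).adv ts1 J1).dn (P t1).mv
  · -- case A
    left
    have hc2 := hdn.mp hc
    constructor
    · rcases adv_W (P t2) ts2 J2 with hh | hh | hh
      · rw [hh.2.1]
        intro hx
        have := congrArg List.length hx
        simp at this
      · exact absurd hc2 hh.1
      · exact absurd hc2 hh.1
    · have e1 := comp_last q1 c1 d1 (RealD_noflags q1 ts1 J1 d1 hc)
      have e2 := comp_last q2 c2 d2 (RealD_noflags q2 ts2 J2 d2 hc2)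
      exact tm.fin_eq t1 t2 _ _ ht (o1.trans o2.symm) b1 e1 b2 e2
  · -- case B
    have hc2 : ¬ ((P t2).adv ts2 J2).dn (P t2).mv := fun hx => hc (hdn.mpr hx)
    obtain ⟨hl1, hf1, hW1⟩ : (P t1).lv = 0 ∧ (P t1).fl ≠ none ∧
        ((P t1).adv ts1 J1).W = (P t1).W ++ [(P t1).h] := by
      rcases adv_W (P t1) ts1 J1 with hh | hh | hh
      · exact absurd hh.1 hc
      · exact ⟨hh.2.1, hh.2.2.1, hh.2.2.2.1⟩
      · exact absurd hh.2.2.1 hend
    have hl2 : (P t2).lv = 0 := by rw [← hlv]; exact hl1
    obtain ⟨a, ha⟩ := Option.ne_none_iff_exists'.mp hf1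
    have ha0 := RealD_fl d1 hl1 ha
    obtain ⟨haΦ, haL⟩ := RealD_leaf q1 ts1 J1 hl1 hW1 ha c1'
    have hWlen : ((P t1).adv ts1 J1).W.length = (P t1).W.length + 1 := by
      rw [hW1, List.length_append, List.length_singleton]
    have hmv1 : ((P t1).adv ts1 J1).mv = !(P t1).mv := by
      unfold Pos.mv
      rw [hWlen]
      rcases Nat.mod_two_eq_zero_or_one (P t1).W.length with hx | hx
      · have : ((P t1).W.length + 1) % 2 = 1 := by omega
        simp [hx, this]
      · have : ((P t1).W.length + 1) % 2 = 0 := by omega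
        simp [hx, this]
    have hlong : (P t1).W.length + 2 < (W t1).length := by
      have := (comp_len q1' c1').2.1 (by rw [hmv1, Bool.not_not]; exact hc)
      rw [hWlen] at this
      omega
    by_cases hf2 : (P t2).fl = none
    · -- case B2
      right
      have hW2 : ((P t2).adv ts2 J2).W = (P t2).W := by
        rcases adv_W (P t2) ts2 J2 with hh | hh | hh
        · exact absurd hh.1 hc2
        · exact absurd hf2 hh.2.2.1
        · exact hh.2.2.1
      refine ⟨hW2, ?_⟩
      have hmv2 : ((P t2).adv ts2 J2).mv = (P t2).mv := by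
        unfold Pos.mv
        rw [hW2]
      have hd2' : ¬ ((P t2).adv ts2 J2).dn ((P t2).adv ts2 J2).mv := by
        rw [hmv2]; exact hc2
      -- lists of the second tape
      have hlv2 : levL ((P t2).s (P t2).mv) = 0 := hl2
      have hs2 : ∀ g, 0 < g → ((P t2).adv ts2 J2).s (P t2).mv g = (P t2).s (P t2).mv g := by
        intro g hg
        rw [adv_s_mv]
        unfold newS
        rw [if_neg (by omega), if_neg (by omega)]
      have hs20 : ((P t2).adv ts2 J2).s (P t2).mv 0 = ((P t2).s (P t2).mv 0).tail := by
        rw [adv_s_mv]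
        unfold newS
        rw [if_pos hlv2.symm]
      by_cases hex : ∃ g, ∃ b : Tag, some b ∈ ((P t2).adv ts2 J2).s (P t2).mv g
      · classical
        have hspec := Nat.find_spec hex
        have hmin : ∀ g' < Nat.find hex, ∀ x ∈ ((P t2).adv ts2 J2).s (P t2).mv g', x = none := by
          intro g' hg' x hx
          have := Nat.find_min hex hg'
          cases hxx : x with
          | none => rfl
          | some b => exact absurd ⟨b, hxx ▸ hx⟩ this
        generalize Nat.find hex = g at hspec hmin
        obtain ⟨b0, hb0⟩ := hspec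
        have hexj : ∃ j : ℕ, ∃ b : Tag,
            (((P t2).adv ts2 J2).s (P t2).mv g)[j]? = some (some b) := by
          obtain ⟨j, hj⟩ := List.mem_iff_getElem?.mp hb0
          exact ⟨j, b0, hj⟩
        have hspecj := Nat.find_spec hexj
        have hminj : ∀ j' < Nat.find hexj, ∀ b : Tag,
            (((P t2).adv ts2 J2).s (P t2).mv g)[j']? ≠ some (some b) := by
          intro j' hj' b hb
          exact Nat.find_min hexj hj' ⟨b, hb⟩
        generalize Nat.find hexj = j at hspecj hminj
        obtain ⟨b, hb⟩ := hspecj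
        have hg2 : g ≤ 2 := by
          by_contra hcon
          have hne : ((P t2).adv ts2 J2).s (P t2).mv g ≠ [] := by
            intro hx
            rw [hx] at hb0
            cases hb0
          have h0 : (P t2).s (P t2).mv 0 ≠ [] := by
            have := (levL_spec ((P t2).s (P t2).mv) d2).1
            rwa [hlv2] at this
          have h3 : (P t2).s (P t2).mv 3 = [] := by
            by_contra h3
            exact h0 (q2.top2 _ h3 0 (by norm_num))
          rcases Nat.lt_or_ge 3 g with h4 | h4
          · exact hne (q2'.sup _ g h4)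
          · have h5 : g = 3 := by omega
            rw [h5, hs2 3 (by norm_num)] at hne
            exact hne h3
        -- the block in which the flagged draw will be made
        obtain ⟨hbΦ, hbL⟩ : b = Phi cl lab (W t2) (P t2).W.length g ∧
            Let (W t2) (P t2).W.length g := by
          obtain ⟨d, hd1, -, -, hd4⟩ := comp_flags q2' c2' (P t2).mv
          obtain ⟨x1, -, -, x4⟩ := hd1 g j b hb
          have hdk : d g j = (P t2).W.length := by
            rw [← hW2]
            refine hd4 hmv2.symm g j b hb hmin ?_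
            intro j' hj'
            have hjl : j < (((P t2).adv ts2 J2).s (P t2).mv g).length := by
              by_contra hcon
              rw [List.getElem?_eq_none (by omega)] at hb
              cases hb
            have hj'l : j' < (((P t2).adv ts2 J2).s (P t2).mv g).length := by omega
            have hx := hminj j' hj'
            rw [List.getElem?_eq_getElem hj'l] at hx ⊢
            cases hy : (((P t2).adv ts2 J2).s (P t2).mv g)[j'] with
            | none => rfl
            | some b' => exact absurd (by rw [hy]) (hx b')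
          rw [hdk] at x1 x4
          exact ⟨x1, x4⟩
        -- the path on the first tape
        have hpath0 : ((P t1).adv ts1 J1).path (P t1).mv 0 = some ((P t1).W.length, a) := by
          rw [adv_path_mv, if_pos hl1.symm, ha]
          rfl
        have hpathne : ∀ g' ≤ 3, ((P t1).adv ts1 J1).path (P t1).mv g' ≠ none := by
          intro g'
          induction g' with
          | zero => intro _; rw [hpath0]; simp
          | succ m ih => intro hm; exact q1'.pp _ m (by omega) (ih (by omega))
        obtain ⟨⟨kg, ag⟩, hkg⟩ := Option.ne_none_iff_exists'.mp (hpathne g (by omega))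
        obtain ⟨f1, f2, f3, -, f5⟩ := q1'.pf (P t1).mv g kg ag hc hkg
        have hf3 : kg < ((P t1).adv ts1 J1).W.length ∧ g ≤ ((P t1).adv ts1 J1).W.getD kg 0 ∧
            ((P t1).adv ts1 J1).W.getD kg 0 ≤ 3 := by
          rcases f3 with f3 | f3
          · exact f3
          · exfalso
            have := f3.2.1
            rw [hmv1] at this
            cases hx : (P t1).mv <;> rw [hx] at this <;> cases this
        have hpre := comp_prefix c1'
        have hagΦ : ag = Phi cl lab (W t1) kg g := comp_facts c1' (kg, g, ag) f1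
        have hkgle : kg ≤ (P t1).W.length := by omega
        have hagL : Let (W t1) kg g := by
          refine ⟨by omega, ?_, ?_⟩
          · rw [RealD_getD_of_pre hpre hf3.1]; exact hf3.2.1
          · rw [RealD_getD_of_pre hpre hf3.1]; exact hf3.2.2
        have okg : owner t1 kg = e := by
          have : owner t1 kg = pl t1 (decide (kg % 2 = 1)) := rfl
          rw [this, f2, m1, RealD_pl_rl h1]
        have hlt : ag.2 t1 < b.2 t2 := by
          rcases Nat.eq_zero_or_pos g with hg0 | hg0
          · subst hg0
            rw [hpath0] at hkg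
            have hab : a = ag := by
              have := Option.some.inj hkg
              exact (Prod.mk.inj this).2
            subst hab
            rw [hs20] at hb
            have hb' : ((P t2).s (P t2).mv 0)[j + 1]? = some (some b) := by
              rw [← List.getElem?_tail]
              exact hb
            rw [m2] at hb'
            rw [m1] at ha0
            exact (h.ord e t1 t2 ht h1 h2 0 (by norm_num) 0 (j + 1) a b ha0 hb').mp (by omega)
          · rw [hs2 g hg0, m2] at hb
            rw [adv_path_mv, if_neg (by omega), if_neg (by omega), m1] at hkg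
            exact h.pord e t1 t2 ht h1 h2 g hg2 kg j ag b hkg hb
        have hE : tm.E t1 kg g < tm.E t2 (P t2).W.length g := by
          rw [tm.labE t1 t2 kg (P t2).W.length g ht (okg.trans o2.symm) hg2 hagL hbL]
          rw [hagΦ, hbΦ] at hlt
          exact hlt
        refine tm.brk t1 t2 kg (P t1).W.length (P t2).W.length g ht hkgle
          (okg.trans o1.symm) (o1.trans o2.symm) hg2 hagL hbL b1 ?_ hE
        intro k' hk1 hk2 ho
        have hk3 : k' < ((P t1).adv ts1 J1).W.length := by omega
        rw [RealD_getD_of_pre hpre hk3]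
        refine f5 k' hk1 hk3 ?_
        have hx1 : pl t1 (decide (k' % 2 = 1)) = pl t1 (P t1).mv := ho
        exact RealD_pl_inj hx1
      · -- no flags
        have hnof : ∀ g, ∀ x ∈ ((P t2).adv ts2 J2).s ((P t2).adv ts2 J2).mv g, x = none := by
          intro g x hx
          rw [hmv2] at hx
          cases hxx : x with
          | none => rfl
          | some b => exact absurd ⟨g, b, hxx ▸ hx⟩ hex
        have e2 := comp_last q2' c2' hd2' hnof
        rw [hW2] at e2
        exact tm.fin_lt t1 t2 _ _ ht (o1.trans o2.symm) hlong b2 e2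
    · -- case B1
      left
      obtain ⟨b, hb⟩ := Option.ne_none_iff_exists'.mp hf2
      have hW2 : ((P t2).adv ts2 J2).W = (P t2).W ++ [(P t2).h] := by
        rcases adv_W (P t2) ts2 J2 with hh | hh | hh
        · exact absurd hh.1 hc2
        · exact hh.2.2.2.1
        · exact absurd ⟨hl2, hf2⟩ hh.2.1
      constructor
      · rw [hW2]
        intro hx
        have := congrArg List.length hx
        simp at this
      · have hb0 := RealD_fl d2 hl2 hb
        obtain ⟨hbΦ, hbL⟩ := RealD_leaf q2 ts2 J2 hl2 hW2 hb c2'
        rw [m1] at ha0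
        rw [m2] at hb0
        have n1 : ¬ a.2 t1 < b.2 t2 := fun hx =>
          absurd ((h.ord e t1 t2 ht h1 h2 0 (by norm_num) 0 0 a b ha0 hb0).mpr hx) (by omega)
        have n2 : ¬ b.2 t2 < a.2 t1 := fun hx =>
          absurd ((h.ord e t2 t1 ht.symm h2 h1 0 (by norm_num) 0 0 b a hb0 ha0).mpr hx) (by omega)
        rw [haΦ, hbΦ] at n1 n2
        have n1' : ¬ tm.E t1 (P t1).W.length 0 < tm.E t2 (P t2).W.length 0 := by
          rw [tm.labE t1 t2 _ _ 0 ht (o1.trans o2.symm) (by norm_num) haL hbL]
          exact n1
        have n2' : ¬ tm.E t2 (P t2).W.length 0 < tm.E t1 (P t1).W.length 0 := by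
          rw [tm.labE t2 t1 _ _ 0 ht.symm (o2.trans o1.symm) (by norm_num) hbL haL]
          exact n2
        rw [tm.E0 _ _ haL, tm.E0 _ _ hbL] at n1' n2'
        omega

end

end Pool.Agent.H.MP_2e666d_lc
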