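import Pool.Agent.H.MP_2e666d_lc.Words

/-! # Lemmas on timings -/

namespace Pool.Agent.H.MP_2e666d_lc

variable {W : Fin 3 → List ℕ} {lab : Fin 3 → List ℕ → ℕ → ℕ → ℕ}

theorem TimLem_on_owner (t : Fin 3) (k : ℕ) : On (owner t k) t := by
  unfold owner On
  cases decide (k % 2 = 1)
  · exact Or.inl rfl
  · exact Or.inr rfl

theorem TimLem_other (e t : Fin 3) (h : On e t) :
    ∃ t', t' ≠ t ∧ On e t' ∧ ∀ r, r ≠ t → r ≠ t' → ¬ On e r := by
  revert e t
  decide

theorem TimLem_three (t t' r x : Fin 3) (h1 : t' ≠ t) (h2 : r ≠ t) (h3 : r ≠ t') (h4 : x ≠ r) :
    x = t ∨ x = t' := by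
  revert t t' r x
  decide

/-- no deadlock: the blocks before `c t` are done, exactly those with an end before `θ` -/
theorem Tim.mover (tm : Tim W lab) (c : Fin 3 → ℕ) (θ : ℕ) (hc : ∀ t, c t ≤ (W t).length)
    (hθ : ∀ t k, k < (W t).length → (k < c t ↔ tm.L t k < θ)) (t0 : Fin 3)
    (h0 : c t0 < (W t0).length) :
    ∃ e, ∀ t, On e t → c t < (W t).length ∧ owner t (c t) = e := by
  obtain ⟨t, ht, hmin⟩ := Finset.exists_min_image
    (Finset.univ.filter (fun t => c t < (W t).length)) (fun t => tm.L t (c t))
    ⟨t0, by simp [h0]⟩
  have ht' : c t < (W t).length := by simpa using ht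
  refine ⟨owner t (c t), ?_⟩
  intro t' hon
  by_cases hne : t' = t
  · subst hne
    exact ⟨ht', rfl⟩
  · obtain ⟨l, hl, ho, hle, hlt⟩ := tm.turn t t' (c t) ht' (fun h => hne h.symm) hon
    have h1 : θ ≤ tm.L t (c t) := by
      by_contra hcon
      have := (hθ t (c t) ht').2 (by omega)
      omega
    have h2 : c t' ≤ l := by
      by_contra hcon
      have := (hθ t' l hl).1 (by omega)
      omega
    have h3 : c t' < (W t').length := by omega
    have h4 : tm.L t (c t) ≤ tm.L t' (c t') := hmin t' (by simp [h3])
    have h5 : l = c t' := by
      by_contra hcon
      have := hlt (c t') (by omega)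
      omega
    refine ⟨h3, ?_⟩
    rw [← h5]
    exact ho

/-- one step: the player `e` moves, the blocks on the tapes in `s` end -/
theorem Tim.next (tm : Tim W lab) (c : Fin 3 → ℕ) (θ : ℕ)
    (hθ : ∀ t k, k < (W t).length → (k < c t ↔ tm.L t k < θ)) (e : Fin 3)
    (he : ∀ t, On e t → c t < (W t).length ∧ owner t (c t) = e) (s : Fin 3 → Prop)
    (hs : ∀ t, s t → On e t)
    (hs' : ∀ t t', t ≠ t' → On e t → On e t' → s t →
      (s t' ∧ tm.L t (c t) = tm.L t' (c t')) ∨ (¬ s t' ∧ tm.L t (c t) < tm.L t' (c t')))
    (c' : Fin 3 → ℕ) (hc' : ∀ t, (s t → c' t = c t + 1) ∧ (¬ s t → c' t = c t)) :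
    ∃ θ', ∀ t k, k < (W t).length → (k < c' t ↔ tm.L t k < θ') := by
  by_cases hs0 : ∃ t, s t
  · obtain ⟨t, hst⟩ := hs0
    have hon := hs t hst
    obtain ⟨t', hne, hon', hoth⟩ := TimLem_other e t hon
    have hct := (he t hon).1
    have hct' := (he t' hon').1
    have hθt : θ ≤ tm.L t (c t) := by
      by_contra hcon
      have := (hθ t (c t) hct).2 (by omega)
      omega
    have hcases := hs' t t' (fun h => hne h.symm) hon hon' hst
    have hge : tm.L t (c t) ≤ tm.L t' (c t') := by
      rcases hcases with h | h
      · exact h.2.le
      · exact h.2.le
    refine ⟨tm.L t (c t) + 1, ?_⟩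
    intro r k hk
    by_cases hrt : r = t
    · subst hrt
      rw [(hc' r).1 hst]
      constructor
      · intro h
        rcases Nat.lt_or_ge k (c r) with h1 | h1
        · have := tm.Lmono r k (c r) h1 hct
          omega
        · have : k = c r := by omega
          subst this
          omega
      · intro h
        by_contra hcon
        have := tm.Lmono r (c r) k (by omega) hk
        omega
    · by_cases hrt' : r = t'
      · subst hrt'
        rcases hcases with ⟨h1, h2⟩ | ⟨h1, h2⟩
        · rw [(hc' r).1 h1]
          constructor
          · intro h
            rcases Nat.lt_or_ge k (c r) with h3 | h3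
            · have := tm.Lmono r k (c r) h3 hct'
              omega
            · have : k = c r := by omega
              subst this
              omega
          · intro h
            by_contra hcon
            have := tm.Lmono r (c r) k (by omega) hk
            omega
        · rw [(hc' r).2 h1]
          constructor
          · intro h
            have := (hθ r k hk).1 h
            omega
          · intro h
            by_contra hcon
            rcases Nat.lt_or_ge (c r) k with h3 | h3
            · have := tm.Lmono r (c r) k h3 hk
              omega
            · have : k = c r := by omega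
              subst this
              omega
      · have hnon := hoth r hrt hrt'
        have hns : ¬ s r := fun h => hnon (hs r h)
        rw [(hc' r).2 hns]
        constructor
        · intro h
          have := (hθ r k hk).1 h
          omega
        · intro h
          by_contra hcon
          have hcr : c r < (W r).length := by omega
          have hle : tm.L r (c r) ≤ tm.L t (c t) := by
            rcases Nat.lt_or_ge (c r) k with h3 | h3
            · have := tm.Lmono r (c r) k h3 hk
              omega
            · have : k = c r := by omega
              subst this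
              omega
          obtain ⟨x, hx1, hx2, -⟩ := TimLem_other (owner r (c r)) r (TimLem_on_owner r (c r))
          have hxt := TimLem_three t t' r x hne hrt hrt' hx1
          obtain ⟨l, hl, ho, hle2, hlt⟩ := tm.turn r x (c r) hcr (fun h => hx1 h.symm) hx2
          have hx3 : tm.L t (c t) ≤ tm.L x (c x) := by
            rcases hxt with h | h
            · rw [h]
            · rw [h]
              exact hge
          have hx4 : On e x := by
            rcases hxt with h | h
            · rw [h]
              exact hon
            · rw [h]
              exact hon'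
          have h1 : l ≤ c x := by
            by_contra hcon2
            have := hlt (c x) (by omega)
            omega
          have h2 : ¬ l < c x := by
            intro hcon2
            have h5 := (hθ x l hl).1 hcon2
            have h6 := (hθ r (c r) hcr).2 (by omega)
            omega
          have h3 : l = c x := by omega
          have h4 := (he x hx4).2
          rw [← h3, ho] at h4
          apply hnon
          rw [← h4]
          exact TimLem_on_owner r (c r)
  · refine ⟨θ, ?_⟩
    intro t k hk
    rw [(hc' t).2 (fun h => hs0 ⟨t, h⟩)]
    exact hθ t k hk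

end Pool.Agent.H.MP_2e666d_lc
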