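import Pool.Agent.H.MP_2e666d_lc.CompD
import Pool.Agent.H.MP_2e666d_lc.CompE
import Pool.Agent.H.MP_2e666d_lc.GameLem
import Pool.Agent.H.MP_2e666d_lc.TimLem
import Pool.Agent.H.MP_2e666d_lc.Masks

/-! # The simulation of three pair games: definitions -/

namespace Pool.Agent.H.MP_2e666d_lc

open Pos

/-- The invariant of the simulation of the three pair games (one on each tape). -/
structure Inv (T : Set Tag) (G : SimpleGraph B) (cl : List ℕ → ℕ)
    (lab : Fin 3 → List ℕ → ℕ → ℕ → ℕ) (φ1 φ2 : Option Tag) (P : Fin 3 → Pos Tag) : Prop where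
  win : ∀ t, Win T G (Phi cl lab) (P t)
  reach : ∀ t, Reach T φ1 φ2 (P t)
  syncv : ∀ e t t', On e t → On e t' → (P t).v (rl e t) = (P t').v (rl e t')
  syncs : ∀ e t t' g, On e t → On e t' →
    ((P t).s (rl e t) g).length = ((P t').s (rl e t') g).length
  ord : ∀ e t t', t ≠ t' → On e t → On e t' → ∀ g ≤ 2, ∀ (i j : ℕ) (a b : Tag),
    ((P t).s (rl e t) g)[i]? = some (some a) → ((P t').s (rl e t') g)[j]? = some (some b) →
      (i < j ↔ a.2 t < b.2 t')
  pord : ∀ e t t', t ≠ t' → On e t → On e t' → ∀ g ≤ 2, ∀ (k j : ℕ) (a b : Tag),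
    (P t).path (rl e t) g = some (k, a) → ((P t').s (rl e t') g)[j]? = some (some b) →
      a.2 t < b.2 t'
  D : ∀ W : Fin 3 → List ℕ, (∀ t, Comp T (Phi cl lab) (P t) (W t)) → ∀ tm : Tim W lab,
    ∃ θ, ∀ t k, k < (W t).length → (k < (P t).W.length ↔ tm.L t k < θ)

/-- the next position of the simulation -/
noncomputable def nextP (P : Fin 3 → Pos Tag) (t1 t2 : Fin 3) (ts1 ts2 : List Tag) (J1 J2 : List ℕ) :
    Fin 3 → Pos Tag :=
  fun t => if t = t1 then (P t1).adv ts1 J1 else if t = t2 then (P t2).adv ts2 J2 else P t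

/-- total numbers of pending draws, highest level first -/
def tot (P : Fin 3 → Pos Tag) : ℕ ×ₗ ℕ ×ₗ ℕ ×ₗ ℕ :=
  toLex (∑ t, (((P t).s false 3).length + ((P t).s true 3).length),
    toLex (∑ t, (((P t).s false 2).length + ((P t).s true 2).length),
      toLex (∑ t, (((P t).s false 1).length + ((P t).s true 1).length),
        ∑ t, (((P t).s false 0).length + ((P t).s true 0).length))))

end Pool.Agent.H.MP_2e666d_lc
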