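import Pool.Agent.H.MP_2e666d_lc.Words

/-! # Schedules (sequences of atoms) and their timings -/

namespace Pool.Agent.H.MP_2e666d_lc

/-- `A`: the times of the atoms, `e`: the moving player, `b t a`: the block of the tape `t` which
contains the atom `a`. -/
structure Sched (W : Fin 3 → List ℕ) where
  A : Finset ℕ
  e : ℕ → Fin 3
  b : Fin 3 → ℕ → ℕ
  blt : ∀ a ∈ A, ∀ t, On (e a) t → b t a < (W t).length
  own : ∀ a ∈ A, ∀ t, On (e a) t → owner t (b t a) = e a
  mono : ∀ a ∈ A, ∀ a' ∈ A, ∀ t, On (e a) t → On (e a') t → a ≤ a' → b t a ≤ b t a'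
  surj : ∀ t k, k < (W t).length → ∃ a ∈ A, On (e a) t ∧ b t a = k
  served : ∀ t k g, k < (W t).length → g ≤ (W t).getD k 0 → g ≤ 2 →
    ∃ a ∈ A, On (e a) t ∧ b t a = k ∧ ∀ t', On (e a) t' → g ≤ (W t').getD (b t' a) 0

namespace Sched

variable {W : Fin 3 → List ℕ}

/-- the level `g` can be crossed in the atom `a` -/
def M (S : Sched W) (a g : ℕ) : Prop := ∀ t, On (S.e a) t → g ≤ (W t).getD (S.b t a) 0

/-- the last atom of a block -/
noncomputable def L (S : Sched W) (t : Fin 3) (k : ℕ) : ℕ :=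
  sSup {a | a ∈ S.A ∧ On (S.e a) t ∧ S.b t a = k}

/-- the last atom before the end of the block in which the level `g` can be crossed -/
noncomputable def E (S : Sched W) (t : Fin 3) (k g : ℕ) : ℕ :=
  sSup {a | a ∈ S.A ∧ S.e a = owner t k ∧ a ≤ S.L t k ∧ S.M a g}

theorem sched_on_owner (t : Fin 3) (k : ℕ) : On (owner t k) t := by
  unfold On owner
  cases decide (k % 2 = 1)
  · exact Or.inl rfl
  · exact Or.inr rfl

theorem sched_pl_ne (t : Fin 3) : pl t false ≠ pl t true := by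
  fin_cases t <;> decide

theorem sched_owner_parity {t : Fin 3} {k l : ℕ} (h : owner t k = owner t l) :
    k % 2 = l % 2 := by
  unfold owner at h
  rcases Nat.mod_two_eq_zero_or_one k with hk | hk <;>
    rcases Nat.mod_two_eq_zero_or_one l with hl | hl
  · omega
  · simp only [hk, hl] at h
    exact absurd h (sched_pl_ne t)
  · simp only [hk, hl] at h
    exact absurd h.symm (sched_pl_ne t)
  · omega

theorem L_mem (S : Sched W) (t : Fin 3) (k : ℕ) (hk : k < (W t).length) :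
    S.L t k ∈ S.A ∧ S.e (S.L t k) = owner t k ∧ S.b t (S.L t k) = k ∧
      ∀ a ∈ S.A, On (S.e a) t → S.b t a = k → a ≤ S.L t k := by
  have hne : {a | a ∈ S.A ∧ On (S.e a) t ∧ S.b t a = k}.Nonempty := by
    obtain ⟨a, h1, h2, h3⟩ := S.surj t k hk
    exact ⟨a, h1, h2, h3⟩
  have hbd : BddAbove {a | a ∈ S.A ∧ On (S.e a) t ∧ S.b t a = k} :=
    S.A.bddAbove.mono (fun a ha => ha.1)
  have hmem := Nat.sSup_mem hne hbd
  change S.L t k ∈ {a | a ∈ S.A ∧ On (S.e a) t ∧ S.b t a = k} at hmem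
  obtain ⟨h1, h2, h3⟩ := hmem
  refine ⟨h1, ?_, h3, ?_⟩
  · rw [← S.own _ h1 t h2, h3]
  · intro a ha hon hb
    exact le_csSup hbd ⟨ha, hon, hb⟩

theorem E_mem (S : Sched W) (t : Fin 3) (k g : ℕ) (hk : k < (W t).length)
    (hg : g ≤ (W t).getD k 0) (h2 : g ≤ 2) :
    S.E t k g ∈ S.A ∧ S.e (S.E t k g) = owner t k ∧ S.b t (S.E t k g) = k ∧ S.M (S.E t k g) g ∧
      S.E t k g ≤ S.L t k ∧
      ∀ a ∈ S.A, S.e a = owner t k → a ≤ S.L t k → S.M a g → a ≤ S.E t k g := by
  obtain ⟨l1, l2, l3, l4⟩ := S.L_mem t k hk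
  obtain ⟨a0, h1, h2', h3, h4⟩ := S.served t k g hk hg h2
  have he0 : S.e a0 = owner t k := by rw [← S.own _ h1 t h2', h3]
  have hne : {a | a ∈ S.A ∧ S.e a = owner t k ∧ a ≤ S.L t k ∧ S.M a g}.Nonempty :=
    ⟨a0, h1, he0, l4 a0 h1 h2' h3, h4⟩
  have hbd : BddAbove {a | a ∈ S.A ∧ S.e a = owner t k ∧ a ≤ S.L t k ∧ S.M a g} :=
    S.A.bddAbove.mono (fun a ha => ha.1)
  have hmem := Nat.sSup_mem hne hbd
  have hle : a0 ≤ S.E t k g := le_csSup hbd ⟨h1, he0, l4 a0 h1 h2' h3, h4⟩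
  change S.E t k g ∈ {a | a ∈ S.A ∧ S.e a = owner t k ∧ a ≤ S.L t k ∧ S.M a g} at hmem
  obtain ⟨m1, m2, m3, m4⟩ := hmem
  have hon : On (S.e (S.E t k g)) t := by rw [m2]; exact sched_on_owner t k
  have honL : On (S.e (S.L t k)) t := by rw [l2]; exact sched_on_owner t k
  refine ⟨m1, m2, ?_, m4, m3, ?_⟩
  · apply le_antisymm
    · have := S.mono _ m1 _ l1 t hon honL m3
      rwa [l3] at this
    · have := S.mono _ h1 _ m1 t h2' hon hle
      rwa [h3] at this
  · intro a ha hea hal hM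
    exact le_csSup hbd ⟨ha, hea, hal, hM⟩

theorem sched_max (S : Sched W) (t : Fin 3) (k : ℕ) (hk : k < (W t).length)
    (hk2 : (W t).length ≤ k + 2) (a : ℕ) (ha : a ∈ S.A) (hea : S.e a = owner t k) :
    a ≤ S.L t k := by
  obtain ⟨l1, l2, l3, l4⟩ := S.L_mem t k hk
  by_contra hlt
  have hlt' : S.L t k ≤ a := by omega
  have hon : On (S.e a) t := by rw [hea]; exact sched_on_owner t k
  have honL : On (S.e (S.L t k)) t := by rw [l2]; exact sched_on_owner t k
  have h1 := S.mono _ l1 _ ha t honL hon hlt'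
  rw [l3] at h1
  have h2 := S.blt a ha t hon
  have h3 : owner t (S.b t a) = owner t k := by rw [S.own a ha t hon, hea]
  have h4 := sched_owner_parity h3
  have h5 : S.b t a = k := by omega
  exact hlt (l4 a ha hon h5)

/-- a schedule with correct labels gives a timing -/
theorem tim (S : Sched W) (lab : Fin 3 → List ℕ → ℕ → ℕ → ℕ)
    (hl : ∀ t t' k l g, t ≠ t' → owner t k = owner t' l → g ≤ 2 → Let (W t) k g →
      Let (W t') l g → (S.E t k g < S.E t' l g ↔ lab t (W t) k g < lab t' (W t') l g)) :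
    Nonempty (Tim W lab) := by
  have hLmono : ∀ t k k', k < k' → k' < (W t).length → S.L t k < S.L t k' := by
    intro t k k' hkk hk'
    obtain ⟨l1, l2, l3, _⟩ := S.L_mem t k (by omega)
    obtain ⟨m1, m2, m3, _⟩ := S.L_mem t k' hk'
    by_contra hcon
    have h1 := S.mono _ m1 _ l1 t (by rw [m2]; exact sched_on_owner t k')
      (by rw [l2]; exact sched_on_owner t k) (by omega)
    rw [m3, l3] at h1
    omega
  refine ⟨{ L := S.L, E := S.E, Lmono := hLmono, turn := ?_, E0 := ?_, Emono := ?_,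
            labE := hl, brk := ?_, fin_eq := ?_, fin_lt := ?_ }⟩
  · -- turn
    intro t t' k hk htt hon
    obtain ⟨l1, l2, l3, l4⟩ := S.L_mem t k hk
    have hon' : On (S.e (S.L t k)) t' := by rw [l2]; exact hon
    have hb := S.blt _ l1 t' hon'
    refine ⟨S.b t' (S.L t k), hb, ?_, ?_, ?_⟩
    · rw [S.own _ l1 t' hon', l2]
    · exact (S.L_mem t' _ hb).2.2.2 _ l1 hon' rfl
    · intro l' hl'
      obtain ⟨m1, m2, m3, _⟩ := S.L_mem t' l' (by omega)
      by_contra hcon
      have h1 := S.mono _ l1 _ m1 t' hon' (by rw [m2]; exact sched_on_owner t' l') (by omega)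
      rw [m3] at h1
      omega
  · -- E0
    intro t k hlet
    obtain ⟨l1, l2, l3, l4⟩ := S.L_mem t k hlet.1
    obtain ⟨e1, e2, e3, e4, e5, e6⟩ := S.E_mem t k 0 hlet.1 (Nat.zero_le _) (by omega)
    exact le_antisymm e5 (e6 _ l1 l2 le_rfl (fun _ _ => Nat.zero_le _))
  · -- Emono
    intro t k k' g hkk hown hg h1 h2
    obtain ⟨e1, e2, e3, e4, e5, e6⟩ := S.E_mem t k g h1.1 h1.2.1 hg
    obtain ⟨f1, f2, f3, f4, f5, f6⟩ := S.E_mem t k' g h2.1 h2.2.1 hg
    by_contra hcon
    have h3 := S.mono _ f1 _ e1 t (by rw [f2]; exact sched_on_owner t k')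
      (by rw [e2]; exact sched_on_owner t k) (by omega)
    rw [f3, e3] at h3
    omega
  · -- brk
    intro t t' k j l g htt hkj hown hown' hg h1 h2 hj hbet hE
    by_contra hcon
    obtain ⟨l1, l2, l3, l4⟩ := S.L_mem t k h1.1
    obtain ⟨j1, j2, j3, j4⟩ := S.L_mem t j hj
    obtain ⟨e1, e2, e3, e4, e5, e6⟩ := S.E_mem t k g h1.1 h1.2.1 hg
    obtain ⟨f1, f2, f3, f4, f5, f6⟩ := S.E_mem t' l g h2.1 h2.2.1 hg
    have hea : S.e (S.E t' l g) = owner t j := by rw [f2, hown']
    have hon : On (S.e (S.E t' l g)) t := by rw [hea]; exact sched_on_owner t j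
    have hbj := S.mono _ f1 _ j1 t hon (by rw [j2]; exact sched_on_owner t j) (by omega)
    rw [j3] at hbj
    have hownb : owner t (S.b t (S.E t' l g)) = owner t j := by
      rw [S.own _ f1 t hon, hea]
    have hbk : S.b t (S.E t' l g) ≤ k := by
      by_contra hgt
      have h3 := hbet _ (by omega) hbj hownb
      have h4 := f4 t hon
      omega
    have hak : S.E t' l g ≤ S.L t k := by
      rcases Nat.lt_or_ge (S.b t (S.E t' l g)) k with h3 | h3
      · by_contra hgt
        have h4 := S.mono _ l1 _ f1 t (by rw [l2]; exact sched_on_owner t k) hon (by omega)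
        rw [l3] at h4
        omega
      · exact l4 _ f1 hon (le_antisymm hbk h3)
    have h5 := e6 _ f1 (by rw [hea, hown]) hak f4
    omega
  · -- fin_eq
    intro t t' k l htt hown hk hk2 hl1 hl2
    obtain ⟨l1, l2, l3, l4⟩ := S.L_mem t k hk
    obtain ⟨m1, m2, m3, m4⟩ := S.L_mem t' l hl1
    apply le_antisymm
    · exact S.sched_max t' l hl1 hl2 _ l1 (by rw [l2, hown])
    · exact S.sched_max t k hk hk2 _ m1 (by rw [m2, hown])
  · -- fin_lt
    intro t t' k l htt hown hk hl1 hl2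
    have hown2 : owner t (k + 2) = owner t k := by
      unfold owner
      rw [Nat.add_mod_right]
    obtain ⟨l1, l2, l3, l4⟩ := S.L_mem t (k + 2) hk
    have h1 := hLmono t k (k + 2) (by omega) hk
    have h2 := S.sched_max t' l hl1 hl2 _ l1 (by rw [l2, hown2, hown])
    omega

end Sched

end Pool.Agent.H.MP_2e666d_lc
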