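import Pool.Agent.H.MP_2e666d_lc.Cut

/-! # Words with an easy switch

`W = 3 3 P 4 4`, `P` of odd length with letters `≤ 2`. If `a < b` are positions of two letters `2` of
different classes and the letters strictly between them of the class of `a` are at most the last
letter of `P` and those of the class of `b` at most the first letter of `P`, then five phases are
enough: the stops are `a`, `n - 2`, `b`, `n`, `n` (with `n + 1 = |W|`). In particular every `P` with
first letter `1`, last letter `1` and a letter `2` in both classes is done. -/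

namespace Pool.Agent.H.MP_2e666d_lc

/-- the shape of the words, by positions; `n + 1` is the length of the word -/
structure SwShape (W : List ℕ) (n : ℕ) : Prop where
  len : W.length = n + 1
  even : n % 2 = 0
  w0 : W.getD 0 0 = 3
  w1 : W.getD 1 0 = 3
  wn1 : W.getD (n - 1) 0 = 4
  wn : W.getD n 0 = 4
  mid : ∀ i, 2 ≤ i → i + 2 ≤ n → W.getD i 0 ≤ 2

theorem SwShape.le4 {W : List ℕ} {n : ℕ} (h : SwShape W n) (i : ℕ) (hi : i ≤ n) :
    W.getD i 0 ≤ 4 := by
  by_cases h0 : i = 0
  · rw [h0, h.w0]; omega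
  · by_cases h1 : i = 1
    · rw [h1, h.w1]; omega
    · by_cases h2 : i + 2 ≤ n
      · have := h.mid i (by omega) h2; omega
      · by_cases h3 : i = n
        · rw [h3, h.wn]
        · have : i = n - 1 := by omega
          rw [this, h.wn1]

theorem sw_easy {W : List ℕ} {n a b : ℕ} (h : SwShape W n) (ha : 2 ≤ a) (hab : a < b)
    (hb : b + 2 ≤ n) (ho : (b - a) % 2 = 1) (h2a : W.getD a 0 = 2) (h2b : W.getD b 0 = 2)
    (hA : ∀ i, a < i → i < b → (i - a) % 2 = 0 → W.getD i 0 ≤ W.getD (n - 2) 0)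
    (hB : ∀ i, a < i → i < b → (i - a) % 2 = 1 → W.getD i 0 ≤ W.getD 2 0) :
    Comp W 5 0 0 0 := by
  have hlen := h.len
  have hev := h.even
  have hn2 : W.getD (n - 2) 0 ≤ 2 := h.mid (n - 2) (by omega) (by omega)
  have h22 : W.getD 2 0 ≤ 2 := h.mid 2 (by omega) (by omega)
  -- the last phase
  have s5 : Comp W 1 b n n := by
    have hp : Ph W b n n n := by
      refine ⟨by omega, by omega, by omega, ?_, ?_, ?_, ?_⟩
      · intro i _ h2 _; rw [h.wn]; exact h.le4 i (by omega)
      · intro i _ h2 _; rw [h.wn]; exact h.le4 i (by omega)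
      · rcases Nat.mod_two_eq_zero_or_one (n - b) with hx | hx
        · exact ⟨n - 1, by omega, by omega, by omega, by rw [h.wn, h.wn1]⟩
        · exact ⟨n, by omega, by omega, by omega, le_rfl⟩
      · rcases Nat.mod_two_eq_zero_or_one (n - b) with hx | hx
        · exact ⟨n, by omega, by omega, by omega, le_rfl⟩
        · exact ⟨n - 1, by omega, by omega, by omega, by rw [h.wn, h.wn1]⟩
    exact Comp.step hp (fun _ => Comp.final hlen) (fun _ => Comp.final hlen)
  -- the fourth phase
  have s4 : Comp W 2 2 (n - 1) b := by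
    have hp : Ph W 2 (n - 1) b n := by
      refine ⟨by omega, by omega, by omega, ?_, ?_, ?_, ?_⟩
      · intro i _ h2 _; rw [h.wn1]; exact h.le4 i (by omega)
      · intro i h1 h2 h3; rw [h2b]; exact h.mid i (by omega) (by omega)
      · exact ⟨n - 1, by omega, by omega, by omega, le_rfl⟩
      · exact ⟨n, by omega, by omega, by omega, by rw [h2b, h.wn]; omega⟩
    refine Comp.step hp (fun hx => absurd hx (by omega)) (fun _ => ?_)
    have : n - 1 + 1 = n := by omega
    rw [this]
    exact s5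
  -- the third phase
  have s3 : Comp W 3 a 2 (n - 2) := by
    have hp : Ph W a 2 (n - 2) b := by
      refine ⟨by omega, by omega, by omega, ?_, ?_, ?_, ?_⟩
      · intro i h1 h2 h3; exact hB i h1 h2 h3
      · intro i h1 h2 h3; exact hA i h1 h2 h3
      · exact ⟨b, by omega, le_rfl, ho, by rw [h2b]; exact h22⟩
      · exact ⟨a, le_rfl, by omega, by omega, by rw [h2a]; exact hn2⟩
    refine Comp.step hp (fun _ => ?_) (fun hx => absurd hx (by omega))
    have : n - 2 + 1 = n - 1 := by omega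
    rw [this]
    exact s4
  -- the second phase
  have s2 : Comp W 4 0 1 a := by
    have hp : Ph W 0 1 a (n - 2) := by
      refine ⟨by omega, by omega, by omega, ?_, ?_, ?_, ?_⟩
      · intro i h1 h2 h3
        rw [h.w1]
        by_cases hi : i = 1
        · rw [hi, h.w1]
        · have := h.mid i (by omega) (by omega); omega
      · intro i h1 h2 h3; rw [h2a]; exact h.mid i (by omega) (by omega)
      · exact ⟨1, by omega, by omega, by omega, le_rfl⟩
      · exact ⟨0, le_rfl, by omega, by omega, by rw [h2a, h.w0]; omega⟩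
    exact Comp.step hp (fun hx => absurd hx (by omega)) (fun _ => s3)
  -- the first phase
  have hp : Ph W 0 0 0 a := by
    refine ⟨by omega, by omega, by omega, ?_, ?_, ?_, ?_⟩
    · intro i h1 h2 h3
      rw [h.w0]
      by_cases hi : i = 1
      · rw [hi, h.w1]
      · have := h.mid i (by omega) (by omega); omega
    · intro i h1 h2 h3
      rw [h.w0]
      have := h.mid i (by omega) (by omega); omega
    · exact ⟨1, by omega, by omega, by omega, by rw [h.w0, h.w1]⟩
    · exact ⟨0, le_rfl, by omega, by omega, le_rfl⟩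
  exact Comp.step hp (fun _ => s2) (fun _ => s2)

/-- two letters `2` of different classes give two such letters with no letter `2` in between -/
theorem sw_exists {W : List ℕ} {n : ℕ} (h : SwShape W n)
    (hA : ∃ i, 2 ≤ i ∧ i + 2 ≤ n ∧ i % 2 = 0 ∧ W.getD i 0 = 2)
    (hB : ∃ i, 2 ≤ i ∧ i + 2 ≤ n ∧ i % 2 = 1 ∧ W.getD i 0 = 2) :
    ∃ a b, 2 ≤ a ∧ a < b ∧ b + 2 ≤ n ∧ (b - a) % 2 = 1 ∧ W.getD a 0 = 2 ∧ W.getD b 0 = 2 ∧
      ∀ i, a < i → i < b → W.getD i 0 ≤ 1 := by
  obtain ⟨x, x1, x2, x3, x4⟩ := hA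
  obtain ⟨y, y1, y2, y3, y4⟩ := hB
  -- induction on the distance of two letters `2` of different classes
  have key : ∀ d a b, b - a ≤ d → 2 ≤ a → a < b → b + 2 ≤ n → (b - a) % 2 = 1 →
      W.getD a 0 = 2 → W.getD b 0 = 2 →
      ∃ a b, 2 ≤ a ∧ a < b ∧ b + 2 ≤ n ∧ (b - a) % 2 = 1 ∧ W.getD a 0 = 2 ∧ W.getD b 0 = 2 ∧
        ∀ i, a < i → i < b → W.getD i 0 ≤ 1 := by
    intro d
    induction d with
    | zero => intro a b h1 _ h3; omega
    | succ d ih =>
      intro a b h1 h2 h3 h4 h5 h6 h7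
      by_cases hc : ∃ i, a < i ∧ i < b ∧ W.getD i 0 = 2
      · obtain ⟨i, i1, i2, i3⟩ := hc
        rcases Nat.mod_two_eq_zero_or_one (i - a) with hx | hx
        · exact ih i b (by omega) (by omega) i2 h4 (by omega) i3 h7
        · exact ih a i (by omega) h2 i1 (by omega) hx h6 i3
      · refine ⟨a, b, h2, h3, h4, h5, h6, h7, ?_⟩
        intro i i1 i2
        have hm := h.mid i (by omega) (by omega)
        by_contra hcon
        exact hc ⟨i, i1, i2, by omega⟩
  rcases Nat.lt_or_gt_of_ne (show x ≠ y by omega) with hxy | hxy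
  · exact key (y - x) x y le_rfl x1 hxy y2 (by omega) x4 y4
  · exact key (x - y) y x le_rfl y1 hxy x2 (by omega) y4 x4

/-- first letter `≥ 1`, last letter `≥ 1`, a letter `2` in both classes -/
theorem sw_R11 {W : List ℕ} {n : ℕ} (h : SwShape W n) (hp : 1 ≤ W.getD 2 0)
    (hq : 1 ≤ W.getD (n - 2) 0)
    (hA : ∃ i, 2 ≤ i ∧ i + 2 ≤ n ∧ i % 2 = 0 ∧ W.getD i 0 = 2)
    (hB : ∃ i, 2 ≤ i ∧ i + 2 ≤ n ∧ i % 2 = 1 ∧ W.getD i 0 = 2) : Comp W 5 0 0 0 := by
  obtain ⟨a, b, h1, h2, h3, h4, h5, h6, h7⟩ := sw_exists h hA hB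
  exact sw_easy h h1 h2 h3 h4 h5 h6 (fun i i1 i2 _ => (h7 i i1 i2).trans hq)
    (fun i i1 i2 _ => (h7 i i1 i2).trans hp)

end Pool.Agent.H.MP_2e666d_lc
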