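import Pool.Agent.H.MP_2e666d_lc.HWP
import Pool.Agent.H.MP_2e666d_lc.CoverCat

/-! # Two-sided certificates: instances of concatenated and of reversed lists of cells -/

namespace Pool.Agent.H.MP_2e666d_lc.TS

open Pool.Agent.H.MP_2e666d_lc Pool.Agent.H.MP_2e666d_lc.T3

theorem inst_split {cs1 : List Cell} : ∀ {q : Bool} {cs2 : List Cell} {W : List ℕ},
    Inst q (cs1 ++ cs2) W → ∃ W1 W2, W = W1 ++ W2 ∧ Inst q cs1 W1 ∧
      Inst (q ^^ treesplit3_od W1) cs2 W2 := by
  induction cs1 with
  | nil =>
    intro q cs2 W h
    exact ⟨[], W, rfl, Inst.nil q, by simpa [treesplit3_od] using h⟩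
  | cons c cs1 ih =>
    intro q cs2 W h
    cases c with
    | L v =>
      rw [List.cons_append] at h
      cases h with
      | letter _ _ _ W h =>
        obtain ⟨W1, W2, rfl, h1, h2⟩ := ih h
        refine ⟨v :: W1, W2, rfl, Inst.letter _ _ _ _ h1, ?_⟩
        have e : (q ^^ treesplit3_od (v :: W1)) = ((!q) ^^ treesplit3_od W1) := by
          rw [treesplit3_od]
          cases q <;> cases treesplit3_od W1 <;> rfl
        rw [e]
        exact h2
    | S o i j =>
      rw [List.cons_append] at h
      cases h with
      | stretch _ _ _ _ _ T W hT h0 h1 h2 =>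
        obtain ⟨W1, W2, rfl, h3, h4⟩ := ih h2
        refine ⟨T ++ W1, W2, by rw [List.append_assoc], Inst.stretch _ _ _ _ _ _ _ hT h0 h1 h3, ?_⟩
        have e : (q ^^ treesplit3_od (T ++ W1)) = ((q ^^ o) ^^ treesplit3_od W1) := by
          rw [treesplit3_od_append, treesplit3_od_of hT]
          cases q <;> cases o <;> cases treesplit3_od W1 <;> rfl
        rw [e]
        exact h4

theorem od_reverse (W : List ℕ) : treesplit3_od W.reverse = treesplit3_od W := by
  induction W with
  | nil => rfl
  | cons x W ih =>
    rw [List.reverse_cons, treesplit3_od_append, ih, treesplit3_od, treesplit3_od, treesplit3_od]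
    cases treesplit3_od W <;> rfl

theorem inst_rev {q : Bool} {cs : List Cell} {W : List ℕ} (h : Inst q cs W) :
    Inst (!(q ^^ treesplit3_od W)) cs.reverse W.reverse := by
  induction h with
  | nil q => exact Inst.nil _
  | letter q v cs W h ih =>
    rw [List.reverse_cons, List.reverse_cons]
    have e : (!(q ^^ treesplit3_od (v :: W))) = (!((!q) ^^ treesplit3_od W)) := by
      rw [treesplit3_od]
      cases q <;> cases treesplit3_od W <;> rfl
    rw [e]
    exact treesplit3_append ih (Inst.letter _ v [] [] (Inst.nil _))
  | stretch q o i j cs T W hT h0 h1 h2 ih =>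
    rw [List.reverse_cons, List.reverse_append]
    have hoT := treesplit3_od_of hT
    have e : (!(q ^^ treesplit3_od (T ++ W))) = (!((q ^^ o) ^^ treesplit3_od W)) := by
      rw [treesplit3_od_append, hoT]
      cases q <;> cases o <;> cases treesplit3_od W <;> rfl
    rw [e]
    refine treesplit3_append ih ?_
    have e2 : ((!((q ^^ o) ^^ treesplit3_od W)) ^^ treesplit3_od W.reverse) = (!(q ^^ o)) := by
      rw [od_reverse]
      cases q <;> cases o <;> cases treesplit3_od W <;> rfl
    rw [e2]
    have hlen : T.reverse.length % 2 = (if o then 1 else 0) := by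
      rw [List.length_reverse]
      exact hT
    have key := Inst.stretch (!(q ^^ o)) o i j [] T.reverse [] hlen ?_ ?_ (Inst.nil _)
    · simpa using key
    · intro k hk hk2
      rw [List.length_reverse] at hk
      have e3 : T.reverse.getD k 0 = T.getD (T.length - 1 - k) 0 := by
        rw [List.getD_eq_getElem?_getD, List.getD_eq_getElem?_getD, List.getElem?_reverse hk]
      rw [e3]
      cases o with
      | true =>
        have h3 := h0 (T.length - 1 - k) (by omega) (by
          have : T.length % 2 = 1 := hT
          omega)
        cases q <;> simpa using h3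
      | false =>
        have h3 := h1 (T.length - 1 - k) (by omega) (by
          have : T.length % 2 = 0 := hT
          omega)
        cases q <;> simpa using h3
    · intro k hk hk2
      rw [List.length_reverse] at hk
      have e3 : T.reverse.getD k 0 = T.getD (T.length - 1 - k) 0 := by
        rw [List.getD_eq_getElem?_getD, List.getD_eq_getElem?_getD, List.getElem?_reverse hk]
      rw [e3]
      cases o with
      | true =>
        have h3 := h1 (T.length - 1 - k) (by omega) (by
          have : T.length % 2 = 1 := hT
          omega)
        cases q <;> simpa using h3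
      | false =>
        have h3 := h0 (T.length - 1 - k) (by omega) (by
          have : T.length % 2 = 0 := hT
          omega)
        cases q <;> simpa using h3

end Pool.Agent.H.MP_2e666d_lc.TS
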