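import Pool.Agent.H.MP_2e666d_lc.TSA

/-! # Two-sided certificates: sets of slots read backwards -/

namespace Pool.Agent.H.MP_2e666d_lc.TS

open Pool.Agent.H.MP_2e666d_lc Pool.Agent.H.MP_2e666d_lc.T3 Pool.Agent.H.MP_2e666d_lc.HS

/-- the rest can be performed from all slots of the set `T`, if the next letter has the number
`m` -/
def Bk (D : List ℕ) (its : List It) (m T : ℕ) : Prop :=
  ∀ y, T.testBit y = true → Sem D (its.drop (y / 8)) (y % 8) m

theorem bk_step {D : List ℕ} {its : List It} {Ms : List (List (ℕ × ℕ))} {m l T T' : ℕ}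
    (hM : chkMs its 0 Ms = true) (hm : m < D.length) (hl : D.getD m 0 = l)
    (h : Bk D its (m + 1) T)
    (hT : ∀ y, T'.testBit y = true → ∃ p ∈ nthM Ms l, ∃ z, z + 8 = y + p.1 ∧
      T.testBit z = true ∧ p.2.testBit y = true) : Bk D its m T' := by
  intro y hy
  obtain ⟨p, hp, z, hz, hTz, hMy⟩ := hT y hy
  have hc := hs3_chkMs Ms 0 l hM p hp
  rw [Nat.zero_add] at hc
  obtain ⟨a, r, e1, e2, e3⟩ := hs3_chkM its p.2 y hc hMy
  obtain ⟨t1, t2⟩ := tr_sound (Nat.mod_lt y (by norm_num)) hl hm e3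
  have hdrop : its.drop (y / 8 + 1) = r := by
    rw [← List.drop_drop, e1]
    rfl
  have hz2 := h z hTz
  rw [e1]
  rcases Nat.lt_or_ge (y % 8 + p.1 - 8) 8 with ht | ht
  · have hz3 : z / 8 = y / 8 := by omega
    have hz4 : z % 8 = y % 8 + p.1 - 8 := by omega
    rw [hz3, hz4, e1] at hz2
    exact t1 ht hz2
  · obtain ⟨t3, t4, t5⟩ := t2 ht
    have hz3 : z / 8 = y / 8 + 1 := by omega
    have hz4 : z % 8 = y % 8 + p.1 - 8 - 8 := by omega
    rw [hz3, hz4, hdrop] at hz2
    exact t5 hz2

theorem bk_sub {D : List ℕ} {its : List It} {m T T' : ℕ} (h : Bk D its m T)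
    (hs : ∀ y, T'.testBit y = true → T.testBit y = true) : Bk D its m T' :=
  fun y hy => h y (hs y hy)

theorem bk_lor {D : List ℕ} {its : List It} {m T T' : ℕ} (h : Bk D its m T)
    (h' : Bk D its m T') : Bk D its m (Nat.lor T T') := by
  intro y hy
  have hy' : (T ||| T').testBit y = true := hy
  rw [Nat.testBit_or, Bool.or_eq_true] at hy'
  exact hy'.elim (h y) (h' y)

/-- the masks for reading backwards; the shifts are increased by 10 -/
noncomputable def dualF (ms : List (ℕ × ℕ)) : List (ℕ × ℕ) :=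
  List.rec (motive := fun _ => List (ℕ × ℕ)) []
    (fun p _ ih => (Nat.sub 18 p.1, Nat.shiftRight (Nat.shiftLeft p.2 p.1) 8) :: ih) ms

/-- reading the letter `a` backwards with the masks number `c` -/
noncomputable def stB (Ms : List (List (ℕ × ℕ))) (KS : List (List ℕ)) (a c S : ℕ) : ℕ :=
  HW.FB.rec (motive := fun _ => ℕ) (fun f => Nat.shiftRight (f S) 10)
    (HW.mkFB (dualF (HW.flt (HW.nthKF KS c) (nthMF Ms a))))

/-- reading the letter `a` backwards with all masks -/
noncomputable def stB0 (Ms : List (List (ℕ × ℕ))) (a S : ℕ) : ℕ :=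
  HW.FB.rec (motive := fun _ => ℕ) (fun f => Nat.shiftRight (f S) 10)
    (HW.mkFB (dualF (nthMF Ms a)))

theorem dualF_bit {S y : ℕ} : ∀ {ms : List (ℕ × ℕ)}, (∀ p ∈ ms, p.1 ≤ 18) →
    ((stepF0 S (dualF ms)) >>> 10).testBit y = true →
    ∃ p ∈ ms, ∃ z, z + 8 = y + p.1 ∧ S.testBit z = true ∧ p.2.testBit y = true := by
  intro ms
  induction ms with
  | nil =>
    intro _ h
    have h0 : stepF0 S (dualF []) = 0 := rfl
    rw [h0, Nat.zero_shiftRight] at h
    simp at h
  | cons p ms ih =>
    intro hk h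
    have h1 : stepF0 S (dualF (p :: ms)) =
      ((S &&& ((p.2 <<< p.1) >>> 8)) <<< (18 - p.1)) ||| stepF0 S (dualF ms) := rfl
    rw [h1, Nat.shiftRight_or_distrib, Nat.testBit_or, Bool.or_eq_true] at h
    rcases h with h | h
    · have hp := hk p List.mem_cons_self
      rw [Nat.testBit_shiftRight, Nat.testBit_shiftLeft, Bool.and_eq_true,
        decide_eq_true_iff, Nat.testBit_and, Bool.and_eq_true, Nat.testBit_shiftRight,
        Nat.testBit_shiftLeft, Bool.and_eq_true, decide_eq_true_iff] at h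
      obtain ⟨h2, h3, h4, h5⟩ := h
      refine ⟨p, List.mem_cons_self, 10 + y - (18 - p.1), by omega, h3, ?_⟩
      have e : 8 + (10 + y - (18 - p.1)) - p.1 = y := by omega
      rw [e] at h5
      exact h5
    · obtain ⟨p', h2, h3⟩ := ih (fun q hq => hk q (List.mem_cons_of_mem _ hq)) h
      exact ⟨p', List.mem_cons_of_mem _ h2, h3⟩

theorem stB_bit {Ms : List (List (ℕ × ℕ))} {KS : List (List ℕ)} {a c S y : ℕ}
    (hk : ∀ p ∈ nthM Ms a, p.1 ≤ 18) (h : (stB Ms KS a c S).testBit y = true) :
    ∃ p ∈ nthM Ms a, ∃ z, z + 8 = y + p.1 ∧ S.testBit z = true ∧ p.2.testBit y = true := by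
  unfold stB at h
  rw [HW.mkFB_eq] at h
  have hk' : ∀ p ∈ HW.flt (HW.nthKF KS c) (nthMF Ms a), p.1 ≤ 18 := by
    intro p hp
    have := HW.flt_mem hp
    rw [nthMF_eq] at this
    exact hk p this
  obtain ⟨p, hp, h1⟩ := dualF_bit hk' h
  have hp' := HW.flt_mem hp
  rw [nthMF_eq] at hp'
  exact ⟨p, hp', h1⟩

theorem stB0_bit {Ms : List (List (ℕ × ℕ))} {a S y : ℕ}
    (hk : ∀ p ∈ nthM Ms a, p.1 ≤ 18) (h : (stB0 Ms a S).testBit y = true) :
    ∃ p ∈ nthM Ms a, ∃ z, z + 8 = y + p.1 ∧ S.testBit z = true ∧ p.2.testBit y = true := by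
  unfold stB0 at h
  rw [HW.mkFB_eq] at h
  have hk' : ∀ p ∈ nthMF Ms a, p.1 ≤ 18 := by
    intro p hp
    rw [nthMF_eq] at hp
    exact hk p hp
  obtain ⟨p, hp, h1⟩ := dualF_bit hk' h
  rw [nthMF_eq] at hp
  exact ⟨p, hp, h1⟩

/-- slots from which nothing has to be read -/
noncomputable def chkEn (its : List It) : ℕ → Bool :=
  List.rec (motive := fun _ => ℕ → Bool) (fun M => Nat.beq M 0)
    (fun a _ ih M => HS.andB (HW.orB (Nat.beq (Nat.mod M 256) 0)
      (It.rec (motive := fun _ => Bool) (fun _ => false)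
      (fun _ _ _ _ _ _ => false) (fun _ => false) (fun _ _ _ => false)
      (fun _ => Nat.beq (Nat.mod M 256) 2) (fun _ => Nat.beq (Nat.mod M 256) 2)
      (Nat.beq (Nat.mod M 256) 1) (Nat.beq (Nat.mod M 256) 1) a)) (ih (Nat.div M 256))) its

theorem chkEn_sem {D : List ℕ} : ∀ (its : List It) (M y : ℕ), chkEn its M = true →
    M.testBit y = true → Sem D (its.drop (y / 8)) (y % 8) D.length := by
  intro its
  induction its with
  | nil =>
    intro M y h hy
    have h' : Nat.beq M 0 = true := h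
    rw [Nat.eq_of_beq_eq_true h'] at hy
    simp at hy
  | cons a r ih =>
    intro M y h hy
    obtain ⟨h1, h2⟩ := andB_eq (a := HW.orB (Nat.beq (Nat.mod M 256) 0)
      (It.rec (motive := fun _ => Bool) (fun _ => false)
      (fun _ _ _ _ _ _ => false) (fun _ => false) (fun _ _ _ => false)
      (fun _ => Nat.beq (Nat.mod M 256) 2) (fun _ => Nat.beq (Nat.mod M 256) 2)
      (Nat.beq (Nat.mod M 256) 1) (Nat.beq (Nat.mod M 256) 1) a)) (b := chkEn r (Nat.div M 256)) h
    rw [HW.orB_or, Bool.or_eq_true] at h1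
    by_cases hz8 : y < 8
    · have hb : (M % 256).testBit y = true := by
        rw [show (256 : ℕ) = 2 ^ 8 from rfl, Nat.testBit_mod_two_pow, hy]
        simp [hz8]
      have hne : Nat.beq (M % 256) 0 ≠ true := by
        intro h3
        rw [Nat.eq_of_beq_eq_true h3] at hb
        simp at hb
      have h3 := h1.resolve_left hne
      rw [show y / 8 = 0 by omega, List.drop_zero]
      cases a with
      | H m => exact absurd (show false = true from h3) (by decide)
      | A o bw bu rw ru m => exact absurd (show false = true from h3) (by decide)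
      | W k => exact absurd (show false = true from h3) (by decide)
      | Z k d m => exact absurd (show false = true from h3) (by decide)
      | F k =>
        rw [show M % 256 = 2 from Nat.eq_of_beq_eq_true h3] at hb
        rw [bit_two hb]
        exact Or.inl (by norm_num)
      | X k =>
        rw [show M % 256 = 2 from Nat.eq_of_beq_eq_true h3] at hb
        rw [bit_two hb]
        exact Or.inl (by norm_num)
      | T => exact trivial
      | E =>
        rw [show M % 256 = 1 from Nat.eq_of_beq_eq_true h3] at hb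
        rw [bit_one hb]
        exact ⟨rfl, rfl⟩
    · have hb : (M / 256).testBit (y - 8) = true := by
        rw [show (256 : ℕ) = 2 ^ 8 from rfl, Nat.testBit_div_two_pow,
          show y - 8 + 8 = y by omega]
        exact hy
      have h3 := ih (M / 256) (y - 8) h2 hb
      rw [show (y - 8) % 8 = y % 8 by omega] at h3
      rw [show y / 8 = (y - 8) / 8 + 1 by omega, List.drop_succ_cons]
      exact h3

end Pool.Agent.H.MP_2e666d_lc.TS
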