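import Pool.Agent.H.MP_2e666d_lc.TSB

/-! # Two-sided certificates: check of the nodes with an arbitrary step function

Version of `HWM` in which the step function (letter, number of the masks, set of slots) and the
invariant of the sets of slots are arbitrary. -/

namespace Pool.Agent.H.MP_2e666d_lc.TS

open Pool.Agent.H.MP_2e666d_lc Pool.Agent.H.MP_2e666d_lc.T3 Pool.Agent.H.MP_2e666d_lc.HS

/-- one transition; `v` = stored node, `65535` = inlined node, `65534` = inlined node with more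
resolved types -/
noncomputable def edgeG (stp : ℕ → ℕ → ℕ → ℕ) (RT : List (ℕ × ℕ × ℕ))
    (Bs : List ℕ) (B : HW.HT) (ih : ℕ → ℕ → ℕ → ℕ → (ℕ → Bool) → Bool)
    (ihl : ℕ → (ℕ → Bool) → Bool) (S r a s C : ℕ) (k : ℕ → Bool) (c v : ℕ) : Bool :=
  Bool.rec (motive := fun _ => Bool)
    (Bool.rec (motive := fun _ => Bool) false (ihl (Nat.shiftRight C 20) k)
      (HW.frc (fun N' => HW.tgtM RT B (stp a c S) r s N') (B.get v)))
    (ih (Nat.lor (stp a c S) (nthNF Bs s))
      (Bool.rec (motive := fun _ => ℕ) (Nat.lor r (newR (stp a c S) RT)) r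
        (Nat.beq v 65535)) s (Nat.shiftRight C 20) (fun C' => ihl C' k))
    (Nat.ble 65534 v)

noncomputable def edgesG (stp : ℕ → ℕ → ℕ → ℕ)
    (RT : List (ℕ × ℕ × ℕ)) (Bs : List ℕ) (B : HW.HT) (ih : ℕ → ℕ → ℕ → ℕ → (ℕ → Bool) → Bool)
    (S r : ℕ) (l : List (ℕ × ℕ)) : ℕ → (ℕ → Bool) → Bool :=
  List.rec (motive := fun _ => ℕ → (ℕ → Bool) → Bool) (fun C k => k C)
    (fun p _ ihl C k => HW.frc (fun c => HW.frc (fun v =>
      edgeG stp RT Bs B ih ihl S r p.1 p.2 C k c v)
      (Nat.mod (Nat.shiftRight C 4) 65536)) (Nat.mod C 16)) l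

/-- the check of a node; arguments: fuel, slots, resolved types, state, stream, continuation -/
noncomputable def nodeG (stp : ℕ → ℕ → ℕ → ℕ)
    (RT : List (ℕ × ℕ × ℕ)) (Bs : List ℕ) (tab : List RSt) (fin : ℕ → ℕ → ℕ → Bool) (B : HW.HT)
    (f : ℕ) : ℕ → ℕ → ℕ → ℕ → (ℕ → Bool) → Bool :=
  Nat.rec (motive := fun _ => ℕ → ℕ → ℕ → ℕ → (ℕ → Bool) → Bool) (fun _ _ _ _ _ => false)
    (fun _ ih S r q C k => Bool.rec (motive := fun _ => Bool)
      (edgesG stp RT Bs B ih S r (nthRF tab q).2.2 C k)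
      (Bool.rec (motive := fun _ => Bool) false
        (edgesG stp RT Bs B ih S r (nthRF tab q).2.2 (Nat.shiftRight C 40) k)
        (fin S r (Nat.mod C 1099511627776)))
      (cvNull (nthRF tab q).2.1)) f

/-- the check of a stored node -/
noncomputable def storG (stp : ℕ → ℕ → ℕ → ℕ)
    (RT : List (ℕ × ℕ × ℕ)) (Bs : List ℕ) (tab : List RSt) (fin : ℕ → ℕ → ℕ → Bool) (B : HW.HT)
    (f N C : ℕ) (k : ℕ → Bool) : Bool :=
  HW.frc (fun q => nodeG stp RT Bs tab fin B f (Nat.lor (HW.decM B N) (nthNF Bs q))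
    (HW.resM N) q C k) (Nat.mod N 256)

noncomputable def chkTG (stp : ℕ → ℕ → ℕ → ℕ)
    (RT : List (ℕ × ℕ × ℕ)) (Bs : List ℕ) (tab : List RSt) (fin : ℕ → ℕ → ℕ → Bool) (B : HW.HT)
    (f : ℕ) (B0 : HW.HT) : Bool :=
  HW.HT.rec (motive := fun _ => Bool) (fun _ => false)
    (fun _ _ ia ib => Bool.rec (motive := fun _ => Bool) false ib ia)
    (fun C a _ => HW.walkM (storG stp RT Bs tab fin B f) a C (fun _ => true)) B0

/-- the base slots are closed under the transitions; `q` = number of the state -/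
noncomputable def chkBsG (st0 : ℕ → ℕ → ℕ) (Bs : List ℕ) (tab : List RSt) : ℕ → Bool :=
  List.rec (motive := fun _ => ℕ → Bool) (fun _ => true)
    (fun s _ ih q => Bool.rec (motive := fun _ => Bool) false (ih (Nat.succ q))
      (s.2.2.all fun p => subK (nthNF Bs p.2) (st0 p.1 (nthNF Bs q)))) tab

/-! ### logical forms -/

theorem chkBsG_imp {st0 : ℕ → ℕ → ℕ} {Bs : List ℕ} {tab : List RSt} {q n : ℕ}
    (h : chkBsG st0 Bs tab q = true) (hn : n < tab.length) {p : ℕ × ℕ}
    (hp : p ∈ (nthR tab n).2.2) :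
    subK (nthNF Bs p.2) (st0 p.1 (nthNF Bs (q + n))) = true := by
  induction tab generalizing q n with
  | nil => simp at hn
  | cons s tab ih =>
    obtain ⟨h1, h2⟩ := rec_true (a := s.2.2.all fun p => subK (nthNF Bs p.2)
      (st0 p.1 (nthNF Bs q))) (b := chkBsG st0 Bs tab (q + 1)) h
    cases n with
    | zero =>
      have h3 := (List.all_eq_true.1 h1) p hp
      exact h3
    | succ n =>
      have h3 := ih h2 (by simpa using hn) hp
      rw [show q + (n + 1) = q + 1 + n by omega]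
      exact h3

/-- a transition is all right -/
def EdgeG (stp : ℕ → ℕ → ℕ → ℕ) (RT : List (ℕ × ℕ × ℕ))
    (Bs : List ℕ) (B : HW.HT) (ih : ℕ → ℕ → ℕ → ℕ → (ℕ → Bool) → Bool) (S r a s : ℕ) : Prop :=
  ∃ c, (∃ v, HW.tgtM RT B (stp a c S) r s (B.get v) = true) ∨
      ∃ r' C k, ih (Nat.lor (stp a c S) (nthNF Bs s)) r' s C k = true ∧
        (r' = r ∨ r' = Nat.lor r (newR (stp a c S) RT))

theorem edgeG_imp {stp : ℕ → ℕ → ℕ → ℕ} {RT : List (ℕ × ℕ × ℕ)}
    {Bs : List ℕ} {B : HW.HT} {ih : ℕ → ℕ → ℕ → ℕ → (ℕ → Bool) → Bool}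
    {ihl : ℕ → (ℕ → Bool) → Bool} {S r a s C : ℕ} {k : ℕ → Bool} {c v : ℕ} (hk : HW.KC ih)
    (h : edgeG stp RT Bs B ih ihl S r a s C k c v = true) :
    (∃ C', ihl C' k = true) ∧ EdgeG stp RT Bs B ih S r a s := by
  unfold edgeG at h
  cases h1 : Nat.ble 65534 v with
  | false =>
    rw [h1] at h
    obtain ⟨h2, h3⟩ := rec_true h
    exact ⟨⟨_, h3⟩, c, Or.inl ⟨v, h2⟩⟩
  | true =>
    rw [h1] at h
    have h2 : ih (Nat.lor (stp a c S) (nthNF Bs s))
      (Bool.rec (motive := fun _ => ℕ) (Nat.lor r (newR (stp a c S) RT)) r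
        (Nat.beq v 65535)) s (Nat.shiftRight C 20) (fun C' => ihl C' k) = true := h
    refine ⟨hk _ _ _ _ _ h2, c, Or.inr ⟨_, _, _, h2, ?_⟩⟩
    cases Nat.beq v 65535 with
    | true => exact Or.inl rfl
    | false => exact Or.inr rfl

theorem edgesG_imp {stp : ℕ → ℕ → ℕ → ℕ} {RT : List (ℕ × ℕ × ℕ)}
    {Bs : List ℕ} {B : HW.HT} {ih : ℕ → ℕ → ℕ → ℕ → (ℕ → Bool) → Bool} {S r : ℕ}
    {l : List (ℕ × ℕ)} {C : ℕ} {k : ℕ → Bool} (hk : HW.KC ih)
    (h : edgesG stp RT Bs B ih S r l C k = true) :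
    (∃ C', k C' = true) ∧ ∀ p ∈ l, EdgeG stp RT Bs B ih S r p.1 p.2 := by
  induction l generalizing C k with
  | nil => exact ⟨⟨C, h⟩, by simp⟩
  | cons x l ihl =>
    have h1 : edgeG stp RT Bs B ih (edgesG stp RT Bs B ih S r l) S r x.1 x.2 C k
      (Nat.mod C 16) (Nat.mod (Nat.shiftRight C 4) 65536) = true := h
    obtain ⟨⟨C', h2⟩, h3⟩ := edgeG_imp hk h1
    obtain ⟨h4, h5⟩ := ihl h2
    refine ⟨h4, ?_⟩
    intro p hp
    rcases List.mem_cons.1 hp with rfl | hp
    · exact h3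
    · exact h5 p hp

theorem nodeG_imp {stp : ℕ → ℕ → ℕ → ℕ} {RT : List (ℕ × ℕ × ℕ)}
    {Bs : List ℕ} {tab : List RSt} {fin : ℕ → ℕ → ℕ → Bool} {B : HW.HT} {f S r q C : ℕ}
    {k : ℕ → Bool} (hk : HW.KC (nodeG stp RT Bs tab fin B f))
    (h : nodeG stp RT Bs tab fin B (f + 1) S r q C k = true) :
    (∃ C', k C' = true) ∧ (cvNull (nthR tab q).2.1 = true → ∃ T, fin S r T = true) ∧
      ∀ p ∈ (nthR tab q).2.2, EdgeG stp RT Bs B (nodeG stp RT Bs tab fin B f) S r p.1 p.2 := by
  have h0 : Bool.rec (motive := fun _ => Bool)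
      (edgesG stp RT Bs B (nodeG stp RT Bs tab fin B f) S r (nthRF tab q).2.2 C k)
      (Bool.rec (motive := fun _ => Bool) false
        (edgesG stp RT Bs B (nodeG stp RT Bs tab fin B f) S r (nthRF tab q).2.2
          (Nat.shiftRight C 40) k)
        (fin S r (Nat.mod C 1099511627776)))
      (cvNull (nthRF tab q).2.1) = true := h
  rw [nthRF_eq] at h0
  cases h1 : cvNull (nthR tab q).2.1 with
  | false =>
    rw [h1] at h0
    obtain ⟨h2, h3⟩ := edgesG_imp hk h0
    exact ⟨h2, fun h4 => absurd h4 (by decide), h3⟩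
  | true =>
    rw [h1] at h0
    obtain ⟨h2, h3⟩ := rec_true h0
    obtain ⟨h4, h5⟩ := edgesG_imp hk h3
    exact ⟨h4, fun _ => ⟨_, h2⟩, h5⟩

theorem nodeG_kc {stp : ℕ → ℕ → ℕ → ℕ} {RT : List (ℕ × ℕ × ℕ)}
    {Bs : List ℕ} {tab : List RSt} {fin : ℕ → ℕ → ℕ → Bool} {B : HW.HT} (f : ℕ) :
    HW.KC (nodeG stp RT Bs tab fin B f) := by
  induction f with
  | zero => intro S r q C k h; exact absurd (show false = true from h) (by decide)
  | succ f ih => intro S r q C k h; exact (nodeG_imp ih h).1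

theorem chkTG_node {stp : ℕ → ℕ → ℕ → ℕ} {RT : List (ℕ × ℕ × ℕ)}
    {Bs : List ℕ} {tab : List RSt} {fin : ℕ → ℕ → ℕ → Bool} {B a b : HW.HT} {f : ℕ}
    (ha : chkTG stp RT Bs tab fin B f a = true) (hb : chkTG stp RT Bs tab fin B f b = true) :
    chkTG stp RT Bs tab fin B f (HW.HT.n a b) = true := by
  show Bool.rec (motive := fun _ => Bool) false (chkTG stp RT Bs tab fin B f b)
    (chkTG stp RT Bs tab fin B f a) = true
  rw [ha]
  exact hb

theorem hcG_get {stp : ℕ → ℕ → ℕ → ℕ} {RT : List (ℕ × ℕ × ℕ)}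
    {Bs : List ℕ} {tab : List RSt} {fin : ℕ → ℕ → ℕ → Bool} {B B0 : HW.HT} {f : ℕ}
    (h : chkTG stp RT Bs tab fin B f B0 = true) (n : ℕ) :
    ∃ C k, nodeG stp RT Bs tab fin B f (Nat.lor (HW.decM B (B0.get n))
      (nthNF Bs (Nat.mod (B0.get n) 256))) (HW.resM (B0.get n)) (Nat.mod (B0.get n) 256) C k
        = true := by
  induction B0 generalizing n with
  | l N => exact absurd (show false = true from h) (by decide)
  | n a b iha ihb =>
    obtain ⟨h1, h2⟩ := rec_true (a := chkTG stp RT Bs tab fin B f a)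
      (b := chkTG stp RT Bs tab fin B f b) h
    rw [HW.get_node]
    cases Nat.beq (Nat.mod n 2) 0 with
    | true => exact iha h1 _
    | false => exact ihb h2 _
  | s C a _ =>
    have h' : HW.walkM (storG stp RT Bs tab fin B f) a C (fun _ => true) = true := h
    have hc : ∀ N C k, storG stp RT Bs tab fin B f N C k = true → ∃ C', k C' = true :=
      fun N C k h => nodeG_kc f _ _ _ _ _ h
    exact (HW.walkM_get hc h').2 n

/-- properties of an invariant `G` of the sets of slots after reading letters of `V0`; `P` are the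
resolved types -/
structure Env (stp : ℕ → ℕ → ℕ → ℕ) (RT : List (ℕ × ℕ × ℕ)) (Bs : List ℕ) (tab : List RSt)
    (G : ℕ → ℕ → Prop) (P : ℕ → Prop) (V0 : List ℕ) : Prop where
  sub : ∀ k S S', G k S → (∀ y, S'.testBit y = true → S.testBit y = true) → G k S'
  lor : ∀ k S S', G k S → G k S' → G k (Nat.lor S S')
  step : ∀ k S c, k < V0.length → G k S → G (k + 1) (stp (V0.getD k 0) c S)
  base : ∀ q p, q < tab.length → p ∈ (nthR tab q).2.2 → ∀ k, k < V0.length →
    V0.getD k 0 = p.1 → G k (nthNF Bs q) → G (k + 1) (nthNF Bs p.2)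
  res : ∀ k S, G k S → ∀ p ∈ RT, subK p.2.2 S = true → P p.1

/-- soundness of a check for the suffixes with less than `n` letters -/
def SndG (G : ℕ → ℕ → Prop) (P : ℕ → Prop) (V0 : List ℕ) (Bs : List ℕ) (tab : List RSt)
    (fin : ℕ → ℕ → ℕ → Bool) (n S r q : ℕ) : Prop :=
  ∀ W V : List ℕ, V.length < n → V0 = W ++ V → q < tab.length →
    Inst (nthR tab q).1 (nthR tab q).2.1 V → G W.length S →
    G W.length (nthNF Bs q) → (∀ k, r.testBit k = true → P k) →
    ∃ S r T, G V0.length S ∧ (∀ k, r.testBit k = true → P k) ∧ fin S r T = true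

theorem sndG_step {stp : ℕ → ℕ → ℕ → ℕ} {RT : List (ℕ × ℕ × ℕ)} {Bs : List ℕ} {tab : List RSt}
    {fin : ℕ → ℕ → ℕ → Bool} {B : HW.HT} {G : ℕ → ℕ → Prop} {P : ℕ → Prop} {V0 : List ℕ}
    (E : Env stp RT Bs tab G P V0) (hR : chkR tab = true) {n : ℕ}
    (hn : ∀ v, SndG G P V0 Bs tab fin n (Nat.lor (HW.decM B (B.get v))
      (nthNF Bs (Nat.mod (B.get v) 256))) (HW.resM (B.get v)) (Nat.mod (B.get v) 256)) (f : ℕ) :
    ∀ S r q C k, nodeG stp RT Bs tab fin B f S r q C k = true →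
      SndG G P V0 Bs tab fin (n + 1) S r q := by
  induction f with
  | zero => intro S r q C k h; exact absurd (show false = true from h) (by decide)
  | succ f ih =>
    intro S r q C k h W V hV hD hq hi hg hb hr
    obtain ⟨-, h2, h3⟩ := nodeG_imp (nodeG_kc f) h
    cases V with
    | nil =>
      obtain ⟨T, h2⟩ := h2 (cover_null hi)
      refine ⟨S, r, T, ?_, hr, h2⟩
      have : V0.length = W.length := by rw [hD]; simp
      rw [this]
      exact hg
    | cons x V =>
      have hs := hs4_nthR hq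
      have hR0 := hR
      rw [chkR, List.all_eq_true] at hR0
      have hs' := hR0 _ hs
      rw [Bool.and_eq_true, decide_eq_true_eq, List.all_eq_true] at hs'
      obtain ⟨h4, h5⟩ := hs'
      obtain ⟨w, hr1, hi'⟩ := cover_tr hi
      rw [h4, List.mem_map] at hr1
      obtain ⟨p, hp, hpr⟩ := hr1
      rw [Prod.mk.injEq] at hpr
      obtain ⟨rfl, rfl⟩ := hpr
      have h6 := h5 p hp
      rw [Bool.and_eq_true, beq_iff_eq] at h6
      have hq' : p.2 < tab.length := by
        have h7 := h6.1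
        rw [Nat.blt_eq] at h7
        exact h7
      have hm : W.length < V0.length := by rw [hD]; simp
      have hl : V0.getD W.length 0 = p.1 := by rw [hD]; simp
      have hWl : (W ++ [p.1]).length = W.length + 1 := by simp
      have hD' : V0 = (W ++ [p.1]) ++ V := by rw [hD]; simp
      have hVn : V.length < n := by
        have : (p.1 :: V).length = V.length + 1 := rfl
        omega
      -- the base slots
      have gb : G (W ++ [p.1]).length (nthNF Bs p.2) := by
        rw [hWl]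
        exact E.base q p hq hp _ hm hl hb
      have gs : ∀ c, G (W ++ [p.1]).length (stp p.1 c S) := by
        intro c
        rw [hWl, ← hl]
        exact E.step _ _ c hm hg
      have hi2 : Inst (nthR tab p.2).1 (nthR tab p.2).2.1 V := by
        rw [h6.2]
        exact hi'
      obtain ⟨c, ⟨v, h7⟩ | ⟨r', C', k', h7, h8⟩⟩ := h3 p hp
      · obtain ⟨h8, h9, h10⟩ := HW.tgtM_imp h7
        have h8' : Nat.mod (B.get v) 256 = p.2 := h8
        refine hn v (W ++ [p.1]) V hVn hD' ?_ ?_ ?_ ?_ ?_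
        · rw [h8']
          exact hq'
        · rw [h8']
          exact hi2
        · refine E.lor _ _ _ (E.sub _ _ _ (gs c) fun y hy => subK_bit h9 hy) ?_
          rw [h8']
          exact gb
        · rw [h8']
          exact gb
        · intro k hk
          rcases h10 with h10 | h10
          · rw [h10] at hk
            simp at hk
          · rcases resK_bit h10 hk with h11 | ⟨q', hq, hqk, hq3⟩
            · exact hr k h11
            · rw [← hqk]
              exact E.res _ _ (gs c) q' hq hq3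
      · refine ih _ _ _ _ _ h7 (W ++ [p.1]) V (Nat.lt_succ_of_lt hVn) hD' hq' hi2
          (E.lor _ _ _ (gs c) gb) gb ?_
        intro k' hk'
        rcases h8 with rfl | rfl
        · exact hr k' hk'
        · have hk2 : (r ||| newR (stp p.1 c S) RT).testBit k' = true := hk'
          rw [Nat.testBit_or, Bool.or_eq_true] at hk2
          rcases hk2 with hk2 | hk2
          · exact hr k' hk2
          · obtain ⟨q', hq, hqk, hq3⟩ := newR_bit hk2
            rw [← hqk]
            exact E.res _ _ (gs c) q' hq hq3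

theorem sndG {stp : ℕ → ℕ → ℕ → ℕ} {RT : List (ℕ × ℕ × ℕ)} {Bs : List ℕ} {tab : List RSt}
    {fin : ℕ → ℕ → ℕ → Bool} {B : HW.HT} {G : ℕ → ℕ → Prop} {P : ℕ → Prop} {V0 : List ℕ}
    {f : ℕ} (E : Env stp RT Bs tab G P V0) (hR : chkR tab = true)
    (hT : chkTG stp RT Bs tab fin B f B = true) (n : ℕ) :
    ∀ v, SndG G P V0 Bs tab fin n (Nat.lor (HW.decM B (B.get v))
      (nthNF Bs (Nat.mod (B.get v) 256))) (HW.resM (B.get v)) (Nat.mod (B.get v) 256) := by
  induction n with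
  | zero =>
    intro v W V hV
    exact absurd hV (Nat.not_lt_zero _)
  | succ n ih =>
    intro v
    obtain ⟨C, k, h⟩ := hcG_get hT v
    exact sndG_step E hR ih f _ _ _ _ _ h

/-- the first node; the final slots `st` -/
noncomputable def chkFG (tab : List RSt) (Bs : List ℕ) (q0 : Bool) (cs : List Cell) (st : ℕ)
    (B : HW.HT) (N : ℕ) : Bool :=
  Nat.beq (Nat.mod N 256) 0 && subK (Nat.lor (HW.decM B N) (nthNF Bs 0)) st &&
    Nat.beq (HW.resM N) 0 && Nat.blt 0 tab.length &&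
    (nthR tab 0).1 == q0 && decide ((nthR tab 0).2.1 = cs)

/-- **Soundness of the check of the nodes** -/
theorem sndG_all {stp : ℕ → ℕ → ℕ → ℕ} {RT : List (ℕ × ℕ × ℕ)} {Bs : List ℕ} {tab : List RSt}
    {fin : ℕ → ℕ → ℕ → Bool} {B : HW.HT} {G : ℕ → ℕ → Prop} {P : ℕ → Prop} {V0 : List ℕ}
    {f st : ℕ} {q0 : Bool} {cs : List Cell} (E : Env stp RT Bs tab G P V0)
    (hR : chkR tab = true) (hT : chkTG stp RT Bs tab fin B f B = true)
    (hF : chkFG tab Bs q0 cs st B (B.get 0) = true) (hst : G 0 st) (hV : Inst q0 cs V0) :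
    ∃ S r T, G V0.length S ∧ (∀ k, r.testBit k = true → P k) ∧ fin S r T = true := by
  unfold chkFG at hF
  rw [Bool.and_eq_true, Bool.and_eq_true, Bool.and_eq_true, Bool.and_eq_true,
    Bool.and_eq_true, decide_eq_true_eq, beq_iff_eq] at hF
  obtain ⟨⟨⟨⟨⟨s1, s2⟩, s5⟩, s6⟩, s3⟩, s4⟩ := hF
  have e1 : Nat.mod (B.get 0) 256 = 0 := Nat.eq_of_beq_eq_true s1
  have e3 : 0 < tab.length := by
    rw [Nat.blt_eq] at s6
    exact s6
  have hg0 : G 0 (Nat.lor (HW.decM B (B.get 0)) (nthNF Bs 0)) :=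
    E.sub _ _ _ hst fun y hy => subK_bit s2 hy
  refine sndG E hR hT (V0.length + 1) 0 [] V0 (Nat.lt_succ_self _) rfl (by rw [e1]; exact e3) (by
      rw [e1, s4, s3]
      exact hV) (by rw [e1]; exact hg0) (by
      rw [e1]
      refine E.sub _ _ _ hg0 fun y hy => ?_
      show (HW.decM B (B.get 0) ||| nthNF Bs 0).testBit y = true
      rw [Nat.testBit_or, hy, Bool.or_true]) (by
      intro k hk
      rw [Nat.eq_of_beq_eq_true s5] at hk
      simp at hk)

end Pool.Agent.H.MP_2e666d_lc.TS
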