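import Pool.Agent.H.MP_2e666d_lc.TSC

/-! # Two-sided certificates: the pairs of classes

The right classes are the numbers `< J`; a leaf of the tree of columns gives a slot and the set of
the right classes which contain it.  A left class is given by resolved types and by a list of
entries: a signature and some slots of each of its tapes (numbers of columns). -/

namespace Pool.Agent.H.MP_2e666d_lc.TS

open Pool.Agent.H.MP_2e666d_lc Pool.Agent.H.MP_2e666d_lc.T3 Pool.Agent.H.MP_2e666d_lc.HS

/-- columns: slot `y`, set `c` of the right classes which contain the slot -/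
inductive CT where
  | l (y c : ℕ)
  | n (a b : CT)

/-- the slot of the column number `n` -/
noncomputable def CT.getY (B : CT) : ℕ → ℕ :=
  CT.rec (motive := fun _ => ℕ → ℕ) (fun y _ _ => y)
    (fun _ _ ia ib n => Bool.rec (motive := fun _ => ℕ) (ib (Nat.div n 2)) (ia (Nat.div n 2))
      (Nat.beq (Nat.mod n 2) 0)) B

/-- the right classes of the column number `n` -/
noncomputable def CT.getC (B : CT) : ℕ → ℕ :=
  CT.rec (motive := fun _ => ℕ → ℕ) (fun _ c _ => c)
    (fun _ _ ia ib n => Bool.rec (motive := fun _ => ℕ) (ib (Nat.div n 2)) (ia (Nat.div n 2))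
      (Nat.beq (Nat.mod n 2) 0)) B

/-- all columns have the property `f` -/
noncomputable def CT.all (f : ℕ → ℕ → Bool) (B : CT) : Bool :=
  CT.rec (motive := fun _ => Bool) (fun y c => f y c)
    (fun _ _ ia ib => Bool.rec (motive := fun _ => Bool) false ib ia) B

theorem CT.all_get {f : ℕ → ℕ → Bool} {B : CT} (h : B.all f = true) (n : ℕ) :
    f (B.getY n) (B.getC n) = true := by
  induction B generalizing n with
  | l y c => exact h
  | n a b iha ihb =>
    obtain ⟨h1, h2⟩ := rec_true (a := a.all f) (b := b.all f) h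
    have e1 : (CT.n a b).getY n = Bool.rec (motive := fun _ => ℕ) (b.getY (Nat.div n 2))
      (a.getY (Nat.div n 2)) (Nat.beq (Nat.mod n 2) 0) := rfl
    have e2 : (CT.n a b).getC n = Bool.rec (motive := fun _ => ℕ) (b.getC (Nat.div n 2))
      (a.getC (Nat.div n 2)) (Nat.beq (Nat.mod n 2) 0) := rfl
    rw [e1, e2]
    cases Nat.beq (Nat.mod n 2) 0 with
    | true => exact iha h1 _
    | false => exact ihb h2 _

/-- a bit of a number -/
noncomputable def bitN (c j : ℕ) : Bool := Nat.beq (Nat.mod (Nat.shiftRight c j) 2) 1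

theorem bitN_eq (c j : ℕ) : bitN c j = c.testBit j := by
  have h1 : bitN c j = Nat.beq ((c >>> j) % 2) 1 := rfl
  rw [h1, Nat.shiftRight_eq_div_pow, Nat.testBit_eq_decide_div_mod_eq]
  cases h : decide (c / 2 ^ j % 2 = 1) with
  | true =>
    rw [decide_eq_true_eq] at h
    rw [h]
    rfl
  | false =>
    rw [decide_eq_false_iff_not] at h
    by_contra hc
    exact h (Nat.eq_of_beq_eq_true (by simpa using hc))

/-- the final condition of the right part: all slots of the right class `T` are in `S` -/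
noncomputable def finZ (C : CT) (J S _r T : ℕ) : Bool :=
  HW.frc (fun j => Bool.rec (motive := fun _ => Bool) false
    (C.all fun y c => Bool.rec (motive := fun _ => Bool) true (bitN S y) (bitN c j))
    (Nat.blt j J)) T

theorem finZ_imp {C : CT} {J S r T : ℕ} (h : finZ C J S r T = true) :
    T < J ∧ ∀ n, (C.getC n).testBit T = true → S.testBit (C.getY n) = true := by
  obtain ⟨h1, h2⟩ := rec_true (a := Nat.blt T J)
    (b := C.all fun y c => Bool.rec (motive := fun _ => Bool) true (bitN S y) (bitN c T)) h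
  refine ⟨?_, ?_⟩
  · have := h1
    rw [Nat.blt_eq] at this
    exact this
  · intro n hn
    have h3 := CT.all_get h2 n
    rw [← bitN_eq] at hn
    have h4 : Bool.rec (motive := fun _ => Bool) true (bitN S (C.getY n))
      (bitN (C.getC n) T) = true := h3
    rw [hn] at h4
    rw [← bitN_eq]
    exact h4

/-- left classes -/
inductive KT where
  | l (r : ℕ) (es : List (ℕ × ℕ))
  | n (a b : KT)

/-- the left class number `n` has the property `f` -/
noncomputable def KT.get (f : ℕ → List (ℕ × ℕ) → Bool) (B : KT) : ℕ → Bool :=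
  KT.rec (motive := fun _ => ℕ → Bool) (fun r es _ => f r es)
    (fun _ _ ia ib n => Bool.rec (motive := fun _ => Bool) (ib (Nat.div n 2)) (ia (Nat.div n 2))
      (Nat.beq (Nat.mod n 2) 0)) B

theorem KT.get_imp {f : ℕ → List (ℕ × ℕ) → Bool} {B : KT} {n : ℕ} (h : B.get f n = true) :
    ∃ r es, f r es = true := by
  induction B generalizing n with
  | l r es => exact ⟨r, es, h⟩
  | n a b iha ihb =>
    have h' : Bool.rec (motive := fun _ => Bool) (b.get f (Nat.div n 2)) (a.get f (Nat.div n 2))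
      (Nat.beq (Nat.mod n 2) 0) = true := h
    cases h1 : Nat.beq (Nat.mod n 2) 0 with
    | true =>
      rw [h1] at h'
      exact iha h'
    | false =>
      rw [h1] at h'
      exact ihb h'

/-- right classes with one of `f` slots -/
noncomputable def orC (C : CT) (f : ℕ) : ℕ → ℕ :=
  Nat.rec (motive := fun _ => ℕ → ℕ) (fun _ => 0)
    (fun _ ih P => Nat.lor (C.getC (Nat.mod P 65536)) (ih (Nat.div P 65536))) f

/-- the slot `y` is in `S`, its item has a number in `[lo, hi)` -/
noncomputable def slK (S lo hi y : ℕ) : Bool :=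
  andB (Nat.ble (Nat.mul 8 lo) y) (andB (Nat.blt y (Nat.mul 8 hi)) (bitN S y))

/-- all `f` slots are in `S` and belong to the items `[lo, hi)` -/
noncomputable def slS (C : CT) (S lo hi f : ℕ) : ℕ → Bool :=
  Nat.rec (motive := fun _ => ℕ → Bool) (fun _ => true)
    (fun _ ih P => Bool.rec (motive := fun _ => Bool) false (ih (Nat.div P 65536))
      (slK S lo hi (C.getY (Nat.mod P 65536)))) f

/-- `lo`, `hi`, the numbers of the slots and the slots of an entry -/
noncomputable def en1 (N : ℕ) : ℕ := Nat.mod N 16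

noncomputable def en2 (N : ℕ) : ℕ := Nat.mod (Nat.shiftRight N 4) 16

noncomputable def en3 (N : ℕ) : ℕ := Nat.mod (Nat.shiftRight N 8) 16

noncomputable def ep1 (N : ℕ) : ℕ := Nat.shiftRight N 12

noncomputable def ep2 (N : ℕ) : ℕ := Nat.shiftRight (ep1 N) (Nat.mul 16 (en1 N))

noncomputable def ep3 (N : ℕ) : ℕ := Nat.shiftRight (ep2 N) (Nat.mul 16 (en2 N))

/-- the right classes for which the entry `N` is good -/
noncomputable def covE (C : CT) (N : ℕ) : ℕ :=
  Nat.land (Nat.land (orC C (en1 N) (ep1 N)) (orC C (en2 N) (ep2 N))) (orC C (en3 N) (ep3 N))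

noncomputable def covL (C : CT) (es : List (ℕ × ℕ)) : ℕ :=
  List.rec (motive := fun _ => ℕ) 0 (fun e _ ih => Nat.lor (covE C e.2) ih) es

/-- the slots of the entry `N` for the signature number `a` -/
noncomputable def slE (ss : List Sig) (os : List ℕ) (C : CT) (S N a : ℕ) : Bool :=
  andB (slS C S (nthNF os a) (Nat.add (nthNF os a) ((nthSF ss a).tapes 5 6).1.length)
    (en1 N) (ep1 N))
  (andB (slS C S (Nat.add (nthNF os a) ((nthSF ss a).tapes 5 6).1.length)
    (Nat.add (Nat.add (nthNF os a) ((nthSF ss a).tapes 5 6).1.length)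
      ((nthSF ss a).tapes 5 6).2.1.length) (en2 N) (ep2 N))
  (slS C S (Nat.add (Nat.add (nthNF os a) ((nthSF ss a).tapes 5 6).1.length)
      ((nthSF ss a).tapes 5 6).2.1.length)
    (Nat.add (Nat.add (Nat.add (nthNF os a) ((nthSF ss a).tapes 5 6).1.length)
      ((nthSF ss a).tapes 5 6).2.1.length) ((nthSF ss a).tapes 5 6).2.2.length)
    (en3 N) (ep3 N)))

noncomputable def entE (ss : List Sig) (os : List ℕ) (m : ℕ) (TL : List (ℕ × ℕ)) (C : CT)
    (S r : ℕ) (e : ℕ × ℕ) : Bool :=
  HW.frc (fun a => andB (finL ss os m TL (accM 5 6 (nthSF ss a) (nthNF os a)) r e.1)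
    (slE ss os C S e.2 a)) (Nat.mod e.1 65536)

noncomputable def allE (f : ℕ × ℕ → Bool) (es : List (ℕ × ℕ)) : Bool :=
  List.rec (motive := fun _ => Bool) true
    (fun e _ ih => Bool.rec (motive := fun _ => Bool) false ih (f e)) es

/-- the final condition of the left part -/
noncomputable def finA (ss : List Sig) (os : List ℕ) (m : ℕ) (TL : List (ℕ × ℕ)) (C : CT)
    (K : KT) (full S r T : ℕ) : Bool :=
  K.get (fun rc es => andB (subK rc r) (andB (Nat.beq (covL C es) full)
    (allE (entE ss os m TL C S rc) es))) T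

/-! ### logical forms -/

theorem allE_imp {f : ℕ × ℕ → Bool} {es : List (ℕ × ℕ)} (h : allE f es = true) {e : ℕ × ℕ}
    (he : e ∈ es) : f e = true := by
  induction es with
  | nil => simp at he
  | cons x es ih =>
    obtain ⟨h1, h2⟩ := rec_true (a := f x) (b := allE f es) h
    rcases List.mem_cons.1 he with rfl | he
    · exact h1
    · exact ih h2 he

theorem covL_imp {C : CT} {es : List (ℕ × ℕ)} {j : ℕ} (h : (covL C es).testBit j = true) :
    ∃ e ∈ es, (covE C e.2).testBit j = true := by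
  induction es with
  | nil => exact absurd (show (0 : ℕ).testBit j = true from h) (by simp)
  | cons x es ih =>
    have h' : ((covE C x.2) ||| (covL C es)).testBit j = true := h
    rw [Nat.testBit_or, Bool.or_eq_true] at h'
    rcases h' with h' | h'
    · exact ⟨x, List.mem_cons_self, h'⟩
    · obtain ⟨e, he, h2⟩ := ih h'
      exact ⟨e, List.mem_cons_of_mem _ he, h2⟩

theorem orC_imp {C : CT} {S lo hi j : ℕ} : ∀ {f P : ℕ}, (orC C f P).testBit j = true →
    slS C S lo hi f P = true → ∃ n, (C.getC n).testBit j = true ∧ 8 * lo ≤ C.getY n ∧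
      C.getY n < 8 * hi ∧ S.testBit (C.getY n) = true := by
  intro f
  induction f with
  | zero =>
    intro P h _
    exact absurd (show (0 : ℕ).testBit j = true from h) (by simp)
  | succ f ih =>
    intro P h hs
    have h' : ((C.getC (Nat.mod P 65536)) ||| (orC C f (Nat.div P 65536))).testBit j = true := h
    obtain ⟨s1, s2⟩ := rec_true (a := slK S lo hi (C.getY (Nat.mod P 65536)))
      (b := slS C S lo hi f (Nat.div P 65536)) hs
    rw [Nat.testBit_or, Bool.or_eq_true] at h'
    rcases h' with h' | h'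
    · obtain ⟨a1, a2⟩ := andB_eq s1
      obtain ⟨a2, a3⟩ := andB_eq a2
      refine ⟨_, h', Nat.le_of_ble_eq_true a1, ?_, ?_⟩
      · have := a2
        rw [Nat.blt_eq] at this
        exact this
      · rw [← bitN_eq]
        exact a3
    · exact ih h' s2

/-! ### matching of a tape -/

theorem tb_tape {its P t R : List It} {n : ℕ} (hits : its = P ++ (t ++ R)) (hP : hs6_pre P)
    (ht : hs6_tape t) (h1 : P.length ≤ n) (h2 : n < P.length + t.length) :
    tb its n = P.length := by
  obtain ⟨t0, a, rfl, -, h4⟩ := ht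
  have h5 : n - P.length ≤ t0.length := by
    rw [List.length_append, List.length_singleton] at h2
    omega
  have := hs6_tb (R := [a] ++ R) hP h4 (n - P.length) h5
  rw [show P.length + (n - P.length) = n by omega] at this
  rw [hits, List.append_assoc]
  exact this

theorem sum_bits {a b c y : ℕ} (hab : a < b) (hbc : b < c)
    (h : (2 ^ a + 2 ^ b + 2 ^ c).testBit y = true) : y = a ∨ y = b ∨ y = c := by
  have hlt1 : 2 ^ a < 2 ^ b := Nat.pow_lt_pow_right (by norm_num) hab
  have hlt3 : 2 ^ a + 2 ^ b < 2 ^ c := by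
    have : 2 ^ (b + 1) ≤ 2 ^ c := Nat.pow_le_pow_right (by norm_num) hbc
    rw [pow_succ] at this
    omega
  have e1 : 2 ^ a + 2 ^ b = 2 ^ b ||| 2 ^ a := by
    have := Nat.two_pow_add_eq_or_of_lt hlt1 1
    rw [Nat.mul_one] at this
    rw [← this, Nat.add_comm]
  have e2 : 2 ^ a + 2 ^ b + 2 ^ c = 2 ^ c ||| (2 ^ b ||| 2 ^ a) := by
    have := Nat.two_pow_add_eq_or_of_lt hlt3 1
    rw [Nat.mul_one, e1] at this
    rw [← this, e1, Nat.add_comm]
  rw [e2, Nat.testBit_or, Nat.testBit_or, Nat.testBit_two_pow, Nat.testBit_two_pow,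
    Nat.testBit_two_pow, Bool.or_eq_true, Bool.or_eq_true, decide_eq_true_eq, decide_eq_true_eq,
    decide_eq_true_eq] at h
  rcases h with h | h | h
  · exact Or.inr (Or.inr h.symm)
  · exact Or.inr (Or.inl h.symm)
  · exact Or.inl h.symm

theorem find_off {l1 l2 : ℕ} : ∀ (ss : List Sig) (P : List It) (i : ℕ), hs6_pre P →
    i < ss.length → ∃ P' R, P ++ items l1 l2 ss = P' ++ (((nthSF ss i).tapes l1 l2).1 ++
      (((nthSF ss i).tapes l1 l2).2.1 ++ (((nthSF ss i).tapes l1 l2).2.2 ++ R))) ∧ hs6_pre P' ∧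
      P'.length = nthNF (offs l1 l2 P.length ss) i := by
  intro ss
  induction ss with
  | nil =>
    intro P i _ h
    simp at h
  | cons s' ss ih =>
    intro P i hP h
    cases i with
    | zero => exact ⟨P, items l1 l2 ss, rfl, hP, rfl⟩
    | succ i =>
      set T1 := (s'.tapes l1 l2).1 with hT1
      set T2 := (s'.tapes l1 l2).2.1 with hT2
      set T3' := (s'.tapes l1 l2).2.2 with hT3
      obtain ⟨P', R, e1, e2, e3⟩ := ih (P ++ T1 ++ T2 ++ T3') i
        (hs6_pre_app (hs6_tapes l1 l2 s').2.2) (by simpa using h)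
      refine ⟨P', R, ?_, e2, ?_⟩
      · have e4 : nthSF (s' :: ss) (i + 1) = nthSF ss i := rfl
        rw [e4, ← e1]
        show P ++ (T1 ++ (T2 ++ (T3' ++ items l1 l2 ss))) = _
        simp only [List.append_assoc]
      · rw [e3, List.length_append, List.length_append, List.length_append]
        rfl

theorem good_match {D : List ℕ} {ss : List Sig} {a m j S T : ℕ} {C : CT} {N : ℕ}
    (ha : a < ss.length) (hg : Good D (items 5 6 ss) m S) (hb : Bk D (items 5 6 ss) m T)
    (hC : ∀ n, (C.getC n).testBit j = true → T.testBit (C.getY n) = true)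
    (hs : slE ss (offs 5 6 0 ss) C S N a = true) (hcov : (covE C N).testBit j = true) :
    Good D (items 5 6 ss) D.length (accM 5 6 (nthSF ss a) (nthNF (offs 5 6 0 ss) a)) := by
  obtain ⟨P, R, e1, e2, e3⟩ := find_off (l1 := 5) (l2 := 6) ss [] a (Or.inl rfl) ha
  rw [List.nil_append] at e1
  have e3' : P.length = nthNF (offs 5 6 0 ss) a := e3
  obtain ⟨t1, t2, t3⟩ := hs6_tapes 5 6 (nthSF ss a)
  unfold slE at hs
  rw [← e3'] at hs ⊢
  unfold accM
  set T1 := ((nthSF ss a).tapes 5 6).1 with hT1
  set T2 := ((nthSF ss a).tapes 5 6).2.1 with hT2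
  set T3' := ((nthSF ss a).tapes 5 6).2.2 with hT3
  obtain ⟨s1, s2⟩ := andB_eq hs
  obtain ⟨s2, s3⟩ := andB_eq s2
  have hcov' : (((orC C (en1 N) (ep1 N)) &&& (orC C (en2 N) (ep2 N))) &&&
    (orC C (en3 N) (ep3 N))).testBit j = true := hcov
  rw [Nat.testBit_and, Nat.testBit_and, Bool.and_eq_true, Bool.and_eq_true] at hcov'
  obtain ⟨⟨c1, c2⟩, c3⟩ := hcov'
  have key : ∀ (Q t R' : List It) (f P' : ℕ), items 5 6 ss = Q ++ (t ++ R') → hs6_pre Q →
      hs6_tape t → slS C S Q.length (Q.length + t.length) f P' = true →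
      (orC C f P').testBit j = true → Sem D ((items 5 6 ss).drop Q.length) 0 0 := by
    intro Q t R' f P' h1 h2 h3 h4 h5
    obtain ⟨n, k1, k2, k3, k4⟩ := orC_imp h5 h4
    have k5 := hb _ (hC n k1)
    have k6 := hg _ k4 k5
    rw [tb_tape h1 h2 h3 (by omega) (by omega)] at k6
    exact k6
  have q1 := key P T1 _ _ _ e1 e2 t1 s1 c1
  have e4 : items 5 6 ss = (P ++ T1) ++ (T2 ++ (T3' ++ R)) := by
    rw [e1, List.append_assoc]
  have e5 : items 5 6 ss = (P ++ T1 ++ T2) ++ (T3' ++ R) := by
    rw [e1, List.append_assoc, List.append_assoc]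
  have q2 := key (P ++ T1) T2 _ _ _ e4 (hs6_pre_app t1) t2
    (by rw [List.length_append]; exact s2) c2
  have q3 := key (P ++ T1 ++ T2) T3' _ _ _ e5 (hs6_pre_app t2) t3
    (by rw [List.length_append, List.length_append]; exact s3) c3
  have l1' : 0 < T1.length := by
    obtain ⟨t0, a, h1, -⟩ := t1
    rw [h1]
    simp
  have l2' : 0 < T2.length := by
    obtain ⟨t0, a, h1, -⟩ := t2
    rw [h1]
    simp
  have l3' : 0 < T3'.length := by
    obtain ⟨t0, a, h1, -⟩ := t3
    rw [h1]
    simp
  have a1 := hs6_acc_lt (T1.getLastD It.E)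
  have a2 := hs6_acc_lt (T2.getLastD It.E)
  have a3 := hs6_acc_lt (T3'.getLastD It.E)
  intro y hy _
  unfold accBit at hy
  rcases sum_bits (by omega) (by omega) hy with rfl | rfl | rfl
  · rw [tb_tape e1 e2 t1 (by omega) (by omega)]
    exact q1
  · rw [tb_tape e4 (hs6_pre_app t1) t2 (by rw [List.length_append]; omega)
      (by rw [List.length_append]; omega)]
    exact q2
  · rw [tb_tape e5 (hs6_pre_app t2) t3 (by rw [List.length_append, List.length_append]; omega)
      (by rw [List.length_append, List.length_append]; omega)]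
    exact q3

/-! ### the theorem -/

theorem ms_le {Ts : List TyQ} {a : ℕ} : ∀ p ∈ nthM (HW.mkMs Ts) a, p.1 ≤ 18 := by
  have key : ∀ l, ∀ p ∈ HW.mkMl Ts l, p.1 ≤ 18 := by
    intro l p hp
    unfold HW.mkMl at hp
    simp only [List.mem_cons, List.not_mem_nil, or_false] at hp
    rcases hp with rfl | rfl | rfl | rfl | rfl | rfl | rfl | rfl | rfl | rfl | rfl <;> norm_num
  have gen : ∀ (Ms : List (List (ℕ × ℕ))), (∀ ms ∈ Ms, ∃ l, ms = HW.mkMl Ts l) → ∀ a,
      ∀ p ∈ nthM Ms a, p.1 ≤ 18 := by
    intro Ms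
    induction Ms with
    | nil =>
      intro _ a p hp
      simp [nthM] at hp
    | cons ms Ms ih =>
      intro hM a p hp
      cases a with
      | zero =>
        obtain ⟨l, rfl⟩ := hM ms List.mem_cons_self
        exact key l p hp
      | succ a => exact ih (fun ms hms => hM ms (List.mem_cons_of_mem _ hms)) a p hp
  refine gen _ ?_ a
  intro ms hms
  unfold HW.mkMs at hms
  simp only [List.mem_cons, List.not_mem_nil, or_false] at hms
  rcases hms with h | h | h | h | h | h | h | h | h | h | h | h | h <;> exact ⟨_, h⟩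

/-- everything except for the nodes -/
noncomputable def chkPre2 (ss : List Sig) (os : List ℕ) (m st en N8 : ℕ) (Ts : List TyQ)
    (root csL csR : List Cell) (tabL tabR : List RSt) (BsL BsR : List ℕ) (TL : List (ℕ × ℕ))
    (U : ℕ) (RT : List (ℕ × ℕ × ℕ)) (BL BR : HW.HT) (J full : ℕ) : Bool :=
  andB (ss.all fun s => s.ok && s.marks)
    (andB (HW.passM Ts N8 (items 5 6 ss) (HW.tyN (fun t => Nat.mod t 256) Ts 0)
        (HW.tyN (fun t => Nat.div t 256) Ts 0) 0)
    (andB (disjF (onesF N8) (HW.mapQ Ts) 0)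
    (andB (chkOffs 5 6 ss os 0)
    (andB (HW.staF (items 5 6 ss) true st)
    (andB (chkEn (items 5 6 ss) en)
    (andB (Nat.beq ss.length m)
    (andB (HW.finF (items 5 6 ss) U)
    (andB (chkRT ss os m U TL RT)
    (andB (chkR tabL)
    (andB (chkR tabR)
    (andB (chkBs (HW.mkMs Ts) BsL tabL 0)
    (andB (chkBsG (stB0 (HW.mkMs Ts)) BsR tabR 0)
    (andB (decide (csL ++ csR = root))
    (andB (chkRoot 5 6 root)
    (andB (Nat.beq (Nat.add full 1) (Nat.pow 2 J))
    (andB (chkFG tabL BsL false csL st BL (BL.get 0))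
    (chkFG tabR BsR (!parAt false root.length root) csR.reverse en BR
      (BR.get 0))))))))))))))))))

/-- **Soundness of a two-sided certificate** -/
theorem ts_leaf {ss : List Sig} {os : List ℕ} {m st en N8 : ℕ} {Ts : List TyQ}
    {root csL csR : List Cell} {tabL tabR : List RSt} {BsL BsR : List ℕ} {TL : List (ℕ × ℕ)}
    {U : ℕ} {RT : List (ℕ × ℕ × ℕ)} {BL BR : HW.HT} {J full : ℕ} {KSL KSR : List (List ℕ)}
    {fL fR : ℕ} {C : CT} {K : KT}
    (h : chkPre2 ss os m st en N8 Ts root csL csR tabL tabR BsL BsR TL U RT BL BR J full = true)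
    (hL : chkTG (HW.stM (HW.mkMs Ts) KSL) RT BsL tabL (finA ss os m TL C K full) BL fL BL = true)
    (hR : chkTG (stB (HW.mkMs Ts) KSR) [] BsR tabR (finZ C J) BR fR BR = true) :
    ∀ D, Inst false root D → Comp (D.map vl) 40 0 0 0 := by
  obtain ⟨h1, h⟩ := andB_eq h
  obtain ⟨h2, h⟩ := andB_eq h
  obtain ⟨h3, h⟩ := andB_eq h
  obtain ⟨h4, h⟩ := andB_eq h
  obtain ⟨h5, h⟩ := andB_eq h
  obtain ⟨h6, h⟩ := andB_eq h
  obtain ⟨h7, h⟩ := andB_eq h
  obtain ⟨h8, h⟩ := andB_eq h
  obtain ⟨h9, h⟩ := andB_eq h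
  obtain ⟨h10, h⟩ := andB_eq h
  obtain ⟨h11, h⟩ := andB_eq h
  obtain ⟨h12, h⟩ := andB_eq h
  obtain ⟨h13, h⟩ := andB_eq h
  obtain ⟨h14, h⟩ := andB_eq h
  obtain ⟨h15, h⟩ := andB_eq h
  obtain ⟨h16, h⟩ := andB_eq h
  obtain ⟨h17, h18⟩ := andB_eq h
  intro D hD
  rw [decide_eq_true_eq] at h14
  have hm : ss.length = m := Nat.eq_of_beq_eq_true h7
  subst hm
  have hM := HW.ms_fastM h2 h3
  have hD0 := hD
  rw [← h14] at hD
  obtain ⟨DL, DR, hDD, hIL, hIR⟩ := inst_split hD
  have hos := chkOffs_eq h4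
  subst hos
  -- the left part
  have hRT' : ∀ p ∈ RT, subK p.2.2 U = true := by
    intro p hp
    have h4 := h9
    rw [chkRT, List.all_eq_true] at h4
    have h5 := h4 p hp
    rw [Bool.and_eq_true, Bool.and_eq_true, Bool.and_eq_true, Bool.and_eq_true] at h5
    exact h5.1.1.2
  have hU : chkFinM (items 5 6 ss) U = true := by
    rw [← HW.finF_eq]
    exact h8
  have hlt : ∀ k, k < DL.length → k < D.length ∧ D.getD k 0 = DL.getD k 0 := by
    intro k hk
    refine ⟨by rw [hDD, List.length_append]; omega, ?_⟩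
    rw [hDD, List.getD_append _ _ _ _ hk]
  have EL : Env (HW.stM (HW.mkMs Ts) KSL) RT BsL tabL (fun k S => Good D (items 5 6 ss) k S)
      (RI D (items 5 6 ss) RT) DL := by
    refine ⟨?_, ?_, ?_, ?_, ?_⟩
    · intro k S S' hg hs y hy hsem
      exact hg y (hs y hy) hsem
    · intro k S S' hg hg'
      exact good_lor hg hg'
    · intro k S c hk hg
      obtain ⟨k1, k2⟩ := hlt k hk
      exact HW.good_bit (good_step hM k1 k2 hg) fun y hy => HW.stM_bit hy
    · intro q p hq hp k hk hkl hg
      obtain ⟨k1, k2⟩ := hlt k hk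
      have h7 := chkBs_imp h12 hq hp
      rw [Nat.zero_add] at h7
      exact good_subK (good_step hM k1 (k2.trans hkl) hg) h7
    · intro k S hg p hp hs
      exact ⟨p, hp, rfl, fun m' => good_fin hU (hRT' p hp) (good_subK hg hs) m'⟩
  obtain ⟨S, r, i, hgS, hr, hfA⟩ := sndG_all EL h10 hL h17
    (good_start (by rw [← HW.staF_eq]; exact h5)) hIL
  -- the right part
  have hpar : (!((false ^^ treesplit3_od DL) ^^ treesplit3_od DR)) =
      (!parAt false root.length root) := by
    rw [Pool.Agent.H.MP_2e666d_lc.T3.Cov.inst_par hD0, hDD]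
    show _ = (!(false ^^ treesplit3_od (DL ++ DR)))
    rw [treesplit3_od_append]
    cases treesplit3_od DL <;> cases treesplit3_od DR <;> rfl
  have hIR' : Inst (!parAt false root.length root) csR.reverse DR.reverse := by
    rw [← hpar]
    exact inst_rev hIR
  have hlr : ∀ k, k < DR.reverse.length → D.length - (k + 1) < D.length ∧
      D.getD (D.length - (k + 1)) 0 = DR.reverse.getD k 0 ∧
      D.length - (k + 1) + 1 = D.length - k := by
    intro k hk
    rw [List.length_reverse] at hk
    have hl : D.length = DL.length + DR.length := by rw [hDD, List.length_append]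
    refine ⟨by omega, ?_, by omega⟩
    rw [List.getD_eq_getElem?_getD, List.getD_eq_getElem?_getD, List.getElem?_reverse hk, hl, hDD,
      List.getElem?_append_right (by omega)]
    congr 2
    omega
  have hk18 : ∀ a, ∀ p ∈ nthM (HW.mkMs Ts) a, p.1 ≤ 18 := fun a => ms_le
  have ER : Env (stB (HW.mkMs Ts) KSR) [] BsR tabR
      (fun k S => Bk D (items 5 6 ss) (D.length - k) S) (fun _ => True) DR.reverse := by
    refine ⟨?_, ?_, ?_, ?_, ?_⟩
    · intro k S S' hg hs
      exact bk_sub hg hs
    · intro k S S' hg hg'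
      exact bk_lor hg hg'
    · intro k S c hk hg
      obtain ⟨k1, k2, k3⟩ := hlr k hk
      refine bk_step hM k1 k2 (by rw [k3]; exact hg) ?_
      intro y hy
      exact stB_bit (hk18 _) hy
    · intro q p hq hp k hk hkl hg
      obtain ⟨k1, k2, k3⟩ := hlr k hk
      have h7 := chkBsG_imp h13 hq hp
      rw [Nat.zero_add] at h7
      refine bk_step hM k1 (k2.trans hkl) (by rw [k3]; exact hg) ?_
      intro y hy
      exact stB0_bit (hk18 _) (subK_bit h7 hy)
    · intro k S _ p _ _
      trivial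
  obtain ⟨T, r', j, hgT, -, hfZ⟩ := sndG_all ER h11 hR h18
    (fun y hy => by
      rw [Nat.sub_zero]
      exact chkEn_sem _ _ _ h6 hy) hIR'
  have hgT' : Bk D (items 5 6 ss) DL.length T := by
    have e : D.length - DR.reverse.length = DL.length := by
      rw [List.length_reverse, hDD, List.length_append]
      omega
    rw [← e]
    exact hgT
  obtain ⟨hjJ, hjC⟩ := finZ_imp hfZ
  -- the pair
  unfold finA at hfA
  obtain ⟨rc, es, hfA⟩ := KT.get_imp hfA
  obtain ⟨f1, f2⟩ := andB_eq hfA
  obtain ⟨f2, f3⟩ := andB_eq f2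
  have hfull : full = 2 ^ J - 1 := by
    have : full + 1 = 2 ^ J := Nat.eq_of_beq_eq_true h16
    omega
  have hcov : (covL C es).testBit j = true := by
    rw [Nat.eq_of_beq_eq_true f2, hfull, Nat.testBit_two_pow_sub_one]
    simpa using hjJ
  obtain ⟨e, he, hce⟩ := covL_imp hcov
  have h19 := allE_imp f3 he
  obtain ⟨g1, g2⟩ := andB_eq (a := finL ss (offs 5 6 0 ss) ss.length TL
    (accM 5 6 (nthSF ss (Nat.mod e.1 65536)) (nthNF (offs 5 6 0 ss) (Nat.mod e.1 65536))) rc e.1)
    (b := slE ss (offs 5 6 0 ss) C S e.2 (Nat.mod e.1 65536)) h19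
  have hidx : Nat.mod e.1 65536 < ss.length := by
    unfold finL at g1
    generalize hk : Nat.div e.1 4294967296 = q at g1
    cases q with
    | zero =>
      have g1' : finG ss (offs 5 6 0 ss) ss.length (accM 5 6 (nthSF ss (Nat.mod e.1 65536))
        (nthNF (offs 5 6 0 ss) (Nat.mod e.1 65536))) e.1 = true := g1
      unfold finG at g1'
      obtain ⟨g3, -⟩ := rec_true g1'
      rw [Nat.blt_eq] at g3
      exact g3
    | succ k =>
      have g1' := g1
      rw [Bool.and_eq_true, Bool.and_eq_true] at g1'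
      have g3 := g1'.1.2
      rw [Nat.blt_eq] at g3
      exact g3
  have hacc := good_match hidx hgS hgT' hjC g2 hce
  obtain ⟨S', T', hg', hf'⟩ := finL_imp h4 h9 hacc
    (fun k hk => hr k (subK_bit f1 hk)) g1
  exact fin_sound h1 h15 hD0 hg' hf'

end Pool.Agent.H.MP_2e666d_lc.TS
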