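import Pool.Agent.H.MP_2e666d_lc.Chain

/-! # Refinement trees: definitions

An abstract word is a list of cells: `L v` is the letter `v`; `S i j` is an arbitrary word of even
length whose letters at even positions (of the whole word) are `≤ i` and whose letters at odd
positions are `≤ j`.  A tree of exhaustive case distinctions whose leaves carry chains of phases
proves that every instance of an abstract word has a chain. -/

namespace Pool.Agent.H.MP_2e666d_lc

/-- a cell of an abstract word -/
inductive Cell where
  | L (v : ℕ)
  | S (i j : ℕ)

/-- `Inst q cs W`: the word `W`, starting at a position of parity `q` (`false` = even), is an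
instance of the list of cells `cs` -/
inductive Inst : Bool → List Cell → List ℕ → Prop where
  | nil (q : Bool) : Inst q [] []
  | letter (q : Bool) (v : ℕ) (cs : List Cell) (W : List ℕ) :
      Inst (!q) cs W → Inst q (Cell.L v :: cs) (v :: W)
  | stretch (q : Bool) (i j : ℕ) (cs : List Cell) (T W : List ℕ) :
      T.length % 2 = 0 →
      (∀ k < T.length, k % 2 = 0 → T.getD k 0 ≤ if q then j else i) →
      (∀ k < T.length, k % 2 = 1 → T.getD k 0 ≤ if q then i else j) →
      Inst q cs W → Inst q (Cell.S i j :: cs) (T ++ W)

/-- the cell `S` with bounds `b0` for the letters of the parity `q` (the first letter) and `b1` for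
the others -/
def mkS (q : Bool) (b0 b1 : ℕ) : Cell := if q then Cell.S b1 b0 else Cell.S b0 b1

/-- all pairs of letters `x ≤ m`, `y ≤ n` -/
def pairs (m n : ℕ) : List (ℕ × ℕ) :=
  (List.range (m + 1)).flatMap (fun x => (List.range (n + 1)).map (fun y => (x, y)))

/-- the replacements of a cell with bounds `b0`, `b1` in a case distinction of type `ty`:
0/1: first/last two letters; 2/3: first/last maximal letter of the first parity;
4/5: the same for the second parity; 6/7: first/last maximal letter of both parities -/
def repl (q : Bool) (b0 b1 : ℕ) : ℕ → Option (List (List Cell))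
  | 0 => some ([] :: (pairs b0 b1).map fun xy => [Cell.L xy.1, Cell.L xy.2, mkS q b0 b1])
  | 1 => some ([] :: (pairs b0 b1).map fun xy => [mkS q b0 b1, Cell.L xy.1, Cell.L xy.2])
  | 2 => if b0 = 0 then none else
      some ([mkS q (b0 - 1) b1] :: (List.range (b1 + 1)).map fun y =>
        [mkS q (b0 - 1) b1, Cell.L b0, Cell.L y, mkS q b0 b1])
  | 3 => if b0 = 0 then none else
      some ([mkS q (b0 - 1) b1] :: (List.range (b1 + 1)).map fun y =>
        [mkS q b0 b1, Cell.L b0, Cell.L y, mkS q (b0 - 1) b1])
  | 4 => if b1 = 0 then none else
      some ([mkS q b0 (b1 - 1)] :: (List.range (b0 + 1)).map fun x =>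
        [mkS q b0 (b1 - 1), Cell.L x, Cell.L b1, mkS q b0 b1])
  | 5 => if b1 = 0 then none else
      some ([mkS q b0 (b1 - 1)] :: (List.range (b0 + 1)).map fun x =>
        [mkS q b0 b1, Cell.L x, Cell.L b1, mkS q b0 (b1 - 1)])
  | 6 => if b0 = 0 ∨ b0 ≠ b1 then none else
      some ([mkS q (b0 - 1) (b0 - 1)] ::
        (((List.range (b0 + 1)).map fun y =>
          [mkS q (b0 - 1) (b0 - 1), Cell.L b0, Cell.L y, mkS q b0 b0]) ++
        (List.range b0).map fun x =>
          [mkS q (b0 - 1) (b0 - 1), Cell.L x, Cell.L b0, mkS q b0 b0]))
  | 7 => if b0 = 0 ∨ b0 ≠ b1 then none else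
      some ([mkS q (b0 - 1) (b0 - 1)] ::
        (((List.range (b0 + 1)).map fun x =>
          [mkS q b0 b0, Cell.L x, Cell.L b0, mkS q (b0 - 1) (b0 - 1)]) ++
        (List.range b0).map fun y =>
          [mkS q b0 b0, Cell.L b0, Cell.L y, mkS q (b0 - 1) (b0 - 1)]))
  | _ => none

/-- the children of an abstract word in the case distinction of type `ty` of the cell number `p` -/
def children (ty : ℕ) : Bool → ℕ → List Cell → Option (List (List Cell))
  | _, _, [] => none
  | q, 0, Cell.S i j :: cs =>
      (repl q (if q then j else i) (if q then i else j) ty).map fun l => l.map (· ++ cs)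
  | _, 0, Cell.L _ :: _ => none
  | q, p + 1, Cell.L v :: cs => (children ty (!q) p cs).map fun l => l.map (Cell.L v :: ·)
  | q, p + 1, Cell.S i j :: cs => (children ty q p cs).map fun l => l.map (Cell.S i j :: ·)

/-- the letter of the cell number `p` -/
def letterAt : ℕ → List Cell → Option ℕ
  | _, [] => none
  | 0, Cell.L v :: _ => some v
  | 0, Cell.S _ _ :: _ => none
  | p + 1, _ :: cs => letterAt p cs

/-- reads the active piece of a phase: `cs` are the cells from the current one, `q` the parity of
the position, `k` the number of cells before the last letter, `odd` whether the next letter has an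
odd number in the piece, `h`, `g` the bounds, `aw`, `au` whether the bounds have been attained by a
simple letter; returns the last letter, whether its number is odd, and `aw`, `au` -/
def readPiece (h g : ℕ) : List Cell → Bool → ℕ → Bool → Bool → Bool →
    Option (ℕ × Bool × Bool × Bool)
  | [], _, _, _, _, _ => none
  | Cell.L v :: _, _, 0, odd, aw, au => some (v, odd, aw, au)
  | Cell.S _ _ :: _, _, 0, _, _, _ => none
  | Cell.L v :: cs, q, k + 1, odd, aw, au =>
      if odd then
        if v ≤ h then readPiece h g cs (!q) k false (aw || v == h) au else none
      else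
        if v ≤ g then readPiece h g cs (!q) k true aw (au || v == g) else none
  | Cell.S i j :: cs, q, k + 1, odd, aw, au =>
      if (if q == odd then j else i) ≤ h ∧ (if q == odd then i else j) ≤ g then
        readPiece h g cs q k odd aw au
      else none

/-- parity of the position of the cell number `p` -/
def parAt : Bool → ℕ → List Cell → Bool
  | q, 0, _ => q
  | q, _, [] => q
  | q, p + 1, Cell.L _ :: cs => parAt (!q) p cs
  | q, p + 1, Cell.S _ _ :: cs => parAt q p cs

/-- Abstract chains.  `c0 c1 c2` are the numbers of cells already read on the tapes (the block of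
the last cell read is open), `u v w` the roles, `sat` the flag.  `es` are the numbers of the cells
with the last letters of the phases (on their active tapes). -/
def absCh (cs : List Cell) (n : ℕ) : List ℕ → (Fin 3 → ℕ) → Fin 3 → Fin 3 → Fin 3 → Bool → Bool
  | [], c, _, _, _, sat => c 0 == n && c 1 == n && c 2 == n && sat
  | e :: es, c, u, v, w, sat =>
      match letterAt (c u.rev) cs with
      | none => false
      | some h =>
        match (if c w.rev = 0 then none else letterAt (c w.rev - 1) cs) with
        | none => false
        | some g =>
          if e < c v.rev then false else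
          match readPiece h g (cs.drop (c v.rev)) (parAt false (c v.rev) cs) (e - c v.rev) true
              false false with
          | none => false
          | some (a, odd, aw, au) =>
            (aw || (odd && decide (h ≤ a))) && (sat || au || (!odd && decide (g ≤ a))) &&
            absCh cs n es
              (fun t => if t = v.rev then e + 1 else if t = u.rev then c t + 1 else c t)
              (if odd then w else u) (if odd then u else w) v
              (decide (a ≤ if odd then h else g))

/-- refinement trees (`cons`/`nil`: lists of trees) -/
inductive Tree where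
  | leaf (es : List ℕ)
  | node (p ty : ℕ) (ch : Tree)
  | nil
  | cons (t rest : Tree)

/-- the checker: the tree is checked for a list of abstract words (which is a singleton for
`leaf` and `node`) -/
def chk (K : ℕ) : Tree → List (List Cell) → Bool
  | Tree.leaf es, [cs] =>
      decide (es.length ≤ K) &&
        absCh cs cs.length es (fun t => if t = 2 then 0 else 1) 0 2 1 true
  | Tree.node p ty ch, [cs] =>
      match children ty false p cs with
      | none => false
      | some l => chk K ch l
  | Tree.nil, [] => true
  | Tree.cons t rest, cs :: l => chk K t [cs] && chk K rest l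
  | _, _ => false

end Pool.Agent.H.MP_2e666d_lc
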