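import Pool.Agent.H.MP_2e666d_lc.Chain

/-! # Refinement trees, second version: definitions

Cells of even or odd length, splits at the first/last change of the class of the letters `≥ l`.
`Inst`, `children`, `absCh`, `chk` as in `TreeDef` (namespace `T3`). -/

namespace Pool.Agent.H.MP_2e666d_lc.T3

open Pool.Agent.H.MP_2e666d_lc

/-- a cell of an abstract word: `L v` is the letter `v`; `S o i j` is an arbitrary word whose length
is odd iff `o`, with letters `≤ i` at even positions (of the whole word) and `≤ j` at odd
positions -/
inductive Cell where
  | L (v : ℕ)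
  | S (o : Bool) (i j : ℕ)
  deriving DecidableEq

/-- `Inst q cs W`: the word `W`, starting at a position of parity `q` (`false` = even), is an
instance of the list of cells `cs` -/
inductive Inst : Bool → List Cell → List ℕ → Prop where
  | nil (q : Bool) : Inst q [] []
  | letter (q : Bool) (v : ℕ) (cs : List Cell) (W : List ℕ) :
      Inst (!q) cs W → Inst q (Cell.L v :: cs) (v :: W)
  | stretch (q o : Bool) (i j : ℕ) (cs : List Cell) (T W : List ℕ) :
      T.length % 2 = (if o then 1 else 0) →
      (∀ k < T.length, k % 2 = 0 → T.getD k 0 ≤ if q then j else i) →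
      (∀ k < T.length, k % 2 = 1 → T.getD k 0 ≤ if q then i else j) →
      Inst (q ^^ o) cs W → Inst q (Cell.S o i j :: cs) (T ++ W)

/-- the cell `S` with bounds `b0` for the letters of the parity `q` and `b1` for the others -/
def mkS (q o : Bool) (b0 b1 : ℕ) : Cell := if q then Cell.S o b1 b0 else Cell.S o b0 b1

/-- all pairs of letters `l ≤ x ≤ m`, `l ≤ y ≤ n` -/
def pairs (l m n : ℕ) : List (ℕ × ℕ) :=
  (List.range (m + 1 - l)).flatMap fun x => (List.range (n + 1 - l)).map fun y => (l + x, l + y)

/-- The replacements of a cell with bounds `b0` (parity `q`), `b1` and length parity `o` in a case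
distinction of type `ty`.
`0`/`1`: first/last letter; `2`/`3`: first/last maximal letter of the first parity; `4`/`5`: the
same for the second parity; `6`/`7`: first/last maximal letter of both parities (equal bounds);
`8 + 4 (l-1) + k`, `l = 1, 2`: with `l <= b0, b1`; a letter is big if it is `≥ l`.
`k = 0`/`1`: first/last place where a big letter of the first parity is followed (as next big
letter) by a big letter of the second parity; `k = 2`/`3`: second parity followed by first parity.
Without such a place the big letters of one parity precede those of the other one. -/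
def repl (q o : Bool) (b0 b1 : ℕ) (ty : ℕ) : Option (List (List Cell)) :=
  match ty with
  | 0 => some ((if o then [] else [[]]) ++ (List.range (b0 + 1)).map fun x =>
      [Cell.L x, mkS q (!o) b0 b1])
  | 1 => some ((if o then [] else [[]]) ++ (List.range ((if o then b0 else b1) + 1)).map fun x =>
      [mkS q (!o) b0 b1, Cell.L x])
  | 2 => if b0 = 0 then none else some
      [[mkS q o (b0 - 1) b1], [mkS q false (b0 - 1) b1, Cell.L b0, mkS q (!o) b0 b1]]
  | 3 => if b0 = 0 then none else some
      [[mkS q o (b0 - 1) b1], [mkS q false b0 b1, Cell.L b0, mkS q (!o) (b0 - 1) b1]]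
  | 4 => if b1 = 0 then none else some
      [[mkS q o b0 (b1 - 1)], [mkS q true b0 (b1 - 1), Cell.L b1, mkS q o b0 b1]]
  | 5 => if b1 = 0 then none else some
      [[mkS q o b0 (b1 - 1)], [mkS q true b0 b1, Cell.L b1, mkS q o b0 (b1 - 1)]]
  | 6 => if b0 = 0 ∨ b0 ≠ b1 then none else some
      [[mkS q o (b0 - 1) (b0 - 1)],
       [mkS q false (b0 - 1) (b0 - 1), Cell.L b0, mkS q (!o) b0 b0],
       [mkS q true (b0 - 1) (b0 - 1), Cell.L b0, mkS q o b0 b0]]
  | 7 => if b0 = 0 ∨ b0 ≠ b1 then none else some
      [[mkS q o (b0 - 1) (b0 - 1)],
       [mkS q false b0 b0, Cell.L b0, mkS q (!o) (b0 - 1) (b0 - 1)],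
       [mkS q true b0 b0, Cell.L b0, mkS q o (b0 - 1) (b0 - 1)]]
  | ty + 8 =>
      let l := ty / 4 + 1
      if b0 < l ∨ b1 < l ∨ 8 ≤ ty then none else
      match ty % 4 with
      | 0 => some ([mkS q false (l - 1) b1, mkS q o b0 (l - 1)] ::
          (pairs l b0 b1).map fun xy =>
            [mkS q false (l - 1) b1, mkS q false b0 (l - 1), Cell.L xy.1,
              mkS q false (l - 1) (l - 1), Cell.L xy.2, mkS q o b0 b1])
      | 1 => some ([mkS q false (l - 1) b1, mkS q o b0 (l - 1)] ::
          (pairs l b0 b1).map fun xy =>
            [mkS q false b0 b1, Cell.L xy.1, mkS q false (l - 1) (l - 1), Cell.L xy.2,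
              mkS q false (l - 1) b1, mkS q o b0 (l - 1)])
      | 2 => some ((if o then [[mkS q true b0 (l - 1), mkS q false (l - 1) b1]] else
            [[], [mkS q true b0 (l - 1), mkS q true (l - 1) b1]]) ++
          (pairs l b1 b0).map fun yx =>
            [mkS q true b0 (l - 1), mkS q false (l - 1) b1, Cell.L yx.1,
              mkS q false (l - 1) (l - 1), Cell.L yx.2, mkS q (!o) b0 b1])
      | _ => some ((if o then [[mkS q true b0 (l - 1), mkS q false (l - 1) b1]] else
            [[], [mkS q true b0 (l - 1), mkS q true (l - 1) b1]]) ++
          (pairs l b1 b0).map fun yx =>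
            [mkS q true b0 b1, Cell.L yx.1, mkS q false (l - 1) (l - 1), Cell.L yx.2,
              mkS q false b0 (l - 1), mkS q (!o) (l - 1) b1])

/-- the children of an abstract word in the case distinction of type `ty` of the cell number `p` -/
def children (ty : ℕ) : Bool → ℕ → List Cell → Option (List (List Cell))
  | _, _, [] => none
  | q, 0, Cell.S o i j :: cs =>
      (repl q o (if q then j else i) (if q then i else j) ty).map fun l => l.map (· ++ cs)
  | _, 0, Cell.L _ :: _ => none
  | q, p + 1, Cell.L v :: cs => (children ty (!q) p cs).map fun l => l.map (Cell.L v :: ·)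
  | q, p + 1, Cell.S o i j :: cs =>
      (children ty (q ^^ o) p cs).map fun l => l.map (Cell.S o i j :: ·)

/-- the letter of the cell number `p` -/
def letterAt : ℕ → List Cell → Option ℕ
  | _, [] => none
  | 0, Cell.L v :: _ => some v
  | 0, Cell.S _ _ _ :: _ => none
  | p + 1, _ :: cs => letterAt p cs

/-- reads the active piece of a phase: see `TreeDef` -/
def readPiece (h g : ℕ) : List Cell → Bool → ℕ → Bool → Bool → Bool →
    Option (ℕ × Bool × Bool × Bool)
  | [], _, _, _, _, _ => none
  | Cell.L v :: _, _, 0, odd, aw, au => some (v, odd, aw, au)
  | Cell.S _ _ _ :: _, _, 0, _, _, _ => none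
  | Cell.L v :: cs, q, k + 1, odd, aw, au =>
      if odd then
        if v ≤ h then readPiece h g cs (!q) k false (aw || v == h) au else none
      else
        if v ≤ g then readPiece h g cs (!q) k true aw (au || v == g) else none
  | Cell.S o i j :: cs, q, k + 1, odd, aw, au =>
      if (if q == odd then j else i) ≤ h ∧ (if q == odd then i else j) ≤ g then
        readPiece h g cs (q ^^ o) k (odd ^^ o) aw au
      else none

/-- parity of the position of the cell number `p` -/
def parAt : Bool → ℕ → List Cell → Bool
  | q, 0, _ => q
  | q, _, [] => q
  | q, p + 1, Cell.L _ :: cs => parAt (!q) p cs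
  | q, p + 1, Cell.S o _ _ :: cs => parAt (q ^^ o) p cs

/-- Abstract chains.  `c0 c1 c2` are the numbers of cells already read on the tapes (the block of
the last cell read is open), `u v w` the roles, `sat` the flag.  `es` are the numbers of the cells
with the last letters of the phases (on their active tapes). -/
def absCh (cs : List Cell) (n : ℕ) : List ℕ → (Fin 3 → ℕ) → Fin 3 → Fin 3 → Fin 3 → Bool → Bool
  | [], c, _, _, _, sat => c 0 == n && c 1 == n && c 2 == n && sat
  | e :: es, c, u, v, w, sat =>
      match letterAt (c u.rev) cs with
      | none => false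
      | some h =>
        match (if c w.rev = 0 then none else letterAt (c w.rev - 1) cs) with
        | none => false
        | some g =>
          if e < c v.rev then false else
          match readPiece h g (cs.drop (c v.rev)) (parAt false (c v.rev) cs) (e - c v.rev) true
              false false with
          | none => false
          | some (a, odd, aw, au) =>
            (aw || (odd && decide (h ≤ a))) && (sat || au || (!odd && decide (g ≤ a))) &&
            absCh cs n es
              (fun t => if t = v.rev then e + 1 else if t = u.rev then c t + 1 else c t)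
              (if odd then w else u) (if odd then u else w) v
              (decide (a ≤ if odd then h else g))

/-- refinement trees (`cons`/`nil`: lists of trees) -/
inductive Tree where
  | leaf (es : List ℕ)
  | node (p ty : ℕ) (ch : Tree)
  | nil
  | cons (t rest : Tree)

/-- the checker: the tree is checked for a list of abstract words (which is a singleton for
`leaf` and `node`) -/
def chk (K : ℕ) : Tree → List (List Cell) → Bool
  | Tree.leaf es, [cs] =>
      decide (es.length ≤ K) &&
        absCh cs cs.length es (fun t => if t = 2 then 0 else 1) 0 2 1 true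
  | Tree.node p ty ch, [cs] =>
      match children ty false p cs with
      | none => false
      | some l => chk K ch l
  | Tree.nil, [] => true
  | Tree.cons t rest, cs :: l => chk K t [cs] && chk K rest l
  | _, _ => false

end Pool.Agent.H.MP_2e666d_lc.T3
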