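import Pool.Agent.H.MP_2e666d_lc.TreeSplit
import Pool.Agent.H.MP_2e666d_lc.TreeLeaf

/-! # Refinement trees: soundness of the checker, the finite statement -/

namespace Pool.Agent.H.MP_2e666d_lc

/-- the abstract word starts with two letters -/
def Two (cs : List Cell) : Prop := ∃ a b l, cs = Cell.L a :: Cell.L b :: l

theorem treefs_two {ty : ℕ} {q : Bool} {p : ℕ} {cs : List Cell} {l : List (List Cell)}
    (h : children ty q p cs = some l) (h2 : Two cs) : ∀ cs' ∈ l, Two cs' := by
  obtain ⟨a, b, r, rfl⟩ := h2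
  match p with
  | 0 => simp [children] at h
  | 1 => simp [children] at h
  | p + 2 =>
    rw [children, children, Option.map_eq_some_iff] at h
    obtain ⟨l1, h1, rfl⟩ := h
    rw [Option.map_eq_some_iff] at h1
    obtain ⟨l2, h2, rfl⟩ := h1
    intro cs' hcs'
    rw [List.map_map, List.mem_map] at hcs'
    obtain ⟨c, _, rfl⟩ := hcs'
    exact ⟨a, b, c, rfl⟩

/-- Soundness of the checker.  Induction on the tree; the children of an abstract word starting
with two letters start with two letters (`children` with `p = 0, 1` is `none` for them). -/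
theorem chk_sound {K : ℕ} {t : Tree} {l : List (List Cell)} (h : chk K t l = true)
    (h2 : ∀ cs ∈ l, Two cs) :
    ∀ cs ∈ l, ∀ W, Inst false cs W → ∃ Ns : List ℕ, Ns.length ≤ K ∧ LChain W Ns := by
  induction t generalizing l with
  | leaf es =>
    match l with
    | [] => simp
    | [cs] =>
      simp only [chk, Bool.and_eq_true, decide_eq_true_eq] at h
      intro cs' hcs' W hW
      rw [List.mem_singleton] at hcs'
      subst hcs'
      obtain ⟨Ns, hN, hc⟩ := absCh_sound h.2 (h2 cs' (List.mem_singleton.2 rfl)) hW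
      exact ⟨Ns, by omega, hc⟩
    | _ :: _ :: _ => simp [chk] at h
  | node p ty ch ih =>
    match l with
    | [] => simp
    | [cs] =>
      intro cs' hcs' W hW
      rw [List.mem_singleton] at hcs'
      subst hcs'
      rw [chk] at h
      cases hc : children ty false p cs' with
      | none => rw [hc] at h; simp at h
      | some l' =>
        rw [hc] at h
        have h3 := treefs_two hc (h2 cs' (List.mem_singleton.2 rfl))
        obtain ⟨c, hcl, hcW⟩ := children_sound hc hW
        exact ih h h3 c hcl W hcW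
    | _ :: _ :: _ => simp [chk] at h
  | nil =>
    match l with
    | [] => simp
    | _ :: _ => simp [chk] at h
  | cons t rest iht ihr =>
    match l with
    | [] => simp
    | cs :: l' =>
      rw [chk, Bool.and_eq_true] at h
      intro c hc W hW
      rcases List.mem_cons.1 hc with rfl | hc
      · exact iht h.1 (fun c' hc' => h2 c' (by
          rw [List.mem_singleton] at hc'
          rw [hc']
          exact List.mem_cons_self)) c (List.mem_singleton.2 rfl) W hW
      · exact ihr h.2 (fun c' hc' => h2 c' (List.mem_cons_of_mem _ hc')) c hc W hW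

/-- instances of a stretch with the bounds `2`, `2` -/
theorem treefs_inst {P : List ℕ} (hP : ∀ a ∈ P, a ≤ 2) (he : P.length % 2 = 0) {cs : List Cell}
    {W : List ℕ} (hW : Inst false cs W) :
    Inst false (Cell.L 3 :: Cell.L 3 :: Cell.S 2 2 :: cs) (3 :: 3 :: (P ++ W)) := by
  have hg : ∀ k < P.length, P.getD k 0 ≤ 2 := by
    intro k hk
    rw [List.getD_eq_getElem _ _ hk]
    exact hP _ (List.getElem_mem hk)
  refine Inst.letter _ _ _ _ (Inst.letter _ _ _ _ (Inst.stretch _ _ _ _ _ _ he ?_ ?_ hW))
  · intro k hk _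
    simpa using hg k hk
  · intro k hk _
    simpa using hg k hk

/-- The finite statement from checked trees: `t` proves all the words `33 P 4 4` with `|P|` odd
(`P = P' ++ [x]`, `|P'|` even), for `|P|` even the leaf `[3,4,4]`, for `[3,4,4]` the leaf
`[1,2,2]`, for `[4,4]` the leaf `[1,1]`. -/
theorem FS_of_tree {K : ℕ} (hK : 4 ≤ K) {t : Tree} (h : chk K t
    [[Cell.L 3, Cell.L 3, Cell.S 2 2, Cell.L 0, Cell.L 4, Cell.L 4],
     [Cell.L 3, Cell.L 3, Cell.S 2 2, Cell.L 1, Cell.L 4, Cell.L 4],
     [Cell.L 3, Cell.L 3, Cell.S 2 2, Cell.L 2, Cell.L 4, Cell.L 4]] = true) : FS := by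
  have leaf : ∀ (es : List ℕ) (cs : List Cell) (W : List ℕ), es.length ≤ K → Two cs →
      absCh cs cs.length es (fun t => if t = 2 then 0 else 1) 0 2 1 true = true →
      Inst false cs W → ∃ Ns : List ℕ, Ns.length ≤ K ∧ LChain W Ns := by
    intro es cs W hes h2 habs hW
    obtain ⟨Ns, hN, hc⟩ := absCh_sound habs h2 hW
    exact ⟨Ns, by omega, hc⟩
  refine ⟨K, ?_⟩
  rintro W (rfl | rfl | ⟨P, hP, rfl⟩)
  · refine leaf [1, 1] [Cell.L 4, Cell.L 4] _ (by simp; omega) ⟨_, _, _, rfl⟩ (by decide) ?_
    exact Inst.letter _ _ _ _ (Inst.letter _ _ _ _ (Inst.nil _))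
  · refine leaf [1, 2, 2] [Cell.L 3, Cell.L 4, Cell.L 4] _ (by simp; omega) ⟨_, _, _, rfl⟩
      (by decide) ?_
    exact Inst.letter _ _ _ _ (Inst.letter _ _ _ _ (Inst.letter _ _ _ _ (Inst.nil _)))
  · rcases Nat.mod_two_eq_zero_or_one P.length with he | he
    · refine leaf [3, 4, 4] [Cell.L 3, Cell.L 3, Cell.S 2 2, Cell.L 4, Cell.L 4] _
        (by simp; omega) ⟨_, _, _, rfl⟩ (by decide) ?_
      exact treefs_inst hP he (Inst.letter _ _ _ _ (Inst.letter _ _ _ _ (Inst.nil _)))
    · have hne : P ≠ [] := by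
        rintro rfl
        simp at he
      obtain ⟨P', x, rfl⟩ : ∃ P' x, P = P' ++ [x] :=
        ⟨P.dropLast, P.getLast hne, (List.dropLast_append_getLast hne).symm⟩
      have hx : x ≤ 2 := hP x (by simp)
      have hP' : ∀ a ∈ P', a ≤ 2 := fun a ha => hP a (by simp [ha])
      have he' : P'.length % 2 = 0 := by
        rw [List.length_append, List.length_singleton] at he
        omega
      have key : ∀ cs ∈ [[Cell.L 3, Cell.L 3, Cell.S 2 2, Cell.L 0, Cell.L 4, Cell.L 4],
          [Cell.L 3, Cell.L 3, Cell.S 2 2, Cell.L 1, Cell.L 4, Cell.L 4],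
          [Cell.L 3, Cell.L 3, Cell.S 2 2, Cell.L 2, Cell.L 4, Cell.L 4]],
          ∀ W, Inst false cs W → ∃ Ns : List ℕ, Ns.length ≤ K ∧ LChain W Ns := by
        apply chk_sound h
        intro cs hcs
        rw [List.mem_cons, List.mem_cons, List.mem_singleton] at hcs
        rcases hcs with rfl | rfl | rfl
        · exact ⟨_, _, _, rfl⟩
        · exact ⟨_, _, _, rfl⟩
        · exact ⟨_, _, _, rfl⟩
      have hinst : Inst false [Cell.L 3, Cell.L 3, Cell.S 2 2, Cell.L x, Cell.L 4, Cell.L 4]
          (3 :: 3 :: (P' ++ [x] ++ [4, 4])) := by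
        rw [List.append_assoc]
        exact treefs_inst hP' he' (Inst.letter _ _ _ _ (Inst.letter _ _ _ _
          (Inst.letter _ _ _ _ (Inst.nil _))))
      have hx3 : x = 0 ∨ x = 1 ∨ x = 2 := by omega
      rcases hx3 with rfl | rfl | rfl
      · exact key _ (by simp) _ hinst
      · exact key _ (by simp) _ hinst
      · exact key _ (by simp) _ hinst

end Pool.Agent.H.MP_2e666d_lc
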