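import Pool.Agent.H.MP_2e666d_lc.TreeDef3

/-! # Refinement trees, second version: abstract chains give chains -/

namespace Pool.Agent.H.MP_2e666d_lc.T3

/-- The facts about the positions of the cells of an instance. -/
structure treeleaf3_Pos (q : Bool) (cs : List Cell) (W : List ℕ) (pos : ℕ → ℕ) : Prop where
  z : pos 0 = 0
  e : pos cs.length = W.length
  par : ∀ c, parAt q c cs = xor q (decide (pos c % 2 = 1))
  let1 : ∀ c v, cs[c]? = some (Cell.L v) →
    pos (c + 1) = pos c + 1 ∧ W.getD (pos c) 0 = v ∧ pos c < W.length
  str : ∀ c o i j, cs[c]? = some (Cell.S o i j) →
    pos c ≤ pos (c + 1) ∧ pos (c + 1) % 2 = (pos c + if o then 1 else 0) % 2 ∧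
      ∀ k, pos c ≤ k → k < pos (c + 1) →
        W.getD k 0 ≤ if xor q (decide (k % 2 = 1)) then j else i

theorem treeleaf3_pos {q : Bool} {cs : List Cell} {W : List ℕ} (h : Inst q cs W) :
    ∃ pos : ℕ → ℕ, treeleaf3_Pos q cs W pos := by
  induction h with
  | nil q =>
    refine ⟨fun _ => 0, rfl, rfl, ?_, ?_, ?_⟩
    · intro c
      cases c <;> simp [parAt]
    · intro c v hc
      simp at hc
    · intro c o i j hc
      simp at hc
  | letter q v cs W _ ih =>
    obtain ⟨pos, hz, he, hp, hl, hs⟩ := ih
    refine ⟨fun c => match c with | 0 => 0 | c + 1 => pos c + 1, rfl, ?_, ?_, ?_, ?_⟩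
    · simp [he]
    · intro c
      cases c with
      | zero => simp [parAt]
      | succ c =>
        simp only [parAt]
        rw [hp c]
        rcases Nat.mod_two_eq_zero_or_one (pos c) with h2 | h2
        · have : (pos c + 1) % 2 = 1 := by omega
          cases q <;> simp [h2, this]
        · have : (pos c + 1) % 2 = 0 := by omega
          cases q <;> simp [h2, this]
    · intro c v' hc
      cases c with
      | zero =>
        simp only [List.getElem?_cons_zero, Option.some.injEq, Cell.L.injEq] at hc
        subst hc
        simp [hz]
      | succ c =>
        simp only [List.getElem?_cons_succ] at hc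
        obtain ⟨h1, h2, h3⟩ := hl c v' hc
        refine ⟨by simp [h1], ?_, ?_⟩
        · simpa using h2
        · simpa using h3
    · intro c o i j hc
      cases c with
      | zero => simp at hc
      | succ c =>
        simp only [List.getElem?_cons_succ] at hc
        obtain ⟨h1, h2, h3⟩ := hs c o i j hc
        refine ⟨by simpa using h1, ?_, ?_⟩
        · simp only
          omega
        · intro k hk1 hk2
          simp only at hk1 hk2
          obtain ⟨k, rfl⟩ : ∃ k', k = k' + 1 := ⟨k - 1, by omega⟩
          have h4 := h3 k (by omega) (by omega)
          rw [List.getD_cons_succ]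
          rcases Nat.mod_two_eq_zero_or_one k with h5 | h5
          · have : (k + 1) % 2 = 1 := by omega
            cases q <;> simpa [h5, this] using h4
          · have : (k + 1) % 2 = 0 := by omega
            cases q <;> simpa [h5, this] using h4
  | stretch q o i j cs T W hT hT0 hT1 _ ih =>
    obtain ⟨pos, hz, he, hp, hl, hs⟩ := ih
    refine ⟨fun c => match c with | 0 => 0 | c + 1 => pos c + T.length, rfl, ?_, ?_, ?_, ?_⟩
    · simp [he, Nat.add_comm]
    · intro c
      cases c with
      | zero => simp [parAt]
      | succ c =>
        simp only [parAt]
        rw [hp c]
        cases o with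
        | false =>
          simp only [Bool.false_eq_true, if_false] at hT
          have : (pos c + T.length) % 2 = pos c % 2 := by omega
          rw [this]
          simp
        | true =>
          simp only [if_true] at hT
          rcases Nat.mod_two_eq_zero_or_one (pos c) with h2 | h2
          · have : (pos c + T.length) % 2 = 1 := by omega
            cases q <;> simp [h2, this]
          · have : (pos c + T.length) % 2 = 0 := by omega
            cases q <;> simp [h2, this]
    · intro c v' hc
      cases c with
      | zero => simp at hc
      | succ c =>
        simp only [List.getElem?_cons_succ] at hc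
        obtain ⟨h1, h2, h3⟩ := hl c v' hc
        refine ⟨by simp only [h1]; omega, ?_, ?_⟩
        · simp only
          rw [List.getD_append_right _ _ _ _ (by omega)]
          simpa using h2
        · simp only [List.length_append]
          omega
    · intro c o' i' j' hc
      cases c with
      | zero =>
        simp only [List.getElem?_cons_zero, Option.some.injEq, Cell.S.injEq] at hc
        obtain ⟨rfl, rfl, rfl⟩ := hc
        refine ⟨Nat.zero_le _, ?_, ?_⟩
        · simp only [hz]
          cases o <;> simp at hT ⊢ <;> omega
        · intro k _ hk2
          simp only [hz, Nat.zero_add] at hk2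
          rw [List.getD_append _ _ _ _ hk2]
          rcases Nat.mod_two_eq_zero_or_one k with h5 | h5
          · have h6 := hT0 k hk2 h5
            cases q <;> simpa [h5] using h6
          · have h6 := hT1 k hk2 h5
            cases q <;> simpa [h5] using h6
      | succ c =>
        simp only [List.getElem?_cons_succ] at hc
        obtain ⟨h1, h2, h3⟩ := hs c o' i' j' hc
        refine ⟨by simpa using h1, ?_, ?_⟩
        · simp only
          cases o' <;> simp only [Bool.false_eq_true, if_false, if_true] at h2 ⊢ <;> omega
        · intro k hk1 hk2
          simp only at hk1 hk2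
          rw [List.getD_append_right _ _ _ _ (by omega)]
          have h4 := h3 (k - T.length) (by omega) (by omega)
          refine h4.trans (le_of_eq ?_)
          cases o with
          | false =>
            simp only [Bool.false_eq_true, if_false] at hT
            have : (k - T.length) % 2 = k % 2 := by omega
            rw [this]
            simp
          | true =>
            simp only [if_true] at hT
            rcases Nat.mod_two_eq_zero_or_one k with h5 | h5
            · have : (k - T.length) % 2 = 1 := by omega
              cases q <;> simp [h5, this]
            · have : (k - T.length) % 2 = 0 := by omega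
              cases q <;> simp [h5, this]

theorem treeleaf3_letterAt {cs : List Cell} : ∀ {c v : ℕ}, letterAt c cs = some v →
    cs[c]? = some (Cell.L v) := by
  induction cs with
  | nil =>
    intro c v h
    cases c <;> simp [letterAt] at h
  | cons a cs ih =>
    intro c v h
    cases c with
    | zero =>
      cases a with
      | L x =>
        simp only [letterAt, Option.some.injEq] at h
        simp [h]
      | S o i j => simp [letterAt] at h
    | succ c =>
      have h' : letterAt c cs = some v := by
        cases a <;> simpa [letterAt] using h
      simpa using ih h'

theorem treeleaf3_drop {cs l : List Cell} {p : ℕ} {x : Cell} (h : cs.drop p = x :: l) :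
    cs[p]? = some x ∧ cs.drop (p + 1) = l := by
  constructor
  · have h1 : (cs.drop p)[0]? = some x := by rw [h]; rfl
    rw [List.getElem?_drop] at h1
    simpa using h1
  · have h1 : (cs.drop p).drop 1 = l := by rw [h]; rfl
    rw [List.drop_drop] at h1
    exact h1

theorem treeleaf3_read {cs : List Cell} {W : List ℕ} {pos : ℕ → ℕ}
    (hpos : treeleaf3_Pos false cs W pos) (h g P0 : ℕ) :
    ∀ (k p m : ℕ) (q odd aw au : Bool) (a : ℕ) (odd' aw' au' : Bool),
    pos p = P0 + m → q = decide (pos p % 2 = 1) → odd = decide (m % 2 = 0) →
    readPiece h g (cs.drop p) q k odd aw au = some (a, odd', aw', au') →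
    ∃ m', pos (p + k) = P0 + m' ∧ m ≤ m' ∧ odd' = decide (m' % 2 = 0) ∧
      cs[p + k]? = some (Cell.L a) ∧
      (∀ i, m ≤ i → i < m' → i % 2 = 0 → W.getD (P0 + i) 0 ≤ h) ∧
      (∀ i, m ≤ i → i < m' → i % 2 = 1 → W.getD (P0 + i) 0 ≤ g) ∧
      (aw' = true → aw = true ∨ ∃ i, m ≤ i ∧ i < m' ∧ i % 2 = 0 ∧ W.getD (P0 + i) 0 = h) ∧
      (au' = true → au = true ∨ ∃ i, m ≤ i ∧ i < m' ∧ i % 2 = 1 ∧ W.getD (P0 + i) 0 = g) := by
  intro k
  induction k with
  | zero =>
    intro p m q odd aw au a odd' aw' au' h1 h2 h3 h4
    cases hd : cs.drop p with
    | nil => rw [hd] at h4; simp [readPiece] at h4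
    | cons x l =>
      obtain ⟨hx, hl⟩ := treeleaf3_drop hd
      rw [hd] at h4
      cases x with
      | S o i j => simp [readPiece] at h4
      | L v =>
        simp only [readPiece, Option.some.injEq, Prod.mk.injEq] at h4
        obtain ⟨rfl, rfl, rfl, rfl⟩ := h4
        exact ⟨m, h1, le_rfl, h3, hx, fun i hi hi' => by omega, fun i hi hi' => by omega,
          fun hh => Or.inl hh, fun hh => Or.inl hh⟩
  | succ k ih =>
    intro p m q odd aw au a odd' aw' au' h1 h2 h3 h4
    have hpk : p + (k + 1) = (p + 1) + k := by omega
    cases hd : cs.drop p with
    | nil => rw [hd] at h4; simp [readPiece] at h4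
    | cons x l =>
      obtain ⟨hx, hl⟩ := treeleaf3_drop hd
      rw [hd] at h4
      cases x with
      | L v =>
        obtain ⟨e1, e2, -⟩ := hpos.let1 p v hx
        have e3 : pos (p + 1) = P0 + (m + 1) := by omega
        have e4 : (!q) = decide (pos (p + 1) % 2 = 1) := by
          subst h2
          rw [e1]
          rcases Nat.mod_two_eq_zero_or_one (pos p) with h5 | h5
          · have : (pos p + 1) % 2 = 1 := by omega
            simp [h5, this]
          · have : (pos p + 1) % 2 = 0 := by omega
            simp [h5, this]
        rw [h1] at e2
        rcases Nat.mod_two_eq_zero_or_one m with hm | hm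
        · have ho : odd = true := by simp [h3, hm]
          subst ho
          simp only [readPiece, if_true] at h4
          by_cases hv : v ≤ h
          · rw [if_pos hv] at h4
            rw [← hl] at h4
            obtain ⟨m', f1, f2, f3, f4, f5, f6, f7, f8⟩ :=
              ih (p + 1) (m + 1) (!q) false (aw || v == h) au a odd' aw' au' e3 e4
                (by have : (m + 1) % 2 = 1 := by omega
                    simp [this]) h4
            refine ⟨m', by rw [hpk]; exact f1, by omega, f3, by rw [hpk]; exact f4, ?_, ?_, ?_, ?_⟩
            · intro i hi hi' hi2
              rcases Nat.eq_or_lt_of_le hi with rfl | hlt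
              · rw [e2]; exact hv
              · exact f5 i hlt hi' hi2
            · intro i hi hi' hi2
              rcases Nat.eq_or_lt_of_le hi with rfl | hlt
              · omega
              · exact f6 i hlt hi' hi2
            · intro hh
              rcases f7 hh with hh | ⟨i, i1, i2, i3, i4⟩
              · rw [Bool.or_eq_true] at hh
                rcases hh with hh | hh
                · exact Or.inl hh
                · right
                  exact ⟨m, le_rfl, by omega, hm, by rw [e2]; simpa using hh⟩
              · exact Or.inr ⟨i, by omega, i2, i3, i4⟩
            · intro hh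
              rcases f8 hh with hh | ⟨i, i1, i2, i3, i4⟩
              · exact Or.inl hh
              · exact Or.inr ⟨i, by omega, i2, i3, i4⟩
          · rw [if_neg hv] at h4
            exact absurd h4 (by simp)
        · have ho : odd = false := by simp [h3, hm]
          subst ho
          simp only [readPiece, Bool.false_eq_true, if_false] at h4
          by_cases hv : v ≤ g
          · rw [if_pos hv] at h4
            rw [← hl] at h4
            obtain ⟨m', f1, f2, f3, f4, f5, f6, f7, f8⟩ :=
              ih (p + 1) (m + 1) (!q) true aw (au || v == g) a odd' aw' au' e3 e4
                (by have : (m + 1) % 2 = 0 := by omega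
                    simp [this]) h4
            refine ⟨m', by rw [hpk]; exact f1, by omega, f3, by rw [hpk]; exact f4, ?_, ?_, ?_, ?_⟩
            · intro i hi hi' hi2
              rcases Nat.eq_or_lt_of_le hi with rfl | hlt
              · omega
              · exact f5 i hlt hi' hi2
            · intro i hi hi' hi2
              rcases Nat.eq_or_lt_of_le hi with rfl | hlt
              · rw [e2]; exact hv
              · exact f6 i hlt hi' hi2
            · intro hh
              rcases f7 hh with hh | ⟨i, i1, i2, i3, i4⟩
              · exact Or.inl hh
              · exact Or.inr ⟨i, by omega, i2, i3, i4⟩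
            · intro hh
              rcases f8 hh with hh | ⟨i, i1, i2, i3, i4⟩
              · rw [Bool.or_eq_true] at hh
                rcases hh with hh | hh
                · exact Or.inl hh
                · right
                  exact ⟨m, le_rfl, by omega, hm, by rw [e2]; simpa using hh⟩
              · exact Or.inr ⟨i, by omega, i2, i3, i4⟩
          · rw [if_neg hv] at h4
            exact absurd h4 (by simp)
      | S o i j =>
        obtain ⟨e1, e2, e5⟩ := hpos.str p o i j hx
        obtain ⟨m1, e3⟩ : ∃ m1, pos (p + 1) = P0 + m1 := ⟨pos (p + 1) - P0, by omega⟩
        have hmm : m ≤ m1 := by omega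
        have hq1 : (q ^^ o) = decide (pos (p + 1) % 2 = 1) := by
          rw [h2, e2]
          cases o with
          | false => simp
          | true =>
            rcases Nat.mod_two_eq_zero_or_one (pos p) with h5 | h5
            · have : (pos p + 1) % 2 = 1 := by omega
              simp [h5, this]
            · have : (pos p + 1) % 2 = 0 := by omega
              simp [h5, this]
        have ho1 : (odd ^^ o) = decide (m1 % 2 = 0) := by
          rw [h3]
          cases o with
          | false =>
            simp only [Bool.false_eq_true, if_false] at e2
            have : m1 % 2 = m % 2 := by omega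
            rw [this]
            simp
          | true =>
            simp only [if_true] at e2
            rcases Nat.mod_two_eq_zero_or_one m with h5 | h5
            · have : m1 % 2 = 1 := by omega
              simp [h5, this]
            · have : m1 % 2 = 0 := by omega
              simp [h5, this]
        simp only [readPiece] at h4
        by_cases hv : (if (q == odd) = true then j else i) ≤ h ∧
            (if (q == odd) = true then i else j) ≤ g
        · rw [if_pos hv, ← hl] at h4
          obtain ⟨m', f1, f2, f3, f4, f5, f6, f7, f8⟩ :=
            ih (p + 1) m1 (q ^^ o) (odd ^^ o) aw au a odd' aw' au' e3 hq1 ho1 h4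
          obtain ⟨hv1, hv2⟩ := hv
          refine ⟨m', by rw [hpk]; exact f1, by omega, f3, by rw [hpk]; exact f4, ?_, ?_, ?_, ?_⟩
          · intro n hn hn' hn2
            by_cases hlt : m1 ≤ n
            · exact f5 n hlt hn' hn2
            · have h6 := e5 (P0 + n) (by omega) (by omega)
              refine h6.trans (le_trans (le_of_eq ?_) hv1)
              subst h2 h3
              rcases Nat.mod_two_eq_zero_or_one P0 with h7 | h7 <;>
              rcases Nat.mod_two_eq_zero_or_one m with h8 | h8 <;>
              · have h9 : pos p % 2 = (P0 % 2 + m % 2) % 2 := by omega
                have h10 : (P0 + n) % 2 = P0 % 2 := by omega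
                rw [h9, h10, h7, h8]
                simp
          · intro n hn hn' hn2
            by_cases hlt : m1 ≤ n
            · exact f6 n hlt hn' hn2
            · have h6 := e5 (P0 + n) (by omega) (by omega)
              refine h6.trans (le_trans (le_of_eq ?_) hv2)
              subst h2 h3
              rcases Nat.mod_two_eq_zero_or_one P0 with h7 | h7 <;>
              rcases Nat.mod_two_eq_zero_or_one m with h8 | h8 <;>
              · have h9 : pos p % 2 = (P0 % 2 + m % 2) % 2 := by omega
                have h10 : (P0 + n) % 2 = (P0 % 2 + 1) % 2 := by omega
                rw [h9, h10, h7, h8]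
                simp
          · intro hh
            rcases f7 hh with hh | ⟨i, i1, i2, i3, i4⟩
            · exact Or.inl hh
            · exact Or.inr ⟨i, by omega, i2, i3, i4⟩
          · intro hh
            rcases f8 hh with hh | ⟨i, i1, i2, i3, i4⟩
            · exact Or.inl hh
            · exact Or.inr ⟨i, by omega, i2, i3, i4⟩
        · rw [if_neg hv] at h4
          exact absurd h4 (by simp)

theorem treeleaf3_main {cs : List Cell} {W : List ℕ} {pos : ℕ → ℕ}
    (hpos : treeleaf3_Pos false cs W pos) :
    ∀ (es : List ℕ) (c : Fin 3 → ℕ) (u v w : Fin 3) (sat : Bool) (sat' : Prop),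
    (sat = true → sat') → absCh cs cs.length es c u v w sat = true →
    ∃ Ns : List ℕ, Ns.length = es.length ∧ LCh W Ns (fun t => pos (c t)) u v w sat' := by
  intro es
  induction es with
  | nil =>
    intro c u v w sat sat' hs h
    simp only [absCh, Bool.and_eq_true, beq_iff_eq] at h
    obtain ⟨⟨⟨h0, h1⟩, h2⟩, h3⟩ := h
    refine ⟨[], rfl, ?_, hs h3⟩
    intro t
    fin_cases t
    · simp only [Fin.zero_eta, h0, hpos.e]
    · simp only [Fin.mk_one, h1, hpos.e]
    · simp only [Fin.reduceFinMk, h2, hpos.e]
  | cons e es ih =>
    intro c u v w sat sat' hs h
    unfold absCh at h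
    cases hh : letterAt (c u.rev) cs with
    | none => rw [hh] at h; simp at h
    | some hb =>
      rw [hh] at h
      simp only at h
      cases hg : (if c w.rev = 0 then none else letterAt (c w.rev - 1) cs) with
      | none => rw [hg] at h; simp at h
      | some g =>
        rw [hg] at h
        simp only at h
        by_cases hev : e < c v.rev
        · rw [if_pos hev] at h; simp at h
        · rw [if_neg hev] at h
          cases hr : readPiece hb g (cs.drop (c v.rev)) (parAt false (c v.rev) cs)
              (e - c v.rev) true false false with
          | none => rw [hr] at h; simp at h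
          | some r =>
            obtain ⟨a, odd, aw, au⟩ := r
            rw [hr] at h
            simp only [Bool.and_eq_true] at h
            obtain ⟨⟨k1, k2⟩, k3⟩ := h
            have hw0 : c w.rev ≠ 0 := by
              intro h0
              rw [if_pos h0] at hg
              simp at hg
            rw [if_neg hw0] at hg
            obtain ⟨a1, a2, a3⟩ := hpos.let1 _ _ (treeleaf3_letterAt hh)
            obtain ⟨b1, b2, b3⟩ := hpos.let1 _ _ (treeleaf3_letterAt hg)
            have hw1 : c w.rev - 1 + 1 = c w.rev := by omega
            rw [hw1] at b1
            obtain ⟨m', f1, f2, f3, f4, f5, f6, f7, f8⟩ :=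
              treeleaf3_read hpos hb g (pos (c v.rev)) (e - c v.rev) (c v.rev) 0 _ true false
                false a odd aw au (by omega) (by rw [hpos.par]; simp) (by simp) hr
            have hee : c v.rev + (e - c v.rev) = e := by omega
            rw [hee] at f1 f4
            obtain ⟨d1, d2, d3⟩ := hpos.let1 _ _ f4
            have hodd : (m' + 1) % 2 = 1 ↔ odd = true := by
              rw [f3, decide_eq_true_iff]
              omega
            have hlast : W.getD (pos (c v.rev) + (m' + 1 - 1)) 0 = a := by
              rw [Nat.add_sub_cancel, ← f1]
              exact d2
            have hgw : W.getD (pos (c w.rev) - 1) 0 = g := by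
              rw [b1, Nat.add_sub_cancel]
              exact b2
            obtain ⟨Ns, g1, g2⟩ := ih _ _ _ _ _
              (W.getD (pos (c v.rev) + (m' + 1 - 1)) 0 ≤
                if (m' + 1) % 2 = 1 then W.getD (pos (c u.rev)) 0
                else W.getD (pos (c w.rev) - 1) 0)
              (by
                intro hd
                rw [decide_eq_true_iff] at hd
                rw [hlast, a2, hgw]
                by_cases ho : odd = true
                · rw [if_pos (hodd.2 ho)]
                  rw [if_pos ho] at hd
                  exact hd
                · rw [if_neg (fun hx => ho (hodd.1 hx))]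
                  rw [if_neg ho] at hd
                  exact hd) k3
            refine ⟨(m' + 1) :: Ns, by simp [g1], ?_⟩
            unfold LCh
            have hlen : pos (c v.rev) + (m' + 1) ≤ W.length := by omega
            refine ⟨⟨by omega, hlen, a3⟩, ?_, ?_, ?_, ?_, ?_⟩
            · intro i hi hi2
              rw [a2]
              exact f5 i (Nat.zero_le _) (by omega) hi2
            · intro i hi hi2
              rw [hgw]
              exact f6 i (Nat.zero_le _) (by omega) hi2
            · rw [hlast, a2]
              rw [Bool.or_eq_true] at k1
              rcases k1 with k1 | k1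
              · rcases f7 k1 with k1 | ⟨i, i1, i2, i3, i4⟩
                · simp at k1
                · exact Or.inl ⟨i, by omega, i3, i4⟩
              · rw [Bool.and_eq_true, decide_eq_true_iff] at k1
                exact Or.inr ⟨hodd.2 k1.1, k1.2⟩
            · rw [hlast, hgw]
              rw [Bool.or_eq_true, Bool.or_eq_true] at k2
              rcases k2 with (k2 | k2) | k2
              · exact Or.inl (hs k2)
              · rcases f8 k2 with k2 | ⟨i, i1, i2, i3, i4⟩
                · simp at k2
                · exact Or.inr (Or.inl ⟨i, by omega, i3, i4⟩)
              · rw [Bool.and_eq_true, decide_eq_true_iff] at k2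
                refine Or.inr (Or.inr ⟨?_, k2.2⟩)
                have k4 := k2.1
                have : ¬ ((m' + 1) % 2 = 1) := by
                  intro hx
                  rw [hodd.1 hx] at k4
                  simp at k4
                omega
            · have hc : (fun t => if t = v.rev then pos (c t) + (m' + 1)
                  else if t = u.rev then pos (c t) + 1 else pos (c t)) =
                  fun t => pos (if t = v.rev then e + 1 else if t = u.rev then c t + 1
                    else c t) := by
                funext t
                by_cases ht : t = v.rev
                · rw [if_pos ht, if_pos ht, ht, d1]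
                  omega
                · rw [if_neg ht, if_neg ht]
                  by_cases ht' : t = u.rev
                  · rw [if_pos ht', if_pos ht', ht', a1]
                  · rw [if_neg ht', if_neg ht']
              have hu : (if (m' + 1) % 2 = 1 then w else u) = if odd = true then w else u := by
                by_cases ho : odd = true
                · rw [if_pos ho, if_pos (hodd.2 ho)]
                · rw [if_neg ho, if_neg (fun hx => ho (hodd.1 hx))]
              have hv : (if (m' + 1) % 2 = 1 then u else w) = if odd = true then u else w := by
                by_cases ho : odd = true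
                · rw [if_pos ho, if_pos (hodd.2 ho)]
                · rw [if_neg ho, if_neg (fun hx => ho (hodd.1 hx))]
              rw [hc, hu, hv]
              exact g2

/-- Abstract chains give chains.

Proof. Let `W` be an instance of `cs`.  Define `pos : ℕ → ℕ`, `pos c` = length of the part of `W`
matching the first `c` cells (from the derivation of `Inst`; `pos 0 = 0`,
`pos cs.length = W.length`, monotone, `pos (c+1) = pos c + 1` if the cell number `c` is a letter,
`pos (c+1) - pos c` even if it is a stretch, parity of `pos c` = `parAt false c cs`,
`letterAt c cs = some v → W.getD (pos c) 0 = v ∧ pos (c+1) = pos c + 1`).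
Show by induction on `es`: if `absCh cs cs.length es c u v w sat` then
`∃ Ns, Ns.length = es.length ∧ LCh W Ns (fun t => pos (c t)) u v w sat'` for every
`sat' : Prop` with `sat = true → sat'` (LCh is monotone in sat).  In a phase with last cell `e`
put `N = pos e + 1 - pos (c v.rev)`.  `letterAt (c u.rev) cs = some h` gives
`W.getD (pos (c u.rev)) 0 = h` and `pos (c u.rev + 1) = pos (c u.rev) + 1`;
`letterAt (c w.rev - 1) cs = some g`, `c w.rev ≠ 0` gives `W.getD (pos (c w.rev) - 1) 0 = g`.
readPiece: induction on the cells; invariant: it reads the cells from the one at the word position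
`P0 = pos (c v.rev)`; `odd` = the next letter has an odd number `i+1` (i.e. `i` even), all letters
read so far with even `i` are `≤ h`, with odd `i` are `≤ g`; `aw` = one of the even `i` read as a
letter is `= h`, `au` = one of the odd `i` is `= g` (only implications are needed).  At the end the
last letter is `a` with index `i = N - 1`, and `odd = true ↔ N % 2 = 1`. -/
theorem absCh_sound {cs : List Cell} {es : List ℕ}
    (h : absCh cs cs.length es (fun t => if t = 2 then 0 else 1) 0 2 1 true = true)
    (h0 : ∃ a b l, cs = Cell.L a :: Cell.L b :: l)
    {W : List ℕ} (hW : Inst false cs W) : ∃ Ns : List ℕ, Ns.length = es.length ∧ LChain W Ns := by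
  obtain ⟨pos, hpos⟩ := treeleaf3_pos hW
  obtain ⟨Ns, h1, h2⟩ := treeleaf3_main hpos es _ _ _ _ _ True (fun _ => trivial) h
  refine ⟨Ns, h1, ?_⟩
  unfold LChain
  have hc : (fun t : Fin 3 => if t = 2 then 0 else 1) =
      fun t : Fin 3 => pos (if t = 2 then 0 else 1) := by
    obtain ⟨a, b, l, rfl⟩ := h0
    have h3 : pos 1 = 1 := by
      have h4 := (hpos.let1 0 a (by simp)).1
      rwa [hpos.z] at h4
    funext t
    by_cases ht : t = 2
    · simp only [if_pos ht, hpos.z]
    · simp only [if_neg ht, h3]
  rw [hc]
  exact h2

end Pool.Agent.H.MP_2e666d_lc.T3
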