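import Pool.Agent.H.MP_2e666d_lc.TreeSplit3
import Pool.Agent.H.MP_2e666d_lc.TreeLeaf3

/-! # Refinement trees, second version: soundness of the checker, the finite statement -/

namespace Pool.Agent.H.MP_2e666d_lc.T3

/-- the abstract word starts with two letters -/
def Two (cs : List Cell) : Prop := ∃ a b l, cs = Cell.L a :: Cell.L b :: l

theorem treefs3_two {ty : ℕ} {q : Bool} {p : ℕ} {cs : List Cell} {l : List (List Cell)}
    (h : children ty q p cs = some l) (h2 : Two cs) : ∀ cs' ∈ l, Two cs' := by
  obtain ⟨a, b, r, rfl⟩ := h2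
  match p with
  | 0 => simp [children] at h
  | 1 => simp [children] at h
  | p + 2 =>
    rw [children, children, Option.map_eq_some_iff] at h
    obtain ⟨l1, h1, rfl⟩ := h
    rw [Option.map_eq_some_iff] at h1
    obtain ⟨l2, h2, rfl⟩ := h1
    intro cs' hcs'
    rw [List.map_map, List.mem_map] at hcs'
    obtain ⟨c, _, rfl⟩ := hcs'
    exact ⟨a, b, c, rfl⟩

/-- Soundness of the checker (port of `TreeFS`). -/
theorem chk_sound {K : ℕ} {t : Tree} {l : List (List Cell)} (h : chk K t l = true)
    (h2 : ∀ cs ∈ l, Two cs) :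
    ∀ cs ∈ l, ∀ W, Inst false cs W → ∃ Ns : List ℕ, Ns.length ≤ K ∧ LChain W Ns := by
  induction t generalizing l with
  | leaf es =>
    match l with
    | [] => simp
    | [cs] =>
      simp only [chk, Bool.and_eq_true, decide_eq_true_eq] at h
      intro cs' hcs' W hW
      rw [List.mem_singleton] at hcs'
      subst hcs'
      obtain ⟨Ns, hN, hc⟩ := absCh_sound h.2 (h2 cs' (List.mem_singleton.2 rfl)) hW
      exact ⟨Ns, by omega, hc⟩
    | _ :: _ :: _ => simp [chk] at h
  | node p ty ch ih =>
    match l with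
    | [] => simp
    | [cs] =>
      intro cs' hcs' W hW
      rw [List.mem_singleton] at hcs'
      subst hcs'
      rw [chk] at h
      cases hc : children ty false p cs' with
      | none => rw [hc] at h; simp at h
      | some l' =>
        rw [hc] at h
        have h3 := treefs3_two hc (h2 cs' (List.mem_singleton.2 rfl))
        obtain ⟨c, hcl, hcW⟩ := children_sound hc hW
        exact ih h h3 c hcl W hcW
    | _ :: _ :: _ => simp [chk] at h
  | nil =>
    match l with
    | [] => simp
    | _ :: _ => simp [chk] at h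
  | cons t rest iht ihr =>
    match l with
    | [] => simp
    | cs :: l' =>
      rw [chk, Bool.and_eq_true] at h
      intro c hc W hW
      rcases List.mem_cons.1 hc with rfl | hc
      · exact iht h.1 (fun c' hc' => h2 c' (by
          rw [List.mem_singleton] at hc'
          rw [hc']
          exact List.mem_cons_self)) c (List.mem_singleton.2 rfl) W hW
      · exact ihr h.2 (fun c' hc' => h2 c' (List.mem_cons_of_mem _ hc')) c hc W hW

/-- all instances of the abstract word have chains with at most `K` phases -/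
def Good (K : ℕ) (cs : List Cell) : Prop :=
  ∀ W, Inst false cs W → ∃ Ns : List ℕ, Ns.length ≤ K ∧ LChain W Ns

/-- for splitting the certificate over several files: a node of a tree whose children are already
known to be good -/
theorem Good.node {K ty p : ℕ} {cs : List Cell} {l : List (List Cell)}
    (h : children ty false p cs = some l) (hl : ∀ cs' ∈ l, Good K cs') : Good K cs := by
  intro W hW
  obtain ⟨c, hcl, hcW⟩ := children_sound h hW
  exact hl c hcl W hcW

theorem Good.of_chk {K : ℕ} {t : Tree} {cs : List Cell} (h2 : Two cs) (h : chk K t [cs] = true) :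
    Good K cs := by
  intro W hW
  exact chk_sound h (fun c hc => by
    rw [List.mem_singleton] at hc
    rw [hc]
    exact h2) cs (List.mem_singleton.2 rfl) W hW

/-- instances of a stretch with the bounds `2`, `2` -/
theorem treefs3_inst {P : List ℕ} (hP : ∀ a ∈ P, a ≤ 2) {o : Bool}
    (he : P.length % 2 = if o then 1 else 0) :
    Inst false [Cell.L 3, Cell.L 3, Cell.S o 2 2, Cell.L 4, Cell.L 4]
      (3 :: 3 :: (P ++ [4, 4])) := by
  have hg : ∀ k < P.length, P.getD k 0 ≤ 2 := by
    intro k hk
    rw [List.getD_eq_getElem _ _ hk]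
    exact hP _ (List.getElem_mem hk)
  refine Inst.letter _ _ _ _ (Inst.letter _ _ _ _ (Inst.stretch _ _ _ _ _ _ _ he ?_ ?_
    (Inst.letter _ _ _ _ (Inst.letter _ _ _ _ (Inst.nil _)))))
  · intro k hk _
    simpa using hg k hk
  · intro k hk _
    simpa using hg k hk

/-- The finite statement: all the words `33 P 44` with `|P|` odd from the hypothesis; for `|P|` even
the leaf `[3,4,4]` of `33 S(even) 44`, for `[3,4,4]` the leaf `[1,2,2]`, for `[4,4]` the leaf
`[1,1]`. -/
theorem FS_of_good {K : ℕ} (hK : 4 ≤ K)
    (h : Good K [Cell.L 3, Cell.L 3, Cell.S true 2 2, Cell.L 4, Cell.L 4]) : FS := by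
  have leaf : ∀ (es : List ℕ) (cs : List Cell) (W : List ℕ), es.length ≤ K → Two cs →
      absCh cs cs.length es (fun t => if t = 2 then 0 else 1) 0 2 1 true = true →
      Inst false cs W → ∃ Ns : List ℕ, Ns.length ≤ K ∧ LChain W Ns := by
    intro es cs W hes h2 habs hW
    obtain ⟨Ns, hN, hc⟩ := absCh_sound habs h2 hW
    exact ⟨Ns, by omega, hc⟩
  refine ⟨K, ?_⟩
  rintro W (rfl | rfl | ⟨P, hP, rfl⟩)
  · refine leaf [1, 1] [Cell.L 4, Cell.L 4] _ (by simp; omega) ⟨_, _, _, rfl⟩ (by decide) ?_
    exact Inst.letter _ _ _ _ (Inst.letter _ _ _ _ (Inst.nil _))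
  · refine leaf [1, 2, 2] [Cell.L 3, Cell.L 4, Cell.L 4] _ (by simp; omega) ⟨_, _, _, rfl⟩
      (by decide) ?_
    exact Inst.letter _ _ _ _ (Inst.letter _ _ _ _ (Inst.letter _ _ _ _ (Inst.nil _)))
  · rcases Nat.mod_two_eq_zero_or_one P.length with he | he
    · exact leaf [3, 4, 4] [Cell.L 3, Cell.L 3, Cell.S false 2 2, Cell.L 4, Cell.L 4] _
        (by simp; omega) ⟨_, _, _, rfl⟩ (by decide) (treefs3_inst hP (by simpa using he))
    · exact h _ (treefs3_inst hP (by simpa using he))

end Pool.Agent.H.MP_2e666d_lc.T3
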