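import Pool.Agent.H.MP_2e666d_lc.TreeDef

/-! # Refinement trees: the case distinctions are exhaustive -/

namespace Pool.Agent.H.MP_2e666d_lc

/-- parity after `n` letters -/
def treesplit_par (q : Bool) (n : ℕ) : Bool := if n % 2 = 0 then q else !q

theorem treesplit_append {q : Bool} {a : List Cell} {T : List ℕ} (h : Inst q a T) :
    ∀ {b : List Cell} {W : List ℕ}, Inst (treesplit_par q T.length) b W →
      Inst q (a ++ b) (T ++ W) := by
  induction h with
  | nil q =>
    intro b W hb
    simpa [treesplit_par] using hb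
  | letter q v cs W1 _ ih =>
    intro b W hb
    refine Inst.letter q v (cs ++ b) (W1 ++ W) (ih ?_)
    have : treesplit_par (!q) W1.length = treesplit_par q (v :: W1).length := by
      unfold treesplit_par
      rw [List.length_cons]
      by_cases h : W1.length % 2 = 0
      · rw [if_pos h, if_neg (by omega)]
      · rw [if_neg h, if_pos (by omega), Bool.not_not]
    rw [this]
    exact hb
  | stretch q i j cs T1 W1 hl h0 h1 _ ih =>
    intro b W hb
    have : treesplit_par q W1.length = treesplit_par q (T1 ++ W1).length := by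
      unfold treesplit_par
      rw [List.length_append]
      have e : (T1.length + W1.length) % 2 = W1.length % 2 := by omega
      rw [e]
    rw [List.append_assoc, List.cons_append]
    refine Inst.stretch q i j (cs ++ b) T1 (W1 ++ W) hl h0 h1 (ih ?_)
    rw [this]
    exact hb

/-- words of even length with bounds, in pairs of letters -/
inductive treesplit_BW (b0 b1 : ℕ) : List ℕ → Prop where
  | nil : treesplit_BW b0 b1 []
  | cons (x y : ℕ) (T : List ℕ) : x ≤ b0 → y ≤ b1 → treesplit_BW b0 b1 T →
      treesplit_BW b0 b1 (x :: y :: T)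

theorem treesplit_bw_of (b0 b1 : ℕ) : ∀ (n : ℕ) (T : List ℕ), T.length = n →
    T.length % 2 = 0 → (∀ k < T.length, k % 2 = 0 → T.getD k 0 ≤ b0) →
    (∀ k < T.length, k % 2 = 1 → T.getD k 0 ≤ b1) → treesplit_BW b0 b1 T := by
  intro n
  induction n using Nat.strong_induction_on with
  | _ n ih =>
    intro T hn hl h0 h1
    match T, hn, hl, h0, h1 with
    | [], _, _, _, _ => exact treesplit_BW.nil
    | [x], _, hl, _, _ => simp at hl
    | x :: y :: T', hn, hl, h0, h1 =>
      simp only [List.length_cons] at hn hl h0 h1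
      refine treesplit_BW.cons x y T' ?_ ?_ ?_
      · have := h0 0 (by omega) (by omega)
        simpa using this
      · have := h1 1 (by omega) (by omega)
        simpa using this
      · refine ih T'.length (by omega) T' rfl (by omega) ?_ ?_
        · intro k hk hk2
          have := h0 (k + 2) (by omega) (by omega)
          simpa using this
        · intro k hk hk2
          have := h1 (k + 2) (by omega) (by omega)
          simpa using this

theorem treesplit_bw_prop {b0 b1 : ℕ} {T : List ℕ} (h : treesplit_BW b0 b1 T) :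
    T.length % 2 = 0 ∧ (∀ k < T.length, k % 2 = 0 → T.getD k 0 ≤ b0) ∧
      (∀ k < T.length, k % 2 = 1 → T.getD k 0 ≤ b1) := by
  induction h with
  | nil => simp
  | cons x y T hx hy _ ih =>
    obtain ⟨i1, i2, i3⟩ := ih
    refine ⟨?_, ?_, ?_⟩
    · simp only [List.length_cons]
      omega
    · intro k hk hk2
      match k, hk, hk2 with
      | 0, _, _ => simpa using hx
      | 1, _, hk2 => omega
      | k + 2, hk, hk2 =>
        simp only [List.length_cons] at hk
        have := i2 k (by omega) (by omega)
        simpa using this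
    · intro k hk hk2
      match k, hk, hk2 with
      | 0, _, hk2 => omega
      | 1, _, _ => simpa using hy
      | k + 2, hk, hk2 =>
        simp only [List.length_cons] at hk
        have := i3 k (by omega) (by omega)
        simpa using this

theorem treesplit_mkS {q : Bool} {b0 b1 : ℕ} {T : List ℕ} (h : treesplit_BW b0 b1 T) :
    Inst q [mkS q b0 b1] T := by
  obtain ⟨i1, i2, i3⟩ := treesplit_bw_prop h
  have e : T = T ++ [] := (List.append_nil T).symm
  rw [e]
  unfold mkS
  cases q with
  | true =>
    simp only [if_true]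
    exact Inst.stretch true b1 b0 [] T [] i1 (by simpa using i2) (by simpa using i3)
      (Inst.nil true)
  | false =>
    simp only [Bool.false_eq_true, if_false]
    exact Inst.stretch false b0 b1 [] T [] i1 (by simpa using i2) (by simpa using i3)
      (Inst.nil false)

theorem treesplit_three {q : Bool} {a0 a1 c0 c1 x y : ℕ} {T1 T2 : List ℕ}
    (h1 : treesplit_BW a0 a1 T1) (h2 : treesplit_BW c0 c1 T2) :
    Inst q [mkS q a0 a1, Cell.L x, Cell.L y, mkS q c0 c1] (T1 ++ x :: y :: T2) := by
  have e : [mkS q a0 a1, Cell.L x, Cell.L y, mkS q c0 c1]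
      = [mkS q a0 a1] ++ [Cell.L x, Cell.L y, mkS q c0 c1] := rfl
  rw [e]
  apply treesplit_append (treesplit_mkS h1)
  have hp : treesplit_par q T1.length = q := by
    unfold treesplit_par
    rw [if_pos (treesplit_bw_prop h1).1]
  rw [hp]
  refine Inst.letter q x _ _ (Inst.letter (!q) y _ _ ?_)
  rw [Bool.not_not]
  exact treesplit_mkS h2

/-- the first pair with the property `P` -/
theorem treesplit_first {b0 b1 c0 c1 : ℕ} (P : ℕ → ℕ → Prop)
    (hP : ∀ x y, x ≤ b0 → y ≤ b1 → ¬ P x y → x ≤ c0 ∧ y ≤ c1) {T : List ℕ}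
    (h : treesplit_BW b0 b1 T) :
    treesplit_BW c0 c1 T ∨ ∃ T1 x y T2, T = T1 ++ x :: y :: T2 ∧ treesplit_BW c0 c1 T1 ∧
      P x y ∧ x ≤ b0 ∧ y ≤ b1 ∧ treesplit_BW b0 b1 T2 := by
  induction h with
  | nil => exact Or.inl treesplit_BW.nil
  | cons x y T hx hy hT ih =>
    by_cases hxy : P x y
    · exact Or.inr ⟨[], x, y, T, rfl, treesplit_BW.nil, hxy, hx, hy, hT⟩
    · obtain ⟨hx', hy'⟩ := hP x y hx hy hxy
      rcases ih with ih | ⟨T1, x', y', T2, e, i1, i2, i3, i4, i5⟩
      · exact Or.inl (treesplit_BW.cons x y T hx' hy' ih)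
      · refine Or.inr ⟨x :: y :: T1, x', y', T2, ?_, treesplit_BW.cons x y T1 hx' hy' i1, i2, i3,
          i4, i5⟩
        rw [e]
        rfl

/-- the last pair with the property `P` -/
theorem treesplit_last {b0 b1 c0 c1 : ℕ} (P : ℕ → ℕ → Prop)
    (hP : ∀ x y, x ≤ b0 → y ≤ b1 → ¬ P x y → x ≤ c0 ∧ y ≤ c1) {T : List ℕ}
    (h : treesplit_BW b0 b1 T) :
    treesplit_BW c0 c1 T ∨ ∃ T1 x y T2, T = T1 ++ x :: y :: T2 ∧ treesplit_BW b0 b1 T1 ∧
      P x y ∧ x ≤ b0 ∧ y ≤ b1 ∧ treesplit_BW c0 c1 T2 := by
  induction h with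
  | nil => exact Or.inl treesplit_BW.nil
  | cons x y T hx hy hT ih =>
    rcases ih with ih | ⟨T1, x', y', T2, e, i1, i2, i3, i4, i5⟩
    · by_cases hxy : P x y
      · exact Or.inr ⟨[], x, y, T, rfl, treesplit_BW.nil, hxy, hx, hy, ih⟩
      · obtain ⟨hx', hy'⟩ := hP x y hx hy hxy
        exact Or.inl (treesplit_BW.cons x y T hx' hy' ih)
    · refine Or.inr ⟨x :: y :: T1, x', y', T2, ?_, treesplit_BW.cons x y T1 hx hy i1, i2, i3,
          i4, i5⟩
      rw [e]
      rfl

/-- the last pair -/
theorem treesplit_lastpair {b0 b1 : ℕ} {T : List ℕ} (h : treesplit_BW b0 b1 T) :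
    T = [] ∨ ∃ T1 x y, T = T1 ++ [x, y] ∧ treesplit_BW b0 b1 T1 ∧ x ≤ b0 ∧ y ≤ b1 := by
  induction h with
  | nil => exact Or.inl rfl
  | cons x y T hx hy hT ih =>
    rcases ih with ih | ⟨T1, x', y', e, i1, i2, i3⟩
    · refine Or.inr ⟨[], x, y, ?_, treesplit_BW.nil, hx, hy⟩
      rw [ih]
      rfl
    · refine Or.inr ⟨x :: y :: T1, x', y', ?_, treesplit_BW.cons x y T1 hx hy i1, i2, i3⟩
      rw [e]
      rfl

theorem treesplit_mem_pairs {m n x y : ℕ} (hx : x ≤ m) (hy : y ≤ n) : (x, y) ∈ pairs m n := by
  unfold pairs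
  simp only [List.mem_flatMap, List.mem_map, List.mem_range]
  exact ⟨x, by omega, y, by omega, rfl⟩

theorem treesplit_repl {q : Bool} {b0 b1 ty : ℕ} {l : List (List Cell)}
    (h : repl q b0 b1 ty = some l) {T : List ℕ} (hT : treesplit_BW b0 b1 T) :
    ∃ cs ∈ l, Inst q cs T := by
  match ty, h with
  | 0, h =>
    simp only [repl, Option.some.injEq] at h
    subst h
    cases hT with
    | nil => exact ⟨[], by simp, Inst.nil q⟩
    | cons x y T hx hy hT =>
      refine ⟨[Cell.L x, Cell.L y, mkS q b0 b1], ?_, ?_⟩
      · refine List.mem_cons_of_mem _ (List.mem_map.2 ⟨(x, y), treesplit_mem_pairs hx hy, rfl⟩)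
      · refine Inst.letter q x _ _ (Inst.letter (!q) y _ _ ?_)
        rw [Bool.not_not]
        exact treesplit_mkS hT
  | 1, h =>
    simp only [repl, Option.some.injEq] at h
    subst h
    rcases treesplit_lastpair hT with e | ⟨T1, x, y, e, i1, i2, i3⟩
    · rw [e]
      exact ⟨[], by simp, Inst.nil q⟩
    · rw [e]
      refine ⟨[mkS q b0 b1, Cell.L x, Cell.L y], ?_, ?_⟩
      · refine List.mem_cons_of_mem _ (List.mem_map.2 ⟨(x, y), treesplit_mem_pairs i2 i3, rfl⟩)
      · have e2 : [mkS q b0 b1, Cell.L x, Cell.L y] = [mkS q b0 b1] ++ [Cell.L x, Cell.L y] := rfl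
        rw [e2]
        apply treesplit_append (treesplit_mkS i1)
        exact Inst.letter _ x _ _ (Inst.letter _ y _ _ (Inst.nil _))
  | 2, h =>
    simp only [repl] at h
    split_ifs at h with hb
    simp only [Option.some.injEq] at h
    subst h
    rcases treesplit_first (c0 := b0 - 1) (c1 := b1) (fun x _ => x = b0)
      (fun x y hx hy hn => ⟨by omega, hy⟩) hT with i | ⟨T1, x, y, T2, e, i1, i2, i3, i4, i5⟩
    · exact ⟨[mkS q (b0 - 1) b1], by simp, treesplit_mkS i⟩
    · subst e
      subst i2
      exact ⟨_, List.mem_cons_of_mem _ (List.mem_map.2 ⟨y, List.mem_range.2 (by omega), rfl⟩),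
        treesplit_three i1 i5⟩
  | 3, h =>
    simp only [repl] at h
    split_ifs at h with hb
    simp only [Option.some.injEq] at h
    subst h
    rcases treesplit_last (c0 := b0 - 1) (c1 := b1) (fun x _ => x = b0)
      (fun x y hx hy hn => ⟨by omega, hy⟩) hT with i | ⟨T1, x, y, T2, e, i1, i2, i3, i4, i5⟩
    · exact ⟨[mkS q (b0 - 1) b1], by simp, treesplit_mkS i⟩
    · subst e
      subst i2
      exact ⟨_, List.mem_cons_of_mem _ (List.mem_map.2 ⟨y, List.mem_range.2 (by omega), rfl⟩),
        treesplit_three i1 i5⟩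
  | 4, h =>
    simp only [repl] at h
    split_ifs at h with hb
    simp only [Option.some.injEq] at h
    subst h
    rcases treesplit_first (c0 := b0) (c1 := b1 - 1) (fun _ y => y = b1)
      (fun x y hx hy hn => ⟨hx, by omega⟩) hT with i | ⟨T1, x, y, T2, e, i1, i2, i3, i4, i5⟩
    · exact ⟨[mkS q b0 (b1 - 1)], by simp, treesplit_mkS i⟩
    · subst e
      subst i2
      exact ⟨_, List.mem_cons_of_mem _ (List.mem_map.2 ⟨x, List.mem_range.2 (by omega), rfl⟩),
        treesplit_three i1 i5⟩
  | 5, h =>
    simp only [repl] at h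
    split_ifs at h with hb
    simp only [Option.some.injEq] at h
    subst h
    rcases treesplit_last (c0 := b0) (c1 := b1 - 1) (fun _ y => y = b1)
      (fun x y hx hy hn => ⟨hx, by omega⟩) hT with i | ⟨T1, x, y, T2, e, i1, i2, i3, i4, i5⟩
    · exact ⟨[mkS q b0 (b1 - 1)], by simp, treesplit_mkS i⟩
    · subst e
      subst i2
      exact ⟨_, List.mem_cons_of_mem _ (List.mem_map.2 ⟨x, List.mem_range.2 (by omega), rfl⟩),
        treesplit_three i1 i5⟩
  | 6, h =>
    simp only [repl] at h
    split_ifs at h with hb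
    simp only [Option.some.injEq] at h
    push Not at hb
    obtain ⟨hb0, hb1⟩ := hb
    subst h
    subst hb1
    rcases treesplit_first (c0 := b0 - 1) (c1 := b0 - 1) (fun x y => x = b0 ∨ y = b0)
      (fun x y hx hy hn => ⟨by omega, by omega⟩) hT with i | ⟨T1, x, y, T2, e, i1, i2, i3, i4, i5⟩
    · exact ⟨[mkS q (b0 - 1) (b0 - 1)], by simp, treesplit_mkS i⟩
    · subst e
      by_cases hx : x = b0
      · subst hx
        exact ⟨_, List.mem_cons_of_mem _ (List.mem_append_left _
          (List.mem_map.2 ⟨y, List.mem_range.2 (by omega), rfl⟩)), treesplit_three i1 i5⟩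
      · have hy : y = b0 := by
          rcases i2 with i2 | i2
          · exact absurd i2 hx
          · exact i2
        subst hy
        exact ⟨_, List.mem_cons_of_mem _ (List.mem_append_right _
          (List.mem_map.2 ⟨x, List.mem_range.2 (by omega), rfl⟩)), treesplit_three i1 i5⟩
  | 7, h =>
    simp only [repl] at h
    split_ifs at h with hb
    simp only [Option.some.injEq] at h
    push Not at hb
    obtain ⟨hb0, hb1⟩ := hb
    subst h
    subst hb1
    rcases treesplit_last (c0 := b0 - 1) (c1 := b0 - 1) (fun x y => x = b0 ∨ y = b0)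
      (fun x y hx hy hn => ⟨by omega, by omega⟩) hT with i | ⟨T1, x, y, T2, e, i1, i2, i3, i4, i5⟩
    · exact ⟨[mkS q (b0 - 1) (b0 - 1)], by simp, treesplit_mkS i⟩
    · subst e
      by_cases hy : y = b0
      · subst hy
        exact ⟨_, List.mem_cons_of_mem _ (List.mem_append_left _
          (List.mem_map.2 ⟨x, List.mem_range.2 (by omega), rfl⟩)), treesplit_three i1 i5⟩
      · have hx : x = b0 := by
          rcases i2 with i2 | i2
          · exact i2
          · exact absurd i2 hy
        subst hx
        exact ⟨_, List.mem_cons_of_mem _ (List.mem_append_right _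
          (List.mem_map.2 ⟨y, List.mem_range.2 (by omega), rfl⟩)), treesplit_three i1 i5⟩
  | n + 8, h => simp [repl] at h

/-- The case distinctions are exhaustive.

Proof. Induction on `p`; for the cell number `0` the word is `T ++ W'` with `T` an instance of the
cell, and it suffices to show: `T` is an instance of one of the lists of `repl` (then append `cs`).
Types 0/1: `T = []` or `T = x :: y :: T'` / `T = T' ++ [x, y]`.  Types 2..5: let `P k` be the
property that the letter number `k` of `T` (of the right parity) is the maximal one; if no `k < |T|`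
has it, the bound may be lowered by one; otherwise take the least / greatest such `k` and cut `T` in
the part before the pair containing `k`, the pair and the part after it (the cuts are at even
positions).  Types 6/7: the same with the least / greatest `k` such that the letter number `k` is
`b0` (both parities). -/
theorem children_sound {ty p : ℕ} {q : Bool} {cs : List Cell} {l : List (List Cell)}
    (h : children ty q p cs = some l) {W : List ℕ} (hW : Inst q cs W) : ∃ cs' ∈ l, Inst q cs' W := by
  induction cs generalizing p q l W with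
  | nil => simp [children] at h
  | cons c cs ih =>
    match c, p, h with
    | Cell.L v, 0, h => simp [children] at h
    | Cell.S i j, 0, h =>
      simp only [children, Option.map_eq_some_iff] at h
      obtain ⟨l0, hl0, rfl⟩ := h
      cases hW with
      | stretch _ _ _ _ T W' hl h0 h1 hW' =>
        have hb := treesplit_bw_of _ _ _ T rfl hl h0 h1
        obtain ⟨cs', hcs', hI⟩ := treesplit_repl hl0 hb
        refine ⟨cs' ++ cs, List.mem_map.2 ⟨cs', hcs', rfl⟩, treesplit_append hI ?_⟩
        have hp : treesplit_par q T.length = q := by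
          unfold treesplit_par
          rw [if_pos hl]
        rw [hp]
        exact hW'
    | Cell.L v, p + 1, h =>
      simp only [children, Option.map_eq_some_iff] at h
      obtain ⟨l0, hl0, rfl⟩ := h
      cases hW with
      | letter _ _ _ W' hW' =>
        obtain ⟨cs', hcs', hI⟩ := ih hl0 hW'
        exact ⟨Cell.L v :: cs', List.mem_map.2 ⟨cs', hcs', rfl⟩, Inst.letter q v cs' W' hI⟩
    | Cell.S i j, p + 1, h =>
      simp only [children, Option.map_eq_some_iff] at h
      obtain ⟨l0, hl0, rfl⟩ := h
      cases hW with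
      | stretch _ _ _ _ T W' hl h0 h1 hW' =>
        obtain ⟨cs', hcs', hI⟩ := ih hl0 hW'
        exact ⟨Cell.S i j :: cs', List.mem_map.2 ⟨cs', hcs', rfl⟩,
          Inst.stretch q i j cs' T W' hl h0 h1 hI⟩

end Pool.Agent.H.MP_2e666d_lc
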