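import Pool.Agent.H.MP_2e666d_lc.Defs

/-! # Iterated ultrafilter quantifiers -/

namespace Pool.Agent.H.MP_2e666d_lc

/-- the fixed nonprincipal ultrafilter -/
noncomputable def U : Ultrafilter ℕ := Filter.hyperfilter ℕ

/-- `Gen k φ`: for almost all `j_1`, for almost all `j_2`, ..., for almost all `j_k` the list
`[j_1, ..., j_k]` satisfies `φ` -/
def Gen : ℕ → (List ℕ → Prop) → Prop
  | 0, φ => φ []
  | k + 1, φ => ∀ᶠ j in (U : Filter ℕ), Gen k (fun l => φ (j :: l))

/-- selection of the entries of a list at the positions where the mask is true -/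
def sel : List Bool → List ℕ → List ℕ
  | true :: m, a :: l => a :: sel m l
  | false :: m, _ :: l => sel m l
  | _, _ => []

theorem Gen.mono {k : ℕ} {φ ψ : List ℕ → Prop} (h : ∀ l, φ l → ψ l) (hg : Gen k φ) : Gen k ψ := by
  induction k generalizing φ ψ with
  | zero => exact h [] hg
  | succ k ih =>
    rw [Gen] at hg ⊢
    exact hg.mono (fun j hj => ih (fun l => h (j :: l)) hj)

theorem Gen.and {k : ℕ} {φ ψ : List ℕ → Prop} (h1 : Gen k φ) (h2 : Gen k ψ) :
    Gen k (fun l => φ l ∧ ψ l) := by
  induction k generalizing φ ψ with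
  | zero => exact ⟨h1, h2⟩
  | succ k ih =>
    rw [Gen] at h1 h2 ⊢
    exact (h1.and h2).mono (fun j hj => ih hj.1 hj.2)

/-- finite conjunctions -/
theorem Gen.ball {k : ℕ} {ι : Type} (s : Set ι) (hs : s.Finite) {φ : ι → List ℕ → Prop}
    (h : ∀ i ∈ s, Gen k (φ i)) : Gen k (fun l => ∀ i ∈ s, φ i l) := by
  induction k generalizing φ with
  | zero => exact h
  | succ k ih =>
    rw [Gen]
    have h1 : ∀ᶠ j in (U : Filter ℕ), ∀ i ∈ s, Gen k (fun l => φ i (j :: l)) := by
      rw [Filter.eventually_all_finite hs]
      intro i hi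
      have := h i hi
      rwa [Gen] at this
    exact h1.mono (fun j hj => ih hj)

theorem gen_not {k : ℕ} {φ : List ℕ → Prop} : ¬ Gen k φ ↔ Gen k (fun l => ¬ φ l) := by
  induction k generalizing φ with
  | zero => exact Iff.rfl
  | succ k ih =>
    rw [Gen, Gen, ← Ultrafilter.eventually_not]
    constructor
    · exact fun h => h.mono (fun j hj => ih.1 hj)
    · exact fun h => h.mono (fun j hj => ih.2 hj)

/-- a generic list is strictly increasing, of length `k`, with entries above `N` -/
theorem gen_incr (k N : ℕ) :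
    Gen k (fun l => l.length = k ∧ l.Pairwise (· < ·) ∧ ∀ a ∈ l, N < a) := by
  induction k generalizing N with
  | zero => exact ⟨rfl, List.Pairwise.nil, fun a ha => absurd ha List.not_mem_nil⟩
  | succ k ih =>
    rw [Gen]
    have h1 : ∀ᶠ j in (U : Filter ℕ), N < j := by
      have h2 : ∀ᶠ j in Filter.cofinite, N < j := by
        rw [Nat.cofinite_eq_atTop]
        exact Filter.eventually_gt_atTop N
      exact Filter.hyperfilter_le_cofinite h2
    refine h1.mono (fun j hj => ?_)
    refine (ih j).mono ?_
    rintro l ⟨hl1, hl2, hl3⟩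
    refine ⟨by rw [List.length_cons, hl1], List.pairwise_cons.2 ⟨hl3, hl2⟩, ?_⟩
    intro a ha
    rcases List.mem_cons.1 ha with ha | ha
    · rw [ha]; exact hj
    · exact hj.trans (hl3 a ha)

theorem ultra_exists {k : ℕ} {φ : List ℕ → Prop} (h : Gen k φ) : ∃ l, φ l := by
  induction k generalizing φ with
  | zero => exact ⟨[], h⟩
  | succ k ih =>
    rw [Gen] at h
    obtain ⟨j, hj⟩ := h.exists
    obtain ⟨l, hl⟩ := ih hj
    exact ⟨j :: l, hl⟩

/-- a generic statement about a list of length `k` holds for some list with the properties of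
`gen_incr` -/
theorem Gen.exists_incr {k : ℕ} {φ : List ℕ → Prop} (N : ℕ) (h : Gen k φ) :
    ∃ l : List ℕ, φ l ∧ l.length = k ∧ l.Pairwise (· < ·) ∧ ∀ a ∈ l, N < a :=
  ultra_exists (h.and (gen_incr k N))

/-- sublists of generic lists are generic -/
theorem gen_sel (m : List Bool) {φ : List ℕ → Prop} (h : Gen (m.count true) φ) :
    Gen m.length (fun l => φ (sel m l)) := by
  induction m generalizing φ with
  | nil => exact h
  | cons b m ih =>
    cases b with
    | true =>
      rw [List.count_cons_self, Gen] at h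
      rw [List.length_cons, Gen]
      exact h.mono (fun j hj => ih hj)
    | false =>
      rw [List.count_cons_of_ne (by decide)] at h
      rw [List.length_cons, Gen]
      exact Filter.Eventually.of_forall (fun j => ih h)

end Pool.Agent.H.MP_2e666d_lc
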